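import Pool.Agent.H86.L9

set_option autoImplicit false
set_option linter.unusedSectionVars false

/-! Dense sets of primes and powers of `b`. -/

namespace Pool.Agent.H86.DL
open Finset
open Pool.Agent.H373R2.T7
open Pool.Agent.W93.DG
open Pool.Agent.W93.HD

/-- the prime number theorem for `θ` -/
lemma pnt_theta (ε : ℝ) (hε : 0 < ε) : ∃ n₀ : ℕ, ∀ n : ℕ, n₀ ≤ n →
    |Chebyshev.theta (n : ℝ) - n| ≤ ε * n := by
  obtain ⟨C, N1, hC, h1⟩ := pnt_lam 1
  obtain ⟨n2, h2⟩ := ev_L' (4 * C / ε)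
  obtain ⟨n3, h3⟩ := ev_log' 1 (8 / ε)
  obtain ⟨n4, hn4⟩ := exists_nat_ge (8 / ε)
  refine ⟨N1 + n2 + n3 + n4 + 2, fun n hn => ?_⟩
  have hn0 : (2 : ℝ) ≤ n := by exact_mod_cast (by omega : 2 ≤ n)
  have hlog : 0 < Real.log n := Real.log_pos (by linarith)
  have e1 := h1 n (by omega)
  rw [lam1_eq, pow_one] at e1
  have e2 := h2 n (by omega)
  have e3 := h3 n (by omega)
  rw [pow_one] at e3
  have e4 : C * (n / Real.log n) ≤ ε / 4 * n := by
    rw [div_le_iff₀ hε] at e2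
    rw [mul_div_assoc', div_le_iff₀ hlog]
    nlinarith
  have e5 : (2 : ℝ) ≤ ε / 4 * n := by
    have : (n4 : ℝ) ≤ n := by exact_mod_cast (by omega : n4 ≤ n)
    have h : 8 / ε ≤ n := hn4.trans this
    rw [div_le_iff₀ hε] at h
    linarith
  have e6 : 2 * √(n : ℝ) * Real.log n ≤ ε / 4 * n := by
    have h : Real.log n ≤ √(n : ℝ) * (ε / 8) := by
      have h5 : 8 / ε * Real.log n * (ε / 8) ≤ √(n : ℝ) * (ε / 8) := mul_le_mul_of_nonneg_right e3 (by positivity)
      have h6 : 8 / ε * Real.log n * (ε / 8) = Real.log n := by field_simp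
      linarith
    have h7 : √(n : ℝ) * √(n : ℝ) = n := Real.mul_self_sqrt (by linarith)
    have h8 : 0 ≤ √(n : ℝ) := Real.sqrt_nonneg _
    calc 2 * √(n : ℝ) * Real.log n ≤ 2 * √(n : ℝ) * (√(n : ℝ) * (ε / 8)) := mul_le_mul_of_nonneg_left h (by positivity)
      _ = ε / 4 * (√(n : ℝ) * √(n : ℝ)) := by ring
      _ = ε / 4 * n := by rw [h7]
  have e7 := Chebyshev.psi_sub_theta_le (x := (n : ℝ)) (by linarith)
  have e8 := Chebyshev.theta_le_psi (n : ℝ)
  rw [abs_le] at e1 ⊢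
  constructor <;> nlinarith [e1.1, e1.2]

/-- the prime number theorem for `π` -/
lemma pnt_pi (ε : ℝ) (hε : 0 < ε) : ∃ n₀ : ℕ, ∀ n : ℕ, n₀ ≤ n →
    (Nat.primeCounting n : ℝ) * Real.log n ≤ (1 + ε) * n ∧ (1 - ε) * n ≤ (Nat.primeCounting n : ℝ) * Real.log n := by
  obtain ⟨n1, h1⟩ := pnt_theta (ε / 2) (by positivity)
  obtain ⟨C, hC0, hC⟩ := Chebyshev.primeCounting_sub_theta_div_log_isBigO.exists_pos
  rw [Asymptotics.isBigOWith_iff] at hC
  obtain ⟨x0, hx0⟩ := Filter.eventually_atTop.1 hC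
  obtain ⟨n2, hn2⟩ := exists_nat_ge x0
  obtain ⟨n3, h3⟩ := ev_L' (2 * C / ε)
  refine ⟨n1 + n2 + n3 + 2, fun n hn => ?_⟩
  have hn0 : (2 : ℝ) ≤ n := by exact_mod_cast (by omega : 2 ≤ n)
  have hlog : 0 < Real.log n := Real.log_pos (by linarith)
  have e1 := h1 n (by omega)
  have e2 := hx0 n (by
    have : (n2 : ℝ) ≤ n := by exact_mod_cast (by omega : n2 ≤ n)
    linarith)
  rw [Nat.floor_natCast, Real.norm_eq_abs, Real.norm_eq_abs, abs_of_nonneg (by positivity : (0 : ℝ) ≤ n / Real.log n ^ 2)] at e2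
  have e3 := h3 n (by omega)
  have e5 := Chebyshev.theta_le_pi_mul_log n
  rw [abs_le] at e1 e2
  constructor
  · have e4 : (Nat.primeCounting n : ℝ) * Real.log n ≤ Chebyshev.theta n + C * (n / Real.log n) := by
      have h5 := mul_le_mul_of_nonneg_right e2.2 hlog.le
      have h6 : ((Nat.primeCounting n : ℝ) - Chebyshev.theta n / Real.log n) * Real.log n =
          (Nat.primeCounting n : ℝ) * Real.log n - Chebyshev.theta n := by field_simp
      have h7 : C * (n / Real.log n ^ 2) * Real.log n = C * (n / Real.log n) := by field_simp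
      rw [h6, h7] at h5
      linarith
    have e6 : C * (n / Real.log n) ≤ ε / 2 * n := by
      rw [div_le_iff₀ hε] at e3
      rw [mul_div_assoc', div_le_iff₀ hlog]
      nlinarith
    linarith [e1.2]
  · have h9 : 0 ≤ ε / 2 * n := by positivity
    linarith [e1.1]

section Omega
variable {ι : Type} [Fintype ι] [DecidableEq ι]

/-- the total mass of the smoothed function -/
lemma WW_mass (b : ℕ) (f : ℕ → ℝ) (X T Y : ℕ) (Ω : Finset (ℕ × (ι → ℕ × ℕ))) (hf : ∀ n, 0 ≤ f n) (hT : ∀ o ∈ Ω, vd b o ≤ T)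
    (hY : Y ≤ X) :
    (Ω.card : ℝ) * ∑ n ∈ Icc 1 (Y - T), f n ≤ ∑ x ∈ Icc 1 Y, WW b f X Ω x := by
  classical
  have h1 : ∑ x ∈ Icc 1 Y, WW b f X Ω x = ∑ i ∈ Ω ×ˢ Icc 1 X, (if i.2 + vd b i.1 ∈ Icc 1 Y then f i.2 else 0) := by
    unfold WW
    rw [sum_comm]
    apply sum_congr rfl
    intro i _
    rw [sum_ite_eq]
  rw [h1, sum_product, ← nsmul_eq_mul, ← sum_const]
  apply sum_le_sum
  intro o ho
  have h2 := hT o ho
  have h4 : ∀ a ∈ Icc 1 (Y - T), f a = (if a + vd b o ∈ Icc 1 Y then f a else 0) := by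
    intro a ha
    rw [mem_Icc] at ha
    rw [if_pos (mem_Icc.2 ⟨by omega, by omega⟩)]
  rw [sum_congr rfl h4]
  apply sum_le_sum_of_subset_of_nonneg
  · apply Icc_subset_Icc le_rfl
    omega
  · intro a _ _
    split_ifs
    · exact hf a
    · exact le_rfl

lemma WW_pos_ex (b : ℕ) (f : ℕ → ℝ) (X : ℕ) (Ω : Finset (ℕ × (ι → ℕ × ℕ))) (x : ℕ) (h : WW b f X Ω x ≠ 0) :
    ∃ o ∈ Ω, ∃ n ∈ Icc 1 X, n + vd b o = x ∧ f n ≠ 0 := by
  unfold WW at h
  obtain ⟨i, hi, hne⟩ := exists_ne_zero_of_sum_ne_zero h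
  rw [mem_product] at hi
  by_cases hx : i.2 + vd b i.1 = x
  · rw [if_pos hx] at hne
    exact ⟨i.1, hi.1, i.2, hi.2, hx, hne⟩
  · rw [if_neg hx] at hne
    exact absurd rfl hne

end Omega

/-- the mass of a set of primes -/
lemma mass_primes (N y : ℕ) (hyN : y ≤ N) (P : Finset ℕ) (hP : ∀ p ∈ P, p.Prime ∧ p ≤ N) :
    Chebyshev.theta y - ((Nat.primeCounting N : ℝ) - P.card) * Real.log N ≤
      ∑ n ∈ Icc 1 y, (if n ∈ P then ArithmeticFunction.vonMangoldt n else 0) := by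
  classical
  obtain ⟨A, hA⟩ : ∃ A, A = (Icc 1 N).filter Nat.Prime := ⟨_, rfl⟩
  have hcard : A.card = Nat.primeCounting N := by
    rw [hA, Nat.primeCounting, Nat.primeCounting', Nat.count_eq_card_filter_range]
    congr 1
    ext p
    rw [mem_filter, mem_filter, mem_Icc, mem_range]
    constructor
    · rintro ⟨h1, h2⟩; exact ⟨by omega, h2⟩
    · rintro ⟨h1, h2⟩; exact ⟨⟨h2.one_le, by omega⟩, h2⟩
  have hPA : P ⊆ A := by
    intro p hp
    rw [hA, mem_filter, mem_Icc]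
    exact ⟨⟨(hP p hp).1.one_le, (hP p hp).2⟩, (hP p hp).1⟩
  have h1 : Chebyshev.theta y = ∑ n ∈ Icc 1 y, (if n.Prime then Real.log n else 0) := by
    rw [Chebyshev.theta, Nat.floor_natCast, sum_filter]
    apply sum_congr _ fun _ _ => rfl
    ext n
    rw [mem_Ioc, mem_Icc]
    omega
  have h2 : Chebyshev.theta y - ∑ n ∈ Icc 1 y, (if n ∈ P then ArithmeticFunction.vonMangoldt n else 0) ≤
      ∑ n ∈ Icc 1 y, (if n ∈ A \ P then Real.log N else 0) := by
    rw [h1, ← sum_sub_distrib]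
    apply sum_le_sum
    intro n hn
    rw [mem_Icc] at hn
    have hlogn : 0 ≤ Real.log n := Real.log_nonneg (by exact_mod_cast hn.1)
    have hlogN : Real.log n ≤ Real.log N := Real.log_le_log (by exact_mod_cast hn.1) (by exact_mod_cast hn.2.trans hyN)
    by_cases hnP : n ∈ P
    · have hpr := (hP n hnP).1
      rw [if_pos hpr, if_pos hnP, if_neg (by rw [mem_sdiff]; tauto), ArithmeticFunction.vonMangoldt_apply_prime hpr]
      simp
    · rw [if_neg hnP, sub_zero]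
      by_cases hpr : n.Prime
      · rw [if_pos hpr, if_pos]
        · exact hlogN
        · rw [mem_sdiff, hA, mem_filter, mem_Icc]
          exact ⟨⟨⟨hn.1, hn.2.trans hyN⟩, hpr⟩, hnP⟩
      · rw [if_neg hpr]
        split_ifs
        · linarith
        · exact le_rfl
  have h3 : ∑ n ∈ Icc 1 y, (if n ∈ A \ P then Real.log N else 0) ≤ ((A \ P).card : ℝ) * Real.log N := by
    have hlogN : 0 ≤ Real.log N := Real.log_natCast_nonneg N
    rw [← sum_filter, sum_const, nsmul_eq_mul]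
    apply mul_le_mul_of_nonneg_right _ hlogN
    have : (Icc 1 y).filter (fun n => n ∈ A \ P) ⊆ A \ P := by
      intro n hn
      exact (mem_filter.1 hn).2
    exact_mod_cast card_le_card this
  have h4 : ((A \ P).card : ℝ) = (Nat.primeCounting N : ℝ) - P.card := by
    rw [card_sdiff_of_subset hPA, hcard, Nat.cast_sub (by rw [← hcard]; exact card_le_card hPA)]
  rw [h4] at h3
  linarith

end Pool.Agent.H86.DL
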