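import Pool.Agent.H86.L10

set_option autoImplicit false
set_option linter.unusedSectionVars false

/-! Dense sets of primes and powers of `b`: the counting argument. -/

namespace Pool.Agent.H86.DL
open Finset
open Pool.Agent.H373R2.T7
open Pool.Agent.W93.DG
open Pool.Agent.W93.HD

lemma B0_le (b : ℕ) (hb : b ≠ 0) : B0 b ≤ b := by
  have h1 := B0_mul b hb
  have h2 : (1 : ℝ) ≤ Nat.totient b := by exact_mod_cast Nat.totient_pos.2 (Nat.pos_of_ne_zero hb)
  have h3 := B0_ge_one b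
  nlinarith

lemma ph_le (b x : ℕ) (hb : b ≠ 0) : ph b x ≤ b := by
  unfold ph
  split_ifs
  · exact B0_le b hb
  · exact Nat.cast_nonneg _

lemma ph_refl (b N x : ℕ) (hN : b ∣ N) (hx : x ≤ N) : ph b (N - x) = ph b x := by
  obtain ⟨m, rfl⟩ := hN
  have h : b.Coprime (b * m - x) ↔ b.Coprime x := by
    rw [← Nat.isCoprime_iff_coprime, ← Nat.isCoprime_iff_coprime, Nat.cast_sub hx, Nat.cast_mul, sub_eq_add_neg,
      IsCoprime.mul_add_left_right_iff, IsCoprime.neg_right_iff]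
  unfold ph
  simp only [h]

lemma sum_refl (N : ℕ) (g : ℕ → ℝ) : ∑ x ∈ Icc 1 (N - 1), g (N - x) = ∑ x ∈ Icc 1 (N - 1), g x := by
  apply sum_nbij' (fun x => N - x) (fun x => N - x)
  · intro x hx
    rw [mem_Icc] at hx ⊢
    omega
  · intro x hx
    rw [mem_Icc] at hx ⊢
    omega
  · intro x hx
    rw [mem_Icc] at hx
    show N - (N - x) = x
    omega
  · intro x hx
    rw [mem_Icc] at hx
    show N - (N - x) = x
    omega
  · intro x _
    rfl

section Omega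
variable {ι : Type} [Fintype ι] [DecidableEq ι]

lemma core (b K T N' : ℕ) (hb : 2 ≤ b) (Ω : Finset (ℕ × (ι → ℕ × ℕ))) (κ : ℝ) (hκ : 0 ≤ κ)
    (hT : ∀ o ∈ Ω, vd b o ≤ T) (hbN : b ∣ N') (hN1 : 1 ≤ N') (hNX : N' ≤ b ^ K) (hXN : b ^ K ≤ b * N')
    (hS : ∑ y ∈ Icc 1 (b ^ K), (WW b (fun n => ArithmeticFunction.vonMangoldt n) (b ^ K) Ω y - Ω.card * ph b y) ^ 2 ≤
      κ * ((Ω.card : ℝ) ^ 2 * ((b ^ K : ℕ) : ℝ)))
    (P Q : Finset ℕ)
    (hno : ∀ p ∈ P, ∀ q ∈ Q, ∀ o ∈ Ω, ∀ o' ∈ Ω, p + q + vd b o + vd b o' = N' → p = q) :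
    ∑ x ∈ Icc 1 (N' - 1), WW b (fun n => if n ∈ P then ArithmeticFunction.vonMangoldt n else 0) (b ^ K) Ω x +
      ∑ x ∈ Icc 1 (N' - 1), WW b (fun n => if n ∈ Q then ArithmeticFunction.vonMangoldt n else 0) (b ^ K) Ω x ≤
      (Ω.card : ℝ) * (N' + 2 * (N' * √(κ * b)) + b * (T + 1)) := by
  classical
  obtain ⟨X, hX⟩ : ∃ X, X = b ^ K := ⟨_, rfl⟩
  rw [← hX] at hNX hXN hS ⊢
  obtain ⟨O, hO⟩ : ∃ O : ℝ, O = (Ω.card : ℝ) := ⟨_, rfl⟩
  have hO0 : 0 ≤ O := by rw [hO]; exact Nat.cast_nonneg _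
  rw [← hO] at hS ⊢
  obtain ⟨e, he⟩ : ∃ e : ℕ → ℝ, e = fun y => |WW b (fun n => ArithmeticFunction.vonMangoldt n) X Ω y - O * ph b y| := ⟨_, rfl⟩
  obtain ⟨F, hF⟩ : ∃ F : Finset ℕ → ℕ → ℝ, F = fun A n => if n ∈ A then ArithmeticFunction.vonMangoldt n else 0 := ⟨_, rfl⟩
  have hΛ : ∀ n : ℕ, 0 ≤ ArithmeticFunction.vonMangoldt n := fun n => ArithmeticFunction.vonMangoldt_nonneg
  have hF0 : ∀ A n, 0 ≤ F A n := by
    intro A n
    rw [hF]
    simp only
    split_ifs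
    · exact hΛ n
    · exact le_rfl
  have hF1 : ∀ A n, F A n ≤ ArithmeticFunction.vonMangoldt n := by
    intro A n
    rw [hF]
    simp only
    split_ifs
    · exact le_rfl
    · exact hΛ n
  have hWle : ∀ A x, WW b (F A) X Ω x ≤ O * ph b x + e x := by
    intro A x
    refine (WW_mono b (F A) (fun n => ArithmeticFunction.vonMangoldt n) X Ω x (fun n _ => hF1 A n)).trans ?_
    rw [he]
    simp only
    have := le_abs_self (WW b (fun n => ArithmeticFunction.vonMangoldt n) X Ω x - O * ph b x)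
    linarith
  have hW0 : ∀ A x, 0 ≤ WW b (F A) X Ω x := fun A x => WW_nonneg b (F A) X Ω x (fun n _ => hF0 A n)
  have he0 : ∀ x, 0 ≤ e x := by
    intro x
    rw [he]
    exact abs_nonneg _
  have hpt : ∀ x ∈ Icc 1 (N' - 1), WW b (F P) X Ω x + WW b (F Q) X Ω (N' - x) ≤
      O * ph b x + (e x + e (N' - x)) + (if N' ≤ 2 * x + T ∧ 2 * x ≤ N' + T then O * b else 0) := by
    intro x hx
    rw [mem_Icc] at hx
    have h1 := hWle P x
    have h2 := hWle Q (N' - x)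
    rw [ph_refl b N' x hbN (by omega)] at h2
    have h3 := hW0 P x
    have h4 := hW0 Q (N' - x)
    have h5 := he0 x
    have h6 := he0 (N' - x)
    have h7 := mul_nonneg hO0 (ph_nonneg b x)
    split_ifs with hc
    · have h8 := mul_le_mul_of_nonneg_left (ph_le b x (by omega)) hO0
      linarith
    · by_cases hz1 : WW b (F P) X Ω x = 0
      · rw [hz1]; linarith
      · by_cases hz2 : WW b (F Q) X Ω (N' - x) = 0
        · rw [hz2]; linarith
        · exfalso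
          obtain ⟨o, ho, p, hp, hpx, hfp⟩ := WW_pos_ex b (F P) X Ω x hz1
          obtain ⟨o', ho', q, hq, hqx, hfq⟩ := WW_pos_ex b (F Q) X Ω (N' - x) hz2
          have hpP : p ∈ P := by
            by_contra h
            rw [hF] at hfp
            exact hfp (if_neg h)
          have hqQ : q ∈ Q := by
            by_contra h
            rw [hF] at hfq
            exact hfq (if_neg h)
          have hpq := hno p hpP q hqQ o ho o' ho' (by omega)
          have e1 := hT o ho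
          have e2 := hT o' ho'
          apply hc
          omega
  have hsumE : ∑ x ∈ Icc 1 (N' - 1), e x ≤ O * (N' * √(κ * b)) := by
    have h1 : (∑ x ∈ Icc 1 (N' - 1), e x) ^ 2 ≤ (O * (N' * √(κ * b))) ^ 2 := by
      have h2 := sq_sum_le_card_mul_sum_sq (s := Icc 1 (N' - 1)) (f := e)
      have h3 : ∑ x ∈ Icc 1 (N' - 1), e x ^ 2 ≤ κ * (O ^ 2 * (X : ℝ)) := by
        refine le_trans ?_ hS
        have h4 : ∑ x ∈ Icc 1 (N' - 1), e x ^ 2 ≤ ∑ x ∈ Icc 1 X, e x ^ 2 :=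
          sum_le_sum_of_subset_of_nonneg (Icc_subset_Icc le_rfl (by omega)) fun _ _ _ => sq_nonneg _
        refine h4.trans (le_of_eq ?_)
        apply sum_congr rfl
        intro x _
        rw [he]
        exact sq_abs _
      have h5 : ((Icc 1 (N' - 1)).card : ℝ) ≤ N' := by
        rw [Nat.card_Icc]
        exact_mod_cast (by omega : N' - 1 + 1 - 1 ≤ N')
      have h6 : (X : ℝ) ≤ b * N' := by exact_mod_cast hXN
      have h7 : √(κ * b) ^ 2 = κ * b := Real.sq_sqrt (by positivity)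
      calc (∑ x ∈ Icc 1 (N' - 1), e x) ^ 2 ≤ ((Icc 1 (N' - 1)).card : ℝ) * ∑ x ∈ Icc 1 (N' - 1), e x ^ 2 := h2
        _ ≤ N' * (κ * (O ^ 2 * (X : ℝ))) := mul_le_mul h5 h3 (sum_nonneg fun _ _ => sq_nonneg _) (Nat.cast_nonneg _)
        _ ≤ N' * (κ * (O ^ 2 * (b * N'))) := by
            apply mul_le_mul_of_nonneg_left _ (Nat.cast_nonneg _)
            apply mul_le_mul_of_nonneg_left _ hκ
            exact mul_le_mul_of_nonneg_left h6 (sq_nonneg _)
        _ = O ^ 2 * (N' : ℝ) ^ 2 * (κ * b) := by ring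
        _ = O ^ 2 * (N' : ℝ) ^ 2 * √(κ * b) ^ 2 := by rw [h7]
        _ = _ := by ring
    exact le_of_sq_le_sq h1 (by positivity)
  have hcount : ∑ x ∈ Icc 1 (N' - 1), (if N' ≤ 2 * x + T ∧ 2 * x ≤ N' + T then O * b else 0) ≤ O * (b * (T + 1)) := by
    rw [← sum_filter, sum_const, nsmul_eq_mul]
    have h1 : (Icc 1 (N' - 1)).filter (fun x => N' ≤ 2 * x + T ∧ 2 * x ≤ N' + T) ⊆ Icc ((N' + 1 - T) / 2) ((N' + T) / 2) := by
      intro x hx
      rw [mem_filter, mem_Icc] at hx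
      rw [mem_Icc]
      omega
    have h2 := card_le_card h1
    rw [Nat.card_Icc] at h2
    have h3 : (((Icc 1 (N' - 1)).filter (fun x => N' ≤ 2 * x + T ∧ 2 * x ≤ N' + T)).card : ℝ) ≤ T + 1 := by
      exact_mod_cast h2.trans (by omega)
    calc _ ≤ ((T : ℝ) + 1) * (O * b) := mul_le_mul_of_nonneg_right h3 (by positivity)
      _ = _ := by ring
  have hph : ∑ x ∈ Icc 1 (N' - 1), O * ph b x ≤ O * N' := by
    rw [← mul_sum]
    apply mul_le_mul_of_nonneg_left _ hO0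
    obtain ⟨m, hm⟩ := hbN
    have h1 := sum_ph b m (by omega)
    rw [← hm] at h1
    rw [← h1]
    exact sum_le_sum_of_subset_of_nonneg (Icc_subset_Icc le_rfl (by omega)) fun _ _ _ => ph_nonneg _ _
  have hfin := sum_le_sum hpt
  rw [sum_add_distrib, sum_add_distrib, sum_add_distrib, sum_add_distrib, sum_refl N' (fun x => WW b (F Q) X Ω x), sum_refl N' e] at hfin
  have hgoal : ∑ x ∈ Icc 1 (N' - 1), WW b (F P) X Ω x + ∑ x ∈ Icc 1 (N' - 1), WW b (F Q) X Ω x ≤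
      O * (N' + 2 * (N' * √(κ * b)) + b * (T + 1)) := by
    have : O * (N' + 2 * (N' * √(κ * b)) + b * (T + 1)) = O * N' + (O * (N' * √(κ * b)) + O * (N' * √(κ * b))) + O * (b * (T + 1)) := by ring
    rw [this]
    linarith
  rw [hF] at hgoal
  exact hgoal

end Omega

/-- for all large `N`, any two sets of primes up to `N` with together more than `(1 + ε) π(N)` elements
represent `N` as a sum of an element of each and a bounded number of powers of `b` -/
theorem dense_linnik (b : ℕ) (hb : 2 ≤ b) (ε : ℝ) (hε : 0 < ε) : ∃ K N₀ : ℕ, ∀ N : ℕ, N₀ ≤ N → ∀ P Q : Finset ℕ,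
    (∀ p ∈ P, p.Prime ∧ p ≤ N) → (∀ q ∈ Q, q.Prime ∧ q ≤ N) →
    (1 + ε) * (Nat.primeCounting N : ℝ) ≤ (P.card : ℝ) + Q.card →
    ∃ p ∈ P, ∃ q ∈ Q, p ≠ q ∧ PS b K (N - (p + q)) ∧ p + q ≤ N := by
  classical
  obtain ⟨ε', hε', hε'1, hεε⟩ : ∃ ε' : ℝ, 0 < ε' ∧ ε' ≤ 1 ∧ ε' ≤ ε := ⟨min ε 1, lt_min hε one_pos, min_le_right _ _, min_le_left _ _⟩
  have hb0 : (2 : ℝ) ≤ b := by exact_mod_cast hb
  obtain ⟨κ, hκ⟩ : ∃ κ : ℝ, κ = (ε' / (32 * b)) ^ 2 := ⟨_, rfl⟩
  have hκ0 : 0 < κ := by rw [hκ]; positivity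
  obtain ⟨s, K₀, hs⟩ := smooth b hb κ hκ0
  obtain ⟨n1, hn1⟩ := pnt_theta (ε' / 12) (by positivity)
  obtain ⟨n2, hn2⟩ := pnt_pi (ε' / 12) (by positivity)
  obtain ⟨n3, hn3⟩ := exists_nat_ge (1 / κ + 16 * b / ε')
  refine ⟨2 * (1 + 3 * s) + b, 4 * n1 + n2 + n3 + b ^ (K₀ + 2) + 8 * b, fun N hN P Q hP hQ hPQ => ?_⟩
  by_contra hcon
  push Not at hcon
  -- set up
  obtain ⟨N', hN'⟩ : ∃ N', N' = b * (N / b) := ⟨_, rfl⟩
  have hmod : N = N' + N % b := by rw [hN']; exact (Nat.div_add_mod N b).symm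
  have hmodlt : N % b < b := Nat.mod_lt _ (by omega)
  have hbN : b ∣ N' := ⟨_, hN'⟩
  have hN'1 : 1 ≤ N' := by omega
  obtain ⟨K, hK⟩ : ∃ K, K = Nat.log b N' + 1 := ⟨_, rfl⟩
  have hNX : N' < b ^ K := by rw [hK]; exact Nat.lt_pow_succ_log_self (by omega) N'
  have hXN : b ^ K ≤ b * N' := by
    rw [hK, pow_succ']
    exact Nat.mul_le_mul_left _ (Nat.pow_log_le_self b (by omega))
  have hKK : K₀ ≤ K := by
    by_contra h
    have h1 : b ^ K ≤ b ^ (K₀ + 2) := Nat.pow_le_pow_right (by omega) (by omega)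
    omega
  obtain ⟨Ω, hΩne, hΩ, hS⟩ := hs K hKK
  obtain ⟨T, hTdef⟩ : ∃ T, T = ⌊κ * ((b ^ K : ℕ) : ℝ)⌋₊ := ⟨_, rfl⟩
  have hT : ∀ o ∈ Ω, vd b o ≤ T := by
    intro o ho
    rw [hTdef]
    apply Nat.le_floor
    have := (hΩ o ho).2.2
    push_cast at this ⊢
    exact this
  have hTle : (T : ℝ) ≤ κ * (b * N') := by
    have h1 : (T : ℝ) ≤ κ * ((b ^ K : ℕ) : ℝ) := by rw [hTdef]; exact Nat.floor_le (by positivity)
    refine h1.trans (mul_le_mul_of_nonneg_left ?_ hκ0.le)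
    exact_mod_cast hXN
  have hno : ∀ p ∈ P, ∀ q ∈ Q, ∀ o ∈ Ω, ∀ o' ∈ Ω, p + q + vd b o + vd b o' = N' → p = q := by
    intro p hp q hq o ho o' ho' heq
    by_contra hne
    have h1 := PS_add b _ _ _ _ (hΩ o ho).1 (hΩ o' ho').1
    have h2 := PS_add b _ _ _ _ h1 (PS_mono b (N % b) b (N % b) (PS_ones b (N % b)) (by omega))
    have h3 : N - (p + q) = vd b o + vd b o' + N % b := by omega
    refine absurd ?_ (not_le.2 (hcon p hp q hq hne (by
      rw [h3]
      exact PS_mono b _ _ _ h2 (by omega))))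
    omega
  have hcore := core b K T N' hb Ω κ hκ0.le hT hbN hN'1 hNX.le hXN hS P Q hno
  -- lower bound
  obtain ⟨O, hO⟩ : ∃ O : ℝ, O = (Ω.card : ℝ) := ⟨_, rfl⟩
  have hO0 : 0 < O := by rw [hO]; exact_mod_cast hΩne.card_pos
  rw [← hO] at hcore
  have hlow : ∀ A : Finset ℕ, (∀ p ∈ A, p.Prime ∧ p ≤ N) →
      O * (Chebyshev.theta ((N' - 1 - T : ℕ) : ℝ) - ((Nat.primeCounting N : ℝ) - A.card) * Real.log N) ≤
      ∑ x ∈ Icc 1 (N' - 1), WW b (fun n => if n ∈ A then ArithmeticFunction.vonMangoldt n else 0) (b ^ K) Ω x := by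
    intro A hA
    have h1 := WW_mass b (fun n => if n ∈ A then ArithmeticFunction.vonMangoldt n else 0) (b ^ K) T (N' - 1) Ω (by
      intro n
      split_ifs
      · exact ArithmeticFunction.vonMangoldt_nonneg
      · exact le_rfl) hT (by omega)
    rw [← hO] at h1
    refine le_trans (mul_le_mul_of_nonneg_left ?_ hO0.le) h1
    exact mass_primes N (N' - 1 - T) (by omega) A hA
  have hl1 := hlow P hP
  have hl2 := hlow Q hQ
  have hall : O * (2 * Chebyshev.theta ((N' - 1 - T : ℕ) : ℝ) - (2 * (Nat.primeCounting N : ℝ) - P.card - Q.card) * Real.log N) ≤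
      O * (N' + 2 * (N' * √(κ * b)) + b * (T + 1)) := by
    refine le_trans (le_of_eq ?_) ((add_le_add hl1 hl2).trans hcore)
    ring
  have hall2 := le_of_mul_le_mul_left hall hO0
  -- numbers
  have hN'0 : (1 : ℝ) ≤ N' := by exact_mod_cast hN'1
  have hn3' : (1 / κ + 16 * b / ε') ≤ N' := by
    refine hn3.trans ?_
    exact_mod_cast (by omega : n3 ≤ N')
  have hc1 : 1 ≤ κ * N' := by
    have h1 : 1 / κ ≤ N' := by
      have : 0 ≤ 16 * b / ε' := by positivity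
      linarith
    rw [div_le_iff₀ hκ0] at h1
    linarith
  have hc2 : 16 * (b : ℝ) ≤ ε' * N' := by
    have h1 : 16 * b / ε' ≤ N' := by
      have : 0 ≤ 1 / κ := by positivity
      linarith
    rw [div_le_iff₀ hε'] at h1
    linarith
  have hκb : κ * b * (2 * b) ≤ ε' / 256 := by
    have h1 : κ * b * (2 * b) = ε' ^ 2 / 512 := by
      rw [hκ]
      field_simp
      ring
    rw [h1]
    nlinarith
  have hsq : √(κ * b) ≤ ε' / 32 := by
    have h1 : κ * b ≤ (ε' / 32) ^ 2 := by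
      have h2 : κ * b = (ε' / 32) ^ 2 / b := by
        rw [hκ]
        field_simp
      rw [h2, div_le_iff₀ (by linarith)]
      have h3 : 0 ≤ (ε' / 32) ^ 2 := sq_nonneg _
      nlinarith
    calc √(κ * b) ≤ √((ε' / 32) ^ 2) := Real.sqrt_le_sqrt h1
      _ = ε' / 32 := Real.sqrt_sq (by positivity)
  have hT4 : (T : ℝ) ≤ N' / 4 := by
    have h1 : κ * b ≤ 1 / 4 := by
      have h2 : κ * b * 4 ≤ κ * b * (2 * b) := mul_le_mul_of_nonneg_left (by linarith) (by positivity)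
      linarith
    have h3 : κ * (b * N') ≤ 1 / 4 * N' := by
      have := mul_le_mul_of_nonneg_right h1 (by linarith : (0 : ℝ) ≤ N')
      linarith
    linarith
  have hTN : 4 * T ≤ N' := by
    have : 4 * (T : ℝ) ≤ N' := by linarith
    exact_mod_cast this
  have hth := hn1 (N' - 1 - T) (by omega)
  have hpi := (hn2 N (by omega)).1
  have hcast : ((N' - 1 - T : ℕ) : ℝ) = N' - 1 - T := by
    rw [Nat.cast_sub (by omega), Nat.cast_sub hN'1, Nat.cast_one]
  rw [abs_le] at hth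
  have hth1 := hth.1
  obtain ⟨Th, hTh⟩ : ∃ Th : ℝ, Th = Chebyshev.theta ((N' - 1 - T : ℕ) : ℝ) := ⟨_, rfl⟩
  rw [← hTh] at hth1 hall2
  rw [hcast] at hth1
  have hlogN : 0 ≤ Real.log N := Real.log_natCast_nonneg N
  have hbracket : (2 * (Nat.primeCounting N : ℝ) - P.card - Q.card) * Real.log N ≤ (1 - ε') * ((1 + ε' / 12) * N) := by
    have h1 : 2 * (Nat.primeCounting N : ℝ) - P.card - Q.card ≤ (1 - ε') * Nat.primeCounting N := by
      have h2 : ε' * (Nat.primeCounting N : ℝ) ≤ ε * Nat.primeCounting N := mul_le_mul_of_nonneg_right hεε (Nat.cast_nonneg _)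
      linarith
    calc _ ≤ ((1 - ε') * Nat.primeCounting N) * Real.log N := mul_le_mul_of_nonneg_right h1 hlogN
      _ = (1 - ε') * (Nat.primeCounting N * Real.log N) := by ring
      _ ≤ _ := mul_le_mul_of_nonneg_left hpi (by linarith)
  have hNN' : (N : ℝ) ≤ N' + b := by
    have : N ≤ N' + b := by omega
    exact_mod_cast this
  have hN0 : (0 : ℝ) ≤ N := Nat.cast_nonneg _
  have hT0 : (0 : ℝ) ≤ T := Nat.cast_nonneg _
  -- bound the error terms
  have hb1 : (b : ℝ) * (T + 1) ≤ ε' / 256 * N' := by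
    have h1 : (T : ℝ) + 1 ≤ κ * (b * N') + κ * N' := by linarith
    have h2 : κ * (b * N') + κ * N' ≤ κ * (2 * b * N') := by nlinarith [mul_pos hκ0 (by linarith : (0 : ℝ) < N')]
    calc (b : ℝ) * (T + 1) ≤ b * (κ * (2 * b * N')) := mul_le_mul_of_nonneg_left (h1.trans h2) (by linarith)
      _ = κ * b * (2 * b) * N' := by ring
      _ ≤ _ := mul_le_mul_of_nonneg_right hκb (by linarith)
  have hb2 : (T : ℝ) + 1 ≤ ε' / 512 * N' := by nlinarith
  have hb3 : 2 * (N' * √(κ * b)) ≤ ε' / 16 * N' := by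
    have := mul_le_mul_of_nonneg_left hsq (by linarith : (0 : ℝ) ≤ N')
    linarith
  have hb4 : (1 - ε') * ((1 + ε' / 12) * N) ≤ (1 - ε') * ((1 + ε' / 12) * (N' + b)) := by
    apply mul_le_mul_of_nonneg_left _ (by linarith)
    exact mul_le_mul_of_nonneg_left hNN' (by linarith)
  have hb5 : (1 - ε') * ((1 + ε' / 12) * (N' + b)) ≤ (1 - ε' * (11 / 12)) * (N' + b) := by
    have h1 : (1 - ε') * (1 + ε' / 12) ≤ 1 - ε' * (11 / 12) := by nlinarith
    have h2 := mul_le_mul_of_nonneg_right h1 (by linarith : (0 : ℝ) ≤ N' + b)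
    linarith
  have hb6 : (1 - ε' * (11 / 12)) * (N' + b) ≤ (1 - ε' * (11 / 12)) * N' + ε' / 16 * N' := by
    have h1 : (1 - ε' * (11 / 12)) * b ≤ 1 * b := mul_le_mul_of_nonneg_right (by linarith) (by linarith)
    linarith
  have hb7 : 2 * Th ≥ 2 * ((1 - ε' / 12) * (N' - 1 - T)) := by linarith
  have hb8 : (1 - ε' / 12) * (N' - 1 - T) ≥ (1 - ε' / 12) * N' - ε' / 512 * N' := by
    have h1 : (1 - ε' / 12) * (1 + T) ≤ 1 * (1 + T) := mul_le_mul_of_nonneg_right (by linarith) (by linarith)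
    linarith
  nlinarith

end Pool.Agent.H86.DL
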