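import Pool.Agent.H86.L1

set_option autoImplicit false
set_option linter.unusedSectionVars false

/-! Random sums of powers of `b`, and the functions they smooth. -/

namespace Pool.Agent.H86.DL
open Finset
open Pool.Agent.H807R2.Dav (ee norm_ee ee_zero ee_add)
open Pool.Agent.H373R2.T7
open Pool.Agent.W93.DG
open Pool.Agent.W93.HD

lemma conj_ee (x : ℝ) : (starRingEnd ℂ) (ee x) = ee (-x) := by
  have h1 : ee x * (starRingEnd ℂ) (ee x) = 1 := by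
    rw [Complex.mul_conj, Complex.normSq_eq_norm_sq, norm_ee]; simp
  have h2 : ee x * ee (-x) = 1 := by rw [← ee_add, add_neg_cancel, ee_zero]
  have h3 : ee x ≠ 0 := by
    intro h
    rw [h, zero_mul] at h2
    exact zero_ne_one h2
  exact mul_left_cancel₀ h3 (h1.trans h2.symm)

lemma fl0 (b j : ℕ) : fl b 0 j = ((b ^ j : ℕ) : ℤ) := by
  unfold fl
  rw [Nat.zero_div, Nat.zero_mod, if_pos rfl]
  push_cast
  ring

/-- the sum of the squares of the values of a weighted count -/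
lemma sq_fib {ι : Type*} (I : Finset ι) (c : ι → ℝ) (φ : ι → ℕ) (S : Finset ℕ) :
    ∑ x ∈ S, (∑ i ∈ I, if φ i = x then c i else 0) ^ 2 ≤ ∑ i ∈ I, ∑ j ∈ I, (if φ i = φ j then c i * c j else 0) := by
  classical
  have h1 : ∑ x ∈ S, (∑ i ∈ I, if φ i = x then c i else 0) ^ 2 ≤
      ∑ x ∈ S ∪ I.image φ, (∑ i ∈ I, if φ i = x then c i else 0) ^ 2 :=
    sum_le_sum_of_subset_of_nonneg subset_union_left fun _ _ _ => sq_nonneg _
  refine h1.trans (le_of_eq ?_)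
  have h2 : ∀ x ∈ S ∪ I.image φ, (∑ i ∈ I, if φ i = x then c i else 0) ^ 2 =
      ∑ i ∈ I, ∑ j ∈ I, (if φ i = x then c i else 0) * (if φ j = x then c j else 0) := by
    intro x _
    rw [sq, sum_mul_sum]
  rw [sum_congr rfl h2, sum_comm]
  apply sum_congr rfl
  intro i hi
  rw [sum_comm]
  apply sum_congr rfl
  intro j _
  rw [sum_eq_single (φ i)]
  · by_cases h : φ i = φ j
    · rw [if_pos rfl, if_pos h.symm, if_pos h]
    · rw [if_pos rfl, if_neg (fun h' => h h'.symm), if_neg h, mul_zero]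
  · intro x _ hx
    rw [if_neg (fun h => hx h.symm), zero_mul]
  · intro h
    exact absurd (mem_union_right _ (mem_image_of_mem _ hi)) h

section Omega
variable {ι : Type*} [Fintype ι] [DecidableEq ι]

/-- the value of a choice -/
def vd (b : ℕ) (o : ℕ × (ι → ℕ × ℕ)) : ℕ := b ^ o.1 + ∑ c, (o.2 c).2 * b ^ (o.2 c).1

lemma card_Om (J : Finset ℕ) (x l : ι → ℕ) : (J ×ˢ Ov x l).card = J.card * ∏ c, (2 * l c) := by
  rw [card_product, card_Ov]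

lemma sum_vd {E : Type*} [CommRing E] (χ : ℕ → E) (h0 : χ 0 = 1) (hadd : ∀ a a', χ (a + a') = χ a * χ a') (b : ℕ) (J : Finset ℕ)
    (x l : ι → ℕ) :
    ∑ o ∈ J ×ˢ Ov x l, χ (vd b o) = (∑ j ∈ J, χ (b ^ j)) * ∏ c, ∑ j ∈ Ico (x c) (x c + l c), (1 + χ (b ^ j)) := by
  have hsum : ∀ (S : Finset ι) (f : ι → ℕ), χ (∑ c ∈ S, f c) = ∏ c ∈ S, χ (f c) := by
    intro S f
    induction S using Finset.induction_on with
    | empty => simp [h0]
    | insert a s ha ih => rw [sum_insert ha, prod_insert ha, hadd, ih]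
  have hprod : ∏ c, ∑ j ∈ Ico (x c) (x c + l c), (1 + χ (b ^ j)) =
      ∑ v ∈ Ov x l, ∏ c, χ ((v c).2 * b ^ (v c).1) := by
    unfold Ov
    rw [← Finset.prod_univ_sum (t := fun c => (Ico (x c) (x c + l c)) ×ˢ range 2)
      (f := fun _ p => χ (p.2 * b ^ p.1))]
    apply prod_congr rfl
    intro c _
    rw [sum_product]
    apply sum_congr rfl
    intro j _
    rw [sum_range_succ, sum_range_succ, sum_range_zero]
    simp [h0]
  rw [hprod, sum_product, sum_mul]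
  apply sum_congr rfl
  intro j _
  rw [mul_sum]
  apply sum_congr rfl
  intro v _
  unfold vd
  simp only
  rw [hadd, hsum]

/-- the weighted count of `n + vd o = x` -/
noncomputable def WW (b : ℕ) (f : ℕ → ℝ) (X : ℕ) (Ω : Finset (ℕ × (ι → ℕ × ℕ))) (x : ℕ) : ℝ :=
  ∑ i ∈ Ω ×ˢ Icc 1 X, if i.2 + vd b i.1 = x then f i.2 else 0

/-- the weighted number of coincidences -/
noncomputable def SS (b : ℕ) (f : ℕ → ℝ) (X : ℕ) (Ω : Finset (ℕ × (ι → ℕ × ℕ))) : ℝ :=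
  ∑ i ∈ Ω ×ˢ Icc 1 X, ∑ j ∈ Ω ×ˢ Icc 1 X, (if i.2 + vd b i.1 = j.2 + vd b j.1 then f i.2 * f j.2 else 0)

lemma WW_sq (b : ℕ) (f : ℕ → ℝ) (X : ℕ) (Ω : Finset (ℕ × (ι → ℕ × ℕ))) (S : Finset ℕ) :
    ∑ x ∈ S, WW b f X Ω x ^ 2 ≤ SS b f X Ω :=
  sq_fib (Ω ×ˢ Icc 1 X) (fun i => f i.2) (fun i => i.2 + vd b i.1) S

lemma WW_add (b : ℕ) (f g : ℕ → ℝ) (X : ℕ) (Ω : Finset (ℕ × (ι → ℕ × ℕ))) (x : ℕ) :
    WW b (fun n => f n + g n) X Ω x = WW b f X Ω x + WW b g X Ω x := by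
  unfold WW
  rw [← sum_add_distrib]
  apply sum_congr rfl
  intro i _
  split_ifs
  · rfl
  · ring

lemma WW_mono (b : ℕ) (f g : ℕ → ℝ) (X : ℕ) (Ω : Finset (ℕ × (ι → ℕ × ℕ))) (x : ℕ) (h : ∀ n ∈ Icc 1 X, f n ≤ g n) :
    WW b f X Ω x ≤ WW b g X Ω x := by
  unfold WW
  apply sum_le_sum
  intro i hi
  rw [mem_product] at hi
  split_ifs
  · exact h _ hi.2
  · exact le_rfl

lemma WW_nonneg (b : ℕ) (f : ℕ → ℝ) (X : ℕ) (Ω : Finset (ℕ × (ι → ℕ × ℕ))) (x : ℕ) (h : ∀ n ∈ Icc 1 X, 0 ≤ f n) :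
    0 ≤ WW b f X Ω x := by
  unfold WW
  apply sum_nonneg
  intro i hi
  rw [mem_product] at hi
  split_ifs
  · exact h _ hi.2
  · exact le_rfl

/-- Parseval -/
lemma SS_eq (b : ℕ) (f : ℕ → ℝ) (X M : ℕ) (hM : 1 ≤ M) (J : Finset ℕ) (x l : ι → ℕ) (T : ℕ)
    (hT : ∀ o ∈ J ×ˢ Ov x l, vd b o ≤ T) (hXT : X + T ≤ M) :
    M * SS b f X (J ×ˢ Ov x l) = ∑ r ∈ range M, (‖FF f X M r‖ * (‖PJ b 0 M J r‖ * ∏ c, ‖OC b 0 M (Ico (x c) (x c + l c)) r‖)) ^ 2 := by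
  have h1 := sq_real ((J ×ˢ Ov x l) ×ˢ Icc 1 X) (fun i => f i.2) (fun i => ((i.2 + vd b i.1 : ℕ) : ℤ)) M hM (by
    intro i hi j hj
    rw [mem_product, mem_Icc] at hi hj
    have e1 := hT i.1 hi.1
    have e2 := hT j.1 hj.1
    rw [abs_lt]
    constructor <;> push_cast <;> omega)
  have h2 : ∑ i ∈ (J ×ˢ Ov x l) ×ˢ Icc 1 X, ∑ j ∈ (J ×ˢ Ov x l) ×ˢ Icc 1 X,
      (if ((i.2 + vd b i.1 : ℕ) : ℤ) = ((j.2 + vd b j.1 : ℕ) : ℤ) then f i.2 * f j.2 else 0) = SS b f X (J ×ˢ Ov x l) := by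
    unfold SS
    apply sum_congr rfl
    intro i _
    apply sum_congr rfl
    intro j _
    congr 1
    rw [Nat.cast_inj]
  rw [h2] at h1
  rw [← h1]
  apply sum_congr rfl
  intro r _
  congr 1
  have h3 : ∑ i ∈ (J ×ˢ Ov x l) ×ˢ Icc 1 X, ((f i.2 : ℝ) : ℂ) * ee ((r : ℝ) * ((((i.2 + vd b i.1 : ℕ) : ℤ) : ℝ) / M)) =
      (∑ o ∈ J ×ˢ Ov x l, ee ((vd b o : ℝ) * ((r : ℝ) / (M : ℝ)))) * FF f X M r := by
    unfold FF
    rw [sum_mul_sum, ← sum_product']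
    apply sum_congr rfl
    intro i _
    have : ee ((r : ℝ) * ((((i.2 + vd b i.1 : ℕ) : ℤ) : ℝ) / M)) =
        ee ((vd b i.1 : ℝ) * ((r : ℝ) / (M : ℝ))) * ee ((i.2 : ℝ) * ((r : ℝ) / M)) := by
      rw [← ee_add]
      congr 1
      push_cast
      ring
    rw [this]
    ring
  rw [h3, norm_mul, mul_comm]
  congr 1
  have h4 := sum_vd (fun n : ℕ => ee (-((n : ℝ) * ((r : ℝ) / (M : ℝ))))) (by simp [ee_zero]) (by
      intro a a'
      rw [← ee_add]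
      congr 1
      push_cast
      ring) b J x l
  have h5 : ‖∑ o ∈ J ×ˢ Ov x l, ee ((vd b o : ℝ) * ((r : ℝ) / (M : ℝ)))‖ =
      ‖∑ o ∈ J ×ˢ Ov x l, ee (-((vd b o : ℝ) * ((r : ℝ) / (M : ℝ))))‖ := by
    rw [← Complex.norm_conj, map_sum]
    congr 1
    apply sum_congr rfl
    intro o _
    rw [conj_ee]
  rw [h5]
  rw [h4, norm_mul, norm_prod]
  unfold PJ OC
  simp only [fl0, Int.cast_natCast]

end Omega

end Pool.Agent.H86.DL
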