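import Pool.Agent.H86.L2

set_option autoImplicit false
set_option linter.unusedSectionVars false

/-! A Romanoff type bound for the primes with a large order. -/

namespace Pool.Agent.H86.DL
open Finset
open Pool.Agent.H373R2.T7
open Pool.Agent.W93.DG
open Pool.Agent.W93.HD

/-- the weight of a set of primes -/
noncomputable def wt1 (T : Finset ℕ) : ℝ := ∏ p ∈ T, 1 / ((p : ℝ) - 1)

lemma wt1_nonneg (T : Finset ℕ) (hT : ∀ p ∈ T, p.Prime) : 0 ≤ wt1 T := by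
  apply prod_nonneg
  intro p hp
  have : (2 : ℝ) ≤ p := by exact_mod_cast (hT p hp).two_le
  apply div_nonneg zero_le_one
  linarith

lemma prod_eq_wt1 (S : Finset ℕ) : ∏ p ∈ S, (1 + 1 / ((p : ℝ) - 1)) = ∑ T ∈ S.powerset, wt1 T := by
  classical
  rw [Finset.prod_one_add]
  rfl

/-- the least exponent `s ≥ 1` with `b ^ s ≡ 1` modulo all elements of `T` -/
noncomputable def o1 (b : ℕ) (T : Finset ℕ) : ℕ := sInf {s : ℕ | 1 ≤ s ∧ ∀ p ∈ T, p ∣ b ^ s - 1}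

lemma o1_mem (b : ℕ) (hb : 2 ≤ b) (T : Finset ℕ) (hT : ∀ p ∈ T, p.Prime ∧ ¬ p ∣ b) :
    1 ≤ o1 b T ∧ ∀ p ∈ T, p ∣ b ^ o1 b T - 1 := by
  classical
  apply Nat.sInf_mem (s := {s : ℕ | 1 ≤ s ∧ ∀ p ∈ T, p ∣ b ^ s - 1})
  refine ⟨∏ p ∈ T, (p - 1), ?_, ?_⟩
  · apply Nat.one_le_iff_ne_zero.2
    rw [prod_ne_zero_iff]
    intro p hp
    have := (hT p hp).1.two_le
    omega
  · intro p hp
    obtain ⟨hpp, hpb⟩ := hT p hp
    have h1 : b ^ (p - 1) ≡ 1 [MOD p] := by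
      have := Nat.ModEq.pow_totient ((Nat.Prime.coprime_iff_not_dvd hpp).2 hpb).symm
      rwa [Nat.totient_prime hpp] at this
    obtain ⟨k, hk⟩ := dvd_prod_of_mem (fun p => p - 1) hp
    rw [hk, pow_mul]
    have h2 := h1.pow k
    rw [one_pow] at h2
    have h3 : 1 ≤ (b ^ (p - 1)) ^ k := Nat.one_le_iff_ne_zero.2 (by positivity)
    exact (Nat.modEq_iff_dvd' h3).1 h2.symm

lemma o1_le (b : ℕ) (T : Finset ℕ) (s : ℕ) (hs : 1 ≤ s) (h : ∀ p ∈ T, p ∣ b ^ s - 1) : o1 b T ≤ s :=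
  Nat.sInf_le ⟨hs, h⟩

/-- the primes for which the order of `b` is at most `m` -/
def UU (b m : ℕ) : Finset ℕ := (Icc 1 m).biUnion (fun o => (b ^ o - 1).primeFactors)

lemma pow_sub_one_ne (b s : ℕ) (hb : 2 ≤ b) (hs : 1 ≤ s) : b ^ s - 1 ≠ 0 := by
  have : 2 ^ 1 ≤ b ^ s := by
    calc 2 ^ 1 ≤ b ^ 1 := Nat.pow_le_pow_left hb 1
      _ ≤ b ^ s := Nat.pow_le_pow_right (by omega) (by omega)
  omega

lemma mem_UU (b m p : ℕ) (hb : 2 ≤ b) : p ∈ UU b m ↔ p.Prime ∧ ∃ s, 1 ≤ s ∧ s ≤ m ∧ p ∣ b ^ s - 1 := by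
  unfold UU
  rw [mem_biUnion]
  constructor
  · rintro ⟨o, ho, hp⟩
    rw [mem_Icc] at ho
    rw [Nat.mem_primeFactors] at hp
    exact ⟨hp.1, o, ho.1, ho.2, hp.2.1⟩
  · rintro ⟨h1, s, hs1, hs2, h2⟩
    refine ⟨s, mem_Icc.2 ⟨hs1, hs2⟩, ?_⟩
    rw [Nat.mem_primeFactors]
    exact ⟨h1, h2, pow_sub_one_ne b s hb hs1⟩

lemma UU_card (b m : ℕ) (hb : 2 ≤ b) : (UU b m).card ≤ 2 * b * m * m + 3 := by
  have h2 : (UU b m).card ≤ ∑ o ∈ Icc 1 m, 2 * b * m := by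
    refine card_biUnion_le.trans (sum_le_sum fun o ho => ?_)
    rw [mem_Icc] at ho
    have h3 : (b ^ o - 1).primeFactors ⊆ (b ^ (2 * o) - 1).primeFactors := by
      apply Nat.primeFactors_mono
      · exact Nat.pow_sub_one_dvd_pow_sub_one b (Dvd.intro_left 2 rfl)
      · exact pow_sub_one_ne b (2 * o) hb (by omega)
    exact (card_le_card h3).trans ((card_pf_le b o hb ho.1).trans (Nat.mul_le_mul_left _ ho.2))
  rw [sum_const, Nat.card_Icc, smul_eq_mul] at h2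
  have : (m + 1 - 1) * (2 * b * m) = 2 * b * m * m := by rw [Nat.add_sub_cancel]; ring
  omega

/-- the product over the primes with a small order -/
lemma prod_UU (b : ℕ) (hb : 2 ≤ b) : ∃ C : ℝ, 1 ≤ C ∧ ∀ m : ℕ, 1 ≤ m → ∀ S ⊆ UU b m,
    ∏ p ∈ S, (1 + 1 / ((p : ℝ) - 1)) ≤ C * √(√(m : ℝ)) := by
  obtain ⟨C, hC1, hC⟩ := mert_prod
  refine ⟨6 * C * (5 * b + 8), ?_, fun m hm S hS => ?_⟩
  · have : (0 : ℝ) ≤ b := Nat.cast_nonneg _
    nlinarith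
  have hpr : ∀ p ∈ S, p.Prime := fun p hp => ((mem_UU b m p hb).1 (hS hp)).1
  have h1 : ∏ p ∈ S, (1 + 1 / ((p : ℝ) - 1)) = ∏ p ∈ S, (1 - 1 / (p : ℝ))⁻¹ := by
    apply prod_congr rfl
    intro p hp
    have h2 : (2 : ℝ) ≤ p := by exact_mod_cast (hpr p hp).two_le
    have h3 : (p : ℝ) - 1 ≠ 0 := by linarith
    have h4 : (p : ℝ) ≠ 0 := by linarith
    have h5 : 1 - 1 / (p : ℝ) = (p - 1) / p := by field_simp
    rw [h5, inv_div]
    field_simp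
    ring
  rw [h1]
  refine (inv_prod_le S fun p hp => (hpr p hp).two_le).trans ?_
  have h3 := prod_U C (by linarith) hC S hpr (2 * b * m * m + 3) (by omega) ((card_le_card hS).trans (UU_card b m hb))
  have hxr : (1 : ℝ) ≤ m := by exact_mod_cast hm
  have hbr : (2 : ℝ) ≤ b := by exact_mod_cast hb
  have hsx : 1 ≤ √(m : ℝ) := by rw [Real.one_le_sqrt]; exact hxr
  have hsx2 : 1 ≤ √√(m : ℝ) := by rw [Real.one_le_sqrt]; exact hsx
  have h4 : Real.log ((2 * b * m * m + 3 : ℕ) : ℝ) ≤ (5 * b + 8) * √√(m : ℝ) := by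
    have h5 : ((2 * b * m * m + 3 : ℕ) : ℝ) ≤ (5 * b) * (m * m) := by
      push_cast
      nlinarith [mul_le_mul hxr hxr (by norm_num) (by linarith)]
    have h6 := Real.log_le_log (by positivity) h5
    have h6' : Real.log ((5 * (b : ℝ)) * ((m : ℝ) * m)) = Real.log (5 * (b : ℝ)) + (Real.log m + Real.log m) := by
      rw [Real.log_mul (by positivity) (by positivity), Real.log_mul (show (m : ℝ) ≠ 0 by linarith) (show (m : ℝ) ≠ 0 by linarith)]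
    rw [h6'] at h6
    have h7 : Real.log (5 * (b : ℝ)) ≤ 5 * b := (Real.log_le_sub_one_of_pos (by positivity)).trans (by linarith)
    have h8 : Real.log m ≤ 4 * √√(m : ℝ) := by
      have h9 : Real.log √(m : ℝ) = Real.log m / 2 := Real.log_sqrt (by linarith)
      have h10 : Real.log √√(m : ℝ) = Real.log √(m : ℝ) / 2 := Real.log_sqrt (by linarith)
      have h11 := Real.log_le_sub_one_of_pos (show 0 < √√(m : ℝ) by linarith)
      linarith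
    have h11 : 5 * (b : ℝ) ≤ 5 * b * √√(m : ℝ) := le_mul_of_one_le_right (by positivity) hsx2
    linarith
  calc 2 * ∏ p ∈ S, (1 + 1 / (p : ℝ)) ≤ 2 * (3 * C * Real.log ((2 * b * m * m + 3 : ℕ) : ℝ)) := by linarith
    _ ≤ 2 * (3 * C * ((5 * b + 8) * √√(m : ℝ))) := by
        apply mul_le_mul_of_nonneg_left _ (by norm_num)
        exact mul_le_mul_of_nonneg_left h4 (by positivity)
    _ = _ := by ring

/-- partial summation from `n₀` on -/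
lemma abel_tail (α : ℕ → ℝ) (C : ℝ) (hC : 0 ≤ C) (n₀ : ℕ) (hα : ∀ o, o ≤ n₀ → α o = 0)
    (hA : ∀ m : ℕ, n₀ < m → ∑ o ∈ Icc 1 m, α o ≤ C * √(m : ℝ)) (n : ℕ) (hn : n₀ ≤ n) :
    ∑ o ∈ Icc 1 n, α o / o ≤ (∑ o ∈ Icc 1 n, α o) / (n + 1) + C * (2 / √((n₀ : ℝ) + 1) - 2 / √((n : ℝ) + 1)) := by
  induction n, hn using Nat.le_induction with
  | base =>
    have h1 : ∑ o ∈ Icc 1 n₀, α o / o = 0 := by
      apply sum_eq_zero
      intro o ho
      rw [hα o (mem_Icc.1 ho).2, zero_div]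
    have h2 : ∑ o ∈ Icc 1 n₀, α o = 0 := by
      apply sum_eq_zero
      intro o ho
      exact hα o (mem_Icc.1 ho).2
    rw [h1, h2]
    simp
  | succ n hn ih =>
    rw [sum_Icc_succ_top (by omega), sum_Icc_succ_top (by omega)]
    have h1 := hA (n + 1) (by omega)
    rw [sum_Icc_succ_top (by omega)] at h1
    obtain ⟨S, hS⟩ : ∃ S, S = ∑ o ∈ Icc 1 n, α o := ⟨_, rfl⟩
    rw [← hS] at h1 ih ⊢
    have hs := sqrt_step (n + 1) (by omega)
    have hn0 : (0 : ℝ) ≤ n := Nat.cast_nonneg _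
    have h2 : (S + α (n + 1)) / (((n + 1 : ℕ) : ℝ) * (((n + 1 : ℕ) : ℝ) + 1)) ≤ C * (2 / √((n + 1 : ℕ) : ℝ) - 2 / √(((n + 1 : ℕ) : ℝ) + 1)) := by
      calc (S + α (n + 1)) / (((n + 1 : ℕ) : ℝ) * (((n + 1 : ℕ) : ℝ) + 1)) ≤
            (C * √((n + 1 : ℕ) : ℝ)) / (((n + 1 : ℕ) : ℝ) * (((n + 1 : ℕ) : ℝ) + 1)) :=
            div_le_div_of_nonneg_right h1 (by positivity)
        _ = C * (√((n + 1 : ℕ) : ℝ) / (((n + 1 : ℕ) : ℝ) * (((n + 1 : ℕ) : ℝ) + 1))) := by ring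
        _ ≤ _ := mul_le_mul_of_nonneg_left hs hC
    have h3 : (S + α (n + 1)) / (((n + 1 : ℕ) : ℝ)) = (S + α (n + 1)) / (((n + 1 : ℕ) : ℝ) + 1) +
        (S + α (n + 1)) / (((n + 1 : ℕ) : ℝ) * (((n + 1 : ℕ) : ℝ) + 1)) := by
      have : ((n + 1 : ℕ) : ℝ) ≠ 0 := by positivity
      have : ((n + 1 : ℕ) : ℝ) + 1 ≠ 0 := by positivity
      field_simp
    have h4 : √((n : ℝ) + 1) = √((n + 1 : ℕ) : ℝ) := by push_cast; rfl
    have h5 : S / ((n : ℝ) + 1) = S / ((n + 1 : ℕ) : ℝ) := by push_cast; rfl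
    rw [h4, h5] at ih
    have h6 : (S + α (n + 1)) / (((n + 1 : ℕ) : ℝ)) = S / ((n + 1 : ℕ) : ℝ) + α (n + 1) / ((n + 1 : ℕ) : ℝ) := by ring
    linarith

/-- the sets of primes with a large order -/
theorem tail (b : ℕ) (hb : 2 ≤ b) : ∃ C : ℝ, 1 ≤ C ∧ ∀ n₀ : ℕ, 1 ≤ n₀ →
    (∀ S ⊆ UU b n₀, ∏ p ∈ S, (1 + 1 / ((p : ℝ) - 1)) ≤ C * √(√(n₀ : ℝ))) ∧
    ∀ P : Finset ℕ, (∀ p ∈ P, p.Prime ∧ ¬ p ∣ b ∧ p ∉ UU b n₀) →
      ∑ T ∈ P.powerset.erase ∅, wt1 T / o1 b T ≤ 2 * C / (√(√(n₀ : ℝ)) * √((n₀ : ℝ) + 1)) := by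
  classical
  obtain ⟨C, hC1, hC⟩ := prod_UU b hb
  refine ⟨C, hC1, fun n₀ hn₀ => ⟨fun S hS => hC n₀ hn₀ S hS, fun P hP => ?_⟩⟩
  have hn0r : (1 : ℝ) ≤ n₀ := by exact_mod_cast hn₀
  have hss : 1 ≤ √√(n₀ : ℝ) := by rw [Real.one_le_sqrt, Real.one_le_sqrt]; exact hn0r
  have hss0 : 0 < √√(n₀ : ℝ) := by linarith
  set α : ℕ → ℝ := fun o => ∑ T ∈ (P.powerset.erase ∅).filter (fun T => o1 b T = o), wt1 T with hα
  have hPT : ∀ T ∈ P.powerset.erase ∅, (∀ p ∈ T, p.Prime ∧ ¬ p ∣ b) ∧ T ⊆ P ∧ T.Nonempty := by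
    intro T hT
    rw [mem_erase, mem_powerset] at hT
    exact ⟨fun p hp => ⟨(hP p (hT.2 hp)).1, (hP p (hT.2 hp)).2.1⟩, hT.2, nonempty_iff_ne_empty.2 hT.1⟩
  have hbig : ∀ T ∈ P.powerset.erase ∅, n₀ < o1 b T := by
    intro T hT
    obtain ⟨h1, h2, p, hp⟩ := hPT T hT
    obtain ⟨h3, h4⟩ := o1_mem b hb T h1
    by_contra hcon
    push Not at hcon
    exact (hP p (h2 hp)).2.2 ((mem_UU b n₀ p hb).2 ⟨(h1 p hp).1, _, h3, hcon, h4 p hp⟩)
  have hα1 : ∀ o, o ≤ n₀ → α o = 0 := by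
    intro o ho
    rw [hα]
    simp only
    rw [filter_eq_empty_iff.2, sum_empty]
    intro T hT
    have := hbig T hT
    omega
  have hA : ∀ m : ℕ, n₀ < m → ∑ o ∈ Icc 1 m, α o ≤ (C / √√(n₀ : ℝ)) * √(m : ℝ) := by
    intro m hm
    have h1 : ∑ o ∈ Icc 1 m, α o ≤ ∑ T ∈ ((UU b m) ∩ P).powerset, wt1 T := by
      have h2 : ∀ o ∈ Icc 1 m, α o ≤ ∑ T ∈ ((UU b m) ∩ P).powerset, (if o1 b T = o then wt1 T else 0) := by
        intro o ho
        rw [mem_Icc] at ho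
        rw [← sum_filter]
        apply sum_le_sum_of_subset_of_nonneg
        · intro T hT
          rw [mem_filter] at hT ⊢
          refine ⟨?_, hT.2⟩
          obtain ⟨h1, h2, _⟩ := hPT T hT.1
          obtain ⟨h3, h4⟩ := o1_mem b hb T h1
          rw [mem_powerset]
          intro p hp
          rw [mem_inter]
          exact ⟨(mem_UU b m p hb).2 ⟨(h1 p hp).1, _, h3, by omega, h4 p hp⟩, h2 hp⟩
        · intro T hT _
          rw [mem_filter, mem_powerset] at hT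
          apply wt1_nonneg
          intro p hp
          exact ((mem_UU b m p hb).1 (mem_inter.1 (hT.1 hp)).1).1
      refine (sum_le_sum h2).trans ?_
      rw [sum_comm]
      apply sum_le_sum
      intro T hT
      rw [sum_ite_eq]
      split_ifs
      · exact le_rfl
      · rw [mem_powerset] at hT
        apply wt1_nonneg
        intro p hp
        exact ((mem_UU b m p hb).1 (mem_inter.1 (hT hp)).1).1
    rw [← prod_eq_wt1] at h1
    refine h1.trans ((hC m (by omega) _ inter_subset_left).trans ?_)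
    have hm1 : (n₀ : ℝ) ≤ m := by exact_mod_cast hm.le
    have h5 : √√(n₀ : ℝ) ≤ √√(m : ℝ) := Real.sqrt_le_sqrt (Real.sqrt_le_sqrt hm1)
    have h6 : √√(m : ℝ) * √√(m : ℝ) = √(m : ℝ) := Real.mul_self_sqrt (Real.sqrt_nonneg _)
    rw [div_mul_eq_mul_div, le_div_iff₀ hss0]
    calc C * √√(m : ℝ) * √√(n₀ : ℝ) ≤ C * √√(m : ℝ) * √√(m : ℝ) :=
          mul_le_mul_of_nonneg_left h5 (by positivity)
      _ = C * √(m : ℝ) := by rw [mul_assoc, h6]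
  obtain ⟨n, hn⟩ : ∃ n, n = (P.powerset.erase ∅).sup (o1 b) + n₀ := ⟨_, rfl⟩
  have h1 := abel_tail α (C / √√(n₀ : ℝ)) (by positivity) n₀ hα1 hA n (by omega)
  have h2 : ∑ T ∈ P.powerset.erase ∅, wt1 T / o1 b T = ∑ o ∈ Icc 1 n, α o / o := by
    have hmaps : ∀ T ∈ P.powerset.erase ∅, o1 b T ∈ Icc 1 n := by
      intro T hT
      rw [mem_Icc]
      have e1 := Finset.le_sup (f := o1 b) hT
      have e2 := hbig T hT
      omega
    rw [← sum_fiberwise_of_maps_to hmaps]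
    apply sum_congr rfl
    intro o _
    rw [hα]
    simp only
    rw [sum_div]
    apply sum_congr rfl
    intro T hT
    rw [mem_filter] at hT
    rw [hT.2]
  rw [h2]
  refine h1.trans ?_
  have h3 : (∑ o ∈ Icc 1 n, α o) / ((n : ℝ) + 1) ≤ (C / √√(n₀ : ℝ)) * (2 / √((n : ℝ) + 1)) := by
    rcases Nat.eq_or_lt_of_le (show n₀ ≤ n by omega) with h | h
    · have : ∑ o ∈ Icc 1 n, α o = 0 := by
        apply sum_eq_zero
        intro o ho
        exact hα1 o (by rw [h]; exact (mem_Icc.1 ho).2)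
      rw [this, zero_div]
      positivity
    · have e1 := hA n h
      have e2 : √(n : ℝ) / ((n : ℝ) + 1) ≤ 2 / √((n : ℝ) + 1) := by
        rw [div_le_div_iff₀ (by positivity) (by positivity)]
        have e3 : √(n : ℝ) ≤ √((n : ℝ) + 1) := Real.sqrt_le_sqrt (by linarith)
        have e4 : √((n : ℝ) + 1) * √((n : ℝ) + 1) = (n : ℝ) + 1 := Real.mul_self_sqrt (by positivity)
        nlinarith [Real.sqrt_nonneg ((n : ℝ) + 1)]
      calc (∑ o ∈ Icc 1 n, α o) / ((n : ℝ) + 1) ≤ ((C / √√(n₀ : ℝ)) * √(n : ℝ)) / ((n : ℝ) + 1) :=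
            div_le_div_of_nonneg_right e1 (by positivity)
        _ = (C / √√(n₀ : ℝ)) * (√(n : ℝ) / ((n : ℝ) + 1)) := by ring
        _ ≤ _ := mul_le_mul_of_nonneg_left e2 (by positivity)
  calc _ ≤ (C / √√(n₀ : ℝ)) * (2 / √((n : ℝ) + 1)) + C / √√(n₀ : ℝ) * (2 / √((n₀ : ℝ) + 1) - 2 / √((n : ℝ) + 1)) := by linarith
    _ = 2 * C / (√√(n₀ : ℝ) * √((n₀ : ℝ) + 1)) := by
        have : √((n₀ : ℝ) + 1) ≠ 0 := (Real.sqrt_pos.2 (by linarith)).ne'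
        field_simp
        ring

end Pool.Agent.H86.DL
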