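import Pool.Agent.H86.L3

set_option autoImplicit false
set_option linter.unusedSectionVars false

/-! Congruences between the values of two choices. -/

namespace Pool.Agent.H86.DL
open Finset
open Pool.Agent.H807R2.Dav (ee norm_ee ee_zero ee_add)
open Pool.Agent.H373R2.T7
open Pool.Agent.W93.DG
open Pool.Agent.W93.HD
open Pool.Agent.W93.RD (cos_dist)

lemma sep_card (S : Finset ℕ) (u w m : ℕ) (hm : 1 ≤ m) (hS : S ⊆ Ico u (u + w))
    (hsep : ∀ j ∈ S, ∀ j' ∈ S, j < j' → m ≤ j' - j) : (S.card : ℝ) ≤ (w : ℝ) / m + 1 := by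
  have h1 : S.card ≤ w / m + 1 := by
    have h2 : S.card ≤ (range (w / m + 1)).card := by
      apply card_le_card_of_injOn (fun j => (j - u) / m)
      · intro j hj
        have h3 := mem_Ico.1 (hS hj)
        rw [coe_range, Set.mem_Iio]
        apply Nat.lt_succ_of_le
        exact Nat.div_le_div_right (by omega)
      · intro j hj j' hj' h
        have h3 := mem_Ico.1 (hS hj)
        have h4 := mem_Ico.1 (hS hj')
        simp only at h
        by_contra hne
        have h5 : ∀ a c, u ≤ a → u ≤ c → m ≤ c - a → a < c → (a - u) / m < (c - u) / m := by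
          intro a c ha hc h6 h7
          have h8 : (a - u) / m + 1 = (a - u + m) / m := (Nat.add_div_right _ (by omega)).symm
          have h9 : (a - u + m) / m ≤ (c - u) / m := Nat.div_le_div_right (by omega)
          omega
        rcases Nat.lt_or_gt_of_ne hne with h6 | h6
        · have := h5 j j' h3.1 h4.1 (hsep j hj j' hj' h6) h6
          omega
        · have := h5 j' j h4.1 h3.1 (hsep j' hj' j hj h6) h6
          omega
    rw [card_range] at h2
    exact h2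
  have h3 : ((w / m : ℕ) : ℝ) ≤ (w : ℝ) / m := Nat.cast_div_le
  have h4 : (S.card : ℝ) ≤ ((w / m : ℕ) : ℝ) + 1 := by exact_mod_cast h1
  linarith

/-- the number of the positions with a given residue -/
lemma count_res (b : ℕ) (hb : 2 ≤ b) (T : Finset ℕ) (hT : ∀ p ∈ T, p.Prime ∧ ¬ p ∣ b) (u w : ℕ) (c : ℤ) :
    (((Ico u (u + w)).filter (fun j => ∀ p ∈ T, (p : ℤ) ∣ ((b ^ j : ℕ) : ℤ) - c)).card : ℝ) ≤ (w : ℝ) / o1 b T + 1 := by
  obtain ⟨h1, _⟩ := o1_mem b hb T hT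
  apply sep_card _ u w _ h1 (filter_subset _ _)
  intro j hj j' hj' hlt
  rw [mem_filter] at hj hj'
  apply o1_le b T (j' - j) (by omega)
  intro p hp
  obtain ⟨hpp, hpb⟩ := hT p hp
  have h2 := dvd_sub (hj'.2 p hp) (hj.2 p hp)
  have h3 : ((b ^ j' : ℕ) : ℤ) - c - (((b ^ j : ℕ) : ℤ) - c) = ((b ^ j * (b ^ (j' - j) - 1) : ℕ) : ℤ) := by
    have h4 : 1 ≤ b ^ (j' - j) := Nat.one_le_iff_ne_zero.2 (by positivity)
    have h5 : b ^ j' = b ^ j * b ^ (j' - j) := by rw [← pow_add]; congr 1; omega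
    rw [h5]
    push_cast [Nat.cast_sub h4]
    ring
  rw [h3, Int.natCast_dvd_natCast] at h2
  rcases (Nat.Prime.dvd_mul hpp).1 h2 with h4 | h4
  · exact absurd (hpp.dvd_of_dvd_pow h4) hpb
  · exact h4

section Omega
variable {ι : Type*} [Fintype ι] [DecidableEq ι]

open Classical in
/-- the number of the pairs of choices with congruent values -/
noncomputable def NN (b : ℕ) (Ω : Finset (ℕ × (ι → ℕ × ℕ))) (T : Finset ℕ) : ℝ :=
  ∑ o ∈ Ω, ∑ o' ∈ Ω, if ∀ p ∈ T, (p : ℤ) ∣ (vd b o : ℤ) - vd b o' then 1 else 0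

/-- large orders -/
lemma NN_large (b : ℕ) (hb : 2 ≤ b) (T : Finset ℕ) (hT : ∀ p ∈ T, p.Prime ∧ ¬ p ∣ b) (u w : ℕ) (hw : 1 ≤ w) (x l : ι → ℕ) :
    NN b (Ico u (u + w) ×ˢ Ov x l) T ≤ ((Ico u (u + w) ×ˢ Ov x l).card : ℝ) ^ 2 * (1 / o1 b T + 1 / w) := by
  classical
  obtain ⟨h1, _⟩ := o1_mem b hb T hT
  have h1r : (0 : ℝ) < o1 b T := by exact_mod_cast h1
  have hwr : (0 : ℝ) < w := by exact_mod_cast hw
  have hcard : ((Ico u (u + w) ×ˢ Ov x l).card : ℝ) = w * (Ov x l).card := by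
    rw [card_product, Nat.card_Ico, Nat.add_sub_cancel_left]
    push_cast
    ring
  unfold NN
  rw [sum_comm]
  have h2 : ∀ o' ∈ Ico u (u + w) ×ˢ Ov x l, ∑ o ∈ Ico u (u + w) ×ˢ Ov x l,
      (if ∀ p ∈ T, (p : ℤ) ∣ (vd b o : ℤ) - vd b o' then (1 : ℝ) else 0) ≤ (Ov x l).card * ((w : ℝ) / o1 b T + 1) := by
    intro o' _
    rw [sum_product_right]
    have h3 : ∀ v ∈ Ov x l, ∑ j ∈ Ico u (u + w), (if ∀ p ∈ T, (p : ℤ) ∣ (vd b (j, v) : ℤ) - vd b o' then (1 : ℝ) else 0) ≤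
        (w : ℝ) / o1 b T + 1 := by
      intro v _
      rw [← sum_filter, sum_const, nsmul_eq_mul, mul_one]
      have h4 := count_res b hb T hT u w ((vd b o' : ℤ) - ((∑ c, (v c).2 * b ^ (v c).1 : ℕ) : ℤ))
      refine le_trans (le_of_eq ?_) h4
      congr 2
      apply filter_congr
      intro j _
      have h5 : (vd b (j, v) : ℤ) - vd b o' = ((b ^ j : ℕ) : ℤ) - ((vd b o' : ℤ) - ((∑ c, (v c).2 * b ^ (v c).1 : ℕ) : ℤ)) := by
        unfold vd
        push_cast
        ring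
      rw [h5]
    refine (sum_le_sum h3).trans ?_
    rw [sum_const, nsmul_eq_mul]
  refine (sum_le_sum h2).trans ?_
  rw [sum_const, nsmul_eq_mul, hcard]
  have h3 : ((w : ℝ) * (Ov x l).card) ^ 2 * (1 / o1 b T + 1 / w) = w * (Ov x l).card * ((Ov x l).card * ((w : ℝ) / o1 b T + 1)) := by
    field_simp
  rw [h3]

/-- a position at which the frequency `a / q` is not close to an integer -/
lemma good_pos (b q t : ℕ) (hb : 2 ≤ b) (hq : 1 ≤ q) (hqt : q ≤ b ^ t) (hcop : b.Coprime q) (a : ℤ) (ha : ¬ (q : ℤ) ∣ a) (j : ℕ) :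
    ∃ i < t, ∀ n : ℤ, 1 / (2 * (b : ℝ)) ≤ |(b : ℝ) ^ (j + i) * ((a : ℝ) / q) - n| := by
  by_contra hcon
  push Not at hcon
  have hbr : (2 : ℝ) ≤ b := by exact_mod_cast hb
  have hqr : (1 : ℝ) ≤ q := by exact_mod_cast hq
  have hq0 : (0 : ℝ) < q := by linarith
  have ht : 1 ≤ t := by
    by_contra h
    have ht0 : t = 0 := by omega
    subst ht0
    rw [pow_zero] at hqt
    have : q = 1 := by omega
    subst this
    exact ha (by simp)
  choose! n hn using hcon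
  set e : ℕ → ℤ := fun i => (b : ℤ) ^ (j + i) * a - n i * q with he
  have h1 : ∀ i < t, |(e i : ℝ)| < q / (2 * b) := by
    intro i hi
    have h2 := hn i hi
    have h3 : (e i : ℝ) = ((b : ℝ) ^ (j + i) * ((a : ℝ) / q) - n i) * q := by
      rw [he]; push_cast; field_simp
    rw [h3, abs_mul, abs_of_pos hq0]
    calc |(b : ℝ) ^ (j + i) * ((a : ℝ) / q) - n i| * q < 1 / (2 * b) * q := mul_lt_mul_of_pos_right h2 hq0
      _ = _ := by ring
  have h2 : ∀ i, i + 1 < t → e (i + 1) = b * e i := by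
    intro i hi
    have h3 : (q : ℤ) ∣ e (i + 1) - b * e i := by
      refine ⟨b * n i - n (i + 1), ?_⟩
      rw [he]
      simp only
      rw [← add_assoc, pow_succ]
      ring
    have h4 : |e (i + 1) - b * e i| < q := by
      have h5 := h1 (i + 1) hi
      have h6 := h1 i (by omega)
      have h7 : |((e (i + 1) - b * e i : ℤ) : ℝ)| < q := by
        push_cast
        calc |(e (i + 1) : ℝ) - b * e i| ≤ |(e (i + 1) : ℝ)| + |(b : ℝ) * e i| := abs_sub _ _
          _ = |(e (i + 1) : ℝ)| + b * |(e i : ℝ)| := by rw [abs_mul, abs_of_nonneg (by positivity : (0 : ℝ) ≤ b)]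
          _ < q / (2 * b) + b * (q / (2 * b)) := by
              have := mul_lt_mul_of_pos_left h6 (by linarith : (0 : ℝ) < b)
              linarith
          _ = q / (2 * b) + q / 2 := by field_simp
          _ ≤ q / 4 + q / 2 := by
              have : (q : ℝ) / (2 * b) ≤ q / 4 := div_le_div_of_nonneg_left hq0.le (by norm_num) (by linarith)
              linarith
          _ ≤ q := by linarith
      exact_mod_cast h7
    have h5 := Int.eq_zero_of_abs_lt_dvd h3 h4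
    omega
  have h3 : ∀ i, i < t → e i = (b : ℤ) ^ i * e 0 := by
    intro i
    induction i with
    | zero => intro _; simp
    | succ i ih =>
      intro hi
      rw [h2 i hi, ih (by omega), pow_succ]
      ring
  have h4 : e 0 ≠ 0 := by
    intro h
    apply ha
    have h5 : (q : ℤ) ∣ (b : ℤ) ^ j * a := by
      refine ⟨n 0, ?_⟩
      have : e 0 = (b : ℤ) ^ (j + 0) * a - n 0 * q := rfl
      rw [h, add_zero] at this
      linarith
    have h6 : IsCoprime (q : ℤ) ((b : ℤ) ^ j) := by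
      apply IsCoprime.pow_right
      exact (Nat.isCoprime_iff_coprime.2 hcop.symm)
    exact h6.dvd_of_dvd_mul_left h5
  have h5 := h1 (t - 1) (by omega)
  rw [h3 (t - 1) (by omega)] at h5
  push_cast at h5
  rw [abs_mul, abs_of_nonneg (by positivity : (0 : ℝ) ≤ (b : ℝ) ^ (t - 1))] at h5
  have h6 : (1 : ℝ) ≤ |(e 0 : ℝ)| := by
    have : (1 : ℤ) ≤ |e 0| := Int.one_le_abs h4
    exact_mod_cast this
  have h7 : (b : ℝ) ^ (t - 1) < q / (2 * b) := by
    refine lt_of_le_of_lt ?_ h5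
    have : (0 : ℝ) ≤ (b : ℝ) ^ (t - 1) := by positivity
    nlinarith
  rw [lt_div_iff₀ (by positivity)] at h7
  have h8 : (b : ℝ) ^ (t - 1) * (2 * b) = 2 * (b : ℝ) ^ t := by
    have : (b : ℝ) ^ t = (b : ℝ) ^ (t - 1) * b := by rw [← pow_succ]; congr 1; omega
    rw [this]; ring
  rw [h8] at h7
  have h9 : (q : ℝ) ≤ (b : ℝ) ^ t := by exact_mod_cast hqt
  linarith

/-- the number of good positions in an interval -/
lemma good_count (G : ℕ → Prop) [DecidablePred G] (t : ℕ) (h : ∀ j, ∃ i < t, G (j + i)) (x m : ℕ) :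
    m ≤ ((Ico x (x + m * t)).filter G).card := by
  induction m with
  | zero => omega
  | succ m ih =>
    obtain ⟨i, hi, hG⟩ := h (x + m * t)
    have h1 : insert (x + m * t + i) ((Ico x (x + m * t)).filter G) ⊆ (Ico x (x + (m + 1) * t)).filter G := by
      intro j hj
      rw [mem_insert, mem_filter, mem_Ico] at hj
      rw [mem_filter, mem_Ico, add_mul, one_mul]
      rcases hj with rfl | hj
      · exact ⟨⟨by omega, by omega⟩, hG⟩
      · exact ⟨⟨hj.1.1, by omega⟩, hj.2⟩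
    have h2 := card_le_card h1
    rw [card_insert_of_notMem (by rw [mem_filter, mem_Ico]; omega)] at h2
    omega

/-- one optional power -/
lemma block_small (b q t : ℕ) (hb : 2 ≤ b) (hq : 1 ≤ q) (hqt : q ≤ b ^ t) (hcop : b.Coprime q) (a : ℤ) (ha : ¬ (q : ℤ) ∣ a)
    (ht : 1 ≤ t) (x l : ℕ) (hl : t ≤ l) :
    ‖∑ j ∈ Ico x (x + l), (1 + ee (((b ^ j : ℕ) : ℝ) * ((a : ℝ) / q)))‖ ≤ 2 * l * (1 - 1 / (4 * b ^ 2 * t)) := by
  classical
  have hbr : (2 : ℝ) ≤ b := by exact_mod_cast hb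
  have htr : (1 : ℝ) ≤ t := by exact_mod_cast ht
  set G : ℕ → Prop := fun j => ∀ n : ℤ, 1 / (2 * (b : ℝ)) ≤ |(b : ℝ) ^ j * ((a : ℝ) / q) - n| with hG
  have h1 : ∀ j ∈ Ico x (x + l), ‖1 + ee (((b ^ j : ℕ) : ℝ) * ((a : ℝ) / q))‖ ≤ 2 - (1 / (b : ℝ) ^ 2) * (if G j then 1 else 0) := by
    intro j _
    by_cases h : G j
    · rw [if_pos h]
      have h2 := cos_dist (((b ^ j : ℕ) : ℝ) * ((a : ℝ) / q)) (1 / (2 * b)) (by positivity) (by
        intro n
        have := h n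
        push_cast
        exact this)
      refine h2.trans (le_of_eq ?_)
      field_simp
      ring
    · rw [if_neg h]
      refine (norm_add_le _ _).trans ?_
      rw [norm_one, norm_ee]
      norm_num
  refine (norm_sum_le _ _).trans ((sum_le_sum h1).trans ?_)
  rw [sum_sub_distrib, sum_const, Nat.card_Ico, Nat.add_sub_cancel_left, nsmul_eq_mul, ← mul_sum, ← sum_filter, sum_const,
    nsmul_eq_mul, mul_one]
  have h2 : l / t ≤ ((Ico x (x + l)).filter G).card := by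
    have h3 := good_count G t (fun j => good_pos b q t hb hq hqt hcop a ha j) x (l / t)
    refine h3.trans (card_le_card ?_)
    apply filter_subset_filter
    apply Ico_subset_Ico le_rfl
    have := Nat.div_mul_le_self l t
    omega
  have h3 : (l : ℝ) / (2 * t) ≤ ((l / t : ℕ) : ℝ) := by
    have h4 : l < t * (l / t + 1) := Nat.lt_mul_div_succ l (by omega)
    have h5 : 1 ≤ l / t := (Nat.one_le_div_iff (by omega)).2 hl
    have h6 : (l : ℝ) ≤ t * (((l / t : ℕ) : ℝ) + 1) := by exact_mod_cast h4.le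
    have h7 : (1 : ℝ) ≤ ((l / t : ℕ) : ℝ) := by exact_mod_cast h5
    rw [div_le_iff₀ (by positivity)]
    nlinarith
  have h4 : (l : ℝ) / (2 * t) ≤ (((Ico x (x + l)).filter G).card : ℝ) := h3.trans (by exact_mod_cast h2)
  have h5 : 1 / (b : ℝ) ^ 2 * (l / (2 * t)) ≤ 1 / (b : ℝ) ^ 2 * (((Ico x (x + l)).filter G).card : ℝ) :=
    mul_le_mul_of_nonneg_left h4 (by positivity)
  have h6 : 2 * (l : ℝ) * (1 - 1 / (4 * b ^ 2 * t)) = l * 2 - 1 / (b : ℝ) ^ 2 * (l / (2 * t)) := by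
    field_simp
    ring
  rw [h6]
  linarith

/-- small moduli -/
lemma NN_small (b : ℕ) (hb : 2 ≤ b) (T : Finset ℕ) (hT : ∀ p ∈ T, p.Prime ∧ ¬ p ∣ b) (t : ℕ) (ht : 1 ≤ t) (hqt : ∏ p ∈ T, p ≤ b ^ t)
    (J : Finset ℕ) (x l : ι → ℕ) (hl : ∀ c, t ≤ l c) :
    NN b (J ×ˢ Ov x l) T ≤ ((J ×ˢ Ov x l).card : ℝ) ^ 2 *
      (1 / (∏ p ∈ T, (p : ℝ)) + (1 - 1 / (4 * b ^ 2 * t)) ^ (2 * Fintype.card ι)) := by
  classical
  obtain ⟨q, hq⟩ : ∃ q, q = ∏ p ∈ T, p := ⟨_, rfl⟩
  obtain ⟨Ω, hΩ⟩ : ∃ Ω, Ω = J ×ˢ Ov x l := ⟨_, rfl⟩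
  have hq1 : 1 ≤ q := by
    rw [hq]
    apply Nat.one_le_iff_ne_zero.2
    rw [prod_ne_zero_iff]
    intro p hp
    exact (hT p hp).1.ne_zero
  have hqr : (1 : ℝ) ≤ q := by exact_mod_cast hq1
  have hcop : b.Coprime q := by
    rw [hq]
    apply Nat.Coprime.prod_right
    intro p hp
    exact ((Nat.Prime.coprime_iff_not_dvd (hT p hp).1).2 (hT p hp).2).symm
  have hbr : (2 : ℝ) ≤ b := by exact_mod_cast hb
  have htr : (1 : ℝ) ≤ t := by exact_mod_cast ht
  set γ : ℝ := 1 - 1 / (4 * b ^ 2 * t) with hγ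
  have hγ0 : 0 ≤ γ := by
    rw [hγ, sub_nonneg, div_le_one (by positivity)]
    nlinarith
  -- the characters
  have h1 := sq_expand Ω (fun _ => (1 : ℂ)) (fun o => (vd b o : ℤ)) q hq1
  have h2 : ∑ o ∈ Ω, ∑ o' ∈ Ω, (1 : ℂ) * (starRingEnd ℂ) 1 * (if (q : ℤ) ∣ (vd b o : ℤ) - vd b o' then (q : ℂ) else 0) =
      ((q * NN b Ω T : ℝ) : ℂ) := by
    unfold NN
    push_cast
    rw [mul_sum]
    apply sum_congr rfl
    intro o _
    rw [mul_sum]
    apply sum_congr rfl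
    intro o' _
    have h3 : (q : ℤ) ∣ (vd b o : ℤ) - vd b o' ↔ ∀ p ∈ T, (p : ℤ) ∣ (vd b o : ℤ) - vd b o' := by
      rw [Int.natCast_dvd, hq]
      constructor
      · intro h p hp
        rw [Int.natCast_dvd]
        exact (dvd_prod_of_mem _ hp).trans h
      · intro h
        apply Finset.prod_primes_dvd
        · intro p hp
          exact (hT p hp).1.prime
        · intro p hp
          rw [← Int.natCast_dvd]
          exact h p hp
    by_cases h : (q : ℤ) ∣ (vd b o : ℤ) - vd b o'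
    · rw [if_pos h, if_pos (h3.1 h)]; simp
    · rw [if_neg h, if_neg (fun h' => h (h3.2 h'))]; simp
  rw [h2] at h1
  have h3 : ∑ r ∈ range q, ‖∑ o ∈ Ω, (1 : ℂ) * ee ((r : ℝ) * (((vd b o : ℤ) : ℝ) / q))‖ ^ 2 = q * NN b Ω T := by
    exact_mod_cast h1
  have h4 : ∀ r ∈ range q, ‖∑ o ∈ Ω, (1 : ℂ) * ee ((r : ℝ) * (((vd b o : ℤ) : ℝ) / q))‖ ^ 2 ≤
      (if r = 0 then (Ω.card : ℝ) ^ 2 else 0) + (Ω.card : ℝ) ^ 2 * γ ^ (2 * Fintype.card ι) := by
    intro r hr
    rw [mem_range] at hr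
    by_cases hr0 : r = 0
    · rw [if_pos hr0]
      have h5 : ‖∑ o ∈ Ω, (1 : ℂ) * ee ((r : ℝ) * (((vd b o : ℤ) : ℝ) / q))‖ ≤ Ω.card := by
        refine (norm_sum_le _ _).trans ?_
        simp [norm_ee]
      have h6 : ‖∑ o ∈ Ω, (1 : ℂ) * ee ((r : ℝ) * (((vd b o : ℤ) : ℝ) / q))‖ ^ 2 ≤ (Ω.card : ℝ) ^ 2 :=
        pow_le_pow_left₀ (norm_nonneg _) h5 2
      have h7 : 0 ≤ (Ω.card : ℝ) ^ 2 * γ ^ (2 * Fintype.card ι) := by positivity
      linarith
    · rw [if_neg hr0, zero_add]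
      have hra : ¬ (q : ℤ) ∣ (r : ℤ) := by
        intro h
        have := Int.natCast_dvd_natCast.1 h
        exact absurd (Nat.le_of_dvd (by omega) this) (by omega)
      have h5 := sum_vd (fun n : ℕ => ee ((n : ℝ) * (((r : ℤ) : ℝ) / q))) (by simp [ee_zero]) (by
        intro a a'
        rw [← ee_add]
        congr 1
        push_cast
        ring) b J x l
      have h6 : ∑ o ∈ Ω, (1 : ℂ) * ee ((r : ℝ) * (((vd b o : ℤ) : ℝ) / q)) =
          ∑ o ∈ J ×ˢ Ov x l, ee ((vd b o : ℝ) * (((r : ℤ) : ℝ) / q)) := by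
        rw [hΩ]
        apply sum_congr rfl
        intro o _
        rw [one_mul]
        congr 1
        push_cast
        ring
      rw [h6, h5, norm_mul, norm_prod]
      have h7 : ‖∑ j ∈ J, ee (((b ^ j : ℕ) : ℝ) * (((r : ℤ) : ℝ) / q))‖ ≤ J.card := by
        refine (norm_sum_le _ _).trans ?_
        simp [norm_ee]
      have h8 : ∏ c, ‖∑ j ∈ Ico (x c) (x c + l c), (1 + ee (((b ^ j : ℕ) : ℝ) * (((r : ℤ) : ℝ) / q)))‖ ≤
          ∏ c, (2 * (l c : ℝ) * γ) := by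
        apply prod_le_prod
        · intro c _; exact norm_nonneg _
        · intro c _
          exact block_small b q t hb hq1 (by rw [hq]; exact hqt) hcop r hra ht (x c) (l c) (hl c)
      have h9 : ∏ c, (2 * (l c : ℝ) * γ) = (∏ c, (2 * (l c : ℝ))) * γ ^ (Fintype.card ι) := by
        rw [prod_mul_distrib, prod_const, card_univ]
      rw [h9] at h8
      have h10 : (Ω.card : ℝ) = J.card * ∏ c, (2 * (l c : ℝ)) := by
        rw [hΩ, card_Om]
        push_cast
        rfl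
      have h11 : ‖∑ j ∈ J, ee (((b ^ j : ℕ) : ℝ) * (((r : ℤ) : ℝ) / q))‖ *
          ∏ c, ‖∑ j ∈ Ico (x c) (x c + l c), (1 + ee (((b ^ j : ℕ) : ℝ) * (((r : ℤ) : ℝ) / q)))‖ ≤ Ω.card * γ ^ (Fintype.card ι) := by
        refine (mul_le_mul h7 h8 (prod_nonneg fun _ _ => norm_nonneg _) (Nat.cast_nonneg _)).trans (le_of_eq ?_)
        rw [h10]; ring
      have h12 := pow_le_pow_left₀ (mul_nonneg (norm_nonneg _) (prod_nonneg fun _ _ => norm_nonneg _)) h11 2
      refine h12.trans (le_of_eq ?_)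
      rw [mul_pow, ← pow_mul, mul_comm (Fintype.card ι) 2]
  have h5 := sum_le_sum h4
  rw [h3, sum_add_distrib, sum_ite_eq', if_pos (mem_range.2 (by omega)), sum_const, card_range, nsmul_eq_mul] at h5
  have h6 : NN b Ω T ≤ (Ω.card : ℝ) ^ 2 * (1 / (q : ℝ) + γ ^ (2 * Fintype.card ι)) := by
    have hq0 : (0 : ℝ) < q := by linarith
    rw [← mul_le_mul_iff_right₀ hq0]
    refine h5.trans (le_of_eq ?_)
    field_simp
  rw [← hΩ]
  have h7 : (∏ p ∈ T, (p : ℝ)) = q := by rw [hq]; push_cast; rfl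
  rw [h7]
  exact h6

end Omega

end Pool.Agent.H86.DL
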