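import Pool.Agent.H86.L4

set_option autoImplicit false
set_option linter.unusedSectionVars false

/-! The average of the singular series over the differences of the choices. -/

namespace Pool.Agent.H86.DL
open Finset
open Pool.Agent.H373R2.T7
open Pool.Agent.W93.DG
open Pool.Agent.W93.HD

/-- the truncated singular series of the pair `n, n + h` -/
noncomputable def sg (z h : ℕ) : ℝ := (Vz z)⁻¹ * (Vz z)⁻¹ * ∏ p ∈ pz z, (1 - (nuB (QQ h) p : ℝ) / p)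

/-- `b / φ(b)` -/
noncomputable def B0 (b : ℕ) : ℝ := ∏ p ∈ b.primeFactors, (1 + 1 / ((p : ℝ) - 1))

noncomputable def al (p : ℕ) : ℝ := (p : ℝ) * (p - 2) / ((p : ℝ) - 1) ^ 2
noncomputable def be (p : ℕ) : ℝ := (p : ℝ) / ((p : ℝ) - 1) ^ 2

lemma al_nonneg (p : ℕ) (hp : 2 ≤ p) : 0 ≤ al p := by
  have : (2 : ℝ) ≤ p := by exact_mod_cast hp
  unfold al
  apply div_nonneg _ (sq_nonneg _)
  nlinarith

lemma be_nonneg (p : ℕ) : 0 ≤ be p := by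
  unfold be; positivity

lemma al_le_one (p : ℕ) (hp : 2 ≤ p) : al p ≤ 1 := by
  have : (2 : ℝ) ≤ p := by exact_mod_cast hp
  unfold al
  rw [div_le_one (by nlinarith)]
  nlinarith

lemma al_be (p : ℕ) (hp : 2 ≤ p) : al p + be p = 1 + 1 / ((p : ℝ) - 1) := by
  have : (2 : ℝ) ≤ p := by exact_mod_cast hp
  have h1 : (p : ℝ) - 1 ≠ 0 := by linarith
  unfold al be
  field_simp
  ring

lemma al_be' (p : ℕ) (hp : 2 ≤ p) : be p / p + al p = 1 := by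
  have : (2 : ℝ) ≤ p := by exact_mod_cast hp
  have h1 : (p : ℝ) - 1 ≠ 0 := by linarith
  have h2 : (p : ℝ) ≠ 0 := by linarith
  unfold al be
  field_simp
  ring

/-- the local factors -/
lemma loc (h p : ℕ) (hp : p.Prime) :
    0 ≤ (1 - 1 / (p : ℝ))⁻¹ * (1 - 1 / (p : ℝ))⁻¹ * (1 - (nuB (QQ h) p : ℝ) / p) ∧
    (1 - 1 / (p : ℝ))⁻¹ * (1 - 1 / (p : ℝ))⁻¹ * (1 - (nuB (QQ h) p : ℝ) / p) ≤ al p + (if p ∣ h then be p else 0) := by
  have hp2 : (2 : ℝ) ≤ p := by exact_mod_cast hp.two_le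
  have hp0 : (0 : ℝ) < p := by linarith
  have hp1 : (0 : ℝ) < (p : ℝ) - 1 := by linarith
  have hv : (1 - 1 / (p : ℝ))⁻¹ = p / (p - 1) := by
    have : 1 - 1 / (p : ℝ) = (p - 1) / p := by field_simp
    rw [this, inv_div]
  have hv0 : 0 ≤ (1 - 1 / (p : ℝ))⁻¹ := by rw [hv]; positivity
  constructor
  · apply mul_nonneg (mul_nonneg hv0 hv0)
    rw [sub_nonneg, div_le_one hp0]
    exact_mod_cast nuB_le (QQ h) p
  · split_ifs with hd
    · have h4 : (1 : ℝ) ≤ nuB (QQ h) p := by exact_mod_cast nu_ge_one h p hp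
      have h5 : 1 / (p : ℝ) ≤ (nuB (QQ h) p : ℝ) / p := div_le_div_of_nonneg_right h4 hp0.le
      rw [al_be p hp.two_le]
      calc (1 - 1 / (p : ℝ))⁻¹ * (1 - 1 / (p : ℝ))⁻¹ * (1 - (nuB (QQ h) p : ℝ) / p) ≤
            (1 - 1 / (p : ℝ))⁻¹ * (1 - 1 / (p : ℝ))⁻¹ * (1 - 1 / p) :=
            mul_le_mul_of_nonneg_left (by linarith) (mul_nonneg hv0 hv0)
        _ = 1 + 1 / ((p : ℝ) - 1) := by
            rw [hv]
            field_simp
            ring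
    · have h4 : (2 : ℝ) ≤ nuB (QQ h) p := by exact_mod_cast nu_ge_two h p hp hd
      have h5 : 2 / (p : ℝ) ≤ (nuB (QQ h) p : ℝ) / p := div_le_div_of_nonneg_right h4 hp0.le
      rw [add_zero]
      calc (1 - 1 / (p : ℝ))⁻¹ * (1 - 1 / (p : ℝ))⁻¹ * (1 - (nuB (QQ h) p : ℝ) / p) ≤
            (1 - 1 / (p : ℝ))⁻¹ * (1 - 1 / (p : ℝ))⁻¹ * (1 - 2 / p) :=
            mul_le_mul_of_nonneg_left (by linarith) (mul_nonneg hv0 hv0)
        _ = al p := by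
            rw [hv]
            unfold al
            field_simp

lemma B0_ge_one (b : ℕ) : 1 ≤ B0 b := by
  unfold B0
  have : ∏ p ∈ b.primeFactors, (1 : ℝ) ≤ ∏ p ∈ b.primeFactors, (1 + 1 / ((p : ℝ) - 1)) := by
    apply prod_le_prod
    · intro p _; norm_num
    · intro p hp
      have : (2 : ℝ) ≤ p := by exact_mod_cast (Nat.prime_of_mem_primeFactors hp).two_le
      have : 0 ≤ 1 / ((p : ℝ) - 1) := by
        apply div_nonneg zero_le_one; linarith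
      linarith
  simpa using this

lemma one_le_fac (p : ℕ) (hp : 2 ≤ p) : 1 ≤ 1 + 1 / ((p : ℝ) - 1) := by
  have : (2 : ℝ) ≤ p := by exact_mod_cast hp
  have : 0 ≤ 1 / ((p : ℝ) - 1) := by
    apply div_nonneg zero_le_one; linarith
  linarith

lemma prod_sub_le (S T : Finset ℕ) (h : S ⊆ T) (hT : ∀ p ∈ T, 2 ≤ p) :
    ∏ p ∈ S, (1 + 1 / ((p : ℝ) - 1)) ≤ ∏ p ∈ T, (1 + 1 / ((p : ℝ) - 1)) := by
  classical
  rw [← prod_sdiff h]
  have h1 : 1 ≤ ∏ p ∈ T \ S, (1 + 1 / ((p : ℝ) - 1)) := by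
    have : ∏ p ∈ T \ S, (1 : ℝ) ≤ ∏ p ∈ T \ S, (1 + 1 / ((p : ℝ) - 1)) := by
      apply prod_le_prod
      · intro p _; norm_num
      · intro p hp
        exact one_le_fac p (hT p (mem_sdiff.1 hp).1)
    simpa using this
  have h2 : 0 ≤ ∏ p ∈ S, (1 + 1 / ((p : ℝ) - 1)) := by
    apply prod_nonneg
    intro p hp
    have := one_le_fac p (hT p (h hp))
    linarith
  nlinarith

/-- the decomposition of the truncated singular series -/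
lemma sg_le (b n₀ z h : ℕ) (hb : b ≠ 0) :
    sg z h ≤ B0 b * ((∏ p ∈ (pz z).filter (fun p => ¬ p ∣ b ∧ p ∈ UU b n₀), ((if p ∣ h then be p else 0) + al p)) *
      ∏ p ∈ (pz z).filter (fun p => ¬ p ∣ b ∧ p ∉ UU b n₀), (1 + (if p ∣ h then 1 / ((p : ℝ) - 1) else 0))) := by
  classical
  obtain ⟨F, hF⟩ : ∃ F : ℕ → ℝ, F = fun p : ℕ => (1 - 1 / (p : ℝ))⁻¹ * (1 - 1 / (p : ℝ))⁻¹ * (1 - (nuB (QQ h) p : ℝ) / p) := ⟨_, rfl⟩
  have h1 : sg z h = ∏ p ∈ pz z, F p := by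
    unfold sg Vz
    rw [hF, ← prod_inv_distrib, ← prod_mul_distrib, ← prod_mul_distrib]
  have h2 : ∏ p ∈ pz z, F p = (∏ p ∈ (pz z).filter (fun p => p ∣ b), F p) *
      ((∏ p ∈ (pz z).filter (fun p => ¬ p ∣ b ∧ p ∈ UU b n₀), F p) * ∏ p ∈ (pz z).filter (fun p => ¬ p ∣ b ∧ p ∉ UU b n₀), F p) := by
    rw [← prod_filter_mul_prod_filter_not (pz z) (fun p => p ∣ b) F]
    congr 1
    rw [← prod_filter_mul_prod_filter_not ((pz z).filter (fun p => ¬ p ∣ b)) (fun p => p ∈ UU b n₀) F, filter_filter, filter_filter]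
  have hpr : ∀ p ∈ pz z, p.Prime := fun p hp => (mem_pz.1 hp).2
  have hF0 : ∀ p ∈ pz z, 0 ≤ F p := by
    intro p hp
    rw [hF]
    exact (loc h p (hpr p hp)).1
  have hF1 : ∀ p ∈ pz z, F p ≤ al p + (if p ∣ h then be p else 0) := by
    intro p hp
    rw [hF]
    exact (loc h p (hpr p hp)).2
  rw [h1, h2]
  have h3 : ∏ p ∈ (pz z).filter (fun p => p ∣ b), F p ≤ B0 b := by
    have h4 : ∏ p ∈ (pz z).filter (fun p => p ∣ b), F p ≤ ∏ p ∈ (pz z).filter (fun p => p ∣ b), (1 + 1 / ((p : ℝ) - 1)) := by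
      apply prod_le_prod
      · intro p hp
        exact hF0 p (mem_filter.1 hp).1
      · intro p hp
        have h5 := hpr p (mem_filter.1 hp).1
        refine (hF1 p (mem_filter.1 hp).1).trans ?_
        rw [← al_be p h5.two_le]
        have := be_nonneg p
        split_ifs <;> linarith
    refine h4.trans ?_
    apply prod_sub_le
    · intro p hp
      rw [mem_filter] at hp
      rw [Nat.mem_primeFactors]
      exact ⟨hpr p hp.1, hp.2, hb⟩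
    · intro p hp
      exact (Nat.prime_of_mem_primeFactors hp).two_le
  have h4 : ∏ p ∈ (pz z).filter (fun p => ¬ p ∣ b ∧ p ∈ UU b n₀), F p ≤
      ∏ p ∈ (pz z).filter (fun p => ¬ p ∣ b ∧ p ∈ UU b n₀), ((if p ∣ h then be p else 0) + al p) := by
    apply prod_le_prod
    · intro p hp
      exact hF0 p (mem_filter.1 hp).1
    · intro p hp
      refine (hF1 p (mem_filter.1 hp).1).trans (le_of_eq (add_comm _ _))
  have h5 : ∏ p ∈ (pz z).filter (fun p => ¬ p ∣ b ∧ p ∉ UU b n₀), F p ≤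
      ∏ p ∈ (pz z).filter (fun p => ¬ p ∣ b ∧ p ∉ UU b n₀), (1 + (if p ∣ h then 1 / ((p : ℝ) - 1) else 0)) := by
    apply prod_le_prod
    · intro p hp
      exact hF0 p (mem_filter.1 hp).1
    · intro p hp
      have h6 := hpr p (mem_filter.1 hp).1
      refine (hF1 p (mem_filter.1 hp).1).trans ?_
      split_ifs
      · rw [al_be p h6.two_le]
      · have := al_le_one p h6.two_le
        linarith
  have h6 : 0 ≤ ∏ p ∈ (pz z).filter (fun p => ¬ p ∣ b ∧ p ∈ UU b n₀), F p := prod_nonneg fun p hp => hF0 p (mem_filter.1 hp).1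
  have h7 : 0 ≤ ∏ p ∈ (pz z).filter (fun p => ¬ p ∣ b ∧ p ∉ UU b n₀), F p := prod_nonneg fun p hp => hF0 p (mem_filter.1 hp).1
  have hB := B0_ge_one b
  apply mul_le_mul h3 _ (mul_nonneg h6 h7) (by linarith)
  exact mul_le_mul h4 h5 h7 (h6.trans h4)

/-- `b / φ(b)` -/
lemma Vz_inv_eq (z : ℕ) : (Vz z)⁻¹ = ∏ p ∈ pz z, (1 + 1 / ((p : ℝ) - 1)) := by
  unfold Vz
  rw [← prod_inv_distrib]
  apply prod_congr rfl
  intro p hp
  have h2 : (2 : ℝ) ≤ p := by exact_mod_cast (mem_pz.1 hp).2.two_le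
  have h3 : (p : ℝ) - 1 ≠ 0 := by linarith
  have h4 : (p : ℝ) ≠ 0 := by linarith
  have h5 : 1 - 1 / (p : ℝ) = (p - 1) / p := by field_simp
  rw [h5, inv_div]
  field_simp
  ring

section Omega
variable {ι : Type} [Fintype ι] [DecidableEq ι]

/-- the small moduli on average -/
lemma A_avg (b : ℕ) (hb : 2 ≤ b) (P : Finset ℕ) (hP : ∀ p ∈ P, p.Prime ∧ ¬ p ∣ b) (t : ℕ) (ht : 1 ≤ t) (hqt : ∏ p ∈ P, p ≤ b ^ t)
    (J : Finset ℕ) (x l : ι → ℕ) (hl : ∀ c, t ≤ l c) :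
    ∑ o ∈ J ×ˢ Ov x l, ∑ o' ∈ J ×ˢ Ov x l, ∏ p ∈ P, ((if p ∣ ((vd b o : ℤ) - vd b o').natAbs then be p else 0) + al p) ≤
      ((J ×ˢ Ov x l).card : ℝ) ^ 2 * (1 + (1 - 1 / (4 * b ^ 2 * t)) ^ (2 * Fintype.card ι) * ∏ p ∈ P, (1 + 1 / ((p : ℝ) - 1))) := by
  classical
  obtain ⟨Ω, hΩ⟩ : ∃ Ω, Ω = J ×ˢ Ov x l := ⟨_, rfl⟩
  rw [← hΩ]
  obtain ⟨η, hη⟩ : ∃ η : ℝ, η = (1 - 1 / (4 * b ^ 2 * t)) ^ (2 * Fintype.card ι) := ⟨_, rfl⟩
  rw [← hη]
  have h1 : ∀ o ∈ Ω, ∀ o' ∈ Ω, ∏ p ∈ P, ((if p ∣ ((vd b o : ℤ) - vd b o').natAbs then be p else 0) + al p) =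
      ∑ T ∈ P.powerset, ((∏ p ∈ T, be p) * ∏ p ∈ P \ T, al p) * (if ∀ p ∈ T, (p : ℤ) ∣ (vd b o : ℤ) - vd b o' then 1 else 0) := by
    intro o _ o' _
    rw [prod_add]
    apply sum_congr rfl
    intro T _
    by_cases h : ∀ p ∈ T, (p : ℤ) ∣ (vd b o : ℤ) - vd b o'
    · rw [if_pos h, mul_one]
      congr 1
      apply prod_congr rfl
      intro p hp
      rw [if_pos (Int.natCast_dvd.1 (h p hp))]
    · rw [if_neg h, mul_zero]
      push Not at h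
      obtain ⟨p, hp, hd⟩ := h
      rw [prod_eq_zero hp, zero_mul]
      rw [if_neg (fun h' => hd (Int.natCast_dvd.2 h'))]
  have h2 : ∑ o ∈ Ω, ∑ o' ∈ Ω, ∏ p ∈ P, ((if p ∣ ((vd b o : ℤ) - vd b o').natAbs then be p else 0) + al p) =
      ∑ T ∈ P.powerset, ((∏ p ∈ T, be p) * ∏ p ∈ P \ T, al p) * NN b Ω T := by
    rw [sum_congr rfl (fun o ho => sum_congr rfl (fun o' ho' => h1 o ho o' ho'))]
    rw [sum_congr rfl (fun o ho => sum_comm), sum_comm]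
    apply sum_congr rfl
    intro T _
    unfold NN
    rw [mul_sum]
    apply sum_congr rfl
    intro o _
    rw [mul_sum]
  rw [h2]
  have h3 : ∀ T ∈ P.powerset, ((∏ p ∈ T, be p) * ∏ p ∈ P \ T, al p) * NN b Ω T ≤
      (Ω.card : ℝ) ^ 2 * ((∏ p ∈ T, (be p / p)) * (∏ p ∈ P \ T, al p)) +
      (Ω.card : ℝ) ^ 2 * (η * ((∏ p ∈ T, be p) * ∏ p ∈ P \ T, al p)) := by
    intro T hT
    rw [mem_powerset] at hT
    have h4 : NN b Ω T ≤ (Ω.card : ℝ) ^ 2 * (1 / (∏ p ∈ T, (p : ℝ)) + η) := by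
      rw [hΩ, hη]
      apply NN_small b hb T (fun p hp => hP p (hT hp)) t ht _ J x l hl
      refine le_trans (Nat.le_of_dvd ?_ (prod_dvd_prod_of_subset _ _ _ hT)) hqt
      apply Nat.pos_of_ne_zero
      rw [prod_ne_zero_iff]
      intro p hp
      exact (hP p hp).1.ne_zero
    have h5 : 0 ≤ (∏ p ∈ T, be p) * ∏ p ∈ P \ T, al p := by
      apply mul_nonneg
      · exact prod_nonneg fun p _ => be_nonneg p
      · exact prod_nonneg fun p hp => al_nonneg p (hP p (mem_sdiff.1 hp).1).1.two_le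
    refine (mul_le_mul_of_nonneg_left h4 h5).trans (le_of_eq ?_)
    rw [prod_div_distrib]
    ring
  refine (sum_le_sum h3).trans ?_
  rw [sum_add_distrib, ← mul_sum, ← mul_sum, ← mul_sum, ← prod_add, ← prod_add]
  have h4 : ∏ p ∈ P, (be p / p + al p) = 1 := by
    apply prod_eq_one
    intro p hp
    exact al_be' p (hP p hp).1.two_le
  have h5 : ∏ p ∈ P, (be p + al p) = ∏ p ∈ P, (1 + 1 / ((p : ℝ) - 1)) := by
    apply prod_congr rfl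
    intro p hp
    rw [add_comm, al_be p (hP p hp).1.two_le]
  rw [h4, h5]
  apply le_of_eq
  ring

/-- the large moduli on average -/
lemma B_avg (b : ℕ) (hb : 2 ≤ b) (P : Finset ℕ) (hP : ∀ p ∈ P, p.Prime ∧ ¬ p ∣ b) (u w : ℕ) (hw : 1 ≤ w) (x l : ι → ℕ) :
    ∑ o ∈ Ico u (u + w) ×ˢ Ov x l, ∑ o' ∈ Ico u (u + w) ×ˢ Ov x l,
      (∏ p ∈ P, (1 + (if p ∣ ((vd b o : ℤ) - vd b o').natAbs then 1 / ((p : ℝ) - 1) else 0)) - 1) ≤
      ((Ico u (u + w) ×ˢ Ov x l).card : ℝ) ^ 2 * (∑ T ∈ P.powerset.erase ∅, wt1 T / o1 b T + (∏ p ∈ P, (1 + 1 / ((p : ℝ) - 1))) / w) := by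
  classical
  obtain ⟨Ω, hΩ⟩ : ∃ Ω, Ω = Ico u (u + w) ×ˢ Ov x l := ⟨_, rfl⟩
  rw [← hΩ]
  have h1 : ∀ o ∈ Ω, ∀ o' ∈ Ω, ∏ p ∈ P, (1 + (if p ∣ ((vd b o : ℤ) - vd b o').natAbs then 1 / ((p : ℝ) - 1) else 0)) - 1 =
      ∑ T ∈ P.powerset.erase ∅, wt1 T * (if ∀ p ∈ T, (p : ℤ) ∣ (vd b o : ℤ) - vd b o' then 1 else 0) := by
    intro o _ o' _
    rw [prod_one_add, ← add_sum_erase _ _ (empty_mem_powerset P), prod_empty, add_sub_cancel_left]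
    apply sum_congr rfl
    intro T _
    by_cases h : ∀ p ∈ T, (p : ℤ) ∣ (vd b o : ℤ) - vd b o'
    · rw [if_pos h, mul_one]
      apply prod_congr rfl
      intro p hp
      rw [if_pos (Int.natCast_dvd.1 (h p hp))]
    · rw [if_neg h, mul_zero]
      push Not at h
      obtain ⟨p, hp, hd⟩ := h
      rw [prod_eq_zero hp]
      rw [if_neg (fun h' => hd (Int.natCast_dvd.2 h'))]
  have h2 : ∑ o ∈ Ω, ∑ o' ∈ Ω, (∏ p ∈ P, (1 + (if p ∣ ((vd b o : ℤ) - vd b o').natAbs then 1 / ((p : ℝ) - 1) else 0)) - 1) =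
      ∑ T ∈ P.powerset.erase ∅, wt1 T * NN b Ω T := by
    rw [sum_congr rfl (fun o ho => sum_congr rfl (fun o' ho' => h1 o ho o' ho'))]
    rw [sum_congr rfl (fun o ho => sum_comm), sum_comm]
    apply sum_congr rfl
    intro T _
    unfold NN
    rw [mul_sum]
    apply sum_congr rfl
    intro o _
    rw [mul_sum]
  rw [h2]
  have hwt : ∀ T ∈ P.powerset, 0 ≤ wt1 T := by
    intro T hT
    rw [mem_powerset] at hT
    exact wt1_nonneg T fun p hp => (hP p (hT hp)).1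
  have h3 : ∀ T ∈ P.powerset.erase ∅, wt1 T * NN b Ω T ≤ (Ω.card : ℝ) ^ 2 * (wt1 T / o1 b T) + (Ω.card : ℝ) ^ 2 * (wt1 T / w) := by
    intro T hT
    have hT' := mem_of_mem_erase hT
    have h4 := NN_large b hb T (fun p hp => hP p (mem_powerset.1 hT' hp)) u w hw x l
    rw [← hΩ] at h4
    refine (mul_le_mul_of_nonneg_left h4 (hwt T hT')).trans (le_of_eq ?_)
    ring
  refine (sum_le_sum h3).trans ?_
  rw [sum_add_distrib, ← mul_sum, ← mul_sum, ← mul_add, ← sum_div]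
  apply mul_le_mul_of_nonneg_left _ (by positivity)
  apply add_le_add le_rfl
  apply div_le_div_of_nonneg_right _ (Nat.cast_nonneg _)
  rw [prod_eq_wt1]
  apply sum_le_sum_of_subset_of_nonneg (erase_subset _ _)
  intro T hT _
  exact hwt T hT

end Omega

/-- the average of the singular series -/
theorem sing_avg (b : ℕ) (hb : 2 ≤ b) (ε : ℝ) (hε : 0 < ε) : ∃ (C : ℝ) (s₀ t : ℕ), 0 ≤ C ∧ 1 ≤ t ∧
    ∀ (ι : Type) [Fintype ι] [DecidableEq ι], s₀ ≤ Fintype.card ι → ∀ z : ℕ, 3 ≤ z → ∀ u w : ℕ, 1 ≤ w →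
    ∀ x l : ι → ℕ, (∀ c, t ≤ l c) →
      ∑ o ∈ Ico u (u + w) ×ˢ Ov x l, ∑ o' ∈ Ico u (u + w) ×ˢ Ov x l, sg z ((vd b o : ℤ) - vd b o').natAbs ≤
        B0 b * (((Ico u (u + w) ×ˢ Ov x l).card : ℝ) ^ 2 * (1 + ε + C * Real.log z / w)) := by
  classical
  obtain ⟨C1, hC1, htail⟩ := tail b hb
  obtain ⟨C2, hC2, hV⟩ := Vz_inv_log
  -- the border between the small and the large orders
  obtain ⟨n₀, hn₀⟩ := exists_nat_ge ((4 * C1 ^ 2 / ε) ^ 2 + 1)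
  have hn1 : 1 ≤ n₀ := by
    have : (0 : ℝ) ≤ (4 * C1 ^ 2 / ε) ^ 2 := sq_nonneg _
    have h : (1 : ℝ) ≤ n₀ := by linarith
    exact_mod_cast h
  obtain ⟨ht1, ht2⟩ := htail n₀ hn1
  have hn0r : (1 : ℝ) ≤ n₀ := by exact_mod_cast hn1
  obtain ⟨Q, hQ⟩ : ∃ Q, Q = ∏ p ∈ UU b n₀, p := ⟨_, rfl⟩
  have hUpr : ∀ p ∈ UU b n₀, p.Prime := fun p hp => ((mem_UU b n₀ p hb).1 hp).1
  have hQ1 : 1 ≤ Q := by
    rw [hQ]
    apply Nat.one_le_iff_ne_zero.2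
    rw [prod_ne_zero_iff]
    intro p hp
    exact (hUpr p hp).ne_zero
  obtain ⟨Am, hAm⟩ : ∃ Am : ℝ, Am = C1 * √(√(n₀ : ℝ)) := ⟨_, rfl⟩
  have hsp : 0 < √√(n₀ : ℝ) := Real.sqrt_pos.2 (Real.sqrt_pos.2 (by linarith))
  have hAm0 : 0 < Am := by rw [hAm]; positivity
  -- the number of steps
  obtain ⟨γ, hγ⟩ : ∃ γ : ℝ, γ = 1 - 1 / (4 * (b : ℝ) ^ 2 * Q) := ⟨_, rfl⟩
  have hbr : (2 : ℝ) ≤ b := by exact_mod_cast hb
  have hQr : (1 : ℝ) ≤ Q := by exact_mod_cast hQ1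
  have hγ0 : 0 ≤ γ := by
    rw [hγ, sub_nonneg, div_le_one (by positivity)]
    nlinarith
  have hγ1 : γ < 1 := by
    rw [hγ]
    have : 0 < 1 / (4 * (b : ℝ) ^ 2 * Q) := by positivity
    linarith
  obtain ⟨s₀, hs₀⟩ := exists_pow_lt_of_lt_one (show 0 < ε / (2 * Am) by positivity) hγ1
  refine ⟨Am * C2, s₀, Q, by positivity, hQ1, fun ι _ _ hcard z hz u w hw x l hl => ?_⟩
  obtain ⟨Ω, hΩ⟩ : ∃ Ω, Ω = Ico u (u + w) ×ˢ Ov x l := ⟨_, rfl⟩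
  obtain ⟨Ps, hPs⟩ : ∃ Ps, Ps = (pz z).filter (fun p => ¬ p ∣ b ∧ p ∈ UU b n₀) := ⟨_, rfl⟩
  obtain ⟨Pl, hPl⟩ : ∃ Pl, Pl = (pz z).filter (fun p => ¬ p ∣ b ∧ p ∉ UU b n₀) := ⟨_, rfl⟩
  have hPs1 : ∀ p ∈ Ps, p.Prime ∧ ¬ p ∣ b := by
    intro p hp
    rw [hPs, mem_filter] at hp
    exact ⟨(mem_pz.1 hp.1).2, hp.2.1⟩
  have hPs2 : Ps ⊆ UU b n₀ := by
    intro p hp
    rw [hPs, mem_filter] at hp
    exact hp.2.2
  have hPl1 : ∀ p ∈ Pl, p.Prime ∧ ¬ p ∣ b ∧ p ∉ UU b n₀ := by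
    intro p hp
    rw [hPl, mem_filter] at hp
    exact ⟨(mem_pz.1 hp.1).2, hp.2.1, hp.2.2⟩
  have hA1 : ∏ p ∈ Ps, (1 + 1 / ((p : ℝ) - 1)) ≤ Am := by rw [hAm]; exact ht1 Ps hPs2
  have hw0 : (0 : ℝ) < w := by exact_mod_cast hw
  have hlog : 0 ≤ Real.log z := Real.log_nonneg (by exact_mod_cast (by omega : 1 ≤ z))
  have hB1 : ∏ p ∈ Pl, (1 + 1 / ((p : ℝ) - 1)) ≤ C2 * Real.log z := by
    refine (prod_sub_le Pl (pz z) ?_ fun p hp => (mem_pz.1 hp).2.two_le).trans ?_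
    · rw [hPl]; exact filter_subset _ _
    · rw [← Vz_inv_eq]
      exact hV z hz
  have hav1 := A_avg (ι := ι) b hb Ps hPs1 Q hQ1 (by
    refine le_trans (Nat.le_of_dvd (by omega) ?_) (Nat.lt_pow_self (show 1 < b by omega)).le
    rw [hQ]
    exact prod_dvd_prod_of_subset _ _ _ hPs2) (Ico u (u + w)) x l hl
  have hav2 := B_avg (ι := ι) b hb Pl (fun p hp => ⟨(hPl1 p hp).1, (hPl1 p hp).2.1⟩) u w hw x l
  have hav3 := ht2 Pl hPl1
  rw [← hΩ] at hav1 hav2 ⊢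
  obtain ⟨a, ha⟩ : ∃ a : (ℕ × (ι → ℕ × ℕ)) → (ℕ × (ι → ℕ × ℕ)) → ℝ, a = fun o o' =>
    ∏ p ∈ Ps, ((if p ∣ ((vd b o : ℤ) - vd b o').natAbs then be p else 0) + al p) := ⟨_, rfl⟩
  obtain ⟨c, hc⟩ : ∃ c : (ℕ × (ι → ℕ × ℕ)) → (ℕ × (ι → ℕ × ℕ)) → ℝ, c = fun o o' =>
    ∏ p ∈ Pl, (1 + (if p ∣ ((vd b o : ℤ) - vd b o').natAbs then 1 / ((p : ℝ) - 1) else 0)) := ⟨_, rfl⟩
  have ha0 : ∀ o o', a o o' ≤ Am := by
    intro o o'
    refine le_trans ?_ hA1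
    rw [ha]
    apply prod_le_prod
    · intro p hp
      have := al_nonneg p (hPs1 p hp).1.two_le
      have := be_nonneg p
      split_ifs <;> linarith
    · intro p hp
      rw [← al_be p (hPs1 p hp).1.two_le]
      have := be_nonneg p
      split_ifs <;> linarith
  have hc1 : ∀ o o', 1 ≤ c o o' := by
    intro o o'
    have : ∏ p ∈ Pl, (1 : ℝ) ≤ c o o' := by
      rw [hc]
      apply prod_le_prod
      · intro p _; norm_num
      · intro p hp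
        have h2 : (2 : ℝ) ≤ p := by exact_mod_cast (hPl1 p hp).1.two_le
        have : 0 ≤ 1 / ((p : ℝ) - 1) := div_nonneg zero_le_one (by linarith)
        split_ifs <;> linarith
    simpa using this
  have hsg : ∀ o o', sg z ((vd b o : ℤ) - vd b o').natAbs ≤ B0 b * (a o o' + Am * (c o o' - 1)) := by
    intro o o'
    refine (sg_le b n₀ z _ (by omega)).trans ?_
    rw [← hPs, ← hPl]
    have hB := B0_ge_one b
    apply mul_le_mul_of_nonneg_left _ (by linarith)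
    have h1 := ha0 o o'
    have h2 := hc1 o o'
    have h3 : a o o' * c o o' ≤ a o o' + Am * (c o o' - 1) := by nlinarith
    rw [ha, hc] at h3 ⊢
    exact h3
  have hsum : ∑ o ∈ Ω, ∑ o' ∈ Ω, sg z ((vd b o : ℤ) - vd b o').natAbs ≤
      B0 b * (∑ o ∈ Ω, ∑ o' ∈ Ω, a o o' + Am * ∑ o ∈ Ω, ∑ o' ∈ Ω, (c o o' - 1)) := by
    rw [mul_sum, ← sum_add_distrib, mul_sum]
    apply sum_le_sum
    intro o _
    rw [mul_sum, ← sum_add_distrib, mul_sum]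
    apply sum_le_sum
    intro o' _
    exact hsg o o'
  refine hsum.trans ?_
  have hB := B0_ge_one b
  apply mul_le_mul_of_nonneg_left _ (by linarith)
  have hcard0 : 0 ≤ (Ω.card : ℝ) ^ 2 := sq_nonneg _
  have e1 : ∑ o ∈ Ω, ∑ o' ∈ Ω, a o o' ≤ (Ω.card : ℝ) ^ 2 * (1 + ε / 2) := by
    rw [ha]
    refine hav1.trans ?_
    apply mul_le_mul_of_nonneg_left _ hcard0
    apply add_le_add le_rfl
    rw [← hγ]
    have h1 : γ ^ (2 * Fintype.card ι) ≤ γ ^ s₀ := pow_le_pow_of_le_one hγ0 hγ1.le (by omega)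
    have h2 : γ ^ (2 * Fintype.card ι) ≤ ε / (2 * Am) := h1.trans hs₀.le
    have h3 : 0 ≤ ∏ p ∈ Ps, (1 + 1 / ((p : ℝ) - 1)) := by
      apply prod_nonneg
      intro p hp
      have := one_le_fac p (hPs1 p hp).1.two_le
      linarith
    calc γ ^ (2 * Fintype.card ι) * ∏ p ∈ Ps, (1 + 1 / ((p : ℝ) - 1)) ≤ ε / (2 * Am) * Am :=
          mul_le_mul h2 hA1 h3 (by positivity)
      _ = ε / 2 := by field_simp
  have e2 : ∑ o ∈ Ω, ∑ o' ∈ Ω, (c o o' - 1) ≤ (Ω.card : ℝ) ^ 2 * (2 * C1 / (√(√(n₀ : ℝ)) * √((n₀ : ℝ) + 1)) + C2 * Real.log z / w) := by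
    rw [hc]
    refine hav2.trans ?_
    apply mul_le_mul_of_nonneg_left _ hcard0
    exact add_le_add hav3 (div_le_div_of_nonneg_right hB1 hw0.le)
  have e3 : Am * (2 * C1 / (√(√(n₀ : ℝ)) * √((n₀ : ℝ) + 1))) ≤ ε / 2 := by
    have h1 : Am * (2 * C1 / (√(√(n₀ : ℝ)) * √((n₀ : ℝ) + 1))) = 2 * C1 ^ 2 / √((n₀ : ℝ) + 1) := by
      rw [hAm]
      field_simp
    rw [h1]
    have h2 : 4 * C1 ^ 2 / ε ≤ √((n₀ : ℝ) + 1) := by
      apply Real.le_sqrt_of_sq_le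
      linarith
    have h3 : 0 < √((n₀ : ℝ) + 1) := Real.sqrt_pos.2 (by linarith)
    rw [div_le_iff₀ h3]
    rw [div_le_iff₀ hε] at h2
    nlinarith
  calc ∑ o ∈ Ω, ∑ o' ∈ Ω, a o o' + Am * ∑ o ∈ Ω, ∑ o' ∈ Ω, (c o o' - 1) ≤
        (Ω.card : ℝ) ^ 2 * (1 + ε / 2) +
          Am * ((Ω.card : ℝ) ^ 2 * (2 * C1 / (√(√(n₀ : ℝ)) * √((n₀ : ℝ) + 1)) + C2 * Real.log z / w)) :=
        add_le_add e1 (mul_le_mul_of_nonneg_left e2 hAm0.le)
    _ = (Ω.card : ℝ) ^ 2 * (1 + ε / 2 + Am * (2 * C1 / (√(√(n₀ : ℝ)) * √((n₀ : ℝ) + 1))) + Am * C2 * Real.log z / w) := by ring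
    _ ≤ (Ω.card : ℝ) ^ 2 * (1 + ε + Am * C2 * Real.log z / w) := by
        apply mul_le_mul_of_nonneg_left _ hcard0
        linarith

end Pool.Agent.H86.DL
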