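import Pool.Agent.H86.L5

set_option autoImplicit false
set_option linter.unusedSectionVars false

/-! The smoothed sieve model is close to a multiple of the indicator of the integers coprime to `b`. -/

namespace Pool.Agent.H86.DL
open Finset
open Pool.Agent.H373R2.T7
open Pool.Agent.W93.DG
open Pool.Agent.W93.HD

def Q1 (p n : ℕ) : Prop := p ∣ n

lemma Q1_per : PerB Q1 1 := by
  classical
  constructor
  · intro p n
    exact (Nat.dvd_mod_iff dvd_rfl).symm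
  · intro p hp
    unfold nuB
    have : (range p).filter (fun r => Q1 p r) ⊆ {0} := by
      intro r hr
      rw [mem_filter, mem_range] at hr
      rw [mem_singleton]
      exact Nat.eq_zero_of_dvd_of_lt hr.2 hr.1
    exact (card_le_card this).trans (by simp)

lemma pair_asym (ε : ℝ) (hε : 0 < ε) (hε1 : ε ≤ 1) : ∃ K₁ x0 : ℕ, 1 ≤ K₁ ∧ ∀ X z : ℕ, x0 ≤ z → z ^ K₁ ≤ X →
    (∀ h : ℕ, ∑ a ∈ Icc 1 X, lamz z a * lamz z (a + h) ≤ (1 + ε) * X * sg z h + (Vz z)⁻¹ * (Vz z)⁻¹ * √(X : ℝ)) ∧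
    (∀ Y : ℕ, (1 - ε) * Y - (Vz z)⁻¹ * √(X : ℝ) ≤ ∑ a ∈ Icc 1 Y, lamz z a) := by
  classical
  obtain ⟨Ka, xa, hKa, ha⟩ := sys_fund 2 (by norm_num) ε hε
  obtain ⟨Kb, xb, hKb, hb⟩ := sys_fund 1 (by norm_num) ε hε
  refine ⟨max Ka Kb, max (max xa xb) 1, le_max_of_le_left hKa, fun X z hz hzX => ?_⟩
  have hz1 : 1 ≤ z := (le_max_right _ _).trans hz
  have hza : xa ≤ z := (le_max_left _ _).trans ((le_max_left _ _).trans hz)
  have hzb : xb ≤ z := (le_max_right _ _).trans ((le_max_left _ _).trans hz)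
  have hXa : z ^ Ka ≤ X := (Nat.pow_le_pow_right hz1 (le_max_left _ _)).trans hzX
  have hXb : z ^ Kb ≤ X := (Nat.pow_le_pow_right hz1 (le_max_right _ _)).trans hzX
  have hV0 := Vz_pos z
  have hVi0 : 0 < (Vz z)⁻¹ := inv_pos.2 hV0
  constructor
  · intro h
    have h1 := (abs_le.1 (ha X z hza hXa _ (QQ_per h) X)).2
    have h3 : ∑ a ∈ Icc 1 X, lamz z a * lamz z (a + h) =
        (Vz z)⁻¹ * (Vz z)⁻¹ * (((Icc 1 X).filter (fun n : ℕ => ∀ p ∈ pz z, ¬ QQ h p n)).card : ℝ) := by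
      have e1 : ∀ a ∈ Icc 1 X, lamz z a * lamz z (a + h) = if ∀ p ∈ pz z, ¬ QQ h p a then (Vz z)⁻¹ * (Vz z)⁻¹ else 0 := by
        intro a _
        unfold lamz
        by_cases hc : ∀ p ∈ pz z, ¬ QQ h p a
        · rw [if_pos hc, if_pos (fun p hp hd => hc p hp (Or.inl hd)), if_pos (fun p hp hd => hc p hp (Or.inr hd))]
        · rw [if_neg hc]
          push Not at hc
          obtain ⟨p, hp, hq⟩ := hc
          rcases hq with hq | hq
          · rw [if_neg (fun h => h p hp hq), zero_mul]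
          · rw [if_neg (c := ∀ p ∈ pz z, ¬ p ∣ a + h) (fun h => h p hp hq), mul_zero]
      rw [sum_congr rfl e1, ← sum_filter, sum_const, nsmul_eq_mul, mul_comm]
    rw [h3]
    obtain ⟨P, hP⟩ : ∃ P : ℝ, P = ∏ p ∈ pz z, (1 - (nuB (QQ h) p : ℝ) / p) := ⟨_, rfl⟩
    unfold sg
    rw [← hP] at h1 ⊢
    have h4 : (((Icc 1 X).filter (fun n : ℕ => ∀ p ∈ pz z, ¬ QQ h p n)).card : ℝ) ≤ (1 + ε) * X * P + √(X : ℝ) := by linarith
    calc (Vz z)⁻¹ * (Vz z)⁻¹ * (((Icc 1 X).filter (fun n : ℕ => ∀ p ∈ pz z, ¬ QQ h p n)).card : ℝ) ≤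
          (Vz z)⁻¹ * (Vz z)⁻¹ * ((1 + ε) * X * P + √(X : ℝ)) := mul_le_mul_of_nonneg_left h4 (by positivity)
      _ = _ := by ring
  · intro Y
    have h1 := (abs_le.1 (hb X z hzb hXb _ Q1_per Y)).1
    have h2 : Vz z ≤ ∏ p ∈ pz z, (1 - (nuB Q1 p : ℝ) / p) := by
      unfold Vz
      apply prod_le_prod
      · intro p hp
        have hpp := (mem_pz.1 hp).2
        have hp0 : (1 : ℝ) ≤ p := by exact_mod_cast hpp.one_le
        rw [sub_nonneg, div_le_one (by linarith)]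
        exact hp0
      · intro p hp
        have hpp := (mem_pz.1 hp).2
        have hp0 : (0 : ℝ) < p := by exact_mod_cast hpp.pos
        have h4 : (nuB Q1 p : ℝ) ≤ 1 := by exact_mod_cast Q1_per.few p hpp
        have : (nuB Q1 p : ℝ) / p ≤ 1 / (p : ℝ) := div_le_div_of_nonneg_right h4 hp0.le
        linarith
    have h3 : ∑ a ∈ Icc 1 Y, lamz z a = (Vz z)⁻¹ * (((Icc 1 Y).filter (fun n : ℕ => ∀ p ∈ pz z, ¬ Q1 p n)).card : ℝ) := by
      have e1 : ∀ a ∈ Icc 1 Y, lamz z a = if ∀ p ∈ pz z, ¬ Q1 p a then (Vz z)⁻¹ else 0 := by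
        intro a _
        unfold lamz Q1
        congr
      rw [sum_congr rfl e1, ← sum_filter, sum_const, nsmul_eq_mul, mul_comm]
    rw [h3]
    have hY : (0 : ℝ) ≤ Y := Nat.cast_nonneg _
    have h4 : (1 - ε) * (Y * Vz z) - √(X : ℝ) ≤ (((Icc 1 Y).filter (fun n : ℕ => ∀ p ∈ pz z, ¬ Q1 p n)).card : ℝ) := by
      obtain ⟨P, hP⟩ : ∃ P : ℝ, P = ∏ p ∈ pz z, (1 - (nuB Q1 p : ℝ) / p) := ⟨_, rfl⟩
      rw [← hP] at h1 h2
      have h5 : (Y : ℝ) * Vz z ≤ Y * P := mul_le_mul_of_nonneg_left h2 hY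
      have h6 : (1 - ε) * (Y * Vz z) ≤ (1 - ε) * (Y * P) := mul_le_mul_of_nonneg_left h5 (by linarith)
      linarith
    calc (1 - ε) * Y - (Vz z)⁻¹ * √(X : ℝ) = (Vz z)⁻¹ * ((1 - ε) * (Y * Vz z) - √(X : ℝ)) := by field_simp
      _ ≤ _ := mul_le_mul_of_nonneg_left h4 hVi0.le

/-- the limit function -/
noncomputable def ph (b x : ℕ) : ℝ := if b.Coprime x then B0 b else 0

lemma ph_nonneg (b x : ℕ) : 0 ≤ ph b x := by
  have := B0_ge_one b
  unfold ph
  split_ifs <;> linarith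

lemma B0_mul (b : ℕ) (hb : b ≠ 0) : B0 b * (Nat.totient b : ℝ) = b := by
  have h1 := Nat.totient_eq_mul_prod_factors b
  have h2 : (Nat.totient b : ℝ) = b * ∏ p ∈ b.primeFactors, (1 - (p : ℝ)⁻¹) := by
    have := congrArg (fun q : ℚ => (q : ℝ)) h1
    push_cast at this
    exact this
  have h3 : B0 b * ∏ p ∈ b.primeFactors, (1 - (p : ℝ)⁻¹) = 1 := by
    unfold B0
    rw [← prod_mul_distrib]
    apply prod_eq_one
    intro p hp
    have h2 : (2 : ℝ) ≤ p := by exact_mod_cast (Nat.prime_of_mem_primeFactors hp).two_le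
    have h3 : (p : ℝ) - 1 ≠ 0 := by linarith
    have h4 : (p : ℝ) ≠ 0 := by linarith
    field_simp
    ring
  rw [h2]
  calc B0 b * (b * ∏ p ∈ b.primeFactors, (1 - (p : ℝ)⁻¹)) = b * (B0 b * ∏ p ∈ b.primeFactors, (1 - (p : ℝ)⁻¹)) := by ring
    _ = b := by rw [h3, mul_one]

lemma card_cop (b m : ℕ) : ((Icc 1 (b * m)).filter (fun x => b.Coprime x)).card = m * Nat.totient b := by
  induction m with
  | zero => simp
  | succ m ih =>
    have h1 : (Icc 1 (b * (m + 1))).filter (fun x => b.Coprime x) =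
        (Icc 1 (b * m)).filter (fun x => b.Coprime x) ∪ (Ico (b * m + 1) (b * m + 1 + b)).filter (fun x => b.Coprime x) := by
      rw [← filter_union]
      congr 1
      ext x
      rw [mem_union, mem_Icc, mem_Icc, mem_Ico, mul_add, mul_one]
      omega
    rw [h1, card_union_of_disjoint, ih, Nat.filter_coprime_Ico_eq_totient]
    · ring
    · rw [disjoint_left]
      intro x hx hx'
      rw [mem_filter, mem_Icc] at hx
      rw [mem_filter, mem_Ico] at hx'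
      omega

lemma sum_ph (b m : ℕ) (hb : b ≠ 0) : ∑ x ∈ Icc 1 (b * m), ph b x = ((b * m : ℕ) : ℝ) := by
  unfold ph
  rw [← sum_filter, sum_const, card_cop, nsmul_eq_mul]
  push_cast
  have := B0_mul b hb
  calc (m : ℝ) * (Nat.totient b) * B0 b = m * (B0 b * Nat.totient b) := by ring
    _ = b * m := by rw [this]; ring

lemma sum_ph_sq (b m : ℕ) (hb : b ≠ 0) : ∑ x ∈ Icc 1 (b * m), ph b x ^ 2 = B0 b * ((b * m : ℕ) : ℝ) := by
  rw [← sum_ph b m hb, mul_sum]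
  apply sum_congr rfl
  intro x _
  unfold ph
  split_ifs
  · ring
  · ring

section Omega
variable {ι : Type} [Fintype ι] [DecidableEq ι]

lemma SS_le (b : ℕ) (f : ℕ → ℝ) (hf : ∀ a, 0 ≤ f a) (X : ℕ) (Ω : Finset (ℕ × (ι → ℕ × ℕ))) :
    SS b f X Ω ≤ ∑ o ∈ Ω, ∑ o' ∈ Ω, ∑ a ∈ Icc 1 X, f a * f (a + ((vd b o : ℤ) - vd b o').natAbs) := by
  unfold SS
  rw [sum_product]
  apply sum_le_sum
  intro o _
  have h1 : ∀ a ∈ Icc 1 X, ∑ j ∈ Ω ×ˢ Icc 1 X, (if a + vd b o = j.2 + vd b j.1 then f a * f j.2 else 0) =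
      ∑ o' ∈ Ω, ∑ a' ∈ Icc 1 X, (if (a : ℤ) - a' = (vd b o' : ℤ) - vd b o then f a * f a' else 0) := by
    intro a _
    rw [sum_product]
    apply sum_congr rfl
    intro o' _
    apply sum_congr rfl
    intro a' _
    have : a + vd b o = a' + vd b o' ↔ (a : ℤ) - a' = (vd b o' : ℤ) - vd b o := by omega
    simp only [this]
  simp only
  rw [sum_congr rfl h1, sum_comm]
  apply sum_le_sum
  intro o' _
  refine (T_le f hf X _).trans (le_of_eq ?_)
  have : ((vd b o' : ℤ) - vd b o).natAbs = ((vd b o : ℤ) - vd b o').natAbs := by omega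
  rw [this]

/-- the correlation with the limit function -/
lemma WW_ph (b : ℕ) (z X T : ℕ) (hzb : b ≤ z) (hb : b ≠ 0) (Ω : Finset (ℕ × (ι → ℕ × ℕ))) (hΩ : ∀ o ∈ Ω, vd b o ≤ T ∧ b ∣ vd b o) (hTX : T ≤ X) :
    (Ω.card : ℝ) * (B0 b * ∑ a ∈ Icc 1 (X - T), lamz z a) ≤ ∑ x ∈ Icc 1 X, ph b x * WW b (lamz z) X Ω x := by
  classical
  have h1 : ∑ x ∈ Icc 1 X, ph b x * WW b (lamz z) X Ω x =
      ∑ i ∈ Ω ×ˢ Icc 1 X, (if i.2 + vd b i.1 ∈ Icc 1 X then ph b (i.2 + vd b i.1) * lamz z i.2 else 0) := by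
    unfold WW
    simp only [mul_sum]
    rw [sum_comm]
    apply sum_congr rfl
    intro i _
    simp only [mul_ite, mul_zero]
    rw [sum_ite_eq]
  rw [h1, sum_product]
  rw [← nsmul_eq_mul, ← sum_const]
  apply sum_le_sum
  intro o ho
  obtain ⟨h2, h3⟩ := hΩ o ho
  rw [mul_sum]
  have hB := B0_ge_one b
  have h4 : ∀ a ∈ Icc 1 (X - T), B0 b * lamz z a = (if a + vd b o ∈ Icc 1 X then ph b (a + vd b o) * lamz z a else 0) := by
    intro a ha
    rw [mem_Icc] at ha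
    rw [if_pos (mem_Icc.2 ⟨by omega, by omega⟩)]
    by_cases hl : ∀ p ∈ pz z, ¬ p ∣ a
    · have h5 : b.Coprime (a + vd b o) := by
        apply Nat.coprime_of_dvd
        intro p hp hpb hpa
        have h6 : p ∣ vd b o := hpb.trans h3
        exact hl p (mem_pz.2 ⟨(Nat.le_of_dvd (by omega) hpb).trans hzb, hp⟩) ((Nat.dvd_add_left h6).1 hpa)
      unfold ph
      rw [if_pos h5]
    · unfold lamz
      rw [if_neg hl]
      ring
  rw [sum_congr rfl h4]
  apply sum_le_sum_of_subset_of_nonneg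
  · apply Icc_subset_Icc le_rfl
    omega
  · intro a _ _
    split_ifs
    · exact mul_nonneg (ph_nonneg _ _) (lamz_nonneg z a)
    · exact le_rfl

end Omega

end Pool.Agent.H86.DL
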