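import Pool.Agent.H86.L6

set_option autoImplicit false
set_option linter.unusedSectionVars false

/-! The smoothed sieve model is close to the limit function in mean square. -/

namespace Pool.Agent.H86.DL
open Finset
open Pool.Agent.H373R2.T7
open Pool.Agent.W93.DG
open Pool.Agent.W93.HD

section Omega
variable {ι : Type} [Fintype ι] [DecidableEq ι]

lemma dvd_vd (b u w : ℕ) (hu : 1 ≤ u) (x l : ι → ℕ) (hx : ∀ c, 1 ≤ x c) (o : ℕ × (ι → ℕ × ℕ)) (ho : o ∈ Ico u (u + w) ×ˢ Ov x l) :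
    b ∣ vd b o := by
  rw [mem_product, mem_Ico] at ho
  obtain ⟨ho1, ho2⟩ := ho
  unfold Ov at ho2
  rw [Fintype.mem_piFinset] at ho2
  unfold vd
  apply dvd_add
  · exact dvd_pow_self b (by omega)
  · apply dvd_sum
    intro c _
    have h := ho2 c
    rw [mem_product, mem_Ico] at h
    have := hx c
    exact Dvd.dvd.mul_left (dvd_pow_self b (by omega)) _

end Omega

theorem model_sq (b : ℕ) (hb : 2 ≤ b) (ε₁ : ℝ) (hε₁ : 0 < ε₁) : ∃ (ε : ℝ) (s₀ t : ℕ), 0 < ε ∧ 1 ≤ t ∧ ∀ Ez c₀ : ℕ, ∃ K₀ : ℕ,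
    ∀ (ι : Type) [Fintype ι] [DecidableEq ι], s₀ ≤ Fintype.card ι → ∀ K : ℕ, K₀ ≤ K → ∀ z : ℕ,
    Real.log ((b ^ K : ℕ) : ℝ) ≤ z → (z : ℝ) ≤ Real.log ((b ^ K : ℕ) : ℝ) ^ Ez → ∀ u w : ℕ, 1 ≤ u → K ≤ c₀ * w →
    ∀ x l : ι → ℕ, (∀ c, 1 ≤ x c) → (∀ c, t ≤ l c) → ∀ T : ℕ, (∀ o ∈ Ico u (u + w) ×ˢ Ov x l, vd b o ≤ T) →
    (T : ℝ) ≤ ε * ((b ^ K : ℕ) : ℝ) →
    ∑ y ∈ Icc 1 (b ^ K), (WW b (lamz z) (b ^ K) (Ico u (u + w) ×ˢ Ov x l) y - ((Ico u (u + w) ×ˢ Ov x l).card : ℝ) * ph b y) ^ 2 ≤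
      ε₁ * (((Ico u (u + w) ×ˢ Ov x l).card : ℝ) ^ 2 * ((b ^ K : ℕ) : ℝ)) := by
  classical
  have hB := B0_ge_one b
  have hB0 : 0 < B0 b := by linarith
  obtain ⟨ε, hε⟩ : ∃ ε : ℝ, ε = min 1 (ε₁ / (10 * B0 b)) := ⟨_, rfl⟩
  have hε0 : 0 < ε := by rw [hε]; positivity
  have hε1 : ε ≤ 1 := by rw [hε]; exact min_le_left _ _
  have hεB : 10 * B0 b * ε ≤ ε₁ := by
    have : ε ≤ ε₁ / (10 * B0 b) := by rw [hε]; exact min_le_right _ _
    rw [le_div_iff₀ (by positivity)] at this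
    linarith
  obtain ⟨C, s₀, t, hC, ht, hsing⟩ := sing_avg b hb ε hε0
  obtain ⟨K₁, x0, hK₁, hpair⟩ := pair_asym ε hε0 hε1
  refine ⟨ε, s₀, t, hε0, ht, fun Ez c₀ => ?_⟩
  obtain ⟨n1, h1⟩ := ev_log' (Ez * K₁) 1
  obtain ⟨n2, h2⟩ := ev_log' 2 (1 / ε)
  obtain ⟨n3, h3⟩ := Vz_inv_small Ez
  obtain ⟨n4, hn4⟩ := exists_nat_ge (2 * ((2 * C * Ez * b * c₀ / ε) ^ 2 + 2))
  refine ⟨n1 + n2 + n3 + n4 + 2 * (x0 + b + 3), fun ι _ _ hcard K hK z hz1 hz2 u w hu hKw x l hx hl T hT hTX => ?_⟩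
  have hbn : 0 < b := by omega
  have hb1 : 1 < b := by omega
  have hbr : (2 : ℝ) ≤ b := by exact_mod_cast hb
  obtain ⟨hL1, hL2⟩ := logX b K hb
  obtain ⟨X, hX⟩ : ∃ X, X = b ^ K := ⟨_, rfl⟩
  rw [← hX] at hz1 hz2 hL1 hL2 hTX ⊢
  obtain ⟨L, hL⟩ : ∃ L, L = Real.log (X : ℝ) := ⟨_, rfl⟩
  rw [← hL] at hz1 hz2 hL1 hL2
  have hKX : K < X := by rw [hX]; exact Nat.lt_pow_self hb1
  have hX1 : 1 ≤ X := by omega
  have hX0 : (0 : ℝ) < X := by exact_mod_cast hX1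
  have hX1r : (1 : ℝ) ≤ X := by exact_mod_cast hX1
  have hKr : (n4 : ℝ) ≤ K := by exact_mod_cast (by omega : n4 ≤ K)
  have hKr2 : 2 * ((x0 : ℝ) + b + 3) ≤ K := by exact_mod_cast (by omega : 2 * (x0 + b + 3) ≤ K)
  have hLbig : (2 * C * Ez * b * c₀ / ε) ^ 2 + 2 ≤ L := by linarith
  have hL0 : 0 < L := by
    have : 0 ≤ (2 * C * Ez * b * c₀ / ε) ^ 2 := sq_nonneg _
    linarith
  have hL1' : 1 ≤ L := by
    have : 0 ≤ (2 * C * Ez * b * c₀ / ε) ^ 2 := sq_nonneg _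
    linarith
  have hzr : (x0 : ℝ) + b + 3 ≤ z := by linarith
  have hz0 : x0 + b + 3 ≤ z := by exact_mod_cast hzr
  have hsq0 : 0 ≤ √(X : ℝ) := Real.sqrt_nonneg _
  have hss : √(X : ℝ) * √(X : ℝ) = X := Real.mul_self_sqrt hX0.le
  have hzX : z ^ K₁ ≤ X := by
    have e1 := h1 X (by omega)
    rw [← hL, one_mul] at e1
    have e2 : (z : ℝ) ^ K₁ ≤ X := by
      calc (z : ℝ) ^ K₁ ≤ (L ^ Ez) ^ K₁ := pow_le_pow_left₀ (Nat.cast_nonneg _) hz2 _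
        _ = L ^ (Ez * K₁) := by rw [← pow_mul]
        _ ≤ √(X : ℝ) := e1
        _ ≤ X := by
            rw [Real.sqrt_le_left hX0.le]
            nlinarith
    exact_mod_cast e2
  obtain ⟨hp1, hp2⟩ := hpair X z (by omega) hzX
  have hV0 := Vz_pos z
  have hVi0 : 0 < (Vz z)⁻¹ := inv_pos.2 hV0
  have hVi := h3 X (by omega) z (by omega) (by rw [← hL]; exact hz2)
  rw [← hL] at hVi
  have hL2X : L ^ 2 ≤ ε * √(X : ℝ) := by
    have e1 := h2 X (by omega)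
    rw [← hL, one_div, inv_mul_le_iff₀ hε0] at e1
    exact e1
  have hVV : (Vz z)⁻¹ * (Vz z)⁻¹ * √(X : ℝ) ≤ ε * X := by
    have e1 : (Vz z)⁻¹ * (Vz z)⁻¹ ≤ L * L := mul_le_mul hVi hVi hVi0.le hL0.le
    calc (Vz z)⁻¹ * (Vz z)⁻¹ * √(X : ℝ) ≤ (L * L) * √(X : ℝ) := mul_le_mul_of_nonneg_right e1 hsq0
      _ = L ^ 2 * √(X : ℝ) := by ring
      _ ≤ ε * √(X : ℝ) * √(X : ℝ) := mul_le_mul_of_nonneg_right hL2X hsq0
      _ = ε * X := by rw [mul_assoc, hss]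
  have hV1 : (Vz z)⁻¹ * √(X : ℝ) ≤ ε * X := by
    have e1 : (Vz z)⁻¹ ≤ L ^ 2 := hVi.trans (by nlinarith)
    calc (Vz z)⁻¹ * √(X : ℝ) ≤ L ^ 2 * √(X : ℝ) := mul_le_mul_of_nonneg_right e1 hsq0
      _ ≤ ε * √(X : ℝ) * √(X : ℝ) := mul_le_mul_of_nonneg_right hL2X hsq0
      _ = ε * X := by rw [mul_assoc, hss]
  have hw1 : 1 ≤ w := by
    by_contra h
    have : w = 0 := by omega
    subst this
    omega
  have hw0 : (0 : ℝ) < w := by exact_mod_cast hw1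
  have hlogz : C * Real.log z / w ≤ ε := by
    rw [div_le_iff₀ hw0]
    have e1 : Real.log z ≤ Ez * (2 * √L) := by
      have hz0' : (0 : ℝ) < z := by
        have : (0 : ℝ) ≤ x0 := Nat.cast_nonneg _
        linarith
      have e2 := Real.log_le_log hz0' hz2
      rw [Real.log_pow] at e2
      refine e2.trans ?_
      apply mul_le_mul_of_nonneg_left _ (Nat.cast_nonneg _)
      have h9 : Real.log √L = Real.log L / 2 := Real.log_sqrt hL0.le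
      have h10 := Real.log_le_sub_one_of_pos (Real.sqrt_pos.2 hL0)
      linarith
    have e3 : L ≤ b * c₀ * w := by
      refine hL2.trans ?_
      rw [mul_assoc]
      have : (K : ℝ) ≤ c₀ * w := by exact_mod_cast hKw
      exact mul_le_mul_of_nonneg_left this (Nat.cast_nonneg _)
    have hbc : 0 < (b : ℝ) * c₀ := by
      by_contra hcon
      push Not at hcon
      have : (b : ℝ) * c₀ * w ≤ 0 := mul_nonpos_of_nonpos_of_nonneg hcon hw0.le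
      linarith
    have e4 : 2 * C * Ez * b * c₀ / ε ≤ √L := by
      apply Real.le_sqrt_of_sq_le
      linarith
    rw [div_le_iff₀ hε0] at e4
    have e5 : √L * √L = L := Real.mul_self_sqrt hL0.le
    have e6 : 0 < √L := Real.sqrt_pos.2 hL0
    have e7 : C * (Ez * (2 * √L)) * (b * c₀) ≤ ε * L := by
      calc C * (Ez * (2 * √L)) * (b * c₀) = (2 * C * Ez * b * c₀) * √L := by ring
        _ ≤ (√L * ε) * √L := mul_le_mul_of_nonneg_right e4 e6.le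
        _ = ε * (√L * √L) := by ring
        _ = ε * L := by rw [e5]
    have e8 : ε * L ≤ ε * w * (b * c₀) := by
      calc ε * L ≤ ε * (b * c₀ * w) := mul_le_mul_of_nonneg_left e3 hε0.le
        _ = _ := by ring
    have e9 : C * (Ez * (2 * √L)) ≤ ε * w := le_of_mul_le_mul_right (e7.trans e8) hbc
    exact (mul_le_mul_of_nonneg_left e1 hC).trans e9
  -- the three terms
  obtain ⟨Ω, hΩ⟩ : ∃ Ω, Ω = Ico u (u + w) ×ˢ Ov x l := ⟨_, rfl⟩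
  have hsg := hsing ι hcard z (by omega) u w hw1 x l hl
  rw [← hΩ] at hsg hT ⊢
  obtain ⟨O, hO⟩ : ∃ O : ℝ, O = (Ω.card : ℝ) := ⟨_, rfl⟩
  have hO0 : 0 ≤ O := by rw [hO]; exact Nat.cast_nonneg _
  rw [← hO] at hsg ⊢
  have hSS : SS b (lamz z) X Ω ≤ O ^ 2 * X * (B0 b * (1 + ε) * (1 + 2 * ε) + ε) := by
    refine (SS_le b (lamz z) (fun a => lamz_nonneg z a) X Ω).trans ?_
    have e1 : ∑ o ∈ Ω, ∑ o' ∈ Ω, ∑ a ∈ Icc 1 X, lamz z a * lamz z (a + ((vd b o : ℤ) - vd b o').natAbs) ≤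
        ∑ o ∈ Ω, ∑ o' ∈ Ω, ((1 + ε) * X * sg z ((vd b o : ℤ) - vd b o').natAbs + ε * X) := by
      apply sum_le_sum
      intro o _
      apply sum_le_sum
      intro o' _
      have := hp1 ((vd b o : ℤ) - vd b o').natAbs
      linarith
    refine e1.trans ?_
    have e2 : ∑ o ∈ Ω, ∑ o' ∈ Ω, ((1 + ε) * X * sg z ((vd b o : ℤ) - vd b o').natAbs + ε * X) =
        (1 + ε) * X * ∑ o ∈ Ω, ∑ o' ∈ Ω, sg z ((vd b o : ℤ) - vd b o').natAbs + O ^ 2 * (ε * X) := by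
      rw [mul_sum]
      simp only [sum_add_distrib, mul_sum, sum_const, nsmul_eq_mul]
      rw [← hO]
      ring
    rw [e2]
    have e3 : (1 + ε) * X * ∑ o ∈ Ω, ∑ o' ∈ Ω, sg z ((vd b o : ℤ) - vd b o').natAbs ≤ (1 + ε) * X * (B0 b * (O ^ 2 * (1 + 2 * ε))) := by
      apply mul_le_mul_of_nonneg_left _ (by positivity)
      refine hsg.trans ?_
      apply mul_le_mul_of_nonneg_left _ hB0.le
      apply mul_le_mul_of_nonneg_left _ (by positivity)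
      linarith
    calc _ ≤ (1 + ε) * X * (B0 b * (O ^ 2 * (1 + 2 * ε))) + O ^ 2 * (ε * X) := by linarith
      _ = _ := by ring
  have hTX' : T ≤ X := by
    have : (T : ℝ) ≤ X := hTX.trans (by nlinarith)
    exact_mod_cast this
  have hcross : O * (B0 b * ((1 - ε) * ((1 - ε) * X) - ε * X)) ≤ ∑ y ∈ Icc 1 X, ph b y * WW b (lamz z) X Ω y := by
    have e1 := WW_ph b z X T (by omega) (by omega) Ω (fun o ho => ⟨hT o ho, by rw [hΩ] at ho; exact dvd_vd b u w hu x l hx o ho⟩) hTX'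
    rw [← hO] at e1
    refine le_trans ?_ e1
    apply mul_le_mul_of_nonneg_left _ hO0
    apply mul_le_mul_of_nonneg_left _ hB0.le
    have e2 := hp2 (X - T)
    rw [Nat.cast_sub hTX'] at e2
    have e3 : (1 - ε) * ((1 - ε) * X) ≤ (1 - ε) * ((X : ℝ) - T) := by
      apply mul_le_mul_of_nonneg_left _ (by linarith)
      linarith
    linarith
  have hphi : ∑ y ∈ Icc 1 X, ph b y ^ 2 = B0 b * X := by
    have e1 : X = b * b ^ (K - 1) := by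
      rw [hX, ← pow_succ']
      congr 1
      omega
    rw [e1]
    exact sum_ph_sq b _ (by omega)
  have hexp : ∑ y ∈ Icc 1 X, (WW b (lamz z) X Ω y - O * ph b y) ^ 2 =
      ∑ y ∈ Icc 1 X, WW b (lamz z) X Ω y ^ 2 - 2 * O * ∑ y ∈ Icc 1 X, ph b y * WW b (lamz z) X Ω y + O ^ 2 * ∑ y ∈ Icc 1 X, ph b y ^ 2 := by
    rw [mul_sum, mul_sum, ← sum_sub_distrib, ← sum_add_distrib]
    apply sum_congr rfl
    intro y _
    ring
  rw [hexp, hphi]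
  have e1 := WW_sq b (lamz z) X Ω (Icc 1 X)
  have e2 := mul_le_mul_of_nonneg_left hcross (show 0 ≤ 2 * O by positivity)
  have e3 : O ^ 2 * X * (B0 b * (1 + ε) * (1 + 2 * ε) + ε) - 2 * O * (O * (B0 b * ((1 - ε) * ((1 - ε) * X) - ε * X))) + O ^ 2 * (B0 b * X) =
      (9 * B0 b * ε + ε) * (O ^ 2 * X) := by ring
  have e4 : (9 * B0 b * ε + ε) * (O ^ 2 * X) ≤ ε₁ * (O ^ 2 * X) := by
    apply mul_le_mul_of_nonneg_right _ (by positivity)
    nlinarith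
  linarith

end Pool.Agent.H86.DL
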