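import Pool.Agent.H86.L7

set_option autoImplicit false
set_option linter.unusedSectionVars false

/-! The smoothed von Mangoldt function is close to the limit function in mean square. -/

namespace Pool.Agent.H86.DL
open Finset
open Pool.Agent.H373R2.T7
open Pool.Agent.W93.DG
open Pool.Agent.W93.HD

/-- `n` is a sum of at most `k` powers of `b` -/
def PS (b k n : ℕ) : Prop := ∃ l : List ℕ, l.length ≤ k ∧ n = (l.map (fun e => b ^ e)).sum

lemma PS_add (b k k' n n' : ℕ) (h : PS b k n) (h' : PS b k' n') : PS b (k + k') (n + n') := by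
  obtain ⟨l, h1, h2⟩ := h
  obtain ⟨l', h1', h2'⟩ := h'
  refine ⟨l ++ l', ?_, ?_⟩
  · rw [List.length_append]; omega
  · rw [List.map_append, List.sum_append, h2, h2']

lemma PS_pow (b e : ℕ) : PS b 1 (b ^ e) := ⟨[e], by simp, by simp⟩

lemma PS_zero (b k : ℕ) : PS b k 0 := ⟨[], by simp, by simp⟩

lemma PS_mono (b k k' n : ℕ) (h : PS b k n) (hk : k ≤ k') : PS b k' n := by
  obtain ⟨l, h1, h2⟩ := h
  exact ⟨l, h1.trans hk, h2⟩

lemma PS_sum {ι : Type*} (b : ℕ) (S : Finset ι) (f : ι → ℕ) (h : ∀ i ∈ S, PS b 1 (f i)) : PS b S.card (∑ i ∈ S, f i) := by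
  classical
  induction S using Finset.induction_on with
  | empty => simpa using PS_zero b 0
  | insert a s ha ih =>
    rw [sum_insert ha, card_insert_of_notMem ha, add_comm s.card 1]
    exact PS_add b 1 s.card _ _ (h a (mem_insert_self _ _)) (ih fun i hi => h i (mem_insert_of_mem hi))

lemma PS_ones (b k : ℕ) : PS b k k := by
  refine ⟨List.replicate k 0, by simp, by simp⟩

lemma PS_fin (b k n : ℕ) (h : PS b k n) : ∃ k' ≤ k, ∃ e : Fin k' → ℕ, n = ∑ i, b ^ e i := by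
  obtain ⟨l, h1, h2⟩ := h
  refine ⟨l.length, h1, fun i => l.get i, ?_⟩
  rw [h2]
  rw [← List.sum_ofFn]
  congr 1
  apply List.ext_getElem
  · simp
  · intro i h3 h4
    simp

section Omega
variable {ι : Type} [Fintype ι] [DecidableEq ι]

lemma vd_PS (b u w : ℕ) (x l : ι → ℕ) (o : ℕ × (ι → ℕ × ℕ)) (ho : o ∈ Ico u (u + w) ×ˢ Ov x l) :
    PS b (1 + Fintype.card ι) (vd b o) := by
  unfold vd
  apply PS_add
  · exact PS_pow _ _
  · rw [← card_univ]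
    apply PS_sum
    intro c _
    rw [mem_product] at ho
    have h2 := ho.2
    unfold Ov at h2
    rw [Fintype.mem_piFinset] at h2
    have h3 := h2 c
    rw [mem_product, mem_range] at h3
    have h4 : (o.2 c).2 = 0 ∨ (o.2 c).2 = 1 := by omega
    rcases h4 with h4 | h4
    · rw [h4, zero_mul]; exact PS_zero _ _
    · rw [h4, one_mul]; exact PS_pow _ _

lemma vd_le (b u w E : ℕ) (hb : 2 ≤ b) (x l : ι → ℕ) (hu : u + w ≤ E + 1) (hx : ∀ c, x c + l c ≤ E + 1) (o : ℕ × (ι → ℕ × ℕ))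
    (ho : o ∈ Ico u (u + w) ×ˢ Ov x l) : vd b o ≤ (1 + Fintype.card ι) * b ^ E := by
  rw [mem_product, mem_Ico] at ho
  obtain ⟨ho1, ho2⟩ := ho
  unfold Ov at ho2
  rw [Fintype.mem_piFinset] at ho2
  unfold vd
  have h1 : b ^ o.1 ≤ b ^ E := Nat.pow_le_pow_right (by omega) (by omega)
  have h2 : ∑ c, (o.2 c).2 * b ^ (o.2 c).1 ≤ ∑ _c : ι, b ^ E := by
    apply sum_le_sum
    intro c _
    have h := ho2 c
    rw [mem_product, mem_Ico, mem_range] at h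
    have h3 := hx c
    calc (o.2 c).2 * b ^ (o.2 c).1 ≤ 1 * b ^ E := Nat.mul_le_mul (by omega) (Nat.pow_le_pow_right (by omega) (by omega))
      _ = b ^ E := one_mul _
  rw [sum_const, card_univ, smul_eq_mul] at h2
  calc _ ≤ b ^ E + Fintype.card ι * b ^ E := Nat.add_le_add h1 h2
    _ = _ := by ring

end Omega

/-- the mean square of the smoothed `Λ - Λ_z` -/
lemma SS_split (b K u w : ℕ) (hb : 2 ≤ b) (hw : 1 ≤ w) {ι : Type} [Fintype ι] [DecidableEq ι] (x l : ι → ℕ) (G : ℕ → ℝ) (δ C Y : ℝ)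
    (hδ : 0 ≤ δ) (Bd : ℕ → Prop) [DecidablePred Bd]
    (hT : ∀ o ∈ Ico u (u + w) ×ˢ Ov x l, vd b o ≤ b ^ K) (huw : u + w ≤ K) (hxl : ∀ c, x c + l c ≤ K)
    (hbad : ∑ r ∈ (range (b ^ (K + 1))).filter Bd, ‖FF G (b ^ K) (b ^ (K + 1)) r‖ ^ 2 ≤ ((b ^ (K + 1) : ℕ) : ℝ) * ((b ^ K : ℕ) : ℝ) * Y)
    (hgood : ∀ r, ¬ Bd r → ∏ c, ‖OC b 0 (b ^ (K + 1)) (Ico (x c) (x c + l c)) r‖ ≤ δ * ∏ c, (2 * (l c : ℝ)))
    (hE : Qe b 0 G (b ^ K) (Ico u (u + w)) ≤ C * ((b ^ K : ℕ) : ℝ) * (w : ℝ) ^ 2) :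
    SS b G (b ^ K) (Ico u (u + w) ×ˢ Ov x l) ≤ ((Ico u (u + w) ×ˢ Ov x l).card : ℝ) ^ 2 * ((b ^ K : ℕ) : ℝ) * (Y + δ ^ 2 * C) := by
  classical
  have hbn : 0 < b := by omega
  obtain ⟨X, hX⟩ : ∃ X, X = b ^ K := ⟨_, rfl⟩
  obtain ⟨M, hM⟩ : ∃ M, M = b ^ (K + 1) := ⟨_, rfl⟩
  have hMX : M = b * X := by rw [hM, hX, pow_succ']
  have hX1 : 1 ≤ X := by rw [hX]; exact Nat.pow_pos hbn
  have hXM : 2 * X ≤ M := by rw [hMX]; exact Nat.mul_le_mul_right _ hb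
  have hM0 : (0 : ℝ) < M := by exact_mod_cast (by omega : 0 < M)
  have hX0 : (0 : ℝ) < X := by exact_mod_cast hX1
  have h1 := SS_eq b G X M (by omega) (Ico u (u + w)) x l X (by rw [hX]; exact hT) (by omega)
  rw [← hM, ← hX] at hbad
  rw [← hM] at hgood
  rw [← hX] at hE ⊢
  obtain ⟨Tt, hTt⟩ : ∃ Tt : ℝ, Tt = ∏ c, (2 * (l c : ℝ)) := ⟨_, rfl⟩
  rw [← hTt] at hgood
  have hTt0 : 0 ≤ Tt := by rw [hTt]; exact prod_nonneg fun _ _ => by positivity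
  have hΩ : ((Ico u (u + w) ×ˢ Ov x l).card : ℝ) = w * Tt := by
    rw [card_Om, Nat.card_Ico, Nat.add_sub_cancel_left, hTt]
    push_cast
    rfl
  rw [hΩ]
  have hw0 : (0 : ℝ) < w := by exact_mod_cast hw
  have hP0 : ∀ r, 0 ≤ ∏ c, ‖OC b 0 M (Ico (x c) (x c + l c)) r‖ := fun r => prod_nonneg fun _ _ => norm_nonneg _
  have htriv : ∀ r, ∏ c, ‖OC b 0 M (Ico (x c) (x c + l c)) r‖ ≤ Tt := by
    intro r
    rw [hTt]
    apply prod_le_prod
    · intro c _; exact norm_nonneg _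
    · intro c _
      rw [hM]
      exact OC_le' b 0 K (x c) (l c) r hb (hxl c)
  have hPJ : ∀ r, ‖PJ b 0 M (Ico u (u + w)) r‖ ≤ w := by
    intro r
    have := norm_PJ_le b 0 M (Ico u (u + w)) r
    rwa [Nat.card_Ico, Nat.add_sub_cancel_left] at this
  have hsplit : ∑ r ∈ range M, (‖FF G X M r‖ * (‖PJ b 0 M (Ico u (u + w)) r‖ * ∏ c, ‖OC b 0 M (Ico (x c) (x c + l c)) r‖)) ^ 2 =
      ∑ r ∈ (range M).filter Bd, (‖FF G X M r‖ * (‖PJ b 0 M (Ico u (u + w)) r‖ * ∏ c, ‖OC b 0 M (Ico (x c) (x c + l c)) r‖)) ^ 2 +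
      ∑ r ∈ (range M).filter (fun r => ¬ Bd r), (‖FF G X M r‖ * (‖PJ b 0 M (Ico u (u + w)) r‖ * ∏ c, ‖OC b 0 M (Ico (x c) (x c + l c)) r‖)) ^ 2 :=
    (sum_filter_add_sum_filter_not (range M) Bd _).symm
  have hp1 : ∑ r ∈ (range M).filter Bd, (‖FF G X M r‖ * (‖PJ b 0 M (Ico u (u + w)) r‖ * ∏ c, ‖OC b 0 M (Ico (x c) (x c + l c)) r‖)) ^ 2 ≤
      (w * Tt) ^ 2 * (M * X * Y) := by
    have e1 : ∀ r ∈ (range M).filter Bd, (‖FF G X M r‖ * (‖PJ b 0 M (Ico u (u + w)) r‖ * ∏ c, ‖OC b 0 M (Ico (x c) (x c + l c)) r‖)) ^ 2 ≤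
        (w * Tt) ^ 2 * ‖FF G X M r‖ ^ 2 := by
      intro r _
      rw [mul_pow, mul_comm]
      apply mul_le_mul_of_nonneg_right _ (sq_nonneg _)
      apply pow_le_pow_left₀ (mul_nonneg (norm_nonneg _) (hP0 r))
      exact mul_le_mul (hPJ r) (htriv r) (hP0 r) hw0.le
    refine (sum_le_sum e1).trans ?_
    rw [← mul_sum]
    exact mul_le_mul_of_nonneg_left hbad (sq_nonneg _)
  have hp2 : ∑ r ∈ (range M).filter (fun r => ¬ Bd r), (‖FF G X M r‖ * (‖PJ b 0 M (Ico u (u + w)) r‖ * ∏ c, ‖OC b 0 M (Ico (x c) (x c + l c)) r‖)) ^ 2 ≤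
      (δ * Tt) ^ 2 * (M * (C * X * (w : ℝ) ^ 2)) := by
    have e1 : ∀ r ∈ (range M).filter (fun r => ¬ Bd r), (‖FF G X M r‖ * (‖PJ b 0 M (Ico u (u + w)) r‖ * ∏ c, ‖OC b 0 M (Ico (x c) (x c + l c)) r‖)) ^ 2 ≤
        (δ * Tt) ^ 2 * ‖FF G X M r * PJ b 0 M (Ico u (u + w)) r‖ ^ 2 := by
      intro r hr
      rw [mem_filter] at hr
      rw [norm_mul, ← mul_pow]
      apply pow_le_pow_left₀ (mul_nonneg (norm_nonneg _) (mul_nonneg (norm_nonneg _) (hP0 r)))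
      have := mul_le_mul_of_nonneg_left (hgood r hr.2) (mul_nonneg (norm_nonneg (FF G X M r)) (norm_nonneg (PJ b 0 M (Ico u (u + w)) r)))
      calc ‖FF G X M r‖ * (‖PJ b 0 M (Ico u (u + w)) r‖ * ∏ c, ‖OC b 0 M (Ico (x c) (x c + l c)) r‖) =
            ‖FF G X M r‖ * ‖PJ b 0 M (Ico u (u + w)) r‖ * ∏ c, ‖OC b 0 M (Ico (x c) (x c + l c)) r‖ := by ring
        _ ≤ _ := this
        _ = _ := by ring
    refine (sum_le_sum e1).trans ?_
    rw [← mul_sum]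
    apply mul_le_mul_of_nonneg_left _ (sq_nonneg _)
    have e2 : ∑ r ∈ (range M).filter (fun r => ¬ Bd r), ‖FF G X M r * PJ b 0 M (Ico u (u + w)) r‖ ^ 2 ≤
        ∑ r ∈ range M, ‖FF G X M r * PJ b 0 M (Ico u (u + w)) r‖ ^ 2 :=
      sum_le_sum_of_subset_of_nonneg (filter_subset _ _) fun _ _ _ => sq_nonneg _
    refine e2.trans ?_
    have hT2 : X + 2 * b ^ (u + w - 1) ≤ M := by
      have e3 : 2 * b ^ (u + w - 1) ≤ X := by
        rw [hX]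
        calc 2 * b ^ (u + w - 1) ≤ b * b ^ (u + w - 1) := Nat.mul_le_mul_right _ hb
          _ = b ^ (u + w - 1 + 1) := by rw [pow_succ']
          _ ≤ b ^ K := Nat.pow_le_pow_right hbn (by omega)
      omega
    rw [energy_eq b 0 G X M (by omega) (Ico u (u + w)) (b ^ (u + w - 1)) (fun j hj => by
      rw [mem_Ico] at hj
      exact Nat.pow_le_pow_right hbn (by omega)) hT2]
    exact mul_le_mul_of_nonneg_left hE hM0.le
  have h2 : M * SS b G X (Ico u (u + w) ×ˢ Ov x l) ≤ M * ((w * Tt) ^ 2 * X * (Y + δ ^ 2 * C)) := by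
    rw [h1, hsplit]
    refine (add_le_add hp1 hp2).trans (le_of_eq ?_)
    ring
  exact le_of_mul_le_mul_left h2 hM0

end Pool.Agent.H86.DL
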