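import Pool.Agent.H86.L8

set_option autoImplicit false
set_option linter.unusedSectionVars false

/-! The smoothed von Mangoldt function is close to the limit function in mean square: conclusion. -/

namespace Pool.Agent.H86.DL
open Finset
open Pool.Agent.H373R2.T7
open Pool.Agent.W93.DG
open Pool.Agent.W93.HD

lemma ne_shift_window (b c h r : ℕ) (hc : 1 ≤ c) : ne b 1 h r ≤ ne b c h r + c := by
  unfold ne
  have h1 : (Ico 1 (1 + h)).filter (fun j => ¬ Ext b j r) ⊆ (Ico 1 c) ∪ (Ico c (c + h)).filter (fun j => ¬ Ext b j r) := by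
    intro j hj
    rw [mem_filter, mem_Ico] at hj
    rw [mem_union, mem_filter, mem_Ico, mem_Ico]
    rcases Nat.lt_or_ge j c with h2 | h2
    · left; exact ⟨hj.1.1, h2⟩
    · right; exact ⟨⟨h2, by omega⟩, hj.2⟩
  have h2 := (card_le_card h1).trans (card_union_le _ _)
  rw [Nat.card_Ico] at h2
  omega

theorem smooth (b : ℕ) (hb : 2 ≤ b) (ε₁ : ℝ) (hε₁ : 0 < ε₁) : ∃ s K₀ : ℕ, ∀ K : ℕ, K₀ ≤ K →
    ∃ Ω : Finset (ℕ × (Fin 3 × Fin s → ℕ × ℕ)), Ω.Nonempty ∧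
      (∀ o ∈ Ω, PS b (1 + 3 * s) (vd b o) ∧ b ∣ vd b o ∧ (vd b o : ℝ) ≤ ε₁ * ((b ^ K : ℕ) : ℝ)) ∧
      ∑ y ∈ Icc 1 (b ^ K), (WW b (fun n => ArithmeticFunction.vonMangoldt n) (b ^ K) Ω y - (Ω.card : ℝ) * ph b y) ^ 2 ≤
        ε₁ * ((Ω.card : ℝ) ^ 2 * ((b ^ K : ℕ) : ℝ)) := by
  classical
  have hbn : 0 < b := by omega
  have hb1 : 1 < b := by omega
  have hbr : (2 : ℝ) ≤ b := by exact_mod_cast hb
  have hb0 : (0 : ℝ) < b := by linarith
  obtain ⟨ε, s₀, t, hε, ht, hmodel⟩ := model_sq b hb (ε₁ / 4) (by positivity)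
  obtain ⟨R, hR, hbad⟩ := bad_sq b hb
  obtain ⟨C, hC0, hEn⟩ := energy_main b (1024 * b) hb
  obtain ⟨δ, hδ⟩ : ∃ δ : ℝ, δ = min 1 (ε₁ / (8 * (C + 1))) := ⟨_, rfl⟩
  have hδ0 : 0 < δ := by rw [hδ]; positivity
  have hδ1 : δ ≤ 1 := by rw [hδ]; exact min_le_left _ _
  have hδC : δ ^ 2 * C ≤ ε₁ / 8 := by
    have h1 : δ ≤ ε₁ / (8 * (C + 1)) := by rw [hδ]; exact min_le_right _ _
    rw [le_div_iff₀ (by positivity)] at h1
    have h2 : δ ^ 2 ≤ δ := by nlinarith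
    nlinarith
  have hR0 : (0 : ℝ) < R := by exact_mod_cast hR
  obtain ⟨s, hs⟩ : ∃ s : ℕ, s = ⌈(R : ℝ) * (b : ℝ) ^ 4 / δ⌉₊ + 1 + s₀ := ⟨_, rfl⟩
  have hs1 : 1 ≤ s := by omega
  have hδs : Real.exp (-((s : ℝ) / (R * (b : ℝ) ^ 4))) ≤ δ := by
    have e1 : (R : ℝ) * (b : ℝ) ^ 4 / δ ≤ s := by
      have := Nat.le_ceil ((R : ℝ) * (b : ℝ) ^ 4 / δ)
      have h0 : (0 : ℝ) ≤ s₀ := Nat.cast_nonneg _
      rw [hs]; push_cast; linarith
    have e2 : 1 / δ ≤ (s : ℝ) / (R * (b : ℝ) ^ 4) := by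
      rw [le_div_iff₀ (by positivity)]
      calc 1 / δ * (R * (b : ℝ) ^ 4) = (R : ℝ) * (b : ℝ) ^ 4 / δ := by ring
        _ ≤ (s : ℝ) := e1
    rw [Real.exp_neg, inv_le_comm₀ (Real.exp_pos _) hδ0, ← one_div]
    have := Real.add_one_le_exp ((s : ℝ) / (R * (b : ℝ) ^ 4))
    linarith
  -- the distance from the top
  obtain ⟨μ, hμ⟩ : ∃ μ : ℝ, μ = min 1 (min ε ε₁) := ⟨_, rfl⟩
  have hμ0 : 0 < μ := by rw [hμ]; positivity
  have hμ1 : μ ≤ ε := by rw [hμ]; exact (min_le_right _ _).trans (min_le_left _ _)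
  have hμ2 : μ ≤ ε₁ := by rw [hμ]; exact (min_le_right _ _).trans (min_le_right _ _)
  have hμ3 : μ ≤ 1 := by rw [hμ]; exact min_le_left _ _
  obtain ⟨c₁, hc₁⟩ : ∃ c₁ : ℕ, (1 + 3 * (s : ℝ)) * (1 / (b : ℝ)) ^ c₁ < μ := by
    have h1 : 1 / (b : ℝ) < 1 := by rw [div_lt_one hb0]; linarith
    obtain ⟨n, hn⟩ := exists_pow_lt_of_lt_one (show 0 < μ / (1 + 3 * (s : ℝ)) by positivity) h1
    refine ⟨n, ?_⟩
    rw [lt_div_iff₀ (by positivity)] at hn
    linarith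
  obtain ⟨c, hc⟩ : ∃ c : ℕ, c = c₁ + 1 := ⟨_, rfl⟩
  obtain ⟨A, B, hUA, hB⟩ := hbad (R * s + c * R + t * s + 2)
  obtain ⟨B₂, hB₂⟩ : ∃ B₂, B₂ = max B 3 := ⟨_, rfl⟩
  obtain ⟨k1, h1⟩ := hB (B₂ + 1)
  obtain ⟨k2, h2⟩ := hEn (B₂ + 1)
  obtain ⟨k3, h3⟩ := hmodel (B₂ + 1) (1024 * b)
  obtain ⟨k4, h4⟩ := hh_small b A (512 * b) hb
  obtain ⟨k5, h5⟩ := exists_nat_ge (8 / ε₁ + 1)
  refine ⟨s, k1 + k2 + k3 + k4 + k5 + 64 * b + 4 * R * s + 8, fun K hK => ?_⟩
  obtain ⟨X, hX⟩ : ∃ X, X = b ^ K := ⟨_, rfl⟩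
  have hKX : K < X := by rw [hX]; exact Nat.lt_pow_self hb1
  have hX0 : (0 : ℝ) < X := by exact_mod_cast (by omega : 0 < X)
  obtain ⟨hL1, hL2⟩ := logX b K hb
  obtain ⟨L, hL⟩ : ∃ L, L = Real.log (X : ℝ) := ⟨_, rfl⟩
  rw [← hX, ← hL] at hL1 hL2
  have hK4 : (4 : ℝ) ≤ K := by exact_mod_cast (by omega : 4 ≤ K)
  have hL2' : 2 ≤ L := by linarith
  have hL0 : 0 < L := by linarith
  -- the level
  obtain ⟨z, hz⟩ : ∃ z, z = ⌈L ^ B₂⌉₊ := ⟨_, rfl⟩
  have hz1 : L ^ B₂ ≤ z := by rw [hz]; exact Nat.le_ceil _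
  have hz2 : (z : ℝ) ≤ L ^ (B₂ + 1) := by
    have e1 : (z : ℝ) < L ^ B₂ + 1 := by rw [hz]; exact Nat.ceil_lt_add_one (by positivity)
    have e2 : 1 ≤ L ^ B₂ := one_le_pow₀ (by linarith)
    rw [pow_succ]
    nlinarith
  have hz3 : L ^ B ≤ z := (pow_le_pow_right₀ (by linarith) (by rw [hB₂]; exact le_max_left _ _)).trans hz1
  have hz4 : L ^ 3 ≤ z := (pow_le_pow_right₀ (by linarith) (by rw [hB₂]; exact le_max_right _ _)).trans hz1
  have hz5 : L ≤ z := by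
    refine le_trans ?_ hz4
    have : L * 1 ≤ L * L ^ 2 := mul_le_mul_of_nonneg_left (one_le_pow₀ (by linarith)) hL0.le
    calc L = L * 1 := (mul_one L).symm
      _ ≤ L * L ^ 2 := this
      _ = L ^ 3 := by ring
  -- the windows
  obtain ⟨h, hh'⟩ : ∃ h, h = hh b A K := ⟨_, rfl⟩
  obtain ⟨g, hg⟩ : ∃ g, g = K / (16 * b) / 8 := ⟨_, rfl⟩
  have hhA : 2 * A ≤ h := by
    rw [hh']; unfold hh
    exact Nat.le_mul_of_pos_right _ (by omega)
  have hcR : c ≤ c * R := Nat.le_mul_of_pos_right _ (by omega)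
  have hhs : 2 * (R * s) + 2 * (c * R) + 2 * (t * s) + 4 ≤ h := by
    have : 2 * (R * s + c * R + t * s + 2) ≤ 2 * A := Nat.mul_le_mul_left _ hUA
    omega
  have hsR : s ≤ R * s := Nat.le_mul_of_pos_left _ (by omega)
  have hRs2 : 2 * R * s = 2 * (R * s) := by ring
  have hRs4 : 4 * R * s = 4 * (R * s) := by ring
  have hgh : 4 * h ≤ g := by
    have e1 := h4 K (by omega)
    rw [← hh'] at e1
    rw [hg, Nat.div_div_eq_div_mul]
    apply (Nat.le_div_iff_mul_le (by omega)).2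
    calc 4 * h * (16 * b * 8) = 512 * b * h := by ring
      _ ≤ K := e1
  have hgK : 128 * b * g ≤ K := by
    rw [hg, Nat.div_div_eq_div_mul]
    have : 16 * b * 8 = 128 * b := by ring
    rw [this]
    exact Nat.mul_div_le K (128 * b)
  have hgK2 : K < 128 * b * (g + 1) := by
    rw [hg, Nat.div_div_eq_div_mul]
    have : 16 * b * 8 = 128 * b := by ring
    rw [this]
    exact Nat.lt_mul_div_succ K (by omega)
  have hgK3 : 256 * g ≤ K := by
    refine le_trans ?_ hgK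
    exact Nat.mul_le_mul_right _ (by omega)
  obtain ⟨w, hw⟩ : ∃ w, w = g / 4 := ⟨_, rfl⟩
  have hw1 : 4 * w ≤ g := by omega
  have hw2 : g + 1 ≤ 8 * w := by omega
  have hKw : K ≤ 1024 * b * w := by
    calc K ≤ 128 * b * (g + 1) := hgK2.le
      _ ≤ 128 * b * (8 * w) := Nat.mul_le_mul_left _ hw2
      _ = _ := by ring
  obtain ⟨st, hst0, hst1, hst2⟩ : ∃ st : Fin 3 → ℕ, st 0 = 1 ∧ st 1 = K - c - h ∧ st 2 = g := ⟨![1, K - c - h, g], rfl, rfl, rfl⟩
  obtain ⟨len, hln0, hln1, hln2⟩ : ∃ len : Fin 3 → ℕ, len 0 = h ∧ len 1 = h ∧ len 2 = K - 2 * g := ⟨![h, h, K - 2 * g], rfl, rfl, rfl⟩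
  have hq3 : ∀ q : Fin 3, q = 0 ∨ q = 1 ∨ q = 2 := by decide
  have hwin : ∀ q, 1 ≤ st q ∧ st q + len q + c ≤ K ∧ s ≤ len q ∧ t * s ≤ len q := by
    intro q
    rcases hq3 q with rfl | rfl | rfl
    · rw [hst0, hln0]; omega
    · rw [hst1, hln1]; omega
    · rw [hst2, hln2]; omega
  obtain ⟨x, hx⟩ : ∃ x : Fin 3 × Fin s → ℕ, x = fun c => st c.1 + c.2 * (len c.1 / s) := ⟨_, rfl⟩
  obtain ⟨l, hl⟩ : ∃ l : Fin 3 × Fin s → ℕ, l = fun c => len c.1 / s := ⟨_, rfl⟩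
  have hl1 : ∀ q, 1 ≤ len q / s := fun q => (Nat.le_div_iff_mul_le (by omega)).2 (by rw [one_mul]; exact (hwin q).2.2.1)
  have hlt : ∀ c, t ≤ l c := fun c => by
    rw [hl]
    exact (Nat.le_div_iff_mul_le (by omega)).2 (hwin c.1).2.2.2
  have hxl : ∀ c : Fin 3 × Fin s, st c.1 ≤ x c ∧ x c + l c ≤ st c.1 + len c.1 := by
    intro c
    rw [hx, hl]
    simp only
    have e1 : (c.2 : ℕ) * (len c.1 / s) + len c.1 / s ≤ len c.1 := by
      calc (c.2 : ℕ) * (len c.1 / s) + len c.1 / s = ((c.2 : ℕ) + 1) * (len c.1 / s) := by ring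
        _ ≤ s * (len c.1 / s) := Nat.mul_le_mul_right _ c.2.2
        _ ≤ len c.1 := Nat.mul_div_le _ _
    omega
  have hx1 : ∀ c, 1 ≤ x c := fun c => (hwin c.1).1.trans (hxl c).1
  have hxlK : ∀ c', x c' + l c' + c ≤ K := fun c' => by
    have := (hxl c').2
    have := (hwin c'.1).2.1
    omega
  have hJ1 : (1 + h) + w + c ≤ K := by omega
  obtain ⟨Ω, hΩ⟩ : ∃ Ω, Ω = Ico (1 + h) ((1 + h) + w) ×ˢ Ov x l := ⟨_, rfl⟩
  have hcardι : Fintype.card (Fin 3 × Fin s) = 3 * s := by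
    rw [Fintype.card_prod, Fintype.card_fin, Fintype.card_fin]
  -- the sizes
  have hvd : ∀ o ∈ Ω, vd b o ≤ (1 + 3 * s) * b ^ (K - c) := by
    intro o ho
    rw [hΩ] at ho
    have := vd_le b (1 + h) w (K - c) hb x l (by omega) (fun c' => by have := hxlK c'; omega) o ho
    rw [hcardι] at this
    exact this
  have hsize : (((1 + 3 * s) * b ^ (K - c) : ℕ) : ℝ) ≤ μ * ((b ^ K : ℕ) : ℝ) := by
    have e1 : (b : ℝ) ^ K = (b : ℝ) ^ (K - c) * (b : ℝ) ^ c := by rw [← pow_add]; congr 1; omega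
    have e2 : (b : ℝ) ^ (K - c) = (1 / (b : ℝ)) ^ c * (b : ℝ) ^ K := by
      rw [e1, one_div, inv_pow]
      field_simp
    have e3 : (1 / (b : ℝ)) ^ c ≤ (1 / (b : ℝ)) ^ c₁ := by
      apply pow_le_pow_of_le_one (by positivity) _ (by omega)
      rw [div_le_one hb0]; linarith
    push_cast
    rw [e2, ← mul_assoc]
    apply mul_le_mul_of_nonneg_right _ (by positivity)
    refine le_trans ?_ hc₁.le
    exact mul_le_mul_of_nonneg_left e3 (by positivity)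
  have hmin1 : μ * ((b ^ K : ℕ) : ℝ) ≤ ε * ((b ^ K : ℕ) : ℝ) := mul_le_mul_of_nonneg_right hμ1 (Nat.cast_nonneg _)
  have hmin2 : μ * ((b ^ K : ℕ) : ℝ) ≤ ε₁ * ((b ^ K : ℕ) : ℝ) := mul_le_mul_of_nonneg_right hμ2 (Nat.cast_nonneg _)
  have hmin3 : μ * ((b ^ K : ℕ) : ℝ) ≤ 1 * ((b ^ K : ℕ) : ℝ) := mul_le_mul_of_nonneg_right hμ3 (Nat.cast_nonneg _)
  refine ⟨Ω, ?_, fun o ho => ⟨?_, ?_, ?_⟩, ?_⟩
  · rw [← card_pos, hΩ, card_Om, Nat.card_Ico]
    apply Nat.mul_pos (by omega)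
    apply Nat.pos_of_ne_zero
    rw [prod_ne_zero_iff]
    intro c' _
    have : 1 ≤ l c' := by rw [hl]; exact hl1 c'.1
    omega
  · rw [hΩ] at ho
    have := vd_PS b (1 + h) w x l o ho
    rwa [hcardι] at this
  · rw [hΩ] at ho
    exact dvd_vd b (1 + h) w (by omega) x l hx1 o ho
  · have e1 : (vd b o : ℝ) ≤ (((1 + 3 * s) * b ^ (K - c) : ℕ) : ℝ) := by exact_mod_cast hvd o ho
    exact e1.trans (hsize.trans hmin2)
  · -- the model
    have hLX : Real.log ((b ^ K : ℕ) : ℝ) = L := by rw [← hX, hL]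
    have hm := h3 (Fin 3 × Fin s) (by rw [hcardι]; omega) K (by omega) z (by rw [hLX]; exact hz5) (by rw [hLX]; exact hz2)
      (1 + h) w (by omega) hKw x l hx1 hlt ((1 + 3 * s) * b ^ (K - c)) (by rw [← hΩ]; exact hvd) (hsize.trans hmin1)
    rw [← hΩ] at hm
    -- the difference
    obtain ⟨G, hG⟩ : ∃ G : ℕ → ℝ, G = fun n => ArithmeticFunction.vonMangoldt n - lamz z n := ⟨_, rfl⟩
    have hgood : ∀ r, ¬ Bad b R K h (K / (16 * b)) r → ∏ c', ‖OC b 0 (b ^ (K + 1)) (Ico (x c') (x c' + l c')) r‖ ≤ δ * ∏ c', (2 * (l c' : ℝ)) := by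
      intro r hr
      have hprodc : ∏ c', ‖OC b 0 (b ^ (K + 1)) (Ico (x c') (x c' + l c')) r‖ =
          ∏ q : Fin 3, ∏ i ∈ range s, ‖OC b 0 (b ^ (K + 1)) (Ico (st q + i * (len q / s)) (st q + i * (len q / s) + len q / s)) r‖ := by
        rw [Fintype.prod_prod_type]
        apply prod_congr rfl
        intro q _
        rw [← Fin.prod_univ_eq_prod_range (fun i => ‖OC b 0 (b ^ (K + 1)) (Ico (st q + i * (len q / s)) (st q + i * (len q / s) + len q / s)) r‖) s]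
        rw [hx, hl]
      have hTtq : ∏ c', (2 * (l c' : ℝ)) = ∏ q : Fin 3, (2 * ((len q / s : ℕ) : ℝ)) ^ s := by
        rw [Fintype.prod_prod_type]
        apply prod_congr rfl
        intro q _
        rw [hl]
        simp only
        rw [prod_const, card_univ, Fintype.card_fin]
      -- one of the windows
      have hex : ∃ q : Fin 3, ∃ E : ℕ, len q ≤ E ∧ 2 * R * s ≤ E ∧ E ≤ ne b (K - st q - len q) (len q) r * R := by
        unfold Bad at hr
        rw [← hg] at hr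
        by_cases c1 : ne b (K - 1 - h) h r * R ≤ 2 * h
        · by_cases c2 : ne b 1 h r * R ≤ 2 * h
          · by_cases c3 : ne b g (K - 2 * g) r * R ≤ K
            · exact absurd ⟨c1, c2, c3⟩ hr
            · refine ⟨2, K, ?_, ?_, ?_⟩
              · rw [hln2]; omega
              · omega
              · rw [hst2, hln2]
                have : K - g - (K - 2 * g) = g := by omega
                rw [this]
                omega
          · refine ⟨1, h, ?_, by omega, ?_⟩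
            · rw [hln1]
            · rw [hst1, hln1]
              have : K - (K - c - h) - h = c := by omega
              rw [this]
              have e1 := ne_shift_window b c h r (by omega)
              have e2 := Nat.mul_le_mul_right R e1
              rw [add_mul] at e2
              omega
        · refine ⟨0, h, ?_, by omega, ?_⟩
          · rw [hln0]
          · rw [hst0, hln0]
            omega
      obtain ⟨q, E, hE1, hE2, hE3⟩ := hex
      rw [hprodc, hTtq]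
      apply three_prod _ _ δ hδ1 (fun q => prod_nonneg fun _ _ => norm_nonneg _)
        (fun q => window_le' b 0 K (st q) (len q) s r hb (by have := hwin q; omega)) q _ hδ0.le
      have e1 := window_le b 0 K (st q) (len q) s r hb hs1 (by have := hwin q; omega) (hl1 q)
      refine e1.trans ?_
      apply mul_le_mul_of_nonneg_left _ (by positivity)
      apply window_num b R s (len q) E _ δ hb hR hs1 (hl1 q) hE1 hE2 _ hδs
      exact_mod_cast hE3
    have hb1' := h1 K (by omega) z (by rw [hLX]; exact hz3) (by rw [hLX]; exact hz2)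
      ((range (b ^ (K + 1))).filter (fun r => Bad b R K h (K / (16 * b)) r)) (by
        intro r hr
        rw [mem_filter, mem_range] at hr
        rw [← hh']
        exact hr)
    have hK1 : (1 : ℝ) / (K : ℝ) ^ (R * s + c * R + t * s + 2) ≤ ε₁ / 8 := by
      have e1 : (K : ℝ) ≤ (K : ℝ) ^ (R * s + c * R + t * s + 2) := le_self_pow₀ (by linarith) (by omega)
      have e2 : 8 / ε₁ ≤ K := by
        have : (k5 : ℝ) ≤ K := by exact_mod_cast (by omega : k5 ≤ K)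
        linarith
      rw [div_le_iff₀ hε₁] at e2
      rw [div_le_iff₀ (by positivity)]
      nlinarith
    have hen2 := (h2 K (by omega) z (by rw [hLX]; exact hz5) (by rw [hLX]; exact hz2) 0 (1 + h) w (by omega) hKw).2
    have hSS := SS_split b K (1 + h) w hb (by omega) x l G δ C (1 / (K : ℝ) ^ (R * s + c * R + t * s + 2)) hδ0.le
      (fun r => Bad b R K h (K / (16 * b)) r)
      (by
        intro o ho
        rw [← hΩ] at ho
        refine (hvd o ho).trans ?_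
        have hq : (((1 + 3 * s) * b ^ (K - c) : ℕ) : ℝ) ≤ ((b ^ K : ℕ) : ℝ) := by
          refine hsize.trans (hmin3.trans ?_)
          rw [one_mul]
        exact_mod_cast hq) (by omega) (fun c' => by have := hxlK c'; omega)
      (by
        rw [hG]
        refine hb1'.trans (le_of_eq ?_)
        ring) hgood (by rw [hG]; exact hen2)
    rw [← hΩ] at hSS
    obtain ⟨O, hO⟩ : ∃ O : ℝ, O = (Ω.card : ℝ) := ⟨_, rfl⟩
    rw [← hO] at hSS hm ⊢
    have hsum : ∀ y ∈ Icc 1 (b ^ K), (WW b (fun n => ArithmeticFunction.vonMangoldt n) (b ^ K) Ω y - O * ph b y) ^ 2 ≤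
        2 * (WW b (lamz z) (b ^ K) Ω y - O * ph b y) ^ 2 + 2 * WW b G (b ^ K) Ω y ^ 2 := by
      intro y _
      have e1 : WW b (fun n => ArithmeticFunction.vonMangoldt n) (b ^ K) Ω y = WW b (lamz z) (b ^ K) Ω y + WW b G (b ^ K) Ω y := by
        rw [← WW_add]
        congr 1
        ext n
        rw [hG]
        ring
      rw [e1]
      nlinarith [sq_nonneg ((WW b (lamz z) (b ^ K) Ω y - O * ph b y) - WW b G (b ^ K) Ω y)]
    refine (sum_le_sum hsum).trans ?_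
    rw [sum_add_distrib, ← mul_sum, ← mul_sum]
    have e1 := WW_sq b G (b ^ K) Ω (Icc 1 (b ^ K))
    have e2 : O ^ 2 * ((b ^ K : ℕ) : ℝ) * (1 / (K : ℝ) ^ (R * s + c * R + t * s + 2) + δ ^ 2 * C) ≤ O ^ 2 * ((b ^ K : ℕ) : ℝ) * (ε₁ / 8 + ε₁ / 8) :=
      mul_le_mul_of_nonneg_left (add_le_add hK1 hδC) (by positivity)
    calc 2 * ∑ i ∈ Icc 1 (b ^ K), (WW b (lamz z) (b ^ K) Ω i - O * ph b i) ^ 2 + 2 * ∑ i ∈ Icc 1 (b ^ K), WW b G (b ^ K) Ω i ^ 2 ≤
          2 * (ε₁ / 4 * (O ^ 2 * ((b ^ K : ℕ) : ℝ))) + 2 * (O ^ 2 * ((b ^ K : ℕ) : ℝ) * (ε₁ / 8 + ε₁ / 8)) := by linarith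
      _ = ε₁ * (O ^ 2 * ((b ^ K : ℕ) : ℝ)) := by ring

end Pool.Agent.H86.DL
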