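import Pool.Graph.R_seed8.W93.RD1
import Pool.Agent.H86.L8

set_option autoImplicit false

/-! A digit function which is odd under reflection and nearly invariant under the addition of powers of `b`. -/

namespace Pool.Agent.H86.NL
open Finset
open Pool.Agent.H807R2.Dav (ee norm_ee ee_zero ee_add)
open Pool.Agent.H373R2.T7 (orth)
open Pool.Agent.H86.DL (PS PS_add PS_pow PS_zero PS_mono)

/-- the weight of a digit -/
def psi (β a : ℕ) : ℤ := if a = 0 ∨ a + 1 = β ∨ 2 * a + 1 = β then 0 else if 2 * a + 1 < β then 1 else -1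

/-- the sum of the weights of the last `m` digits of `k` in base `β` -/
def ff (β : ℕ) : ℕ → ℕ → ℤ
  | 0, _ => 0
  | m + 1, k => psi β (k % β) + ff β m (k / β)

lemma psi_abs (β a : ℕ) : |psi β a| ≤ 1 := by
  unfold psi
  split_ifs <;> simp

lemma psi_refl (β a : ℕ) (h : a < β) : psi β (β - 1 - a) = - psi β a := by
  unfold psi
  split_ifs <;> first | rfl | omega

lemma psi_end (β : ℕ) (h : 1 ≤ β) : psi β (β - 1) = psi β 0 := by
  unfold psi
  split_ifs <;> first | rfl | omega

lemma ff_abs (β m k : ℕ) : |ff β m k| ≤ m := by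
  induction m generalizing k with
  | zero => simp [ff]
  | succ m ih =>
    have h1 := ih (k / β)
    have h2 := psi_abs β (k % β)
    unfold ff
    rw [abs_le] at h1 h2 ⊢
    push_cast
    constructor <;> linarith [h1.1, h1.2, h2.1, h2.2]

lemma ff_refl (β m D k : ℕ) (hβ : 1 ≤ β) (hk : k < D * β ^ m) : ff β m (D * β ^ m - 1 - k) = - ff β m k := by
  induction m generalizing k with
  | zero => simp [ff]
  | succ m ih =>
    obtain ⟨k', hk'⟩ : ∃ k', k' = k / β := ⟨_, rfl⟩
    obtain ⟨a, ha⟩ : ∃ a, a = k % β := ⟨_, rfl⟩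
    have h1 : k = β * k' + a := by rw [hk', ha]; exact (Nat.div_add_mod k β).symm
    have h2 : a < β := by rw [ha]; exact Nat.mod_lt _ hβ
    obtain ⟨E, hE⟩ : ∃ E, E = D * β ^ m := ⟨_, rfl⟩
    have hE' : D * β ^ (m + 1) = β * E := by rw [hE, pow_succ]; ring
    have h3 : k' < E := by
      rw [hE', h1] at hk
      by_contra hc
      have := Nat.mul_le_mul_left β (not_lt.1 hc)
      omega
    have h4 : D * β ^ (m + 1) - 1 - k = β * (E - 1 - k') + (β - 1 - a) := by
      rw [hE', h1]
      obtain ⟨t, rfl⟩ : ∃ t, E = k' + 1 + t := ⟨E - (k' + 1), by omega⟩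
      have e1 : k' + 1 + t - 1 - k' = t := by omega
      have e2 : β * (k' + 1 + t) = β * k' + β + β * t := by ring
      rw [e1, e2]
      omega
    have h5 : (β * (E - 1 - k') + (β - 1 - a)) % β = β - 1 - a := by
      rw [Nat.mul_add_mod]
      exact Nat.mod_eq_of_lt (by omega)
    have h6 : (β * (E - 1 - k') + (β - 1 - a)) / β = E - 1 - k' := by
      rw [Nat.mul_add_div (by omega), Nat.div_eq_of_lt (by omega), add_zero]
    unfold ff
    rw [h4, h5, h6, psi_refl β a h2, hE, ih k' (by rw [← hE]; exact h3), ← hk', ← ha]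
    ring

lemma psi_sub (β a a' : ℕ) : |psi β a - psi β a'| ≤ 2 := by
  have h1 := psi_abs β a
  have h2 := psi_abs β a'
  rw [abs_le] at h1 h2 ⊢
  constructor <;> linarith [h1.1, h1.2, h2.1, h2.2]

lemma ff_succ (β m k : ℕ) (hβ : 2 ≤ β) : |ff β m (k + 1) - ff β m k| ≤ 2 := by
  induction m generalizing k with
  | zero => simp [ff]
  | succ m ih =>
    obtain ⟨k', hk'⟩ : ∃ k', k' = k / β := ⟨_, rfl⟩
    obtain ⟨a, ha⟩ : ∃ a, a = k % β := ⟨_, rfl⟩
    have h1 : k = β * k' + a := by rw [hk', ha]; exact (Nat.div_add_mod k β).symm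
    have h2 : a < β := by rw [ha]; exact Nat.mod_lt _ (by omega)
    unfold ff
    rw [← hk', ← ha]
    by_cases hc : a + 1 < β
    · have h3 : (k + 1) % β = a + 1 := by
        rw [h1, add_assoc, Nat.mul_add_mod]
        exact Nat.mod_eq_of_lt hc
      have h4 : (k + 1) / β = k' := by
        rw [h1, add_assoc, Nat.mul_add_div (by omega), Nat.div_eq_of_lt hc, add_zero]
      rw [h3, h4]
      have := psi_sub β (a + 1) a
      have e : psi β (a + 1) + ff β m k' - (psi β a + ff β m k') = psi β (a + 1) - psi β a := by ring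
      rw [e]
      exact this
    · have h3 : k + 1 = β * (k' + 1) := by
        rw [h1, mul_add, mul_one]
        omega
      have h4 : (k + 1) % β = 0 := by rw [h3]; exact Nat.mul_mod_right _ _
      have h5 : (k + 1) / β = k' + 1 := by rw [h3]; exact Nat.mul_div_cancel_left _ (by omega)
      have h6 : a = β - 1 := by omega
      rw [h4, h5, h6, psi_end β (by omega)]
      have := ih k'
      have e : psi β 0 + ff β m (k' + 1) - (psi β 0 + ff β m k') = ff β m (k' + 1) - ff β m k' := by ring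
      rw [e]
      exact this

lemma ff_add_lt (β m k c : ℕ) (hβ : 2 ≤ β) (hc : c < β) : |ff β m (k + c) - ff β m k| ≤ 4 := by
  cases m with
  | zero => simp [ff]
  | succ m =>
    obtain ⟨k', hk'⟩ : ∃ k', k' = k / β := ⟨_, rfl⟩
    obtain ⟨a, ha⟩ : ∃ a, a = k % β := ⟨_, rfl⟩
    have h1 : k = β * k' + a := by rw [hk', ha]; exact (Nat.div_add_mod k β).symm
    have h2 : a < β := by rw [ha]; exact Nat.mod_lt _ (by omega)
    unfold ff
    rw [← hk', ← ha]
    by_cases hc' : a + c < β
    · have h3 : (k + c) % β = a + c := by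
        rw [h1, add_assoc, Nat.mul_add_mod]
        exact Nat.mod_eq_of_lt hc'
      have h4 : (k + c) / β = k' := by
        rw [h1, add_assoc, Nat.mul_add_div (by omega), Nat.div_eq_of_lt hc', add_zero]
      rw [h3, h4]
      have := psi_sub β (a + c) a
      have e : psi β (a + c) + ff β m k' - (psi β a + ff β m k') = psi β (a + c) - psi β a := by ring
      rw [e]
      linarith
    · have h3 : k + c = β * (k' + 1) + (a + c - β) := by
        rw [h1, mul_add, mul_one]
        omega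
      have h4 : (k + c) % β = a + c - β := by rw [h3, Nat.mul_add_mod]; exact Nat.mod_eq_of_lt (by omega)
      have h5 : (k + c) / β = k' + 1 := by
        rw [h3, Nat.mul_add_div (by omega), Nat.div_eq_of_lt (by omega), add_zero]
      rw [h4, h5]
      have e1 := psi_sub β (a + c - β) a
      have e2 := ff_succ β m k' hβ
      rw [abs_le] at e1 e2 ⊢
      constructor <;> linarith [e1.1, e1.2, e2.1, e2.2]

lemma ff_add_mul (β m k c i : ℕ) (hβ : 2 ≤ β) (hc : c < β) : |ff β m (k + c * β ^ i) - ff β m k| ≤ 4 := by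
  induction i generalizing m k with
  | zero => simpa using ff_add_lt β m k c hβ hc
  | succ i ih =>
    cases m with
    | zero => simp [ff]
    | succ m =>
      have e : k + c * β ^ (i + 1) = k + β * (c * β ^ i) := by rw [pow_succ]; ring
      have h1 : (k + c * β ^ (i + 1)) % β = k % β := by rw [e]; exact Nat.add_mul_mod_self_left _ _ _
      have h2 : (k + c * β ^ (i + 1)) / β = k / β + c * β ^ i := by rw [e]; exact Nat.add_mul_div_left _ _ (by omega)
      unfold ff
      rw [h1, h2]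
      have := ih m (k / β)
      have e : psi β (k % β) + ff β m (k / β + c * β ^ i) - (psi β (k % β) + ff β m (k / β)) =
        ff β m (k / β + c * β ^ i) - ff β m (k / β) := by ring
      rw [e]
      exact this

lemma ff_add_pow (b m k h : ℕ) (hb : 2 ≤ b) : |ff (b ^ 2) m (k + b ^ h) - ff (b ^ 2) m k| ≤ 4 := by
  have hβ : 2 ≤ b ^ 2 := by nlinarith
  have h1 : b ^ h = b ^ (h % 2) * (b ^ 2) ^ (h / 2) := by
    rw [← pow_mul, ← pow_add]
    congr 1
    omega
  rw [h1]
  apply ff_add_mul _ _ _ _ _ hβ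
  exact Nat.pow_lt_pow_right (by omega) (Nat.mod_lt _ (by norm_num))

lemma ff_add_PS (b m K k s : ℕ) (hb : 2 ≤ b) (hs : PS b K s) : |ff (b ^ 2) m (k + s) - ff (b ^ 2) m k| ≤ 4 * K := by
  obtain ⟨l, h1, rfl⟩ := hs
  have h2 : ∀ (l : List ℕ) (k : ℕ), |ff (b ^ 2) m (k + (l.map (fun e => b ^ e)).sum) - ff (b ^ 2) m k| ≤ 4 * (l.length : ℤ) := by
    intro l
    induction l with
    | nil => intro k; simp
    | cons a l ih =>
      intro k
      rw [List.map_cons, List.sum_cons, ← add_assoc, List.length_cons]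
      have e1 := ih (k + b ^ a)
      have e2 := ff_add_pow b m k a hb
      rw [abs_le] at e1 e2 ⊢
      push_cast
      constructor <;> linarith [e1.1, e1.2, e2.1, e2.2]
  refine (h2 l k).trans ?_
  have : (l.length : ℤ) ≤ K := by exact_mod_cast h1
  linarith

lemma ff_add_small (β m k r : ℕ) (hβ : 2 ≤ β) : |ff β m (k + r) - ff β m k| ≤ 2 * r := by
  induction r with
  | zero => simp
  | succ r ih =>
    have := ff_succ β m (k + r) hβ
    rw [← add_assoc]
    rw [abs_le] at this ih ⊢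
    push_cast
    constructor <;> linarith [this.1, this.2, ih.1, ih.2]

/-- the key property: two cells with a forbidden sum have almost opposite values -/
lemma ff_pair (b m K D k k' s r : ℕ) (hb : 2 ≤ b) (hs : PS b K s) (hr : r ≤ K + 2) (hk' : k' < D * (b ^ 2) ^ m)
    (h : k + k' + s + r = D * (b ^ 2) ^ m) : ff (b ^ 2) m k + ff (b ^ 2) m k' ≤ 6 * K + 6 := by
  have hβ : 2 ≤ b ^ 2 := by nlinarith
  obtain ⟨u, hu⟩ : ∃ u, k + s + r = u + 1 := ⟨k + s + r - 1, by omega⟩
  have h1 : k' = D * (b ^ 2) ^ m - 1 - u := by omega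
  have h2 := ff_refl (b ^ 2) m D u (by omega) (by omega)
  rw [← h1] at h2
  rw [h2]
  have h3 := ff_succ (b ^ 2) m u hβ
  have h4 := ff_add_PS b m K k s hb hs
  have h5 := ff_add_small (b ^ 2) m (k + s) r hβ
  rw [← hu] at h3
  have hr' : (r : ℤ) ≤ K + 2 := by exact_mod_cast hr
  rw [abs_le] at h3 h4 h5
  linarith [h3.1, h3.2, h4.1, h4.2, h5.1, h5.2]

lemma ff_split (β m r k : ℕ) : ff β (m + r) k = ff β m k + ff β r (k / β ^ m) := by
  induction m generalizing k with
  | zero => simp [ff]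
  | succ m ih =>
    have h1 : m + 1 + r = (m + r) + 1 := by ring
    rw [h1]
    show psi β (k % β) + ff β (m + r) (k / β) = psi β (k % β) + ff β m (k / β) + ff β r (k / β ^ (m + 1))
    rw [ih, Nat.div_div_eq_div_mul, pow_succ', add_assoc]

lemma ff_mod (β m k j : ℕ) (hβ : 1 ≤ β) : ff β m (k + j * β ^ m) = ff β m k := by
  induction m generalizing k with
  | zero => simp [ff]
  | succ m ih =>
    have e : k + j * β ^ (m + 1) = k + β * (j * β ^ m) := by rw [pow_succ]; ring
    have h1 : (k + j * β ^ (m + 1)) % β = k % β := by rw [e]; exact Nat.add_mul_mod_self_left _ _ _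
    have h2 : (k + j * β ^ (m + 1)) / β = k / β + j * β ^ m := by rw [e]; exact Nat.add_mul_div_left _ _ (by omega)
    unfold ff
    rw [h1, h2, ih]

lemma sum_digits {E : Type*} [AddCommMonoid E] (β m : ℕ) (g : ℕ → E) :
    ∑ k ∈ range (β * m), g k = ∑ k ∈ range m, ∑ a ∈ range β, g (a + β * k) := by
  induction m with
  | zero => simp
  | succ m ih =>
    rw [sum_range_succ, ← ih, Nat.mul_succ, sum_range_add]
    congr 1
    apply sum_congr rfl
    intro a _
    rw [add_comm]

lemma char_ff (β m : ℕ) (hβ : 1 ≤ β) (t : ℝ) :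
    ∑ k ∈ range (β ^ m), ee ((ff β m k : ℝ) * t) = (∑ a ∈ range β, ee ((psi β a : ℝ) * t)) ^ m := by
  induction m with
  | zero => simp [ff, ee_zero]
  | succ m ih =>
    rw [pow_succ', sum_digits β _, pow_succ, ← ih, sum_mul_sum]
    apply sum_congr rfl
    intro k _
    apply sum_congr rfl
    intro a ha
    rw [mem_range] at ha
    have h1 : (a + β * k) % β = a := by rw [Nat.add_mul_mod_self_left]; exact Nat.mod_eq_of_lt ha
    have h2 : (a + β * k) / β = k := by rw [Nat.add_mul_div_left _ _ (by omega), Nat.div_eq_of_lt ha, zero_add]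
    rw [show ff β (m + 1) (a + β * k) = psi β ((a + β * k) % β) + ff β m ((a + β * k) / β) from rfl, h1, h2, ← ee_add]
    congr 1
    push_cast
    ring

lemma char_psi (β R j : ℕ) (hβ : 4 ≤ β) (hj : 1 ≤ j) (hjR : j < R) :
    ‖∑ a ∈ range β, ee ((psi β a : ℝ) * ((j : ℝ) / R))‖ ≤ β - 4 / (R : ℝ) ^ 2 := by
  have hR0 : (0 : ℝ) < R := by exact_mod_cast (by omega : 0 < R)
  have h1 : ∑ a ∈ range β, ee ((psi β a : ℝ) * ((j : ℝ) / R)) = (1 + ee ((j : ℝ) / R)) +
      ∑ a ∈ Ico 2 β, ee ((psi β a : ℝ) * ((j : ℝ) / R)) := by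
    rw [range_eq_Ico, ← sum_Ico_consecutive _ (by omega : 0 ≤ 2) (by omega : 2 ≤ β)]
    congr 1
    rw [← range_eq_Ico, sum_range_succ, sum_range_succ, sum_range_zero, zero_add]
    have e0 : psi β 0 = 0 := by unfold psi; simp
    have e1 : psi β 1 = 1 := by
      unfold psi
      rw [if_neg (by omega), if_pos (by omega)]
    rw [e0, e1]
    simp [ee_zero]
  rw [h1]
  refine (norm_add_le _ _).trans ?_
  have h2 := Pool.Agent.W93.RD.cos_dist ((j : ℝ) / R) (1 / R) (by positivity) (by
    intro n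
    have e : (j : ℝ) / R - n = ((j : ℤ) - n * R : ℤ) / R := by push_cast; field_simp
    rw [e, abs_div, abs_of_pos hR0]
    apply div_le_div_of_nonneg_right _ hR0.le
    have : (j : ℤ) - n * R ≠ 0 := by
      intro h
      have hd : (R : ℤ) ∣ j := ⟨n, by linarith⟩
      have hd' : R ∣ j := by exact_mod_cast hd
      have := Nat.le_of_dvd (by omega) hd'
      omega
    exact_mod_cast Int.one_le_abs this)
  have h3 : ‖∑ a ∈ Ico 2 β, ee ((psi β a : ℝ) * ((j : ℝ) / R))‖ ≤ (β : ℝ) - 2 := by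
    refine (norm_sum_le _ _).trans ?_
    simp only [norm_ee]
    rw [sum_const, Nat.card_Ico, nsmul_eq_mul, mul_one, Nat.cast_sub (by omega)]
    norm_num
  have h4 : (4 : ℝ) * (1 / R) ^ 2 = 4 / (R : ℝ) ^ 2 := by field_simp
  rw [h4] at h2
  linarith

/-- the values of the digit function are spread out -/
lemma spread (β : ℕ) (hβ : 4 ≤ β) (ε : ℝ) (hε : 0 < ε) : ∃ m₀ : ℕ, ∀ m, m₀ ≤ m → ∀ s : ℤ,
    (((range (β ^ m)).filter (fun k => ff β m k = s)).card : ℝ) ≤ ε * (β : ℝ) ^ m := by
  obtain ⟨R, hR⟩ := exists_nat_ge (2 / ε)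
  have hR0 : (0 : ℝ) < R := lt_of_lt_of_le (by positivity) hR
  have hR1 : 1 ≤ R := by exact_mod_cast hR0
  have hβ0 : (0 : ℝ) < β := by exact_mod_cast (by omega : 0 < β)
  obtain ⟨ρ, hρ⟩ : ∃ ρ : ℝ, ρ = 1 - 4 / (R : ℝ) ^ 2 / β := ⟨_, rfl⟩
  have hρ1 : ρ < 1 := by
    rw [hρ]
    have : 0 < 4 / (R : ℝ) ^ 2 / β := by positivity
    linarith
  have hρ0 : 0 ≤ ρ := by
    rw [hρ]
    have h1 : 4 / (R : ℝ) ^ 2 ≤ 4 := by
      rw [div_le_iff₀ (by positivity)]
      have : (1 : ℝ) ≤ R := by exact_mod_cast hR1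
      nlinarith
    have h2 : (4 : ℝ) ≤ β := by exact_mod_cast hβ
    have : 4 / (R : ℝ) ^ 2 / β ≤ 1 := by
      rw [div_le_one hβ0]
      linarith
    linarith
  obtain ⟨m₀, hm₀⟩ := exists_pow_lt_of_lt_one (show 0 < ε / 2 by positivity) hρ1
  refine ⟨m₀, fun m hm s => ?_⟩
  have hpow : ρ ^ m ≤ ε / 2 := (pow_le_pow_of_le_one hρ0 hρ1.le hm).trans hm₀.le
  obtain ⟨B, hB⟩ : ∃ B : ℝ, B = (β : ℝ) ^ m := ⟨_, rfl⟩
  have hB0 : 0 < B := by rw [hB]; positivity
  have h1 : ((((range (β ^ m)).filter (fun k => ff β m k = s)).card : ℝ) : ℂ) * R =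
      ∑ k ∈ (range (β ^ m)).filter (fun k => ff β m k = s), ∑ j ∈ range R, ee ((j : ℝ) * (((ff β m k - s : ℤ) : ℝ) / R)) := by
    have : ∀ k ∈ (range (β ^ m)).filter (fun k => ff β m k = s), ∑ j ∈ range R, ee ((j : ℝ) * (((ff β m k - s : ℤ) : ℝ) / R)) = (R : ℂ) := by
      intro k hk
      rw [orth R hR1, if_pos]
      rw [(mem_filter.1 hk).2]
      simp
    rw [sum_congr rfl this, sum_const, nsmul_eq_mul]
    push_cast
    rfl
  have h2 : (((range (β ^ m)).filter (fun k => ff β m k = s)).card : ℝ) * R ≤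
      ‖∑ k ∈ range (β ^ m), ∑ j ∈ range R, ee ((j : ℝ) * (((ff β m k - s : ℤ) : ℝ) / R))‖ := by
    -- the full sum is a sum of nonnegative reals
    have e1 : ∀ k, ∑ j ∈ range R, ee ((j : ℝ) * (((ff β m k - s : ℤ) : ℝ) / R)) = (((if (R : ℤ) ∣ ff β m k - s then (R : ℝ) else 0) : ℝ) : ℂ) := by
      intro k
      rw [orth R hR1]
      split_ifs <;> simp
    simp only [e1]
    rw [← Complex.ofReal_sum, Complex.norm_real, Real.norm_eq_abs]
    refine le_trans ?_ (le_abs_self _)
    rw [← nsmul_eq_mul, ← sum_const, sum_filter]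
    apply sum_le_sum
    intro k _
    by_cases hk : ff β m k = s
    · rw [if_pos hk, if_pos (by rw [hk]; simp)]
    · rw [if_neg hk]
      split_ifs
      · exact hR0.le
      · exact le_rfl
  have h3 : ∑ k ∈ range (β ^ m), ∑ j ∈ range R, ee ((j : ℝ) * (((ff β m k - s : ℤ) : ℝ) / R)) =
      ∑ j ∈ range R, ee (-((s : ℝ) * ((j : ℝ) / R))) * (∑ a ∈ range β, ee ((psi β a : ℝ) * ((j : ℝ) / R))) ^ m := by
    rw [sum_comm]
    apply sum_congr rfl
    intro j _
    rw [← char_ff β m (by omega), mul_sum]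
    apply sum_congr rfl
    intro k _
    rw [← ee_add]
    congr 1
    push_cast
    ring
  have h4 : ‖∑ k ∈ range (β ^ m), ∑ j ∈ range R, ee ((j : ℝ) * (((ff β m k - s : ℤ) : ℝ) / R))‖ ≤ B + R * (ε / 2 * B) := by
    rw [h3]
    refine (norm_sum_le _ _).trans ?_
    have e1 : ∀ j ∈ range R, ‖ee (-((s : ℝ) * ((j : ℝ) / R))) * (∑ a ∈ range β, ee ((psi β a : ℝ) * ((j : ℝ) / R))) ^ m‖ ≤
        (if j = 0 then B else 0) + ε / 2 * B := by
      intro j hj
      rw [mem_range] at hj
      rw [norm_mul, norm_ee, one_mul, norm_pow]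
      by_cases hj0 : j = 0
      · rw [if_pos hj0, hj0]
        have : ‖∑ a ∈ range β, ee ((psi β a : ℝ) * (((0 : ℕ) : ℝ) / R))‖ ≤ β := by
          refine (norm_sum_le _ _).trans ?_
          simp only [norm_ee]
          simp
        have h5 := pow_le_pow_left₀ (norm_nonneg _) this m
        rw [← hB] at h5
        have : 0 ≤ ε / 2 * B := by positivity
        linarith
      · rw [if_neg hj0, zero_add]
        have h5 := char_psi β R j hβ (by omega) hj
        have h6 : (β : ℝ) - 4 / (R : ℝ) ^ 2 = β * ρ := by rw [hρ]; field_simp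
        rw [h6] at h5
        have h7 := pow_le_pow_left₀ (norm_nonneg _) h5 m
        rw [mul_pow, ← hB] at h7
        calc _ ≤ B * ρ ^ m := h7
          _ ≤ B * (ε / 2) := mul_le_mul_of_nonneg_left hpow hB0.le
          _ = _ := by ring
    refine (sum_le_sum e1).trans (le_of_eq ?_)
    rw [sum_add_distrib, sum_const, card_range, nsmul_eq_mul, sum_ite_eq' (range R) 0 (fun _ => B), if_pos (mem_range.2 (by omega))]
  have h5 : (((range (β ^ m)).filter (fun k => ff β m k = s)).card : ℝ) * R ≤ ε * B * R := by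
    refine h2.trans (h4.trans ?_)
    have h6 : B ≤ R * (ε / 2) * B := by
      have : 1 ≤ R * (ε / 2) := by
        rw [div_le_iff₀ hε] at hR
        linarith
      nlinarith
    linarith
  rw [← hB]
  exact le_of_mul_le_mul_right h5 hR0

end Pool.Agent.H86.NL
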