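import Pool.Agent.H86.N1

set_option autoImplicit false

/-! Sums of few powers of `b`: gaps, counting, and the quantiles of the digit function. -/

namespace Pool.Agent.H86.NL
open Finset
open Pool.Agent.H86.DL (PS PS_add PS_pow PS_zero PS_mono)

lemma list_erase_sum (f : ℕ → ℕ) (l : List ℕ) (a : ℕ) (h : a ∈ l) : (l.map f).sum = f a + ((l.erase a).map f).sum := by
  have h1 := (List.perm_cons_erase h).map f
  rw [h1.sum_eq, List.map_cons, List.sum_cons]

/-- the distance of a multiple of `b ^ M` from a smaller sum of few powers of `b` -/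
lemma gap (b : ℕ) (hb : 2 ≤ b) (K M t s : ℕ) (hs : PS b K s) (hd : b ^ M ∣ t + s) (ht : 0 < t) : b ^ M ≤ t * b ^ (K * K) := by
  induction K generalizing M s with
  | zero =>
    obtain ⟨l, h1, h2⟩ := hs
    have : l = [] := List.length_eq_zero_iff.1 (by omega)
    rw [this] at h2
    simp at h2
    rw [h2, add_zero] at hd
    simpa using Nat.le_of_dvd ht hd
  | succ K ih =>
    obtain ⟨l, h1, h2⟩ := hs
    have hmono : t * b ^ (K * K) ≤ t * b ^ ((K + 1) * (K + 1)) :=
      Nat.mul_le_mul_left _ (Nat.pow_le_pow_right (by omega) (by nlinarith))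
    have hrem : ∀ e ∈ l, PS b K ((l.erase e).map (fun e => b ^ e)).sum := by
      intro e he
      refine ⟨l.erase e, ?_, rfl⟩
      rw [List.length_erase_of_mem he]
      omega
    by_cases hc : ∃ e ∈ l, M ≤ e
    · obtain ⟨e, he, heM⟩ := hc
      have h3 := list_erase_sum (fun e => b ^ e) l e he
      have h4 : b ^ M ∣ t + ((l.erase e).map (fun e => b ^ e)).sum := by
        have h5 : b ^ M ∣ b ^ e := pow_dvd_pow b heM
        have h6 : t + s = b ^ e + (t + ((l.erase e).map (fun e => b ^ e)).sum) := by rw [h2, h3]; ring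
        rw [h6] at hd
        exact (Nat.dvd_add_right h5).1 hd
      exact (ih M _ (hrem e he) h4).trans hmono
    · push Not at hc
      by_cases hc2 : ∃ e ∈ l, b ^ M < 2 * (K + 1) * b ^ e
      · obtain ⟨e, he, heM⟩ := hc2
        have h3 := list_erase_sum (fun e => b ^ e) l e he
        have h4 : b ^ e ∣ t + ((l.erase e).map (fun e => b ^ e)).sum := by
          have h5 : b ^ e ∣ t + s := (pow_dvd_pow b (hc e he).le).trans hd
          have h6 : t + s = b ^ e + (t + ((l.erase e).map (fun e => b ^ e)).sum) := by rw [h2, h3]; ring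
          rw [h6] at h5
          exact (Nat.dvd_add_right dvd_rfl).1 h5
        have h5 := ih e _ (hrem e he) h4
        have h6 : 2 * (K + 1) ≤ b ^ (K + 1) := by
          have h7 : 2 * (K + 1) ≤ 2 ^ (K + 1) := by
            clear * -
            induction K with
            | zero => norm_num
            | succ n ih => rw [pow_succ]; have : 2 ≤ 2 ^ (n + 1) := by rw [pow_succ]; have := Nat.one_le_two_pow (n := n); omega
                           omega
          exact h7.trans (Nat.pow_le_pow_left hb _)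
        calc b ^ M ≤ 2 * (K + 1) * b ^ e := heM.le
          _ ≤ b ^ (K + 1) * (t * b ^ (K * K)) := Nat.mul_le_mul h6 h5
          _ = t * b ^ (K * K + K + 1) := by rw [show K * K + K + 1 = K * K + (K + 1) by ring, pow_add]; ring
          _ ≤ t * b ^ ((K + 1) * (K + 1)) := Nat.mul_le_mul_left _ (Nat.pow_le_pow_right (by omega) (by nlinarith))
      · push Not at hc2
        have h3 : ∀ l' : List ℕ, (∀ e ∈ l', 2 * (K + 1) * b ^ e ≤ b ^ M) → 2 * (K + 1) * (l'.map (fun e => b ^ e)).sum ≤ l'.length * b ^ M := by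
          intro l'
          induction l' with
          | nil => simp
          | cons a l' ih' =>
            intro h
            rw [List.map_cons, List.sum_cons, List.length_cons]
            have e1 := h a (List.mem_cons_self)
            have e2 := ih' (fun e he => h e (List.mem_cons_of_mem _ he))
            calc 2 * (K + 1) * (b ^ a + (l'.map (fun e => b ^ e)).sum) = 2 * (K + 1) * b ^ a + 2 * (K + 1) * (l'.map (fun e => b ^ e)).sum := by ring
              _ ≤ b ^ M + l'.length * b ^ M := Nat.add_le_add e1 e2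
              _ = _ := by ring
        have h4 := h3 l hc2
        rw [← h2] at h4
        have h5 : 2 * (K + 1) * s ≤ (K + 1) * b ^ M := h4.trans (Nat.mul_le_mul_right _ h1)
        have h6 : 2 * s ≤ b ^ M := by
          have : (K + 1) * (2 * s) ≤ (K + 1) * b ^ M := by linarith
          exact Nat.le_of_mul_le_mul_left this (by omega)
        have h7 := Nat.le_of_dvd (by omega) hd
        have h8 : b ^ M ≤ t * 2 := by omega
        refine h8.trans (Nat.mul_le_mul_left _ ?_)
        calc 2 ≤ b ^ 1 := by simpa using hb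
          _ ≤ b ^ ((K + 1) * (K + 1)) := Nat.pow_le_pow_right (by omega) (by nlinarith)

lemma PS_cut (b K l s : ℕ) (hb : 2 ≤ b) (hs : PS b K s) : ∃ s₁ s₀, s = b ^ l * s₁ + s₀ ∧ PS b K s₁ ∧ s₀ ≤ K * b ^ l := by
  obtain ⟨L, h1, rfl⟩ := hs
  have h : ∀ L : List ℕ, ∃ s₁ s₀, (L.map (fun e => b ^ e)).sum = b ^ l * s₁ + s₀ ∧ PS b L.length s₁ ∧ s₀ ≤ L.length * b ^ l := by
    intro L
    induction L with
    | nil => exact ⟨0, 0, by simp, PS_zero _ _, by simp⟩
    | cons a L ih =>
      obtain ⟨s₁, s₀, e1, e2, e3⟩ := ih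
      rw [List.map_cons, List.sum_cons, List.length_cons, e1]
      by_cases hc : l ≤ a
      · refine ⟨b ^ (a - l) + s₁, s₀, ?_, ?_, ?_⟩
        · have : b ^ a = b ^ l * b ^ (a - l) := by rw [← pow_add]; congr 1; omega
          rw [this]; ring
        · rw [add_comm L.length 1]
          exact PS_add b _ _ _ _ (PS_pow b _) e2
        · calc s₀ ≤ L.length * b ^ l := e3
            _ ≤ (L.length + 1) * b ^ l := Nat.mul_le_mul_right _ (by omega)
      · refine ⟨s₁, b ^ a + s₀, by ring, PS_mono b _ _ _ e2 (by omega), ?_⟩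
        have : b ^ a ≤ b ^ l := Nat.pow_le_pow_right (by omega) (by omega)
        calc b ^ a + s₀ ≤ b ^ l + L.length * b ^ l := Nat.add_le_add this e3
          _ = _ := by ring
  obtain ⟨s₁, s₀, e1, e2, e3⟩ := h L
  exact ⟨s₁, s₀, e1, PS_mono b _ _ _ e2 h1, e3.trans (Nat.mul_le_mul_right _ h1)⟩

/-- passing to cells -/
lemma cell_rep (b K D l M x y s : ℕ) (hb : 2 ≤ b) (hs : PS b K s) (h : x + y + s = D * b ^ (l + M)) :
    ∃ s₁ r, PS b K s₁ ∧ r ≤ K + 2 ∧ x / b ^ l + y / b ^ l + s₁ + r = D * b ^ M ∧ (0 < x → 0 < x / b ^ l + y / b ^ l + r) := by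
  obtain ⟨s₁, s₀, e1, e2, e3⟩ := PS_cut b K l s hb hs
  have hB : 0 < b ^ l := Nat.pow_pos (by omega)
  have hx := Nat.div_add_mod x (b ^ l)
  have hy := Nat.div_add_mod y (b ^ l)
  have hx' := Nat.mod_lt x hB
  have hy' := Nat.mod_lt y hB
  obtain ⟨k, hk⟩ : ∃ k, k = x / b ^ l := ⟨_, rfl⟩
  obtain ⟨k', hk'⟩ : ∃ k', k' = y / b ^ l := ⟨_, rfl⟩
  obtain ⟨B, hBB⟩ : ∃ B, B = b ^ l := ⟨_, rfl⟩
  obtain ⟨x', hxx⟩ : ∃ x', x' = x % b ^ l := ⟨_, rfl⟩
  obtain ⟨y', hyy⟩ : ∃ y', y' = y % b ^ l := ⟨_, rfl⟩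
  rw [← hk, ← hxx, ← hBB] at hx
  rw [← hk', ← hyy, ← hBB] at hy
  rw [← hxx, ← hBB] at hx'
  rw [← hyy, ← hBB] at hy'
  rw [← hBB] at hB e1 e3
  have e4 : D * b ^ (l + M) = B * (D * b ^ M) := by rw [hBB, pow_add]; ring
  obtain ⟨E, hE⟩ : ∃ E, E = D * b ^ M := ⟨_, rfl⟩
  have e5 : B * E = B * (k + k' + s₁) + (x' + y' + s₀) := by
    rw [hE, ← e4, ← h, e1, ← hx, ← hy]
    ring
  have e6 : B ∣ x' + y' + s₀ := by
    have : B ∣ B * (k + k' + s₁) + (x' + y' + s₀) := by rw [← e5]; exact Dvd.intro _ rfl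
    exact (Nat.dvd_add_right (Dvd.intro _ rfl)).1 this
  obtain ⟨r, hr⟩ := e6
  rw [hr, ← mul_add] at e5
  have e7 : E = k + k' + s₁ + r := Nat.eq_of_mul_eq_mul_left hB e5
  refine ⟨s₁, r, e2, ?_, ?_, ?_⟩
  · have : B * r ≤ B * (K + 2) := by
      rw [← hr]
      calc x' + y' + s₀ ≤ B + B + K * B := by omega
        _ = B * (K + 2) := by ring
    exact Nat.le_of_mul_le_mul_left this hB
  · rw [← hk, ← hk', ← hE, e7]
  · intro hx0
    rw [← hk, ← hk']
    by_contra hc
    have hk0 : k = 0 := by omega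
    have hr0 : r = 0 := by omega
    rw [hr0, mul_zero] at hr
    rw [hk0, mul_zero] at hx
    omega

/-- the sums of few powers of `b` below `b ^ E` -/
def TT (b E : ℕ) : ℕ → Finset ℕ
  | 0 => {0}
  | K + 1 => TT b E K ∪ (TT b E K ×ˢ range E).image (fun p => p.1 + b ^ p.2)

lemma card_TT (b E K : ℕ) : (TT b E K).card ≤ (E + 1) ^ K := by
  induction K with
  | zero => simp [TT]
  | succ K ih =>
    unfold TT
    refine (card_union_le _ _).trans ?_
    have h1 : ((TT b E K ×ˢ range E).image (fun p => p.1 + b ^ p.2)).card ≤ (TT b E K).card * E := by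
      refine card_image_le.trans ?_
      rw [card_product, card_range]
    calc (TT b E K).card + ((TT b E K ×ˢ range E).image (fun p => p.1 + b ^ p.2)).card ≤ (TT b E K).card + (TT b E K).card * E := Nat.add_le_add_left h1 _
      _ = (TT b E K).card * (E + 1) := by ring
      _ ≤ (E + 1) ^ K * (E + 1) := Nat.mul_le_mul_right _ ih
      _ = _ := by rw [pow_succ]

lemma mem_TT (b E K s : ℕ) (hb : 2 ≤ b) (hs : PS b K s) (h : s < b ^ E) : s ∈ TT b E K := by
  obtain ⟨l, h1, rfl⟩ := hs
  induction l generalizing K with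
  | nil =>
    clear h1 h
    simp only [List.map_nil, List.sum_nil]
    induction K with
    | zero => simp [TT]
    | succ K ih => unfold TT; exact mem_union_left _ ih
  | cons a l ih =>
    cases K with
    | zero => simp at h1
    | succ K =>
      rw [List.length_cons] at h1
      rw [List.map_cons, List.sum_cons] at h ⊢
      have h2 := ih K (by omega) (by omega)
      have h3 : a < E := by
        by_contra hc
        have := Nat.pow_le_pow_right (show 0 < b by omega) (not_lt.1 hc)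
        omega
      unfold TT
      apply mem_union_right
      rw [mem_image]
      exact ⟨(_, a), mem_product.2 ⟨h2, mem_range.2 h3⟩, add_comm _ _⟩

/-- the number of `k < β ^ m` with a value above `t` -/
def AA (β m : ℕ) (t : ℤ) : ℕ := ((range (β ^ m)).filter (fun k => t < ff β m k)).card

lemma AA_anti (β m : ℕ) (t t' : ℤ) (h : t ≤ t') : AA β m t' ≤ AA β m t := by
  apply card_le_card
  intro k hk
  rw [mem_filter] at hk ⊢
  exact ⟨hk.1, by omega⟩

lemma AA_refl (β m : ℕ) (hβ : 1 ≤ β) (t : ℤ) : AA β m t + AA β m (-t - 1) = β ^ m := by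
  have h1 : AA β m (-t - 1) = ((range (β ^ m)).filter (fun k => ¬ t < ff β m k)).card := by
    unfold AA
    apply card_nbij' (fun k => β ^ m - 1 - k) (fun k => β ^ m - 1 - k)
    · intro k hk
      simp only [coe_filter, Set.mem_ofPred_eq, mem_range] at hk ⊢
      have := ff_refl β m 1 k hβ (by rw [one_mul]; exact hk.1)
      rw [one_mul] at this
      rw [this]
      refine ⟨by omega, by omega⟩
    · intro k hk
      simp only [coe_filter, Set.mem_ofPred_eq, mem_range] at hk ⊢
      have := ff_refl β m 1 k hβ (by rw [one_mul]; exact hk.1)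
      rw [one_mul] at this
      rw [this]
      refine ⟨by omega, by omega⟩
    · intro k hk
      simp only [coe_filter, Set.mem_ofPred_eq, mem_range] at hk
      show β ^ m - 1 - (β ^ m - 1 - k) = k
      omega
    · intro k hk
      simp only [coe_filter, Set.mem_ofPred_eq, mem_range] at hk
      show β ^ m - 1 - (β ^ m - 1 - k) = k
      omega
  rw [h1]
  unfold AA
  rw [card_filter_add_card_filter_not, card_range]

lemma AA_low (β m : ℕ) (t : ℤ) (ht : t < -m) : AA β m t = β ^ m := by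
  unfold AA
  rw [filter_true_of_mem, card_range]
  intro k _
  have := (abs_le.1 (ff_abs β m k)).1
  omega

/-- the quantiles -/
lemma quantile (β m : ℕ) (hβ : 1 ≤ β) : ∃ θ : ℝ → ℤ, ∀ α : ℝ, 0 ≤ α → α ≤ 1 →
    α * (β : ℝ) ^ m ≤ AA β m (θ α) ∧ -2 ≤ θ α + θ (1 - α) := by
  classical
  have h1 : ∀ α : ℝ, ∃ t : ℤ, 0 ≤ α → α ≤ 1 → (α * (β : ℝ) ^ m ≤ AA β m t ∧ -m - 1 ≤ t ∧ (t = m ∨ (AA β m (t + 1) : ℝ) < α * (β : ℝ) ^ m)) := by
    intro α
    by_cases hα : 0 ≤ α ∧ α ≤ 1
    · obtain ⟨S, hS⟩ : ∃ S : Finset ℤ, S = (Icc (-(m : ℤ) - 1) m).filter (fun t => α * (β : ℝ) ^ m ≤ AA β m t) := ⟨_, rfl⟩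
      have hne : S.Nonempty := by
        refine ⟨-(m : ℤ) - 1, ?_⟩
        rw [hS, mem_filter, mem_Icc]
        refine ⟨⟨le_rfl, by omega⟩, ?_⟩
        rw [AA_low β m _ (by omega)]
        push_cast
        have : 0 ≤ (β : ℝ) ^ m := by positivity
        nlinarith
      refine ⟨S.max' hne, fun _ _ => ?_⟩
      have h2 := S.max'_mem hne
      obtain ⟨t, ht⟩ : ∃ t, t = S.max' hne := ⟨_, rfl⟩
      rw [← ht] at h2 ⊢
      rw [hS, mem_filter, mem_Icc] at h2
      refine ⟨h2.2, h2.1.1, ?_⟩
      by_cases hm : t = m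
      · exact Or.inl hm
      · right
        by_contra hc
        have h3 : t + 1 ∈ S := by
          rw [hS, mem_filter, mem_Icc]
          exact ⟨⟨by omega, by omega⟩, not_lt.1 hc⟩
        have := S.le_max' _ h3
        omega
    · exact ⟨0, fun a b => absurd ⟨a, b⟩ hα⟩
  choose θ hθ using h1
  refine ⟨θ, fun α h0 h1 => ⟨(hθ α h0 h1).1, ?_⟩⟩
  obtain ⟨_, a2, a3⟩ := hθ α h0 h1
  obtain ⟨_, b2, b3⟩ := hθ (1 - α) (by linarith) (by linarith)
  rcases a3 with a3 | a3
  · omega
  · rcases b3 with b3 | b3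
    · omega
    · by_contra hc
      push Not at hc
      have h2 := AA_refl β m hβ (θ (1 - α) + 1)
      have h3 : ((AA β m (θ (1 - α) + 1) : ℝ) + AA β m (-(θ (1 - α) + 1) - 1)) = (β : ℝ) ^ m := by exact_mod_cast h2
      have h4 := AA_anti β m (θ α + 1) (-(θ (1 - α) + 1) - 1) (by omega)
      have h5 : (AA β m (-(θ (1 - α) + 1) - 1) : ℝ) ≤ AA β m (θ α + 1) := by exact_mod_cast h4
      linarith

end Pool.Agent.H86.NL
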