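import Pool.Agent.H86.N2

set_option autoImplicit false

/-! The cells. -/

namespace Pool.Agent.H86.NL
open Finset
open Pool.Agent.H86.DL (PS PS_add PS_pow PS_zero PS_mono)

lemma poly_exp (b : ℕ) (hb : 2 ≤ b) (K D : ℕ) (C : ℝ) : ∃ c : ℕ, 1 ≤ c ∧ C * ((c + D + 1 : ℕ) : ℝ) ^ K ≤ (b : ℝ) ^ c := by
  have hb1 : (1 : ℝ) < b := by exact_mod_cast (by omega : 1 < b)
  have h1 := tendsto_pow_const_div_const_pow_of_one_lt K hb1
  obtain ⟨C', hC', hC0⟩ : ∃ C' : ℝ, C ≤ C' ∧ 0 < C' := ⟨max C 1, le_max_left _ _, lt_max_of_lt_right one_pos⟩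
  have h2 := (h1.eventually_lt_const (show (0 : ℝ) < 1 / (C' * (b : ℝ) ^ (D + 1)) by positivity))
  obtain ⟨n0, hn0⟩ := Filter.eventually_atTop.1 h2
  have h3 := hn0 (n0 + 1 + D + 1) (by omega)
  refine ⟨n0 + 1, by omega, ?_⟩
  rw [div_lt_div_iff₀ (by positivity) (by positivity), one_mul] at h3
  have h4 : (b : ℝ) ^ (n0 + 1 + D + 1) = (b : ℝ) ^ (n0 + 1) * (b : ℝ) ^ (D + 1) := by rw [← pow_add, add_assoc (n0 + 1)]
  rw [h4] at h3
  have h5 : (0 : ℝ) < (b : ℝ) ^ (D + 1) := by positivity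
  have h6 : C' * ((n0 + 1 + D + 1 : ℕ) : ℝ) ^ K * (b : ℝ) ^ (D + 1) ≤ (b : ℝ) ^ (n0 + 1) * (b : ℝ) ^ (D + 1) := by
    refine le_trans (le_of_eq ?_) h3.le
    push_cast
    ring
  have h7 := le_of_mul_le_mul_right h6 h5
  refine le_trans (mul_le_mul_of_nonneg_right hC' (by positivity)) h7

lemma AA_step (β m : ℕ) (t : ℤ) : AA β m t = AA β m (t + 1) + ((range (β ^ m)).filter (fun k => ff β m k = t + 1)).card := by
  unfold AA
  rw [← card_union_of_disjoint]
  · congr 1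
    ext k
    rw [mem_union, mem_filter, mem_filter, mem_filter]
    constructor
    · rintro ⟨h1, h2⟩
      by_cases h : ff β m k = t + 1
      · exact Or.inr ⟨h1, h⟩
      · exact Or.inl ⟨h1, by omega⟩
    · rintro (⟨h1, h2⟩ | ⟨h1, h2⟩)
      · exact ⟨h1, by omega⟩
      · exact ⟨h1, by omega⟩
  · rw [disjoint_left]
    intro k hk hk'
    rw [mem_filter] at hk hk'
    omega

lemma AA_steps (β m : ℕ) (ε : ℝ) (hε : ∀ s : ℤ, (((range (β ^ m)).filter (fun k => ff β m k = s)).card : ℝ) ≤ ε * (β : ℝ) ^ m)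
    (t : ℤ) (n : ℕ) : (AA β m t : ℝ) - n * (ε * (β : ℝ) ^ m) ≤ AA β m (t + n) := by
  induction n with
  | zero => simp
  | succ n ih =>
    have h1 : (AA β m (t + n) : ℝ) = AA β m (t + n + 1) + (((range (β ^ m)).filter (fun k => ff β m k = t + n + 1)).card : ℝ) := by
      exact_mod_cast AA_step β m (t + n)
    have h2 := hε (t + n + 1)
    push_cast
    rw [← add_assoc]
    linarith

lemma block (β m r : ℕ) (hβ : 1 ≤ β) (T : ℤ) (j : ℕ) :
    AA β m (T + r) ≤ ((Ico (j * β ^ m) ((j + 1) * β ^ m)).filter (fun k => T < ff β (m + r) k)).card := by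
  unfold AA
  apply card_le_card_of_injOn (fun k => k + j * β ^ m)
  · intro k hk
    simp only [coe_filter, Set.mem_ofPred_eq, mem_range, mem_Ico] at hk ⊢
    have h1 : ff β (m + r) (k + j * β ^ m) = ff β m k + ff β r ((k + j * β ^ m) / β ^ m) := by
      rw [ff_split, ff_mod β m k j hβ]
    rw [h1]
    have h2 := (abs_le.1 (ff_abs β r ((k + j * β ^ m) / β ^ m))).1
    refine ⟨⟨by omega, ?_⟩, by omega⟩
    rw [add_mul, one_mul]
    omega
  · intro k _ k' _ h
    simp only at h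
    omega

lemma blocks (β m r : ℕ) (hβ : 1 ≤ β) (T : ℤ) (u n : ℕ) :
    n * AA β m (T + r) ≤ ((Ico (u * β ^ m) ((u + n) * β ^ m)).filter (fun k => T < ff β (m + r) k)).card := by
  induction n with
  | zero => simp
  | succ n ih =>
    have h1 : (Ico (u * β ^ m) ((u + (n + 1)) * β ^ m)).filter (fun k => T < ff β (m + r) k) =
        (Ico (u * β ^ m) ((u + n) * β ^ m)).filter (fun k => T < ff β (m + r) k) ∪
        (Ico ((u + n) * β ^ m) ((u + n + 1) * β ^ m)).filter (fun k => T < ff β (m + r) k) := by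
      rw [← filter_union, Ico_union_Ico_eq_Ico]
      · rfl
      · exact Nat.mul_le_mul_right _ (by omega)
      · exact Nat.mul_le_mul_right _ (by omega)
    rw [h1, card_union_of_disjoint]
    · have := block β m r hβ T (u + n)
      rw [Nat.succ_mul]
      exact Nat.add_le_add ih this
    · rw [disjoint_left]
      intro k hk hk'
      rw [mem_filter, mem_Ico] at hk hk'
      omega

/-- the sets of cells -/
lemma cells (b K D : ℕ) (hb : 2 ≤ b) (hD : 1 ≤ D) (η : ℝ) (hη : 0 < η) : ∃ (M k₀ : ℕ) (U : ℝ → Finset ℕ),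
    1 ≤ k₀ ∧ 1 / η ≤ (k₀ : ℝ) ∧ k₀ < D * b ^ M ∧
    (∀ α, ∀ k ∈ U α, k₀ ≤ k ∧ k < D * b ^ M) ∧
    (∀ α, 0 ≤ α → α ≤ 1 → ∀ k ∈ U α, ∀ k' ∈ U (1 - α), ∀ s r, PS b K s → r ≤ K + 2 → k + k' + s + r ≠ D * b ^ M) ∧
    (∀ α, ∀ k ∈ U α, ∀ k' < k₀, ∀ s r, PS b K s → r ≤ K + 2 → k + k' + s + r ≠ D * b ^ M) ∧
    (∀ k < k₀, ∀ k' < k₀, ∀ s r, PS b K s → r ≤ K + 2 → 0 < k + k' + r → k + k' + s + r ≠ D * b ^ M) ∧
    (∀ α, 0 ≤ α → α ≤ 1 → ∀ v, k₀ ≤ v → v ≤ D * b ^ M →
      α * ((v : ℝ) - k₀) - η * v ≤ (((U α).filter (fun k => k < v)).card : ℝ)) := by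
  classical
  have hb0 : (2 : ℝ) ≤ b := by exact_mod_cast hb
  have hβ4 : 4 ≤ b ^ 2 := by nlinarith
  obtain ⟨C₀, hC₀⟩ : ∃ C₀ : ℝ, C₀ = (2 * K + 4) * (K + 4) * (b : ℝ) ^ (K * K) := ⟨_, rfl⟩
  have hC₀0 : 0 < C₀ := by rw [hC₀]; positivity
  obtain ⟨c, hc1, hc⟩ := poly_exp b hb K D (2 / η * C₀ + C₀)
  obtain ⟨r₁, hr₁⟩ := pow_unbounded_of_one_lt (4 / η) (show (1 : ℝ) < b by linarith)
  obtain ⟨r, hr⟩ : ∃ r, r = c + r₁ := ⟨_, rfl⟩
  obtain ⟨n, hn⟩ : ∃ n, n = 3 * K + 4 + r := ⟨_, rfl⟩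
  obtain ⟨m₀, hm₀⟩ := spread (b ^ 2) hβ4 (η / (4 * (n + 1))) (by positivity)
  obtain ⟨m, hm⟩ : ∃ m, m = m₀ := ⟨_, rfl⟩
  have hsp := hm₀ m hm.ge
  obtain ⟨M, hM⟩ : ∃ M, M = 2 * (m + r) := ⟨_, rfl⟩
  obtain ⟨k₀, hk₀⟩ : ∃ k₀, k₀ = b ^ (M - c) := ⟨_, rfl⟩
  obtain ⟨θ, hθ⟩ := quantile (b ^ 2) m (by omega)
  have hMc : M - c + c = M := by omega
  have hbM : b ^ M = k₀ * b ^ c := by rw [hk₀, ← pow_add, hMc]
  have hMβ : b ^ M = (b ^ 2) ^ (m + r) := by rw [← pow_mul, hM]
  have hk1 : 1 ≤ k₀ := by rw [hk₀]; exact Nat.pow_pos (by omega)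
  obtain ⟨B, hB⟩ : ∃ B, B = (b ^ 2) ^ m := ⟨_, rfl⟩
  have hB1 : 1 ≤ B := by rw [hB]; exact Nat.pow_pos (by omega)
  have hk₀B : k₀ = b ^ (2 * r - c) * B := by
    rw [hk₀, hB, ← pow_mul, ← pow_add]
    congr 1
    omega
  have hu : 4 / η ≤ ((b ^ (2 * r - c) : ℕ) : ℝ) := by
    push_cast
    exact hr₁.le.trans (pow_le_pow_right₀ (by linarith) (by omega))
  have hb_c : (1 : ℝ) ≤ ((c + D + 1 : ℕ) : ℝ) ^ K := by
    apply one_le_pow₀
    exact_mod_cast (by omega : 1 ≤ c + D + 1)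
  have hcC : C₀ ≤ (b : ℝ) ^ c := by
    refine le_trans ?_ hc
    have h1 : 0 ≤ 2 / η * C₀ := by positivity
    nlinarith
  have hgap : (K + 3) * b ^ (K * K) < b ^ c := by
    have h1 : ((K : ℝ) + 3) * (b : ℝ) ^ (K * K) < (b : ℝ) ^ c := by
      refine lt_of_lt_of_le ?_ hcC
      rw [hC₀]
      apply mul_lt_mul_of_pos_right _ (by positivity)
      have : (0 : ℝ) ≤ K := Nat.cast_nonneg K
      nlinarith
    exact_mod_cast h1
  obtain ⟨Rem, hRem⟩ : ∃ Rem : ℕ → Prop, Rem = fun k => ∃ k' < k₀, ∃ s r, PS b K s ∧ r ≤ K + 2 ∧ k + k' + s + r = D * b ^ M := ⟨_, rfl⟩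
  refine ⟨M, k₀, fun α => (Ico k₀ (D * b ^ M)).filter (fun k => θ α + (3 * K + 4) < ff (b ^ 2) (m + r) k ∧ ¬ Rem k),
    hk1, ?_, ?_, ?_, ?_, ?_, ?_, ?_⟩
  · have h1 : b ^ (2 * r - c) ≤ k₀ := by rw [hk₀B]; exact Nat.le_mul_of_pos_right _ hB1
    have h2 : ((b ^ (2 * r - c) : ℕ) : ℝ) ≤ k₀ := by exact_mod_cast h1
    have h3 : 1 / η ≤ 4 / η := div_le_div_of_nonneg_right (by norm_num) hη.le
    linarith
  · have h1 : 2 ≤ b ^ c := by
      calc 2 ≤ b ^ 1 := by simpa using hb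
        _ ≤ b ^ c := Nat.pow_le_pow_right (by omega) hc1
    have h2 : b ^ M ≤ D * b ^ M := Nat.le_mul_of_pos_left _ hD
    rw [hbM] at h2 ⊢
    nlinarith
  · intro α k hk
    rw [mem_filter, mem_Ico] at hk
    exact hk.1
  · intro α h0 h1 k hk k' hk' s r' hs hr' heq
    rw [mem_filter, mem_Ico] at hk hk'
    have h2 := (hθ α h0 h1).2
    have h3 := ff_pair b (m + r) K D k k' s r' hb hs hr' (by rw [← hMβ]; exact hk'.1.2) (by rw [← hMβ]; exact heq)
    omega
  · intro α k hk k' hk' s r' hs hr' heq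
    rw [mem_filter, mem_Ico] at hk
    apply hk.2.2
    rw [hRem]
    exact ⟨k', hk', s, r', hs, hr', heq⟩
  · intro k hk k' hk' s r' hs hr' hpos heq
    have h1 := gap b hb K M (k + k' + r') s hs (by rw [show k + k' + r' + s = k + k' + s + r' by ring, heq]; exact Dvd.intro_left _ rfl) hpos
    have h2 : k + k' + r' ≤ (K + 2) * k₀ := by nlinarith
    have h3 : k₀ * b ^ c ≤ k₀ * ((K + 2) * b ^ (K * K)) := by
      rw [← hbM]
      refine h1.trans ?_
      calc (k + k' + r') * b ^ (K * K) ≤ (K + 2) * k₀ * b ^ (K * K) := Nat.mul_le_mul_right _ h2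
        _ = _ := by ring
    have h4 := Nat.le_of_mul_le_mul_left h3 hk1
    have h5 : (K + 2) * b ^ (K * K) ≤ (K + 3) * b ^ (K * K) := Nat.mul_le_mul_right _ (by omega)
    omega
  · intro α h0 h1 v hv hvD
    -- the main count
    obtain ⟨G, hG⟩ : ∃ G : Finset ℕ, G = (Ico k₀ v).filter (fun k => θ α + (3 * K + 4) < ff (b ^ 2) (m + r) k) := ⟨_, rfl⟩
    obtain ⟨R, hR⟩ : ∃ R : Finset ℕ, R = (Ico k₀ v).filter Rem := ⟨_, rfl⟩
    have hsub : G \ R ⊆ ((Ico k₀ (D * b ^ M)).filter (fun k => θ α + (3 * K + 4) < ff (b ^ 2) (m + r) k ∧ ¬ Rem k)).filter (fun k => k < v) := by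
      intro k hk
      rw [mem_sdiff, hG, hR, mem_filter, mem_filter, mem_Ico] at hk
      rw [mem_filter, mem_filter, mem_Ico]
      refine ⟨⟨⟨hk.1.1.1, by omega⟩, hk.1.2, fun h => hk.2 ⟨hk.1.1, h⟩⟩, hk.1.1.2⟩
    have hcard : (G.card : ℝ) - R.card ≤ ((((Ico k₀ (D * b ^ M)).filter (fun k => θ α + (3 * K + 4) < ff (b ^ 2) (m + r) k ∧ ¬ Rem k)).filter (fun k => k < v)).card : ℝ) := by
      have e1 := card_le_card hsub
      have e2 := card_le_card_sdiff_add_card (s := G) (t := R)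
      have e3 : (G.card : ℝ) ≤ ((G \ R).card : ℝ) + R.card := by exact_mod_cast (by omega : G.card ≤ (G \ R).card + R.card)
      have e4 : ((G \ R).card : ℝ) ≤ ((((Ico k₀ (D * b ^ M)).filter (fun k => θ α + (3 * K + 4) < ff (b ^ 2) (m + r) k ∧ ¬ Rem k)).filter (fun k => k < v)).card : ℝ) := by
        exact_mod_cast e1
      linarith
    have hv0 : (0 : ℝ) ≤ v := Nat.cast_nonneg v
    -- the removed cells
    have hRc : (R.card : ℝ) ≤ η / 2 * v := by
      by_cases hRe : R = ∅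
      · rw [hRe, card_empty, Nat.cast_zero]
        positivity
      · obtain ⟨k, hk⟩ := nonempty_iff_ne_empty.2 hRe
        have hkk := hk
        rw [hR, mem_filter, mem_Ico, hRem] at hk
        obtain ⟨⟨hk1', hk2'⟩, k', hk', s, r', hs, hr', heq⟩ := hk
        have e1 := gap b hb K M (k + k' + r') s hs (by rw [show k + k' + r' + s = k + k' + s + r' by ring, heq]; exact Dvd.intro_left _ rfl) (by omega)
        have e2 : k + k' + r' ≤ (K + 4) * v := by nlinarith
        have e3 : k₀ * b ^ c ≤ (K + 4) * v * b ^ (K * K) := by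
          rw [← hbM]
          exact e1.trans (Nat.mul_le_mul_right _ e2)
        have e4 : R ⊆ (TT b (c + D) K ×ˢ range ((K + 1) * k₀ + K + 2)).image (fun p => D * b ^ M - k₀ * p.1 - p.2) := by
          intro x hx
          rw [hR, mem_filter, mem_Ico, hRem] at hx
          obtain ⟨⟨hx1', hx2'⟩, x', hx', s', t', hs', ht', heq'⟩ := hx
          obtain ⟨s₁, s₀, g1, g2, g3⟩ := PS_cut b K (M - c) s' hb hs'
          rw [← hk₀] at g1 g3
          rw [mem_image]
          refine ⟨(s₁, s₀ + x' + t'), mem_product.2 ⟨?_, ?_⟩, ?_⟩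
          · apply mem_TT b _ K s₁ hb g2
            have g4 : k₀ * s₁ ≤ k₀ * (D * b ^ c) := by
              calc k₀ * s₁ ≤ D * b ^ M := by omega
                _ = _ := by rw [hbM]; ring
            have g5 := Nat.le_of_mul_le_mul_left g4 hk1
            have g6 : D < b ^ D := Nat.lt_pow_self (by omega)
            calc s₁ ≤ D * b ^ c := g5
              _ < b ^ D * b ^ c := Nat.mul_lt_mul_of_pos_right g6 (Nat.pow_pos (by omega))
              _ = b ^ (c + D) := by rw [← pow_add, add_comm]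
          · rw [mem_range]
            have : (K + 1) * k₀ = K * k₀ + k₀ := by ring
            simp only
            omega
          · simp only
            omega
        have e5 : R.card ≤ (c + D + 1) ^ K * ((K + 1) * k₀ + K + 2) := by
          refine (card_le_card e4).trans (card_image_le.trans ?_)
          rw [card_product, card_range]
          exact Nat.mul_le_mul_right _ (card_TT b (c + D) K)
        have e6 : R.card ≤ (c + D + 1) ^ K * ((2 * K + 4) * k₀) := e5.trans (Nat.mul_le_mul_left _ (by nlinarith))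
        have e7 : (R.card : ℝ) ≤ ((c + D + 1 : ℕ) : ℝ) ^ K * ((2 * K + 4) * k₀) := by exact_mod_cast e6
        have e8 : (k₀ : ℝ) * (b : ℝ) ^ c ≤ (K + 4) * v * (b : ℝ) ^ (K * K) := by exact_mod_cast e3
        have hbc0 : (0 : ℝ) < (b : ℝ) ^ c := by positivity
        have e9 : (R.card : ℝ) * (b : ℝ) ^ c ≤ η / 2 * v * (b : ℝ) ^ c := by
          obtain ⟨W, hW⟩ : ∃ W : ℝ, W = ((c + D + 1 : ℕ) : ℝ) ^ K := ⟨_, rfl⟩
          rw [← hW] at e7 hc hb_c
          have f1 : (R.card : ℝ) * (b : ℝ) ^ c ≤ W * ((2 * K + 4) * ((K + 4) * v * (b : ℝ) ^ (K * K))) := by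
            calc (R.card : ℝ) * (b : ℝ) ^ c ≤ W * ((2 * K + 4) * k₀) * (b : ℝ) ^ c := mul_le_mul_of_nonneg_right e7 hbc0.le
              _ = W * ((2 * K + 4) * (k₀ * (b : ℝ) ^ c)) := by ring
              _ ≤ _ := by
                apply mul_le_mul_of_nonneg_left _ (by linarith)
                exact mul_le_mul_of_nonneg_left e8 (by positivity)
          have f2 : W * ((2 * K + 4) * ((K + 4) * v * (b : ℝ) ^ (K * K))) = η / 2 * v * (2 / η * C₀ * W) := by
            rw [hC₀]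
            field_simp
          rw [f2] at f1
          refine f1.trans ?_
          apply mul_le_mul_of_nonneg_left _ (by positivity)
          refine le_trans ?_ hc
          have : 0 ≤ C₀ * W := by nlinarith
          linarith
        exact le_of_mul_le_mul_right e9 hbc0
    -- the blocks
    have hGc : α * ((v : ℝ) - k₀) - η / 2 * v ≤ G.card := by
      obtain ⟨u', hu'⟩ : ∃ u', u' = b ^ (2 * r - c) := ⟨_, rfl⟩
      obtain ⟨v', hv'⟩ : ∃ v', v' = v / B := ⟨_, rfl⟩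
      rw [← hu'] at hk₀B hu
      have e1 : u' ≤ v' := by
        rw [hv', Nat.le_div_iff_mul_le hB1, ← hk₀B]
        exact hv
      obtain ⟨n', hn'⟩ : ∃ n', v' = u' + n' := ⟨v' - u', by omega⟩
      have e2 : v' * B ≤ v := by rw [hv']; exact Nat.div_mul_le_self v B
      have e3 : v < v' * B + B := by
        rw [hv']
        have := Nat.lt_div_mul_add hB1 (a := v)
        exact this
      have e4 := blocks (b ^ 2) m r (by omega) (θ α + (3 * K + 4)) u' n'
      rw [← hB, ← hn', ← hk₀B] at e4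
      have e5 : (Ico k₀ (v' * B)).filter (fun k => θ α + (3 * K + 4) < ff (b ^ 2) (m + r) k) ⊆ G := by
        rw [hG]
        apply filter_subset_filter
        exact Ico_subset_Ico le_rfl e2
      have e6 : (n' : ℝ) * AA (b ^ 2) m (θ α + (3 * K + 4) + r) ≤ G.card := by exact_mod_cast e4.trans (card_le_card e5)
      have e7 := AA_steps (b ^ 2) m (η / (4 * (n + 1))) hsp (θ α) n
      have e8 : θ α + (3 * K + 4) + (r : ℤ) = θ α + n := by rw [hn]; push_cast; ring
      rw [e8] at e6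
      have e9 := (hθ α h0 h1).1
      have hBr : (((b ^ 2 : ℕ) : ℝ)) ^ m = (B : ℝ) := by rw [hB]; push_cast; ring
      rw [hBr] at e7 e9
      have hB0 : (0 : ℝ) < B := by exact_mod_cast hB1
      have e10 : (n : ℝ) * (η / (4 * (n + 1)) * B) ≤ η / 4 * B := by
        have : (n : ℝ) * (η / (4 * (n + 1)) * B) = η / 4 * B * (n / (n + 1)) := by
          have : (n : ℝ) + 1 ≠ 0 := by positivity
          field_simp
        rw [this]
        have h2 : (n : ℝ) / (n + 1) ≤ 1 := by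
          rw [div_le_one (by positivity)]
          linarith
        have h3 : 0 ≤ η / 4 * B := by positivity
        nlinarith
      have e11 : (α - η / 4) * B ≤ AA (b ^ 2) m (θ α + n) := by linarith
      have e12 : (n' : ℝ) * ((α - η / 4) * B) ≤ G.card := (mul_le_mul_of_nonneg_left e11 (Nat.cast_nonneg _)).trans e6
      have e13 : (n' : ℝ) * B ≤ v := by
        have : n' * B ≤ v := (Nat.mul_le_mul_right B (by omega : n' ≤ v')).trans e2
        exact_mod_cast this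
      have e14 : (v : ℝ) - B - k₀ ≤ n' * B := by
        have : v ≤ n' * B + B + k₀ := by
          rw [hk₀B]
          have : v' * B = u' * B + n' * B := by rw [hn']; ring
          omega
        have h2 : (v : ℝ) ≤ n' * B + B + k₀ := by exact_mod_cast this
        linarith
      have e15 : (B : ℝ) ≤ η / 4 * v := by
        have h2 : (4 / η) * B ≤ (u' : ℝ) * B := mul_le_mul_of_nonneg_right hu hB0.le
        have h3 : (u' : ℝ) * B = k₀ := by rw [hk₀B]; push_cast; ring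
        have h4 : (k₀ : ℝ) ≤ v := by exact_mod_cast hv
        have h5 : (B : ℝ) = η / 4 * ((4 / η) * B) := by field_simp
        rw [h5]
        apply mul_le_mul_of_nonneg_left _ (by positivity)
        linarith
      have e16 : α * ((v : ℝ) - B - k₀) ≤ α * (n' * B) := mul_le_mul_of_nonneg_left e14 h0
      have e17 : α * B ≤ B := by nlinarith
      have e18 : η / 4 * (n' * B) ≤ η / 4 * v := mul_le_mul_of_nonneg_left e13 (by positivity)
      linarith
    linarith

end Pool.Agent.H86.NL
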