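import Pool.Agent.H86.N3
import Pool.Agent.H86.L10

set_option autoImplicit false

/-! Primes in cells. -/

namespace Pool.Agent.H86.NL
open Finset
open Pool.Agent.H86.DL (PS PS_add PS_pow PS_zero PS_mono pnt_pi)

/-- primes below `x` -/
lemma pc_card (x : ℕ) : Nat.primeCounting' x = ((range x).filter Nat.Prime).card := by
  rw [Nat.primeCounting', Nat.count_eq_card_filter_range]

lemma pc_Ico (u v : ℕ) (h : u ≤ v) : (((Ico u v).filter Nat.Prime).card : ℝ) = (Nat.primeCounting' v : ℝ) - Nat.primeCounting' u := by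
  have h1 : (range v).filter Nat.Prime = (range u).filter Nat.Prime ∪ (Ico u v).filter Nat.Prime := by
    rw [← filter_union]
    congr 1
    ext x
    rw [mem_union, mem_range, mem_range, mem_Ico]
    omega
  have h2 : Disjoint ((range u).filter Nat.Prime) ((Ico u v).filter Nat.Prime) := by
    rw [disjoint_left]
    intro x hx hx'
    rw [mem_filter, mem_range] at hx
    rw [mem_filter, mem_Ico] at hx'
    omega
  rw [pc_card, pc_card, h1, card_union_of_disjoint h2]
  push_cast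
  ring

lemma pc_succ (n : ℕ) : Nat.primeCounting' n ≤ Nat.primeCounting n ∧ Nat.primeCounting n ≤ Nat.primeCounting' n + 1 := by
  unfold Nat.primeCounting
  rw [pc_card, pc_card, range_add_one, filter_insert]
  split_ifs
  · rw [card_insert_of_notMem (by rw [mem_filter, mem_range]; omega)]
    omega
  · omega

/-- the prime number theorem for the cells -/
lemma pnt_cells (b E : ℕ) (hb : 2 ≤ b) (δ : ℝ) (hδ : 0 < δ) : ∃ l₀ : ℕ, ∀ l, l₀ ≤ l → ∃ w : ℝ, 0 < w ∧ 1 / δ ≤ w ∧
    ∀ k ≤ E, |(Nat.primeCounting' (k * b ^ l) : ℝ) - k * w| ≤ δ * w := by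
  have hb0 : (2 : ℝ) ≤ b := by exact_mod_cast hb
  have hE0 : (0 : ℝ) < E + 1 := by positivity
  obtain ⟨ε, hε⟩ : ∃ ε : ℝ, ε = min (δ / (8 * (E + 1))) (1 / 2) := ⟨_, rfl⟩
  have hε0 : 0 < ε := by rw [hε]; positivity
  have hε1 : ε ≤ 1 / 2 := by rw [hε]; exact min_le_right _ _
  have hε2 : ε * (E + 1) ≤ δ / 8 := by
    have : ε ≤ δ / (8 * (E + 1)) := by rw [hε]; exact min_le_left _ _
    calc ε * (E + 1) ≤ δ / (8 * (E + 1)) * (E + 1) := mul_le_mul_of_nonneg_right this hE0.le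
      _ = δ / 8 := by field_simp
  obtain ⟨n₀, hn₀⟩ := pnt_pi ε hε0
  have hlog2 : 0 < Real.log 2 := Real.log_pos (by norm_num)
  -- l large
  obtain ⟨l1, hl1⟩ := exists_nat_ge (Real.log (E + 1) / (ε * Real.log 2) + n₀ + 1)
  have htend : Filter.Tendsto (fun l : ℕ => (b : ℝ) ^ l / ((l : ℝ) * Real.log b + Real.log (E + 1))) Filter.atTop Filter.atTop := by
    have h1 : Filter.Tendsto (fun l : ℕ => ((l : ℝ) * Real.log b + Real.log (E + 1)) / (b : ℝ) ^ l) Filter.atTop (nhds 0) := by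
      have e1 := (tendsto_pow_const_div_const_pow_of_one_lt 1 (show (1 : ℝ) < b by linarith)).mul_const (Real.log b)
      have e2 := (tendsto_pow_const_div_const_pow_of_one_lt 0 (show (1 : ℝ) < b by linarith)).mul_const (Real.log (E + 1))
      have e3 := e1.add e2
      rw [zero_mul, zero_mul, add_zero] at e3
      refine e3.congr (fun l => ?_)
      rw [pow_one, pow_zero]
      ring
    have h2 : ∀ᶠ l : ℕ in Filter.atTop, 0 < ((l : ℝ) * Real.log b + Real.log (E + 1)) / (b : ℝ) ^ l := by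
      filter_upwards [Filter.eventually_ge_atTop 1] with l hl
      have : 0 < Real.log b := Real.log_pos (by linarith)
      have h3 : 0 ≤ Real.log (E + 1) := Real.log_nonneg (by have : (0 : ℝ) ≤ E := Nat.cast_nonneg _; linarith)
      have h4 : (1 : ℝ) ≤ l := by exact_mod_cast hl
      positivity
    have h3 := (tendsto_nhdsWithin_iff.2 ⟨h1, h2⟩).inv_tendsto_nhdsGT_zero
    refine h3.congr (fun l => ?_)
    simp only [Pi.inv_apply]
    rw [inv_div]
  obtain ⟨l2, hl2⟩ := Filter.eventually_atTop.1 (htend.eventually_ge_atTop (2 / δ + 1 / δ))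
  refine ⟨l1 + l2 + 1, fun l hl => ?_⟩
  have hlb : 0 < Real.log b := Real.log_pos (by linarith)
  have hl0 : (1 : ℝ) ≤ l := by exact_mod_cast (by omega : 1 ≤ l)
  have hLE : 0 ≤ Real.log (E + 1) := Real.log_nonneg (by have : (0 : ℝ) ≤ E := Nat.cast_nonneg _; linarith)
  obtain ⟨Λ, hΛ⟩ : ∃ Λ : ℝ, Λ = (l : ℝ) * Real.log b + Real.log (E + 1) := ⟨_, rfl⟩
  have hΛ0 : 0 < Λ := by rw [hΛ]; positivity
  obtain ⟨w, hw⟩ : ∃ w : ℝ, w = (b : ℝ) ^ l / Λ := ⟨_, rfl⟩
  have hw0 : 0 < w := by rw [hw]; positivity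
  have hwδ : 2 / δ + 1 / δ ≤ w := by rw [hw, hΛ]; exact hl2 l (by omega)
  have h2δ : 0 ≤ 2 / δ := by positivity
  have h1δ : 0 ≤ 1 / δ := by positivity
  refine ⟨w, hw0, by linarith, fun k hk => ?_⟩
  rcases Nat.eq_zero_or_pos k with hk0 | hk0
  · rw [hk0]
    have : Nat.primeCounting' (0 * b ^ l) = 0 := by rw [pc_card]; simp
    rw [this]
    simp
    positivity
  · obtain ⟨n, hn⟩ : ∃ n, n = k * b ^ l := ⟨_, rfl⟩
    rw [← hn]
    have hll : l < b ^ l := Nat.lt_pow_self (by omega)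
    have hbn : b ^ l ≤ n := by rw [hn]; exact Nat.le_mul_of_pos_left _ hk0
    have hl1' : Real.log (E + 1) / (ε * Real.log 2) + n₀ + 1 ≤ l := by
      have : (l1 : ℝ) ≤ l := by exact_mod_cast (by omega : l1 ≤ l)
      linarith
    have hnn₀ : n₀ ≤ n := by
      have h1 : (n₀ : ℝ) ≤ l := by
        have : 0 ≤ Real.log (E + 1) / (ε * Real.log 2) := by positivity
        linarith
      have h2 : n₀ ≤ l := by exact_mod_cast h1
      omega
    obtain ⟨g1, g2⟩ := hn₀ n hnn₀
    have hnr : (n : ℝ) = k * (b : ℝ) ^ l := by rw [hn]; push_cast; ring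
    have hlogn : Real.log n = Real.log k + l * Real.log b := by
      rw [hnr, Real.log_mul (by positivity) (by positivity), Real.log_pow]
    have hk1 : (1 : ℝ) ≤ k := by exact_mod_cast hk0
    have hkE : (k : ℝ) ≤ E := by exact_mod_cast hk
    have hlk0 : 0 ≤ Real.log k := Real.log_nonneg hk1
    have hlkE : Real.log k ≤ Real.log (E + 1) := Real.log_le_log (by linarith) (by linarith)
    have hlognΛ : Real.log n ≤ Λ := by rw [hlogn, hΛ]; linarith
    have hΛlogn : (1 - ε) * Λ ≤ Real.log n := by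
      have h1 : Real.log (E + 1) ≤ ε * (l * Real.log b) := by
        have h2 : Real.log (E + 1) / (ε * Real.log 2) ≤ l := by
          have : (0 : ℝ) ≤ n₀ := Nat.cast_nonneg _
          linarith
        rw [div_le_iff₀ (by positivity)] at h2
        have h3 : Real.log 2 ≤ Real.log b := Real.log_le_log (by norm_num) hb0
        calc Real.log (E + 1) ≤ l * (ε * Real.log 2) := h2
          _ ≤ l * (ε * Real.log b) := by
            apply mul_le_mul_of_nonneg_left _ (by linarith)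
            exact mul_le_mul_of_nonneg_left h3 hε0.le
          _ = _ := by ring
      rw [hlogn, hΛ]
      nlinarith
    obtain ⟨s1, s2⟩ := pc_succ n
    have s1' : (Nat.primeCounting' n : ℝ) ≤ Nat.primeCounting n := by exact_mod_cast s1
    have s2' : (Nat.primeCounting n : ℝ) ≤ Nat.primeCounting' n + 1 := by exact_mod_cast s2
    have hbw : (b : ℝ) ^ l = w * Λ := by rw [hw]; field_simp
    have hkw : 0 ≤ k * w := by positivity
    have hεk : ε * (k * w) ≤ δ / 8 * w := by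
      have : ε * k ≤ δ / 8 := by nlinarith
      nlinarith
    rw [abs_le]
    constructor
    · -- lower bound
      have e1 : (1 - ε) * n ≤ Nat.primeCounting n * Λ := g2.trans (mul_le_mul_of_nonneg_left hlognΛ (Nat.cast_nonneg _))
      rw [hnr, hbw] at e1
      have e2 : (1 - ε) * (k * w) * Λ ≤ Nat.primeCounting n * Λ := by linarith
      have e3 := le_of_mul_le_mul_right e2 hΛ0
      have e4 : 1 ≤ δ / 2 * w := by
        have : 2 / δ ≤ w := by linarith
        rw [div_le_iff₀ hδ] at this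
        linarith
      linarith
    · have e1 : (Nat.primeCounting n : ℝ) * ((1 - ε) * Λ) ≤ (1 + ε) * n := (mul_le_mul_of_nonneg_left hΛlogn (Nat.cast_nonneg _)).trans g1
      rw [hnr, hbw] at e1
      have e2 : Nat.primeCounting n * (1 - ε) * Λ ≤ (1 + ε) * (k * w) * Λ := by linarith
      have e3 := le_of_mul_le_mul_right e2 hΛ0
      have e40 : 1 + ε ≤ (1 - ε) * (1 + 4 * ε) := by nlinarith
      have e4 : (1 + ε) * (k * w) ≤ (1 - ε) * ((1 + 4 * ε) * (k * w)) := by
        have := mul_le_mul_of_nonneg_right e40 hkw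
        linarith
      have e5 : Nat.primeCounting n * (1 - ε) ≤ ((1 + 4 * ε) * (k * w)) * (1 - ε) := by linarith
      have e6 := le_of_mul_le_mul_right e5 (by linarith)
      have e7 : 0 ≤ δ * w := by positivity
      linarith

/-- one stage of the construction -/
lemma stage (b K D : ℕ) (hb : 2 ≤ b) (hD : 1 ≤ D) (η : ℝ) (hη : 0 < η) (E : ℕ) : ∃ (A N : ℕ) (S : ℝ → Set ℕ),
    E ≤ A ∧ A < N ∧ D ∣ N ∧ (∀ α, ∀ p ∈ S α, A ≤ p ∧ p < N) ∧
    (∀ α, 0 ≤ α → α ≤ 1 → ∀ p ∈ S α, ∀ q ∈ S (1 - α), ∀ s, PS b K s → p + q + s ≠ N) ∧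
    (∀ α, ∀ p ∈ S α, ∀ q < A, ∀ s, PS b K s → p + q + s ≠ N) ∧
    (∀ p < A, ∀ q < A, 0 < p → ∀ s, PS b K s → p + q + s ≠ N) ∧
    (∀ α, 0 ≤ α → α ≤ 1 → ∀ x, A ≤ x → x ≤ N → ∀ V : Finset ℕ, (∀ p, p ∈ V ↔ p < x ∧ p.Prime ∧ p ∈ S α) →
      α * ((Nat.primeCounting' x : ℝ) - Nat.primeCounting' A) - η * Nat.primeCounting' x ≤ V.card) := by
  classical
  obtain ⟨M, k₀, U, hk1, hkη, hkN, hU, hUU, hUs, hss, hcnt⟩ := cells b K D hb hD (η / 4) (by positivity)
  obtain ⟨δ, hδ⟩ : ∃ δ : ℝ, δ = min (η / 16) (1 / 16) := ⟨_, rfl⟩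
  have hδ0 : 0 < δ := by rw [hδ]; positivity
  have hδ1 : δ ≤ 1 / 16 := by rw [hδ]; exact min_le_right _ _
  have hδη : δ ≤ η / 16 := by rw [hδ]; exact min_le_left _ _
  obtain ⟨l₀, hl₀⟩ := pnt_cells b (D * b ^ M + 1) hb δ hδ0
  obtain ⟨l, hl⟩ : ∃ l, l = l₀ + E := ⟨_, rfl⟩
  obtain ⟨w, hw0, -, hw⟩ := hl₀ l (by omega)
  obtain ⟨B, hB⟩ : ∃ B, B = b ^ l := ⟨_, rfl⟩
  have hB1 : 1 ≤ B := by rw [hB]; exact Nat.pow_pos (by omega)
  have hBE : E ≤ B := by
    have : l < b ^ l := Nat.lt_pow_self (by omega)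
    omega
  have hN : D * b ^ (l + M) = D * b ^ M * B := by rw [hB, pow_add]; ring
  refine ⟨k₀ * B, D * b ^ M * B, fun α => {p | p / B ∈ U α}, ?_, ?_, ?_, ?_, ?_, ?_, ?_, ?_⟩
  · nlinarith
  · exact Nat.mul_lt_mul_of_pos_right hkN hB1
  · exact ⟨b ^ M * B, by ring⟩
  · intro α p hp
    have := hU α _ hp
    exact ⟨(Nat.le_div_iff_mul_le hB1).1 this.1, (Nat.div_lt_iff_lt_mul hB1).1 this.2⟩
  · intro α h0 h1 p hp q hq s hs heq
    obtain ⟨s₁, r, g1, g2, g3, g4⟩ := cell_rep b K D l M p q s hb hs (by rw [heq, hN])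
    rw [← hB] at g3
    exact hUU α h0 h1 _ hp _ hq s₁ r g1 g2 g3
  · intro α p hp q hq s hs heq
    obtain ⟨s₁, r, g1, g2, g3, g4⟩ := cell_rep b K D l M p q s hb hs (by rw [heq, hN])
    rw [← hB] at g3
    exact hUs α _ hp (q / B) ((Nat.div_lt_iff_lt_mul hB1).2 hq) s₁ r g1 g2 g3
  · intro p hp q hq hp0 s hs heq
    obtain ⟨s₁, r, g1, g2, g3, g4⟩ := cell_rep b K D l M p q s hb hs (by rw [heq, hN])
    rw [← hB] at g3 g4
    exact hss (p / B) ((Nat.div_lt_iff_lt_mul hB1).2 hp) (q / B) ((Nat.div_lt_iff_lt_mul hB1).2 hq) s₁ r g1 g2 (g4 hp0) g3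
  · intro α h0 h1 x hAx hxN V hV
    obtain ⟨v, hv⟩ : ∃ v, v = x / B := ⟨_, rfl⟩
    have hkv : k₀ ≤ v := by rw [hv, Nat.le_div_iff_mul_le hB1]; exact hAx
    have hvD : v ≤ D * b ^ M := by
      rw [hv]
      calc x / B ≤ (D * b ^ M * B) / B := Nat.div_le_div_right hxN
        _ = D * b ^ M := Nat.mul_div_cancel _ hB1
    have hvx : v * B ≤ x := by rw [hv]; exact Nat.div_mul_le_self x B
    have hxv : x ≤ (v + 1) * B := by
      rw [hv]
      have := Nat.lt_div_mul_add hB1 (a := x)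
      rw [add_mul, one_mul]
      omega
    have hc := hcnt α h0 h1 v hkv hvD
    obtain ⟨Uv, hUv⟩ : ∃ Uv, Uv = (U α).filter (fun k => k < v) := ⟨_, rfl⟩
    rw [← hUv] at hc
    rw [← hB] at hw
    -- primes in one cell
    have hcell : ∀ k ∈ Uv, (1 - 2 * δ) * w ≤ (((Ico (k * B) ((k + 1) * B)).filter Nat.Prime).card : ℝ) := by
      intro k hk
      rw [hUv, mem_filter] at hk
      rw [pc_Ico _ _ (Nat.mul_le_mul_right _ (by omega))]
      have e1 := hw k (by omega)
      have e2 := hw (k + 1) (by omega)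
      rw [abs_le] at e1 e2
      push_cast at e2
      linarith [e1.2, e2.1]
    have hVc : (Uv.card : ℝ) * ((1 - 2 * δ) * w) ≤ V.card := by
      have e1 : Uv.biUnion (fun k => (Ico (k * B) ((k + 1) * B)).filter Nat.Prime) ⊆ V := by
        intro p hp
        rw [mem_biUnion] at hp
        obtain ⟨k, hk, hp⟩ := hp
        rw [hUv, mem_filter] at hk
        rw [mem_filter, mem_Ico] at hp
        rw [hV]
        have hpk : p / B = k := by
          apply Nat.div_eq_of_lt_le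
          · exact hp.1.1
          · exact hp.1.2
        refine ⟨?_, hp.2, ?_⟩
        · calc p < (k + 1) * B := hp.1.2
            _ ≤ v * B := Nat.mul_le_mul_right _ (by omega)
            _ ≤ x := hvx
        · show p / B ∈ U α
          rw [hpk]
          exact hk.1
      have e2 : (Uv.biUnion (fun k => (Ico (k * B) ((k + 1) * B)).filter Nat.Prime)).card =
          ∑ k ∈ Uv, ((Ico (k * B) ((k + 1) * B)).filter Nat.Prime).card := by
        apply card_biUnion
        intro k _ k' _ hkk'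
        simp only [Function.onFun]
        rw [disjoint_left]
        intro p hp hp'
        rw [mem_filter, mem_Ico] at hp hp'
        apply hkk'
        have e3 : p / B = k := Nat.div_eq_of_lt_le hp.1.1 hp.1.2
        have e4 : p / B = k' := Nat.div_eq_of_lt_le hp'.1.1 hp'.1.2
        omega
      have e3 : ((∑ k ∈ Uv, ((Ico (k * B) ((k + 1) * B)).filter Nat.Prime).card : ℕ) : ℝ) ≤ V.card := by
        rw [← e2]
        exact_mod_cast card_le_card e1
      refine le_trans ?_ e3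
      push_cast
      rw [← nsmul_eq_mul, ← sum_const]
      exact sum_le_sum hcell
    have hv0 : (0 : ℝ) ≤ v := Nat.cast_nonneg v
    have hkv' : (k₀ : ℝ) ≤ v := by exact_mod_cast hkv
    have hv1 : (1 : ℝ) ≤ v := by exact_mod_cast hk1.trans hkv
    have hπx1 : (Nat.primeCounting' x : ℝ) ≤ (v + 1) * w + δ * w := by
      have e1 := (abs_le.1 (hw (v + 1) (by omega))).2
      have e2 : (Nat.primeCounting' x : ℝ) ≤ Nat.primeCounting' ((v + 1) * B) := by exact_mod_cast Nat.monotone_primeCounting' hxv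
      push_cast at e1
      linarith
    have hπx2 : v * w - δ * w ≤ (Nat.primeCounting' x : ℝ) := by
      have e1 := (abs_le.1 (hw v (by omega))).1
      have e2 : (Nat.primeCounting' (v * B) : ℝ) ≤ Nat.primeCounting' x := by exact_mod_cast Nat.monotone_primeCounting' hvx
      linarith
    have hπA : k₀ * w - δ * w ≤ (Nat.primeCounting' (k₀ * B) : ℝ) := by
      have e1 := (abs_le.1 (hw k₀ (by omega))).1
      linarith
    have hηv : 1 ≤ η / 4 * v := by
      have e1 : 1 / (η / 4) ≤ (v : ℝ) := hkη.trans hkv'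
      rw [div_le_iff₀ (by positivity)] at e1
      linarith
    have hc2 : (α * ((v : ℝ) - k₀) - η / 4 * v) * ((1 - 2 * δ) * w) ≤ V.card := by
      refine le_trans (mul_le_mul_of_nonneg_right hc ?_) hVc
      have : 0 ≤ 1 - 2 * δ := by linarith
      positivity
    refine le_trans ?_ hc2
    have f1 : α * ((Nat.primeCounting' x : ℝ) - Nat.primeCounting' (k₀ * B)) ≤ α * ((v - k₀ + 1 + 2 * δ) * w) :=
      mul_le_mul_of_nonneg_left (by linarith) h0
    have f2 : η * (v * w - δ * w) ≤ η * (Nat.primeCounting' x : ℝ) := mul_le_mul_of_nonneg_left hπx2 hη.le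
    have f3 : α * ((v - k₀ + 1 + 2 * δ) * w) = (α * (v - k₀) + α * (1 + 2 * δ)) * w := by ring
    have f4 : α * (1 + 2 * δ) ≤ 1 + 2 * δ := by nlinarith
    have f5 : α * ((v : ℝ) - k₀) * (2 * δ) ≤ 2 * δ * v := by
      have : α * ((v : ℝ) - k₀) ≤ v := by nlinarith
      nlinarith
    have f6 : α * ((v : ℝ) - k₀) + (1 + 2 * δ) - η * (v - δ) ≤ (α * ((v : ℝ) - k₀) - η / 4 * v) * (1 - 2 * δ) := by
      have g1 : (α * ((v : ℝ) - k₀) - η / 4 * v) * (1 - 2 * δ) = α * ((v : ℝ) - k₀) - α * ((v : ℝ) - k₀) * (2 * δ) - η / 4 * v + η / 4 * v * (2 * δ) := by ring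
      have g2 : 0 ≤ η / 4 * v * (2 * δ) := by positivity
      have g3 : 2 * δ * v ≤ η / 8 * v := by nlinarith
      have g4 : 2 * δ ≤ η / 8 * v := by nlinarith
      have g5 : η * δ ≤ η / 16 * v := by nlinarith
      rw [g1]
      nlinarith
    calc α * ((Nat.primeCounting' x : ℝ) - Nat.primeCounting' (k₀ * B)) - η * (Nat.primeCounting' x : ℝ) ≤
          (α * (v - k₀) + (1 + 2 * δ)) * w - η * (v * w - δ * w) := by
            have : (α * ((v : ℝ) - k₀) + α * (1 + 2 * δ)) * w ≤ (α * (v - k₀) + (1 + 2 * δ)) * w := mul_le_mul_of_nonneg_right (by linarith) hw0.le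
            linarith
      _ = (α * ((v : ℝ) - k₀) + (1 + 2 * δ) - η * (v - δ)) * w := by ring
      _ ≤ (α * ((v : ℝ) - k₀) - η / 4 * v) * (1 - 2 * δ) * w := mul_le_mul_of_nonneg_right f6 hw0.le
      _ = _ := by ring

end Pool.Agent.H86.NL
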