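import Pool.Agent.H86.N4

set_option autoImplicit false

/-! Sets of primes of complementary densities which do not represent infinitely many multiples of any integer. -/

namespace Pool.Agent.H86.NL
open Finset
open Pool.Agent.H86.DL (PS PS_add PS_pow PS_zero PS_mono PS_sum)

theorem negative (b : ℕ) (hb : 2 ≤ b) : ∃ P : ℝ → Set ℕ, (∀ α, ∀ p ∈ P α, p.Prime) ∧
    (∀ α : ℝ, 0 ≤ α → α ≤ 1 → ∀ ε : ℝ, 0 < ε → ∃ x₀ : ℕ, ∀ x, x₀ ≤ x → ∀ V : Finset ℕ, (∀ p, p ∈ V ↔ p ≤ x ∧ p ∈ P α) →
      (α - ε) * (Nat.primeCounting x : ℝ) ≤ V.card) ∧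
    (∀ K m x₀ : ℕ, 1 ≤ m → ∃ N, x₀ ≤ N ∧ m ∣ N ∧ ∀ α : ℝ, 0 ≤ α → α ≤ 1 → ∀ p ∈ P α, ∀ q ∈ P (1 - α), ∀ s, PS b K s →
      p + q + s ≠ N) := by
  classical
  choose A N S h1 h2 h3 h4 h5 h6 h7 h8 using fun (j E : ℕ) => stage b j (Nat.factorial (j + 1)) hb (Nat.factorial_pos _)
    (1 / ((j : ℝ) + 1)) (by positivity) E
  have hg : ∀ M : ℕ, ∃ t, M ≤ t ∧ M ≤ Nat.primeCounting' t := by
    intro M
    have e1 := Filter.tendsto_atTop.1 Nat.tendsto_primeCounting' M
    obtain ⟨t, ht⟩ := (e1.and (Filter.eventually_ge_atTop M)).exists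
    exact ⟨t, ht.2, ht.1⟩
  choose g hg1 hg2 using hg
  obtain ⟨T, hT⟩ : ∃ T : ℕ → ℕ, ∀ j, T (j + 1) = g ((j + 2) * (N j (T j) + 1)) :=
    ⟨fun n => Nat.rec 0 (fun j t => g ((j + 2) * (N j t + 1))) n, fun j => rfl⟩
  obtain ⟨a, ha⟩ : ∃ a : ℕ → ℕ, ∀ j, a j = A j (T j) := ⟨_, fun _ => rfl⟩
  obtain ⟨n, hn⟩ : ∃ n : ℕ → ℕ, ∀ j, n j = N j (T j) := ⟨_, fun _ => rfl⟩
  obtain ⟨W, hW⟩ : ∃ W : ℕ → ℝ → Set ℕ, ∀ j, W j = S j (T j) := ⟨_, fun _ => rfl⟩
  have han : ∀ j, a j < n j := fun j => by rw [ha, hn]; exact h2 j (T j)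
  have hna0 : ∀ j, (j + 2) * (n j + 1) ≤ T (j + 1) := fun j => by rw [hT, hn]; exact hg1 _
  have hTa : ∀ j, T j ≤ a j := fun j => by rw [ha]; exact h1 j (T j)
  have hna : ∀ j, n j ≤ a (j + 1) := by
    intro j
    have e1 := hna0 j
    have e2 := hTa (j + 1)
    nlinarith
  have hπa : ∀ j, (j + 2) * (n j + 1) ≤ Nat.primeCounting' (a (j + 1)) := by
    intro j
    have e1 : (j + 2) * (n j + 1) ≤ Nat.primeCounting' (T (j + 1)) := by rw [hT, hn]; exact hg2 _
    exact e1.trans (Nat.monotone_primeCounting' (hTa (j + 1)))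
  have hmono : ∀ i j, i < j → n i ≤ a j := by
    intro i j hij
    induction j with
    | zero => omega
    | succ j ih =>
      rcases Nat.lt_succ_iff_lt_or_eq.1 hij with h | h
      · exact (ih h).trans ((han j).le.trans (hna j))
      · rw [h]; exact hna j
  have hmonoa : ∀ i j, i ≤ j → a i ≤ a j := by
    intro i j hij
    rcases Nat.lt_or_eq_of_le hij with h | h
    · exact (han i).le.trans (hmono i j h)
    · rw [h]
  have haj : ∀ j, j ≤ a j := by
    intro j
    induction j with
    | zero => omega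
    | succ j ih =>
      have e1 := han j
      have e2 := hna j
      omega
  have huniq : ∀ i j p, a i ≤ p → p < n i → a j ≤ p → p < n j → i = j := by
    intro i j p e1 e2 e3 e4
    rcases Nat.lt_trichotomy i j with h | h | h
    · have := hmono i j h; omega
    · exact h
    · have := hmono j i h; omega
  obtain ⟨P, hP⟩ : ∃ P : ℝ → Set ℕ, P = fun α => {p | p.Prime ∧ ((∃ j, a j ≤ p ∧ p < n j ∧ p ∈ W j α) ∨
    ((∀ j, ¬ (a j ≤ p ∧ p < n j)) ∧ ⌊α * Nat.primeCounting' p⌋ < ⌊α * Nat.primeCounting' (p + 1)⌋))} := ⟨_, rfl⟩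
  have hPpr : ∀ α, ∀ p ∈ P α, p.Prime := by
    intro α p hp
    rw [hP] at hp
    exact hp.1
  have hPin : ∀ α j p, p ∈ P α → a j ≤ p → p < n j → p ∈ W j α := by
    intro α j p hp e1 e2
    rw [hP] at hp
    rcases hp.2 with ⟨i, f1, f2, f3⟩ | ⟨f1, -⟩
    · rw [← huniq i j p f1 f2 e1 e2]; exact f3
    · exact absurd ⟨e1, e2⟩ (f1 j)
  refine ⟨P, hPpr, ?_, ?_⟩
  · intro α hα0 hα1 ε hε
    obtain ⟨c, hc⟩ : ∃ c : ℕ → ℕ, ∀ x, c x = ((range x).filter (fun p => p ∈ P α)).card := ⟨_, fun _ => rfl⟩
    obtain ⟨q, hq⟩ : ∃ q : ℕ → ℝ, ∀ x, q x = (Nat.primeCounting' x : ℝ) := ⟨_, fun _ => rfl⟩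
    have hqmono : ∀ x y, x ≤ y → q x ≤ q y := by
      intro x y hxy
      rw [hq, hq]
      exact_mod_cast Nat.monotone_primeCounting' hxy
    have hq0 : ∀ x, 0 ≤ q x := fun x => by rw [hq]; exact Nat.cast_nonneg _
    have hqx : ∀ x : ℕ, q x ≤ x := by
      intro x
      rw [hq, pc_card]
      have := card_filter_le (range x) Nat.Prime
      rw [card_range] at this
      exact_mod_cast this
    have hcs : ∀ x, c (x + 1) = c x + if x ∈ P α then 1 else 0 := by
      intro x
      rw [hc, hc, range_add_one, filter_insert]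
      split_ifs
      · rw [card_insert_of_notMem (by rw [mem_filter, mem_range]; omega)]
      · rw [add_zero]
    have hqs : ∀ x : ℕ, Nat.primeCounting' (x + 1) = Nat.primeCounting' x + if x.Prime then 1 else 0 := by
      intro x
      rw [pc_card, pc_card, range_add_one, filter_insert]
      split_ifs
      · rw [card_insert_of_notMem (by rw [mem_filter, mem_range]; omega)]
      · rw [add_zero]
    -- generic stretches
    have hgen : ∀ u v, u ≤ v → (∀ p, u ≤ p → p < v → ∀ j, ¬ (a j ≤ p ∧ p < n j)) →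
        (c u : ℝ) + α * (q v - q u) - 1 ≤ c v := by
      intro u v huv
      obtain ⟨k, rfl⟩ : ∃ k, v = u + k := ⟨v - u, by omega⟩
      intro hno
      have hk : (c u : ℤ) + (⌊α * Nat.primeCounting' (u + k)⌋ - ⌊α * Nat.primeCounting' u⌋) ≤ c (u + k) := by
        clear huv
        induction k with
        | zero => simp
        | succ k ih =>
          have e1 := ih (fun p f1 f2 => hno p f1 (by omega))
          have e2 := hno (u + k) (by omega) (by omega)
          rw [← add_assoc, hcs]
          by_cases hpr : (u + k).Prime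
          · by_cases hfl : ⌊α * Nat.primeCounting' (u + k)⌋ < ⌊α * Nat.primeCounting' (u + k + 1)⌋
            · have hmem : u + k ∈ P α := by
                rw [hP]
                exact ⟨hpr, Or.inr ⟨e2, hfl⟩⟩
              rw [if_pos hmem]
              have e3 : ⌊α * Nat.primeCounting' (u + k + 1)⌋ ≤ ⌊α * Nat.primeCounting' (u + k)⌋ + 1 := by
                rw [← Int.floor_add_one]
                apply Int.floor_le_floor
                rw [hqs, if_pos hpr]
                push_cast
                linarith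
              push_cast
              linarith
            · push Not at hfl
              have e3 : (0 : ℤ) ≤ ((if u + k ∈ P α then 1 else 0 : ℕ) : ℤ) := Nat.cast_nonneg _
              push_cast at e3 ⊢
              linarith
          · have e3 : Nat.primeCounting' (u + k + 1) = Nat.primeCounting' (u + k) := by rw [hqs, if_neg hpr, add_zero]
            rw [e3]
            have e4 : (0 : ℤ) ≤ ((if u + k ∈ P α then 1 else 0 : ℕ) : ℤ) := Nat.cast_nonneg _
            push_cast at e4 ⊢
            linarith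
      have e1 : ((c u : ℝ) + ((⌊α * Nat.primeCounting' (u + k)⌋ : ℝ) - ⌊α * Nat.primeCounting' u⌋)) ≤ c (u + k) := by
        exact_mod_cast hk
      have e2 := Int.sub_one_lt_floor (α * (Nat.primeCounting' (u + k) : ℝ))
      have e3 := Int.floor_le (α * (Nat.primeCounting' u : ℝ))
      rw [hq, hq]
      linarith
    -- special stretches
    have hspec : ∀ j x, a j ≤ x → x ≤ n j → (c (a j) : ℝ) + (α * (q x - q (a j)) - 1 / ((j : ℝ) + 1) * q x) ≤ c x := by
      intro j x e1 e2
      obtain ⟨V, hV⟩ : ∃ V : Finset ℕ, V = (range x).filter (fun p => p.Prime ∧ p ∈ W j α) := ⟨_, rfl⟩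
      have e3 := h8 j (T j) α hα0 hα1 x (by rw [← ha]; exact e1) (by rw [← hn]; exact e2) V (by
        intro p
        rw [hV, mem_filter, mem_range, hW])
      rw [← ha] at e3
      have hVA : ∀ p ∈ V, a j ≤ p ∧ p < n j := by
        intro p hp
        rw [hV, mem_filter, hW] at hp
        have := h4 j (T j) α p hp.2.2
        rw [← ha, ← hn] at this
        exact this
      have e4 : (range (a j)).filter (fun p => p ∈ P α) ∪ V ⊆ (range x).filter (fun p => p ∈ P α) := by
        intro p hp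
        rw [mem_union] at hp
        rcases hp with hp | hp
        · rw [mem_filter, mem_range] at hp ⊢
          exact ⟨by omega, hp.2⟩
        · have f1 := hVA p hp
          rw [hV, mem_filter, mem_range] at hp
          rw [mem_filter, mem_range]
          refine ⟨hp.1, ?_⟩
          rw [hP]
          exact ⟨hp.2.1, Or.inl ⟨j, f1.1, f1.2, hp.2.2⟩⟩
      have e5 : Disjoint ((range (a j)).filter (fun p => p ∈ P α)) V := by
        rw [disjoint_left]
        intro p hp hp'
        rw [mem_filter, mem_range] at hp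
        have := (hVA p hp').1
        omega
      have e6 := card_le_card e4
      rw [card_union_of_disjoint e5, ← hc, ← hc] at e6
      have e7 : (c (a j) : ℝ) + V.card ≤ c x := by exact_mod_cast e6
      rw [hq, hq]
      linarith
    have hA1 : ∀ j : ℕ, α * q (a (j + 1)) - 1 / ((j : ℝ) + 2) * q (a (j + 1)) ≤ c (a (j + 1)) := by
      intro j
      have e1 := hgen (n j) (a (j + 1)) (hna j) (by
        intro p f1 f2 i f3
        rcases Nat.lt_or_ge j i with h | h
        · have := hmonoa (j + 1) i h; omega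
        · rcases Nat.lt_or_eq_of_le h with h' | h'
          · have := hmono i j h'; have := han j; omega
          · rw [h'] at f3; omega)
      have e2 : ((j : ℝ) + 2) * (n j + 1) ≤ q (a (j + 1)) := by rw [hq]; exact_mod_cast hπa j
      have e3 : α * q (n j) ≤ n j := by
        have := hqx (n j)
        have := hq0 (n j)
        nlinarith
      have e4 : (n j : ℝ) + 1 ≤ 1 / ((j : ℝ) + 2) * q (a (j + 1)) := by
        rw [one_div, inv_mul_eq_div, le_div_iff₀ (by positivity)]
        linarith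
      have e5 : (0 : ℝ) ≤ c (n j) := Nat.cast_nonneg _
      linarith
    have hB1 : ∀ j x : ℕ, a (j + 1) ≤ x → x ≤ n (j + 1) → α * q x - 2 / ((j : ℝ) + 2) * q x ≤ c x := by
      intro j x e1 e2
      have e3 := hspec (j + 1) x e1 e2
      have e4 := hA1 j
      have e5 := hqmono _ _ e1
      have e6 : 1 / ((j : ℝ) + 2) * q (a (j + 1)) ≤ 1 / ((j : ℝ) + 2) * q x := mul_le_mul_of_nonneg_left e5 (by positivity)
      have e7 : (1 : ℝ) / (((j + 1 : ℕ) : ℝ) + 1) = 1 / ((j : ℝ) + 2) := by push_cast; congr 1; ring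
      rw [e7] at e3
      have e8 : 2 / ((j : ℝ) + 2) * q x = 1 / ((j : ℝ) + 2) * q x + 1 / ((j : ℝ) + 2) * q x := by ring
      linarith
    have hC1 : ∀ j x : ℕ, a (j + 1) ≤ x → x ≤ a (j + 2) → (α - 3 / ((j : ℝ) + 2)) * q x ≤ c x := by
      intro j x e1 e2
      have e0 : 1 ≤ 1 / ((j : ℝ) + 2) * q x := by
        have f1 : ((j : ℝ) + 2) * (n j + 1) ≤ q (a (j + 1)) := by rw [hq]; exact_mod_cast hπa j
        have f2 := hqmono _ _ e1
        have f3 : (0 : ℝ) ≤ n j := Nat.cast_nonneg _
        rw [one_div, inv_mul_eq_div, le_div_iff₀ (by positivity)]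
        nlinarith
      have e8 : (α - 3 / ((j : ℝ) + 2)) * q x = α * q x - 2 / ((j : ℝ) + 2) * q x - 1 / ((j : ℝ) + 2) * q x := by ring
      rw [e8]
      rcases Nat.le_total x (n (j + 1)) with h | h
      · have := hB1 j x e1 h
        linarith
      · have f1 := hB1 j (n (j + 1)) (han (j + 1)).le le_rfl
        have f2 := hgen (n (j + 1)) x h (by
          intro p f1 f2 i f3
          rcases Nat.lt_or_ge (j + 1) i with h | h
          · have := hmonoa (j + 2) i h; omega
          · rcases Nat.lt_or_eq_of_le h with h' | h'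
            · have := hmono i (j + 1) h'; have := han (j + 1); omega
            · rw [h'] at f3; omega)
        have f3 := hqmono _ _ h
        have f4 : 2 / ((j : ℝ) + 2) * q (n (j + 1)) ≤ 2 / ((j : ℝ) + 2) * q x := mul_le_mul_of_nonneg_left f3 (by positivity)
        linarith
    -- conclusion
    obtain ⟨j₀, hj₀⟩ := exists_nat_ge (3 / ε)
    refine ⟨a (j₀ + 1), fun x hx V hV => ?_⟩
    have hVc : V.card = c (x + 1) := by
      rw [hc]
      congr 1
      ext p
      rw [hV, mem_filter, mem_range]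
      constructor
      · rintro ⟨f1, f2⟩; exact ⟨by omega, f2⟩
      · rintro ⟨f1, f2⟩; exact ⟨by omega, f2⟩
    have hex : ∃ i, x + 1 < a i := ⟨x + 2, by have := haj (x + 2); omega⟩
    obtain ⟨i, hi, hmin⟩ : ∃ i, x + 1 < a i ∧ ∀ i' < i, ¬ x + 1 < a i' := ⟨Nat.find hex, Nat.find_spec hex, fun i' h => Nat.find_min hex h⟩
    have hi2 : j₀ + 2 ≤ i := by
      by_contra hcon
      have := hmonoa i (j₀ + 1) (by omega)
      omega
    obtain ⟨j, rfl⟩ : ∃ j, i = j + 2 := ⟨i - 2, by omega⟩
    have e1 := hC1 j (x + 1) (not_lt.1 (hmin (j + 1) (by omega))) hi.le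
    rw [hVc]
    refine le_trans ?_ e1
    have e2 : q (x + 1) = (Nat.primeCounting x : ℝ) := by rw [hq]; rfl
    rw [e2]
    apply mul_le_mul_of_nonneg_right _ (Nat.cast_nonneg _)
    have e3 : 3 / ((j : ℝ) + 2) ≤ ε := by
      rw [div_le_iff₀ (by positivity)]
      rw [div_le_iff₀ hε] at hj₀
      have : (j₀ : ℝ) ≤ j := by exact_mod_cast (by omega : j₀ ≤ j)
      nlinarith
    linarith
  · intro K m x₀ hm
    obtain ⟨j, hj⟩ : ∃ j, j = K + m + x₀ := ⟨_, rfl⟩
    refine ⟨n j, ?_, ?_, ?_⟩
    · have := haj j; have := han j; omega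
    · have e1 := h3 j (T j)
      rw [← hn] at e1
      exact (Nat.dvd_factorial hm (by omega)).trans e1
    · intro α hα0 hα1 p hp q hq s hs heq
      have hs' : PS b j s := PS_mono b _ _ _ hs (by omega)
      have hp2 := (hPpr α p hp).pos
      have hq2 := (hPpr _ q hq).pos
      have hpn : p < n j := by omega
      have hqn : q < n j := by omega
      by_cases hpa : a j ≤ p
      · have hpW := hPin α j p hp hpa hpn
        by_cases hqa : a j ≤ q
        · have hqW := hPin _ j q hq hqa hqn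
          rw [hW] at hpW hqW
          exact h5 j (T j) α hα0 hα1 p hpW q hqW s hs' (by rw [← hn]; exact heq)
        · rw [hW] at hpW
          exact h6 j (T j) α p hpW q (by rw [← ha]; omega) s hs' (by rw [← hn]; exact heq)
      · by_cases hqa : a j ≤ q
        · have hqW := hPin _ j q hq hqa hqn
          rw [hW] at hqW
          exact h6 j (T j) _ q hqW p (by rw [← ha]; omega) s hs' (by rw [← hn, ← heq]; ring)
        · exact h7 j (T j) p (by rw [← ha]; omega) q (by rw [← ha]; omega) hp2 s hs' (by rw [← hn]; exact heq)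

end Pool.Agent.H86.NL
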