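import Pool.Agent.H86.N5

set_option autoImplicit false

/-! Sets of primes of densities with a sum smaller than `1`: a positive proportion of the integers is not represented. -/

namespace Pool.Agent.H86.NL
open Finset
open Pool.Agent.H86.DL (PS PS_add PS_pow PS_zero PS_mono PS_sum pnt_pi)

/-- passing to cells, with a remainder smaller than a cell -/
lemma cell_repB (b K D l M x y s t : ℕ) (hb : 2 ≤ b) (hs : PS b K s) (ht : t < b ^ l) (h : x + y + s + t = D * b ^ (l + M)) :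
    ∃ s₁ r, PS b K s₁ ∧ r ≤ K + 3 ∧ x / b ^ l + y / b ^ l + s₁ + r = D * b ^ M ∧ (0 < x → 0 < x / b ^ l + y / b ^ l + r) := by
  obtain ⟨s₁, s₀, e1, e2, e3⟩ := PS_cut b K l s hb hs
  have hB : 0 < b ^ l := Nat.pow_pos (by omega)
  have hx := Nat.div_add_mod x (b ^ l)
  have hy := Nat.div_add_mod y (b ^ l)
  have hx' := Nat.mod_lt x hB
  have hy' := Nat.mod_lt y hB
  obtain ⟨k, hk⟩ : ∃ k, k = x / b ^ l := ⟨_, rfl⟩
  obtain ⟨k', hk'⟩ : ∃ k', k' = y / b ^ l := ⟨_, rfl⟩
  obtain ⟨B, hBB⟩ : ∃ B, B = b ^ l := ⟨_, rfl⟩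
  obtain ⟨x', hxx⟩ : ∃ x', x' = x % b ^ l := ⟨_, rfl⟩
  obtain ⟨y', hyy⟩ : ∃ y', y' = y % b ^ l := ⟨_, rfl⟩
  rw [← hk, ← hxx, ← hBB] at hx
  rw [← hk', ← hyy, ← hBB] at hy
  rw [← hxx, ← hBB] at hx'
  rw [← hyy, ← hBB] at hy'
  rw [← hBB] at hB e1 e3 ht
  have e4 : D * b ^ (l + M) = B * (D * b ^ M) := by rw [hBB, pow_add]; ring
  obtain ⟨E, hE⟩ : ∃ E, E = D * b ^ M := ⟨_, rfl⟩
  have e5 : B * E = B * (k + k' + s₁) + (x' + y' + s₀ + t) := by
    rw [hE, ← e4, ← h, e1, ← hx, ← hy]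
    ring
  have e6 : B ∣ x' + y' + s₀ + t := by
    have : B ∣ B * (k + k' + s₁) + (x' + y' + s₀ + t) := by rw [← e5]; exact Dvd.intro _ rfl
    exact (Nat.dvd_add_right (Dvd.intro _ rfl)).1 this
  obtain ⟨r, hr⟩ := e6
  rw [hr, ← mul_add] at e5
  have e7 : E = k + k' + s₁ + r := Nat.eq_of_mul_eq_mul_left hB e5
  refine ⟨s₁, r, e2, ?_, ?_, ?_⟩
  · have : B * r ≤ B * (K + 3) := by
      rw [← hr]
      calc x' + y' + s₀ + t ≤ B + B + K * B + B := by omega
        _ = B * (K + 3) := by ring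
    exact Nat.le_of_mul_le_mul_left this hB
  · rw [← hk, ← hk', ← hE, e7]
  · intro hx0
    rw [← hk, ← hk']
    by_contra hc
    have hk0 : k = 0 := by omega
    have hr0 : r = 0 := by omega
    rw [hr0, mul_zero] at hr
    rw [hk0, mul_zero] at hx
    omega

/-- one stage of the construction, for all integers of the last cell -/
lemma stageB (b K : ℕ) (hb : 2 ≤ b) (η : ℝ) (hη : 0 < η) : ∃ C : ℕ, 1 ≤ C ∧ ∀ E : ℕ, ∃ (A B N : ℕ) (S : ℝ → Set ℕ),
    E ≤ A ∧ A < N ∧ N = C * B ∧ (∀ α, ∀ p ∈ S α, A ≤ p ∧ p < N) ∧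
    (∀ α, 0 ≤ α → α ≤ 1 → ∀ p ∈ S α, ∀ q ∈ S (1 - α), ∀ s, PS b K s → ∀ t < B, p + q + s + t ≠ N) ∧
    (∀ α, ∀ p ∈ S α, ∀ q < A, ∀ s, PS b K s → ∀ t < B, p + q + s + t ≠ N) ∧
    (∀ p < A, ∀ q < A, 0 < p → ∀ s, PS b K s → ∀ t < B, p + q + s + t ≠ N) ∧
    (∀ α, 0 ≤ α → α ≤ 1 → ∀ x, A ≤ x → x ≤ N → ∀ V : Finset ℕ, (∀ p, p ∈ V ↔ p < x ∧ p.Prime ∧ p ∈ S α) →
      α * ((Nat.primeCounting' x : ℝ) - Nat.primeCounting' A) - η * Nat.primeCounting' x ≤ V.card) := by
  classical
  obtain ⟨D, hD1⟩ : ∃ D : ℕ, D = 1 := ⟨1, rfl⟩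
  have hD : 1 ≤ D := by omega
  obtain ⟨M, k₀, U, hk1, hkη, hkN, hU, hUU, hUs, hss, hcnt⟩ := cells b (K + 1) D hb hD (η / 4) (by positivity)
  refine ⟨D * b ^ M, Nat.mul_pos hD (Nat.pow_pos (by omega)), fun E => ?_⟩
  obtain ⟨δ, hδ⟩ : ∃ δ : ℝ, δ = min (η / 16) (1 / 16) := ⟨_, rfl⟩
  have hδ0 : 0 < δ := by rw [hδ]; positivity
  have hδ1 : δ ≤ 1 / 16 := by rw [hδ]; exact min_le_right _ _
  have hδη : δ ≤ η / 16 := by rw [hδ]; exact min_le_left _ _
  obtain ⟨l₀, hl₀⟩ := pnt_cells b (D * b ^ M + 1) hb δ hδ0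
  obtain ⟨l, hl⟩ : ∃ l, l = l₀ + E := ⟨_, rfl⟩
  obtain ⟨w, hw0, -, hw⟩ := hl₀ l (by omega)
  obtain ⟨B, hB⟩ : ∃ B, B = b ^ l := ⟨_, rfl⟩
  have hB1 : 1 ≤ B := by rw [hB]; exact Nat.pow_pos (by omega)
  have hBE : E ≤ B := by
    have : l < b ^ l := Nat.lt_pow_self (by omega)
    omega
  have hN : D * b ^ (l + M) = D * b ^ M * B := by rw [hB, pow_add]; ring
  refine ⟨k₀ * B, B, D * b ^ M * B, fun α => {p | p / B ∈ U α}, ?_, ?_, rfl, ?_, ?_, ?_, ?_, ?_⟩
  · nlinarith
  · exact Nat.mul_lt_mul_of_pos_right hkN hB1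
  · intro α p hp
    have := hU α _ hp
    exact ⟨(Nat.le_div_iff_mul_le hB1).1 this.1, (Nat.div_lt_iff_lt_mul hB1).1 this.2⟩
  · intro α h0 h1 p hp q hq s hs t ht heq
    obtain ⟨s₁, r, g1, g2, g3, g4⟩ := cell_repB b K D l M p q s t hb hs (by rw [← hB]; exact ht) (by rw [heq, hN])
    rw [← hB] at g3
    exact hUU α h0 h1 _ hp _ hq s₁ r (PS_mono b _ _ _ g1 (by omega)) (by omega) g3
  · intro α p hp q hq s hs t ht heq
    obtain ⟨s₁, r, g1, g2, g3, g4⟩ := cell_repB b K D l M p q s t hb hs (by rw [← hB]; exact ht) (by rw [heq, hN])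
    rw [← hB] at g3
    exact hUs α _ hp (q / B) ((Nat.div_lt_iff_lt_mul hB1).2 hq) s₁ r (PS_mono b _ _ _ g1 (by omega)) (by omega) g3
  · intro p hp q hq hp0 s hs t ht heq
    obtain ⟨s₁, r, g1, g2, g3, g4⟩ := cell_repB b K D l M p q s t hb hs (by rw [← hB]; exact ht) (by rw [heq, hN])
    rw [← hB] at g3 g4
    exact hss (p / B) ((Nat.div_lt_iff_lt_mul hB1).2 hp) (q / B) ((Nat.div_lt_iff_lt_mul hB1).2 hq) s₁ r
      (PS_mono b _ _ _ g1 (by omega)) (by omega) (g4 hp0) g3
  · intro α h0 h1 x hAx hxN V hV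
    obtain ⟨v, hv⟩ : ∃ v, v = x / B := ⟨_, rfl⟩
    have hkv : k₀ ≤ v := by rw [hv, Nat.le_div_iff_mul_le hB1]; exact hAx
    have hvD : v ≤ D * b ^ M := by
      rw [hv]
      calc x / B ≤ (D * b ^ M * B) / B := Nat.div_le_div_right hxN
        _ = D * b ^ M := Nat.mul_div_cancel _ hB1
    have hvx : v * B ≤ x := by rw [hv]; exact Nat.div_mul_le_self x B
    have hxv : x ≤ (v + 1) * B := by
      rw [hv]
      have := Nat.lt_div_mul_add hB1 (a := x)
      rw [add_mul, one_mul]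
      omega
    have hc := hcnt α h0 h1 v hkv hvD
    obtain ⟨Uv, hUv⟩ : ∃ Uv, Uv = (U α).filter (fun k => k < v) := ⟨_, rfl⟩
    rw [← hUv] at hc
    rw [← hB] at hw
    -- primes in one cell
    have hcell : ∀ k ∈ Uv, (1 - 2 * δ) * w ≤ (((Ico (k * B) ((k + 1) * B)).filter Nat.Prime).card : ℝ) := by
      intro k hk
      rw [hUv, mem_filter] at hk
      rw [pc_Ico _ _ (Nat.mul_le_mul_right _ (by omega))]
      have e1 := hw k (by omega)
      have e2 := hw (k + 1) (by omega)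
      rw [abs_le] at e1 e2
      push_cast at e2
      linarith [e1.2, e2.1]
    have hVc : (Uv.card : ℝ) * ((1 - 2 * δ) * w) ≤ V.card := by
      have e1 : Uv.biUnion (fun k => (Ico (k * B) ((k + 1) * B)).filter Nat.Prime) ⊆ V := by
        intro p hp
        rw [mem_biUnion] at hp
        obtain ⟨k, hk, hp⟩ := hp
        rw [hUv, mem_filter] at hk
        rw [mem_filter, mem_Ico] at hp
        rw [hV]
        have hpk : p / B = k := by
          apply Nat.div_eq_of_lt_le
          · exact hp.1.1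
          · exact hp.1.2
        refine ⟨?_, hp.2, ?_⟩
        · calc p < (k + 1) * B := hp.1.2
            _ ≤ v * B := Nat.mul_le_mul_right _ (by omega)
            _ ≤ x := hvx
        · show p / B ∈ U α
          rw [hpk]
          exact hk.1
      have e2 : (Uv.biUnion (fun k => (Ico (k * B) ((k + 1) * B)).filter Nat.Prime)).card =
          ∑ k ∈ Uv, ((Ico (k * B) ((k + 1) * B)).filter Nat.Prime).card := by
        apply card_biUnion
        intro k _ k' _ hkk'
        simp only [Function.onFun]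
        rw [disjoint_left]
        intro p hp hp'
        rw [mem_filter, mem_Ico] at hp hp'
        apply hkk'
        have e3 : p / B = k := Nat.div_eq_of_lt_le hp.1.1 hp.1.2
        have e4 : p / B = k' := Nat.div_eq_of_lt_le hp'.1.1 hp'.1.2
        omega
      have e3 : ((∑ k ∈ Uv, ((Ico (k * B) ((k + 1) * B)).filter Nat.Prime).card : ℕ) : ℝ) ≤ V.card := by
        rw [← e2]
        exact_mod_cast card_le_card e1
      refine le_trans ?_ e3
      push_cast
      rw [← nsmul_eq_mul, ← sum_const]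
      exact sum_le_sum hcell
    have hv0 : (0 : ℝ) ≤ v := Nat.cast_nonneg v
    have hkv' : (k₀ : ℝ) ≤ v := by exact_mod_cast hkv
    have hv1 : (1 : ℝ) ≤ v := by exact_mod_cast hk1.trans hkv
    have hπx1 : (Nat.primeCounting' x : ℝ) ≤ (v + 1) * w + δ * w := by
      have e1 := (abs_le.1 (hw (v + 1) (by omega))).2
      have e2 : (Nat.primeCounting' x : ℝ) ≤ Nat.primeCounting' ((v + 1) * B) := by exact_mod_cast Nat.monotone_primeCounting' hxv
      push_cast at e1
      linarith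
    have hπx2 : v * w - δ * w ≤ (Nat.primeCounting' x : ℝ) := by
      have e1 := (abs_le.1 (hw v (by omega))).1
      have e2 : (Nat.primeCounting' (v * B) : ℝ) ≤ Nat.primeCounting' x := by exact_mod_cast Nat.monotone_primeCounting' hvx
      linarith
    have hπA : k₀ * w - δ * w ≤ (Nat.primeCounting' (k₀ * B) : ℝ) := by
      have e1 := (abs_le.1 (hw k₀ (by omega))).1
      linarith
    have hηv : 1 ≤ η / 4 * v := by
      have e1 : 1 / (η / 4) ≤ (v : ℝ) := hkη.trans hkv'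
      rw [div_le_iff₀ (by positivity)] at e1
      linarith
    have hc2 : (α * ((v : ℝ) - k₀) - η / 4 * v) * ((1 - 2 * δ) * w) ≤ V.card := by
      refine le_trans (mul_le_mul_of_nonneg_right hc ?_) hVc
      have : 0 ≤ 1 - 2 * δ := by linarith
      positivity
    refine le_trans ?_ hc2
    have f1 : α * ((Nat.primeCounting' x : ℝ) - Nat.primeCounting' (k₀ * B)) ≤ α * ((v - k₀ + 1 + 2 * δ) * w) :=
      mul_le_mul_of_nonneg_left (by linarith) h0
    have f2 : η * (v * w - δ * w) ≤ η * (Nat.primeCounting' x : ℝ) := mul_le_mul_of_nonneg_left hπx2 hη.le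
    have f3 : α * ((v - k₀ + 1 + 2 * δ) * w) = (α * (v - k₀) + α * (1 + 2 * δ)) * w := by ring
    have f4 : α * (1 + 2 * δ) ≤ 1 + 2 * δ := by nlinarith
    have f5 : α * ((v : ℝ) - k₀) * (2 * δ) ≤ 2 * δ * v := by
      have : α * ((v : ℝ) - k₀) ≤ v := by nlinarith
      nlinarith
    have f6 : α * ((v : ℝ) - k₀) + (1 + 2 * δ) - η * (v - δ) ≤ (α * ((v : ℝ) - k₀) - η / 4 * v) * (1 - 2 * δ) := by
      have g1 : (α * ((v : ℝ) - k₀) - η / 4 * v) * (1 - 2 * δ) = α * ((v : ℝ) - k₀) - α * ((v : ℝ) - k₀) * (2 * δ) - η / 4 * v + η / 4 * v * (2 * δ) := by ring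
      have g2 : 0 ≤ η / 4 * v * (2 * δ) := by positivity
      have g3 : 2 * δ * v ≤ η / 8 * v := by nlinarith
      have g4 : 2 * δ ≤ η / 8 * v := by nlinarith
      have g5 : η * δ ≤ η / 16 * v := by nlinarith
      rw [g1]
      nlinarith
    calc α * ((Nat.primeCounting' x : ℝ) - Nat.primeCounting' (k₀ * B)) - η * (Nat.primeCounting' x : ℝ) ≤
          (α * (v - k₀) + (1 + 2 * δ)) * w - η * (v * w - δ * w) := by
            have : (α * ((v : ℝ) - k₀) + α * (1 + 2 * δ)) * w ≤ (α * (v - k₀) + (1 + 2 * δ)) * w := mul_le_mul_of_nonneg_right (by linarith) hw0.le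
            linarith
      _ = (α * ((v : ℝ) - k₀) + (1 + 2 * δ) - η * (v - δ)) * w := by ring
      _ ≤ (α * ((v : ℝ) - k₀) - η / 4 * v) * (1 - 2 * δ) * w := mul_le_mul_of_nonneg_right f6 hw0.le
      _ = _ := by ring

theorem negativeB (b : ℕ) (hb : 2 ≤ b) (ε : ℝ) (hε : 0 < ε) : ∃ P : ℝ → Set ℕ, (∀ α, ∀ p ∈ P α, p.Prime) ∧
    (∀ α : ℝ, 0 ≤ α → α ≤ 1 → ∃ x₀ : ℕ, ∀ x, x₀ ≤ x → ∀ V : Finset ℕ, (∀ p, p ∈ V ↔ p ≤ x ∧ p ∈ P α) →
      (α - ε) * (Nat.primeCounting x : ℝ) ≤ V.card) ∧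
    (∀ K : ℕ, ∃ C : ℕ, 1 ≤ C ∧ ∀ x₀ : ℕ, ∃ B X : ℕ, x₀ ≤ X ∧ X = C * B ∧ ∀ N, X < N + B → N ≤ X → ∀ α : ℝ, 0 ≤ α → α ≤ 1 →
      ∀ p ∈ P α, ∀ q ∈ P (1 - α), ∀ s, PS b K s → p + q + s ≠ N) := by
  classical
  obtain ⟨η, hη⟩ : ∃ η : ℝ, η = ε / 2 := ⟨_, rfl⟩
  have hη0 : 0 < η := by rw [hη]; positivity
  choose C hC1 A B N S h1 h2 h3 h4 h5 h6 h7 h8 using fun K : ℕ => stageB b K hb η hη0
  obtain ⟨u, hu⟩ : ∃ u : ℕ → ℕ, ∀ j, u j = (Nat.unpair j).1 := ⟨_, fun _ => rfl⟩
  have hg : ∀ M : ℕ, ∃ t, M ≤ t ∧ M ≤ Nat.primeCounting' t := by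
    intro M
    have e1 := Filter.tendsto_atTop.1 Nat.tendsto_primeCounting' M
    obtain ⟨t, ht⟩ := (e1.and (Filter.eventually_ge_atTop M)).exists
    exact ⟨t, ht.2, ht.1⟩
  choose g hg1 hg2 using hg
  obtain ⟨T, hT⟩ : ∃ T : ℕ → ℕ, ∀ j, T (j + 1) = g ((j + 2) * (N (u j) (T j) + 1)) :=
    ⟨fun n => Nat.rec 0 (fun j t => g ((j + 2) * (N (u j) t + 1))) n, fun j => rfl⟩
  obtain ⟨a, ha⟩ : ∃ a : ℕ → ℕ, ∀ j, a j = A (u j) (T j) := ⟨_, fun _ => rfl⟩
  obtain ⟨n, hn⟩ : ∃ n : ℕ → ℕ, ∀ j, n j = N (u j) (T j) := ⟨_, fun _ => rfl⟩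
  obtain ⟨W, hW⟩ : ∃ W : ℕ → ℝ → Set ℕ, ∀ j, W j = S (u j) (T j) := ⟨_, fun _ => rfl⟩
  have han : ∀ j, a j < n j := fun j => by rw [ha, hn]; exact h2 (u j) (T j)
  have hna0 : ∀ j, (j + 2) * (n j + 1) ≤ T (j + 1) := fun j => by rw [hT, hn]; exact hg1 _
  have hTa : ∀ j, T j ≤ a j := fun j => by rw [ha]; exact h1 (u j) (T j)
  have hna : ∀ j, n j ≤ a (j + 1) := by
    intro j
    have e1 := hna0 j
    have e2 := hTa (j + 1)
    nlinarith
  have hπa : ∀ j, (j + 2) * (n j + 1) ≤ Nat.primeCounting' (a (j + 1)) := by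
    intro j
    have e1 : (j + 2) * (n j + 1) ≤ Nat.primeCounting' (T (j + 1)) := by rw [hT, hn]; exact hg2 _
    exact e1.trans (Nat.monotone_primeCounting' (hTa (j + 1)))
  have hmono : ∀ i j, i < j → n i ≤ a j := by
    intro i j hij
    induction j with
    | zero => omega
    | succ j ih =>
      rcases Nat.lt_succ_iff_lt_or_eq.1 hij with h | h
      · exact (ih h).trans ((han j).le.trans (hna j))
      · rw [h]; exact hna j
  have hmonoa : ∀ i j, i ≤ j → a i ≤ a j := by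
    intro i j hij
    rcases Nat.lt_or_eq_of_le hij with h | h
    · exact (han i).le.trans (hmono i j h)
    · rw [h]
  have haj : ∀ j, j ≤ a j := by
    intro j
    induction j with
    | zero => omega
    | succ j ih =>
      have e1 := han j
      have e2 := hna j
      omega
  have huniq : ∀ i j p, a i ≤ p → p < n i → a j ≤ p → p < n j → i = j := by
    intro i j p e1 e2 e3 e4
    rcases Nat.lt_trichotomy i j with h | h | h
    · have := hmono i j h; omega
    · exact h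
    · have := hmono j i h; omega
  obtain ⟨P, hP⟩ : ∃ P : ℝ → Set ℕ, P = fun α => {p | p.Prime ∧ ((∃ j, a j ≤ p ∧ p < n j ∧ p ∈ W j α) ∨
    ((∀ j, ¬ (a j ≤ p ∧ p < n j)) ∧ ⌊α * Nat.primeCounting' p⌋ < ⌊α * Nat.primeCounting' (p + 1)⌋))} := ⟨_, rfl⟩
  have hPpr : ∀ α, ∀ p ∈ P α, p.Prime := by
    intro α p hp
    rw [hP] at hp
    exact hp.1
  have hPin : ∀ α j p, p ∈ P α → a j ≤ p → p < n j → p ∈ W j α := by
    intro α j p hp e1 e2
    rw [hP] at hp
    rcases hp.2 with ⟨i, f1, f2, f3⟩ | ⟨f1, -⟩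
    · rw [← huniq i j p f1 f2 e1 e2]; exact f3
    · exact absurd ⟨e1, e2⟩ (f1 j)
  refine ⟨P, hPpr, ?_, ?_⟩
  · intro α hα0 hα1
    obtain ⟨c, hc⟩ : ∃ c : ℕ → ℕ, ∀ x, c x = ((range x).filter (fun p => p ∈ P α)).card := ⟨_, fun _ => rfl⟩
    obtain ⟨q, hq⟩ : ∃ q : ℕ → ℝ, ∀ x, q x = (Nat.primeCounting' x : ℝ) := ⟨_, fun _ => rfl⟩
    have hqmono : ∀ x y, x ≤ y → q x ≤ q y := by
      intro x y hxy
      rw [hq, hq]
      exact_mod_cast Nat.monotone_primeCounting' hxy
    have hq0 : ∀ x, 0 ≤ q x := fun x => by rw [hq]; exact Nat.cast_nonneg _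
    have hqx : ∀ x : ℕ, q x ≤ x := by
      intro x
      rw [hq, pc_card]
      have := card_filter_le (range x) Nat.Prime
      rw [card_range] at this
      exact_mod_cast this
    have hcs : ∀ x, c (x + 1) = c x + if x ∈ P α then 1 else 0 := by
      intro x
      rw [hc, hc, range_add_one, filter_insert]
      split_ifs
      · rw [card_insert_of_notMem (by rw [mem_filter, mem_range]; omega)]
      · rw [add_zero]
    have hqs : ∀ x : ℕ, Nat.primeCounting' (x + 1) = Nat.primeCounting' x + if x.Prime then 1 else 0 := by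
      intro x
      rw [pc_card, pc_card, range_add_one, filter_insert]
      split_ifs
      · rw [card_insert_of_notMem (by rw [mem_filter, mem_range]; omega)]
      · rw [add_zero]
    -- generic stretches
    have hgen : ∀ u v, u ≤ v → (∀ p, u ≤ p → p < v → ∀ j, ¬ (a j ≤ p ∧ p < n j)) →
        (c u : ℝ) + α * (q v - q u) - 1 ≤ c v := by
      intro u v huv
      obtain ⟨k, rfl⟩ : ∃ k, v = u + k := ⟨v - u, by omega⟩
      intro hno
      have hk : (c u : ℤ) + (⌊α * Nat.primeCounting' (u + k)⌋ - ⌊α * Nat.primeCounting' u⌋) ≤ c (u + k) := by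
        clear huv
        induction k with
        | zero => simp
        | succ k ih =>
          have e1 := ih (fun p f1 f2 => hno p f1 (by omega))
          have e2 := hno (u + k) (by omega) (by omega)
          rw [← add_assoc, hcs]
          by_cases hpr : (u + k).Prime
          · by_cases hfl : ⌊α * Nat.primeCounting' (u + k)⌋ < ⌊α * Nat.primeCounting' (u + k + 1)⌋
            · have hmem : u + k ∈ P α := by
                rw [hP]
                exact ⟨hpr, Or.inr ⟨e2, hfl⟩⟩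
              rw [if_pos hmem]
              have e3 : ⌊α * Nat.primeCounting' (u + k + 1)⌋ ≤ ⌊α * Nat.primeCounting' (u + k)⌋ + 1 := by
                rw [← Int.floor_add_one]
                apply Int.floor_le_floor
                rw [hqs, if_pos hpr]
                push_cast
                linarith
              push_cast
              linarith
            · push Not at hfl
              have e3 : (0 : ℤ) ≤ ((if u + k ∈ P α then 1 else 0 : ℕ) : ℤ) := Nat.cast_nonneg _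
              push_cast at e3 ⊢
              linarith
          · have e3 : Nat.primeCounting' (u + k + 1) = Nat.primeCounting' (u + k) := by rw [hqs, if_neg hpr, add_zero]
            rw [e3]
            have e4 : (0 : ℤ) ≤ ((if u + k ∈ P α then 1 else 0 : ℕ) : ℤ) := Nat.cast_nonneg _
            push_cast at e4 ⊢
            linarith
      have e1 : ((c u : ℝ) + ((⌊α * Nat.primeCounting' (u + k)⌋ : ℝ) - ⌊α * Nat.primeCounting' u⌋)) ≤ c (u + k) := by
        exact_mod_cast hk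
      have e2 := Int.sub_one_lt_floor (α * (Nat.primeCounting' (u + k) : ℝ))
      have e3 := Int.floor_le (α * (Nat.primeCounting' u : ℝ))
      rw [hq, hq]
      linarith
    -- special stretches
    have hspec : ∀ j x, a j ≤ x → x ≤ n j → (c (a j) : ℝ) + (α * (q x - q (a j)) - η * q x) ≤ c x := by
      intro j x e1 e2
      obtain ⟨V, hV⟩ : ∃ V : Finset ℕ, V = (range x).filter (fun p => p.Prime ∧ p ∈ W j α) := ⟨_, rfl⟩
      have e3 := h8 (u j) (T j) α hα0 hα1 x (by rw [← ha]; exact e1) (by rw [← hn]; exact e2) V (by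
        intro p
        rw [hV, mem_filter, mem_range, hW])
      rw [← ha] at e3
      have hVA : ∀ p ∈ V, a j ≤ p ∧ p < n j := by
        intro p hp
        rw [hV, mem_filter, hW] at hp
        have := h4 (u j) (T j) α p hp.2.2
        rw [← ha, ← hn] at this
        exact this
      have e4 : (range (a j)).filter (fun p => p ∈ P α) ∪ V ⊆ (range x).filter (fun p => p ∈ P α) := by
        intro p hp
        rw [mem_union] at hp
        rcases hp with hp | hp
        · rw [mem_filter, mem_range] at hp ⊢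
          exact ⟨by omega, hp.2⟩
        · have f1 := hVA p hp
          rw [hV, mem_filter, mem_range] at hp
          rw [mem_filter, mem_range]
          refine ⟨hp.1, ?_⟩
          rw [hP]
          exact ⟨hp.2.1, Or.inl ⟨j, f1.1, f1.2, hp.2.2⟩⟩
      have e5 : Disjoint ((range (a j)).filter (fun p => p ∈ P α)) V := by
        rw [disjoint_left]
        intro p hp hp'
        rw [mem_filter, mem_range] at hp
        have := (hVA p hp').1
        omega
      have e6 := card_le_card e4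
      rw [card_union_of_disjoint e5, ← hc, ← hc] at e6
      have e7 : (c (a j) : ℝ) + V.card ≤ c x := by exact_mod_cast e6
      rw [hq, hq]
      linarith
    have hA1 : ∀ j : ℕ, α * q (a (j + 1)) - 1 / ((j : ℝ) + 2) * q (a (j + 1)) ≤ c (a (j + 1)) := by
      intro j
      have e1 := hgen (n j) (a (j + 1)) (hna j) (by
        intro p f1 f2 i f3
        rcases Nat.lt_or_ge j i with h | h
        · have := hmonoa (j + 1) i h; omega
        · rcases Nat.lt_or_eq_of_le h with h' | h'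
          · have := hmono i j h'; have := han j; omega
          · rw [h'] at f3; omega)
      have e2 : ((j : ℝ) + 2) * (n j + 1) ≤ q (a (j + 1)) := by rw [hq]; exact_mod_cast hπa j
      have e3 : α * q (n j) ≤ n j := by
        have := hqx (n j)
        have := hq0 (n j)
        nlinarith
      have e4 : (n j : ℝ) + 1 ≤ 1 / ((j : ℝ) + 2) * q (a (j + 1)) := by
        rw [one_div, inv_mul_eq_div, le_div_iff₀ (by positivity)]
        linarith
      have e5 : (0 : ℝ) ≤ c (n j) := Nat.cast_nonneg _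
      linarith
    have hB1 : ∀ j x : ℕ, a (j + 1) ≤ x → x ≤ n (j + 1) → α * q x - (η + 1 / ((j : ℝ) + 2)) * q x ≤ c x := by
      intro j x e1 e2
      have e3 := hspec (j + 1) x e1 e2
      have e4 := hA1 j
      have e5 := hqmono _ _ e1
      have e6 : 1 / ((j : ℝ) + 2) * q (a (j + 1)) ≤ 1 / ((j : ℝ) + 2) * q x := mul_le_mul_of_nonneg_left e5 (by positivity)
      have e8 : (η + 1 / ((j : ℝ) + 2)) * q x = η * q x + 1 / ((j : ℝ) + 2) * q x := by ring
      linarith
    have hC1 : ∀ j x : ℕ, a (j + 1) ≤ x → x ≤ a (j + 2) → (α - (η + 2 / ((j : ℝ) + 2))) * q x ≤ c x := by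
      intro j x e1 e2
      have e0 : 1 ≤ 1 / ((j : ℝ) + 2) * q x := by
        have f1 : ((j : ℝ) + 2) * (n j + 1) ≤ q (a (j + 1)) := by rw [hq]; exact_mod_cast hπa j
        have f2 := hqmono _ _ e1
        have f3 : (0 : ℝ) ≤ n j := Nat.cast_nonneg _
        rw [one_div, inv_mul_eq_div, le_div_iff₀ (by positivity)]
        nlinarith
      have e8 : (α - (η + 2 / ((j : ℝ) + 2))) * q x = α * q x - (η + 1 / ((j : ℝ) + 2)) * q x - 1 / ((j : ℝ) + 2) * q x := by ring
      rw [e8]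
      rcases Nat.le_total x (n (j + 1)) with h | h
      · have := hB1 j x e1 h
        linarith
      · have f1 := hB1 j (n (j + 1)) (han (j + 1)).le le_rfl
        have f2 := hgen (n (j + 1)) x h (by
          intro p f1 f2 i f3
          rcases Nat.lt_or_ge (j + 1) i with h | h
          · have := hmonoa (j + 2) i h; omega
          · rcases Nat.lt_or_eq_of_le h with h' | h'
            · have := hmono i (j + 1) h'; have := han (j + 1); omega
            · rw [h'] at f3; omega)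
        have f3 := hqmono _ _ h
        have f4 : (η + 1 / ((j : ℝ) + 2)) * q (n (j + 1)) ≤ (η + 1 / ((j : ℝ) + 2)) * q x := mul_le_mul_of_nonneg_left f3 (by positivity)
        linarith
    -- conclusion
    obtain ⟨j₀, hj₀⟩ := exists_nat_ge (4 / ε)
    refine ⟨a (j₀ + 1), fun x hx V hV => ?_⟩
    have hVc : V.card = c (x + 1) := by
      rw [hc]
      congr 1
      ext p
      rw [hV, mem_filter, mem_range]
      constructor
      · rintro ⟨f1, f2⟩; exact ⟨by omega, f2⟩
      · rintro ⟨f1, f2⟩; exact ⟨by omega, f2⟩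
    have hex : ∃ i, x + 1 < a i := ⟨x + 2, by have := haj (x + 2); omega⟩
    obtain ⟨i, hi, hmin⟩ : ∃ i, x + 1 < a i ∧ ∀ i' < i, ¬ x + 1 < a i' := ⟨Nat.find hex, Nat.find_spec hex, fun i' h => Nat.find_min hex h⟩
    have hi2 : j₀ + 2 ≤ i := by
      by_contra hcon
      have := hmonoa i (j₀ + 1) (by omega)
      omega
    obtain ⟨j, rfl⟩ : ∃ j, i = j + 2 := ⟨i - 2, by omega⟩
    have e1 := hC1 j (x + 1) (not_lt.1 (hmin (j + 1) (by omega))) hi.le
    rw [hVc]
    refine le_trans ?_ e1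
    have e2 : q (x + 1) = (Nat.primeCounting x : ℝ) := by rw [hq]; rfl
    rw [e2]
    apply mul_le_mul_of_nonneg_right _ (Nat.cast_nonneg _)
    have e3 : 2 / ((j : ℝ) + 2) ≤ ε / 2 := by
      rw [div_le_iff₀ (by positivity)]
      rw [div_le_iff₀ hε] at hj₀
      have : (j₀ : ℝ) ≤ j := by exact_mod_cast (by omega : j₀ ≤ j)
      nlinarith
    linarith
  · intro K
    refine ⟨C K, hC1 K, fun x₀ => ?_⟩
    obtain ⟨j, hj⟩ : ∃ j, j = Nat.pair K x₀ := ⟨_, rfl⟩
    have huj : u j = K := by rw [hu, hj, Nat.unpair_pair]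
    have hjx : x₀ ≤ j := by rw [hj]; exact Nat.right_le_pair K x₀
    refine ⟨B K (T j), n j, ?_, ?_, ?_⟩
    · have := haj j; have := han j; omega
    · rw [hn, huj]
      exact h3 K (T j)
    · intro N' hN1 hN2 α hα0 hα1 p hp q hq s hs heq
      obtain ⟨t, ht⟩ : ∃ t, n j = N' + t := ⟨n j - N', by omega⟩
      have htB : t < B (u j) (T j) := by rw [huj]; omega
      have hs' : PS b (u j) s := by rw [huj]; exact hs
      have heq' : p + q + s + t = n j := by omega
      have hp2 := (hPpr α p hp).pos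
      have hq2 := (hPpr _ q hq).pos
      have hpn : p < n j := by omega
      have hqn : q < n j := by omega
      by_cases hpa : a j ≤ p
      · have hpW := hPin α j p hp hpa hpn
        by_cases hqa : a j ≤ q
        · have hqW := hPin _ j q hq hqa hqn
          rw [hW] at hpW hqW
          exact h5 (u j) (T j) α hα0 hα1 p hpW q hqW s hs' t htB (by rw [← hn]; exact heq')
        · rw [hW] at hpW
          exact h6 (u j) (T j) α p hpW q (by rw [← ha]; omega) s hs' t htB (by rw [← hn]; exact heq')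
      · by_cases hqa : a j ≤ q
        · have hqW := hPin _ j q hq hqa hqn
          rw [hW] at hqW
          exact h6 (u j) (T j) _ q hqW p (by rw [← ha]; omega) s hs' t htB (by rw [← hn, ← heq']; ring)
        · exact h7 (u j) (T j) p (by rw [← ha]; omega) q (by rw [← ha]; omega) hp2 s hs' t htB (by rw [← hn]; exact heq')

end Pool.Agent.H86.NL
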