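import Pool.Agent.H86.L1

set_option autoImplicit false

/-! The square of the transform of `Λ - Λ_z` over the translates of the bad frequencies. -/

namespace Pool.Agent.H86.DL
open Finset
open Pool.Agent.H807R2.Dav
open Pool.Agent.H373R2.T7
open Pool.Agent.W93.DG

theorem bad_sq_shift (b : ℕ) (hb : 2 ≤ b) : ∃ R : ℕ, 1 ≤ R ∧ ∀ U : ℕ, ∃ A B : ℕ, U ≤ A ∧ ∀ Ez : ℕ, ∃ k₀ : ℕ, ∀ k : ℕ, k₀ ≤ k →
    ∀ z : ℕ, Real.log ((b ^ k : ℕ) : ℝ) ^ B ≤ z → (z : ℝ) ≤ Real.log ((b ^ k : ℕ) : ℝ) ^ Ez →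
    ∀ (r₀ : ℕ) (S : Finset ℕ),
    (∀ r ∈ S, r < b ^ (k + 1) ∧ Bad b R k (hh b A k) (k / (16 * b)) ((r + r₀) % b ^ (k + 1))) →
    ∑ r ∈ S, ‖FF (fun n => ArithmeticFunction.vonMangoldt n - lamz z n) (b ^ k) (b ^ (k + 1)) r‖ ^ 2 ≤
      ((b ^ (k + 1) : ℕ) : ℝ) * ((b ^ k : ℕ) : ℝ) / (k : ℝ) ^ U := by
  classical
  obtain ⟨R, hR, hwt⟩ := wt_sum b hb
  refine ⟨R, hR, fun U => ?_⟩
  obtain ⟨C, hwt⟩ := hwt 0
  set A := U + b + 22 with hA
  set U' := U + 10 * A + 2 with hU'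
  set U'' := 2 * U + 5 with hU''
  obtain ⟨B, hsup⟩ := sup_diff U'
  refine ⟨A, B, by omega, fun Ez => ?_⟩
  obtain ⟨n1, h1⟩ := hsup Ez
  obtain ⟨n2, h2⟩ := model Ez U''
  obtain ⟨n3, h3⟩ := minor_quant
  obtain ⟨k4, h4⟩ := hh_small b A 4 hb
  obtain ⟨k5, h5⟩ := half_big b (U + 16) hb
  have hbr : (2 : ℝ) ≤ b := by exact_mod_cast hb
  have hb0 : (0 : ℝ) < b := by linarith
  have hbn : 0 < b := by omega
  set C2 : ℝ := 16 * 200000 ^ 2 * (b : ℝ) ^ 14 * ((b : ℝ) ^ (0 + 2) + C) with hC2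
  set C3 : ℝ := 6 * (b : ℝ) ^ 8 * (b : ℝ) ^ (10 * A) * 2 ^ U' with hC3
  set C4 : ℝ := 2 ^ (2 * U + 5) with hC4
  have hC20 : 0 ≤ C2 := by positivity
  have hC30 : 0 ≤ C3 := by positivity
  have hC40 : 0 ≤ C4 := by positivity
  obtain ⟨k6, hk6⟩ := exists_nat_ge (2 * C2 + C3 + 2 * C4)
  refine ⟨n1 + n2 + n3 + k4 + k5 + k6 + 48 * b + 15, fun k hk z hz1 hz2 r₀ S hS => ?_⟩
  set X := b ^ k with hX
  set M := b ^ (k + 1) with hM
  have hkX : k < X := Nat.lt_pow_self (by omega)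
  have hX1 : 1 ≤ X := Nat.pow_pos hbn
  have hM1 : 1 ≤ M := Nat.pow_pos hbn
  have hXM : X ≤ M := Nat.pow_le_pow_right hbn (by omega)
  have hk1 : 1 ≤ k := by omega
  have hkr : (1 : ℝ) ≤ k := by exact_mod_cast hk1
  have hk0 : (0 : ℝ) < k := by linarith
  have hX0 : (0 : ℝ) < X := by exact_mod_cast hX1
  have hXMr : (X : ℝ) ≤ M := by exact_mod_cast hXM
  have hM0 : (0 : ℝ) < M := by exact_mod_cast hM1
  obtain ⟨hL1, hL2⟩ := logX b k hb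
  rw [← hX] at hL1 hL2
  set L := Real.log (X : ℝ) with hL
  have hL0 : 0 < L := by linarith
  have hLge1 : 1 ≤ L := by
    have : (2 : ℝ) ≤ k := by exact_mod_cast (by omega : 2 ≤ k)
    linarith
  have hz : 1 ≤ z := by
    have : (1 : ℝ) ≤ z := (one_le_pow₀ hLge1).trans hz1
    exact_mod_cast this
  set m := k / (16 * b) with hm
  set h := hh b A k with hh'
  have hm2 : 2 ≤ m := (Nat.le_div_iff_mul_le (by omega)).2 (by omega)
  have hmk : 16 * b * m ≤ k := Nat.mul_div_le k (16 * b)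
  have hmk32 : 32 * m ≤ k := by
    have h7 : 16 * 2 * m ≤ 16 * b * m := Nat.mul_le_mul_right _ (Nat.mul_le_mul_left _ hb)
    omega
  have hhk : 4 * h ≤ k := h4 k (by omega)
  obtain ⟨r', hrL, hrM⟩ := h2 X (by omega) z hz hz2
  set f1 : ℕ → ℝ := fun n => ArithmeticFunction.vonMangoldt n - lamR z r' n with hf1
  set f2 : ℕ → ℝ := fun n => lamz z n - lamR z r' n with hf2
  set fH : ℕ → ℝ := fun n => ArithmeticFunction.vonMangoldt n - lamz z n with hfH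
  set Φ : ℝ := 200000 * L ^ 7 * X with hΦ
  have hΦ0 : 0 ≤ Φ := by positivity
  set PL : ℕ → Prop := fun r => ∃ i₁ i₂ i₃ : ℕ, i₁ ≤ h ∧ i₂ ≤ h ∧ i₃ ≤ h ∧ InScale b k (b * m) i₁ i₂ i₃ r with hPL
  -- the pointwise bound
  have hpt : ∀ r, ¬ PL r → ‖FF f1 X M r‖ ^ 2 ≤ 16 * Φ ^ 2 * wt b k m h r := by
    intro r hr
    rw [sq]
    apply pointwise b hb k m h hm2 (by omega) Φ hΦ0 f1 f1 _ _ r hr
    · intro V q hV hVN hq hqN c hc α hα
      have := hrM V q hV hVN hq hqN c hc α hα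
      refine this.trans (le_of_eq ?_)
      rw [hΦ, ← hL]
      ring
    · intro V q hV hVN hq hqN c hc α hα
      have := hrM V q hV hVN hq hqN c hc α hα
      refine this.trans (le_of_eq ?_)
      rw [hΦ, ← hL]
      ring
  -- splitting
  have hsplit : ∑ r ∈ S, ‖FF fH X M r‖ ^ 2 =
      ∑ r ∈ S.filter PL, ‖FF fH X M r‖ ^ 2 + ∑ r ∈ S.filter (fun r => ¬ PL r), ‖FF fH X M r‖ ^ 2 :=
    (sum_filter_add_sum_filter_not S PL _).symm
  -- small scales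
  have hpart1 : ∑ r ∈ S.filter PL, ‖FF fH X M r‖ ^ 2 ≤ C3 * (M * X / (k : ℝ) ^ (U + 2)) := by
    have e1 : ∀ r ∈ S.filter PL, ‖FF fH X M r‖ ^ 2 ≤ (X / L ^ U') ^ 2 := by
      intro r _
      apply pow_le_pow_left₀ (norm_nonneg _)
      exact h1 X (by omega) z hz1 hz2 ((r : ℝ) / (M : ℝ))
    have e2 : ((S.filter PL).card : ℝ) ≤ (b : ℝ) ^ (5 * h + 8) := by
      have := log_count b k (b * m) h hb (by omega) (S.filter PL) (fun r hr => by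
        rw [mem_filter] at hr
        exact ⟨(hS r hr.1).1, hr.2⟩)
      exact_mod_cast this
    calc _ ≤ ∑ _r ∈ S.filter PL, ((X : ℝ) / L ^ U') ^ 2 := sum_le_sum e1
      _ = ((S.filter PL).card : ℝ) * (X / L ^ U') ^ 2 := by rw [sum_const, nsmul_eq_mul]
      _ ≤ _ := part1_num' b k X M L _ U U' A h hb0 hk0 hX0 hXMr hL1 hLge1 (Nat.cast_nonneg _) (by rw [hU']; ring) e2 (hh_up b A k hk1)
  -- large scales
  have hpart2 : ∑ r ∈ S.filter (fun r => ¬ PL r), ‖FF f1 X M r‖ ^ 2 ≤ C2 * (M * X / (k : ℝ) ^ (U + 2)) := by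
    have e1 : ∑ r ∈ S.filter (fun r => ¬ PL r), wt b k m h r ≤
        (b : ℝ) ^ (0 + 2) / 2 ^ (m / 2) + C * (k : ℝ) ^ (b + 4) / (b : ℝ) ^ (h / 2) :=
      hwt k m h r₀ 1 rfl (by omega) (by omega) (by omega) (by simp) _ (fun r hr => by
        have h7 := hS r (mem_filter.1 hr).1
        refine ⟨h7.1, ?_⟩
        rw [one_mul]
        exact h7.2)
    have e2 : (b : ℝ) ^ (0 + 2) / 2 ^ (m / 2) + C * (k : ℝ) ^ (b + 4) / (b : ℝ) ^ (h / 2) ≤
        ((b : ℝ) ^ (0 + 2) + C) / (k : ℝ) ^ (U + 16) :=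
      e2_num b ((b : ℝ) ^ (0 + 2)) C k b A U (m / 2) (h / 2) hb0 (by positivity) (Nat.cast_nonneg _) hkr (h5 k (by omega)) (hh_half b A k hb hk1) (by omega)
    calc _ ≤ ∑ r ∈ S.filter (fun r => ¬ PL r), 16 * Φ ^ 2 * wt b k m h r :=
          sum_le_sum fun r hr => hpt r (mem_filter.1 hr).2
      _ = 16 * Φ ^ 2 * ∑ r ∈ S.filter (fun r => ¬ PL r), wt b k m h r := by rw [mul_sum]
      _ ≤ _ := part2_num 200000 b k X M L ((b : ℝ) ^ (0 + 2) + C) _ U (by norm_num) hb0 hk0 hX0 hXMr hL0.le hL2 (by positivity)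
          (e1.trans e2)
  -- the difference of the models
  have hpart3 : ∑ r ∈ S.filter (fun r => ¬ PL r), ‖FF f2 X M r‖ ^ 2 ≤ C4 * (M * X / (k : ℝ) ^ (U + 2)) := by
    have hsub : S.filter (fun r => ¬ PL r) ⊆ range M := by
      intro r hr
      rw [mem_range]
      exact (hS r (mem_filter.1 hr).1).1
    have e1 : ∑ r ∈ S.filter (fun r => ¬ PL r), ‖FF f2 X M r‖ ^ 2 ≤
        ∑ r ∈ range M, ‖FF f2 X M r‖ ^ 2 :=
      sum_le_sum_of_subset_of_nonneg hsub fun _ _ _ => by positivity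
    rw [FF_pars f2 X M hM1 hXM] at e1
    refine e1.trans ?_
    have e3 : 1 / L ^ (2 * U + 5) ≤ 2 ^ (2 * U + 5) / (k : ℝ) ^ (2 * U + 5) := by
      rw [← div_pow, ← one_div_pow]
      apply pow_le_pow_left₀ (by positivity)
      rw [div_le_div_iff₀ hL0 hk0]
      linarith
    have e4 : (2 : ℝ) ^ (2 * U + 5) / (k : ℝ) ^ (2 * U + 5) ≤ 2 ^ (2 * U + 5) / (k : ℝ) ^ (U + 2) := by
      apply div_le_div_of_nonneg_left (by positivity) (by positivity)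
      exact pow_le_pow_right₀ hkr (by omega)
    calc (M : ℝ) * ∑ n ∈ Icc 1 X, f2 n ^ 2 ≤ M * (X / L ^ U'') := mul_le_mul_of_nonneg_left hrL hM0.le
      _ = M * X * (1 / L ^ (2 * U + 5)) := by rw [hU'']; ring
      _ ≤ M * X * (2 ^ (2 * U + 5) / (k : ℝ) ^ (U + 2)) := mul_le_mul_of_nonneg_left (e3.trans e4) (by positivity)
      _ = _ := by rw [hC4]; ring
  have hpart4 : ∑ r ∈ S.filter (fun r => ¬ PL r), ‖FF fH X M r‖ ^ 2 ≤
      2 * ∑ r ∈ S.filter (fun r => ¬ PL r), ‖FF f1 X M r‖ ^ 2 +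
      2 * ∑ r ∈ S.filter (fun r => ¬ PL r), ‖FF f2 X M r‖ ^ 2 := by
    rw [mul_sum, mul_sum, ← sum_add_distrib]
    apply sum_le_sum
    intro r _
    have e1 : FF fH X M r = FF f1 X M r - FF f2 X M r := by
      rw [← FF_sub]
      congr 1
      ext n
      rw [hfH, hf1, hf2]
      ring
    rw [e1]
    exact two_sq _ _ _ (norm_nonneg _) (norm_sub_le (FF f1 X M r) (FF f2 X M r))
  rw [hsplit]
  have hY : 0 ≤ (M : ℝ) * X / (k : ℝ) ^ (U + 2) := by positivity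
  have hfin : (2 * C2 + C3 + 2 * C4) * (M * X / (k : ℝ) ^ (U + 2)) ≤ M * X / (k : ℝ) ^ U :=
    fin_num k (2 * C2 + C3 + 2 * C4) (M * X) U hkr (hk6.trans (by exact_mod_cast (by omega : k6 ≤ k))) (by positivity)
  linarith

end Pool.Agent.H86.DL
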