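import Pool.Agent.H86.P1
import Pool.Agent.H86.L2

set_option autoImplicit false

/-! The mean square, over a family of translations, of the correlation of an arbitrary weight with a windowed function. -/

namespace Pool.Agent.H86.PW
open Finset
open Pool.Agent.H807R2.Dav (ee norm_ee ee_zero ee_add)
open Pool.Agent.W93.DG
open Pool.Agent.W93.HD (sq_real)
open Pool.Agent.H86.DL (conj_ee)

/-- the correlation of the weight `w` on `S` with the windowed function, translated by `d` -/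
noncomputable def TT (G : ℕ → ℝ) (X H : ℕ) (S : Finset ℕ) (w : ℕ → ℝ) (d : ℕ) : ℝ :=
  ∑ x ∈ S, w x * ((∑ h ∈ Icc 1 H, if x + d + h ≤ X then G (x + d + h) else 0) / H)

/-- the energy of the windowed function -/
noncomputable def EW (G : ℕ → ℝ) (X H : ℕ) : ℝ :=
  ∑ i ∈ Icc 1 X ×ˢ Icc 1 H, ∑ j ∈ Icc 1 X ×ˢ Icc 1 H, (if i.1 + j.2 = j.1 + i.2 then (G i.1 / H) * (G j.1 / H) else 0)

/-- the transform of a window -/
noncomputable def KK (H M r : ℕ) : ℂ := (∑ h ∈ Icc 1 H, ee (-((h : ℝ) * ((r : ℝ) / M)))) / H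

/-- the transform of the weight -/
noncomputable def AA (S : Finset ℕ) (w : ℕ → ℝ) (M r : ℕ) : ℂ := ∑ x ∈ S, ((w x : ℝ) : ℂ) * ee (-((x : ℝ) * ((r : ℝ) / M)))

lemma KK_le (H M r : ℕ) (hH : 1 ≤ H) : ‖KK H M r‖ ≤ 1 := by
  unfold KK
  have hH0 : (0 : ℝ) < H := by exact_mod_cast hH
  rw [norm_div, Complex.norm_natCast, div_le_one hH0]
  refine (norm_sum_le _ _).trans ?_
  rw [sum_congr rfl (fun h _ => norm_ee _)]
  simp

lemma ee_int (n : ℤ) : ee (n : ℝ) = 1 := by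
  unfold ee
  rw [show 2 * (Real.pi : ℂ) * Complex.I * (((n : ℝ)) : ℂ) = n * (2 * Real.pi * Complex.I) by push_cast; ring]
  exact Complex.exp_int_mul_two_pi_mul_I n

lemma ee_periodic (x : ℝ) (n : ℤ) : ee (x + n) = ee x := by
  rw [ee_add, ee_int, mul_one]

/-- orthogonality -/
lemma orth (M : ℕ) (hM : 1 ≤ M) (m : ℤ) (hm : |m| < M) :
    ∑ r ∈ range M, ee ((m : ℝ) * ((r : ℝ) / M)) = if m = 0 then (M : ℂ) else 0 := by
  have hM0 : (M : ℝ) ≠ 0 := by exact_mod_cast (by omega : M ≠ 0)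
  split_ifs with h
  · rw [h]
    simp [ee_zero]
  · obtain ⟨ζ, hζ⟩ : ∃ ζ, ζ = ee ((m : ℝ) / M) := ⟨_, rfl⟩
    have h1 : ∀ r : ℕ, ee ((m : ℝ) * ((r : ℝ) / M)) = ζ ^ r := by
      intro r
      induction r with
      | zero => simp [ee_zero]
      | succ r ih =>
        rw [pow_succ, ← ih, hζ, ← ee_add]
        congr 1
        push_cast
        ring
    rw [sum_congr rfl fun r _ => h1 r]
    have h2 : ζ ^ M = 1 := by
      rw [← h1 M, div_self hM0, mul_one]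
      exact ee_int m
    have h3 : ζ ≠ 1 := by
      intro h3
      rw [hζ] at h3
      unfold ee at h3
      rw [Complex.exp_eq_one_iff] at h3
      obtain ⟨n, hn⟩ := h3
      have hπ : (2 * (Real.pi : ℂ) * Complex.I) ≠ 0 := Complex.two_pi_I_ne_zero
      have h4 : (((m : ℝ) / M : ℝ) : ℂ) = n := by
        apply mul_left_cancel₀ hπ
        rw [hn]; ring
      have h5 : (m : ℝ) / M = n := by exact_mod_cast h4
      rw [div_eq_iff hM0] at h5
      have h6 : m = n * M := by exact_mod_cast h5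
      have h7 : (M : ℤ) ∣ m := ⟨n, by rw [h6]; ring⟩
      exact h (Int.eq_zero_of_abs_lt_dvd h7 hm)
    have h4 := geom_sum_eq h3 M
    rw [h4, h2, sub_self, zero_div]

/-- inversion -/
lemma TT_eq (G : ℕ → ℝ) (X H M : ℕ) (S : Finset ℕ) (w : ℕ → ℝ) (d : ℕ) (hH : 1 ≤ H) (hXM : X < M)
    (hsz : ∀ x ∈ S, x + H + d ≤ M) :
    (M : ℂ) * ((TT G X H S w d : ℝ) : ℂ) =
      ∑ r ∈ range M, (FF G X M r * (KK H M r * AA S w M r)) * ee (-((d : ℝ) * ((r : ℝ) / M))) := by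
  have hM1 : 1 ≤ M := by omega
  have h1 : ∀ r : ℕ, (FF G X M r * (KK H M r * AA S w M r)) * ee (-((d : ℝ) * ((r : ℝ) / M))) =
      ∑ x ∈ S, ∑ h ∈ Icc 1 H, ∑ n ∈ Icc 1 X, (((w x * (G n / H) : ℝ) : ℂ) * ee ((((n : ℤ) - (x + d + h : ℕ) : ℤ) : ℝ) * ((r : ℝ) / M))) := by
    intro r
    unfold FF KK AA
    obtain ⟨A1, hA1⟩ : ∃ A1 : ℕ → ℂ, A1 = fun x : ℕ => ((w x : ℝ) : ℂ) * ee (-((x : ℝ) * ((r : ℝ) / M))) := ⟨_, rfl⟩
    obtain ⟨A2, hA2⟩ : ∃ A2 : ℕ → ℂ, A2 = fun h : ℕ => ee (-((h : ℝ) * ((r : ℝ) / M))) := ⟨_, rfl⟩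
    obtain ⟨A3, hA3⟩ : ∃ A3 : ℕ → ℂ, A3 = fun n : ℕ => (G n : ℂ) * ee ((n : ℝ) * ((r : ℝ) / M)) := ⟨_, rfl⟩
    have e0 : (∑ n ∈ Icc 1 X, (G n : ℂ) * ee ((n : ℝ) * ((r : ℝ) / M))) *
        ((∑ h ∈ Icc 1 H, ee (-((h : ℝ) * ((r : ℝ) / M)))) / (H : ℂ) * ∑ x ∈ S, ((w x : ℝ) : ℂ) * ee (-((x : ℝ) * ((r : ℝ) / M)))) *
        ee (-((d : ℝ) * ((r : ℝ) / M))) =
        ∑ x ∈ S, ∑ h ∈ Icc 1 H, ∑ n ∈ Icc 1 X, A1 x * A2 h * A3 n * (ee (-((d : ℝ) * ((r : ℝ) / M))) / H) := by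
      have e00 : ∑ x ∈ S, ∑ h ∈ Icc 1 H, ∑ n ∈ Icc 1 X, A1 x * A2 h * A3 n * (ee (-((d : ℝ) * ((r : ℝ) / M))) / H) =
          (∑ x ∈ S, A1 x) * (∑ h ∈ Icc 1 H, A2 h) * (∑ n ∈ Icc 1 X, A3 n) * (ee (-((d : ℝ) * ((r : ℝ) / M))) / H) := by
        rw [sum_mul_sum, sum_mul, sum_mul]
        apply sum_congr rfl
        intro x _
        rw [sum_mul, sum_mul]
        apply sum_congr rfl
        intro h _
        rw [mul_sum, sum_mul]
      rw [e00, hA1, hA2, hA3]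
      ring
    rw [e0]
    apply sum_congr rfl
    intro x _
    apply sum_congr rfl
    intro h _
    apply sum_congr rfl
    intro n _
    rw [hA1, hA2, hA3]
    simp only
    have e1 : ee ((((n : ℤ) - (x + d + h : ℕ) : ℤ) : ℝ) * ((r : ℝ) / M)) =
        ee ((n : ℝ) * ((r : ℝ) / M)) * (ee (-((x : ℝ) * ((r : ℝ) / M))) * (ee (-((d : ℝ) * ((r : ℝ) / M))) * ee (-((h : ℝ) * ((r : ℝ) / M))))) := by
      rw [← ee_add, ← ee_add, ← ee_add]
      congr 1
      push_cast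
      ring
    rw [e1]
    push_cast
    ring
  rw [sum_congr rfl fun r _ => h1 r]
  rw [sum_comm]
  unfold TT
  push_cast
  rw [mul_sum]
  apply sum_congr rfl
  intro x hx
  rw [sum_comm, mul_left_comm]
  have h2 : ∀ h ∈ Icc 1 H, ∑ r ∈ range M, ∑ n ∈ Icc 1 X, (((w x : ℂ) * ((G n : ℂ) / (H : ℂ))) * ee ((((n : ℤ) - (x + d + h : ℕ) : ℤ) : ℝ) * ((r : ℝ) / M))) =
      (w x : ℂ) * ((if x + d + h ≤ X then (G (x + d + h) : ℂ) else 0) / (H : ℂ) * M) := by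
    intro h hh
    rw [mem_Icc] at hh
    rw [sum_comm]
    have h3 : ∀ n ∈ Icc 1 X, ∑ r ∈ range M, (((w x : ℂ) * ((G n : ℂ) / (H : ℂ))) * ee ((((n : ℤ) - (x + d + h : ℕ) : ℤ) : ℝ) * ((r : ℝ) / M))) =
        if n = x + d + h then ((w x : ℂ) * ((G n : ℂ) / (H : ℂ))) * M else 0 := by
      intro n hn
      rw [mem_Icc] at hn
      rw [← mul_sum, orth M hM1 _ (by
        have := hsz x hx
        rw [abs_lt]
        constructor <;> push_cast <;> omega)]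
      by_cases h4 : n = x + d + h
      · rw [if_pos h4, if_pos (by rw [h4]; push_cast; ring)]
      · rw [if_neg h4, if_neg (by
          intro h5
          apply h4
          have : (n : ℤ) = ((x + d + h : ℕ) : ℤ) := by linarith
          exact_mod_cast this), mul_zero]
    rw [sum_congr rfl h3, sum_ite_eq' (Icc 1 X) (x + d + h)]
    by_cases h5 : x + d + h ≤ X
    · rw [if_pos h5, if_pos (by rw [mem_Icc]; omega)]
      ring
    · rw [if_neg h5, if_neg (by rw [mem_Icc]; omega)]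
      simp
  have h6 : ∑ h ∈ Icc 1 H, ∑ r ∈ range M, ∑ n ∈ Icc 1 X, (((w x * (G n / H) : ℝ) : ℂ) * ee ((((n : ℤ) - (x + d + h : ℕ) : ℤ) : ℝ) * ((r : ℝ) / M))) =
      ∑ h ∈ Icc 1 H, (w x : ℂ) * ((if x + d + h ≤ X then (G (x + d + h) : ℂ) else 0) / (H : ℂ) * M) := by
    apply sum_congr rfl
    intro h hh
    rw [← h2 h hh]
    apply sum_congr rfl
    intro r _
    apply sum_congr rfl
    intro n _
    push_cast
    rfl
  push_cast at h6
  rw [h6]
  rw [← mul_sum]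
  congr 1
  rw [← sum_mul, ← sum_div]
  rw [mul_comm]
  congr 2
  apply sum_congr rfl
  intro h _
  split_ifs <;> simp

lemma EW_eq (G : ℕ → ℝ) (X H M : ℕ) (hH : 1 ≤ H) (hXM : X + H ≤ M) :
    ∑ r ∈ range M, ‖FF G X M r * KK H M r‖ ^ 2 = M * EW G X H := by
  have hM1 : 1 ≤ M := by omega
  have h1 := sq_real (Icc 1 X ×ˢ Icc 1 H) (fun i => G i.1 / H) (fun i => (i.1 : ℤ) - i.2) M hM1 (by
    intro i hi j hj
    rw [mem_product, mem_Icc, mem_Icc] at hi hj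
    rw [abs_lt]
    constructor <;> omega)
  have h2 : ∀ r ∈ range M, ‖FF G X M r * KK H M r‖ ^ 2 =
      ‖∑ i ∈ Icc 1 X ×ˢ Icc 1 H, ((G i.1 / H : ℝ) : ℂ) * ee ((r : ℝ) * ((((i.1 : ℤ) - i.2 : ℤ) : ℝ) / M))‖ ^ 2 := by
    intro r _
    congr 2
    unfold FF KK
    rw [← mul_div_assoc, sum_mul_sum, ← sum_product', sum_div]
    apply sum_congr rfl
    intro i _
    have e1 : ee ((r : ℝ) * ((((i.1 : ℤ) - i.2 : ℤ) : ℝ) / M)) = ee ((i.1 : ℝ) * ((r : ℝ) / M)) * ee (-((i.2 : ℝ) * ((r : ℝ) / M))) := by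
      rw [← ee_add]
      congr 1
      push_cast
      ring
    rw [e1]
    push_cast
    ring
  rw [sum_congr rfl h2, h1]
  congr 1
  unfold EW
  apply sum_congr rfl
  intro i _
  apply sum_congr rfl
  intro j _
  have : ((i.1 : ℤ) - i.2 = (j.1 : ℤ) - j.2) ↔ (i.1 + j.2 = j.1 + i.2) := by omega
  simp only [this]

lemma AA_sq (S : Finset ℕ) (w : ℕ → ℝ) (M : ℕ) (hM : 1 ≤ M) (hS : ∀ x ∈ S, x < M) :
    ∑ r ∈ range M, ‖AA S w M r‖ ^ 2 = M * ∑ x ∈ S, w x ^ 2 := by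
  have h1 := sq_real S w (fun i => -(i : ℤ)) M hM (by
    intro i hi j hj
    have := hS i hi
    have := hS j hj
    rw [abs_lt]
    constructor <;> omega)
  have h2 : ∀ r ∈ range M, ‖AA S w M r‖ ^ 2 = ‖∑ i ∈ S, ((w i : ℝ) : ℂ) * ee ((r : ℝ) * (((-(i : ℤ) : ℤ) : ℝ) / M))‖ ^ 2 := by
    intro r _
    congr 2
    unfold AA
    apply sum_congr rfl
    intro i _
    congr 2
    push_cast
    ring
  rw [sum_congr rfl h2, h1]
  congr 1
  apply sum_congr rfl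
  intro i hi
  rw [sum_eq_single i]
  · rw [if_pos rfl]; ring
  · intro j _ hj
    rw [if_neg]
    intro h
    apply hj
    omega
  · intro h; exact absurd hi h

/-- the sum over the translations -/
noncomputable def MV {V : Type*} (Ω : Finset V) (d : V → ℕ) (M ρ : ℕ) : ℂ := ∑ v ∈ Ω, ee (-((d v : ℝ) * ((ρ : ℝ) / M)))

lemma MV_diff {V : Type*} (Ω : Finset V) (d : V → ℕ) (M : ℕ) (hM : 1 ≤ M) (r r' : ℕ) (hr' : r' < M) :
    ∑ v ∈ Ω, ee (-((d v : ℝ) * ((r : ℝ) / M))) * (starRingEnd ℂ) (ee (-((d v : ℝ) * ((r' : ℝ) / M)))) = MV Ω d M ((r + (M - r')) % M) := by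
  unfold MV
  have hM0 : (M : ℝ) ≠ 0 := by exact_mod_cast (by omega : M ≠ 0)
  apply sum_congr rfl
  intro v _
  rw [conj_ee, ← ee_add, neg_neg]
  have h1 := Nat.div_add_mod (r + (M - r')) M
  obtain ⟨q, hq⟩ : ∃ q, q = (r + (M - r')) / M := ⟨_, rfl⟩
  rw [← hq] at h1
  have h2 : (r : ℝ) + (M - r') = M * q + (((r + (M - r')) % M : ℕ) : ℝ) := by
    have h3 : ((r + (M - r') : ℕ) : ℝ) = ((M * q + (r + (M - r')) % M : ℕ) : ℝ) := by rw [h1]
    rw [Nat.cast_add, Nat.cast_add, Nat.cast_sub hr'.le, Nat.cast_mul] at h3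
    exact h3
  have h3 : -((d v : ℝ) * ((r : ℝ) / M)) + (d v : ℝ) * ((r' : ℝ) / M) =
      -((d v : ℝ) * ((((r + (M - r')) % M : ℕ) : ℝ) / M)) + (((d v : ℤ) - d v * q : ℤ) : ℝ) := by
    have h4 : (((r + (M - r')) % M : ℕ) : ℝ) = r + (M - r') - M * q := by linarith
    rw [h4]
    push_cast
    field_simp
    ring
  rw [h3, ee_periodic]

lemma MV_symm {V : Type*} (Ω : Finset V) (d : V → ℕ) (M : ℕ) (hM : 1 ≤ M) (r r' : ℕ) (hr : r < M) (hr' : r' < M) :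
    ‖MV Ω d M ((r + (M - r')) % M)‖ = ‖MV Ω d M ((r' + (M - r)) % M)‖ := by
  rw [← MV_diff Ω d M hM r r' hr', ← MV_diff Ω d M hM r' r hr, ← Complex.norm_conj, map_sum]
  congr 1
  apply sum_congr rfl
  intro v _
  rw [map_mul, Complex.conj_conj, mul_comm]

/-- the bilinear estimate -/
theorem bilin {V : Type*} (Ω : Finset V) (d : V → ℕ) (G : ℕ → ℝ) (X M H : ℕ) (S : Finset ℕ) (w : ℕ → ℝ) (hH : 1 ≤ H)
    (hXM : X + H ≤ M) (hS : ∀ x ∈ S, x < M) (hsz : ∀ v ∈ Ω, ∀ x ∈ S, x + H + d v ≤ M) (Bd : ℕ → Prop) [DecidablePred Bd]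
    (δ Y C : ℝ) (hδ : 0 ≤ δ)
    (hgood : ∀ ρ, ρ < M → ¬ Bd ρ → ‖MV Ω d M ρ‖ ≤ δ * Ω.card)
    (hbad : ∀ r₀, ∑ r ∈ (range M).filter (fun r => Bd ((r + r₀) % M)), ‖FF G X M r‖ ^ 2 ≤ M * X * Y)
    (hE : EW G X H ≤ C * X) :
    ∑ v ∈ Ω, TT G X H S w (d v) ^ 2 ≤ Ω.card * ((δ * C + Y) * X * ∑ x ∈ S, w x ^ 2) := by
  classical
  have hM1 : 1 ≤ M := by omega
  have hM0 : (0 : ℝ) < M := by exact_mod_cast hM1
  obtain ⟨Φ, hΦ⟩ : ∃ Φ : ℕ → ℂ, Φ = fun r => FF G X M r * (KK H M r * AA S w M r) := ⟨_, rfl⟩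
  obtain ⟨A2, hA2⟩ : ∃ A2 : ℝ, A2 = ∑ x ∈ S, w x ^ 2 := ⟨_, rfl⟩
  have hA20 : 0 ≤ A2 := by rw [hA2]; exact sum_nonneg fun _ _ => sq_nonneg _
  have hT : ∀ v ∈ Ω, (M : ℂ) * ((TT G X H S w (d v) : ℝ) : ℂ) = ∑ r ∈ range M, Φ r * ee (-((d v : ℝ) * ((r : ℝ) / M))) := by
    intro v hv
    rw [hΦ]
    exact TT_eq G X H M S w (d v) hH (by omega) (hsz v hv)
  -- expansion of the square
  have h1 : ((M : ℝ) ^ 2 * ∑ v ∈ Ω, TT G X H S w (d v) ^ 2 : ℝ) =
      ‖∑ r ∈ range M, ∑ r' ∈ range M, Φ r * (starRingEnd ℂ) (Φ r') * MV Ω d M ((r + (M - r')) % M)‖ := by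
    have e1 : (((M : ℝ) ^ 2 * ∑ v ∈ Ω, TT G X H S w (d v) ^ 2 : ℝ) : ℂ) =
        ∑ r ∈ range M, ∑ r' ∈ range M, Φ r * (starRingEnd ℂ) (Φ r') * MV Ω d M ((r + (M - r')) % M) := by
      have e2 : ∀ v ∈ Ω, (((M : ℝ) ^ 2 * TT G X H S w (d v) ^ 2 : ℝ) : ℂ) =
          ∑ r ∈ range M, ∑ r' ∈ range M, Φ r * (starRingEnd ℂ) (Φ r') *
            (ee (-((d v : ℝ) * ((r : ℝ) / M))) * (starRingEnd ℂ) (ee (-((d v : ℝ) * ((r' : ℝ) / M))))) := by
        intro v hv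
        have e3 : (((M : ℝ) ^ 2 * TT G X H S w (d v) ^ 2 : ℝ) : ℂ) =
            ((M : ℂ) * ((TT G X H S w (d v) : ℝ) : ℂ)) * (starRingEnd ℂ) ((M : ℂ) * ((TT G X H S w (d v) : ℝ) : ℂ)) := by
          rw [map_mul, Complex.conj_ofReal, Complex.conj_natCast]
          push_cast
          ring
        rw [e3, hT v hv, map_sum, sum_mul_sum]
        apply sum_congr rfl
        intro r _
        apply sum_congr rfl
        intro r' _
        rw [map_mul]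
        ring
      rw [mul_sum, Complex.ofReal_sum, sum_congr rfl e2, sum_comm]
      apply sum_congr rfl
      intro r _
      rw [sum_comm]
      apply sum_congr rfl
      intro r' hr'
      rw [mem_range] at hr'
      rw [← mul_sum, MV_diff Ω d M hM1 r r' hr']
    rw [← e1, Complex.norm_real, Real.norm_eq_abs, abs_of_nonneg]
    exact mul_nonneg (sq_nonneg _) (sum_nonneg fun _ _ => sq_nonneg _)
  obtain ⟨a, ha⟩ : ∃ a : ℕ → ℝ, a = fun r => ‖FF G X M r * KK H M r‖ := ⟨_, rfl⟩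
  obtain ⟨c, hc⟩ : ∃ c : ℕ → ℝ, c = fun r => ‖AA S w M r‖ := ⟨_, rfl⟩
  obtain ⟨g, hg⟩ : ∃ g : ℕ → ℝ, g = fun r => ‖FF G X M r‖ := ⟨_, rfl⟩
  have ha0 : ∀ r, 0 ≤ a r := fun r => by rw [ha]; exact norm_nonneg _
  have hc0 : ∀ r, 0 ≤ c r := fun r => by rw [hc]; exact norm_nonneg _
  have hg0 : ∀ r, 0 ≤ g r := fun r => by rw [hg]; exact norm_nonneg _
  have hag : ∀ r, a r ≤ g r := by
    intro r
    rw [ha, hg]
    simp only
    rw [norm_mul]
    exact mul_le_of_le_one_right (norm_nonneg _) (KK_le H M r hH)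
  have hΦn : ∀ r, ‖Φ r‖ = a r * c r := by
    intro r
    rw [hΦ, ha, hc]
    simp only
    rw [← norm_mul, mul_assoc]
  have hMVt : ∀ ρ, ‖MV Ω d M ρ‖ ≤ Ω.card := by
    intro ρ
    unfold MV
    refine (norm_sum_le _ _).trans ?_
    rw [sum_congr rfl (fun v _ => norm_ee _)]
    simp
  -- the two kinds of pairs
  obtain ⟨Bp, hBp⟩ : ∃ Bp : ℕ → ℕ → Prop, Bp = fun r r' => Bd ((r + (M - r')) % M) ∧ Bd ((r' + (M - r)) % M) := ⟨_, rfl⟩
  have hpair : ∀ r ∈ range M, ∀ r' ∈ range M, ‖Φ r * (starRingEnd ℂ) (Φ r') * MV Ω d M ((r + (M - r')) % M)‖ ≤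
      Ω.card * (δ * (a r * c r * (a r' * c r')) +
        ((if Bd ((r + (M - r')) % M) then g r ^ 2 * c r' ^ 2 / 2 else 0) + (if Bd ((r' + (M - r)) % M) then g r' ^ 2 * c r ^ 2 / 2 else 0))) := by
    intro r hr r' hr'
    rw [mem_range] at hr hr'
    rw [norm_mul, norm_mul, Complex.norm_conj, hΦn, hΦn]
    have hO : (0 : ℝ) ≤ Ω.card := Nat.cast_nonneg _
    have hac : 0 ≤ a r * c r * (a r' * c r') := mul_nonneg (mul_nonneg (ha0 _) (hc0 _)) (mul_nonneg (ha0 _) (hc0 _))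
    have hi1 : 0 ≤ (if Bd ((r + (M - r')) % M) then g r ^ 2 * c r' ^ 2 / 2 else 0) := by split_ifs <;> positivity
    have hi2 : 0 ≤ (if Bd ((r' + (M - r)) % M) then g r' ^ 2 * c r ^ 2 / 2 else 0) := by split_ifs <;> positivity
    by_cases h2 : Bd ((r + (M - r')) % M)
    · by_cases h3 : Bd ((r' + (M - r)) % M)
      · rw [if_pos h2, if_pos h3]
        have e1 : a r * c r * (a r' * c r') ≤ g r ^ 2 * c r' ^ 2 / 2 + g r' ^ 2 * c r ^ 2 / 2 := by
          have e2 : a r * c r * (a r' * c r') ≤ (g r * c r') * (g r' * c r) := by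
            calc a r * c r * (a r' * c r') = (a r * a r') * (c r * c r') := by ring
              _ ≤ (g r * g r') * (c r * c r') := by
                  apply mul_le_mul_of_nonneg_right _ (mul_nonneg (hc0 _) (hc0 _))
                  exact mul_le_mul (hag r) (hag r') (ha0 _) (hg0 _)
              _ = _ := by ring
          nlinarith [sq_nonneg (g r * c r' - g r' * c r)]
        calc a r * c r * (a r' * c r') * ‖MV Ω d M ((r + (M - r')) % M)‖ ≤ a r * c r * (a r' * c r') * Ω.card :=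
              mul_le_mul_of_nonneg_left (hMVt _) hac
          _ = Ω.card * (a r * c r * (a r' * c r')) := by ring
          _ ≤ _ := by
              apply mul_le_mul_of_nonneg_left _ hO
              have := mul_nonneg hδ hac
              linarith
      · have e1 := hgood _ (Nat.mod_lt _ (by omega)) h3
        rw [← MV_symm Ω d M hM1 r r' hr hr'] at e1
        calc a r * c r * (a r' * c r') * ‖MV Ω d M ((r + (M - r')) % M)‖ ≤ a r * c r * (a r' * c r') * (δ * Ω.card) :=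
              mul_le_mul_of_nonneg_left e1 hac
          _ = Ω.card * (δ * (a r * c r * (a r' * c r'))) := by ring
          _ ≤ _ := by
              apply mul_le_mul_of_nonneg_left _ hO
              linarith
    · have e1 := hgood _ (Nat.mod_lt _ (by omega)) h2
      calc a r * c r * (a r' * c r') * ‖MV Ω d M ((r + (M - r')) % M)‖ ≤ a r * c r * (a r' * c r') * (δ * Ω.card) :=
            mul_le_mul_of_nonneg_left e1 hac
        _ = Ω.card * (δ * (a r * c r * (a r' * c r'))) := by ring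
        _ ≤ _ := by
            apply mul_le_mul_of_nonneg_left _ hO
            linarith
  -- the sums
  have hcS : ∑ r ∈ range M, c r ^ 2 = M * A2 := by
    rw [hc, hA2]
    exact AA_sq S w M hM1 hS
  have haS : ∑ r ∈ range M, a r ^ 2 ≤ M * (C * X) := by
    rw [ha]
    simp only
    rw [EW_eq G X H M hH hXM]
    exact mul_le_mul_of_nonneg_left hE hM0.le
  have hs1 : ∑ r ∈ range M, ∑ r' ∈ range M, a r * c r * (a r' * c r') ≤ (M * (C * X)) * (M * A2) := by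
    have e1 : ∑ r ∈ range M, ∑ r' ∈ range M, a r * c r * (a r' * c r') = (∑ r ∈ range M, a r * c r) ^ 2 := by
      rw [sq, sum_mul_sum]
    rw [e1]
    refine (sum_mul_sq_le_sq_mul_sq (range M) a c).trans ?_
    rw [hcS]
    exact mul_le_mul_of_nonneg_right haS (by positivity)
  have hs2 : ∑ r ∈ range M, ∑ r' ∈ range M, (if Bd ((r + (M - r')) % M) then g r ^ 2 * c r' ^ 2 / 2 else 0) ≤ (M * X * Y) * (M * A2) / 2 := by
    rw [sum_comm]
    have e1 : ∀ r' ∈ range M, ∑ r ∈ range M, (if Bd ((r + (M - r')) % M) then g r ^ 2 * c r' ^ 2 / 2 else 0) ≤ (M * X * Y) * c r' ^ 2 / 2 := by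
      intro r' _
      rw [← sum_filter]
      have e2 := hbad (M - r')
      have e3 : ∑ r ∈ (range M).filter (fun r => Bd ((r + (M - r')) % M)), g r ^ 2 * c r' ^ 2 / 2 =
          (∑ r ∈ (range M).filter (fun r => Bd ((r + (M - r')) % M)), g r ^ 2) * (c r' ^ 2 / 2) := by
        rw [sum_mul]
        apply sum_congr rfl
        intro r _
        ring
      rw [e3]
      have e4 : (∑ r ∈ (range M).filter (fun r => Bd ((r + (M - r')) % M)), g r ^ 2) * (c r' ^ 2 / 2) ≤ (M * X * Y) * (c r' ^ 2 / 2) := by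
        apply mul_le_mul_of_nonneg_right _ (by positivity)
        rw [hg]
        exact e2
      linarith
    refine (sum_le_sum e1).trans (le_of_eq ?_)
    rw [← hcS, mul_sum, sum_div]
  have hs3 : ∑ r ∈ range M, ∑ r' ∈ range M, (if Bd ((r' + (M - r)) % M) then g r' ^ 2 * c r ^ 2 / 2 else 0) ≤ (M * X * Y) * (M * A2) / 2 := by
    rw [sum_comm]
    exact hs2
  have h3 : ((M : ℝ) ^ 2 * ∑ v ∈ Ω, TT G X H S w (d v) ^ 2 : ℝ) ≤ (M : ℝ) ^ 2 * (Ω.card * ((δ * C + Y) * X * A2)) := by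
    rw [h1]
    refine (norm_sum_le _ _).trans ?_
    refine (sum_le_sum fun r _ => norm_sum_le _ _).trans ?_
    refine (sum_le_sum fun r hr => sum_le_sum fun r' hr' => hpair r hr r' hr').trans ?_
    have e1 : ∑ r ∈ range M, ∑ r' ∈ range M, Ω.card * (δ * (a r * c r * (a r' * c r')) +
        ((if Bd ((r + (M - r')) % M) then g r ^ 2 * c r' ^ 2 / 2 else 0) + (if Bd ((r' + (M - r)) % M) then g r' ^ 2 * c r ^ 2 / 2 else 0))) =
        Ω.card * (δ * (∑ r ∈ range M, ∑ r' ∈ range M, a r * c r * (a r' * c r')) +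
          (∑ r ∈ range M, ∑ r' ∈ range M, (if Bd ((r + (M - r')) % M) then g r ^ 2 * c r' ^ 2 / 2 else 0) +
          ∑ r ∈ range M, ∑ r' ∈ range M, (if Bd ((r' + (M - r)) % M) then g r' ^ 2 * c r ^ 2 / 2 else 0))) := by
      simp only [← mul_sum, sum_add_distrib]
    rw [e1]
    have hO : (0 : ℝ) ≤ Ω.card := Nat.cast_nonneg _
    have e2 := mul_le_mul_of_nonneg_left hs1 hδ
    calc (Ω.card : ℝ) * (δ * (∑ r ∈ range M, ∑ r' ∈ range M, a r * c r * (a r' * c r')) +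
          (∑ r ∈ range M, ∑ r' ∈ range M, (if Bd ((r + (M - r')) % M) then g r ^ 2 * c r' ^ 2 / 2 else 0) +
          ∑ r ∈ range M, ∑ r' ∈ range M, (if Bd ((r' + (M - r)) % M) then g r' ^ 2 * c r ^ 2 / 2 else 0))) ≤
          Ω.card * (δ * ((M * (C * X)) * (M * A2)) + ((M * X * Y) * (M * A2) / 2 + (M * X * Y) * (M * A2) / 2)) := by
          apply mul_le_mul_of_nonneg_left _ hO
          linarith
      _ = _ := by ring
  rw [← hA2]
  exact le_of_mul_le_mul_left h3 (by positivity)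

end Pool.Agent.H86.PW
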