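import Pool.Agent.H86.P2
import Pool.Agent.H86.L9

set_option autoImplicit false
set_option linter.unusedSectionVars false

/-! The family of sums of few powers of `b`. -/

namespace Pool.Agent.H86.PW
open Finset
open Pool.Agent.H807R2.Dav (ee norm_ee ee_zero ee_add)
open Pool.Agent.H373R2.T7
open Pool.Agent.W93.DG
open Pool.Agent.W93.HD
open Pool.Agent.H86.DL (bad_sq_shift PS PS_sum PS_pow PS_zero PS_add PS_mono fl0 ne_shift_window)

/-- the bound for a change of one block -/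
noncomputable def ON (b M : ℕ) (J : Finset ℕ) (r : ℕ) : ℝ := ∑ j ∈ J, ‖1 + ee (-((fl b 0 j : ℝ) * ((r : ℝ) / (M : ℝ))))‖

lemma ON_nonneg (b M : ℕ) (J : Finset ℕ) (r : ℕ) : 0 ≤ ON b M J r := sum_nonneg fun _ _ => norm_nonneg _

lemma ON_le (b K x l r : ℕ) (hb : 2 ≤ b) (hx : x + l ≤ K) :
    ON b (b ^ (K + 1)) (Ico x (x + l)) r ≤ 2 * l - 4 / (b : ℝ) ^ 4 * ne b (K - x - l) l r := by
  unfold ON
  have h1 : ∀ j ∈ Ico x (x + l), ‖1 + ee (-((fl b 0 j : ℝ) * ((r : ℝ) / ((b ^ (K + 1) : ℕ) : ℝ))))‖ ≤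
      2 - 4 / (b : ℝ) ^ 4 * (if ¬ Ext b (K - 1 - j) r then 1 else 0) := by
    intro j hj
    rw [mem_Ico] at hj
    refine (term_le b 0 K j r hb (by omega)).trans (le_of_eq ?_)
    split_ifs <;> ring
  refine (sum_le_sum h1).trans ?_
  rw [sum_sub_distrib, sum_const, Nat.card_Ico, Nat.add_sub_cancel_left, nsmul_eq_mul, ← mul_sum]
  have h2 : ∑ j ∈ Ico x (x + l), (if ¬ Ext b (K - 1 - j) r then (1 : ℝ) else 0) = ne b (K - x - l) l r := by
    unfold ne
    rw [← sum_filter, sum_const, nsmul_eq_mul, mul_one]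
    congr 1
    apply card_bij (fun j _ => K - 1 - j)
    · intro j hj
      rw [mem_filter, mem_Ico] at hj ⊢
      exact ⟨⟨by omega, by omega⟩, hj.2⟩
    · intro j hj j' hj' h
      rw [mem_filter, mem_Ico] at hj hj'
      omega
    · intro i hi
      rw [mem_filter, mem_Ico] at hi
      refine ⟨K - 1 - i, ?_, by omega⟩
      rw [mem_filter, mem_Ico]
      have : K - 1 - (K - 1 - i) = i := by omega
      rw [this]
      exact ⟨⟨by omega, by omega⟩, hi.2⟩
  rw [h2]
  linarith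

lemma ON_le' (b K x l r : ℕ) (hb : 2 ≤ b) (hx : x + l ≤ K) :
    ON b (b ^ (K + 1)) (Ico x (x + l)) r ≤ 2 * l := by
  refine (ON_le b K x l r hb hx).trans ?_
  have : 0 ≤ 4 / (b : ℝ) ^ 4 * ne b (K - x - l) l r := by positivity
  linarith

lemma ON_exp (b K x l r : ℕ) (hb : 2 ≤ b) (hx : x + l ≤ K) (hl : 1 ≤ l) :
    ON b (b ^ (K + 1)) (Ico x (x + l)) r ≤ 2 * l * Real.exp (-(2 / (b : ℝ) ^ 4 * ne b (K - x - l) l r / l)) := by
  refine (ON_le b K x l r hb hx).trans ?_
  have hl0 : (0 : ℝ) < l := by exact_mod_cast hl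
  have h1 := Real.add_one_le_exp (-(2 / (b : ℝ) ^ 4 * ne b (K - x - l) l r / l))
  have h2 : 2 * (l : ℝ) * (-(2 / (b : ℝ) ^ 4 * ne b (K - x - l) l r / l) + 1) = 2 * l - 4 / (b : ℝ) ^ 4 * ne b (K - x - l) l r := by
    field_simp
    ring
  rw [← h2]
  exact mul_le_mul_of_nonneg_left h1 (by positivity)

/-- a window, divided into `s` blocks -/
lemma window_leN (b K x w s r : ℕ) (hb : 2 ≤ b) (hs : 1 ≤ s) (hx : x + w ≤ K) (hl : 1 ≤ w / s) :
    ∏ i ∈ range s, ON b (b ^ (K + 1)) (Ico (x + i * (w / s)) (x + i * (w / s) + w / s)) r ≤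
      (2 * ((w / s : ℕ) : ℝ)) ^ s * Real.exp (-(2 / (b : ℝ) ^ 4 * ((ne b (K - x - w) w r : ℝ) - s) / ((w / s : ℕ) : ℝ))) := by
  obtain ⟨l, hld⟩ : ∃ l, l = w / s := ⟨_, rfl⟩
  rw [← hld] at hl ⊢
  have hl0 : (0 : ℝ) < l := by exact_mod_cast hl
  have hsl : s * l ≤ w := by rw [hld]; exact Nat.mul_div_le w s
  have hsl2 : w < s * l + s := by
    have := Nat.lt_mul_div_succ w (show 0 < s by omega)
    rw [← hld] at this
    rw [mul_add, mul_one] at this
    exact this
  have hblk : ∀ i ∈ range s, x + i * l + l ≤ K := by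
    intro i hi
    rw [mem_range] at hi
    have : (i + 1) * l ≤ s * l := Nat.mul_le_mul_right _ hi
    rw [add_mul, one_mul] at this
    omega
  have h1 : ∏ i ∈ range s, ON b (b ^ (K + 1)) (Ico (x + i * l) (x + i * l + l)) r ≤
      ∏ i ∈ range s, (2 * (l : ℝ) * Real.exp (-(2 / (b : ℝ) ^ 4 * ne b (K - (x + i * l) - l) l r / l))) :=
    prod_le_prod (fun _ _ => ON_nonneg _ _ _ _) fun i hi => ON_exp b K (x + i * l) l r hb (hblk i hi) hl
  refine h1.trans ?_
  rw [prod_mul_distrib, prod_const, card_range, ← Real.exp_sum]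
  apply mul_le_mul_of_nonneg_left _ (by positivity)
  apply Real.exp_le_exp.2
  have h2 : ∑ i ∈ range s, -(2 / (b : ℝ) ^ 4 * ne b (K - (x + i * l) - l) l r / l) =
      -(2 / (b : ℝ) ^ 4 * (ne b (K - x - s * l) (s * l) r : ℝ) / l) := by
    rw [← ne_blocks b (K - x - s * l) l s r]
    push_cast
    rw [mul_sum, sum_div, ← sum_neg_distrib]
    apply sum_congr rfl
    intro i hi
    rw [mem_range] at hi
    have e1 : K - (x + i * l) - l = K - x - s * l + (s - 1 - i) * l := by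
      have e2 : s * l = (s - 1 - i) * l + (i * l + l) := by
        have : s = (s - 1 - i) + (i + 1) := by omega
        calc s * l = ((s - 1 - i) + (i + 1)) * l := by rw [← this]
          _ = _ := by ring
      omega
    rw [e1]
  rw [h2, neg_le_neg_iff]
  have h3 : ne b (K - x - w) w r ≤ ne b (K - x - s * l) (s * l) r + (w - s * l) := by
    have e1 : ne b (K - x - w) w r ≤ ne b (K - x - w) (w - s * l) r + ne b (K - x - s * l) (s * l) r := by
      unfold ne
      rw [← card_union_of_disjoint]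
      · apply card_le_card
        intro j hj
        rw [mem_union, mem_filter, mem_filter, mem_Ico, mem_Ico]
        rw [mem_filter, mem_Ico] at hj
        rcases Nat.lt_or_ge j (K - x - s * l) with h | h
        · left; exact ⟨⟨by omega, by omega⟩, hj.2⟩
        · right; exact ⟨⟨by omega, by omega⟩, hj.2⟩
      · rw [disjoint_left]
        intro j hj hj'
        rw [mem_filter, mem_Ico] at hj hj'
        omega
    have e2 := ne_le b (K - x - w) (w - s * l) r
    omega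
  have h4 : (ne b (K - x - w) w r : ℝ) - s ≤ ne b (K - x - s * l) (s * l) r := by
    have : (ne b (K - x - w) w r : ℝ) ≤ ne b (K - x - s * l) (s * l) r + s := by
      exact_mod_cast h3.trans (by omega)
    linarith
  apply div_le_div_of_nonneg_right _ hl0.le
  exact mul_le_mul_of_nonneg_left h4 (by positivity)

lemma window_leN' (b K x w s r : ℕ) (hb : 2 ≤ b) (hx : x + w ≤ K) :
    ∏ i ∈ range s, ON b (b ^ (K + 1)) (Ico (x + i * (w / s)) (x + i * (w / s) + w / s)) r ≤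
      (2 * ((w / s : ℕ) : ℝ)) ^ s := by
  obtain ⟨l, hld⟩ : ∃ l, l = w / s := ⟨_, rfl⟩
  have hsl : s * l ≤ w := by rw [hld]; exact Nat.mul_div_le w s
  rw [← hld]
  have h1 : ∏ i ∈ range s, ON b (b ^ (K + 1)) (Ico (x + i * l) (x + i * l + l)) r ≤ ∏ _i ∈ range s, (2 * (l : ℝ)) := by
    apply prod_le_prod (fun _ _ => ON_nonneg _ _ _ _)
    intro i hi
    rw [mem_range] at hi
    have : (i + 1) * l ≤ s * l := Nat.mul_le_mul_right _ hi
    rw [add_mul, one_mul] at this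
    exact ON_le' b K (x + i * l) l r hb (by omega)
  rwa [prod_const, card_range] at h1


/-- uniqueness of the digits -/
lemma dig_inj (b : ℕ) (hb : 1 ≤ b) (K : ℕ) : ∀ f g : ℕ → ℕ, (∀ j, f j < b) → (∀ j, g j < b) →
    ∑ j ∈ range K, f j * b ^ j = ∑ j ∈ range K, g j * b ^ j → ∀ j < K, f j = g j := by
  induction K with
  | zero => intro f g _ _ _ j hj; omega
  | succ K ih =>
    intro f g hf hg h j hj
    rw [sum_range_succ', sum_range_succ', pow_zero, mul_one, mul_one] at h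
    have e1 : ∀ u : ℕ → ℕ, ∑ k ∈ range K, u (k + 1) * b ^ (k + 1) = b * ∑ k ∈ range K, u (k + 1) * b ^ k := by
      intro u
      rw [mul_sum]
      apply sum_congr rfl
      intro k _
      ring
    rw [e1, e1] at h
    have h0 : f 0 = g 0 := by
      have h1 := congrArg (fun n => n % b) h
      simp only [Nat.mul_add_mod, Nat.mod_eq_of_lt (hf 0), Nat.mod_eq_of_lt (hg 0)] at h1
      exact h1
    have h1 : ∑ k ∈ range K, f (k + 1) * b ^ k = ∑ k ∈ range K, g (k + 1) * b ^ k := by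
      have h2 : b * ∑ k ∈ range K, f (k + 1) * b ^ k = b * ∑ k ∈ range K, g (k + 1) * b ^ k := by omega
      exact Nat.eq_of_mul_eq_mul_left (by omega) h2
    rcases Nat.eq_zero_or_pos j with hj0 | hj0
    · rw [hj0]; exact h0
    · have := ih (fun k => f (k + 1)) (fun k => g (k + 1)) (fun k => hf _) (fun k => hg _) h1 (j - 1) (by omega)
      rwa [Nat.sub_add_cancel hj0] at this

section Omega
variable {ι : Type} [Fintype ι] [DecidableEq ι]

/-- the value of a choice -/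
def sd (b : ℕ) (v : ι → ℕ × ℕ) : ℕ := ∑ c, (1 + (v c).2) * b ^ (v c).1

lemma sd_PS (b : ℕ) (x l : ι → ℕ) (v : ι → ℕ × ℕ) (hv : v ∈ Ov x l) : PS b (2 * Fintype.card ι) (sd b v) := by
  have h1 : sd b v = ∑ c, b ^ (v c).1 + ∑ c, (v c).2 * b ^ (v c).1 := by
    unfold sd
    rw [← sum_add_distrib]
    apply sum_congr rfl
    intro c _
    ring
  rw [h1, two_mul]
  apply PS_add
  · rw [← card_univ]
    exact PS_sum b univ _ fun c _ => PS_pow _ _
  · rw [← card_univ]
    apply PS_sum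
    intro c _
    unfold Ov at hv
    rw [Fintype.mem_piFinset] at hv
    have h3 := hv c
    rw [mem_product, mem_range] at h3
    have h4 : (v c).2 = 0 ∨ (v c).2 = 1 := by omega
    rcases h4 with h4 | h4
    · rw [h4, zero_mul]; exact PS_zero _ _
    · rw [h4, one_mul]; exact PS_pow _ _

lemma sd_le (b E : ℕ) (hb : 2 ≤ b) (x l : ι → ℕ) (hx : ∀ c, x c + l c ≤ E + 1) (v : ι → ℕ × ℕ) (hv : v ∈ Ov x l) :
    sd b v ≤ 2 * Fintype.card ι * b ^ E := by
  unfold Ov at hv
  rw [Fintype.mem_piFinset] at hv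
  unfold sd
  have h2 : ∑ c, (1 + (v c).2) * b ^ (v c).1 ≤ ∑ _c : ι, 2 * b ^ E := by
    apply sum_le_sum
    intro c _
    have h := hv c
    rw [mem_product, mem_Ico, mem_range] at h
    have h3 := hx c
    exact Nat.mul_le_mul (by omega) (Nat.pow_le_pow_right (by omega) (by omega))
  rw [sum_const, card_univ, smul_eq_mul] at h2
  calc _ ≤ Fintype.card ι * (2 * b ^ E) := h2
    _ = _ := by ring

/-- the positions of a choice -/
def dg (v : ι → ℕ × ℕ) (j : ℕ) : ℕ := ∑ c, if (v c).1 = j then 1 + (v c).2 else 0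

lemma dg_self (x l : ι → ℕ) (hdis : ∀ c c', c ≠ c' → x c + l c ≤ x c' ∨ x c' + l c' ≤ x c) (v : ι → ℕ × ℕ) (hv : v ∈ Ov x l) (c : ι) (j : ℕ)
    (hj : x c ≤ j ∧ j < x c + l c) : dg v j = if (v c).1 = j then 1 + (v c).2 else 0 := by
  unfold Ov at hv
  rw [Fintype.mem_piFinset] at hv
  unfold dg
  rw [sum_eq_single c]
  · intro c' _ hc
    rw [if_neg]
    intro h
    have h1 := hv c'
    rw [mem_product, mem_Ico] at h1
    have h2 := hdis c' c hc
    omega
  · intro h; exact absurd (mem_univ c) h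

lemma dg_le (x l : ι → ℕ) (hdis : ∀ c c', c ≠ c' → x c + l c ≤ x c' ∨ x c' + l c' ≤ x c) (v : ι → ℕ × ℕ) (hv : v ∈ Ov x l) (j : ℕ) : dg v j ≤ 2 := by
  by_cases h : ∃ c, (v c).1 = j
  · obtain ⟨c, hc⟩ := h
    have hv' := hv
    unfold Ov at hv'
    rw [Fintype.mem_piFinset] at hv'
    have h1 := hv' c
    rw [mem_product, mem_Ico, mem_range] at h1
    rw [dg_self x l hdis v hv c j (by omega), if_pos hc]
    omega
  · push Not at h
    unfold dg
    rw [sum_eq_zero fun c _ => if_neg (h c)]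
    omega

lemma sd_eq (b K : ℕ) (v : ι → ℕ × ℕ) (hv : ∀ c, (v c).1 < K) : sd b v = ∑ j ∈ range K, dg v j * b ^ j := by
  unfold sd dg
  have h1 : ∀ j ∈ range K, (∑ c, if (v c).1 = j then 1 + (v c).2 else 0) * b ^ j = ∑ c, if (v c).1 = j then (1 + (v c).2) * b ^ j else 0 := by
    intro j _
    rw [sum_mul]
    apply sum_congr rfl
    intro c _
    split_ifs
    · rfl
    · rw [zero_mul]
  rw [sum_congr rfl h1, sum_comm]
  apply sum_congr rfl
  intro c _
  rw [sum_ite_eq (range K) (v c).1, if_pos (mem_range.2 (hv c))]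

lemma sd_inj (b K : ℕ) (hb : 3 ≤ b) (x l : ι → ℕ) (hdis : ∀ c c', c ≠ c' → x c + l c ≤ x c' ∨ x c' + l c' ≤ x c)
    (hK : ∀ c, x c + l c ≤ K) (v v' : ι → ℕ × ℕ) (hv : v ∈ Ov x l) (hv' : v' ∈ Ov x l) (h : sd b v = sd b v') : v = v' := by
  have hv1 := hv
  have hv2 := hv'
  unfold Ov at hv1 hv2
  rw [Fintype.mem_piFinset] at hv1 hv2
  have e1 : ∀ c, (x c ≤ (v c).1 ∧ (v c).1 < x c + l c) := fun c => by
    have := hv1 c
    rw [mem_product, mem_Ico] at this
    exact this.1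
  have e2 : ∀ c, (x c ≤ (v' c).1 ∧ (v' c).1 < x c + l c) := fun c => by
    have := hv2 c
    rw [mem_product, mem_Ico] at this
    exact this.1
  rw [sd_eq b K v (fun c => by have := e1 c; have := hK c; omega), sd_eq b K v' (fun c => by have := e2 c; have := hK c; omega)] at h
  have h1 := dig_inj b (by omega) K (dg v) (dg v') (fun j => by have := dg_le x l hdis v hv j; omega)
    (fun j => by have := dg_le x l hdis v' hv' j; omega) h
  ext1 c
  have h2 := h1 (v c).1 (by have := e1 c; have := hK c; omega)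
  rw [dg_self x l hdis v hv c _ (e1 c), dg_self x l hdis v' hv' c _ (e1 c), if_pos rfl] at h2
  split_ifs at h2 with h3
  · apply Prod.ext
    · exact h3.symm
    · omega
  · omega

lemma MV_le (b M : ℕ) (x l : ι → ℕ) (ρ : ℕ) : ‖MV (Ov x l) (sd b) M ρ‖ ≤ ∏ c, ON b M (Ico (x c) (x c + l c)) ρ := by
  obtain ⟨χ, hχ⟩ : ∃ χ : ℕ → ℂ, χ = fun n : ℕ => ee (-((n : ℝ) * ((ρ : ℝ) / (M : ℝ)))) := ⟨_, rfl⟩
  have h0 : χ 0 = 1 := by rw [hχ]; simp [ee_zero]
  have hn : ∀ a, ‖χ a‖ = 1 := by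
    intro a
    rw [hχ]
    exact norm_ee _
  have hadd : ∀ a a', χ (a + a') = χ a * χ a' := by
    intro a a'
    rw [hχ]
    simp only
    rw [← ee_add]
    congr 1
    push_cast
    ring
  have hsum : ∀ (S : Finset ι) (f : ι → ℕ), χ (∑ c ∈ S, f c) = ∏ c ∈ S, χ (f c) := by
    intro S f
    induction S using Finset.induction_on with
    | empty => simp [h0]
    | insert a s ha ih => rw [sum_insert ha, prod_insert ha, hadd, ih]
  have hprod : ∏ c, ∑ j ∈ Ico (x c) (x c + l c), (χ (b ^ j) * (1 + χ (b ^ j))) =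
      ∑ v ∈ Ov x l, ∏ c, χ ((1 + (v c).2) * b ^ (v c).1) := by
    unfold Ov
    rw [← Finset.prod_univ_sum (t := fun c => (Ico (x c) (x c + l c)) ×ˢ range 2)
      (f := fun _ p => χ ((1 + p.2) * b ^ p.1))]
    apply prod_congr rfl
    intro c _
    rw [sum_product]
    apply sum_congr rfl
    intro j _
    rw [sum_range_succ, sum_range_succ, sum_range_zero, zero_add]
    simp only
    rw [add_zero, one_mul, show (1 + 1) * b ^ j = b ^ j + b ^ j by ring, hadd]
    ring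
  have h1 : MV (Ov x l) (sd b) M ρ = ∑ v ∈ Ov x l, χ (sd b v) := by
    rw [hχ]
    rfl
  have h2 : MV (Ov x l) (sd b) M ρ = ∏ c, ∑ j ∈ Ico (x c) (x c + l c), (χ (b ^ j) * (1 + χ (b ^ j))) := by
    rw [h1, hprod]
    apply sum_congr rfl
    intro v _
    unfold sd
    rw [hsum]
  rw [h2, norm_prod]
  apply prod_le_prod
  · intro c _; exact norm_nonneg _
  · intro c _
    unfold ON
    refine (norm_sum_le _ _).trans ?_
    apply sum_le_sum
    intro j _
    rw [norm_mul, hn, one_mul, hχ]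
    simp only [fl0, Int.cast_natCast]
    exact le_rfl

end Omega

/-- the family -/
theorem fam (b : ℕ) (hb3 : 3 ≤ b) : ∃ R : ℕ, 1 ≤ R ∧ ∀ U : ℕ, ∃ A B : ℕ, U ≤ A ∧ ∀ Ez : ℕ, ∃ K₀ : ℕ, ∀ K : ℕ, K₀ ≤ K →
    ∀ s c : ℕ, 1 ≤ s → 1 ≤ c → 2 * (R * s) + 2 * (c * R) + 2 * s + 4 ≤ hh b A K →
    ∃ (Ω : Finset (Fin 3 × Fin s → ℕ × ℕ)) (Bd : ℕ → Prop), Ω.Nonempty ∧ (∀ v ∈ Ω, PS b (6 * s) (sd b v) ∧ sd b v ≤ 6 * s * b ^ (K - c)) ∧
      (∀ v ∈ Ω, ∀ v' ∈ Ω, sd b v = sd b v' → v = v') ∧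
      (∀ ρ, ¬ Bd ρ → ‖MV Ω (sd b) (b ^ (K + 1)) ρ‖ ≤ Real.exp (-((s : ℝ) / (R * (b : ℝ) ^ 4))) * Ω.card) ∧
      ∀ z : ℕ, Real.log ((b ^ K : ℕ) : ℝ) ^ B ≤ z → (z : ℝ) ≤ Real.log ((b ^ K : ℕ) : ℝ) ^ Ez → ∀ (r₀ : ℕ) (S : Finset ℕ),
        (∀ r ∈ S, r < b ^ (K + 1) ∧ Bd ((r + r₀) % b ^ (K + 1))) →
        ∑ r ∈ S, ‖FF (fun n => ArithmeticFunction.vonMangoldt n - lamz z n) (b ^ K) (b ^ (K + 1)) r‖ ^ 2 ≤
          ((b ^ (K + 1) : ℕ) : ℝ) * ((b ^ K : ℕ) : ℝ) / (K : ℝ) ^ U := by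
  classical
  have hb : 2 ≤ b := by omega
  have hbn : 0 < b := by omega
  have hb1 : 1 < b := by omega
  have hbr : (2 : ℝ) ≤ b := by exact_mod_cast hb
  have hb0 : (0 : ℝ) < b := by linarith
  obtain ⟨R, hR, hbad⟩ := bad_sq_shift b hb
  refine ⟨R, hR, fun U => ?_⟩
  obtain ⟨A, B, hUA, hB⟩ := hbad U
  refine ⟨A, B, hUA, fun Ez => ?_⟩
  obtain ⟨k1, h1⟩ := hB Ez
  obtain ⟨k4, h4⟩ := hh_small b A (512 * b) hb
  refine ⟨k1 + k4 + 64 * b + 8, fun K hK s c hs1 hc1 hhs => ?_⟩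
  have hR0 : (0 : ℝ) < R := by exact_mod_cast hR
  obtain ⟨δ, hδ⟩ : ∃ δ : ℝ, δ = Real.exp (-((s : ℝ) / (R * (b : ℝ) ^ 4))) := ⟨_, rfl⟩
  have hδ0 : 0 < δ := by rw [hδ]; exact Real.exp_pos _
  have hδ1 : δ ≤ 1 := by
    rw [hδ, Real.exp_le_one_iff, neg_nonpos]
    positivity
  have hδs : Real.exp (-((s : ℝ) / (R * (b : ℝ) ^ 4))) ≤ δ := hδ.ge
  rw [← hδ]
  -- the windows
  obtain ⟨h, hh'⟩ : ∃ h, h = hh b A K := ⟨_, rfl⟩
  rw [← hh'] at hhs
  obtain ⟨g, hg⟩ : ∃ g, g = K / (16 * b) / 8 := ⟨_, rfl⟩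
  have hcR : c ≤ c * R := Nat.le_mul_of_pos_right _ (by omega)
  have hsR : s ≤ R * s := Nat.le_mul_of_pos_left _ (by omega)
  have hRs2 : 2 * R * s = 2 * (R * s) := by ring
  have hgh : 4 * h ≤ g := by
    have e1 := h4 K (by omega)
    rw [← hh'] at e1
    rw [hg, Nat.div_div_eq_div_mul]
    apply (Nat.le_div_iff_mul_le (by omega)).2
    calc 4 * h * (16 * b * 8) = 512 * b * h := by ring
      _ ≤ K := e1
  have hgK : 128 * b * g ≤ K := by
    rw [hg, Nat.div_div_eq_div_mul]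
    have : 16 * b * 8 = 128 * b := by ring
    rw [this]
    exact Nat.mul_div_le K (128 * b)
  have hgK3 : 256 * g ≤ K := by
    refine le_trans ?_ hgK
    exact Nat.mul_le_mul_right _ (by omega)
  obtain ⟨st, hst0, hst1, hst2⟩ : ∃ st : Fin 3 → ℕ, st 0 = 1 ∧ st 1 = K - c - h ∧ st 2 = g := ⟨![1, K - c - h, g], rfl, rfl, rfl⟩
  obtain ⟨len, hln0, hln1, hln2⟩ : ∃ len : Fin 3 → ℕ, len 0 = h ∧ len 1 = h ∧ len 2 = K - 2 * g := ⟨![h, h, K - 2 * g], rfl, rfl, rfl⟩
  have hq3 : ∀ q : Fin 3, q = 0 ∨ q = 1 ∨ q = 2 := by decide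
  have hwin : ∀ q, 1 ≤ st q ∧ st q + len q + c ≤ K ∧ s ≤ len q := by
    intro q
    rcases hq3 q with rfl | rfl | rfl
    · rw [hst0, hln0]; omega
    · rw [hst1, hln1]; omega
    · rw [hst2, hln2]; omega
  have hwdis : ∀ q q' : Fin 3, q ≠ q' → st q + len q ≤ st q' ∨ st q' + len q' ≤ st q := by
    intro q q' hqq
    rcases hq3 q with rfl | rfl | rfl <;> rcases hq3 q' with rfl | rfl | rfl <;>
      first | exact absurd rfl hqq | (simp only [hst0, hst1, hst2, hln0, hln1, hln2]; omega)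
  obtain ⟨x, hx⟩ : ∃ x : Fin 3 × Fin s → ℕ, x = fun c => st c.1 + c.2 * (len c.1 / s) := ⟨_, rfl⟩
  obtain ⟨l, hl⟩ : ∃ l : Fin 3 × Fin s → ℕ, l = fun c => len c.1 / s := ⟨_, rfl⟩
  have hl1 : ∀ q, 1 ≤ len q / s := fun q => (Nat.le_div_iff_mul_le (by omega)).2 (by rw [one_mul]; exact (hwin q).2.2)
  have hxl : ∀ c : Fin 3 × Fin s, st c.1 ≤ x c ∧ x c + l c ≤ st c.1 + len c.1 := by
    intro c
    rw [hx, hl]
    simp only
    have e1 : (c.2 : ℕ) * (len c.1 / s) + len c.1 / s ≤ len c.1 := by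
      calc (c.2 : ℕ) * (len c.1 / s) + len c.1 / s = ((c.2 : ℕ) + 1) * (len c.1 / s) := by ring
        _ ≤ s * (len c.1 / s) := Nat.mul_le_mul_right _ c.2.2
        _ ≤ len c.1 := Nat.mul_div_le _ _
    omega
  have hxlK : ∀ c', x c' + l c' + c ≤ K := fun c' => by
    have := (hxl c').2
    have := (hwin c'.1).2.1
    omega
  have hdis : ∀ c c', c ≠ c' → x c + l c ≤ x c' ∨ x c' + l c' ≤ x c := by
    intro c1 c2 hcc
    by_cases hq : c1.1 = c2.1
    · have hne : c1.2 ≠ c2.2 := fun h => hcc (Prod.ext hq h)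
      have e1 : ∀ i j : ℕ, i < j → ∀ q, st q + i * (len q / s) + len q / s ≤ st q + j * (len q / s) := by
        intro i j hij q
        have : (i + 1) * (len q / s) ≤ j * (len q / s) := Nat.mul_le_mul_right _ hij
        rw [add_mul, one_mul] at this
        omega
      rw [hx, hl]
      simp only
      rw [hq]
      rcases Nat.lt_or_gt_of_ne (fun h => hne (Fin.ext h)) with h5 | h5
      · left; exact e1 _ _ h5 _
      · right; exact e1 _ _ h5 _
    · have h5 := hwdis c1.1 c2.1 hq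
      have h6 := hxl c1
      have h7 := hxl c2
      omega
  have hcardι : Fintype.card (Fin 3 × Fin s) = 3 * s := by
    rw [Fintype.card_prod, Fintype.card_fin, Fintype.card_fin]
  have h6s : 2 * (3 * s) = 6 * s := by ring
  refine ⟨Ov x l, fun ρ => Bad b R K h (K / (16 * b)) ρ, ?_, fun v hv => ⟨?_, ?_⟩, ?_, ?_, ?_⟩
  · rw [← card_pos, card_Ov]
    apply Nat.pos_of_ne_zero
    rw [prod_ne_zero_iff]
    intro c' _
    have : 1 ≤ l c' := by rw [hl]; exact hl1 c'.1
    omega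
  · have := sd_PS b x l v hv
    rwa [hcardι, h6s] at this
  · have := sd_le b (K - c) hb x l (fun c' => by have := hxlK c'; omega) v hv
    rwa [hcardι, h6s] at this
  · intro v hv v' hv'
    exact sd_inj b K hb3 x l hdis (fun c' => by have := hxlK c'; omega) v v' hv hv'
  · intro r hr
    have hcardΩ : ((Ov x l).card : ℝ) = ∏ c', (2 * (l c' : ℝ)) := by
      rw [card_Ov]
      push_cast
      rfl
    refine (MV_le b _ x l r).trans ?_
    rw [hcardΩ]
    have hprodc : ∏ c', ON b (b ^ (K + 1)) (Ico (x c') (x c' + l c')) r =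
        ∏ q : Fin 3, ∏ i ∈ range s, ON b (b ^ (K + 1)) (Ico (st q + i * (len q / s)) (st q + i * (len q / s) + len q / s)) r := by
      rw [Fintype.prod_prod_type]
      apply prod_congr rfl
      intro q _
      rw [← Fin.prod_univ_eq_prod_range (fun i => ON b (b ^ (K + 1)) (Ico (st q + i * (len q / s)) (st q + i * (len q / s) + len q / s)) r) s]
      rw [hx, hl]
    have hTtq : ∏ c', (2 * (l c' : ℝ)) = ∏ q : Fin 3, (2 * ((len q / s : ℕ) : ℝ)) ^ s := by
      rw [Fintype.prod_prod_type]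
      apply prod_congr rfl
      intro q _
      rw [hl]
      simp only
      rw [prod_const, card_univ, Fintype.card_fin]
    -- one of the windows
    have hex : ∃ q : Fin 3, ∃ E : ℕ, len q ≤ E ∧ 2 * R * s ≤ E ∧ E ≤ ne b (K - st q - len q) (len q) r * R := by
      unfold Bad at hr
      rw [← hg] at hr
      by_cases c1 : ne b (K - 1 - h) h r * R ≤ 2 * h
      · by_cases c2 : ne b 1 h r * R ≤ 2 * h
        · by_cases c3 : ne b g (K - 2 * g) r * R ≤ K
          · exact absurd ⟨c1, c2, c3⟩ hr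
          · refine ⟨2, K, ?_, ?_, ?_⟩
            · rw [hln2]; omega
            · omega
            · rw [hst2, hln2]
              have : K - g - (K - 2 * g) = g := by omega
              rw [this]
              omega
        · refine ⟨1, h, ?_, by omega, ?_⟩
          · rw [hln1]
          · rw [hst1, hln1]
            have : K - (K - c - h) - h = c := by omega
            rw [this]
            have e1 := ne_shift_window b c h r (by omega)
            have e2 := Nat.mul_le_mul_right R e1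
            rw [add_mul] at e2
            omega
      · refine ⟨0, h, ?_, by omega, ?_⟩
        · rw [hln0]
        · rw [hst0, hln0]
          omega
    obtain ⟨q, E, hE1, hE2, hE3⟩ := hex
    rw [hprodc, hTtq]
    apply three_prod _ _ δ hδ1 (fun q => prod_nonneg fun _ _ => ON_nonneg _ _ _ _)
      (fun q => window_leN' b K (st q) (len q) s r hb (by have := hwin q; omega)) q _ hδ0.le
    have e1 := window_leN b K (st q) (len q) s r hb hs1 (by have := hwin q; omega) (hl1 q)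
    refine e1.trans ?_
    apply mul_le_mul_of_nonneg_left _ (by positivity)
    apply window_num b R s (len q) E _ δ hb hR hs1 (hl1 q) hE1 hE2 _ hδs
    exact_mod_cast hE3
  · intro z hz1 hz2 r₀ S hS
    apply h1 K (by omega) z hz1 hz2 r₀ S
    intro r hr
    rw [← hh']
    exact hS r hr

end Pool.Agent.H86.PW
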