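import Pool.Agent.H86.P2
import Pool.Agent.H86.L6

set_option autoImplicit false
set_option linter.unusedSectionVars false

/-! Energies of windows. -/

namespace Pool.Agent.H86.PW
open Finset
open Pool.Agent.H807R2.Dav (ee norm_ee ee_zero ee_add)
open Pool.Agent.H373R2.T7
open Pool.Agent.W93.DG
open Pool.Agent.W93.HD
open Pool.Agent.H86.DL (sg al be al_nonneg be_nonneg al_be al_be' loc Vz_inv_eq pair_asym Q1 Q1_per)

lemma EW_trivial (G : ℕ → ℝ) (X H : ℕ) (hH : 1 ≤ H) : EW G X H ≤ ∑ a ∈ Icc 1 X, G a ^ 2 := by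
  have h1 := EW_eq G X H (X + H) hH le_rfl
  have h2 := FF_pars G X (X + H) (by omega) (by omega)
  have hM0 : (0 : ℝ) < ((X + H : ℕ) : ℝ) := by exact_mod_cast (by omega : 0 < X + H)
  have h3 : ∑ r ∈ range (X + H), ‖FF G X (X + H) r * KK H (X + H) r‖ ^ 2 ≤ ∑ r ∈ range (X + H), ‖FF G X (X + H) r‖ ^ 2 := by
    apply sum_le_sum
    intro r _
    apply pow_le_pow_left₀ (norm_nonneg _)
    rw [norm_mul]
    exact mul_le_of_le_one_right (norm_nonneg _) (KK_le H _ r hH)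
  rw [h1, h2] at h3
  exact le_of_mul_le_mul_left h3 hM0

lemma EW_three (c : ℝ) (f g h : ℕ → ℝ) (X H : ℕ) (hH : 1 ≤ H) :
    EW (fun a => c * f a + (g a + h a)) X H ≤ 3 * (c ^ 2 * EW f X H + EW g X H + EW h X H) := by
  obtain ⟨M, hM⟩ : ∃ M, M = X + H := ⟨_, rfl⟩
  have hM0 : (0 : ℝ) < M := by exact_mod_cast (by omega : 0 < M)
  have h1 := EW_eq (fun a => c * f a + (g a + h a)) X H M hH hM.ge
  have h2 := EW_eq f X H M hH hM.ge
  have h3 := EW_eq g X H M hH hM.ge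
  have h4 := EW_eq h X H M hH hM.ge
  have h5 : ∀ r ∈ range M, ‖FF (fun a => c * f a + (g a + h a)) X M r * KK H M r‖ ^ 2 ≤
      3 * (c ^ 2 * ‖FF f X M r * KK H M r‖ ^ 2 + ‖FF g X M r * KK H M r‖ ^ 2 + ‖FF h X M r * KK H M r‖ ^ 2) := by
    intro r _
    have e1 : FF (fun a => c * f a + (g a + h a)) X M r * KK H M r =
        (c : ℂ) * (FF f X M r * KK H M r) + (FF g X M r * KK H M r + FF h X M r * KK H M r) := by
      have : FF (fun a => c * f a + (g a + h a)) X M r = (c : ℂ) * FF f X M r + (FF g X M r + FF h X M r) := by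
        unfold FF
        rw [mul_sum, ← sum_add_distrib, ← sum_add_distrib]
        apply sum_congr rfl
        intro a _
        push_cast
        ring
      rw [this]
      ring
    rw [e1]
    obtain ⟨x, hx⟩ : ∃ x, x = ‖(c : ℂ) * (FF f X M r * KK H M r)‖ := ⟨_, rfl⟩
    obtain ⟨y, hy⟩ : ∃ y, y = ‖FF g X M r * KK H M r‖ := ⟨_, rfl⟩
    obtain ⟨w, hw⟩ : ∃ w, w = ‖FF h X M r * KK H M r‖ := ⟨_, rfl⟩
    have e2 : ‖(c : ℂ) * (FF f X M r * KK H M r) + (FF g X M r * KK H M r + FF h X M r * KK H M r)‖ ≤ x + (y + w) := by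
      refine (norm_add_le _ _).trans ?_
      have := norm_add_le (FF g X M r * KK H M r) (FF h X M r * KK H M r)
      rw [hx, hy, hw]
      linarith
    have e3 : x ^ 2 = c ^ 2 * ‖FF f X M r * KK H M r‖ ^ 2 := by
      rw [hx, norm_mul, mul_pow, Complex.norm_real, Real.norm_eq_abs, sq_abs]
    rw [← e3, ← hy, ← hw]
    refine (pow_le_pow_left₀ (norm_nonneg _) e2 2).trans ?_
    nlinarith [sq_nonneg (x - y), sq_nonneg (x - w), sq_nonneg (y - w)]
  have h6 := sum_le_sum h5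
  rw [h1, ← mul_sum, sum_add_distrib, sum_add_distrib, ← mul_sum, h2, h3, h4] at h6
  have h7 : (M : ℝ) * EW (fun a => c * f a + (g a + h a)) X H ≤ M * (3 * (c ^ 2 * EW f X H + EW g X H + EW h X H)) := by
    refine h6.trans (le_of_eq ?_)
    ring
  exact le_of_mul_le_mul_left h7 hM0

lemma EW_zero (X H : ℕ) : EW (fun _ => 0) X H = 0 := by
  unfold EW
  simp

lemma EW_mono (f g : ℕ → ℝ) (X H : ℕ) (hfg : ∀ a ∈ Icc 1 X, |f a| ≤ g a) : EW f X H ≤ EW g X H := by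
  unfold EW
  apply sum_le_sum
  intro i hi
  apply sum_le_sum
  intro j hj
  rw [mem_product] at hi hj
  have hH : (0 : ℝ) ≤ H := Nat.cast_nonneg _
  split_ifs
  · have h1 := hfg _ hi.1
    have h2 := hfg _ hj.1
    calc f i.1 / H * (f j.1 / H) ≤ |f i.1 / H * (f j.1 / H)| := le_abs_self _
      _ = |f i.1| / H * (|f j.1| / H) := by rw [abs_mul, abs_div, abs_div, abs_of_nonneg hH]
      _ ≤ g i.1 / H * (g j.1 / H) := by
          apply mul_le_mul
          · exact div_le_div_of_nonneg_right h1 hH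
          · exact div_le_div_of_nonneg_right h2 hH
          · exact div_nonneg (abs_nonneg _) hH
          · exact div_nonneg ((abs_nonneg _).trans h1) hH
  · exact le_rfl

/-- the window of `G` after `y` -/
noncomputable def win (G : ℕ → ℝ) (X H y : ℕ) : ℝ := (∑ h ∈ Icc 1 H, if y + h ≤ X then G (y + h) else 0) / H

lemma win_eq (G : ℕ → ℝ) (X H y : ℕ) : win G X H y = ∑ i ∈ Icc 1 X ×ˢ Icc 1 H, if y + i.2 = i.1 then G i.1 / H else 0 := by
  unfold win
  rw [sum_product, sum_comm, sum_div]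
  apply sum_congr rfl
  intro h hh
  rw [mem_Icc] at hh
  simp only
  rw [sum_ite_eq (Icc 1 X) (y + h) (fun n => G n / H)]
  by_cases hy : y + h ≤ X
  · rw [if_pos hy, if_pos (mem_Icc.2 ⟨by omega, hy⟩)]
  · rw [if_neg hy, if_neg (by rw [mem_Icc]; omega), zero_div]

lemma EW_sum (G : ℕ → ℝ) (X H : ℕ) (hG : ∀ a ∈ Icc 1 X, 0 ≤ G a) (S : Finset ℕ) : ∑ y ∈ S, win G X H y ^ 2 ≤ EW G X H := by
  classical
  have hH : (0 : ℝ) ≤ H := Nat.cast_nonneg _
  have h2 : ∀ y ∈ S, win G X H y ^ 2 =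
      ∑ i ∈ Icc 1 X ×ˢ Icc 1 H, ∑ j ∈ Icc 1 X ×ˢ Icc 1 H, (if y + i.2 = i.1 then G i.1 / H else 0) * (if y + j.2 = j.1 then G j.1 / H else 0) := by
    intro y _
    rw [win_eq, sq, sum_mul_sum]
  rw [sum_congr rfl h2, sum_comm]
  unfold EW
  apply sum_le_sum
  intro i hi
  rw [sum_comm]
  apply sum_le_sum
  intro j hj
  rw [mem_product] at hi hj
  have hi0 : 0 ≤ G i.1 / H := div_nonneg (hG _ hi.1) hH
  have hj0 : 0 ≤ G j.1 / H := div_nonneg (hG _ hj.1) hH
  have h3 : ∑ y ∈ S, (if y + i.2 = i.1 then G i.1 / (H : ℝ) else 0) * (if y + j.2 = j.1 then G j.1 / (H : ℝ) else 0) ≤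
      ∑ y ∈ S, (if y = i.1 - i.2 then (if i.1 + j.2 = j.1 + i.2 then G i.1 / H * (G j.1 / H) else 0) else 0) := by
    apply sum_le_sum
    intro y _
    by_cases h4 : y + i.2 = i.1
    · by_cases h5 : y + j.2 = j.1
      · rw [if_pos h4, if_pos h5, if_pos (by omega), if_pos (by omega)]
      · rw [if_neg h5, mul_zero]
        split_ifs
        · exact mul_nonneg hi0 hj0
        · exact le_rfl
        · exact le_rfl
    · rw [if_neg h4, zero_mul]
      split_ifs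
      · exact mul_nonneg hi0 hj0
      · exact le_rfl
      · exact le_rfl
  refine h3.trans ?_
  rw [sum_ite_eq']
  split_ifs <;> first | exact le_rfl | exact mul_nonneg hi0 hj0

lemma EW_le (f : ℕ → ℝ) (hf : ∀ a, 0 ≤ f a) (X H : ℕ) :
    EW f X H ≤ (∑ h ∈ Icc 1 H, ∑ h' ∈ Icc 1 H, ∑ a ∈ Icc 1 X, f a * f (a + ((h : ℤ) - h').natAbs)) / (H : ℝ) ^ 2 := by
  have h1 : EW f X H = (∑ h ∈ Icc 1 H, ∑ h' ∈ Icc 1 H, ∑ a ∈ Icc 1 X, ∑ a' ∈ Icc 1 X,
      (if (a : ℤ) - a' = (h : ℤ) - h' then f a * f a' else 0)) / (H : ℝ) ^ 2 := by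
    unfold EW
    rw [sum_product, sum_comm, sum_div]
    apply sum_congr rfl
    intro h _
    have e1 : ∀ a ∈ Icc 1 X, ∑ j ∈ Icc 1 X ×ˢ Icc 1 H, (if a + j.2 = j.1 + h then f a / H * (f j.1 / H) else 0) =
        ∑ h' ∈ Icc 1 H, (∑ a' ∈ Icc 1 X, (if (a : ℤ) - a' = (h : ℤ) - h' then f a * f a' else 0)) / (H : ℝ) ^ 2 := by
      intro a _
      rw [sum_product, sum_comm]
      apply sum_congr rfl
      intro h' _
      rw [sum_div]
      apply sum_congr rfl
      intro a' _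
      simp only
      by_cases h3 : (a : ℤ) - a' = (h : ℤ) - h'
      · rw [if_pos h3, if_pos (by omega)]
        ring
      · rw [if_neg h3, if_neg (by omega), zero_div]
    simp only
    rw [sum_congr rfl e1, sum_comm]
    simp only [← sum_div]
  rw [h1]
  apply div_le_div_of_nonneg_right _ (sq_nonneg _)
  exact sum_le_sum fun h _ => sum_le_sum fun h' _ => T_le f hf X _

lemma sg_le' (z h : ℕ) : sg z h ≤ ∏ p ∈ pz z, ((if p ∣ h then be p else 0) + al p) := by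
  have h1 : sg z h = ∏ p ∈ pz z, ((1 - 1 / (p : ℝ))⁻¹ * (1 - 1 / (p : ℝ))⁻¹ * (1 - (nuB (QQ h) p : ℝ) / p)) := by
    unfold sg Vz
    rw [← prod_inv_distrib, ← prod_mul_distrib, ← prod_mul_distrib]
  rw [h1]
  apply prod_le_prod
  · intro p hp
    exact (loc h p (mem_pz.1 hp).2).1
  · intro p hp
    refine ((loc h p (mem_pz.1 hp).2).2).trans (le_of_eq (add_comm _ _))

lemma sg_zero (z : ℕ) : sg z 0 ≤ (Vz z)⁻¹ := by
  refine (sg_le' z 0).trans (le_of_eq ?_)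
  rw [Vz_inv_eq]
  apply prod_congr rfl
  intro p hp
  rw [if_pos (dvd_zero p), add_comm, al_be p (mem_pz.1 hp).2.two_le]

/-- pairs in an interval with difference divisible by `q` -/
lemma cnt_row (H q h : ℕ) (hq : 1 ≤ q) (hh : h ∈ Icc 1 H) :
    (((Icc 1 H).filter (fun h' => h ≠ h' ∧ q ∣ ((h : ℤ) - h').natAbs)).card : ℝ) ≤ (H : ℝ) / q := by
  rw [mem_Icc] at hh
  have hq0 : (0 : ℝ) < q := by exact_mod_cast hq
  -- below and above
  have h1 : (Icc 1 H).filter (fun h' => h ≠ h' ∧ q ∣ ((h : ℤ) - h').natAbs) ⊆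
      ((Icc 1 ((h - 1) / q)).image (fun t => h - q * t)) ∪ ((Icc 1 ((H - h) / q)).image (fun t => h + q * t)) := by
    intro h' hh'
    rw [mem_filter, mem_Icc] at hh'
    obtain ⟨⟨h2, h3⟩, h4, t, ht⟩ := hh'
    rw [mem_union, mem_image, mem_image]
    rcases Nat.lt_or_ge h' h with h5 | h5
    · left
      refine ⟨t, ?_, by omega⟩
      rw [mem_Icc]
      constructor
      · by_contra h6
        have : t = 0 := by omega
        rw [this, mul_zero] at ht
        omega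
      · apply (Nat.le_div_iff_mul_le (by omega)).2
        rw [mul_comm]
        omega
    · right
      refine ⟨t, ?_, by omega⟩
      rw [mem_Icc]
      constructor
      · by_contra h6
        have : t = 0 := by omega
        rw [this, mul_zero] at ht
        omega
      · apply (Nat.le_div_iff_mul_le (by omega)).2
        rw [mul_comm]
        omega
  have h2 := (card_le_card h1).trans (card_union_le _ _)
  have h3 := (card_image_le (s := Icc 1 ((h - 1) / q)) (f := fun t => h - q * t))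
  have h4 := (card_image_le (s := Icc 1 ((H - h) / q)) (f := fun t => h + q * t))
  rw [Nat.card_Icc, Nat.add_sub_cancel] at h3 h4
  have h5 : (((h - 1) / q : ℕ) : ℝ) ≤ ((h - 1 : ℕ) : ℝ) / q := Nat.cast_div_le
  have h6 : (((H - h) / q : ℕ) : ℝ) ≤ ((H - h : ℕ) : ℝ) / q := Nat.cast_div_le
  have h7 : (((Icc 1 H).filter (fun h' => h ≠ h' ∧ q ∣ ((h : ℤ) - h').natAbs)).card : ℝ) ≤ (((h - 1) / q : ℕ) : ℝ) + (((H - h) / q : ℕ) : ℝ) := by
    exact_mod_cast h2.trans (Nat.add_le_add h3 h4)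
  refine h7.trans ((add_le_add h5 h6).trans ?_)
  rw [← add_div]
  apply div_le_div_of_nonneg_right _ hq0.le
  have : h - 1 + (H - h) ≤ H := by omega
  exact_mod_cast this

/-- the average of the singular series over an interval -/
lemma sg_avg (z H : ℕ) :
    ∑ h ∈ Icc 1 H, ∑ h' ∈ Icc 1 H, (if h ≠ h' then sg z ((h : ℤ) - h').natAbs else 0) ≤ (H : ℝ) ^ 2 := by
  classical
  have h1 : ∀ n : ℕ, ∏ p ∈ pz z, ((if p ∣ n then be p else 0) + al p) =
      ∑ T ∈ (pz z).powerset, (if ∏ p ∈ T, p ∣ n then (∏ p ∈ T, be p) * ∏ p ∈ pz z \ T, al p else 0) := by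
    intro n
    rw [prod_add]
    apply sum_congr rfl
    intro T hT
    rw [mem_powerset] at hT
    have hiff : (∏ p ∈ T, p ∣ n) ↔ ∀ p ∈ T, p ∣ n := by
      constructor
      · intro h p hp
        exact (dvd_prod_of_mem _ hp).trans h
      · intro h
        apply Finset.prod_primes_dvd
        · intro p hp
          exact (mem_pz.1 (hT hp)).2.prime
        · exact h
    by_cases h : ∀ p ∈ T, p ∣ n
    · rw [if_pos (hiff.2 h)]
      congr 1
      apply prod_congr rfl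
      intro p hp
      rw [if_pos (h p hp)]
    · rw [if_neg (fun h' => h (hiff.1 h'))]
      push Not at h
      obtain ⟨p, hp, hpn⟩ := h
      rw [prod_eq_zero hp (by rw [if_neg hpn]), zero_mul]
  have h2 : ∀ T ∈ (pz z).powerset, 0 ≤ (∏ p ∈ T, be p) * ∏ p ∈ pz z \ T, al p := by
    intro T hT
    rw [mem_powerset] at hT
    apply mul_nonneg
    · exact prod_nonneg fun p _ => be_nonneg p
    · exact prod_nonneg fun p hp => al_nonneg p (mem_pz.1 (mem_sdiff.1 hp).1).2.two_le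
  have h3 : ∑ h ∈ Icc 1 H, ∑ h' ∈ Icc 1 H, (if h ≠ h' then sg z ((h : ℤ) - h').natAbs else 0) ≤
      ∑ h ∈ Icc 1 H, ∑ h' ∈ Icc 1 H, ∑ T ∈ (pz z).powerset,
        (if h ≠ h' ∧ ∏ p ∈ T, p ∣ ((h : ℤ) - h').natAbs then (∏ p ∈ T, be p) * ∏ p ∈ pz z \ T, al p else 0) := by
    apply sum_le_sum
    intro h _
    apply sum_le_sum
    intro h' _
    by_cases hh : h ≠ h'
    · rw [if_pos hh]
      refine (sg_le' z _).trans ?_
      rw [h1]
      apply sum_le_sum
      intro T _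
      by_cases h4 : ∏ p ∈ T, p ∣ ((h : ℤ) - h').natAbs
      · rw [if_pos h4, if_pos ⟨hh, h4⟩]
      · rw [if_neg h4, if_neg (fun h => h4 h.2)]
    · rw [if_neg hh]
      apply sum_nonneg
      intro T _
      rw [if_neg (fun h => hh h.1)]
  refine h3.trans ?_
  have h4 : ∑ h ∈ Icc 1 H, ∑ h' ∈ Icc 1 H, ∑ T ∈ (pz z).powerset,
        (if h ≠ h' ∧ ∏ p ∈ T, p ∣ ((h : ℤ) - h').natAbs then (∏ p ∈ T, be p) * ∏ p ∈ pz z \ T, al p else 0) =
      ∑ T ∈ (pz z).powerset, ∑ h ∈ Icc 1 H,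
        (((Icc 1 H).filter (fun h' => h ≠ h' ∧ ∏ p ∈ T, p ∣ ((h : ℤ) - h').natAbs)).card : ℝ) * ((∏ p ∈ T, be p) * ∏ p ∈ pz z \ T, al p) := by
    have e1 : ∀ h ∈ Icc 1 H, ∑ h' ∈ Icc 1 H, ∑ T ∈ (pz z).powerset,
        (if h ≠ h' ∧ ∏ p ∈ T, p ∣ ((h : ℤ) - h').natAbs then (∏ p ∈ T, be p) * ∏ p ∈ pz z \ T, al p else 0) =
        ∑ T ∈ (pz z).powerset, (((Icc 1 H).filter (fun h' => h ≠ h' ∧ ∏ p ∈ T, p ∣ ((h : ℤ) - h').natAbs)).card : ℝ) *
          ((∏ p ∈ T, be p) * ∏ p ∈ pz z \ T, al p) := by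
      intro h _
      rw [sum_comm]
      apply sum_congr rfl
      intro T _
      rw [← sum_filter, sum_const, nsmul_eq_mul]
    rw [sum_congr rfl e1, sum_comm]
  rw [h4]
  have h5 : ∑ T ∈ (pz z).powerset, ∑ h ∈ Icc 1 H,
        (((Icc 1 H).filter (fun h' => h ≠ h' ∧ ∏ p ∈ T, p ∣ ((h : ℤ) - h').natAbs)).card : ℝ) * ((∏ p ∈ T, be p) * ∏ p ∈ pz z \ T, al p) ≤
      ∑ T ∈ (pz z).powerset, (H : ℝ) ^ 2 * ((∏ p ∈ T, be p / p) * ∏ p ∈ pz z \ T, al p) := by
    apply sum_le_sum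
    intro T hT
    have hT' := mem_powerset.1 hT
    have hq : 1 ≤ ∏ p ∈ T, p := Nat.pos_of_ne_zero (prod_ne_zero_iff.2 fun p hp => (mem_pz.1 (hT' hp)).2.ne_zero)
    have hq0 : (0 : ℝ) < ((∏ p ∈ T, p : ℕ) : ℝ) := by exact_mod_cast hq
    rw [← sum_mul]
    have e1 : ∑ h ∈ Icc 1 H, (((Icc 1 H).filter (fun h' => h ≠ h' ∧ ∏ p ∈ T, p ∣ ((h : ℤ) - h').natAbs)).card : ℝ) ≤
        H * ((H : ℝ) / ((∏ p ∈ T, p : ℕ) : ℝ)) := by
      refine (sum_le_sum fun h hh => cnt_row H (∏ p ∈ T, p) h hq hh).trans (le_of_eq ?_)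
      rw [sum_const, Nat.card_Icc, Nat.add_sub_cancel, nsmul_eq_mul]
    refine (mul_le_mul_of_nonneg_right e1 (h2 T hT)).trans (le_of_eq ?_)
    rw [prod_div_distrib]
    push_cast
    field_simp
  refine h5.trans ?_
  rw [← mul_sum, ← prod_add]
  have h6 : ∏ p ∈ pz z, (be p / (p : ℝ) + al p) = 1 := by
    apply prod_eq_one
    intro p hp
    exact al_be' p (mem_pz.1 hp).2.two_le
  rw [h6, mul_one]

end Pool.Agent.H86.PW
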