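import Pool.Agent.H86.P4

set_option autoImplicit false
set_option linter.unusedSectionVars false

/-! Energies of windows of the primes and of the model. -/

namespace Pool.Agent.H86.PW
open Finset
open Pool.Agent.H807R2.Dav (ee norm_ee ee_zero ee_add)
open Pool.Agent.H373R2.T7
open Pool.Agent.W93.DG
open Pool.Agent.W93.HD
open Pool.Agent.W93.GB (pp pp_nonneg sum_pp vM_le)
open Pool.Agent.H86.DL (sg al be al_nonneg be_nonneg al_be al_be' loc Vz_inv_eq pair_asym Q1 Q1_per)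

lemma EW_lamz_aux (X H z : ℕ) (hH : 1 ≤ H) (ε E : ℝ) (hε : 0 < ε)
    (hp : ∀ h : ℕ, ∑ a ∈ Icc 1 X, lamz z a * lamz z (a + h) ≤ (1 + ε) * X * sg z h + E) :
    EW (lamz z) X H ≤ (1 + ε) * X * (1 + (Vz z)⁻¹ / H) + E := by
  have hH0 : (0 : ℝ) < H := by exact_mod_cast hH
  refine (EW_le (lamz z) (fun a => lamz_nonneg z a) X H).trans ?_
  rw [div_le_iff₀ (by positivity)]
  have h1 : ∑ h ∈ Icc 1 H, ∑ h' ∈ Icc 1 H, ∑ a ∈ Icc 1 X, lamz z a * lamz z (a + ((h : ℤ) - h').natAbs) ≤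
      ∑ h ∈ Icc 1 H, ∑ h' ∈ Icc 1 H, ((1 + ε) * X * ((if h' = h then (Vz z)⁻¹ else 0) + (if h ≠ h' then sg z ((h : ℤ) - h').natAbs else 0)) + E) := by
    apply sum_le_sum
    intro h _
    apply sum_le_sum
    intro h' _
    refine (hp _).trans ?_
    apply add_le_add _ le_rfl
    apply mul_le_mul_of_nonneg_left _ (by positivity)
    by_cases hh : h' = h
    · subst hh
      rw [if_pos rfl, if_neg (by simp), add_zero, sub_self, Int.natAbs_zero]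
      exact sg_zero z
    · rw [if_neg hh, if_pos (fun h => hh h.symm), zero_add]
  refine h1.trans ?_
  have h2 : ∑ h ∈ Icc 1 H, ∑ h' ∈ Icc 1 H, ((1 + ε) * X * ((if h' = h then (Vz z)⁻¹ else 0) + (if h ≠ h' then sg z ((h : ℤ) - h').natAbs else 0)) + E) =
      (1 + ε) * X * (∑ h ∈ Icc 1 H, ∑ h' ∈ Icc 1 H, (if h' = h then (Vz z)⁻¹ else 0) +
        ∑ h ∈ Icc 1 H, ∑ h' ∈ Icc 1 H, (if h ≠ h' then sg z ((h : ℤ) - h').natAbs else 0)) + (H : ℝ) ^ 2 * E := by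
    simp only [sum_add_distrib, ← mul_sum, sum_const, Nat.card_Icc, Nat.add_sub_cancel, nsmul_eq_mul]
    ring
  rw [h2]
  have h3 : ∑ h ∈ Icc 1 H, ∑ h' ∈ Icc 1 H, (if h' = h then (Vz z)⁻¹ else 0) = H * (Vz z)⁻¹ := by
    have e1 : ∀ h ∈ Icc 1 H, ∑ h' ∈ Icc 1 H, (if h' = h then (Vz z)⁻¹ else 0) = (Vz z)⁻¹ := by
      intro h hh
      rw [sum_ite_eq', if_pos hh]
    rw [sum_congr rfl e1, sum_const, Nat.card_Icc, Nat.add_sub_cancel, nsmul_eq_mul]
  rw [h3]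
  have h4 := sg_avg z H
  have h5 : (1 + ε) * X * (H * (Vz z)⁻¹ + ∑ h ∈ Icc 1 H, ∑ h' ∈ Icc 1 H, (if h ≠ h' then sg z ((h : ℤ) - h').natAbs else 0)) ≤
      (1 + ε) * X * (H * (Vz z)⁻¹ + (H : ℝ) ^ 2) := by
    apply mul_le_mul_of_nonneg_left _ (by positivity)
    linarith
  have h6 : ((1 + ε) * X * (1 + (Vz z)⁻¹ / H) + E) * (H : ℝ) ^ 2 = (1 + ε) * X * (H * (Vz z)⁻¹ + (H : ℝ) ^ 2) + (H : ℝ) ^ 2 * E := by
    field_simp
    ring
  rw [h6]
  linarith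

/-- the energies of windows of length at least `lam log X` -/
theorem EW_main (b : ℕ) (hb : 2 ≤ b) (lam : ℝ) (hlam : 0 < lam) : ∃ C : ℝ, 0 ≤ C ∧ ∀ Ez : ℕ, ∃ k₀ : ℕ, ∀ K : ℕ, k₀ ≤ K → ∀ z : ℕ,
    Real.log ((b ^ K : ℕ) : ℝ) ≤ z → (z : ℝ) ≤ Real.log ((b ^ K : ℕ) : ℝ) ^ Ez → ∀ H : ℕ, 1 ≤ H → lam * Real.log ((b ^ K : ℕ) : ℝ) ≤ H →
    EW (fun n => ArithmeticFunction.vonMangoldt n) (b ^ K) H ≤ C * ((b ^ K : ℕ) : ℝ) ∧
    EW (fun n => ArithmeticFunction.vonMangoldt n - lamz z n) (b ^ K) H ≤ C * ((b ^ K : ℕ) : ℝ) := by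
  classical
  obtain ⟨K₁, x0, hK₁', hE⟩ := pair_asym 1 (by norm_num) le_rfl
  obtain ⟨CV, hCV, hV⟩ := Vz_log_le
  obtain ⟨C₃, hC₃, hV'⟩ := Vz_inv_log
  obtain ⟨C₂, hC₂⟩ : ∃ C₂, C₂ = 2 * (1 + C₃ / lam) + 1 := ⟨_, rfl⟩
  have hC₂0 : 0 ≤ C₂ := by rw [hC₂]; positivity
  obtain ⟨K₂, hK₂⟩ : ∃ K₂, K₂ = max K₁ 4 := ⟨_, rfl⟩
  have hK₁ : 1 ≤ K₂ := by rw [hK₂]; exact hK₁'.trans (le_max_left _ _)
  have hK₂1 : K₁ ≤ K₂ := by rw [hK₂]; exact le_max_left _ _
  have hK₂4 : 4 ≤ K₂ := by rw [hK₂]; exact le_max_right _ _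
  refine ⟨3 * ((2 * K₂ * CV) ^ 2 * C₂ + 1 + C₂), by positivity, fun Ez => ?_⟩
  obtain ⟨n1, h1⟩ := ev_log' (Ez * K₂) 1
  obtain ⟨n2, h2⟩ := ev_log' 2 6
  obtain ⟨n3, h3⟩ := ev_L' (x0 + 3)
  refine ⟨n1 + n2 + n3 + K₂ * (x0 + 3) + 4, fun K hK z hz1 hz2 H hH hHL => ?_⟩
  have hbn : 0 < b := by omega
  have hb1 : 1 < b := by omega
  obtain ⟨hL1, hL2⟩ := logX b K hb
  obtain ⟨X, hX⟩ : ∃ X, X = b ^ K := ⟨_, rfl⟩
  rw [← hX] at hz1 hz2 hL1 hL2 hHL ⊢
  obtain ⟨L, hL⟩ : ∃ L, L = Real.log (X : ℝ) := ⟨_, rfl⟩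
  rw [← hL] at hz1 hz2 hL1 hL2 hHL
  have hKX : K < X := by rw [hX]; exact Nat.lt_pow_self hb1
  have hX1 : 1 ≤ X := by omega
  have hX0 : (0 : ℝ) < X := by exact_mod_cast hX1
  have hK4 : (4 : ℝ) ≤ K := by exact_mod_cast (by omega : 4 ≤ K)
  have hLge : 2 ≤ L := by linarith
  have hL0 : 0 < L := by linarith
  have hH0 : (0 : ℝ) < H := by exact_mod_cast hH
  -- general bound for the model
  have hmod : ∀ y : ℕ, x0 ≤ y → 3 ≤ y → y ^ K₂ ≤ X → EW (lamz y) X H ≤ C₂ * X := by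
    intro y hy hy1 hyX'
    have hyX : y ^ K₁ ≤ X := (Nat.pow_le_pow_right (by omega) hK₂1).trans hyX'
    have hVi0 : 0 < (Vz y)⁻¹ := inv_pos.2 (Vz_pos y)
    have hVy : (Vz y)⁻¹ ≤ y := Vz_inv_le y (by omega)
    have e1 : Real.log y ≤ L := by
      rw [hL]
      apply Real.log_le_log (by exact_mod_cast (by omega : 0 < y))
      have : y ≤ y ^ K₂ := Nat.le_self_pow (by omega) y
      exact_mod_cast this.trans hyX'
    have e2 : (Vz y)⁻¹ / H ≤ C₃ / lam := by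
      rw [div_le_div_iff₀ hH0 hlam]
      calc (Vz y)⁻¹ * lam ≤ (C₃ * Real.log y) * lam := mul_le_mul_of_nonneg_right (hV' y hy1) hlam.le
        _ ≤ (C₃ * L) * lam := by
            apply mul_le_mul_of_nonneg_right _ hlam.le
            exact mul_le_mul_of_nonneg_left e1 (by linarith)
        _ = C₃ * (lam * L) := by ring
        _ ≤ C₃ * H := mul_le_mul_of_nonneg_left hHL (by linarith)
    have e3 : (Vz y)⁻¹ * (Vz y)⁻¹ * √(X : ℝ) ≤ X := by
      have e4 : (Vz y)⁻¹ * (Vz y)⁻¹ ≤ √(X : ℝ) := by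
        calc (Vz y)⁻¹ * (Vz y)⁻¹ ≤ y * y := mul_le_mul hVy hVy hVi0.le (Nat.cast_nonneg _)
          _ ≤ √(X : ℝ) := by
              apply Real.le_sqrt_of_sq_le
              have : (y * y) ^ 2 ≤ X := by
                calc (y * y) ^ 2 = y ^ 4 := by ring
                  _ ≤ y ^ K₂ := Nat.pow_le_pow_right (by omega) hK₂4
                  _ ≤ X := hyX'
              exact_mod_cast this
      calc _ ≤ √(X : ℝ) * √(X : ℝ) := mul_le_mul_of_nonneg_right e4 (Real.sqrt_nonneg _)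
        _ = X := Real.mul_self_sqrt hX0.le
    refine (EW_lamz_aux X H y hH 1 _ one_pos (hE X y hy hyX).1).trans ?_
    rw [hC₂]
    have e5 : (1 + 1 : ℝ) * X * (1 + (Vz y)⁻¹ / H) ≤ (1 + 1 : ℝ) * X * (1 + C₃ / lam) :=
      mul_le_mul_of_nonneg_left (by linarith) (by positivity)
    linarith
  -- the two levels
  have hzX : z ^ K₂ ≤ X := by
    have e1 := h1 X (by omega)
    rw [← hL, one_mul] at e1
    have e2 : (z : ℝ) ^ K₂ ≤ X := by
      calc (z : ℝ) ^ K₂ ≤ (L ^ Ez) ^ K₂ := pow_le_pow_left₀ (Nat.cast_nonneg _) hz2 _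
        _ = L ^ (Ez * K₂) := by rw [← pow_mul]
        _ ≤ √(X : ℝ) := e1
        _ ≤ X := by
            rw [Real.sqrt_le_left hX0.le]
            have : (1 : ℝ) ≤ X := by exact_mod_cast hX1
            nlinarith
    exact_mod_cast e2
  have hz0 : x0 + 3 ≤ z := by
    have e1 := h3 X (by omega)
    rw [← hL] at e1
    have : ((x0 + 3 : ℕ) : ℝ) ≤ z := by push_cast; linarith
    exact_mod_cast this
  have hQz := hmod z (by omega) (by omega) hzX
  obtain ⟨κ, hκ⟩ : ∃ κ, κ = K / K₂ := ⟨_, rfl⟩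
  have hκ1 : x0 + 3 ≤ κ := by
    rw [hκ]
    apply (Nat.le_div_iff_mul_le (by omega)).2
    rw [mul_comm]
    omega
  obtain ⟨y, hy⟩ : ∃ y, y = b ^ κ := ⟨_, rfl⟩
  have hκy : κ < y := by rw [hy]; exact Nat.lt_pow_self hb1
  have hκK : κ * K₂ ≤ K := by rw [hκ]; exact Nat.div_mul_le_self _ _
  have hyX : y ^ K₂ ≤ X := by
    rw [hy, hX, ← pow_mul]
    exact Nat.pow_le_pow_right hbn hκK
  have hQy := hmod y (by omega) (by omega) hyX
  have hysq : (y : ℝ) ≤ √(X : ℝ) := by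
    apply Real.le_sqrt_of_sq_le
    have : y ^ 2 ≤ X := (Nat.pow_le_pow_right (by omega) (by omega : 2 ≤ K₂)).trans hyX
    exact_mod_cast this
  -- the constant
  have hc : (L * Vz y) ^ 2 ≤ (2 * K₂ * CV) ^ 2 := by
    have hVp := Vz_pos y
    apply pow_le_pow_left₀ (by positivity)
    have e1 : L ≤ 2 * K₂ * Real.log y := by
      have hlb : 0 < Real.log b := Real.log_pos (by exact_mod_cast hb1)
      have e2 : L = K * Real.log b := by rw [hL, hX]; push_cast; rw [Real.log_pow]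
      have e3 : Real.log y = κ * Real.log b := by rw [hy]; push_cast; rw [Real.log_pow]
      rw [e2, e3]
      have e4 : K ≤ 2 * K₂ * κ := by
        have : K < K₂ * (κ + 1) := by rw [hκ]; exact Nat.lt_mul_div_succ K (by omega)
        calc K ≤ K₂ * (κ + 1) := this.le
          _ ≤ K₂ * (2 * κ) := Nat.mul_le_mul_left _ (by omega)
          _ = _ := by ring
      have e5 : (K : ℝ) ≤ 2 * K₂ * κ := by exact_mod_cast e4
      calc (K : ℝ) * Real.log b ≤ (2 * K₂ * κ) * Real.log b := mul_le_mul_of_nonneg_right e5 hlb.le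
        _ = _ := by ring
    calc L * Vz y ≤ (2 * K₂ * Real.log y) * Vz y := mul_le_mul_of_nonneg_right e1 hVp.le
      _ = 2 * K₂ * (Vz y * Real.log y) := by ring
      _ ≤ 2 * K₂ * CV := mul_le_mul_of_nonneg_left (hV y (by omega)) (by positivity)
  -- the exceptional part
  have hexc : EW (exc L y) X H ≤ X := by
    refine (EW_trivial (exc L y) X H hH).trans ?_
    have e2 := exc_sq X y hX1
    rw [← hL] at e2
    refine e2.trans ?_
    have e3 := h2 X (by omega)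
    rw [← hL] at e3
    have e4 : √(X : ℝ) * √(X : ℝ) = X := Real.mul_self_sqrt hX0.le
    have e5 : 0 ≤ √(X : ℝ) := Real.sqrt_nonneg _
    calc 4 * √(X : ℝ) * L ^ 2 + 2 * y * L ^ 2 ≤ 4 * √(X : ℝ) * L ^ 2 + 2 * √(X : ℝ) * L ^ 2 := by
          have := mul_le_mul_of_nonneg_right hysq (show 0 ≤ 2 * L ^ 2 by positivity)
          linarith
      _ = √(X : ℝ) * (6 * L ^ 2) := by ring
      _ ≤ √(X : ℝ) * √(X : ℝ) := mul_le_mul_of_nonneg_left e3 e5
      _ = X := e4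
  have hthree := EW_three (L * Vz y) (lamz y) (exc L y) (lamz z) X H hH
  have hfin : EW (fun a => (L * Vz y) * lamz y a + (exc L y a + lamz z a)) X H ≤
      3 * ((2 * K₂ * CV) ^ 2 * C₂ + 1 + C₂) * X := by
    refine hthree.trans ?_
    have e1 : (L * Vz y) ^ 2 * EW (lamz y) X H ≤ (2 * K₂ * CV) ^ 2 * (C₂ * X) := by
      calc (L * Vz y) ^ 2 * EW (lamz y) X H ≤ (L * Vz y) ^ 2 * (C₂ * X) :=
            mul_le_mul_of_nonneg_left hQy (by positivity)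
        _ ≤ _ := mul_le_mul_of_nonneg_right hc (by positivity)
    calc 3 * ((L * Vz y) ^ 2 * EW (lamz y) X H + EW (exc L y) X H + EW (lamz z) X H) ≤
          3 * ((2 * K₂ * CV) ^ 2 * (C₂ * X) + X + C₂ * X) := by linarith
      _ = _ := by ring
  constructor
  · refine (EW_mono _ _ X H ?_).trans hfin
    intro a ha
    rw [abs_of_nonneg ArithmeticFunction.vonMangoldt_nonneg]
    have e1 := vM_maj X y a hX1 ha
    rw [← hL] at e1
    have e2 := lamz_nonneg z a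
    linarith
  · refine (EW_mono _ _ X H ?_).trans hfin
    intro a ha
    have e1 := vM_maj X y a hX1 ha
    rw [← hL] at e1
    have e2 := lamz_nonneg z a
    have e3 : 0 ≤ ArithmeticFunction.vonMangoldt a := ArithmeticFunction.vonMangoldt_nonneg
    rw [abs_le]
    constructor <;> linarith

end Pool.Agent.H86.PW
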