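import Pool.Agent.H86.P5

set_option autoImplicit false
set_option linter.unusedSectionVars false

/-! The model is constant on almost all windows. -/

namespace Pool.Agent.H86.PW
open Finset
open Pool.Agent.H807R2.Dav (ee norm_ee ee_zero ee_add)
open Pool.Agent.H373R2.T7
open Pool.Agent.W93.DG
open Pool.Agent.W93.HD
open Pool.Agent.W93.GB (pp pp_nonneg sum_pp vM_le)
open Pool.Agent.H86.DL (sg al be al_nonneg be_nonneg al_be al_be' loc Vz_inv_eq pair_asym Q1 Q1_per)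

lemma one_asym (ε : ℝ) (hε : 0 < ε) : ∃ K₁ x0 : ℕ, 1 ≤ K₁ ∧ ∀ X z : ℕ, x0 ≤ z → z ^ K₁ ≤ X →
    ∀ Y : ℕ, ∑ a ∈ Icc 1 Y, lamz z a ≤ (1 + ε) * Y + (Vz z)⁻¹ * √(X : ℝ) := by
  classical
  obtain ⟨Kb, xb, hKb, hb⟩ := sys_fund 1 (by norm_num) ε hε
  refine ⟨Kb, xb, hKb, fun X z hz hzX Y => ?_⟩
  have hV0 := Vz_pos z
  have hVi0 : 0 < (Vz z)⁻¹ := inv_pos.2 hV0
  have h1 := (abs_le.1 (hb X z hz hzX _ Q1_per Y)).2
  have h2 : ∏ p ∈ pz z, (1 - (nuB Q1 p : ℝ) / p) ≤ Vz z := by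
    unfold Vz
    apply prod_le_prod
    · intro p hp
      have hpp := (mem_pz.1 hp).2
      have hp0 : (0 : ℝ) < p := by exact_mod_cast hpp.pos
      rw [sub_nonneg, div_le_one hp0]
      exact_mod_cast nuB_le Q1 p
    · intro p hp
      have hpp := (mem_pz.1 hp).2
      have hp0 : (0 : ℝ) < p := by exact_mod_cast hpp.pos
      have h3 : 1 ≤ nuB Q1 p := by
        unfold nuB
        rw [Nat.one_le_iff_ne_zero, ← Nat.pos_iff_ne_zero, card_pos]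
        refine ⟨0, ?_⟩
        rw [mem_filter, mem_range]
        exact ⟨hpp.pos, dvd_zero p⟩
      have h4 : (1 : ℝ) ≤ (nuB Q1 p : ℝ) := by exact_mod_cast h3
      have : 1 / (p : ℝ) ≤ (nuB Q1 p : ℝ) / p := div_le_div_of_nonneg_right h4 hp0.le
      linarith
  have h3 : ∑ a ∈ Icc 1 Y, lamz z a = (Vz z)⁻¹ * (((Icc 1 Y).filter (fun n : ℕ => ∀ p ∈ pz z, ¬ Q1 p n)).card : ℝ) := by
    have e1 : ∀ a ∈ Icc 1 Y, lamz z a = if ∀ p ∈ pz z, ¬ Q1 p a then (Vz z)⁻¹ else 0 := by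
      intro a _
      unfold lamz Q1
      congr
    rw [sum_congr rfl e1, ← sum_filter, sum_const, nsmul_eq_mul, mul_comm]
  rw [h3]
  have hY : (0 : ℝ) ≤ Y := Nat.cast_nonneg _
  have h4 : (((Icc 1 Y).filter (fun n : ℕ => ∀ p ∈ pz z, ¬ Q1 p n)).card : ℝ) ≤ (1 + ε) * (Y * Vz z) + √(X : ℝ) := by
    obtain ⟨P, hP⟩ : ∃ P : ℝ, P = ∏ p ∈ pz z, (1 - (nuB Q1 p : ℝ) / p) := ⟨_, rfl⟩
    rw [← hP] at h1 h2
    have h5 : (Y : ℝ) * P ≤ Y * Vz z := mul_le_mul_of_nonneg_left h2 hY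
    have h6 : (1 + ε) * (Y * P) ≤ (1 + ε) * (Y * Vz z) := mul_le_mul_of_nonneg_left h5 (by linarith)
    linarith
  calc (Vz z)⁻¹ * (((Icc 1 Y).filter (fun n : ℕ => ∀ p ∈ pz z, ¬ Q1 p n)).card : ℝ) ≤ (Vz z)⁻¹ * ((1 + ε) * (Y * Vz z) + √(X : ℝ)) :=
        mul_le_mul_of_nonneg_left h4 hVi0.le
    _ = _ := by field_simp

lemma sum_shift (f : ℕ → ℝ) (Y h : ℕ) : ∑ y ∈ Icc 1 Y, f (y + h) = ∑ a ∈ Icc 1 (Y + h), f a - ∑ a ∈ Icc 1 h, f a := by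
  induction Y with
  | zero => simp
  | succ Y ih =>
    have e1 : ∑ y ∈ Icc 1 (Y + 1), f (y + h) = ∑ y ∈ Icc 1 Y, f (y + h) + f (Y + 1 + h) := sum_Icc_succ_top (by omega) _
    have e2 : ∑ a ∈ Icc 1 (Y + 1 + h), f a = ∑ a ∈ Icc 1 (Y + h), f a + f (Y + 1 + h) := by
      have : Y + 1 + h = (Y + h) + 1 := by omega
      rw [this]
      exact sum_Icc_succ_top (by omega) _
    rw [e1, e2, ih]
    ring

lemma main_aux (X H z : ℕ) (hH : 1 ≤ H) (hHX : H ≤ X) (ε V E1 E2 : ℝ) (hε : 0 < ε) (hE1 : 0 ≤ E1)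
    (hlow : ∀ Y : ℕ, (1 - ε) * Y - E1 ≤ ∑ a ∈ Icc 1 Y, lamz z a)
    (hup : ∀ Y : ℕ, ∑ a ∈ Icc 1 Y, lamz z a ≤ (1 + ε) * Y + E1)
    (hEW : EW (lamz z) X H ≤ (1 + ε) * X * (1 + V) + E2) :
    ∑ y ∈ Icc 1 (X - H), (win (lamz z) X H y - 1) ^ 2 ≤ (1 + ε) * X * (1 + V) + E2 - X + H + 4 * ε * X + 4 * E1 := by
  have hH0 : (0 : ℝ) < H := by exact_mod_cast hH
  have h1 : ∑ y ∈ Icc 1 (X - H), (win (lamz z) X H y - 1) ^ 2 =
      ∑ y ∈ Icc 1 (X - H), win (lamz z) X H y ^ 2 - 2 * ∑ y ∈ Icc 1 (X - H), win (lamz z) X H y + ((X : ℝ) - H) := by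
    have e1 : ((X : ℝ) - H) = ∑ y ∈ Icc 1 (X - H), (1 : ℝ) := by
      rw [sum_const, Nat.card_Icc, Nat.add_sub_cancel, nsmul_eq_mul, mul_one, Nat.cast_sub hHX]
    rw [e1, mul_sum, ← sum_sub_distrib, ← sum_add_distrib]
    apply sum_congr rfl
    intro y _
    ring
  have h2 := EW_sum (lamz z) X H (fun a _ => lamz_nonneg z a) (Icc 1 (X - H))
  have h3 : ((X : ℝ) - H) - 2 * ε * X - 2 * E1 ≤ ∑ y ∈ Icc 1 (X - H), win (lamz z) X H y := by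
    have e1 : ∑ y ∈ Icc 1 (X - H), win (lamz z) X H y = (∑ h ∈ Icc 1 H, ∑ y ∈ Icc 1 (X - H), lamz z (y + h)) / H := by
      unfold win
      rw [← sum_div, sum_comm]
      congr 1
      apply sum_congr rfl
      intro h hh
      rw [mem_Icc] at hh
      apply sum_congr rfl
      intro y hy
      rw [mem_Icc] at hy
      rw [if_pos (by omega)]
    rw [e1, le_div_iff₀ hH0]
    have e2 : ∀ h ∈ Icc 1 H, ((X : ℝ) - H) - 2 * ε * X - 2 * E1 ≤ ∑ y ∈ Icc 1 (X - H), lamz z (y + h) := by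
      intro h hh
      rw [mem_Icc] at hh
      rw [sum_shift]
      have e3 := hlow (X - H + h)
      have e4 := hup h
      have e5 : ((X - H + h : ℕ) : ℝ) = X - H + h := by
        push_cast
        rw [Nat.cast_sub hHX]
      rw [e5] at e3
      have e6 : (h : ℝ) ≤ H := by exact_mod_cast hh.2
      have e7 : (H : ℝ) ≤ X := by exact_mod_cast hHX
      have e8 : ε * (h : ℝ) ≤ ε * X := mul_le_mul_of_nonneg_left (e6.trans e7) hε.le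
      have e9 : ε * (h : ℝ) ≤ ε * H := mul_le_mul_of_nonneg_left e6 hε.le
      nlinarith
    calc (((X : ℝ) - H) - 2 * ε * X - 2 * E1) * H = ∑ h ∈ Icc 1 H, (((X : ℝ) - H) - 2 * ε * X - 2 * E1) := by
          rw [sum_const, Nat.card_Icc, Nat.add_sub_cancel, nsmul_eq_mul]; ring
      _ ≤ _ := sum_le_sum e2
  rw [h1]
  linarith

/-- the model is close to `1` on almost all windows -/
theorem main_term (b : ℕ) (hb : 2 ≤ b) (lam : ℝ) (hlam : 0 < lam) (η : ℝ) (hη : 0 < η) : ∃ η₁ : ℝ, 0 < η₁ ∧ ∀ Ez : ℕ, ∃ k₀ : ℕ, ∀ K : ℕ, k₀ ≤ K → ∀ z : ℕ,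
    Real.log ((b ^ K : ℕ) : ℝ) ≤ z → (z : ℝ) ≤ Real.log ((b ^ K : ℕ) : ℝ) ^ Ez → ∀ H : ℕ, 1 ≤ H → lam * Real.log ((b ^ K : ℕ) : ℝ) ≤ H →
    (H : ℝ) ≤ η₁ * ((b ^ K : ℕ) : ℝ) → H ≤ b ^ K →
    ∑ y ∈ Icc 1 (b ^ K - H), (win (lamz z) (b ^ K) H y - 1) ^ 2 ≤ η * ((b ^ K : ℕ) : ℝ) := by
  classical
  obtain ⟨ε, hε⟩ : ∃ ε : ℝ, ε = min 1 (η / 20) := ⟨_, rfl⟩
  have hε0 : 0 < ε := by rw [hε]; positivity
  have hε1 : ε ≤ 1 := by rw [hε]; exact min_le_left _ _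
  have hεη : 20 * ε ≤ η := by
    have : ε ≤ η / 20 := by rw [hε]; exact min_le_right _ _
    linarith
  obtain ⟨K₁, x0, hK₁, hpair⟩ := pair_asym ε hε0 hε1
  obtain ⟨K₂, x1, hK₂, hone⟩ := one_asym ε hε0
  obtain ⟨C₃, hC₃, hV'⟩ := Vz_inv_log
  refine ⟨ε, hε0, fun Ez => ?_⟩
  obtain ⟨K₃, hK₃⟩ : ∃ K₃, K₃ = max K₁ K₂ := ⟨_, rfl⟩
  have hK31 : K₁ ≤ K₃ := by rw [hK₃]; exact le_max_left _ _
  have hK32 : K₂ ≤ K₃ := by rw [hK₃]; exact le_max_right _ _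
  obtain ⟨n1, h1⟩ := ev_log' (Ez * K₃) 1
  obtain ⟨n2, h2⟩ := ev_log' 2 (1 / ε)
  obtain ⟨n3, h3⟩ := Vz_inv_small Ez
  obtain ⟨n4, hn4⟩ := exists_nat_ge (2 * ((2 * C₃ * Ez / (ε * lam)) ^ 2 + 2))
  refine ⟨n1 + n2 + n3 + n4 + 2 * (x0 + x1 + 3), fun K hK z hz1 hz2 H hH hHL hHX hHX' => ?_⟩
  have hbn : 0 < b := by omega
  have hb1 : 1 < b := by omega
  obtain ⟨hL1, hL2⟩ := logX b K hb
  obtain ⟨X, hX⟩ : ∃ X, X = b ^ K := ⟨_, rfl⟩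
  rw [← hX] at hz1 hz2 hL1 hL2 hHL hHX hHX' ⊢
  obtain ⟨L, hL⟩ : ∃ L, L = Real.log (X : ℝ) := ⟨_, rfl⟩
  rw [← hL] at hz1 hz2 hL1 hL2 hHL
  have hKX : K < X := by rw [hX]; exact Nat.lt_pow_self hb1
  have hX1 : 1 ≤ X := by omega
  have hX0 : (0 : ℝ) < X := by exact_mod_cast hX1
  have hX1r : (1 : ℝ) ≤ X := by exact_mod_cast hX1
  have hKr : (n4 : ℝ) ≤ K := by exact_mod_cast (by omega : n4 ≤ K)
  have hKr2 : 2 * ((x0 : ℝ) + x1 + 3) ≤ K := by exact_mod_cast (by omega : 2 * (x0 + x1 + 3) ≤ K)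
  have hLbig : (2 * C₃ * Ez / (ε * lam)) ^ 2 + 2 ≤ L := by linarith
  have hsqn : 0 ≤ (2 * C₃ * Ez / (ε * lam)) ^ 2 := sq_nonneg _
  have hL0 : 0 < L := by linarith
  have hL1' : 1 ≤ L := by linarith
  have hzr : (x0 : ℝ) + x1 + 3 ≤ z := by linarith
  have hz0 : x0 + x1 + 3 ≤ z := by exact_mod_cast hzr
  have hsq0 : 0 ≤ √(X : ℝ) := Real.sqrt_nonneg _
  have hss : √(X : ℝ) * √(X : ℝ) = X := Real.mul_self_sqrt hX0.le
  have hH0 : (0 : ℝ) < H := by exact_mod_cast hH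
  have hzX : z ^ K₃ ≤ X := by
    have e1 := h1 X (by omega)
    rw [← hL, one_mul] at e1
    have e2 : (z : ℝ) ^ K₃ ≤ X := by
      calc (z : ℝ) ^ K₃ ≤ (L ^ Ez) ^ K₃ := pow_le_pow_left₀ (Nat.cast_nonneg _) hz2 _
        _ = L ^ (Ez * K₃) := by rw [← pow_mul]
        _ ≤ √(X : ℝ) := e1
        _ ≤ X := by
            rw [Real.sqrt_le_left hX0.le]
            nlinarith
    exact_mod_cast e2
  have hzX1 : z ^ K₁ ≤ X := (Nat.pow_le_pow_right (by omega) hK31).trans hzX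
  have hzX2 : z ^ K₂ ≤ X := (Nat.pow_le_pow_right (by omega) hK32).trans hzX
  obtain ⟨hp1, hp2⟩ := hpair X z (by omega) hzX1
  have hp3 := hone X z (by omega) hzX2
  have hV0 := Vz_pos z
  have hVi0 : 0 < (Vz z)⁻¹ := inv_pos.2 hV0
  have hVi := h3 X (by omega) z (by omega) (by rw [← hL]; exact hz2)
  rw [← hL] at hVi
  have hL2X : L ^ 2 ≤ ε * √(X : ℝ) := by
    have e1 := h2 X (by omega)
    rw [← hL, one_div, inv_mul_le_iff₀ hε0] at e1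
    exact e1
  have hVV : (Vz z)⁻¹ * (Vz z)⁻¹ * √(X : ℝ) ≤ ε * X := by
    have e1 : (Vz z)⁻¹ * (Vz z)⁻¹ ≤ L * L := mul_le_mul hVi hVi hVi0.le hL0.le
    calc (Vz z)⁻¹ * (Vz z)⁻¹ * √(X : ℝ) ≤ (L * L) * √(X : ℝ) := mul_le_mul_of_nonneg_right e1 hsq0
      _ = L ^ 2 * √(X : ℝ) := by ring
      _ ≤ ε * √(X : ℝ) * √(X : ℝ) := mul_le_mul_of_nonneg_right hL2X hsq0
      _ = ε * X := by rw [mul_assoc, hss]
  have hV1 : (Vz z)⁻¹ * √(X : ℝ) ≤ ε * X := by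
    have e1 : (Vz z)⁻¹ ≤ L ^ 2 := hVi.trans (by nlinarith)
    calc (Vz z)⁻¹ * √(X : ℝ) ≤ L ^ 2 * √(X : ℝ) := mul_le_mul_of_nonneg_right e1 hsq0
      _ ≤ ε * √(X : ℝ) * √(X : ℝ) := mul_le_mul_of_nonneg_right hL2X hsq0
      _ = ε * X := by rw [mul_assoc, hss]
  have hVH : (Vz z)⁻¹ / H ≤ ε := by
    rw [div_le_iff₀ hH0]
    refine (hV' z (by omega)).trans ?_
    have e1 : Real.log z ≤ Ez * (2 * √L) := by
      have hz0' : (0 : ℝ) < z := by exact_mod_cast (by omega : 0 < z)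
      have e2 := Real.log_le_log hz0' hz2
      rw [Real.log_pow] at e2
      refine e2.trans ?_
      apply mul_le_mul_of_nonneg_left _ (Nat.cast_nonneg _)
      have h9 : Real.log √L = Real.log L / 2 := Real.log_sqrt hL0.le
      have h10 := Real.log_le_sub_one_of_pos (Real.sqrt_pos.2 hL0)
      linarith
    have e4 : 2 * C₃ * Ez / (ε * lam) ≤ √L := by
      apply Real.le_sqrt_of_sq_le
      linarith
    rw [div_le_iff₀ (by positivity)] at e4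
    have e5 : √L * √L = L := Real.mul_self_sqrt hL0.le
    have e6 : 0 < √L := Real.sqrt_pos.2 hL0
    calc C₃ * Real.log z ≤ C₃ * (Ez * (2 * √L)) := mul_le_mul_of_nonneg_left e1 (by linarith)
      _ = (2 * C₃ * Ez) * √L := by ring
      _ ≤ (√L * (ε * lam)) * √L := mul_le_mul_of_nonneg_right e4 e6.le
      _ = ε * (lam * (√L * √L)) := by ring
      _ = ε * (lam * L) := by rw [e5]
      _ ≤ ε * H := mul_le_mul_of_nonneg_left hHL hε0.le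
  have hEW := EW_lamz_aux X H z hH ε _ hε0 hp1
  have hfin := main_aux X H z hH hHX' ε ((Vz z)⁻¹ / H) ((Vz z)⁻¹ * √(X : ℝ)) ((Vz z)⁻¹ * (Vz z)⁻¹ * √(X : ℝ)) hε0 (by positivity) hp2 hp3 hEW
  refine hfin.trans ?_
  have e1 : (1 + ε) * X * (1 + (Vz z)⁻¹ / H) ≤ (1 + ε) * X * (1 + ε) := mul_le_mul_of_nonneg_left (by linarith) (by positivity)
  have e2 : (1 + ε) * X * (1 + ε) ≤ X + 3 * ε * X := by nlinarith [mul_pos hε0 hX0]
  have e3 : 20 * ε * X ≤ η * X := mul_le_mul_of_nonneg_right hεη hX0.le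
  nlinarith [mul_pos hε0 hX0]

end Pool.Agent.H86.PW
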