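import Pool.Agent.H86.P3
import Pool.Agent.H86.P6
import Pool.Agent.H86.L10

set_option autoImplicit false
set_option linter.unusedSectionVars false

/-! From the primes to the von Mangoldt function, and long windows. -/

namespace Pool.Agent.H86.PW
open Finset
open Pool.Agent.H373R2.T7
open Pool.Agent.W93.DG
open Pool.Agent.W93.HD
open Pool.Agent.W93.GB (pp pp_nonneg sum_pp vM_le)
open Pool.Agent.H86.DL (pnt_pi)

/-- the normalized number of primes in `(y, y + H]` -/
noncomputable def cH (N H y : ℕ) : ℝ := ((Nat.primeCounting (y + H) : ℝ) - Nat.primeCounting y) * Real.log N / H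

lemma pi_diff (y H : ℕ) : (Nat.primeCounting (y + H) : ℝ) - Nat.primeCounting y = ∑ h ∈ Icc 1 H, if (y + h).Prime then (1 : ℝ) else 0 := by
  induction H with
  | zero => simp
  | succ H ih =>
    have e1 : ∑ h ∈ Icc 1 (H + 1), (if (y + h).Prime then (1 : ℝ) else 0) = ∑ h ∈ Icc 1 H, (if (y + h).Prime then (1 : ℝ) else 0) +
        (if (y + (H + 1)).Prime then (1 : ℝ) else 0) := sum_Icc_succ_top (by omega) _
    rw [e1, ← ih]
    have e2 : Nat.primeCounting (y + (H + 1)) = Nat.primeCounting (y + H) + (if (y + (H + 1)).Prime then 1 else 0) := by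
      unfold Nat.primeCounting Nat.primeCounting'
      rw [show y + (H + 1) + 1 = (y + H + 1) + 1 by ring, Nat.count_succ, show y + H + 1 = y + (H + 1) by ring]
    rw [e2]
    push_cast
    ring

lemma conv (N X H y : ℕ) (hN : 2 ≤ N) (hH : 1 ≤ H) (hy : N ≤ y) (hyH : y + H ≤ 4 * N) (hX : 4 * N ≤ X) :
    |cH N H y - win (fun n => ArithmeticFunction.vonMangoldt n) X H y| ≤
      2 / Real.log N * win (fun n => ArithmeticFunction.vonMangoldt n) X H y + win pp X H y := by
  have hH0 : (0 : ℝ) < H := by exact_mod_cast hH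
  have hN0 : (2 : ℝ) ≤ N := by exact_mod_cast hN
  have hlog : 0 < Real.log N := Real.log_pos (by linarith)
  have h1 : cH N H y = (∑ h ∈ Icc 1 H, if (y + h).Prime then Real.log N else 0) / H := by
    unfold cH
    rw [pi_diff, sum_mul]
    congr 1
    apply sum_congr rfl
    intro h _
    split_ifs
    · rw [one_mul]
    · rw [zero_mul]
  have h2 : ∀ G : ℕ → ℝ, win G X H y = (∑ h ∈ Icc 1 H, G (y + h)) / H := by
    intro G
    unfold win
    congr 1
    apply sum_congr rfl
    intro h hh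
    rw [mem_Icc] at hh
    rw [if_pos (by omega)]
  rw [h1, h2, h2, ← sub_div, ← mul_div_assoc, ← add_div, abs_div, abs_of_pos hH0]
  apply div_le_div_of_nonneg_right _ hH0.le
  rw [← sum_sub_distrib, mul_sum, ← sum_add_distrib]
  refine (abs_sum_le_sum_abs _ _).trans ?_
  apply sum_le_sum
  intro h hh
  rw [mem_Icc] at hh
  have hpp := pp_nonneg (y + h)
  by_cases hp : (y + h).Prime
  · rw [if_pos hp, ArithmeticFunction.vonMangoldt_apply_prime hp]
    have hyr : (N : ℝ) ≤ ((y + h : ℕ) : ℝ) := by exact_mod_cast (by omega : N ≤ y + h)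
    have hyr2 : ((y + h : ℕ) : ℝ) ≤ 4 * N := by exact_mod_cast (by omega : y + h ≤ 4 * N)
    have e1 : Real.log N ≤ Real.log ((y + h : ℕ) : ℝ) := Real.log_le_log (by linarith) hyr
    have e2 : Real.log ((y + h : ℕ) : ℝ) ≤ Real.log 4 + Real.log N := by
      rw [← Real.log_mul (by norm_num) (by linarith)]
      exact Real.log_le_log (by linarith) hyr2
    have e3 : Real.log 4 ≤ 2 := by
      have : (4 : ℝ) = 2 ^ 2 := by norm_num
      rw [this, Real.log_pow]
      have := Real.log_two_lt_d9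
      push_cast
      linarith
    have e4 : 2 ≤ 2 / Real.log N * Real.log ((y + h : ℕ) : ℝ) := by
      rw [div_mul_eq_mul_div, le_div_iff₀ hlog]
      linarith
    rw [abs_le]
    constructor <;> linarith
  · rw [if_neg hp, zero_sub, abs_neg, abs_of_nonneg ArithmeticFunction.vonMangoldt_nonneg]
    have e1 : pp (y + h) = ArithmeticFunction.vonMangoldt (y + h) := by
      unfold pp lamP
      rw [Int.toNat_natCast, if_neg hp, sub_zero]
    rw [e1]
    have : 0 ≤ 2 / Real.log N * ArithmeticFunction.vonMangoldt (y + h) :=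
      mul_nonneg (by positivity) ArithmeticFunction.vonMangoldt_nonneg
    linarith

lemma conv_sq (N X H : ℕ) (hN : 2 ≤ N) (hH : 1 ≤ H) (hHN : H ≤ N) (hX : 4 * N ≤ X) (C : ℝ)
    (hE : EW (fun n => ArithmeticFunction.vonMangoldt n) X H ≤ C * X) :
    ∑ y ∈ Ioc N (3 * N), (cH N H y - win (fun n => ArithmeticFunction.vonMangoldt n) X H y) ^ 2 ≤
      8 * C * X / Real.log N ^ 2 + 4 * √(X : ℝ) * Real.log X ^ 2 := by
  have hN0 : (2 : ℝ) ≤ N := by exact_mod_cast hN
  have hlog : 0 < Real.log N := Real.log_pos (by linarith)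
  have hΛ : ∀ a ∈ Icc 1 X, 0 ≤ (fun n : ℕ => (ArithmeticFunction.vonMangoldt n : ℝ)) a := fun a _ => ArithmeticFunction.vonMangoldt_nonneg
  have h1 : ∀ y ∈ Ioc N (3 * N), (cH N H y - win (fun n => ArithmeticFunction.vonMangoldt n) X H y) ^ 2 ≤
      8 / Real.log N ^ 2 * win (fun n => ArithmeticFunction.vonMangoldt n) X H y ^ 2 + 2 * win pp X H y ^ 2 := by
    intro y hy
    rw [mem_Ioc] at hy
    have e1 := conv N X H y hN hH hy.1.le (by omega) hX
    rw [← sq_abs]
    refine (pow_le_pow_left₀ (abs_nonneg _) e1 2).trans ?_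
    obtain ⟨u, hu⟩ : ∃ u, u = 2 / Real.log N * win (fun n => ArithmeticFunction.vonMangoldt n) X H y := ⟨_, rfl⟩
    have e2 : 8 / Real.log N ^ 2 * win (fun n => ArithmeticFunction.vonMangoldt n) X H y ^ 2 = 2 * u ^ 2 := by
      rw [hu]
      field_simp
      ring
    rw [e2, ← hu]
    nlinarith [sq_nonneg (u - win pp X H y)]
  refine (sum_le_sum h1).trans ?_
  rw [sum_add_distrib, ← mul_sum, ← mul_sum]
  have h2 := (EW_sum (fun n => ArithmeticFunction.vonMangoldt n) X H hΛ (Ioc N (3 * N))).trans hE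
  have h3 := (EW_sum pp X H (fun a _ => pp_nonneg a) (Ioc N (3 * N))).trans (EW_trivial pp X H hH)
  have h4 : ∑ a ∈ Icc 1 X, pp a ^ 2 ≤ 2 * √(X : ℝ) * Real.log X ^ 2 := by
    have e1 : ∀ a ∈ Icc 1 X, pp a ^ 2 ≤ Real.log X * pp a := by
      intro a ha
      rw [mem_Icc] at ha
      have h2 := pp_nonneg a
      have h3 : pp a ≤ Real.log X := by
        have : pp a ≤ ArithmeticFunction.vonMangoldt a := by
          unfold pp
          linarith [lamP_nonneg (a : ℤ)]
        exact this.trans (vM_le a X (by omega) ha.2)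
      nlinarith
    refine (sum_le_sum e1).trans ?_
    rw [← mul_sum]
    have e2 := sum_pp X (by omega)
    have e3 : 0 ≤ Real.log (X : ℝ) := Real.log_natCast_nonneg X
    calc Real.log X * ∑ a ∈ Icc 1 X, pp a ≤ Real.log X * (2 * √(X : ℝ) * Real.log X) := mul_le_mul_of_nonneg_left e2 e3
      _ = _ := by ring
  have h5 : 8 / Real.log N ^ 2 * ∑ y ∈ Ioc N (3 * N), win (fun n => ArithmeticFunction.vonMangoldt n) X H y ^ 2 ≤ 8 / Real.log N ^ 2 * (C * X) :=
    mul_le_mul_of_nonneg_left h2 (by positivity)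
  have h6 : 8 / Real.log N ^ 2 * (C * X) = 8 * C * X / Real.log N ^ 2 := by ring
  linarith

/-- long windows -/
lemma long (κ η₁ : ℝ) (hκ : 0 < κ) (hη₁ : 0 < η₁) : ∃ N₀ : ℕ, ∀ N : ℕ, N₀ ≤ N → ∀ H y : ℕ, η₁ * N ≤ H → H ≤ N → N ≤ y → y + H ≤ 4 * N →
    |cH N H y - 1| ≤ κ := by
  obtain ⟨ε, hε⟩ : ∃ ε : ℝ, ε = min 1 (κ * η₁ / 16) := ⟨_, rfl⟩
  have hε0 : 0 < ε := by rw [hε]; positivity
  have hε1 : ε ≤ 1 := by rw [hε]; exact min_le_left _ _
  have hεκ : 16 * ε ≤ κ * η₁ := by
    have : ε ≤ κ * η₁ / 16 := by rw [hε]; exact min_le_right _ _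
    linarith
  obtain ⟨n1, h1⟩ := pnt_pi ε hε0
  obtain ⟨n2, h2⟩ := ev_L' (2 / ε)
  refine ⟨n1 + n2 + 2, fun N hN H y hH hHN hy hyH => ?_⟩
  have hN0 : (2 : ℝ) ≤ N := by exact_mod_cast (by omega : 2 ≤ N)
  have hlog : 0 < Real.log N := Real.log_pos (by linarith)
  have hL := h2 N (by omega)
  rw [div_le_iff₀ hε0] at hL
  have hH0 : (0 : ℝ) < H := lt_of_lt_of_le (by positivity) hH
  have key : ∀ n : ℕ, N ≤ n → n ≤ 4 * N → |(Nat.primeCounting n : ℝ) * Real.log N - n| ≤ 8 * ε * N := by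
    intro n hn1 hn2
    obtain ⟨e1, e2⟩ := h1 n (by omega)
    have hnr : (N : ℝ) ≤ n := by exact_mod_cast hn1
    have hnr2 : (n : ℝ) ≤ 4 * N := by exact_mod_cast hn2
    have e3 : Real.log N ≤ Real.log n := Real.log_le_log (by linarith) hnr
    have e4 : Real.log n ≤ 2 + Real.log N := by
      have h3 : Real.log n ≤ Real.log (4 * N) := Real.log_le_log (by linarith) hnr2
      rw [Real.log_mul (by norm_num) (by linarith)] at h3
      have h4 : Real.log 4 ≤ 2 := by
        have : (4 : ℝ) = 2 ^ 2 := by norm_num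
        rw [this, Real.log_pow]
        have := Real.log_two_lt_d9
        push_cast
        linarith
      linarith
    have hπ : (0 : ℝ) ≤ Nat.primeCounting n := Nat.cast_nonneg _
    have e5 : (Nat.primeCounting n : ℝ) * Real.log N ≤ (1 + ε) * n := (mul_le_mul_of_nonneg_left e3 hπ).trans e1
    have e6 : (Nat.primeCounting n : ℝ) * Real.log n ≤ (1 + ε) * (Nat.primeCounting n * Real.log N) := by
      have h5 : Real.log n ≤ (1 + ε) * Real.log N := by linarith
      calc (Nat.primeCounting n : ℝ) * Real.log n ≤ Nat.primeCounting n * ((1 + ε) * Real.log N) := mul_le_mul_of_nonneg_left h5 hπ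
        _ = _ := by ring
    have e7 : (1 - ε) * n ≤ (1 + ε) * (Nat.primeCounting n * Real.log N) := e2.trans e6
    have hn0 : (0 : ℝ) < n := by linarith
    have hεn : ε * n ≤ ε * (4 * N) := mul_le_mul_of_nonneg_left hnr2 hε0.le
    rw [abs_le]
    constructor
    · -- (1 - 2 ε) n ≤ π log N
      have e8 : (1 - 2 * ε) * n * (1 + ε) ≤ (Nat.primeCounting n * Real.log N) * (1 + ε) := by nlinarith [mul_pos hε0 hn0]
      have e9 : (1 - 2 * ε) * n ≤ Nat.primeCounting n * Real.log N := le_of_mul_le_mul_right e8 (by linarith)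
      linarith
    · linarith
  have k1 := key (y + H) (by omega) hyH
  have k2 := key y hy (by omega)
  have h3 : cH N H y - 1 = (((Nat.primeCounting (y + H) : ℝ) * Real.log N - ((y + H : ℕ) : ℝ)) - ((Nat.primeCounting y : ℝ) * Real.log N - y)) / H := by
    unfold cH
    rw [eq_div_iff hH0.ne']
    push_cast
    field_simp
    ring
  rw [h3, abs_div, abs_of_pos hH0, div_le_iff₀ hH0]
  refine (abs_sub _ _).trans ?_
  calc _ ≤ 8 * ε * N + 8 * ε * N := add_le_add k1 k2
    _ = 16 * ε * N := by ring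
    _ ≤ κ * η₁ * N := mul_le_mul_of_nonneg_right hεκ (by linarith)
    _ = κ * (η₁ * N) := by ring
    _ ≤ κ * H := mul_le_mul_of_nonneg_left hH hκ.le

end Pool.Agent.H86.PW
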