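import Pool.Agent.H86.P7

set_option autoImplicit false
set_option linter.unusedSectionVars false

/-! Primes in short windows on translates of arbitrary weights. -/

namespace Pool.Agent.H86.PW
open Finset
open Pool.Agent.H373R2.T7
open Pool.Agent.W93.DG
open Pool.Agent.W93.HD
open Pool.Agent.H86.DL (PS PS_mono)

lemma TT_win (G : ℕ → ℝ) (X H : ℕ) (S : Finset ℕ) (w : ℕ → ℝ) (d : ℕ) : TT G X H S w d = ∑ x ∈ S, w x * win G X H (x + d) := rfl

lemma win_sub (f g : ℕ → ℝ) (X H y : ℕ) : win (fun n => f n - g n) X H y = win f X H y - win g X H y := by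
  unfold win
  rw [← sub_div, ← sum_sub_distrib]
  congr 1
  apply sum_congr rfl
  intro h _
  split_ifs
  · rfl
  · rw [sub_zero]

/-- the Cauchy and Schwarz inequality -/
lemma cs_shift (S T : Finset ℕ) (w E : ℕ → ℝ) (d : ℕ) (Q : ℝ) (hS : ∀ x ∈ S, x + d ∈ T) (hE : ∑ y ∈ T, E y ^ 2 ≤ Q) :
    (∑ x ∈ S, w x * E (x + d)) ^ 2 ≤ Q * ∑ x ∈ S, w x ^ 2 := by
  classical
  refine (sum_mul_sq_le_sq_mul_sq S w (fun x => E (x + d))).trans ?_
  rw [mul_comm]
  apply mul_le_mul_of_nonneg_right _ (sum_nonneg fun _ _ => sq_nonneg _)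
  refine le_trans ?_ hE
  have h1 : ∑ x ∈ S, E (x + d) ^ 2 = ∑ y ∈ S.image (fun x => x + d), E y ^ 2 := by
    rw [sum_image]
    intro x _ y _ h
    exact Nat.add_right_cancel h
  rw [h1]
  apply sum_le_sum_of_subset_of_nonneg
  · intro y hy
    rw [mem_image] at hy
    obtain ⟨x, hx, rfl⟩ := hy
    exact hS x hx
  · intro _ _ _
    exact sq_nonneg _

lemma sd_pos {ι : Type} [Fintype ι] [DecidableEq ι] (b : ℕ) (hb : 0 < b) (v : ι → ℕ × ℕ) (c : ι) : 1 ≤ sd b v := by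
  unfold sd
  have h1 : (1 + (v c).2) * b ^ (v c).1 ≤ ∑ c, (1 + (v c).2) * b ^ (v c).1 :=
    single_le_sum (f := fun c => (1 + (v c).2) * b ^ (v c).1) (fun _ _ => Nat.zero_le _) (mem_univ c)
  refine le_trans ?_ h1
  exact Nat.mul_pos (by omega) (Nat.pow_pos hb)

theorem shift3 (b : ℕ) (hb3 : 3 ≤ b) (lam δ : ℝ) (hlam : 0 < lam) (hδ : 0 < δ) (hδ1 : δ ≤ 1) : ∃ k N₀ : ℕ, ∀ N : ℕ, N₀ ≤ N →
    ∃ D : Finset ℕ, D.Nonempty ∧ (∀ d ∈ D, 1 ≤ d ∧ PS b k d ∧ (d : ℝ) ≤ δ * N) ∧ ∀ H : ℕ, lam * Real.log N ≤ H → H ≤ N → ∀ w : ℕ → ℝ,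
      ∑ d ∈ D, (∑ x ∈ Ioc N (2 * N), w x * (cH N H (x + d) - 1)) ^ 2 ≤ δ * D.card * (N * ∑ x ∈ Ioc N (2 * N), w x ^ 2) := by
  classical
  have hb : 2 ≤ b := by omega
  have hbn : 0 < b := by omega
  have hb1 : 1 < b := by omega
  have hbr : (2 : ℝ) ≤ b := by exact_mod_cast hb
  have hb0 : (0 : ℝ) < b := by linarith
  obtain ⟨C, hC0, hEn⟩ := EW_main b hb (lam / 2) (by positivity)
  obtain ⟨η, hη⟩ : ∃ η : ℝ, η = δ / (128 * b) := ⟨_, rfl⟩
  have hη0 : 0 < η := by rw [hη]; positivity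
  have hηb : η * (4 * b) * 32 = δ := by rw [hη]; field_simp; ring
  obtain ⟨η₁, hη₁, hmain⟩ := main_term b hb (lam / 2) (by positivity) η hη0
  obtain ⟨κ, hκ⟩ : ∃ κ : ℝ, κ = δ := ⟨_, rfl⟩
  obtain ⟨nl, hlong⟩ := long κ η₁ (by rw [hκ]; exact hδ) hη₁
  obtain ⟨R, hR, hfam⟩ := fam b hb3
  have hR0 : (0 : ℝ) < R := by exact_mod_cast hR
  -- the parameters
  obtain ⟨δ₁, hδ₁⟩ : ∃ δ₁ : ℝ, δ₁ = η / (C + 1) := ⟨_, rfl⟩
  have hδ₁0 : 0 < δ₁ := by rw [hδ₁]; positivity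
  have hδ₁C : δ₁ * C ≤ η := by
    rw [hδ₁, div_mul_eq_mul_div, div_le_iff₀ (by positivity)]
    nlinarith
  obtain ⟨s, hs⟩ : ∃ s : ℕ, s = ⌈(R : ℝ) * (b : ℝ) ^ 4 / δ₁⌉₊ + 1 := ⟨_, rfl⟩
  have hs1 : 1 ≤ s := by omega
  have hδs : Real.exp (-((s : ℝ) / (R * (b : ℝ) ^ 4))) ≤ δ₁ := by
    have e1 : (R : ℝ) * (b : ℝ) ^ 4 / δ₁ ≤ s := by
      have := Nat.le_ceil ((R : ℝ) * (b : ℝ) ^ 4 / δ₁)
      rw [hs]; push_cast; linarith
    have e2 : 1 / δ₁ ≤ (s : ℝ) / (R * (b : ℝ) ^ 4) := by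
      rw [le_div_iff₀ (by positivity)]
      calc 1 / δ₁ * (R * (b : ℝ) ^ 4) = (R : ℝ) * (b : ℝ) ^ 4 / δ₁ := by ring
        _ ≤ (s : ℝ) := e1
    rw [Real.exp_neg, inv_le_comm₀ (Real.exp_pos _) hδ₁0, ← one_div]
    have := Real.add_one_le_exp ((s : ℝ) / (R * (b : ℝ) ^ 4))
    linarith
  obtain ⟨c₁, hc₁⟩ : ∃ c₁ : ℕ, (6 * (s : ℝ)) * (1 / (b : ℝ)) ^ c₁ < δ / (4 * b) := by
    have h1 : 1 / (b : ℝ) < 1 := by rw [div_lt_one hb0]; linarith
    have hs0 : (0 : ℝ) < s := by exact_mod_cast hs1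
    obtain ⟨n, hn⟩ := exists_pow_lt_of_lt_one (show 0 < (δ / (4 * b)) / (6 * (s : ℝ)) by positivity) h1
    refine ⟨n, ?_⟩
    rw [lt_div_iff₀ (by positivity)] at hn
    linarith
  obtain ⟨c, hc⟩ : ∃ c : ℕ, c = c₁ + 1 := ⟨_, rfl⟩
  obtain ⟨U, hU⟩ : ∃ U : ℕ, U = R * s + c * R + s + 2 := ⟨_, rfl⟩
  obtain ⟨A, B, hUA, hB⟩ := hfam U
  obtain ⟨B₂, hB₂⟩ : ∃ B₂, B₂ = B + 1 := ⟨_, rfl⟩
  obtain ⟨k1, h1⟩ := hB (B₂ + 1)
  obtain ⟨k2, h2⟩ := hEn (B₂ + 1)
  obtain ⟨k3, h3⟩ := hmain (B₂ + 1)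
  obtain ⟨k4, hk4⟩ := exists_nat_ge (1 / η + 1)
  obtain ⟨n5, h5⟩ := ev_log' 2 (4 / η)
  obtain ⟨n6, h6⟩ := ev_L' (8 * C / η + 1)
  obtain ⟨n7, h7⟩ := ev_L' (Real.log (4 * b))
  refine ⟨6 * s, b ^ (k1 + k2 + k3 + k4 + c + 8) + nl + n5 + n6 + n7 + 2, fun N hN => ?_⟩
  have hpk1 : 1 ≤ b ^ (k1 + k2 + k3 + k4 + c + 8) := Nat.pow_pos hbn
  have hN0 : (2 : ℝ) ≤ N := by exact_mod_cast (by omega : 2 ≤ N)
  have hlogN : 0 < Real.log N := Real.log_pos (by linarith)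
  -- the power
  obtain ⟨K, hK⟩ : ∃ K, K = Nat.log b (4 * N) + 1 := ⟨_, rfl⟩
  obtain ⟨X, hX⟩ : ∃ X, X = b ^ K := ⟨_, rfl⟩
  have hNX : 4 * N < X := by rw [hX, hK]; exact Nat.lt_pow_succ_log_self hb1 (4 * N)
  have hXN : X ≤ b * (4 * N) := by
    rw [hX, hK, pow_succ']
    exact Nat.mul_le_mul_left _ (Nat.pow_log_le_self b (by omega))
  have hNXr : 4 * (N : ℝ) ≤ X := by exact_mod_cast hNX.le
  have hXNr : (X : ℝ) ≤ 4 * b * N := by
    have : (X : ℝ) ≤ b * (4 * N) := by exact_mod_cast hXN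
    linarith
  have hKK : k1 + k2 + k3 + k4 + c + 8 ≤ K := by
    by_contra h
    have h8 : b ^ K ≤ b ^ (k1 + k2 + k3 + k4 + c + 8) := Nat.pow_le_pow_right (by omega) (by omega)
    omega
  have hX0 : (0 : ℝ) < X := by linarith
  have hX1 : 1 ≤ X := by omega
  obtain ⟨hL1, hL2⟩ := logX b K hb
  obtain ⟨L, hL⟩ : ∃ L, L = Real.log (X : ℝ) := ⟨_, rfl⟩
  rw [← hX, ← hL] at hL1 hL2
  have hK8 : (8 : ℝ) ≤ K := by exact_mod_cast (by omega : 8 ≤ K)
  have hL2' : 2 ≤ L := by linarith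
  have hL0 : 0 < L := by linarith
  have hLN : L ≤ 2 * Real.log N := by
    have e1 : L ≤ Real.log (4 * b * N) := by
      rw [hL]
      exact Real.log_le_log hX0 hXNr
    rw [Real.log_mul (by positivity) (by linarith)] at e1
    have := h7 N (by omega)
    linarith
  -- the level
  obtain ⟨z, hz⟩ : ∃ z, z = ⌈L ^ B₂⌉₊ := ⟨_, rfl⟩
  have hz1 : L ^ B₂ ≤ z := by rw [hz]; exact Nat.le_ceil _
  have hz2 : (z : ℝ) ≤ L ^ (B₂ + 1) := by
    have e1 : (z : ℝ) < L ^ B₂ + 1 := by rw [hz]; exact Nat.ceil_lt_add_one (by positivity)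
    have e2 : 1 ≤ L ^ B₂ := one_le_pow₀ (by linarith)
    rw [pow_succ]
    nlinarith
  have hz3 : L ^ B ≤ z := (pow_le_pow_right₀ (by linarith) (by omega)).trans hz1
  have hz5 : L ≤ z := (le_self_pow₀ (by linarith) (by omega)).trans hz1
  -- the family
  have hhU : 2 * (R * s) + 2 * (c * R) + 2 * s + 4 ≤ hh b A K := by
    have e1 : 2 * A ≤ hh b A K := by
      unfold hh
      exact Nat.le_mul_of_pos_right _ (by omega)
    omega
  obtain ⟨Ω, Bd, hΩne, hΩ1, hΩinj, hΩ2, hΩ3⟩ := h1 K (by omega) s c hs1 (by omega) hhU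
  rw [← hX, ← hL] at hΩ3
  obtain ⟨M, hM⟩ : ∃ M, M = b ^ (K + 1) := ⟨_, rfl⟩
  have hMX : M = b * X := by rw [hM, hX, pow_succ']
  rw [← hM] at hΩ2 hΩ3
  have h2XM : 3 * X ≤ M := by rw [hMX]; exact Nat.mul_le_mul_right _ hb3
  have hsize : ∀ v ∈ Ω, ((sd b v : ℕ) : ℝ) ≤ δ * N := by
    intro v hv
    have e0 : ((sd b v : ℕ) : ℝ) ≤ ((6 * s * b ^ (K - c) : ℕ) : ℝ) := by exact_mod_cast (hΩ1 v hv).2
    refine e0.trans ?_
    have e1 : (b : ℝ) ^ K = (b : ℝ) ^ (K - c) * (b : ℝ) ^ c := by rw [← pow_add]; congr 1; omega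
    have e2 : (b : ℝ) ^ (K - c) = (1 / (b : ℝ)) ^ c * (b : ℝ) ^ K := by
      rw [e1, one_div, inv_pow]
      field_simp
    have e3 : (1 / (b : ℝ)) ^ c ≤ (1 / (b : ℝ)) ^ c₁ := by
      apply pow_le_pow_of_le_one (by positivity) _ (by omega)
      rw [div_le_one hb0]; linarith
    have e4 : (b : ℝ) ^ K = X := by rw [hX]; push_cast; rfl
    push_cast
    rw [e2, e4]
    have e5 : 6 * (s : ℝ) * (1 / (b : ℝ)) ^ c ≤ δ / (4 * b) :=
      (mul_le_mul_of_nonneg_left e3 (by positivity)).trans hc₁.le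
    calc 6 * (s : ℝ) * ((1 / (b : ℝ)) ^ c * X) = (6 * (s : ℝ) * (1 / (b : ℝ)) ^ c) * X := by ring
      _ ≤ (δ / (4 * b)) * X := mul_le_mul_of_nonneg_right e5 hX0.le
      _ ≤ (δ / (4 * b)) * (4 * b * N) := mul_le_mul_of_nonneg_left hXNr (by positivity)
      _ = δ * N := by field_simp
  have hsizeN : ∀ v ∈ Ω, sd b v ≤ N := by
    intro v hv
    have e1 := hsize v hv
    have e2 : δ * N ≤ 1 * (N : ℝ) := mul_le_mul_of_nonneg_right hδ1 (by linarith)
    have e3 : ((sd b v : ℕ) : ℝ) ≤ N := by linarith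
    exact_mod_cast e3
  have hDcard : (Ω.image (sd b)).card = Ω.card := card_image_of_injOn (fun v hv v' hv' h => hΩinj v hv v' hv' h)
  refine ⟨Ω.image (sd b), hΩne.image _, ?_, fun H hH1 hH2 w => ?_⟩
  · intro d hd
    rw [mem_image] at hd
    obtain ⟨v, hv, rfl⟩ := hd
    exact ⟨sd_pos b hbn v (⟨0, by omega⟩, ⟨0, hs1⟩), (hΩ1 v hv).1, hsize v hv⟩
  rw [sum_image (fun v hv v' hv' h => hΩinj v hv v' hv' h), hDcard]
  have hH0 : (0 : ℝ) < H := lt_of_lt_of_le (by positivity) hH1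
  have hH : 1 ≤ H := by
    have : 0 < H := by exact_mod_cast hH0
    omega
  obtain ⟨W2, hW2⟩ : ∃ W2 : ℝ, W2 = ∑ x ∈ Ioc N (2 * N), w x ^ 2 := ⟨_, rfl⟩
  have hW20 : 0 ≤ W2 := by rw [hW2]; exact sum_nonneg fun _ _ => sq_nonneg _
  rw [← hW2]
  have hΩ0 : (0 : ℝ) ≤ Ω.card := Nat.cast_nonneg _
  rcases le_or_gt (H : ℝ) (η₁ * X) with hHs | hHl
  · -- short windows
    have hHL : lam / 2 * L ≤ H := by
      calc lam / 2 * L ≤ lam / 2 * (2 * Real.log N) := mul_le_mul_of_nonneg_left hLN (by positivity)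
        _ = lam * Real.log N := by ring
        _ ≤ H := hH1
    obtain ⟨hE1, hE2⟩ := h2 K (by omega) z (by rw [← hX, ← hL]; exact hz5) (by rw [← hX, ← hL]; exact hz2) H hH (by rw [← hX, ← hL]; exact hHL)
    have hMT := h3 K (by omega) z (by rw [← hX, ← hL]; exact hz5) (by rw [← hX, ← hL]; exact hz2) H hH (by rw [← hX, ← hL]; exact hHL)
      (by rw [← hX]; exact hHs) (by rw [← hX]; omega)
    rw [← hX] at hE1 hE2 hMT
    have hconv := conv_sq N X H (by omega) hH hH2 hNX.le C hE1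
    obtain ⟨G, hG⟩ : ∃ G : ℕ → ℝ, G = fun n => ArithmeticFunction.vonMangoldt n - lamz z n := ⟨_, rfl⟩
    have hbil := bilin Ω (sd b) G X M H (Ioc N (2 * N)) w hH (by omega)
      (fun x hx => by rw [mem_Ioc] at hx; omega)
      (fun v hv x hx => by rw [mem_Ioc] at hx; have := hsizeN v hv; omega) Bd δ₁ (1 / (K : ℝ) ^ U) C hδ₁0.le
      (fun ρ _ hρ => (hΩ2 ρ hρ).trans (mul_le_mul_of_nonneg_right hδs hΩ0))
      (fun r₀ => by
        rw [hG]
        refine (hΩ3 z hz3 hz2 r₀ _ ?_).trans (le_of_eq (by ring))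
        intro r hr
        rw [mem_filter, mem_range] at hr
        exact hr) (by rw [hG]; exact hE2)
    rw [← hW2] at hbil
    have hY : (1 : ℝ) / (K : ℝ) ^ U ≤ η := by
      have e1 : (K : ℝ) ≤ (K : ℝ) ^ U := le_self_pow₀ (by linarith) (by omega)
      have e2 : 1 / η ≤ K := by
        have : (k4 : ℝ) ≤ K := by exact_mod_cast (by omega : k4 ≤ K)
        linarith
      rw [div_le_iff₀ hη0] at e2
      rw [div_le_iff₀ (by positivity)]
      nlinarith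
    -- the remaining part
    obtain ⟨E, hE⟩ : ∃ E : ℕ → ℝ, E = fun y => (cH N H y - win (fun n => ArithmeticFunction.vonMangoldt n) X H y) + (win (lamz z) X H y - 1) := ⟨_, rfl⟩
    have hEsq : ∑ y ∈ Ioc N (3 * N), E y ^ 2 ≤ 6 * η * X := by
      have e1 : ∀ y ∈ Ioc N (3 * N), E y ^ 2 ≤ 2 * (cH N H y - win (fun n => ArithmeticFunction.vonMangoldt n) X H y) ^ 2 + 2 * (win (lamz z) X H y - 1) ^ 2 := by
        intro y _
        rw [hE]
        simp only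
        nlinarith [sq_nonneg ((cH N H y - win (fun n => ArithmeticFunction.vonMangoldt n) X H y) - (win (lamz z) X H y - 1))]
      refine (sum_le_sum e1).trans ?_
      rw [sum_add_distrib, ← mul_sum, ← mul_sum]
      have e2 : ∑ y ∈ Ioc N (3 * N), (win (lamz z) X H y - 1) ^ 2 ≤ η * X := by
        refine le_trans ?_ hMT
        apply sum_le_sum_of_subset_of_nonneg
        · intro y hy
          rw [mem_Ioc] at hy
          rw [mem_Icc]
          omega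
        · intro _ _ _
          exact sq_nonneg _
      have e3 : 8 * C * X / Real.log N ^ 2 ≤ η * X := by
        rw [div_le_iff₀ (by positivity)]
        have e4 := h6 N (by omega)
        have e5 : 1 ≤ Real.log N := by
          have : 0 ≤ 8 * C / η := by positivity
          linarith
        have e6 : 8 * C ≤ η * Real.log N := by
          have : 8 * C / η ≤ Real.log N := by linarith
          rw [div_le_iff₀ hη0] at this
          linarith
        have e7 : Real.log N ≤ Real.log N ^ 2 := le_self_pow₀ e5 (by norm_num)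
        calc 8 * C * X ≤ (η * Real.log N ^ 2) * X := by
              apply mul_le_mul_of_nonneg_right _ hX0.le
              exact e6.trans (mul_le_mul_of_nonneg_left e7 hη0.le)
          _ = _ := by ring
      have e4 : 4 * √(X : ℝ) * Real.log X ^ 2 ≤ η * X := by
        have e5 := h5 X (by omega)
        rw [div_mul_eq_mul_div, div_le_iff₀ hη0] at e5
        have e6 : √(X : ℝ) * √(X : ℝ) = X := Real.mul_self_sqrt hX0.le
        calc 4 * √(X : ℝ) * Real.log X ^ 2 = √(X : ℝ) * (4 * Real.log X ^ 2) := by ring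
          _ ≤ √(X : ℝ) * (√(X : ℝ) * η) := mul_le_mul_of_nonneg_left e5 (Real.sqrt_nonneg _)
          _ = η * X := by rw [← mul_assoc, e6]; ring
      linarith
    have hpt : ∀ v ∈ Ω, (∑ x ∈ Ioc N (2 * N), w x * (cH N H (x + sd b v) - 1)) ^ 2 ≤
        2 * TT G X H (Ioc N (2 * N)) w (sd b v) ^ 2 + 2 * (6 * η * X * W2) := by
      intro v hv
      have e1 : ∑ x ∈ Ioc N (2 * N), w x * (cH N H (x + sd b v) - 1) =
          TT G X H (Ioc N (2 * N)) w (sd b v) + ∑ x ∈ Ioc N (2 * N), w x * E (x + sd b v) := by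
        rw [TT_win, ← sum_add_distrib]
        apply sum_congr rfl
        intro x _
        rw [hG, win_sub, hE]
        ring
      have e2 := cs_shift (Ioc N (2 * N)) (Ioc N (3 * N)) w E (sd b v) (6 * η * X) (fun x hx => by
        rw [mem_Ioc] at hx ⊢
        have := hsizeN v hv
        omega) hEsq
      rw [← hW2] at e2
      rw [e1]
      nlinarith [sq_nonneg (TT G X H (Ioc N (2 * N)) w (sd b v) - ∑ x ∈ Ioc N (2 * N), w x * E (x + sd b v))]
    refine (sum_le_sum hpt).trans ?_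
    rw [sum_add_distrib, ← mul_sum, sum_const, nsmul_eq_mul]
    have e1 : (Ω.card : ℝ) * ((δ₁ * C + 1 / (K : ℝ) ^ U) * X * W2) ≤ Ω.card * ((η + η) * X * W2) := by
      apply mul_le_mul_of_nonneg_left _ hΩ0
      apply mul_le_mul_of_nonneg_right _ hW20
      apply mul_le_mul_of_nonneg_right _ hX0.le
      linarith
    have e2 : (Ω.card : ℝ) * (16 * η * X * W2) ≤ Ω.card * (16 * η * (4 * b * N) * W2) := by
      apply mul_le_mul_of_nonneg_left _ hΩ0
      apply mul_le_mul_of_nonneg_right _ hW20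
      exact mul_le_mul_of_nonneg_left hXNr (by positivity)
    have e3 : (Ω.card : ℝ) * (16 * η * (4 * b * N) * W2) ≤ δ * Ω.card * (N * W2) := by
      have e4 : 16 * η * (4 * b) ≤ δ := by nlinarith [hηb]
      have e5 : 0 ≤ (Ω.card : ℝ) * (N * W2) := mul_nonneg hΩ0 (mul_nonneg (by linarith) hW20)
      calc (Ω.card : ℝ) * (16 * η * (4 * b * N) * W2) = (16 * η * (4 * b)) * (Ω.card * (N * W2)) := by ring
        _ ≤ δ * (Ω.card * (N * W2)) := mul_le_mul_of_nonneg_right e4 e5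
        _ = _ := by ring
    linarith
  · -- long windows
    have hpt : ∀ v ∈ Ω, (∑ x ∈ Ioc N (2 * N), w x * (cH N H (x + sd b v) - 1)) ^ 2 ≤ δ * (N * W2) := by
      intro v hv
      refine (sum_mul_sq_le_sq_mul_sq _ w (fun x => cH N H (x + sd b v) - 1)).trans ?_
      rw [← hW2]
      have e1 : ∑ x ∈ Ioc N (2 * N), (cH N H (x + sd b v) - 1) ^ 2 ≤ δ * N := by
        have e2 : ∀ x ∈ Ioc N (2 * N), (cH N H (x + sd b v) - 1) ^ 2 ≤ δ := by
          intro x hx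
          rw [mem_Ioc] at hx
          have := hsizeN v hv
          have e3 := hlong N (by omega) H (x + sd b v) (by
            have : η₁ * (N : ℝ) ≤ η₁ * X := mul_le_mul_of_nonneg_left (by linarith) hη₁.le
            linarith) hH2 (by omega) (by omega)
          rw [hκ] at e3
          rw [← sq_abs]
          calc |cH N H (x + sd b v) - 1| ^ 2 ≤ δ ^ 2 := pow_le_pow_left₀ (abs_nonneg _) e3 2
            _ ≤ δ := by nlinarith
        refine (sum_le_sum e2).trans (le_of_eq ?_)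
        rw [sum_const, Nat.card_Ioc, nsmul_eq_mul]
        have : 2 * N - N = N := by omega
        rw [this]
        ring
      calc W2 * ∑ x ∈ Ioc N (2 * N), (cH N H (x + sd b v) - 1) ^ 2 ≤ W2 * (δ * N) := mul_le_mul_of_nonneg_left e1 hW20
        _ = _ := by ring
    refine (sum_le_sum hpt).trans (le_of_eq ?_)
    rw [sum_const, nsmul_eq_mul]
    ring

end Pool.Agent.H86.PW
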