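import Pool.Agent.H86.P8

set_option autoImplicit false

/-! Patterns of gaps at few-power distances: the second moment and the steps. -/

namespace Pool.Agent.H86.PG
open Finset
open Pool.Agent.H86.PW
open Pool.Agent.H373R2.T7
open Pool.Agent.W93.DG
open Pool.Agent.W93.HD

/-- the second moment of the number of primes in a window -/
theorem cH_sq (lam : ℝ) (hlam : 0 < lam) : ∃ C : ℝ, 1 ≤ C ∧ ∃ N₀ : ℕ, ∀ N : ℕ, N₀ ≤ N → ∀ H : ℕ, lam * Real.log N ≤ H → H ≤ N →
    ∑ y ∈ Ioc N (3 * N), cH N H y ^ 2 ≤ C * N := by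
  obtain ⟨C, hC0, hEn⟩ := EW_main 3 (by norm_num) (lam / 2) (by positivity)
  obtain ⟨k1, h1⟩ := hEn 2
  obtain ⟨n6, h6⟩ := ev_L' 2
  obtain ⟨n7, h7⟩ := ev_L' (Real.log 12)
  obtain ⟨n5, h5⟩ := ev_log' 2 4
  refine ⟨216 * C + 24, by linarith, 3 ^ (k1 + 8) + n5 + n6 + n7 + 2, fun N hN H hH1 hH2 => ?_⟩
  have hpk1 : 1 ≤ 3 ^ (k1 + 8) := Nat.pow_pos (by norm_num)
  have hN0 : (2 : ℝ) ≤ N := by exact_mod_cast (by omega : 2 ≤ N)
  have hlogN : 0 < Real.log N := Real.log_pos (by linarith)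
  obtain ⟨K, hK⟩ : ∃ K, K = Nat.log 3 (4 * N) + 1 := ⟨_, rfl⟩
  obtain ⟨X, hX⟩ : ∃ X, X = 3 ^ K := ⟨_, rfl⟩
  have hNX : 4 * N < X := by rw [hX, hK]; exact Nat.lt_pow_succ_log_self (by norm_num) (4 * N)
  have hXN : X ≤ 3 * (4 * N) := by
    rw [hX, hK, pow_succ']
    exact Nat.mul_le_mul_left _ (Nat.pow_log_le_self 3 (by omega))
  have hNXr : 4 * (N : ℝ) ≤ X := by exact_mod_cast hNX.le
  have hXNr : (X : ℝ) ≤ 12 * N := by
    have : (X : ℝ) ≤ 3 * (4 * N) := by exact_mod_cast hXN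
    linarith
  have hKK : k1 + 8 ≤ K := by
    by_contra h
    have h8 : 3 ^ K ≤ 3 ^ (k1 + 8) := Nat.pow_le_pow_right (by omega) (by omega)
    omega
  have hX0 : (0 : ℝ) < X := by linarith
  obtain ⟨L, hL⟩ : ∃ L, L = Real.log (X : ℝ) := ⟨_, rfl⟩
  have hL2' : 2 ≤ L := by
    have e1 := h6 N (by omega)
    have e2 : Real.log N ≤ L := by rw [hL]; exact Real.log_le_log (by linarith) (by linarith)
    linarith
  have hLN : L ≤ 2 * Real.log N := by
    have e1 : L ≤ Real.log (12 * N) := by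
      rw [hL]
      exact Real.log_le_log hX0 hXNr
    rw [Real.log_mul (by norm_num) (by linarith)] at e1
    have := h7 N (by omega)
    linarith
  obtain ⟨z, hz⟩ : ∃ z, z = ⌈L⌉₊ := ⟨_, rfl⟩
  have hz1 : L ≤ z := by rw [hz]; exact Nat.le_ceil _
  have hz2 : (z : ℝ) ≤ L ^ 2 := by
    have e1 : (z : ℝ) < L + 1 := by rw [hz]; exact Nat.ceil_lt_add_one (by linarith)
    nlinarith
  have hH0 : (0 : ℝ) < H := lt_of_lt_of_le (by positivity) hH1
  have hH : 1 ≤ H := by
    have : 0 < H := by exact_mod_cast hH0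
    omega
  have hHL : lam / 2 * L ≤ H := by
    calc lam / 2 * L ≤ lam / 2 * (2 * Real.log N) := mul_le_mul_of_nonneg_left hLN (by positivity)
      _ = lam * Real.log N := by ring
      _ ≤ H := hH1
  obtain ⟨hE1, -⟩ := h1 K (by omega) z (by rw [← hX, ← hL]; exact hz1) (by rw [← hX, ← hL]; exact hz2) H hH (by rw [← hX, ← hL]; exact hHL)
  rw [← hX] at hE1
  have hconv := conv_sq N X H (by omega) hH hH2 hNX.le C hE1
  have hΛ : ∀ a ∈ Icc 1 X, 0 ≤ (fun n : ℕ => (ArithmeticFunction.vonMangoldt n : ℝ)) a := fun a _ => ArithmeticFunction.vonMangoldt_nonneg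
  have h2 := (EW_sum (fun n => ArithmeticFunction.vonMangoldt n) X H hΛ (Ioc N (3 * N))).trans hE1
  have e1 : ∀ y ∈ Ioc N (3 * N), cH N H y ^ 2 ≤ 2 * (cH N H y - win (fun n => ArithmeticFunction.vonMangoldt n) X H y) ^ 2 +
      2 * win (fun n => ArithmeticFunction.vonMangoldt n) X H y ^ 2 := by
    intro y _
    nlinarith [sq_nonneg (cH N H y - win (fun n => ArithmeticFunction.vonMangoldt n) X H y - win (fun n => ArithmeticFunction.vonMangoldt n) X H y)]
  refine (sum_le_sum e1).trans ?_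
  rw [sum_add_distrib, ← mul_sum, ← mul_sum]
  have e3 : 8 * C * X / Real.log N ^ 2 ≤ 8 * C * X := by
    apply div_le_self (by positivity)
    have := h6 N (by omega)
    nlinarith
  have e4 : 4 * √(X : ℝ) * Real.log X ^ 2 ≤ X := by
    have e5 := h5 X (by omega)
    have e6 : √(X : ℝ) * √(X : ℝ) = X := Real.mul_self_sqrt hX0.le
    calc 4 * √(X : ℝ) * Real.log X ^ 2 = √(X : ℝ) * (4 * Real.log X ^ 2) := by ring
      _ ≤ √(X : ℝ) * √(X : ℝ) := mul_le_mul_of_nonneg_left e5 (Real.sqrt_nonneg _)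
      _ = X := e6
  have e5 : C * X ≤ C * (12 * N) := mul_le_mul_of_nonneg_left hXNr hC0
  nlinarith

/-- a prime not far after `y` -/
def Near (lam : ℝ) (N y : ℕ) : Prop := ∃ p : ℕ, p.Prime ∧ y < p ∧ (p : ℝ) ≤ y + lam * Real.log N

/-- no prime shortly after `y` -/
def Far (lam : ℝ) (N y : ℕ) : Prop := ∀ p : ℕ, p.Prime → y < p → y + (1 - lam) * Real.log N < (p : ℝ)

/-- the two properties -/
def PP (lam : ℝ) (N : ℕ) (s : Bool) (y : ℕ) : Prop := if s then Near lam N y else Far lam N y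

lemma exists_prime_of_pos (N H y : ℕ) (h : 0 < cH N H y) : ∃ p : ℕ, p.Prime ∧ y < p ∧ p ≤ y + H := by
  by_contra hcon
  push Not at hcon
  have h0 : (Nat.primeCounting (y + H) : ℝ) - Nat.primeCounting y = 0 := by
    rw [pi_diff]
    apply sum_eq_zero
    intro j hj
    rw [mem_Icc] at hj
    rw [if_neg]
    intro hp
    have := hcon _ hp (by omega)
    omega
  unfold cH at h
  rw [h0] at h
  simp at h

lemma cH_nonneg (N H y : ℕ) : 0 ≤ cH N H y := by
  unfold cH
  have h1 : (Nat.primeCounting y : ℝ) ≤ Nat.primeCounting (y + H) := by exact_mod_cast Nat.monotone_primeCounting (by omega)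
  apply div_nonneg _ (Nat.cast_nonneg _)
  exact mul_nonneg (by linarith) (Real.log_natCast_nonneg N)

lemma cH_ge (N H y p : ℕ) (hp : p.Prime) (h1 : y < p) (h2 : p ≤ y + H) : Real.log N / H ≤ cH N H y := by
  unfold cH
  apply div_le_div_of_nonneg_right _ (Nat.cast_nonneg _)
  have h3 : (1 : ℝ) ≤ (Nat.primeCounting (y + H) : ℝ) - Nat.primeCounting y := by
    rw [pi_diff]
    have h5 : p - y ∈ Icc 1 H := mem_Icc.2 ⟨by omega, by omega⟩
    have h6 := single_le_sum (f := fun h => if (y + h).Prime then (1 : ℝ) else 0) (fun i _ => by split_ifs <;> norm_num) h5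
    have h7 : (if (y + (p - y)).Prime then (1 : ℝ) else 0) = 1 := by
      rw [if_pos]
      rwa [show y + (p - y) = p by omega]
    exact h7.ge.trans h6
  have := mul_le_mul_of_nonneg_right h3 (Real.log_natCast_nonneg N)
  linarith

end Pool.Agent.H86.PG
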