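import Pool.Agent.H86.Q1

set_option autoImplicit false

/-! Patterns of gaps at few-power distances: one step. -/

namespace Pool.Agent.H86.PG
open Finset
open Pool.Agent.H86.PW
open Pool.Agent.H373R2.T7
open Pool.Agent.W93.DG
open Pool.Agent.W93.HD

/-- the mean square property of the family -/
def MS (lam δ : ℝ) (N : ℕ) (D : Finset ℕ) : Prop := ∀ H : ℕ, lam * Real.log N ≤ H → H ≤ N → ∀ w : ℕ → ℝ,
      ∑ d ∈ D, (∑ x ∈ Ioc N (2 * N), w x * (cH N H (x + d) - 1)) ^ 2 ≤ δ * D.card * (N * ∑ x ∈ Ioc N (2 * N), w x ^ 2)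

/-- few bad translations -/
lemma few_bad (lam δ : ℝ) (N : ℕ) (D : Finset ℕ) (hMS : MS lam δ N D) (H : ℕ) (hH1 : lam * Real.log N ≤ H) (hH2 : H ≤ N)
    (A : Finset ℕ) (hA : A ⊆ Ioc N (2 * N)) (β : ℝ) (hβ : 0 < β) (hAβ : β * N ≤ A.card) (hN : 1 ≤ N) (θ : ℝ) (hθ : 0 < θ) :
    ((D.filter (fun d => θ * A.card < |∑ x ∈ A, (cH N H (x + d) - 1)|)).card : ℝ) ≤ δ / (θ ^ 2 * β) * D.card := by
  classical
  have hN0 : (0 : ℝ) < N := by exact_mod_cast hN
  have hA0 : (0 : ℝ) < A.card := lt_of_lt_of_le (by positivity) hAβ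
  have h1 := hMS H hH1 hH2 (fun x => if x ∈ A then 1 else 0)
  have h2 : ∀ d, ∑ x ∈ Ioc N (2 * N), (if x ∈ A then (1 : ℝ) else 0) * (cH N H (x + d) - 1) = ∑ x ∈ A, (cH N H (x + d) - 1) := by
    intro d
    simp only [ite_mul, one_mul, zero_mul]
    rw [← sum_filter]
    congr 1
    ext x
    rw [mem_filter]
    exact ⟨fun h => h.2, fun h => ⟨hA h, h⟩⟩
  have h3 : ∑ x ∈ Ioc N (2 * N), (if x ∈ A then (1 : ℝ) else 0) ^ 2 = A.card := by
    simp only [ite_pow, one_pow, ne_eq, OfNat.ofNat_ne_zero, not_false_eq_true, zero_pow]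
    rw [← sum_filter]
    have : (Ioc N (2 * N)).filter (fun x => x ∈ A) = A := by
      ext x
      rw [mem_filter]
      exact ⟨fun h => h.2, fun h => ⟨hA h, h⟩⟩
    rw [this]
    simp
  simp only [h2, h3] at h1
  obtain ⟨B, hB⟩ : ∃ B, B = D.filter (fun d => θ * A.card < |∑ x ∈ A, (cH N H (x + d) - 1)|) := ⟨_, rfl⟩
  rw [← hB]
  have h4 : (B.card : ℝ) * (θ * A.card) ^ 2 ≤ δ * D.card * (N * A.card) := by
    calc (B.card : ℝ) * (θ * A.card) ^ 2 = ∑ d ∈ B, (θ * A.card) ^ 2 := by rw [sum_const, nsmul_eq_mul]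
      _ ≤ ∑ d ∈ B, (∑ x ∈ A, (cH N H (x + d) - 1)) ^ 2 := by
          apply sum_le_sum
          intro d hd
          rw [hB, mem_filter] at hd
          rw [← sq_abs (∑ x ∈ A, (cH N H (x + d) - 1))]
          exact pow_le_pow_left₀ (by positivity) hd.2.le 2
      _ ≤ ∑ d ∈ D, (∑ x ∈ A, (cH N H (x + d) - 1)) ^ 2 := by
          apply sum_le_sum_of_subset_of_nonneg
          · rw [hB]; exact filter_subset _ _
          · intro _ _ _; exact sq_nonneg _
      _ ≤ _ := h1
  rw [div_mul_eq_mul_div, le_div_iff₀ (by positivity)]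
  have h5 : (B.card : ℝ) * (θ ^ 2 * A.card) ≤ δ * D.card * N := by
    have e1 : ((B.card : ℝ) * (θ ^ 2 * A.card)) * A.card ≤ (δ * D.card * N) * A.card := by
      calc _ = (B.card : ℝ) * (θ * A.card) ^ 2 := by ring
        _ ≤ _ := h4
        _ = _ := by ring
    exact le_of_mul_le_mul_right e1 hA0
  have h6 : (B.card : ℝ) * (θ ^ 2 * β) * N ≤ (δ * D.card) * N := by
    calc (B.card : ℝ) * (θ ^ 2 * β) * N = (B.card : ℝ) * (θ ^ 2 * (β * N)) := by ring
      _ ≤ (B.card : ℝ) * (θ ^ 2 * A.card) := by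
          apply mul_le_mul_of_nonneg_left _ (Nat.cast_nonneg _)
          exact mul_le_mul_of_nonneg_left hAβ (sq_nonneg _)
      _ ≤ _ := h5
  exact le_of_mul_le_mul_right h6 hN0

/-- one step -/
theorem step (lam : ℝ) (hlam : 0 < lam) (hlam1 : lam < 1) : ∃ c₀ K₀ : ℝ, 0 < c₀ ∧ c₀ ≤ 1 ∧ 0 < K₀ ∧ ∃ N₀ : ℕ, ∀ N : ℕ, N₀ ≤ N →
    ∀ (δ : ℝ) (D : Finset ℕ), 0 ≤ δ → (∀ d ∈ D, d ≤ N) → MS (lam / 2) δ N D → ∀ (β : ℝ) (A : Finset ℕ), 0 < β → β ≤ 1 → A ⊆ Ioc N (2 * N) →
    β * N ≤ A.card → ∀ s : Bool,
    (∀ P : ℕ → Prop, (∀ y, P y ↔ PP lam N s y) → ∀ [DecidablePred P],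
    ((D.filter (fun d => ((A.filter (fun x => P (x + d))).card : ℝ) < c₀ * β * A.card)).card : ℝ) ≤ K₀ * δ / β * D.card) := by
  obtain ⟨C, hC1, n1, hsq⟩ := cH_sq (lam / 2) (by positivity)
  obtain ⟨n2, h2⟩ := ev_L' (4 / lam + 1)
  obtain ⟨n3, h3⟩ := ev_log' 1 2
  refine ⟨min (1 / (4 * C)) (lam / 8), 64 / lam ^ 2, by positivity, ?_, by positivity, n1 + n2 + n3 + 4, fun N hN δ D hδ hD hMS β A hβ hβ1 hA hAβ s P hP _ => ?_⟩
  · exact (min_le_right _ _).trans (by linarith)
  have hN0 : (2 : ℝ) ≤ N := by exact_mod_cast (by omega : 2 ≤ N)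
  have hlog : 4 / lam + 1 ≤ Real.log N := h2 N (by omega)
  have hlog1 : 0 < 4 / lam := by positivity
  have hlog0 : 0 < Real.log N := by linarith
  have hlaml : 4 ≤ lam * Real.log N := by
    have := mul_le_mul_of_nonneg_left hlog hlam.le
    rw [mul_add, mul_div_cancel₀ _ hlam.ne'] at this
    linarith
  have hlogN : Real.log N + 2 ≤ N := by
    have e1 := h3 N (by omega)
    rw [pow_one] at e1
    have e2 : √(N : ℝ) ≤ N := by
      rw [Real.sqrt_le_left (by linarith)]
      nlinarith
    have e3 : (4 : ℝ) ≤ N := by exact_mod_cast (by omega : 4 ≤ N)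
    linarith
  have hA0 : (0 : ℝ) < A.card := lt_of_lt_of_le (by positivity) hAβ
  have hc₀ : min (1 / (4 * C)) (lam / 8) ≤ 1 / (4 * C) := min_le_left _ _
  have hc₁ : min (1 / (4 * C)) (lam / 8) ≤ lam / 8 := min_le_right _ _
  cases s with
  | true =>
    obtain ⟨H, hH⟩ : ∃ H, H = ⌊lam * Real.log N⌋₊ := ⟨_, rfl⟩
    have hHle : (H : ℝ) ≤ lam * Real.log N := by rw [hH]; exact Nat.floor_le (by positivity)
    have hHge : lam * Real.log N - 1 < H := by rw [hH]; exact Nat.sub_one_lt_floor _
    have hH1 : lam / 2 * Real.log N ≤ H := by linarith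
    have hH2 : H ≤ N := by
      have e1 : (H : ℝ) ≤ N := by nlinarith
      exact_mod_cast e1
    have hbad := few_bad (lam / 2) δ N D hMS H hH1 hH2 A hA β hβ hAβ (by omega) (1 / 2) (by norm_num)
    refine le_trans ?_ (hbad.trans ?_)
    · apply Nat.cast_le.2
      apply card_le_card
      intro d hd
      rw [mem_filter] at hd ⊢
      refine ⟨hd.1, ?_⟩
      by_contra hcon
      push Not at hcon
      rw [abs_le] at hcon
      have e1 : (A.card : ℝ) / 2 ≤ ∑ x ∈ A, cH N H (x + d) := by
        have : ∑ x ∈ A, (cH N H (x + d) - 1) = ∑ x ∈ A, cH N H (x + d) - A.card := by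
          rw [sum_sub_distrib]; simp
        rw [this] at hcon
        linarith [hcon.1]
      obtain ⟨A', hA'⟩ : ∃ A', A' = A.filter (fun x => P (x + d)) := ⟨_, rfl⟩
      have e2 : ∑ x ∈ A, cH N H (x + d) = ∑ x ∈ A', cH N H (x + d) := by
        symm
        apply sum_subset (by rw [hA']; exact filter_subset _ _)
        intro x hx hx'
        have e3 : ¬ P (x + d) := by
          intro h
          exact hx' (by rw [hA', mem_filter]; exact ⟨hx, h⟩)
        rw [hP] at e3
        by_contra hne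
        have e4 : 0 < cH N H (x + d) := lt_of_le_of_ne (cH_nonneg _ _ _) (Ne.symm hne)
        obtain ⟨p, hp, hp1, hp2⟩ := exists_prime_of_pos N H (x + d) e4
        apply e3
        show (if true = true then Near lam N (x + d) else _)
        rw [if_pos rfl]
        refine ⟨p, hp, hp1, ?_⟩
        have e5 : (p : ℝ) ≤ ((x + d + H : ℕ) : ℝ) := by exact_mod_cast hp2
        push_cast at e5 ⊢
        linarith
      have e3 : (∑ x ∈ A', cH N H (x + d)) ^ 2 ≤ A'.card * (C * N) := by
        refine (sq_sum_le_card_mul_sum_sq (s := A') (f := fun x => cH N H (x + d))).trans ?_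
        apply mul_le_mul_of_nonneg_left _ (Nat.cast_nonneg _)
        refine le_trans ?_ (hsq N (by omega) H hH1 hH2)
        rw [← sum_image (f := fun y => cH N H y ^ 2) (g := fun x => x + d) (s := A') (fun x _ y _ h => by simpa using h)]
        apply sum_le_sum_of_subset_of_nonneg
        · intro y hy
          rw [mem_image] at hy
          obtain ⟨x, hx, rfl⟩ := hy
          rw [hA', mem_filter] at hx
          have e4 := hA hx.1
          have e5 := hD d hd.1
          rw [mem_Ioc] at e4 ⊢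
          omega
        · intro _ _ _; exact sq_nonneg _
      have e4 : ((A.card : ℝ) / 2) ^ 2 ≤ A'.card * (C * N) := by
        rw [e2] at e1
        exact (pow_le_pow_left₀ (by positivity) e1 2).trans e3
      have e5 := hd.2
      rw [← hA'] at e5
      have e6 : (A'.card : ℝ) * (C * N) < (1 / (4 * C) * β * A.card) * (C * N) := by
        apply mul_lt_mul_of_pos_right _ (by positivity)
        refine lt_of_lt_of_le e5 ?_
        apply mul_le_mul_of_nonneg_right _ hA0.le
        exact mul_le_mul_of_nonneg_right hc₀ hβ.le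
      have e7 : (1 / (4 * C) * β * A.card) * (C * N) = (β * N) * A.card / 4 := by
        field_simp
      nlinarith
    · have e1 : δ / ((1 / 2) ^ 2 * β) = 4 * δ / β := by
        field_simp
        ring
      rw [e1]
      apply mul_le_mul_of_nonneg_right _ (Nat.cast_nonneg _)
      apply div_le_div_of_nonneg_right _ hβ.le
      apply mul_le_mul_of_nonneg_right _ hδ
      rw [le_div_iff₀ (by positivity)]
      nlinarith
  | false =>
    obtain ⟨H, hH⟩ : ∃ H, H = ⌈(1 - lam / 2) * Real.log N⌉₊ := ⟨_, rfl⟩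
    have hHge : (1 - lam / 2) * Real.log N ≤ H := by rw [hH]; exact Nat.le_ceil _
    have hHle : (H : ℝ) < (1 - lam / 2) * Real.log N + 1 := by
      rw [hH]; exact Nat.ceil_lt_add_one (mul_nonneg (by linarith) hlog0.le)
    have hH1 : lam / 2 * Real.log N ≤ H := by nlinarith
    have hH2 : H ≤ N := by
      have e1 : (H : ℝ) ≤ N := by nlinarith
      exact_mod_cast e1
    have hH4 : (H : ℝ) ≤ (1 - lam / 4) * Real.log N := by nlinarith
    have hH0 : (0 : ℝ) < H := lt_of_lt_of_le (by positivity) hH1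
    have hbad := few_bad (lam / 2) δ N D hMS H hH1 hH2 A hA β hβ hAβ (by omega) (lam / 8) (by positivity)
    refine le_trans ?_ (hbad.trans ?_)
    · apply Nat.cast_le.2
      apply card_le_card
      intro d hd
      rw [mem_filter] at hd ⊢
      refine ⟨hd.1, ?_⟩
      by_contra hcon
      push Not at hcon
      rw [abs_le] at hcon
      have e1 : ∑ x ∈ A, cH N H (x + d) ≤ (1 + lam / 8) * A.card := by
        have : ∑ x ∈ A, (cH N H (x + d) - 1) = ∑ x ∈ A, cH N H (x + d) - A.card := by
          rw [sum_sub_distrib]; simp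
        rw [this] at hcon
        linarith [hcon.2]
      obtain ⟨A', hA'⟩ : ∃ A', A' = A.filter (fun x => ¬ P (x + d)) := ⟨_, rfl⟩
      have e2 : (A'.card : ℝ) * (Real.log N / H) ≤ ∑ x ∈ A, cH N H (x + d) := by
        calc (A'.card : ℝ) * (Real.log N / H) = ∑ x ∈ A', Real.log N / H := by rw [sum_const, nsmul_eq_mul]
          _ ≤ ∑ x ∈ A', cH N H (x + d) := by
              apply sum_le_sum
              intro x hx
              rw [hA', mem_filter, hP] at hx
              have e3 : ¬ Far lam N (x + d) := by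
                intro h
                apply hx.2
                show (if false = true then _ else Far lam N (x + d))
                simpa using h
              unfold Far at e3
              push Not at e3
              obtain ⟨p, hp, hp1, hp2⟩ := e3
              apply cH_ge N H (x + d) p hp hp1
              have e4 : (p : ℝ) ≤ ((x + d + H : ℕ) : ℝ) := by
                push_cast at hp2 ⊢
                nlinarith
              exact_mod_cast e4
          _ ≤ ∑ x ∈ A, cH N H (x + d) := by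
              apply sum_le_sum_of_subset_of_nonneg
              · rw [hA']; exact filter_subset _ _
              · intro _ _ _; exact cH_nonneg _ _ _
      have e3 : (A'.card : ℝ) ≤ (1 - lam / 4) * ((1 + lam / 8) * A.card) := by
        have e4 : (A'.card : ℝ) * (Real.log N / H) ≤ (1 + lam / 8) * A.card := e2.trans e1
        rw [← mul_div_assoc, div_le_iff₀ hH0] at e4
        have e5 : (1 + lam / 8) * A.card * H ≤ (1 + lam / 8) * A.card * ((1 - lam / 4) * Real.log N) :=
          mul_le_mul_of_nonneg_left hH4 (by positivity)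
        have e6 : (A'.card : ℝ) * Real.log N ≤ ((1 - lam / 4) * ((1 + lam / 8) * A.card)) * Real.log N := by
          calc _ ≤ _ := e4
            _ ≤ _ := e5
            _ = _ := by ring
        exact le_of_mul_le_mul_right e6 hlog0
      have e4 : (A'.card : ℝ) + (A.filter (fun x => P (x + d))).card = A.card := by
        have := card_filter_add_card_filter_not (s := A) (fun x => P (x + d))
        rw [hA']
        rw [← this]
        push_cast
        ring
      have e5 := hd.2
      have e6 : min (1 / (4 * C)) (lam / 8) * β * A.card ≤ lam / 8 * A.card := by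
        apply mul_le_mul_of_nonneg_right _ hA0.le
        have : min (1 / (4 * C)) (lam / 8) * β ≤ (lam / 8) * 1 := mul_le_mul hc₁ hβ1 hβ.le (by positivity)
        linarith
      nlinarith
    · have e1 : δ / ((lam / 8) ^ 2 * β) = 64 / lam ^ 2 * δ / β := by
        field_simp
        ring
      rw [e1]

end Pool.Agent.H86.PG
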