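import Pool.Agent.H86.Q2

set_option autoImplicit false

/-! Patterns of gaps at few-power distances: the induction. -/

namespace Pool.Agent.H86.PG
open Finset
open Pool.Agent.H86.PW
open Classical

/-- the choices of the translations with few points of a pattern -/
noncomputable def BadT (lam : ℝ) (N : ℕ) (D A : Finset ℕ) (r : ℕ) (c : ℝ) (s : Fin r → Bool) : Finset (Fin r → ℕ) :=
  (Fintype.piFinset (fun _ : Fin r => D)).filter (fun d => ((A.filter (fun x => ∀ i, PP lam N (s i) (x + d i))).card : ℝ) < c * A.card)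

lemma bad_succ (lam : ℝ) (N : ℕ) (D A : Finset ℕ) (r : ℕ) (c₁ c₂ : ℝ) (hc₂ : 0 ≤ c₂) (s : Fin (r + 1) → Bool) (q₁ q₂ : ℝ) (hq₂ : 0 ≤ q₂)
    (h1 : ((D.filter (fun d => ((A.filter (fun x => PP lam N (s 0) (x + d))).card : ℝ) < c₁ * A.card)).card : ℝ) ≤ q₁ * D.card)
    (h2 : ∀ A' : Finset ℕ, A' ⊆ A → c₁ * A.card ≤ A'.card → ((BadT lam N D A' r c₂ (Fin.tail s)).card : ℝ) ≤ q₂ * (D.card : ℝ) ^ r) :
    ((BadT lam N D A (r + 1) (c₁ * c₂) s).card : ℝ) ≤ (q₁ + q₂) * (D.card : ℝ) ^ (r + 1) := by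
  obtain ⟨B, hB⟩ : ∃ B, B = D.filter (fun d => ((A.filter (fun x => PP lam N (s 0) (x + d))).card : ℝ) < c₁ * A.card) := ⟨_, rfl⟩
  rw [← hB] at h1
  obtain ⟨T, hT⟩ : ∃ T : ℕ → Finset (Fin r → ℕ), T = fun a => if a ∈ B then Fintype.piFinset (fun _ : Fin r => D) else
    BadT lam N D (A.filter (fun x => PP lam N (s 0) (x + a))) r c₂ (Fin.tail s) := ⟨_, rfl⟩
  have hpi : (Fintype.piFinset (fun _ : Fin r => D)).card = D.card ^ r := by
    rw [Fintype.card_piFinset]
    simp
  have e1 : (BadT lam N D A (r + 1) (c₁ * c₂) s).card ≤ ∑ a ∈ D, (T a).card := by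
    rw [← card_sigma]
    apply card_le_card_of_injOn (fun d => (⟨d 0, Fin.tail d⟩ : (_ : ℕ) × (Fin r → ℕ)))
    · intro d hd
      rw [mem_coe] at hd ⊢
      unfold BadT at hd
      rw [mem_filter, Fintype.mem_piFinset] at hd
      rw [mem_sigma]
      refine ⟨hd.1 0, ?_⟩
      show Fin.tail d ∈ T (d 0)
      rw [hT]
      simp only
      split_ifs with h
      · rw [Fintype.mem_piFinset]
        intro i
        exact hd.1 _
      · unfold BadT
        rw [mem_filter, Fintype.mem_piFinset]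
        refine ⟨fun i => hd.1 _, ?_⟩
        have e2 : c₁ * A.card ≤ ((A.filter (fun x => PP lam N (s 0) (x + d 0))).card : ℝ) := by
          by_contra hcon
          push Not at hcon
          apply h
          rw [hB, mem_filter]
          exact ⟨hd.1 0, hcon⟩
        have e3 : (A.filter (fun x => PP lam N (s 0) (x + d 0))).filter (fun x => ∀ i, PP lam N (Fin.tail s i) (x + Fin.tail d i)) =
            A.filter (fun x => ∀ i, PP lam N (s i) (x + d i)) := by
          ext x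
          rw [mem_filter, mem_filter, mem_filter]
          constructor
          · rintro ⟨⟨hx, h0⟩, h3⟩
            refine ⟨hx, fun i => ?_⟩
            refine Fin.cases h0 (fun j => h3 j) i
          · rintro ⟨hx, h3⟩
            exact ⟨⟨hx, h3 0⟩, fun j => h3 j.succ⟩
        rw [e3]
        calc _ < c₁ * c₂ * (A.card : ℝ) := hd.2
          _ = c₂ * (c₁ * A.card) := by ring
          _ ≤ _ := mul_le_mul_of_nonneg_left e2 hc₂
    · intro d _ d' _ h
      simp only [Sigma.mk.injEq, heq_eq_eq] at h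
      funext i
      refine Fin.cases h.1 (fun j => ?_) i
      exact congrFun h.2 j
  have e2 : ∀ a ∈ D, ((T a).card : ℝ) ≤ (if a ∈ B then (D.card : ℝ) ^ r else 0) + q₂ * (D.card : ℝ) ^ r := by
    intro a ha
    have e3 : 0 ≤ q₂ * (D.card : ℝ) ^ r := by positivity
    rw [hT]
    simp only
    split_ifs with h
    · rw [hpi]
      push_cast
      linarith
    · rw [zero_add]
      apply h2 _ (filter_subset _ _)
      by_contra hcon
      push Not at hcon
      apply h
      rw [hB, mem_filter]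
      exact ⟨ha, hcon⟩
  calc ((BadT lam N D A (r + 1) (c₁ * c₂) s).card : ℝ) ≤ ((∑ a ∈ D, (T a).card : ℕ) : ℝ) := Nat.cast_le.2 e1
    _ = ∑ a ∈ D, ((T a).card : ℝ) := by push_cast; rfl
    _ ≤ ∑ a ∈ D, ((if a ∈ B then (D.card : ℝ) ^ r else 0) + q₂ * (D.card : ℝ) ^ r) := sum_le_sum e2
    _ = B.card * (D.card : ℝ) ^ r + D.card * (q₂ * (D.card : ℝ) ^ r) := by
        have hf : D.filter (fun a => a ∈ B) = B := by
          rw [hB]
          ext a
          simp only [mem_filter]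
          tauto
        rw [sum_add_distrib, sum_const, nsmul_eq_mul, ← sum_filter, sum_const, nsmul_eq_mul, hf]
    _ ≤ (q₁ * D.card) * (D.card : ℝ) ^ r + D.card * (q₂ * (D.card : ℝ) ^ r) := by
        have := mul_le_mul_of_nonneg_right h1 (show 0 ≤ (D.card : ℝ) ^ r by positivity)
        linarith
    _ = _ := by ring

/-- the induction -/
theorem iter (lam : ℝ) (hlam : 0 < lam) (hlam1 : lam < 1) : ∃ N₀ : ℕ, ∀ r : ℕ, ∀ β ε : ℝ, 0 < β → β ≤ 1 → 0 < ε → ∃ c δ₀ : ℝ, 0 < c ∧ 0 < δ₀ ∧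
    ∀ N : ℕ, N₀ ≤ N → ∀ (δ : ℝ) (D : Finset ℕ), 0 ≤ δ → δ ≤ δ₀ → (∀ d ∈ D, d ≤ N) → MS (lam / 2) δ N D → ∀ A : Finset ℕ, A ⊆ Ioc N (2 * N) →
    β * N ≤ A.card → ∀ s : Fin r → Bool, ((BadT lam N D A r c s).card : ℝ) ≤ ε * (D.card : ℝ) ^ r := by
  obtain ⟨c₀, K₀, hc₀, hc₀1, hK₀, N₀, hstep⟩ := step lam hlam hlam1
  refine ⟨N₀, fun r => ?_⟩
  induction r with
  | zero =>
    intro β ε hβ hβ1 hε
    refine ⟨1, 1, one_pos, one_pos, fun N hN δ D hδ hδ1 hD hMS A hA hAβ s => ?_⟩
    have : BadT lam N D A 0 1 s = ∅ := by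
      unfold BadT
      rw [filter_eq_empty_iff]
      intro d _
      push Not
      rw [one_mul]
      apply Nat.cast_le.2
      apply card_le_card
      intro x hx
      rw [mem_filter]
      exact ⟨hx, fun i => i.elim0⟩
    rw [this]
    simp [hε.le]
  | succ r ih =>
    intro β ε hβ hβ1 hε
    have hβ' : 0 < c₀ * β * β := by positivity
    have hcβ : c₀ * β ≤ 1 := by nlinarith
    obtain ⟨c, δ₀, hc, hδ₀, hih⟩ := ih (c₀ * β * β) (ε / 2) hβ' (by nlinarith) (by positivity)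
    refine ⟨c₀ * β * c, min δ₀ (ε * β / (2 * K₀)), by positivity, by positivity, fun N hN δ D hδ hδ1 hD hMS A hA hAβ s => ?_⟩
    have h1 := hstep N hN δ D hδ hD hMS β A hβ hβ1 hA hAβ (s 0) (fun y => PP lam N (s 0) y) (fun y => Iff.rfl)
    have h3 : K₀ * δ / β ≤ ε / 2 := by
      have e1 := hδ1.trans (min_le_right _ _)
      rw [le_div_iff₀ (by positivity)] at e1
      rw [div_le_iff₀ hβ]
      linarith
    have h4 := bad_succ lam N D A r (c₀ * β) c hc.le s (ε / 2) (ε / 2) (by positivity)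
      (h1.trans (mul_le_mul_of_nonneg_right h3 (Nat.cast_nonneg _))) (fun A' hA' hA'c => by
        apply hih N hN δ D hδ (hδ1.trans (min_le_left _ _)) hD hMS A' (hA'.trans hA)
        refine le_trans ?_ hA'c
        calc c₀ * β * β * N = c₀ * β * (β * N) := by ring
          _ ≤ _ := mul_le_mul_of_nonneg_left hAβ (by positivity))
    rwa [add_halves] at h4

end Pool.Agent.H86.PG
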