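import Pool.Agent.H86.P8
import Pool.Agent.H86.Q2

set_option autoImplicit false
set_option linter.unusedSectionVars false

/-! Positive and negative translations. -/

namespace Pool.Agent.H86.PG
open Finset
open Pool.Agent.H86.PW
open Pool.Agent.H373R2.T7
open Pool.Agent.W93.DG
open Pool.Agent.W93.HD
open Pool.Agent.H807R2.Dav (ee norm_ee ee_zero ee_add)
open Pool.Agent.H86.DL (PS PS_mono)

/-- the property of the negative translations: an upper bound for the correlation of the primes with a translated weight -/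
def NS (lam δ : ℝ) (N : ℕ) (D : Finset ℕ) : Prop := ∀ H : ℕ, lam * Real.log N ≤ H → (H : ℝ) ≤ Real.log N ^ 2 → ∀ W : ℕ → ℝ,
  ∃ E : ℕ → ℝ, (∀ d ∈ D, (∀ y, 0 ≤ W y) → ∑ x ∈ Ioc N (2 * N), cH N H x * W (x + d) ≤ ∑ y ∈ Ioc N (3 * N), W y + E d) ∧
    ∑ d ∈ D, E d ^ 2 ≤ δ * D.card * (N * ∑ y ∈ Ioc N (3 * N), W y ^ 2)

lemma MV_neg {V : Type*} (Ω : Finset V) (d : V → ℕ) (N M ρ : ℕ) (hd : ∀ v ∈ Ω, d v ≤ N) :
    ‖MV Ω (fun v => N - d v) M ρ‖ = ‖MV Ω d M ρ‖ := by
  have h1 : MV Ω (fun v => N - d v) M ρ = ee (-((N : ℝ) * ((ρ : ℝ) / M))) * (starRingEnd ℂ) (MV Ω d M ρ) := by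
    unfold MV
    rw [map_sum, mul_sum]
    apply sum_congr rfl
    intro v hv
    rw [conj_ee, ← ee_add]
    congr 1
    rw [Nat.cast_sub (hd v hv)]
    ring
  rw [h1, norm_mul, norm_ee, one_mul, Complex.norm_conj]

lemma cH_le_win (N X H y : ℕ) (hN : 2 ≤ N) (hy : N ≤ y) (hX : y + H ≤ X) :
    cH N H y ≤ win (fun n => ArithmeticFunction.vonMangoldt n) X H y := by
  unfold cH win
  rw [pi_diff, sum_mul]
  apply div_le_div_of_nonneg_right _ (Nat.cast_nonneg _)
  apply sum_le_sum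
  intro h hh
  rw [mem_Icc] at hh
  rw [if_pos (show y + h ≤ X by omega)]
  split_ifs with hp
  · rw [one_mul]
    show Real.log N ≤ ArithmeticFunction.vonMangoldt (y + h)
    rw [ArithmeticFunction.vonMangoldt_apply_prime hp]
    apply Real.log_le_log
    · exact_mod_cast (by omega : 0 < N)
    · exact_mod_cast (by omega : N ≤ y + h)
  · rw [zero_mul]
    show 0 ≤ ArithmeticFunction.vonMangoldt (y + h)
    exact ArithmeticFunction.vonMangoldt_nonneg

/-- the family with both properties -/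
theorem shift4 (b : ℕ) (hb3 : 3 ≤ b) (lam δ : ℝ) (hlam : 0 < lam) (hδ : 0 < δ) (hδ1 : δ ≤ 1) : ∃ k N₀ : ℕ, ∀ N : ℕ, N₀ ≤ N →
    ∃ D : Finset ℕ, D.Nonempty ∧ (∀ d ∈ D, 1 ≤ d ∧ PS b k d ∧ (d : ℝ) ≤ δ * N) ∧ MS lam δ N D ∧ NS lam δ N D := by
  classical
  have hb : 2 ≤ b := by omega
  have hbn : 0 < b := by omega
  have hb1 : 1 < b := by omega
  have hbr : (2 : ℝ) ≤ b := by exact_mod_cast hb
  have hb0 : (0 : ℝ) < b := by linarith
  obtain ⟨C, hC0, hEn⟩ := EW_main b hb (lam / 2) (by positivity)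
  obtain ⟨η, hη⟩ : ∃ η : ℝ, η = δ / (128 * b) := ⟨_, rfl⟩
  have hη0 : 0 < η := by rw [hη]; positivity
  have hηb : η * (4 * b) * 32 = δ := by rw [hη]; field_simp; ring
  obtain ⟨η₁, hη₁, hmain⟩ := main_term b hb (lam / 2) (by positivity) η hη0
  obtain ⟨κ, hκ⟩ : ∃ κ : ℝ, κ = δ := ⟨_, rfl⟩
  obtain ⟨nl, hlong⟩ := long κ η₁ (by rw [hκ]; exact hδ) hη₁
  obtain ⟨R, hR, hfam⟩ := fam b hb3
  have hR0 : (0 : ℝ) < R := by exact_mod_cast hR
  -- the parameters
  obtain ⟨δ₁, hδ₁⟩ : ∃ δ₁ : ℝ, δ₁ = η / (C + 1) := ⟨_, rfl⟩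
  have hδ₁0 : 0 < δ₁ := by rw [hδ₁]; positivity
  have hδ₁C : δ₁ * C ≤ η := by
    rw [hδ₁, div_mul_eq_mul_div, div_le_iff₀ (by positivity)]
    nlinarith
  obtain ⟨s, hs⟩ : ∃ s : ℕ, s = ⌈(R : ℝ) * (b : ℝ) ^ 4 / δ₁⌉₊ + 1 := ⟨_, rfl⟩
  have hs1 : 1 ≤ s := by omega
  have hδs : Real.exp (-((s : ℝ) / (R * (b : ℝ) ^ 4))) ≤ δ₁ := by
    have e1 : (R : ℝ) * (b : ℝ) ^ 4 / δ₁ ≤ s := by
      have := Nat.le_ceil ((R : ℝ) * (b : ℝ) ^ 4 / δ₁)
      rw [hs]; push_cast; linarith
    have e2 : 1 / δ₁ ≤ (s : ℝ) / (R * (b : ℝ) ^ 4) := by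
      rw [le_div_iff₀ (by positivity)]
      calc 1 / δ₁ * (R * (b : ℝ) ^ 4) = (R : ℝ) * (b : ℝ) ^ 4 / δ₁ := by ring
        _ ≤ (s : ℝ) := e1
    rw [Real.exp_neg, inv_le_comm₀ (Real.exp_pos _) hδ₁0, ← one_div]
    have := Real.add_one_le_exp ((s : ℝ) / (R * (b : ℝ) ^ 4))
    linarith
  obtain ⟨c₁, hc₁⟩ : ∃ c₁ : ℕ, (6 * (s : ℝ)) * (1 / (b : ℝ)) ^ c₁ < δ / (4 * b) := by
    have h1 : 1 / (b : ℝ) < 1 := by rw [div_lt_one hb0]; linarith
    have hs0 : (0 : ℝ) < s := by exact_mod_cast hs1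
    obtain ⟨n, hn⟩ := exists_pow_lt_of_lt_one (show 0 < (δ / (4 * b)) / (6 * (s : ℝ)) by positivity) h1
    refine ⟨n, ?_⟩
    rw [lt_div_iff₀ (by positivity)] at hn
    linarith
  obtain ⟨c, hc⟩ : ∃ c : ℕ, c = c₁ + 1 := ⟨_, rfl⟩
  obtain ⟨U, hU⟩ : ∃ U : ℕ, U = R * s + c * R + s + 2 := ⟨_, rfl⟩
  obtain ⟨A, B, hUA, hB⟩ := hfam U
  obtain ⟨B₂, hB₂⟩ : ∃ B₂, B₂ = B + 1 := ⟨_, rfl⟩
  obtain ⟨k1, h1⟩ := hB (B₂ + 1)
  obtain ⟨k2, h2⟩ := hEn (B₂ + 1)
  obtain ⟨k3, h3⟩ := hmain (B₂ + 1)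
  obtain ⟨k4, hk4⟩ := exists_nat_ge (1 / η + 1)
  obtain ⟨n5, h5⟩ := ev_log' 2 (4 / η)
  obtain ⟨n6, h6⟩ := ev_L' (8 * C / η + 1)
  obtain ⟨n7, h7⟩ := ev_L' (Real.log (4 * b))
  obtain ⟨n8, h8⟩ := ev_log' 2 (1 / η₁ + 1)
  refine ⟨6 * s, b ^ (k1 + k2 + k3 + k4 + c + 8) + nl + n5 + n6 + n7 + n8 + 2, fun N hN => ?_⟩
  have hpk1 : 1 ≤ b ^ (k1 + k2 + k3 + k4 + c + 8) := Nat.pow_pos hbn
  have hN0 : (2 : ℝ) ≤ N := by exact_mod_cast (by omega : 2 ≤ N)
  have hlogN : 0 < Real.log N := Real.log_pos (by linarith)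
  -- the power
  obtain ⟨K, hK⟩ : ∃ K, K = Nat.log b (4 * N) + 1 := ⟨_, rfl⟩
  obtain ⟨X, hX⟩ : ∃ X, X = b ^ K := ⟨_, rfl⟩
  have hNX : 4 * N < X := by rw [hX, hK]; exact Nat.lt_pow_succ_log_self hb1 (4 * N)
  have hXN : X ≤ b * (4 * N) := by
    rw [hX, hK, pow_succ']
    exact Nat.mul_le_mul_left _ (Nat.pow_log_le_self b (by omega))
  have hNXr : 4 * (N : ℝ) ≤ X := by exact_mod_cast hNX.le
  have hXNr : (X : ℝ) ≤ 4 * b * N := by
    have : (X : ℝ) ≤ b * (4 * N) := by exact_mod_cast hXN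
    linarith
  have hKK : k1 + k2 + k3 + k4 + c + 8 ≤ K := by
    by_contra h
    have h8 : b ^ K ≤ b ^ (k1 + k2 + k3 + k4 + c + 8) := Nat.pow_le_pow_right (by omega) (by omega)
    omega
  have hX0 : (0 : ℝ) < X := by linarith
  have hX1 : 1 ≤ X := by omega
  obtain ⟨hL1, hL2⟩ := logX b K hb
  obtain ⟨L, hL⟩ : ∃ L, L = Real.log (X : ℝ) := ⟨_, rfl⟩
  rw [← hX, ← hL] at hL1 hL2
  have hK8 : (8 : ℝ) ≤ K := by exact_mod_cast (by omega : 8 ≤ K)
  have hL2' : 2 ≤ L := by linarith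
  have hL0 : 0 < L := by linarith
  have hLN : L ≤ 2 * Real.log N := by
    have e1 : L ≤ Real.log (4 * b * N) := by
      rw [hL]
      exact Real.log_le_log hX0 hXNr
    rw [Real.log_mul (by positivity) (by linarith)] at e1
    have := h7 N (by omega)
    linarith
  -- the level
  obtain ⟨z, hz⟩ : ∃ z, z = ⌈L ^ B₂⌉₊ := ⟨_, rfl⟩
  have hz1 : L ^ B₂ ≤ z := by rw [hz]; exact Nat.le_ceil _
  have hz2 : (z : ℝ) ≤ L ^ (B₂ + 1) := by
    have e1 : (z : ℝ) < L ^ B₂ + 1 := by rw [hz]; exact Nat.ceil_lt_add_one (by positivity)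
    have e2 : 1 ≤ L ^ B₂ := one_le_pow₀ (by linarith)
    rw [pow_succ]
    nlinarith
  have hz3 : L ^ B ≤ z := (pow_le_pow_right₀ (by linarith) (by omega)).trans hz1
  have hz5 : L ≤ z := (le_self_pow₀ (by linarith) (by omega)).trans hz1
  -- the family
  have hhU : 2 * (R * s) + 2 * (c * R) + 2 * s + 4 ≤ hh b A K := by
    have e1 : 2 * A ≤ hh b A K := by
      unfold hh
      exact Nat.le_mul_of_pos_right _ (by omega)
    omega
  obtain ⟨Ω, Bd, hΩne, hΩ1, hΩinj, hΩ2, hΩ3⟩ := h1 K (by omega) s c hs1 (by omega) hhU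
  rw [← hX, ← hL] at hΩ3
  obtain ⟨M, hM⟩ : ∃ M, M = b ^ (K + 1) := ⟨_, rfl⟩
  have hMX : M = b * X := by rw [hM, hX, pow_succ']
  rw [← hM] at hΩ2 hΩ3
  have h2XM : 3 * X ≤ M := by rw [hMX]; exact Nat.mul_le_mul_right _ hb3
  have hsize : ∀ v ∈ Ω, ((sd b v : ℕ) : ℝ) ≤ δ * N := by
    intro v hv
    have e0 : ((sd b v : ℕ) : ℝ) ≤ ((6 * s * b ^ (K - c) : ℕ) : ℝ) := by exact_mod_cast (hΩ1 v hv).2
    refine e0.trans ?_
    have e1 : (b : ℝ) ^ K = (b : ℝ) ^ (K - c) * (b : ℝ) ^ c := by rw [← pow_add]; congr 1; omega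
    have e2 : (b : ℝ) ^ (K - c) = (1 / (b : ℝ)) ^ c * (b : ℝ) ^ K := by
      rw [e1, one_div, inv_pow]
      field_simp
    have e3 : (1 / (b : ℝ)) ^ c ≤ (1 / (b : ℝ)) ^ c₁ := by
      apply pow_le_pow_of_le_one (by positivity) _ (by omega)
      rw [div_le_one hb0]; linarith
    have e4 : (b : ℝ) ^ K = X := by rw [hX]; push_cast; rfl
    push_cast
    rw [e2, e4]
    have e5 : 6 * (s : ℝ) * (1 / (b : ℝ)) ^ c ≤ δ / (4 * b) :=
      (mul_le_mul_of_nonneg_left e3 (by positivity)).trans hc₁.le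
    calc 6 * (s : ℝ) * ((1 / (b : ℝ)) ^ c * X) = (6 * (s : ℝ) * (1 / (b : ℝ)) ^ c) * X := by ring
      _ ≤ (δ / (4 * b)) * X := mul_le_mul_of_nonneg_right e5 hX0.le
      _ ≤ (δ / (4 * b)) * (4 * b * N) := mul_le_mul_of_nonneg_left hXNr (by positivity)
      _ = δ * N := by field_simp
  have hsizeN : ∀ v ∈ Ω, sd b v ≤ N := by
    intro v hv
    have e1 := hsize v hv
    have e2 : δ * N ≤ 1 * (N : ℝ) := mul_le_mul_of_nonneg_right hδ1 (by linarith)
    have e3 : ((sd b v : ℕ) : ℝ) ≤ N := by linarith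
    exact_mod_cast e3
  have hDcard : (Ω.image (sd b)).card = Ω.card := card_image_of_injOn (fun v hv v' hv' h => hΩinj v hv v' hv' h)
  have hΩ0 : (0 : ℝ) ≤ Ω.card := Nat.cast_nonneg _
  refine ⟨Ω.image (sd b), hΩne.image _, ?_, fun H hH1 hH2 w => ?_, fun H hH1 hH2 W => ?_⟩
  · intro d hd
    rw [mem_image] at hd
    obtain ⟨v, hv, rfl⟩ := hd
    exact ⟨sd_pos b hbn v (⟨0, by omega⟩, ⟨0, hs1⟩), (hΩ1 v hv).1, hsize v hv⟩
  rotate_left
  · -- negative translations
    have hH0 : (0 : ℝ) < H := lt_of_lt_of_le (by positivity) hH1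
    have hH : 1 ≤ H := by
      have : 0 < H := by exact_mod_cast hH0
      omega
    have hsqN : √(N : ℝ) ≤ N := by
      rw [Real.sqrt_le_left (by linarith)]
      nlinarith
    have h8N := h8 N (by omega)
    have hlog2 : Real.log N ^ 2 ≤ η₁ * N := by
      have e1 : 1 / η₁ * Real.log N ^ 2 ≤ N := by
        have : 0 ≤ Real.log (N : ℝ) ^ 2 := sq_nonneg _
        nlinarith
      have e2 := mul_le_mul_of_nonneg_left e1 hη₁.le
      rwa [← mul_assoc, mul_one_div_cancel hη₁.ne', one_mul] at e2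
    have hlog3 : Real.log N ^ 2 ≤ N := by
      have : 0 ≤ 1 / η₁ * Real.log (N : ℝ) ^ 2 := by positivity
      nlinarith
    have hHN : H ≤ N := by
      have : (H : ℝ) ≤ N := hH2.trans hlog3
      exact_mod_cast this
    have hHs : (H : ℝ) ≤ η₁ * X := by
      have : η₁ * (N : ℝ) ≤ η₁ * X := mul_le_mul_of_nonneg_left (by linarith) hη₁.le
      linarith
    have hHL : lam / 2 * L ≤ H := by
      calc lam / 2 * L ≤ lam / 2 * (2 * Real.log N) := mul_le_mul_of_nonneg_left hLN (by positivity)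
        _ = lam * Real.log N := by ring
        _ ≤ H := hH1
    obtain ⟨-, hE2⟩ := h2 K (by omega) z (by rw [← hX, ← hL]; exact hz5) (by rw [← hX, ← hL]; exact hz2) H hH (by rw [← hX, ← hL]; exact hHL)
    have hMT := h3 K (by omega) z (by rw [← hX, ← hL]; exact hz5) (by rw [← hX, ← hL]; exact hz2) H hH (by rw [← hX, ← hL]; exact hHL)
      (by rw [← hX]; exact hHs) (by rw [← hX]; omega)
    rw [← hX] at hE2 hMT
    obtain ⟨G, hG⟩ : ∃ G : ℕ → ℝ, G = fun n => ArithmeticFunction.vonMangoldt n - lamz z n := ⟨_, rfl⟩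
    have hbil := bilin Ω (fun v => N - sd b v) G X M H (Ioc 0 (2 * N)) (fun x => W (x + N)) hH (by omega)
      (fun x hx => by rw [mem_Ioc] at hx; omega)
      (fun v hv x hx => by rw [mem_Ioc] at hx; have := hsizeN v hv; omega) Bd δ₁ (1 / (K : ℝ) ^ U) C hδ₁0.le
      (fun ρ _ hρ => by
        rw [MV_neg Ω (sd b) N M ρ hsizeN]
        exact (hΩ2 ρ hρ).trans (mul_le_mul_of_nonneg_right hδs hΩ0))
      (fun r₀ => by
        rw [hG]
        refine (hΩ3 z hz3 hz2 r₀ _ ?_).trans (le_of_eq (by ring))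
        intro r hr
        rw [mem_filter, mem_range] at hr
        exact hr) (by rw [hG]; exact hE2)
    have hWsum : ∀ f : ℕ → ℝ, ∑ x ∈ Ioc 0 (2 * N), f (x + N) = ∑ y ∈ Ioc N (3 * N), f y := by
      intro f
      have e1 : Ioc N (3 * N) = (Ioc 0 (2 * N)).image (fun x => x + N) := by
        ext y
        rw [mem_image, mem_Ioc]
        constructor
        · intro h
          exact ⟨y - N, by rw [mem_Ioc]; omega, by omega⟩
        · rintro ⟨x, hx, rfl⟩
          rw [mem_Ioc] at hx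
          omega
      rw [e1, sum_image (fun x _ y _ h => by simpa using h)]
    obtain ⟨W2, hW2⟩ : ∃ W2 : ℝ, W2 = ∑ y ∈ Ioc N (3 * N), W y ^ 2 := ⟨_, rfl⟩
    have hW20 : 0 ≤ W2 := by rw [hW2]; exact sum_nonneg fun _ _ => sq_nonneg _
    rw [hWsum (fun y => W y ^ 2), ← hW2] at hbil
    rw [← hW2]
    have hY : (1 : ℝ) / (K : ℝ) ^ U ≤ η := by
      have e1 : (K : ℝ) ≤ (K : ℝ) ^ U := le_self_pow₀ (by linarith) (by omega)
      have e2 : 1 / η ≤ K := by
        have : (k4 : ℝ) ≤ K := by exact_mod_cast (by omega : k4 ≤ K)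
        linarith
      rw [div_le_iff₀ hη0] at e2
      rw [div_le_iff₀ (by positivity)]
      nlinarith
    have hΛ0 : ∀ y, 0 ≤ win (fun n => ArithmeticFunction.vonMangoldt n) X H y := by
      intro y
      unfold win
      apply div_nonneg _ hH0.le
      apply sum_nonneg
      intro h _
      split_ifs
      · exact ArithmeticFunction.vonMangoldt_nonneg
      · exact le_rfl
    refine ⟨fun d => ∑ y ∈ Ioc N (3 * N), W y * (win (fun n => ArithmeticFunction.vonMangoldt n) X H (y - d) - 1), ?_, ?_⟩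
    · intro d hd hW
      rw [mem_image] at hd
      obtain ⟨v, hv, rfl⟩ := hd
      have hdN := hsizeN v hv
      have e1 : ∀ x ∈ Ioc N (2 * N), cH N H x * W (x + sd b v) ≤ win (fun n => ArithmeticFunction.vonMangoldt n) X H x * W (x + sd b v) := by
        intro x hx
        rw [mem_Ioc] at hx
        apply mul_le_mul_of_nonneg_right _ (hW _)
        exact cH_le_win N X H x (by omega) hx.1.le (by omega)
      have e2 : ∑ x ∈ Ioc N (2 * N), win (fun n => ArithmeticFunction.vonMangoldt n) X H x * W (x + sd b v) ≤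
          ∑ y ∈ Ioc N (3 * N), W y * win (fun n => ArithmeticFunction.vonMangoldt n) X H (y - sd b v) := by
        have e3 : ∑ x ∈ Ioc N (2 * N), win (fun n => ArithmeticFunction.vonMangoldt n) X H x * W (x + sd b v) =
            ∑ y ∈ (Ioc N (2 * N)).image (fun x => x + sd b v), W y * win (fun n => ArithmeticFunction.vonMangoldt n) X H (y - sd b v) := by
          rw [sum_image (fun x _ y _ h => by simpa using h)]
          apply sum_congr rfl
          intro x _
          rw [Nat.add_sub_cancel, mul_comm]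
        rw [e3]
        apply sum_le_sum_of_subset_of_nonneg
        · intro y hy
          rw [mem_image] at hy
          obtain ⟨x, hx, rfl⟩ := hy
          rw [mem_Ioc] at hx ⊢
          omega
        · intro y _ _
          exact mul_nonneg (hW _) (hΛ0 _)
      refine (sum_le_sum e1).trans (e2.trans (le_of_eq ?_))
      rw [← sum_add_distrib]
      apply sum_congr rfl
      intro y _
      ring
    · rw [sum_image (fun v hv v' hv' h => hΩinj v hv v' hv' h), hDcard]
      have hpt : ∀ v ∈ Ω, (∑ y ∈ Ioc N (3 * N), W y * (win (fun n => ArithmeticFunction.vonMangoldt n) X H (y - sd b v) - 1)) ^ 2 ≤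
          2 * TT G X H (Ioc 0 (2 * N)) (fun x => W (x + N)) (N - sd b v) ^ 2 + 2 * (η * X * W2) := by
        intro v hv
        have hdN := hsizeN v hv
        have e1 : ∑ y ∈ Ioc N (3 * N), W y * (win (fun n => ArithmeticFunction.vonMangoldt n) X H (y - sd b v) - 1) =
            TT G X H (Ioc 0 (2 * N)) (fun x => W (x + N)) (N - sd b v) + ∑ y ∈ Ioc N (3 * N), W y * (win (lamz z) X H (y - sd b v) - 1) := by
          rw [TT_win]
          have e2 : ∑ x ∈ Ioc 0 (2 * N), W (x + N) * win G X H (x + (N - sd b v)) =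
              ∑ y ∈ Ioc N (3 * N), W y * win G X H (y - sd b v) := by
            rw [← hWsum]
            apply sum_congr rfl
            intro x _
            rw [show x + N - sd b v = x + (N - sd b v) by omega]
          rw [e2, ← sum_add_distrib]
          apply sum_congr rfl
          intro y _
          rw [hG, win_sub]
          ring
        have e2 : (∑ y ∈ Ioc N (3 * N), W y * (win (lamz z) X H (y - sd b v) - 1)) ^ 2 ≤ η * X * W2 := by
          refine (sum_mul_sq_le_sq_mul_sq _ W (fun y => win (lamz z) X H (y - sd b v) - 1)).trans ?_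
          rw [← hW2, mul_comm]
          apply mul_le_mul_of_nonneg_right _ hW20
          refine le_trans ?_ hMT
          have e3 : ∑ y ∈ Ioc N (3 * N), (win (lamz z) X H (y - sd b v) - 1) ^ 2 =
              ∑ x ∈ (Ioc N (3 * N)).image (fun y => y - sd b v), (win (lamz z) X H x - 1) ^ 2 := by
            rw [sum_image]
            intro y hy y' hy' h
            simp only [coe_Ioc, Set.mem_Ioc] at hy hy'
            simp only at h
            omega
          rw [e3]
          apply sum_le_sum_of_subset_of_nonneg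
          · intro x hx
            rw [mem_image] at hx
            obtain ⟨y, hy, rfl⟩ := hx
            rw [mem_Ioc] at hy
            rw [mem_Icc]
            omega
          · intro _ _ _; exact sq_nonneg _
        rw [e1]
        nlinarith [sq_nonneg (TT G X H (Ioc 0 (2 * N)) (fun x => W (x + N)) (N - sd b v) - ∑ y ∈ Ioc N (3 * N), W y * (win (lamz z) X H (y - sd b v) - 1))]
      refine (sum_le_sum hpt).trans ?_
      rw [sum_add_distrib, ← mul_sum, sum_const, nsmul_eq_mul]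
      have e1 : (Ω.card : ℝ) * ((δ₁ * C + 1 / (K : ℝ) ^ U) * X * W2) ≤ Ω.card * ((η + η) * X * W2) := by
        apply mul_le_mul_of_nonneg_left _ hΩ0
        apply mul_le_mul_of_nonneg_right _ hW20
        apply mul_le_mul_of_nonneg_right _ hX0.le
        linarith
      have e2 : (Ω.card : ℝ) * (16 * η * X * W2) ≤ Ω.card * (16 * η * (4 * b * N) * W2) := by
        apply mul_le_mul_of_nonneg_left _ hΩ0
        apply mul_le_mul_of_nonneg_right _ hW20
        exact mul_le_mul_of_nonneg_left hXNr (by positivity)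
      have e3 : (Ω.card : ℝ) * (16 * η * (4 * b * N) * W2) ≤ δ * Ω.card * (N * W2) := by
        have e4 : 16 * η * (4 * b) ≤ δ := by nlinarith [hηb]
        have e5 : 0 ≤ (Ω.card : ℝ) * (N * W2) := mul_nonneg hΩ0 (mul_nonneg (by linarith) hW20)
        calc (Ω.card : ℝ) * (16 * η * (4 * b * N) * W2) = (16 * η * (4 * b)) * (Ω.card * (N * W2)) := by ring
          _ ≤ δ * (Ω.card * (N * W2)) := mul_le_mul_of_nonneg_right e4 e5
          _ = _ := by ring
      have e4 : 0 ≤ (Ω.card : ℝ) * (η * X * W2) := by positivity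
      linarith
  rw [sum_image (fun v hv v' hv' h => hΩinj v hv v' hv' h), hDcard]
  have hH0 : (0 : ℝ) < H := lt_of_lt_of_le (by positivity) hH1
  have hH : 1 ≤ H := by
    have : 0 < H := by exact_mod_cast hH0
    omega
  obtain ⟨W2, hW2⟩ : ∃ W2 : ℝ, W2 = ∑ x ∈ Ioc N (2 * N), w x ^ 2 := ⟨_, rfl⟩
  have hW20 : 0 ≤ W2 := by rw [hW2]; exact sum_nonneg fun _ _ => sq_nonneg _
  rw [← hW2]
  rcases le_or_gt (H : ℝ) (η₁ * X) with hHs | hHl
  · -- short windows
    have hHL : lam / 2 * L ≤ H := by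
      calc lam / 2 * L ≤ lam / 2 * (2 * Real.log N) := mul_le_mul_of_nonneg_left hLN (by positivity)
        _ = lam * Real.log N := by ring
        _ ≤ H := hH1
    obtain ⟨hE1, hE2⟩ := h2 K (by omega) z (by rw [← hX, ← hL]; exact hz5) (by rw [← hX, ← hL]; exact hz2) H hH (by rw [← hX, ← hL]; exact hHL)
    have hMT := h3 K (by omega) z (by rw [← hX, ← hL]; exact hz5) (by rw [← hX, ← hL]; exact hz2) H hH (by rw [← hX, ← hL]; exact hHL)
      (by rw [← hX]; exact hHs) (by rw [← hX]; omega)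
    rw [← hX] at hE1 hE2 hMT
    have hconv := conv_sq N X H (by omega) hH hH2 hNX.le C hE1
    obtain ⟨G, hG⟩ : ∃ G : ℕ → ℝ, G = fun n => ArithmeticFunction.vonMangoldt n - lamz z n := ⟨_, rfl⟩
    have hbil := bilin Ω (sd b) G X M H (Ioc N (2 * N)) w hH (by omega)
      (fun x hx => by rw [mem_Ioc] at hx; omega)
      (fun v hv x hx => by rw [mem_Ioc] at hx; have := hsizeN v hv; omega) Bd δ₁ (1 / (K : ℝ) ^ U) C hδ₁0.le
      (fun ρ _ hρ => (hΩ2 ρ hρ).trans (mul_le_mul_of_nonneg_right hδs hΩ0))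
      (fun r₀ => by
        rw [hG]
        refine (hΩ3 z hz3 hz2 r₀ _ ?_).trans (le_of_eq (by ring))
        intro r hr
        rw [mem_filter, mem_range] at hr
        exact hr) (by rw [hG]; exact hE2)
    rw [← hW2] at hbil
    have hY : (1 : ℝ) / (K : ℝ) ^ U ≤ η := by
      have e1 : (K : ℝ) ≤ (K : ℝ) ^ U := le_self_pow₀ (by linarith) (by omega)
      have e2 : 1 / η ≤ K := by
        have : (k4 : ℝ) ≤ K := by exact_mod_cast (by omega : k4 ≤ K)
        linarith
      rw [div_le_iff₀ hη0] at e2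
      rw [div_le_iff₀ (by positivity)]
      nlinarith
    -- the remaining part
    obtain ⟨E, hE⟩ : ∃ E : ℕ → ℝ, E = fun y => (cH N H y - win (fun n => ArithmeticFunction.vonMangoldt n) X H y) + (win (lamz z) X H y - 1) := ⟨_, rfl⟩
    have hEsq : ∑ y ∈ Ioc N (3 * N), E y ^ 2 ≤ 6 * η * X := by
      have e1 : ∀ y ∈ Ioc N (3 * N), E y ^ 2 ≤ 2 * (cH N H y - win (fun n => ArithmeticFunction.vonMangoldt n) X H y) ^ 2 + 2 * (win (lamz z) X H y - 1) ^ 2 := by
        intro y _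
        rw [hE]
        simp only
        nlinarith [sq_nonneg ((cH N H y - win (fun n => ArithmeticFunction.vonMangoldt n) X H y) - (win (lamz z) X H y - 1))]
      refine (sum_le_sum e1).trans ?_
      rw [sum_add_distrib, ← mul_sum, ← mul_sum]
      have e2 : ∑ y ∈ Ioc N (3 * N), (win (lamz z) X H y - 1) ^ 2 ≤ η * X := by
        refine le_trans ?_ hMT
        apply sum_le_sum_of_subset_of_nonneg
        · intro y hy
          rw [mem_Ioc] at hy
          rw [mem_Icc]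
          omega
        · intro _ _ _
          exact sq_nonneg _
      have e3 : 8 * C * X / Real.log N ^ 2 ≤ η * X := by
        rw [div_le_iff₀ (by positivity)]
        have e4 := h6 N (by omega)
        have e5 : 1 ≤ Real.log N := by
          have : 0 ≤ 8 * C / η := by positivity
          linarith
        have e6 : 8 * C ≤ η * Real.log N := by
          have : 8 * C / η ≤ Real.log N := by linarith
          rw [div_le_iff₀ hη0] at this
          linarith
        have e7 : Real.log N ≤ Real.log N ^ 2 := le_self_pow₀ e5 (by norm_num)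
        calc 8 * C * X ≤ (η * Real.log N ^ 2) * X := by
              apply mul_le_mul_of_nonneg_right _ hX0.le
              exact e6.trans (mul_le_mul_of_nonneg_left e7 hη0.le)
          _ = _ := by ring
      have e4 : 4 * √(X : ℝ) * Real.log X ^ 2 ≤ η * X := by
        have e5 := h5 X (by omega)
        rw [div_mul_eq_mul_div, div_le_iff₀ hη0] at e5
        have e6 : √(X : ℝ) * √(X : ℝ) = X := Real.mul_self_sqrt hX0.le
        calc 4 * √(X : ℝ) * Real.log X ^ 2 = √(X : ℝ) * (4 * Real.log X ^ 2) := by ring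
          _ ≤ √(X : ℝ) * (√(X : ℝ) * η) := mul_le_mul_of_nonneg_left e5 (Real.sqrt_nonneg _)
          _ = η * X := by rw [← mul_assoc, e6]; ring
      linarith
    have hpt : ∀ v ∈ Ω, (∑ x ∈ Ioc N (2 * N), w x * (cH N H (x + sd b v) - 1)) ^ 2 ≤
        2 * TT G X H (Ioc N (2 * N)) w (sd b v) ^ 2 + 2 * (6 * η * X * W2) := by
      intro v hv
      have e1 : ∑ x ∈ Ioc N (2 * N), w x * (cH N H (x + sd b v) - 1) =
          TT G X H (Ioc N (2 * N)) w (sd b v) + ∑ x ∈ Ioc N (2 * N), w x * E (x + sd b v) := by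
        rw [TT_win, ← sum_add_distrib]
        apply sum_congr rfl
        intro x _
        rw [hG, win_sub, hE]
        ring
      have e2 := cs_shift (Ioc N (2 * N)) (Ioc N (3 * N)) w E (sd b v) (6 * η * X) (fun x hx => by
        rw [mem_Ioc] at hx ⊢
        have := hsizeN v hv
        omega) hEsq
      rw [← hW2] at e2
      rw [e1]
      nlinarith [sq_nonneg (TT G X H (Ioc N (2 * N)) w (sd b v) - ∑ x ∈ Ioc N (2 * N), w x * E (x + sd b v))]
    refine (sum_le_sum hpt).trans ?_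
    rw [sum_add_distrib, ← mul_sum, sum_const, nsmul_eq_mul]
    have e1 : (Ω.card : ℝ) * ((δ₁ * C + 1 / (K : ℝ) ^ U) * X * W2) ≤ Ω.card * ((η + η) * X * W2) := by
      apply mul_le_mul_of_nonneg_left _ hΩ0
      apply mul_le_mul_of_nonneg_right _ hW20
      apply mul_le_mul_of_nonneg_right _ hX0.le
      linarith
    have e2 : (Ω.card : ℝ) * (16 * η * X * W2) ≤ Ω.card * (16 * η * (4 * b * N) * W2) := by
      apply mul_le_mul_of_nonneg_left _ hΩ0
      apply mul_le_mul_of_nonneg_right _ hW20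
      exact mul_le_mul_of_nonneg_left hXNr (by positivity)
    have e3 : (Ω.card : ℝ) * (16 * η * (4 * b * N) * W2) ≤ δ * Ω.card * (N * W2) := by
      have e4 : 16 * η * (4 * b) ≤ δ := by nlinarith [hηb]
      have e5 : 0 ≤ (Ω.card : ℝ) * (N * W2) := mul_nonneg hΩ0 (mul_nonneg (by linarith) hW20)
      calc (Ω.card : ℝ) * (16 * η * (4 * b * N) * W2) = (16 * η * (4 * b)) * (Ω.card * (N * W2)) := by ring
        _ ≤ δ * (Ω.card * (N * W2)) := mul_le_mul_of_nonneg_right e4 e5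
        _ = _ := by ring
    linarith
  · -- long windows
    have hpt : ∀ v ∈ Ω, (∑ x ∈ Ioc N (2 * N), w x * (cH N H (x + sd b v) - 1)) ^ 2 ≤ δ * (N * W2) := by
      intro v hv
      refine (sum_mul_sq_le_sq_mul_sq _ w (fun x => cH N H (x + sd b v) - 1)).trans ?_
      rw [← hW2]
      have e1 : ∑ x ∈ Ioc N (2 * N), (cH N H (x + sd b v) - 1) ^ 2 ≤ δ * N := by
        have e2 : ∀ x ∈ Ioc N (2 * N), (cH N H (x + sd b v) - 1) ^ 2 ≤ δ := by
          intro x hx
          rw [mem_Ioc] at hx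
          have := hsizeN v hv
          have e3 := hlong N (by omega) H (x + sd b v) (by
            have : η₁ * (N : ℝ) ≤ η₁ * X := mul_le_mul_of_nonneg_left (by linarith) hη₁.le
            linarith) hH2 (by omega) (by omega)
          rw [hκ] at e3
          rw [← sq_abs]
          calc |cH N H (x + sd b v) - 1| ^ 2 ≤ δ ^ 2 := pow_le_pow_left₀ (abs_nonneg _) e3 2
            _ ≤ δ := by nlinarith
        refine (sum_le_sum e2).trans (le_of_eq ?_)
        rw [sum_const, Nat.card_Ioc, nsmul_eq_mul]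
        have : 2 * N - N = N := by omega
        rw [this]
        ring
      calc W2 * ∑ x ∈ Ioc N (2 * N), (cH N H (x + sd b v) - 1) ^ 2 ≤ W2 * (δ * N) := mul_le_mul_of_nonneg_left e1 hW20
        _ = _ := by ring
    refine (sum_le_sum hpt).trans (le_of_eq ?_)
    rw [sum_const, nsmul_eq_mul]
    ring


end Pool.Agent.H86.PG
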