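import Pool.Agent.H86.R1

set_option autoImplicit false

/-! Weights from sets of primes. -/

namespace Pool.Agent.H86.PG
open Finset
open Pool.Agent.H86.PW

/-- the number of primes in `(y, y + L]` -/
noncomputable def nn (L y : ℕ) : ℝ := (Nat.primeCounting (y + L) : ℝ) - Nat.primeCounting y

lemma nn_nonneg (L y : ℕ) : 0 ≤ nn L y := by
  unfold nn
  have h1 : (Nat.primeCounting y : ℝ) ≤ Nat.primeCounting (y + L) := by exact_mod_cast Nat.monotone_primeCounting (by omega)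
  linarith

lemma nn_eq (N L y : ℕ) (hN : 2 ≤ N) (hL : 1 ≤ L) : nn L y = (L : ℝ) / Real.log N * cH N L y := by
  have hN0 : (2 : ℝ) ≤ N := by exact_mod_cast hN
  have hlog : 0 < Real.log N := Real.log_pos (by linarith)
  have hL0 : (0 : ℝ) < L := by exact_mod_cast hL
  unfold cH nn
  field_simp

lemma nn_lower (L H d p x : ℕ) (hx1 : p ≤ x + H) (hx2 : x < p) (_hHL : H ≤ L) : nn L (x + d) - nn H (x + d) ≤ nn L (p + d) := by
  unfold nn
  have h1 : (Nat.primeCounting (x + d + L) : ℝ) ≤ Nat.primeCounting (p + d + L) := by exact_mod_cast Nat.monotone_primeCounting (by omega)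
  have h2 : (Nat.primeCounting (p + d) : ℝ) ≤ Nat.primeCounting (x + d + H) := by exact_mod_cast Nat.monotone_primeCounting (by omega)
  linarith

lemma nn_upper (L H d p x : ℕ) (hx1 : p ≤ x + H) (hx2 : x < p) : nn L (p + d) ≤ nn (L + H) (x + d) := by
  unfold nn
  have h1 : (Nat.primeCounting (p + d + L) : ℝ) ≤ Nat.primeCounting (x + d + (L + H)) := by exact_mod_cast Nat.monotone_primeCounting (by omega)
  have h2 : (Nat.primeCounting (x + d) : ℝ) ≤ Nat.primeCounting (p + d) := by exact_mod_cast Nat.monotone_primeCounting (by omega)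
  linarith

/-- the smoothed indicator function of a set of primes -/
noncomputable def wQ (N H : ℕ) (Q : Finset ℕ) (x : ℕ) : ℝ := Real.log N / H * ((Q.filter (fun p => x < p ∧ p ≤ x + H)).card : ℝ)

lemma wQ_nonneg (N H : ℕ) (Q : Finset ℕ) (x : ℕ) : 0 ≤ wQ N H Q x := by
  unfold wQ
  have := Real.log_natCast_nonneg N
  positivity

lemma wQ_le (N H : ℕ) (Q : Finset ℕ) (hQ : ∀ p ∈ Q, p.Prime) (x : ℕ) : wQ N H Q x ≤ cH N H x := by
  have h1 : ((Q.filter (fun p => x < p ∧ p ≤ x + H)).card : ℝ) ≤ (Nat.primeCounting (x + H) : ℝ) - Nat.primeCounting x := by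
    rw [pi_diff]
    have e1 : ∑ h ∈ Icc 1 H, (if (x + h).Prime then (1 : ℝ) else 0) = (((Icc 1 H).filter (fun h => (x + h).Prime)).card : ℝ) := by
      rw [← sum_filter]; simp
    rw [e1]
    apply Nat.cast_le.2
    apply card_le_card_of_injOn (fun p => p - x)
    · intro p hp
      rw [mem_coe, mem_filter] at hp
      show p - x ∈ (Icc 1 H).filter (fun h => (x + h).Prime)
      rw [mem_filter, mem_Icc]
      refine ⟨by omega, ?_⟩
      rw [show x + (p - x) = p by omega]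
      exact hQ p hp.1
    · intro p hp p' hp' h
      rw [mem_coe, mem_filter] at hp hp'
      simp only at h
      omega
  unfold wQ cH
  have h2 : 0 ≤ Real.log N / H := div_nonneg (Real.log_natCast_nonneg N) (Nat.cast_nonneg _)
  calc Real.log N / H * ((Q.filter (fun p => x < p ∧ p ≤ x + H)).card : ℝ) ≤ Real.log N / H * ((Nat.primeCounting (x + H) : ℝ) - Nat.primeCounting x) :=
        mul_le_mul_of_nonneg_left h1 h2
    _ = _ := by ring

/-- double counting -/
lemma dc (N H : ℕ) (Q : Finset ℕ) (hQ : ∀ p ∈ Q, N + H < p ∧ p ≤ 2 * N) (f : ℕ → ℝ) :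
    ∑ x ∈ Ioc N (2 * N), wQ N H Q x * f x = Real.log N / H * ∑ p ∈ Q, ∑ x ∈ Ico (p - H) p, f x := by
  unfold wQ
  have h1 : ∀ x ∈ Ioc N (2 * N), Real.log N / H * ((Q.filter (fun p => x < p ∧ p ≤ x + H)).card : ℝ) * f x =
      Real.log N / H * ∑ p ∈ Q, if x < p ∧ p ≤ x + H then f x else 0 := by
    intro x _
    rw [mul_assoc, ← sum_filter, sum_const, nsmul_eq_mul]
  rw [sum_congr rfl h1, ← mul_sum, sum_comm]
  congr 1
  apply sum_congr rfl
  intro p hp
  have h2 := hQ p hp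
  rw [← sum_filter]
  apply sum_congr _ (fun _ _ => rfl)
  ext x
  rw [mem_filter, mem_Ioc, mem_Ico]
  omega

lemma sum_wQ (N H : ℕ) (hH : 1 ≤ H) (Q : Finset ℕ) (hQ : ∀ p ∈ Q, N + H < p ∧ p ≤ 2 * N) :
    ∑ x ∈ Ioc N (2 * N), wQ N H Q x = Real.log N * Q.card := by
  have h1 := dc N H Q hQ (fun _ => 1)
  simp only [mul_one] at h1
  rw [h1]
  have h2 : ∀ p ∈ Q, ∑ x ∈ Ico (p - H) p, (1 : ℝ) = H := by
    intro p hp
    have := hQ p hp
    rw [sum_const, Nat.card_Ico, nsmul_eq_mul, mul_one]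
    congr 1
    omega
  rw [sum_congr rfl h2, sum_const, nsmul_eq_mul]
  have hH0 : (H : ℝ) ≠ 0 := by exact_mod_cast (by omega : H ≠ 0)
  field_simp

/-- the number of pairs -/
noncomputable def SL (L : ℕ) (Q : Finset ℕ) (d : ℕ) : ℝ := ∑ p ∈ Q, nn L (p + d)

/-- the error of the first moment -/
noncomputable def eH (N H : ℕ) (Q : Finset ℕ) (L d : ℕ) : ℝ := ∑ x ∈ Ioc N (2 * N), wQ N H Q x * (cH N L (x + d) - 1)

lemma sum_wQ_cH (N H : ℕ) (hH : 1 ≤ H) (Q : Finset ℕ) (hQ : ∀ p ∈ Q, N + H < p ∧ p ≤ 2 * N) (L d : ℕ) :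
    ∑ x ∈ Ioc N (2 * N), wQ N H Q x * cH N L (x + d) = Real.log N * Q.card + eH N H Q L d := by
  unfold eH
  rw [← sum_wQ N H hH Q hQ, ← sum_add_distrib]
  apply sum_congr rfl
  intro x _
  ring

lemma sum_wQ_nn (N H : ℕ) (hN : 2 ≤ N) (hH : 1 ≤ H) (Q : Finset ℕ) (hQ : ∀ p ∈ Q, N + H < p ∧ p ≤ 2 * N) (L d : ℕ) (hL : 1 ≤ L) :
    ∑ x ∈ Ioc N (2 * N), wQ N H Q x * nn L (x + d) = L / Real.log N * (Real.log N * Q.card + eH N H Q L d) := by
  rw [← sum_wQ_cH N H hH Q hQ, mul_sum]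
  apply sum_congr rfl
  intro x _
  rw [nn_eq N L (x + d) hN hL]
  ring

lemma S_lower (N H : ℕ) (hN : 2 ≤ N) (hH : 1 ≤ H) (Q : Finset ℕ) (hQ : ∀ p ∈ Q, N + H < p ∧ p ≤ 2 * N) (L d : ℕ) (hHL : H ≤ L) :
    (1 / Real.log N) * (L / Real.log N * (Real.log N * Q.card + eH N H Q L d) - H / Real.log N * (Real.log N * Q.card + eH N H Q H d)) ≤
      SL L Q d := by
  have hN0 : (2 : ℝ) ≤ N := by exact_mod_cast hN
  have hlog : 0 < Real.log N := Real.log_pos (by linarith)
  have hH0 : (0 : ℝ) < H := by exact_mod_cast hH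
  rw [← sum_wQ_nn N H hN hH Q hQ L d (by omega), ← sum_wQ_nn N H hN hH Q hQ H d hH, ← sum_sub_distrib]
  have h1 : ∑ x ∈ Ioc N (2 * N), (wQ N H Q x * nn L (x + d) - wQ N H Q x * nn H (x + d)) =
      ∑ x ∈ Ioc N (2 * N), wQ N H Q x * (nn L (x + d) - nn H (x + d)) := by
    apply sum_congr rfl
    intro x _
    ring
  rw [h1, dc N H Q hQ (fun x => nn L (x + d) - nn H (x + d))]
  have h2 : ∑ p ∈ Q, ∑ x ∈ Ico (p - H) p, (nn L (x + d) - nn H (x + d)) ≤ ∑ p ∈ Q, H * nn L (p + d) := by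
    apply sum_le_sum
    intro p hp
    have h3 := hQ p hp
    calc ∑ x ∈ Ico (p - H) p, (nn L (x + d) - nn H (x + d)) ≤ ∑ x ∈ Ico (p - H) p, nn L (p + d) := by
          apply sum_le_sum
          intro x hx
          rw [mem_Ico] at hx
          exact nn_lower L H d p x (by omega) hx.2 hHL
      _ = H * nn L (p + d) := by
          rw [sum_const, Nat.card_Ico, nsmul_eq_mul]
          congr 2
          omega
  rw [← mul_sum] at h2
  calc 1 / Real.log N * (Real.log N / H * ∑ p ∈ Q, ∑ x ∈ Ico (p - H) p, (nn L (x + d) - nn H (x + d))) ≤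
        1 / Real.log N * (Real.log N / H * (H * ∑ p ∈ Q, nn L (p + d))) := by
        apply mul_le_mul_of_nonneg_left _ (by positivity)
        exact mul_le_mul_of_nonneg_left h2 (by positivity)
    _ = SL L Q d := by
        unfold SL
        field_simp

lemma S_upper (N H : ℕ) (hN : 2 ≤ N) (hH : 1 ≤ H) (Q : Finset ℕ) (hQ : ∀ p ∈ Q, N + H < p ∧ p ≤ 2 * N) (L d : ℕ) :
    SL L Q d ≤ (1 / Real.log N) * ((L + H : ℕ) / Real.log N * (Real.log N * Q.card + eH N H Q (L + H) d)) := by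
  have hN0 : (2 : ℝ) ≤ N := by exact_mod_cast hN
  have hlog : 0 < Real.log N := Real.log_pos (by linarith)
  have hH0 : (0 : ℝ) < H := by exact_mod_cast hH
  rw [← sum_wQ_nn N H hN hH Q hQ (L + H) d (by omega), dc N H Q hQ (fun x => nn (L + H) (x + d))]
  have h2 : ∑ p ∈ Q, H * nn L (p + d) ≤ ∑ p ∈ Q, ∑ x ∈ Ico (p - H) p, nn (L + H) (x + d) := by
    apply sum_le_sum
    intro p hp
    have h3 := hQ p hp
    calc (H : ℝ) * nn L (p + d) = ∑ x ∈ Ico (p - H) p, nn L (p + d) := by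
          rw [sum_const, Nat.card_Ico, nsmul_eq_mul]
          congr 2
          omega
      _ ≤ _ := by
          apply sum_le_sum
          intro x hx
          rw [mem_Ico] at hx
          exact nn_upper L H d p x (by omega) hx.2
  rw [← mul_sum] at h2
  calc SL L Q d = 1 / Real.log N * (Real.log N / H * (H * ∑ p ∈ Q, nn L (p + d))) := by
        unfold SL
        field_simp
    _ ≤ _ := by
        apply mul_le_mul_of_nonneg_left _ (by positivity)
        exact mul_le_mul_of_nonneg_left h2 (by positivity)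

/-- the part above `T` -/
noncomputable def tr (T u : ℝ) : ℝ := if T < u then u else 0

lemma tr_nonneg (T u : ℝ) (hu : 0 ≤ u) : 0 ≤ tr T u := by
  unfold tr
  split_ifs
  · exact hu
  · exact le_rfl

lemma tr_mono (T u v : ℝ) (hu : 0 ≤ u) (huv : u ≤ v) : tr T u ≤ tr T v := by
  unfold tr
  split_ifs with h1 h2
  · exact huv
  · exact absurd (h1.trans_le huv) h2
  · exact hu.trans huv
  · exact le_rfl

lemma tr_le_sq (T u : ℝ) (hT : 0 < T) : tr T u ≤ u ^ 2 / T := by
  unfold tr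
  split_ifs with h
  · rw [le_div_iff₀ hT]
    nlinarith
  · positivity

lemma tr_sq_le (T u : ℝ) : tr T u ^ 2 ≤ u ^ 2 := by
  unfold tr
  split_ifs
  · exact le_rfl
  · simpa using sq_nonneg u

lemma le_tr_add (T u : ℝ) (hT : 0 ≤ T) : u ≤ tr T u + (if 0 < u then T else 0) := by
  unfold tr
  split_ifs with h1 h2 h3
  · linarith
  · linarith
  · push Not at h1; linarith
  · push Not at h3; linarith

/-- uniform integrability -/
lemma trunc_bound (N H : ℕ) (hN : 2 ≤ N) (hH : 1 ≤ H) (Q : Finset ℕ) (hQp : ∀ p ∈ Q, p.Prime) (hQ : ∀ p ∈ Q, N + H < p ∧ p ≤ 2 * N) (L d : ℕ)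
    (T E : ℝ) (hE : ∑ x ∈ Ioc N (2 * N), cH N H x * tr T (nn (L + H) (x + d)) ≤ ∑ y ∈ Ioc N (3 * N), tr T (nn (L + H) y) + E) :
    ∑ p ∈ Q, tr T (nn L (p + d)) ≤ (1 / Real.log N) * (∑ y ∈ Ioc N (3 * N), tr T (nn (L + H) y) + E) := by
  have hN0 : (2 : ℝ) ≤ N := by exact_mod_cast hN
  have hlog : 0 < Real.log N := Real.log_pos (by linarith)
  have hH0 : (0 : ℝ) < H := by exact_mod_cast hH
  have h1 : ∑ x ∈ Ioc N (2 * N), wQ N H Q x * tr T (nn (L + H) (x + d)) ≤ ∑ x ∈ Ioc N (2 * N), cH N H x * tr T (nn (L + H) (x + d)) := by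
    apply sum_le_sum
    intro x _
    exact mul_le_mul_of_nonneg_right (wQ_le N H Q hQp x) (tr_nonneg _ _ (nn_nonneg _ _))
  rw [dc N H Q hQ (fun x => tr T (nn (L + H) (x + d)))] at h1
  have h2 : ∑ p ∈ Q, H * tr T (nn L (p + d)) ≤ ∑ p ∈ Q, ∑ x ∈ Ico (p - H) p, tr T (nn (L + H) (x + d)) := by
    apply sum_le_sum
    intro p hp
    have h3 := hQ p hp
    calc (H : ℝ) * tr T (nn L (p + d)) = ∑ x ∈ Ico (p - H) p, tr T (nn L (p + d)) := by
          rw [sum_const, Nat.card_Ico, nsmul_eq_mul]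
          congr 2
          omega
      _ ≤ _ := by
          apply sum_le_sum
          intro x hx
          rw [mem_Ico] at hx
          exact tr_mono _ _ _ (nn_nonneg _ _) (nn_upper L H d p x (by omega) hx.2)
  rw [← mul_sum] at h2
  calc ∑ p ∈ Q, tr T (nn L (p + d)) = 1 / Real.log N * (Real.log N / H * (H * ∑ p ∈ Q, tr T (nn L (p + d)))) := by
        field_simp
    _ ≤ _ := by
        apply mul_le_mul_of_nonneg_left _ (by positivity)
        refine le_trans ?_ hE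
        refine le_trans ?_ h1
        exact mul_le_mul_of_nonneg_left h2 (by positivity)

end Pool.Agent.H86.PG
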