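import Pool.Agent.H86.R2

set_option autoImplicit false

/-! One step for sets of primes. -/

namespace Pool.Agent.H86.PG
open Finset
open Pool.Agent.H86.PW
open Pool.Agent.H373R2.T7
open Pool.Agent.W93.DG
open Pool.Agent.W93.HD

lemma markov (D : Finset ℕ) (e : ℕ → ℝ) (δ θ n C : ℝ) (hθ : 0 < θ) (hn : 0 < n)
    (h : ∑ d ∈ D, e d ^ 2 ≤ δ * D.card * (n * (C * n))) :
    ((D.filter (fun d => θ * n < |e d|)).card : ℝ) ≤ δ * C / θ ^ 2 * D.card := by
  have h1 : ((D.filter (fun d => θ * n < |e d|)).card : ℝ) * (θ * n) ^ 2 ≤ δ * D.card * (n * (C * n)) := by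
    calc ((D.filter (fun d => θ * n < |e d|)).card : ℝ) * (θ * n) ^ 2 = ∑ d ∈ D.filter (fun d => θ * n < |e d|), (θ * n) ^ 2 := by
          rw [sum_const, nsmul_eq_mul]
      _ ≤ ∑ d ∈ D.filter (fun d => θ * n < |e d|), e d ^ 2 := by
          apply sum_le_sum
          intro d hd
          rw [mem_filter] at hd
          rw [← sq_abs (e d)]
          exact pow_le_pow_left₀ (by positivity) hd.2.le 2
      _ ≤ ∑ d ∈ D, e d ^ 2 := sum_le_sum_of_subset_of_nonneg (filter_subset _ _) fun _ _ _ => sq_nonneg _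
      _ ≤ _ := h
  rw [div_mul_eq_mul_div, le_div_iff₀ (by positivity)]
  have h2 : (((D.filter (fun d => θ * n < |e d|)).card : ℝ) * θ ^ 2) * n ^ 2 ≤ (δ * C * D.card) * n ^ 2 := by
    calc _ = ((D.filter (fun d => θ * n < |e d|)).card : ℝ) * (θ * n) ^ 2 := by ring
      _ ≤ _ := h1
      _ = _ := by ring
  exact le_of_mul_le_mul_right h2 (by positivity)

lemma eH_markov (lam δ θ C : ℝ) (N : ℕ) (D : Finset ℕ) (hMS : MS lam δ N D) (hN : 2 ≤ N) (H : ℕ) (Q : Finset ℕ) (hQp : ∀ p ∈ Q, p.Prime)
    (hδ : 0 ≤ δ) (hθ : 0 < θ) (hC : ∑ y ∈ Ioc N (3 * N), cH N H y ^ 2 ≤ C * N) (L : ℕ) (hL1 : lam * Real.log N ≤ L) (hL2 : L ≤ N) :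
    ((D.filter (fun d => θ * N < |eH N H Q L d|)).card : ℝ) ≤ δ * C / θ ^ 2 * D.card := by
  have hN0 : (2 : ℝ) ≤ N := by exact_mod_cast hN
  apply markov D (fun d => eH N H Q L d) δ θ N C hθ (by linarith)
  have h1 := hMS L hL1 hL2 (wQ N H Q)
  refine h1.trans ?_
  apply mul_le_mul_of_nonneg_left _ (mul_nonneg hδ (Nat.cast_nonneg _))
  apply mul_le_mul_of_nonneg_left _ (by linarith)
  refine le_trans ?_ hC
  refine le_trans (sum_le_sum (fun x _ => pow_le_pow_left₀ (wQ_nonneg N H Q x) (wQ_le N H Q hQp x) 2)) ?_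
  apply sum_le_sum_of_subset_of_nonneg
  · intro x hx
    rw [mem_Ioc] at hx ⊢
    omega
  · intro _ _ _; exact sq_nonneg _

theorem stepP (lam : ℝ) (hlam : 0 < lam) (hlam1 : lam < 1) : ∃ c₀ K₀ : ℝ, 0 < c₀ ∧ c₀ ≤ 1 ∧ 0 < K₀ ∧ ∀ β : ℝ, 0 < β → β ≤ 1 → ∃ N₀ : ℕ, ∀ N : ℕ, N₀ ≤ N →
    ∀ (δ : ℝ) (D : Finset ℕ), 0 ≤ δ → MS (lam / 32) δ N D → NS (lam / 32) δ N D → ∀ Q : Finset ℕ, Q ⊆ (Ioc N (2 * N)).filter Nat.Prime →
    β * (N / Real.log N) ≤ Q.card → ∀ s : Bool,
    (∀ P : ℕ → Prop, (∀ y, P y ↔ PP lam N s y) → ∀ [DecidablePred P],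
    ((D.filter (fun d => ((Q.filter (fun x => P (x + d))).card : ℝ) < c₀ * β * Q.card)).card : ℝ) ≤ K₀ * δ / β ^ 2 * D.card) := by
  obtain ⟨C, hC1, n1, hsq⟩ := cH_sq (lam / 32) (by positivity)
  refine ⟨lam ^ 2 / (512 * C), 8192 * C / lam ^ 2, by positivity, ?_, by positivity, fun β hβ hβ1 => ?_⟩
  · rw [div_le_one (by positivity)]
    nlinarith
  obtain ⟨n2, h2⟩ := ev_L' (64 / lam)
  obtain ⟨n3, h3⟩ := ev_log' 2 (32 / (lam * β) + 1)
  refine ⟨n1 + n2 + n3 + 4, fun N hN δ D hδ hMS hNS Q hQ hQβ s P hP _ => ?_⟩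
  have hN0 : (4 : ℝ) ≤ N := by exact_mod_cast (by omega : 4 ≤ N)
  obtain ⟨l, hl⟩ : ∃ l, l = Real.log (N : ℝ) := ⟨_, rfl⟩
  rw [← hl] at hQβ
  have hl1 : 64 / lam ≤ l := by rw [hl]; exact h2 N (by omega)
  have hlaml : 64 ≤ lam * l := by
    rw [div_le_iff₀ hlam] at hl1
    linarith
  have hl64 : 64 ≤ l := by nlinarith
  have hl0 : 0 < l := by linarith
  have hsqN : √(N : ℝ) ≤ N := by
    rw [Real.sqrt_le_left (by linarith)]
    nlinarith
  have h3N := h3 N (by omega)
  rw [← hl] at h3N
  have hlN : 32 / (lam * β) * l ^ 2 ≤ N := by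
    have : 0 ≤ l ^ 2 := sq_nonneg _
    nlinarith
  have hl2N : l ^ 2 ≤ N := by
    have : 0 ≤ 32 / (lam * β) * l ^ 2 := by positivity
    nlinarith
  have hlN' : l ≤ lam / 32 * (β * (N / l)) := by
    have e1 : l * l ≤ lam * β / 32 * N := by
      have e2 := mul_le_mul_of_nonneg_left hlN (show 0 ≤ lam * β / 32 by positivity)
      have e3 : lam * β / 32 * (32 / (lam * β) * l ^ 2) = l * l := by field_simp
      rw [e3] at e2
      exact e2
    have e4 : lam / 32 * (β * (N / l)) = (lam * β / 32 * N) / l := by ring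
    rw [e4, le_div_iff₀ hl0]
    exact e1
  have hq0 : (0 : ℝ) < Q.card := lt_of_lt_of_le (by positivity) hQβ
  have hqN : (N : ℝ) / l ≤ Q.card / β := by
    rw [le_div_iff₀ hβ]
    linarith
  -- the short length
  obtain ⟨H, hH⟩ : ∃ H, H = ⌊lam / 16 * l⌋₊ := ⟨_, rfl⟩
  have hHle : (H : ℝ) ≤ lam / 16 * l := by rw [hH]; exact Nat.floor_le (by positivity)
  have hHge : lam / 16 * l - 1 < H := by rw [hH]; exact Nat.sub_one_lt_floor _
  have hH32 : lam / 32 * l ≤ H := by linarith
  have hH0 : (0 : ℝ) < H := lt_of_lt_of_le (by positivity) hH32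
  have hH1 : 1 ≤ H := by
    have : 0 < H := by exact_mod_cast hH0
    omega
  have hHN : H ≤ N := by
    have e1 : (H : ℝ) ≤ N := by nlinarith
    exact_mod_cast e1
  have hHl2 : (H : ℝ) ≤ l ^ 2 := by nlinarith
  -- the interior primes
  obtain ⟨Q', hQ'⟩ : ∃ Q', Q' = Q.filter (fun p => N + H < p) := ⟨_, rfl⟩
  have hQ'p : ∀ p ∈ Q', p.Prime := by
    intro p hp
    rw [hQ', mem_filter] at hp
    exact (mem_filter.1 (hQ hp.1)).2
  have hQ'r : ∀ p ∈ Q', N + H < p ∧ p ≤ 2 * N := by
    intro p hp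
    rw [hQ', mem_filter] at hp
    exact ⟨hp.2, (mem_Ioc.1 (mem_filter.1 (hQ hp.1)).1).2⟩
  have hQ'le : (Q'.card : ℝ) ≤ Q.card := by rw [hQ']; exact Nat.cast_le.2 (card_le_card (filter_subset _ _))
  have hQ'ge : (1 - lam / 32) * Q.card ≤ Q'.card := by
    have e1 : Q.card ≤ Q'.card + H := by
      have e2 := card_filter_add_card_filter_not (s := Q) (fun p => N + H < p)
      rw [← hQ'] at e2
      have e3 : (Q.filter (fun p => ¬ N + H < p)).card ≤ H := by
        calc (Q.filter (fun p => ¬ N + H < p)).card ≤ (Ioc N (N + H)).card := by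
              apply card_le_card
              intro p hp
              rw [mem_filter] at hp
              have := mem_Ioc.1 (mem_filter.1 (hQ hp.1)).1
              rw [mem_Ioc]
              omega
          _ = H := by rw [Nat.card_Ioc]; omega
      omega
    have e4 : (Q.card : ℝ) ≤ Q'.card + H := by exact_mod_cast e1
    have e5 : (H : ℝ) ≤ lam / 32 * Q.card := by
      have e6 : lam / 32 * (β * (N / l)) ≤ lam / 32 * Q.card := mul_le_mul_of_nonneg_left hQβ (by positivity)
      nlinarith
    linarith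
  obtain ⟨θ, hθ⟩ : ∃ θ, θ = β * lam / 32 := ⟨_, rfl⟩
  have hθ0 : 0 < θ := by rw [hθ]; positivity
  have hθq : θ * (N / l) ≤ lam / 32 * Q.card := by
    rw [hθ]
    calc β * lam / 32 * (N / l) = lam / 32 * (β * (N / l)) := by ring
      _ ≤ _ := mul_le_mul_of_nonneg_left hQβ (by positivity)
  have hsqH : ∑ y ∈ Ioc N (3 * N), cH N H y ^ 2 ≤ C * N := hsq N (by omega) H (by rw [← hl]; exact hH32) hHN
  have hθ2 : θ ^ 2 = β ^ 2 * lam ^ 2 / 1024 := by rw [hθ]; ring
  have hCθ : δ * C / θ ^ 2 = 1024 * C / lam ^ 2 * δ / β ^ 2 := by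
    rw [hθ2]
    field_simp
  have hDc : (0 : ℝ) ≤ D.card := Nat.cast_nonneg _
  cases s with
  | true =>
    obtain ⟨L, hL⟩ : ∃ L, L = ⌊lam * l⌋₊ := ⟨_, rfl⟩
    have hLle : (L : ℝ) ≤ lam * l := by rw [hL]; exact Nat.floor_le (by positivity)
    have hLge : lam * l - 1 < L := by rw [hL]; exact Nat.sub_one_lt_floor _
    have hHL : H ≤ L := by
      have e1 : (H : ℝ) ≤ L := by linarith
      exact_mod_cast e1
    have hLN : L + H ≤ N := by
      have e1 : ((L + H : ℕ) : ℝ) ≤ N := by push_cast; nlinarith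
      exact_mod_cast e1
    obtain ⟨T, hT⟩ : ∃ T, T = 128 * C / (β * lam) := ⟨_, rfl⟩
    have hT0 : 0 < T := by rw [hT]; positivity
    have hsqL : ∑ y ∈ Ioc N (3 * N), cH N (L + H) y ^ 2 ≤ C * N := hsq N (by omega) (L + H) (by rw [← hl]; push_cast; linarith) hLN
    have hnnsq : ∑ y ∈ Ioc N (3 * N), nn (L + H) y ^ 2 ≤ 4 * C * N := by
      have e1 : ∀ y ∈ Ioc N (3 * N), nn (L + H) y ^ 2 ≤ 4 * cH N (L + H) y ^ 2 := by
        intro y _
        rw [nn_eq N (L + H) y (by omega) (by omega), mul_pow]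
        apply mul_le_mul_of_nonneg_right _ (sq_nonneg _)
        have e2 : ((L + H : ℕ) : ℝ) / Real.log N ≤ 2 := by
          rw [← hl, div_le_iff₀ hl0]
          push_cast
          nlinarith
        have e3 : 0 ≤ ((L + H : ℕ) : ℝ) / Real.log N := by rw [← hl]; positivity
        nlinarith
      refine (sum_le_sum e1).trans ?_
      rw [← mul_sum]
      linarith
    obtain ⟨E, hE1, hE2⟩ := hNS H (by rw [← hl]; exact hH32) (by rw [← hl]; exact hHl2) (fun y => tr T (nn (L + H) y))
    have hWsq : ∑ y ∈ Ioc N (3 * N), (fun y => tr T (nn (L + H) y)) y ^ 2 ≤ 4 * C * N :=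
      (sum_le_sum (fun y _ => tr_sq_le T _)).trans hnnsq
    have hWsum : ∑ y ∈ Ioc N (3 * N), (fun y => tr T (nn (L + H) y)) y ≤ 4 * C * N / T := by
      refine (sum_le_sum (fun y _ => tr_le_sq T _ hT0)).trans ?_
      rw [← sum_div]
      exact div_le_div_of_nonneg_right hnnsq hT0.le
    obtain ⟨B1, hB1⟩ : ∃ B, B = D.filter (fun d => θ * N < |eH N H Q' L d|) := ⟨_, rfl⟩
    obtain ⟨B2, hB2⟩ : ∃ B, B = D.filter (fun d => θ * N < |eH N H Q' H d|) := ⟨_, rfl⟩
    obtain ⟨B4, hB4⟩ : ∃ B, B = D.filter (fun d => θ * N < |E d|) := ⟨_, rfl⟩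
    have hc1 : (B1.card : ℝ) ≤ δ * C / θ ^ 2 * D.card := by
      rw [hB1]
      exact eH_markov (lam / 32) δ θ C N D hMS (by omega) H Q' hQ'p hδ hθ0 hsqH L (by rw [← hl]; linarith) (by omega)
    have hc2 : (B2.card : ℝ) ≤ δ * C / θ ^ 2 * D.card := by
      rw [hB2]
      exact eH_markov (lam / 32) δ θ C N D hMS (by omega) H Q' hQ'p hδ hθ0 hsqH H (by rw [← hl]; exact hH32) (by omega)
    have hc4 : (B4.card : ℝ) ≤ δ * (4 * C) / θ ^ 2 * D.card := by
      rw [hB4]
      apply markov D E δ θ N (4 * C) hθ0 (by linarith)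
      refine hE2.trans ?_
      apply mul_le_mul_of_nonneg_left _ (mul_nonneg hδ hDc)
      exact mul_le_mul_of_nonneg_left hWsq (by linarith)
    have hsub : D.filter (fun d => ((Q.filter (fun x => P (x + d))).card : ℝ) < lam ^ 2 / (512 * C) * β * Q.card) ⊆ B1 ∪ B2 ∪ B4 := by
      intro d hd
      rw [mem_filter] at hd
      by_contra hcon
      rw [mem_union, mem_union, not_or, not_or, hB1, hB2, hB4, mem_filter, mem_filter, mem_filter] at hcon
      have g1 : |eH N H Q' L d| ≤ θ * N := by
        by_contra h; exact hcon.1.1 ⟨hd.1, not_le.1 h⟩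
      have g2 : |eH N H Q' H d| ≤ θ * N := by
        by_contra h; exact hcon.1.2 ⟨hd.1, not_le.1 h⟩
      have g4 : |E d| ≤ θ * N := by
        by_contra h; exact hcon.2 ⟨hd.1, not_le.1 h⟩
      have g1' := (abs_le.1 g1).1
      have g2' := (abs_le.1 g2).2
      have g4' := (abs_le.1 g4).2
      have hS := S_lower N H (by omega) hH1 Q' hQ'r L d hHL
      rw [← hl] at hS
      have hS1 : lam / 2 * Q.card ≤ SL L Q' d := by
        refine le_trans ?_ hS
        have e1 : (L : ℝ) / l * (l * Q'.card + eH N H Q' L d) - H / l * (l * Q'.card + eH N H Q' H d) ≥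
            (L - H) * Q'.card - (L + H) * (θ * (N / l)) := by
          have e2 : (L : ℝ) / l * (l * Q'.card + eH N H Q' L d) ≥ L / l * (l * Q'.card - θ * N) :=
            mul_le_mul_of_nonneg_left (by linarith) (by positivity)
          have e3 : (H : ℝ) / l * (l * Q'.card + eH N H Q' H d) ≤ H / l * (l * Q'.card + θ * N) :=
            mul_le_mul_of_nonneg_left (by linarith) (by positivity)
          have e4 : (L : ℝ) / l * (l * Q'.card - θ * N) - H / l * (l * Q'.card + θ * N) = (L - H) * Q'.card - (L + H) * (θ * (N / l)) := by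
            field_simp
            ring
          linarith
        have e5 : (L : ℝ) - H ≥ (7 / 8) * lam * l := by nlinarith
        have e6 : (L : ℝ) + H ≤ 2 * l := by nlinarith
        have e7 : (L - H) * (Q'.card : ℝ) ≥ ((7 / 8) * lam * l) * ((1 - lam / 32) * Q.card) := by
          have e8 : ((7 / 8) * lam * l) * ((1 - lam / 32) * Q.card) ≤ ((7 / 8) * lam * l) * Q'.card := mul_le_mul_of_nonneg_left hQ'ge (by positivity)
          have e9 : ((7 / 8) * lam * l) * Q'.card ≤ (L - H) * (Q'.card : ℝ) := mul_le_mul_of_nonneg_right e5 (Nat.cast_nonneg _)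
          linarith
        have e10 : (L + H) * (θ * (N / l)) ≤ (2 * l) * (lam / 32 * Q.card) :=
          mul_le_mul e6 hθq (by positivity) (by positivity)
        have e11 : lam / 2 * Q.card * l ≤ (L : ℝ) / l * (l * Q'.card + eH N H Q' L d) - H / l * (l * Q'.card + eH N H Q' H d) := by
          have e12 : 0 ≤ lam * l * Q.card := by positivity
          have e13 : ((7 / 8) * lam * l) * ((1 - lam / 32) * Q.card) = (7 / 8) * (1 - lam / 32) * (lam * l * Q.card) := by ring
          have e14 : (7 / 8) * (1 - lam / 32) * (lam * l * Q.card) ≥ (3 / 4) * (lam * l * Q.card) := by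
            apply mul_le_mul_of_nonneg_right _ e12
            linarith
          have e15 : (2 * l) * (lam / 32 * Q.card) = (1 / 16) * (lam * l * Q.card) := by ring
          have e16 : lam / 2 * Q.card * l = (1 / 2) * (lam * l * Q.card) := by ring
          rw [e16]
          linarith
        calc lam / 2 * Q.card = (1 / l) * (lam / 2 * Q.card * l) := by field_simp
          _ ≤ _ := mul_le_mul_of_nonneg_left e11 (by positivity)
      have hTr : ∑ p ∈ Q', tr T (nn L (p + d)) ≤ lam / 16 * Q.card := by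
        have e1 := trunc_bound N H (by omega) hH1 Q' hQ'p hQ'r L d T (E d) (hE1 d hd.1 (fun y => tr_nonneg _ _ (nn_nonneg _ _)))
        refine e1.trans ?_
        rw [← hl]
        have e2 : ∑ y ∈ Ioc N (3 * N), tr T (nn (L + H) y) + E d ≤ 4 * C * N / T + θ * N := add_le_add hWsum g4'
        have e3 : 4 * C * (N : ℝ) / T = θ * N := by
          rw [hT, hθ]
          field_simp
          ring
        calc 1 / l * (∑ y ∈ Ioc N (3 * N), tr T (nn (L + H) y) + E d) ≤ 1 / l * (4 * C * N / T + θ * N) :=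
              mul_le_mul_of_nonneg_left e2 (by positivity)
          _ = 2 * (θ * (N / l)) := by rw [e3]; ring
          _ ≤ 2 * (lam / 32 * Q.card) := by linarith
          _ = _ := by ring
      have hcount : SL L Q' d ≤ ∑ p ∈ Q', tr T (nn L (p + d)) + T * ((Q.filter (fun x => P (x + d))).card : ℝ) := by
        unfold SL
        refine (sum_le_sum (fun p _ => le_tr_add T (nn L (p + d)) hT0.le)).trans ?_
        rw [sum_add_distrib]
        apply add_le_add le_rfl
        rw [← sum_filter, sum_const, nsmul_eq_mul, mul_comm]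
        apply mul_le_mul_of_nonneg_left _ hT0.le
        apply Nat.cast_le.2
        apply card_le_card
        intro p hp
        rw [mem_filter] at hp ⊢
        refine ⟨by have := hp.1; rw [hQ', mem_filter] at this; exact this.1, ?_⟩
        rw [hP]
        show (if true = true then Near lam N (p + d) else _)
        rw [if_pos rfl]
        have e1 : 0 < cH N L (p + d) := by
          rw [nn_eq N L (p + d) (by omega) (by omega)] at hp
          by_contra hcon
          have e2 : cH N L (p + d) = 0 := le_antisymm (not_lt.1 hcon) (cH_nonneg _ _ _)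
          rw [e2, mul_zero] at hp
          exact lt_irrefl _ hp.2
        obtain ⟨p', hp', h1, h2'⟩ := exists_prime_of_pos N L (p + d) e1
        refine ⟨p', hp', h1, ?_⟩
        have e5 : (p' : ℝ) ≤ ((p + d + L : ℕ) : ℝ) := by exact_mod_cast h2'
        rw [← hl]
        push_cast at e5 ⊢
        linarith
      have e1 : lam / 4 * Q.card ≤ T * ((Q.filter (fun x => P (x + d))).card : ℝ) := by
        have : 0 ≤ lam * (Q.card : ℝ) := by positivity
        linarith
      have e2 : T * ((Q.filter (fun x => P (x + d))).card : ℝ) < T * (lam ^ 2 / (512 * C) * β * Q.card) := mul_lt_mul_of_pos_left hd.2 hT0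
      have e3 : T * (lam ^ 2 / (512 * C) * β * Q.card) = lam / 4 * Q.card := by
        rw [hT]
        field_simp
        ring
      linarith
    refine (Nat.cast_le.2 (card_le_card hsub)).trans ?_
    have hu : ((B1 ∪ B2 ∪ B4).card : ℝ) ≤ B1.card + B2.card + B4.card := by
      exact_mod_cast (card_union_le _ _).trans (Nat.add_le_add_right (card_union_le _ _) _)
    refine hu.trans ?_
    have e1 : δ * (4 * C) / θ ^ 2 = 4 * (δ * C / θ ^ 2) := by ring
    rw [e1] at hc4
    calc (B1.card : ℝ) + B2.card + B4.card ≤ 6 * (δ * C / θ ^ 2 * D.card) := by linarith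
      _ = 6 * (1024 * C / lam ^ 2 * δ / β ^ 2 * D.card) := by rw [hCθ]
      _ ≤ 8 * (1024 * C / lam ^ 2 * δ / β ^ 2 * D.card) := by
          apply mul_le_mul_of_nonneg_right (by norm_num)
          positivity
      _ = _ := by ring
  | false =>
    obtain ⟨L, hL⟩ : ∃ L, L = ⌈(1 - lam / 2) * l⌉₊ := ⟨_, rfl⟩
    have hLge : (1 - lam / 2) * l ≤ L := by rw [hL]; exact Nat.le_ceil _
    have hLle : (L : ℝ) < (1 - lam / 2) * l + 1 := by
      rw [hL]; exact Nat.ceil_lt_add_one (mul_nonneg (by linarith) hl0.le)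
    have hLH : ((L + H : ℕ) : ℝ) ≤ (1 - 3 / 8 * lam) * l := by push_cast; nlinarith
    have hLN : L + H ≤ N := by
      have e1 : ((L + H : ℕ) : ℝ) ≤ N := by nlinarith
      exact_mod_cast e1
    have hc1 := eH_markov (lam / 32) δ θ C N D hMS (by omega) H Q' hQ'p hδ hθ0 hsqH (L + H) (by rw [← hl]; push_cast; nlinarith) (by omega)
    refine le_trans (Nat.cast_le.2 (card_le_card ?_)) (hc1.trans ?_)
    · intro d hd
      rw [mem_filter] at hd ⊢
      refine ⟨hd.1, ?_⟩
      by_contra hcon
      rw [not_lt] at hcon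
      have g1' := (abs_le.1 hcon).2
      have hS := S_upper N H (by omega) hH1 Q' hQ'r L d
      rw [← hl] at hS
      have hS1 : SL L Q' d ≤ (1 - lam / 4) * Q.card := by
        refine hS.trans ?_
        have e1 : ((L + H : ℕ) : ℝ) / l * (l * Q'.card + eH N H Q' (L + H) d) ≤ ((1 - 3 / 8 * lam) * l) / l * (l * Q.card + θ * N) := by
          have e2 : l * (Q'.card : ℝ) + eH N H Q' (L + H) d ≤ l * Q.card + θ * N := by
            have := mul_le_mul_of_nonneg_left hQ'le hl0.le
            linarith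
          have e3 : 0 ≤ l * (Q.card : ℝ) + θ * N := by positivity
          have e4 : ((L + H : ℕ) : ℝ) / l ≤ ((1 - 3 / 8 * lam) * l) / l := div_le_div_of_nonneg_right hLH hl0.le
          have e5 : 0 ≤ ((L + H : ℕ) : ℝ) / l := by positivity
          calc _ ≤ ((L + H : ℕ) : ℝ) / l * (l * Q.card + θ * N) := mul_le_mul_of_nonneg_left e2 e5
            _ ≤ _ := mul_le_mul_of_nonneg_right e4 e3
        have e6 : 1 / l * (((1 - 3 / 8 * lam) * l) / l * (l * Q.card + θ * N)) = (1 - 3 / 8 * lam) * (Q.card + θ * (N / l)) := by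
          field_simp
        refine (mul_le_mul_of_nonneg_left e1 (by positivity)).trans ?_
        rw [e6]
        have e7 : (1 - 3 / 8 * lam) * ((Q.card : ℝ) + θ * (N / l)) ≤ (1 - 3 / 8 * lam) * (Q.card + lam / 32 * Q.card) :=
          mul_le_mul_of_nonneg_left (by linarith) (by linarith)
        refine e7.trans ?_
        nlinarith [mul_pos hlam hq0, mul_pos (mul_pos hlam hlam) hq0]
      obtain ⟨A', hA'⟩ : ∃ A', A' = Q'.filter (fun x => ¬ P (x + d)) := ⟨_, rfl⟩
      have e2 : (A'.card : ℝ) ≤ SL L Q' d := by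
        unfold SL
        calc (A'.card : ℝ) = ∑ x ∈ A', (1 : ℝ) := by simp
          _ ≤ ∑ x ∈ A', nn L (x + d) := by
              apply sum_le_sum
              intro x hx
              rw [hA', mem_filter, hP] at hx
              have e3 : ¬ Far lam N (x + d) := by
                intro h
                apply hx.2
                show (if false = true then _ else Far lam N (x + d))
                simpa using h
              unfold Far at e3
              push Not at e3
              obtain ⟨p, hp, hp1, hp2⟩ := e3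
              have e4 : (p : ℝ) ≤ ((x + d + L : ℕ) : ℝ) := by
                rw [← hl] at hp2
                push_cast at hp2 ⊢
                nlinarith
              have e5 := cH_ge N L (x + d) p hp hp1 (by exact_mod_cast e4)
              have hL0 : (0 : ℝ) < L := by nlinarith
              rw [nn_eq N L (x + d) (by omega) (by
                have : 0 < L := by exact_mod_cast hL0
                omega), ← hl]
              rw [← hl] at e5
              calc (1 : ℝ) = L / l * (l / L) := by field_simp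
                _ ≤ L / l * cH N L (x + d) := mul_le_mul_of_nonneg_left e5 (by positivity)
          _ ≤ ∑ x ∈ Q', nn L (x + d) := by
              apply sum_le_sum_of_subset_of_nonneg
              · rw [hA']; exact filter_subset _ _
              · intro _ _ _; exact nn_nonneg _ _
      have e4 : (Q'.card : ℝ) ≤ A'.card + (Q.filter (fun x => P (x + d))).card := by
        have e5 := card_filter_add_card_filter_not (s := Q') (fun x => P (x + d))
        have e6 : (Q'.filter (fun x => P (x + d))).card ≤ (Q.filter (fun x => P (x + d))).card := by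
          apply card_le_card
          apply filter_subset_filter
          rw [hQ']; exact filter_subset _ _
        rw [← hA'] at e5
        have e7 : Q'.card ≤ A'.card + (Q.filter (fun x => P (x + d))).card := by omega
        exact_mod_cast e7
      have e5 := hd.2
      have e6 : lam ^ 2 / (512 * C) * β * Q.card ≤ lam / 8 * Q.card := by
        apply mul_le_mul_of_nonneg_right _ hq0.le
        have e7 : lam ^ 2 / (512 * C) ≤ lam / 8 := by
          rw [div_le_iff₀ (by positivity)]
          nlinarith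
        calc lam ^ 2 / (512 * C) * β ≤ (lam / 8) * 1 := mul_le_mul e7 hβ1 hβ.le (by positivity)
          _ = _ := mul_one _
      nlinarith [mul_pos hlam hq0]
    · rw [hCθ]
      calc 1024 * C / lam ^ 2 * δ / β ^ 2 * D.card ≤ 8 * (1024 * C / lam ^ 2 * δ / β ^ 2 * D.card) := by
            have : 0 ≤ 1024 * C / lam ^ 2 * δ / β ^ 2 * D.card := by positivity
            linarith
        _ = _ := by ring

end Pool.Agent.H86.PG
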