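import Pool.Agent.H86.R3
import Pool.Agent.H86.Q3

set_option autoImplicit false

/-! Patterns of gaps at few-power distances from the primes of a dense set: the induction. -/

namespace Pool.Agent.H86.PG
open Finset
open Pool.Agent.H86.PW
open Classical

/-- the induction -/
theorem iterP (lam : ℝ) (hlam : 0 < lam) (hlam1 : lam < 1) : ∀ r : ℕ, ∀ β ε : ℝ, 0 < β → β ≤ 1 → 0 < ε → ∃ (c δ₀ : ℝ) (N₀ : ℕ), 0 < c ∧ 0 < δ₀ ∧
    ∀ N : ℕ, N₀ ≤ N → ∀ (δ : ℝ) (D : Finset ℕ), 0 ≤ δ → δ ≤ δ₀ → MS (lam / 32) δ N D → NS (lam / 32) δ N D →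
    ∀ Q : Finset ℕ, Q ⊆ (Ioc N (2 * N)).filter Nat.Prime →
    β * (N / Real.log N) ≤ Q.card → ∀ s : Fin r → Bool, ((BadT lam N D Q r c s).card : ℝ) ≤ ε * (D.card : ℝ) ^ r := by
  obtain ⟨c₀, K₀, hc₀, hc₀1, hK₀, hstep⟩ := stepP lam hlam hlam1
  intro r
  induction r with
  | zero =>
    intro β ε hβ hβ1 hε
    refine ⟨1, 1, 0, one_pos, one_pos, fun N hN δ D hδ hδ1 hMS hNS A hA hAβ s => ?_⟩
    have : BadT lam N D A 0 1 s = ∅ := by
      unfold BadT
      rw [filter_eq_empty_iff]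
      intro d _
      push Not
      rw [one_mul]
      apply Nat.cast_le.2
      apply card_le_card
      intro x hx
      rw [mem_filter]
      exact ⟨hx, fun i => i.elim0⟩
    rw [this]
    simp [hε.le]
  | succ r ih =>
    intro β ε hβ hβ1 hε
    have hβ' : 0 < c₀ * β * β := by positivity
    have hcβ : c₀ * β ≤ 1 := by nlinarith
    obtain ⟨N₁, hstep⟩ := hstep β hβ hβ1
    obtain ⟨c, δ₀, N₂, hc, hδ₀, hih⟩ := ih (c₀ * β * β) (ε / 2) hβ' (by nlinarith) (by positivity)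
    refine ⟨c₀ * β * c, min δ₀ (ε * β ^ 2 / (2 * K₀)), N₁ + N₂, by positivity, by positivity, fun N hN δ D hδ hδ1 hMS hNS A hA hAβ s => ?_⟩
    have h1 := hstep N (by omega) δ D hδ hMS hNS A hA hAβ (s 0) (fun y => PP lam N (s 0) y) (fun y => Iff.rfl)
    have h3 : K₀ * δ / β ^ 2 ≤ ε / 2 := by
      have e1 := hδ1.trans (min_le_right _ _)
      rw [le_div_iff₀ (by positivity)] at e1
      rw [div_le_iff₀ (by positivity)]
      linarith
    have h4 := bad_succ lam N D A r (c₀ * β) c hc.le s (ε / 2) (ε / 2) (by positivity)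
      (h1.trans (mul_le_mul_of_nonneg_right h3 (Nat.cast_nonneg _))) (fun A' hA' hA'c => by
        apply hih N (by omega) δ D hδ (hδ1.trans (min_le_left _ _)) hMS hNS A' (hA'.trans hA)
        refine le_trans ?_ hA'c
        calc c₀ * β * β * (N / Real.log N) = c₀ * β * (β * (N / Real.log N)) := by ring
          _ ≤ _ := mul_le_mul_of_nonneg_left hAβ (by positivity))
    rwa [add_halves] at h4

end Pool.Agent.H86.PG
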