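import Pool.Agent.H86.L11

set_option autoImplicit false
set_option linter.unusedSectionVars false

/-! Almost all integers coprime to `b` are a prime of a set of almost full density plus powers of `b`. -/

namespace Pool.Agent.H86.DL
open Finset
open Pool.Agent.H373R2.T7
open Pool.Agent.W93.DG
open Pool.Agent.W93.HD

lemma ph_ge_one (b x : ℕ) (h : b.Coprime x) : 1 ≤ ph b x := by
  unfold ph
  rw [if_pos h]
  exact B0_ge_one b

open Classical in
theorem cover (b : ℕ) (hb : 2 ≤ b) (ε : ℝ) (hε : 0 < ε) : ∃ (s : ℕ) (η : ℝ) (H₀ : ℕ), 0 < η ∧ ∀ H : ℕ, H₀ ≤ H →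
    ∀ P : Finset ℕ, (∀ p ∈ P, p.Prime ∧ p ≤ H) → (1 - η) * (Nat.primeCounting H : ℝ) ≤ P.card →
    (((Icc 1 H).filter (fun x => b.Coprime x ∧ ¬ ∃ p ∈ P, p ≤ x ∧ PS b s (x - p))).card : ℝ) ≤ ε * H := by
  obtain ⟨ε', hε', hε'1, hεε⟩ : ∃ ε' : ℝ, 0 < ε' ∧ ε' ≤ 1 ∧ ε' ≤ ε := ⟨min ε 1, lt_min hε one_pos, min_le_right _ _, min_le_left _ _⟩
  have hb0 : (2 : ℝ) ≤ b := by exact_mod_cast hb
  obtain ⟨κ, hκ⟩ : ∃ κ : ℝ, κ = (ε' / (32 * b)) ^ 2 := ⟨_, rfl⟩
  have hκ0 : 0 < κ := by rw [hκ]; positivity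
  obtain ⟨s, K₀, hs⟩ := smooth b hb κ hκ0
  obtain ⟨n1, hn1⟩ := pnt_theta (ε' / 12) (by positivity)
  obtain ⟨n2, hn2⟩ := pnt_pi (ε' / 12) (by positivity)
  obtain ⟨n3, hn3⟩ := exists_nat_ge (1 / κ + 16 * b / ε')
  refine ⟨1 + 3 * s, ε' / 8, 4 * n1 + n2 + n3 + b ^ (K₀ + 2) + 8 * b, by positivity, fun H hH P hP hPc => ?_⟩
  obtain ⟨K, hK⟩ : ∃ K, K = Nat.log b H + 1 := ⟨_, rfl⟩
  have hH1 : 1 ≤ H := by omega
  have hNX : H < b ^ K := by rw [hK]; exact Nat.lt_pow_succ_log_self (by omega) H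
  have hXN : b ^ K ≤ b * H := by
    rw [hK, pow_succ']
    exact Nat.mul_le_mul_left _ (Nat.pow_log_le_self b (by omega))
  have hKK : K₀ ≤ K := by
    by_contra h
    have h1 : b ^ K ≤ b ^ (K₀ + 2) := Nat.pow_le_pow_right (by omega) (by omega)
    omega
  obtain ⟨Ω, hΩne, hΩ, hS⟩ := hs K hKK
  obtain ⟨T, hTdef⟩ : ∃ T, T = ⌊κ * ((b ^ K : ℕ) : ℝ)⌋₊ := ⟨_, rfl⟩
  have hT : ∀ o ∈ Ω, vd b o ≤ T := by
    intro o ho
    rw [hTdef]
    apply Nat.le_floor
    have := (hΩ o ho).2.2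
    push_cast at this ⊢
    exact this
  have hTle : (T : ℝ) ≤ κ * (b * H) := by
    have h1 : (T : ℝ) ≤ κ * ((b ^ K : ℕ) : ℝ) := by rw [hTdef]; exact Nat.floor_le (by positivity)
    refine h1.trans (mul_le_mul_of_nonneg_left ?_ hκ0.le)
    exact_mod_cast hXN
  obtain ⟨X, hX⟩ : ∃ X, X = b ^ K := ⟨_, rfl⟩
  rw [← hX] at hNX hXN hS
  obtain ⟨O, hO⟩ : ∃ O : ℝ, O = (Ω.card : ℝ) := ⟨_, rfl⟩
  have hO0 : 0 < O := by rw [hO]; exact_mod_cast hΩne.card_pos
  rw [← hO] at hS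
  obtain ⟨e, he⟩ : ∃ e : ℕ → ℝ, e = fun y => |WW b (fun n => ArithmeticFunction.vonMangoldt n) X Ω y - O * ph b y| := ⟨_, rfl⟩
  obtain ⟨F, hF⟩ : ∃ F : ℕ → ℝ, F = fun n => if n ∈ P then ArithmeticFunction.vonMangoldt n else 0 := ⟨_, rfl⟩
  have hΛ : ∀ n : ℕ, 0 ≤ ArithmeticFunction.vonMangoldt n := fun n => ArithmeticFunction.vonMangoldt_nonneg
  have hF0 : ∀ n, 0 ≤ F n := by
    intro n
    rw [hF]
    simp only
    split_ifs
    · exact hΛ n
    · exact le_rfl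
  have hF1 : ∀ n, F n ≤ ArithmeticFunction.vonMangoldt n := by
    intro n
    rw [hF]
    simp only
    split_ifs
    · exact le_rfl
    · exact hΛ n
  have he0 : ∀ x, 0 ≤ e x := by
    intro x
    rw [he]
    exact abs_nonneg _
  have hWle : ∀ x, WW b F X Ω x ≤ O * ph b x + e x := by
    intro x
    refine (WW_mono b F (fun n => ArithmeticFunction.vonMangoldt n) X Ω x (fun n _ => hF1 n)).trans ?_
    rw [he]
    simp only
    have := le_abs_self (WW b (fun n => ArithmeticFunction.vonMangoldt n) X Ω x - O * ph b x)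
    linarith
  obtain ⟨Z, hZ⟩ : ∃ Z, Z = (Icc 1 H).filter (fun x => b.Coprime x ∧ ¬ ∃ p ∈ P, p ≤ x ∧ PS b (1 + 3 * s) (x - p)) := ⟨_, rfl⟩
  rw [← hZ]
  have hZsub : Z ⊆ Icc 1 H := by rw [hZ]; exact filter_subset _ _
  have hWZ : ∀ x ∈ Z, WW b F X Ω x = 0 := by
    intro x hx
    rw [hZ, mem_filter] at hx
    by_contra hne
    obtain ⟨o, ho, n, hn, hnx, hfn⟩ := WW_pos_ex b F X Ω x hne
    apply hx.2.2
    have hnP : n ∈ P := by
      by_contra h
      rw [hF] at hfn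
      exact hfn (if_neg h)
    refine ⟨n, hnP, by omega, ?_⟩
    have h1 : x - n = vd b o := by omega
    rw [h1]
    exact (hΩ o ho).1
  have hsumE : ∑ x ∈ Icc 1 H, e x ≤ O * (H * √(κ * b)) := by
    have h1 : (∑ x ∈ Icc 1 H, e x) ^ 2 ≤ (O * (H * √(κ * b))) ^ 2 := by
      have h2 := sq_sum_le_card_mul_sum_sq (s := Icc 1 H) (f := e)
      have h3 : ∑ x ∈ Icc 1 H, e x ^ 2 ≤ κ * (O ^ 2 * (X : ℝ)) := by
        refine le_trans ?_ hS
        have h4 : ∑ x ∈ Icc 1 H, e x ^ 2 ≤ ∑ x ∈ Icc 1 X, e x ^ 2 :=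
          sum_le_sum_of_subset_of_nonneg (Icc_subset_Icc le_rfl (by omega)) fun _ _ _ => sq_nonneg _
        refine h4.trans (le_of_eq ?_)
        apply sum_congr rfl
        intro x _
        rw [he]
        exact sq_abs _
      have h5 : ((Icc 1 H).card : ℝ) ≤ H := by
        rw [Nat.card_Icc]
        exact_mod_cast (by omega : H + 1 - 1 ≤ H)
      have h6 : (X : ℝ) ≤ b * H := by exact_mod_cast hXN
      have h7 : √(κ * b) ^ 2 = κ * b := Real.sq_sqrt (by positivity)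
      calc (∑ x ∈ Icc 1 H, e x) ^ 2 ≤ ((Icc 1 H).card : ℝ) * ∑ x ∈ Icc 1 H, e x ^ 2 := h2
        _ ≤ H * (κ * (O ^ 2 * (X : ℝ))) := mul_le_mul h5 h3 (sum_nonneg fun _ _ => sq_nonneg _) (Nat.cast_nonneg _)
        _ ≤ H * (κ * (O ^ 2 * (b * H))) := by
            apply mul_le_mul_of_nonneg_left _ (Nat.cast_nonneg _)
            apply mul_le_mul_of_nonneg_left _ hκ0.le
            exact mul_le_mul_of_nonneg_left h6 (sq_nonneg _)
        _ = O ^ 2 * (H : ℝ) ^ 2 * (κ * b) := by ring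
        _ = O ^ 2 * (H : ℝ) ^ 2 * √(κ * b) ^ 2 := by rw [h7]
        _ = _ := by ring
    exact le_of_sq_le_sq h1 (by positivity)
  have hphsum : ∑ x ∈ Icc 1 H, ph b x ≤ H + b := by
    have h1 := sum_ph b (H / b + 1) (by omega)
    have h2 : ∑ x ∈ Icc 1 H, ph b x ≤ ∑ x ∈ Icc 1 (b * (H / b + 1)), ph b x := by
      apply sum_le_sum_of_subset_of_nonneg _ fun _ _ _ => ph_nonneg _ _
      apply Icc_subset_Icc le_rfl
      have := Nat.div_add_mod H b
      have h4 := Nat.mod_lt H (by omega : 0 < b)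
      rw [mul_add]
      omega
    rw [h1] at h2
    refine h2.trans ?_
    have h3 : b * (H / b + 1) ≤ H + b := by
      have := Nat.div_mul_le_self H b
      rw [mul_add, mul_comm b (H / b)]
      omega
    exact_mod_cast h3
  have hZph : (Z.card : ℝ) ≤ ∑ x ∈ Z, ph b x := by
    rw [← nsmul_one Z.card, ← sum_const]
    push_cast
    apply sum_le_sum
    intro x hx
    rw [hZ, mem_filter] at hx
    exact ph_ge_one b x hx.2.1
  have hupper : ∑ x ∈ Icc 1 H, WW b F X Ω x ≤ O * (H + b - Z.card + H * √(κ * b)) := by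
    have h1 : ∑ x ∈ Icc 1 H, WW b F X Ω x = ∑ x ∈ Icc 1 H \ Z, WW b F X Ω x := by
      symm
      apply sum_subset sdiff_subset
      intro x hx hx2
      rw [mem_sdiff, not_and_or, not_not] at hx2
      rcases hx2 with h | h
      · exact absurd hx h
      · exact hWZ x h
    have h2 : ∑ x ∈ Icc 1 H \ Z, WW b F X Ω x ≤ ∑ x ∈ Icc 1 H \ Z, (O * ph b x) + ∑ x ∈ Icc 1 H, e x := by
      have h3 : ∑ x ∈ Icc 1 H \ Z, WW b F X Ω x ≤ ∑ x ∈ Icc 1 H \ Z, (O * ph b x + e x) := sum_le_sum fun x _ => hWle x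
      rw [sum_add_distrib] at h3
      have h4 : ∑ x ∈ Icc 1 H \ Z, e x ≤ ∑ x ∈ Icc 1 H, e x :=
        sum_le_sum_of_subset_of_nonneg sdiff_subset fun x _ _ => he0 x
      linarith
    have h3 : ∑ x ∈ Icc 1 H \ Z, ph b x = ∑ x ∈ Icc 1 H, ph b x - ∑ x ∈ Z, ph b x := by
      rw [eq_sub_iff_add_eq, sum_sdiff hZsub]
    rw [← mul_sum, h3] at h2
    rw [h1]
    have h5 : O * (∑ x ∈ Icc 1 H, ph b x - ∑ x ∈ Z, ph b x) ≤ O * (H + b - Z.card) :=
      mul_le_mul_of_nonneg_left (by linarith) hO0.le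
    calc _ ≤ O * (H + b - Z.card) + O * (H * √(κ * b)) := by linarith
      _ = _ := by ring
  have hlower : O * (Chebyshev.theta ((H - T : ℕ) : ℝ) - ((Nat.primeCounting H : ℝ) - P.card) * Real.log H) ≤
      ∑ x ∈ Icc 1 H, WW b F X Ω x := by
    have h1 := WW_mass b F X T H Ω hF0 hT (by omega)
    rw [← hO] at h1
    refine le_trans (mul_le_mul_of_nonneg_left ?_ hO0.le) h1
    rw [hF]
    exact mass_primes H (H - T) (by omega) P hP
  have hall := le_of_mul_le_mul_left (hlower.trans hupper) hO0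
  -- numbers
  have hH0 : (1 : ℝ) ≤ H := by exact_mod_cast hH1
  have hn3' : (1 / κ + 16 * b / ε') ≤ H := by
    refine hn3.trans ?_
    exact_mod_cast (by omega : n3 ≤ H)
  have hc2 : 16 * (b : ℝ) ≤ ε' * H := by
    have h1 : 16 * b / ε' ≤ H := by
      have : 0 ≤ 1 / κ := by positivity
      linarith
    rw [div_le_iff₀ hε'] at h1
    linarith
  have hκb : κ * b * 2 ≤ ε' / 512 := by
    have h1 : κ * b * 2 = ε' ^ 2 / (512 * b) := by
      rw [hκ]
      field_simp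
      ring
    rw [h1, div_le_div_iff₀ (by positivity) (by norm_num)]
    have h2 : ε' ^ 2 ≤ ε' * 1 := by
      rw [sq]
      exact mul_le_mul_of_nonneg_left hε'1 hε'.le
    have h3 : ε' * 1 ≤ ε' * b := mul_le_mul_of_nonneg_left (by linarith) hε'.le
    linarith
  have hsq : √(κ * b) ≤ ε' / 32 := by
    have h1 : κ * b ≤ (ε' / 32) ^ 2 := by
      have h2 : κ * b = (ε' / 32) ^ 2 / b := by
        rw [hκ]
        field_simp
      rw [h2, div_le_iff₀ (by linarith)]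
      have h3 : 0 ≤ (ε' / 32) ^ 2 := sq_nonneg _
      nlinarith
    calc √(κ * b) ≤ √((ε' / 32) ^ 2) := Real.sqrt_le_sqrt h1
      _ = ε' / 32 := Real.sqrt_sq (by positivity)
  have hT4 : (T : ℝ) ≤ ε' / 1024 * H := by
    have h1 : κ * (b * H) ≤ ε' / 1024 * H := by
      have h2 : κ * b ≤ ε' / 1024 := by linarith
      calc κ * (b * H) = κ * b * H := by ring
        _ ≤ _ := mul_le_mul_of_nonneg_right h2 (by linarith)
    linarith
  have hTN : 4 * T ≤ H := by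
    have h1 : ε' / 1024 * H ≤ 1 / 4 * H := mul_le_mul_of_nonneg_right (by linarith) (by linarith)
    have : 4 * (T : ℝ) ≤ H := by linarith
    exact_mod_cast this
  have hth := hn1 (H - T) (by omega)
  have hpi := (hn2 H (by omega)).1
  have hcast : ((H - T : ℕ) : ℝ) = H - T := by
    rw [Nat.cast_sub (by omega)]
  rw [abs_le] at hth
  have hth1 := hth.1
  obtain ⟨Th, hTh⟩ : ∃ Th : ℝ, Th = Chebyshev.theta ((H - T : ℕ) : ℝ) := ⟨_, rfl⟩
  rw [← hTh] at hth1 hall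
  rw [hcast] at hth1
  have hlogN : 0 ≤ Real.log H := Real.log_natCast_nonneg H
  have hbracket : ((Nat.primeCounting H : ℝ) - P.card) * Real.log H ≤ ε' / 8 * ((1 + ε' / 12) * H) := by
    have h1 : (Nat.primeCounting H : ℝ) - P.card ≤ ε' / 8 * Nat.primeCounting H := by linarith
    calc _ ≤ (ε' / 8 * Nat.primeCounting H) * Real.log H := mul_le_mul_of_nonneg_right h1 hlogN
      _ = ε' / 8 * (Nat.primeCounting H * Real.log H) := by ring
      _ ≤ _ := mul_le_mul_of_nonneg_left hpi (by positivity)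
  have hT0 : (0 : ℝ) ≤ T := Nat.cast_nonneg _
  have hb3 : H * √(κ * b) ≤ ε' / 32 * H := by
    have := mul_le_mul_of_nonneg_left hsq (by linarith : (0 : ℝ) ≤ H)
    linarith
  have hb4 : ε' / 8 * ((1 + ε' / 12) * H) ≤ ε' / 8 * (13 / 12 * H) := by
    apply mul_le_mul_of_nonneg_left _ (by positivity)
    exact mul_le_mul_of_nonneg_right (by linarith) (by linarith)
  have hb5 : (1 - ε' / 12) * (H - T) ≥ (1 - ε' / 12) * H - T := by
    have h1 : (1 - ε' / 12) * T ≤ 1 * T := mul_le_mul_of_nonneg_right (by linarith) hT0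
    linarith
  have hb6 : ε' * (H : ℝ) ≤ ε * H := mul_le_mul_of_nonneg_right hεε (by linarith)
  have hb7 : 0 ≤ ε' * (H : ℝ) := by positivity
  nlinarith

end Pool.Agent.H86.DL
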