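import Pool.Agent.H86.S1

set_option autoImplicit false
set_option linter.unusedSectionVars false

/-! Pairs of integers without small prime factors in a reflected interval. -/

namespace Pool.Agent.H86.DL
open Finset
open Pool.Agent.H373R2.T7
open Pool.Agent.W93.DG
open Pool.Agent.W93.HD

/-- reflected divisibility -/
def R1 (N : ℤ) (p n : ℕ) : Prop := (p : ℤ) ∣ N - n
/-- reflected pair condition -/
def R2 (N : ℤ) (h p n : ℕ) : Prop := (p : ℤ) ∣ N - n ∨ (p : ℤ) ∣ N - n - h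

lemma dvd_sub_mod (N : ℤ) (p n : ℕ) : (p : ℤ) ∣ N - (n % p : ℕ) ↔ (p : ℤ) ∣ N - n := by
  have h1 : N - (n % p : ℕ) = N - n + p * ((n / p : ℕ) : ℤ) := by
    have h2 : (n : ℤ) = p * ((n / p : ℕ) : ℤ) + ((n % p : ℕ) : ℤ) := by exact_mod_cast (Nat.div_add_mod n p).symm
    linarith
  rw [h1]
  exact ⟨fun h => by simpa using dvd_sub h (dvd_mul_right (p : ℤ) ((n / p : ℕ) : ℤ)), fun h => dvd_add h (dvd_mul_right _ _)⟩

/-- reflection of residues -/
lemma nuB_R2 (N : ℤ) (h p : ℕ) (hp : p.Prime) : nuB (R2 N h) p = nuB (QQ h) p := by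
  classical
  have hp0 : (0 : ℤ) < p := by exact_mod_cast hp.pos
  have hpne : (p : ℤ) ≠ 0 := hp0.ne'
  unfold nuB
  refine card_bij' (fun (r : ℕ) _ => ((N - (h : ℤ) - (r : ℤ)) % (p : ℤ)).toNat)
    (fun (r : ℕ) _ => ((N - (h : ℤ) - (r : ℤ)) % (p : ℤ)).toNat) ?_ ?_ ?_ ?_
  · intro r hr
    rw [mem_filter, mem_range] at hr ⊢
    have h1 := Int.emod_nonneg (N - h - r) hpne
    have h2 := Int.emod_lt_of_pos (N - h - r) hp0
    have h3 : ((((N - h - r) % p).toNat : ℕ) : ℤ) = (N - h - r) % p := Int.toNat_of_nonneg h1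
    refine ⟨by omega, ?_⟩
    have h4 : (N - h - r) % p = (N - h - r) - p * ((N - h - r) / p) := by
      have := Int.emod_add_mul_ediv (N - h - r) p
      linarith
    rcases hr.2 with h5 | h5
    · right
      have : (p : ℤ) ∣ ((((N - h - r) % p).toNat + h : ℕ) : ℤ) := by
        push_cast
        rw [← h3] at h4
        rw [h3] at h4 ⊢
        rw [h4]
        have e : N - h - r - p * ((N - h - r) / p) + h = (N - r) - p * ((N - h - r) / p) := by ring
        rw [e]
        exact dvd_sub h5 (dvd_mul_right _ _)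
      exact_mod_cast this
    · left
      have : (p : ℤ) ∣ ((((N - h - r) % p).toNat : ℕ) : ℤ) := by
        rw [h3, h4]
        have e : N - h - r = N - r - h := by ring
        exact dvd_sub (by rw [e]; exact h5) (dvd_mul_right _ _)
      exact_mod_cast this
  · intro r hr
    rw [mem_filter, mem_range] at hr ⊢
    have h1 := Int.emod_nonneg (N - h - r) hpne
    have h2 := Int.emod_lt_of_pos (N - h - r) hp0
    have h3 : ((((N - h - r) % p).toNat : ℕ) : ℤ) = (N - h - r) % p := Int.toNat_of_nonneg h1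
    refine ⟨by omega, ?_⟩
    have h4 : (N - h - r) % p = (N - h - r) - p * ((N - h - r) / p) := by
      have := Int.emod_add_mul_ediv (N - h - r) p
      linarith
    rcases hr.2 with h5 | h5
    · right
      rw [h3, h4]
      have e : N - (N - h - r - p * ((N - h - r) / p)) - h = r + p * ((N - h - r) / p) := by ring
      rw [e]
      exact dvd_add (by exact_mod_cast h5) (dvd_mul_right _ _)
    · left
      rw [h3, h4]
      have e : N - (N - h - r - p * ((N - h - r) / p)) = ((r + h : ℕ) : ℤ) + p * ((N - h - r) / p) := by push_cast; ring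
      rw [e]
      exact dvd_add (by exact_mod_cast h5) (dvd_mul_right _ _)
  · intro r hr
    rw [mem_filter, mem_range] at hr
    have h1 := Int.emod_nonneg (N - h - r) hpne
    have h2 := Int.emod_lt_of_pos (N - h - r) hp0
    have h3 : ((((N - h - r) % p).toNat : ℕ) : ℤ) = (N - h - r) % p := Int.toNat_of_nonneg h1
    have h4 : (N - h - r) % p = (N - h - r) - p * ((N - h - r) / p) := by
      have := Int.emod_add_mul_ediv (N - h - r) p
      linarith
    rw [h3, h4]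
    have e : N - h - (N - h - r - p * ((N - h - r) / p)) = r + p * ((N - h - r) / p) := by ring
    rw [e, Int.add_mul_emod_self_left, Int.emod_eq_of_lt (by positivity) (by exact_mod_cast hr.1)]
    simp
  · intro r hr
    rw [mem_filter, mem_range] at hr
    have h1 := Int.emod_nonneg (N - h - r) hpne
    have h2 := Int.emod_lt_of_pos (N - h - r) hp0
    have h3 : ((((N - h - r) % p).toNat : ℕ) : ℤ) = (N - h - r) % p := Int.toNat_of_nonneg h1
    have h4 : (N - h - r) % p = (N - h - r) - p * ((N - h - r) / p) := by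
      have := Int.emod_add_mul_ediv (N - h - r) p
      linarith
    rw [h3, h4]
    have e : N - h - (N - h - r - p * ((N - h - r) / p)) = r + p * ((N - h - r) / p) := by ring
    rw [e, Int.add_mul_emod_self_left, Int.emod_eq_of_lt (by positivity) (by exact_mod_cast hr.1)]
    simp

lemma R2_per (N : ℤ) (h : ℕ) : PerB (R2 N h) 2 := by
  classical
  constructor
  · intro p n
    unfold R2
    have e : ∀ m : ℕ, N - m - h = (N - h) - m := fun m => by ring
    rw [e, e, dvd_sub_mod, dvd_sub_mod]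
  · intro p hp
    rw [nuB_R2 N h p hp]
    exact (QQ_per h).few p hp

lemma R1_iff (N : ℤ) (p n : ℕ) : R1 N p n ↔ R2 N 0 p n := by
  unfold R1 R2
  simp

lemma nuB_QQ0 (p : ℕ) (hp : p.Prime) : nuB (QQ 0) p = 1 := by
  classical
  unfold nuB
  have : (range p).filter (fun r => QQ 0 p r) = {0} := by
    ext r
    rw [mem_filter, mem_range, mem_singleton]
    constructor
    · rintro ⟨h1, h2⟩
      rcases h2 with h | h
      · exact Nat.eq_zero_of_dvd_of_lt h h1
      · exact Nat.eq_zero_of_dvd_of_lt (by simpa using h) h1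
    · rintro rfl
      exact ⟨hp.pos, Or.inl (dvd_zero _)⟩
  rw [this, card_singleton]

open Classical in
/-- counts of integers and pairs of integers without small prime factors in `[N - X, N]` -/
lemma refl_sieve : ∃ K₁ x0 : ℕ, 1 ≤ K₁ ∧ ∀ H z : ℕ, x0 ≤ z → z ^ K₁ ≤ H → ∀ N : ℤ,
    (∀ h : ℕ, (Vz z)⁻¹ * (Vz z)⁻¹ * (((Icc 1 H).filter (fun n : ℕ => ∀ p ∈ pz z, ¬ R2 N h p n)).card : ℝ) ≤
      2 * H * sg z h + (Vz z)⁻¹ * (Vz z)⁻¹ * √(H : ℝ)) ∧
    (∀ Y : ℕ, (((Icc 1 Y).filter (fun n : ℕ => ∀ p ∈ pz z, ¬ R1 N p n)).card : ℝ) ≤ 2 * Y * Vz z + √(H : ℝ)) ∧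
    (∀ Y : ℕ, 1 / 2 * Y * Vz z - √(H : ℝ) ≤ (((Icc 1 Y).filter (fun n : ℕ => ∀ p ∈ pz z, ¬ R1 N p n)).card : ℝ)) := by
  obtain ⟨K, x0, hK, hf⟩ := sys_fund 2 (by norm_num) (1 / 2) (by norm_num)
  refine ⟨K, max x0 1, hK, fun H z hz hzH N => ?_⟩
  have hx0 : x0 ≤ z := (le_max_left _ _).trans hz
  have hV0 := Vz_pos z
  have hVi0 : 0 < (Vz z)⁻¹ := inv_pos.2 hV0
  have hprod : ∀ h, ∏ p ∈ pz z, (1 - (nuB (R2 N h) p : ℝ) / p) = ∏ p ∈ pz z, (1 - (nuB (QQ h) p : ℝ) / p) := by
    intro h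
    apply prod_congr rfl
    intro p hp
    rw [nuB_R2 N h p (mem_pz.1 hp).2]
  have hprod0 : ∏ p ∈ pz z, (1 - (nuB (R2 N 0) p : ℝ) / p) = Vz z := by
    rw [hprod]
    unfold Vz
    apply prod_congr rfl
    intro p hp
    rw [nuB_QQ0 p (mem_pz.1 hp).2, Nat.cast_one]
  have hR1 : ∀ Y : ℕ, (Icc 1 Y).filter (fun n : ℕ => ∀ p ∈ pz z, ¬ R1 N p n) = (Icc 1 Y).filter (fun n : ℕ => ∀ p ∈ pz z, ¬ R2 N 0 p n) := by
    intro Y
    apply filter_congr
    intro n _
    simp only [R1_iff]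
  refine ⟨fun h => ?_, fun Y => ?_, fun Y => ?_⟩
  · have h1 := (abs_le.1 (hf H z hx0 hzH _ (R2_per N h) H)).2
    rw [hprod] at h1
    obtain ⟨P, hP⟩ : ∃ P : ℝ, P = ∏ p ∈ pz z, (1 - (nuB (QQ h) p : ℝ) / p) := ⟨_, rfl⟩
    unfold sg
    rw [← hP] at h1 ⊢
    have hP0 : 0 ≤ P := by
      rw [hP]
      apply prod_nonneg
      intro p hp
      have hpp := (mem_pz.1 hp).2
      have : (nuB (QQ h) p : ℝ) ≤ p := by exact_mod_cast nuB_le _ _
      rw [sub_nonneg, div_le_one (by exact_mod_cast hpp.pos)]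
      exact this
    have hHP : (0 : ℝ) ≤ H * P := by positivity
    have h4 : (((Icc 1 H).filter (fun n : ℕ => ∀ p ∈ pz z, ¬ R2 N h p n)).card : ℝ) ≤ 2 * (H * P) + √(H : ℝ) := by linarith
    calc (Vz z)⁻¹ * (Vz z)⁻¹ * (((Icc 1 H).filter (fun n : ℕ => ∀ p ∈ pz z, ¬ R2 N h p n)).card : ℝ) ≤
          (Vz z)⁻¹ * (Vz z)⁻¹ * (2 * (H * P) + √(H : ℝ)) := mul_le_mul_of_nonneg_left h4 (by positivity)
      _ = _ := by ring
  · have h1 := (abs_le.1 (hf H z hx0 hzH _ (R2_per N 0) Y)).2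
    rw [hprod0] at h1
    rw [hR1]
    have : (0 : ℝ) ≤ Y * Vz z := by positivity
    linarith
  · have h1 := (abs_le.1 (hf H z hx0 hzH _ (R2_per N 0) Y)).1
    rw [hprod0] at h1
    rw [hR1]
    linarith

end Pool.Agent.H86.DL
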