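import Pool.Agent.H86.S2

set_option autoImplicit false
set_option linter.unusedSectionVars false

/-! Sets of integers without small prime factors, shifted by powers of `b`, cover a positive proportion. -/

namespace Pool.Agent.H86.DL
open Finset
open Pool.Agent.H373R2.T7
open Pool.Agent.W93.DG
open Pool.Agent.W93.HD

section Omega
variable {ι : Type} [Fintype ι] [DecidableEq ι]

open Classical in
lemma pair_inj (N : ℤ) (H z v v' : ℕ) (A : Finset ℕ) (hA : ∀ a ∈ A, v < a ∧ v' < a ∧ a ≤ H ∧ ∀ p ∈ pz z, ¬ R1 N p a) :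
    ((A ×ˢ A).filter (fun i : ℕ × ℕ => i.1 - v = i.2 - v')).card ≤
      ((Icc 1 H).filter (fun n : ℕ => ∀ p ∈ pz z, ¬ R2 N ((v : ℤ) - v').natAbs p n)).card := by
  rcases le_total v' v with h | h
  · apply card_le_card_of_injOn (fun i => i.2)
    · intro i hi
      rw [mem_coe, mem_filter, mem_product] at hi
      obtain ⟨⟨h1, h2⟩, h3⟩ := hi
      obtain ⟨a1, a2, a3, a4⟩ := hA _ h1
      obtain ⟨b1, b2, b3, b4⟩ := hA _ h2
      rw [mem_coe, mem_filter, mem_Icc]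
      refine ⟨⟨(by omega : 1 ≤ i.2), b3⟩, fun p hp hR => ?_⟩
      rcases hR with hR | hR
      · exact b4 p hp hR
      · apply a4 p hp
        unfold R1
        have e0 : ((v : ℤ) - v').natAbs = v - v' := by omega
        have e : (i.1 : ℤ) = i.2 + (((v : ℤ) - v').natAbs : ℤ) := by
          rw [e0]
          have : i.1 = i.2 + (v - v') := by omega
          exact_mod_cast this
        rw [e]
        have e2 : N - (↑i.2 + (((v : ℤ) - v').natAbs : ℤ)) = N - ↑i.2 - (((v : ℤ) - v').natAbs : ℤ) := by ring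
        rw [e2]
        exact hR
    · intro i hi j hj hij
      rw [mem_coe, mem_filter, mem_product] at hi hj
      obtain ⟨⟨h1, h2⟩, h3⟩ := hi
      obtain ⟨⟨g1, g2⟩, g3⟩ := hj
      obtain ⟨a1, a2, a3, a4⟩ := hA _ h1
      obtain ⟨b1, b2, b3, b4⟩ := hA _ g1
      simp only at hij
      have : i.1 = j.1 := by omega
      exact Prod.ext this hij
  · apply card_le_card_of_injOn (fun i => i.1)
    · intro i hi
      rw [mem_coe, mem_filter, mem_product] at hi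
      obtain ⟨⟨h1, h2⟩, h3⟩ := hi
      obtain ⟨a1, a2, a3, a4⟩ := hA _ h1
      obtain ⟨b1, b2, b3, b4⟩ := hA _ h2
      rw [mem_coe, mem_filter, mem_Icc]
      refine ⟨⟨(by omega : 1 ≤ i.1), a3⟩, fun p hp hR => ?_⟩
      rcases hR with hR | hR
      · exact a4 p hp hR
      · apply b4 p hp
        unfold R1
        have e0 : ((v : ℤ) - v').natAbs = v' - v := by omega
        have e : (i.2 : ℤ) = i.1 + (((v : ℤ) - v').natAbs : ℤ) := by
          rw [e0]
          have : i.2 = i.1 + (v' - v) := by omega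
          exact_mod_cast this
        rw [e]
        have e2 : N - (↑i.1 + (((v : ℤ) - v').natAbs : ℤ)) = N - ↑i.1 - (((v : ℤ) - v').natAbs : ℤ) := by ring
        rw [e2]
        exact hR
    · intro i hi j hj hij
      rw [mem_coe, mem_filter, mem_product] at hi hj
      obtain ⟨⟨h1, h2⟩, h3⟩ := hi
      obtain ⟨⟨g1, g2⟩, g3⟩ := hj
      obtain ⟨a1, a2, a3, a4⟩ := hA _ h2
      obtain ⟨b1, b2, b3, b4⟩ := hA _ g2
      simp only at hij
      have : i.2 = j.2 := by omega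
      exact Prod.ext hij this

open Classical in
lemma support_bound (b H z : ℕ) (N : ℤ) (Ω : Finset (ℕ × (ι → ℕ × ℕ))) (A : Finset ℕ)
    (hA : ∀ a ∈ A, (∀ o ∈ Ω, vd b o < a) ∧ a ≤ H ∧ ∀ p ∈ pz z, ¬ R1 N p a) :
    ((Ω.card : ℝ) * A.card) ^ 2 ≤ (((Icc 1 H).filter (fun y => ∃ o ∈ Ω, y + vd b o ∈ A)).card : ℝ) *
      ∑ o ∈ Ω, ∑ o' ∈ Ω, (((Icc 1 H).filter (fun n : ℕ => ∀ p ∈ pz z, ¬ R2 N ((vd b o : ℤ) - vd b o').natAbs p n)).card : ℝ) := by
  obtain ⟨S, hS⟩ : ∃ S, S = (Icc 1 H).filter (fun y => ∃ o ∈ Ω, y + vd b o ∈ A) := ⟨_, rfl⟩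
  rw [← hS]
  obtain ⟨r, hr⟩ : ∃ r : ℕ → ℝ, r = fun y => ∑ i ∈ Ω ×ˢ A, if i.2 - vd b i.1 = y then (1 : ℝ) else 0 := ⟨_, rfl⟩
  have h1 : (Ω.card : ℝ) * A.card = ∑ y ∈ S, r y := by
    rw [hr]
    simp only
    rw [sum_comm]
    have h2 : ∀ i ∈ Ω ×ˢ A, ∑ y ∈ S, (if i.2 - vd b i.1 = y then (1 : ℝ) else 0) = 1 := by
      intro i hi
      rw [mem_product] at hi
      have h3 := (hA _ hi.2).1 _ hi.1
      have h4 := (hA _ hi.2).2.1
      rw [sum_ite_eq, if_pos]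
      rw [hS, mem_filter, mem_Icc]
      refine ⟨⟨by omega, by omega⟩, i.1, hi.1, ?_⟩
      have : i.2 - vd b i.1 + vd b i.1 = i.2 := by omega
      rw [this]
      exact hi.2
    rw [sum_congr rfl h2, sum_const, card_product, nsmul_one]
    push_cast
    ring
  have h2 : ∑ y ∈ S, r y ^ 2 ≤ ∑ i ∈ Ω ×ˢ A, ∑ j ∈ Ω ×ˢ A, (if i.2 - vd b i.1 = j.2 - vd b j.1 then (1 : ℝ) * 1 else 0) := by
    rw [hr]
    exact sq_fib (Ω ×ˢ A) (fun _ => 1) (fun i => i.2 - vd b i.1) S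
  have h3 : ∑ i ∈ Ω ×ˢ A, ∑ j ∈ Ω ×ˢ A, (if i.2 - vd b i.1 = j.2 - vd b j.1 then (1 : ℝ) * 1 else 0) =
      ∑ o ∈ Ω, ∑ o' ∈ Ω, (((A ×ˢ A).filter (fun i : ℕ × ℕ => i.1 - vd b o = i.2 - vd b o')).card : ℝ) := by
    rw [sum_product]
    apply sum_congr rfl
    intro o _
    have e1 : ∀ a ∈ A, ∑ j ∈ Ω ×ˢ A, (if a - vd b o = j.2 - vd b j.1 then (1 : ℝ) * 1 else 0) =
        ∑ o' ∈ Ω, ∑ a' ∈ A, (if a - vd b o = a' - vd b o' then (1 : ℝ) else 0) := by
      intro a _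
      rw [sum_product]
      simp only [mul_one]
    rw [sum_congr rfl e1, sum_comm]
    apply sum_congr rfl
    intro o' _
    rw [card_filter, sum_product]
    push_cast
    rfl
  have h4 : ∑ y ∈ S, r y ^ 2 ≤ ∑ o ∈ Ω, ∑ o' ∈ Ω, (((Icc 1 H).filter (fun n : ℕ => ∀ p ∈ pz z, ¬ R2 N ((vd b o : ℤ) - vd b o').natAbs p n)).card : ℝ) := by
    rw [h3] at h2
    refine h2.trans ?_
    apply sum_le_sum
    intro o ho
    apply sum_le_sum
    intro o' ho'
    exact_mod_cast pair_inj N H z (vd b o) (vd b o') A (fun a ha => ⟨(hA a ha).1 o ho, (hA a ha).1 o' ho', (hA a ha).2.1, (hA a ha).2.2⟩)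
  rw [h1]
  have h5 := sq_sum_le_card_mul_sum_sq (s := S) (f := r)
  exact h5.trans (mul_le_mul_of_nonneg_left h4 (Nat.cast_nonneg _))

end Omega

lemma pigeon (b : ℕ) (hb : 1 ≤ b) (A : Finset ℕ) : ∃ r < b, A.card ≤ b * (A.filter (fun a => a % b = r)).card := by
  by_contra hcon
  push Not at hcon
  have h1 : A.card = ∑ r ∈ range b, (A.filter (fun a => a % b = r)).card :=
    card_eq_sum_card_fiberwise (fun a _ => by
      rw [mem_coe, mem_range]
      exact Nat.mod_lt _ (by omega))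
  have h2 : ∑ r ∈ range b, b * (A.filter (fun a => a % b = r)).card < ∑ r ∈ range b, A.card :=
    sum_lt_sum_of_nonempty ⟨0, mem_range.2 (by omega)⟩ (fun r hr => hcon r (mem_range.1 hr))
  rw [← mul_sum, ← h1, sum_const, card_range, smul_eq_mul] at h2
  exact lt_irrefl _ h2

end Pool.Agent.H86.DL
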