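import Pool.Agent.H86.S3

set_option autoImplicit false
set_option linter.unusedSectionVars false

/-! Sets of integers without small prime factors, shifted by powers of `b`, cover a positive proportion. -/

namespace Pool.Agent.H86.DL
open Finset
open Pool.Agent.H373R2.T7
open Pool.Agent.W93.DG
open Pool.Agent.W93.HD

lemma ev_rpow (a X : ℝ) (ha : 0 < a) : ∃ n₀ : ℕ, ∀ n : ℕ, n₀ ≤ n → X ≤ (n : ℝ) ^ a := by
  have h := (tendsto_rpow_atTop ha).comp tendsto_natCast_atTop_atTop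
  have h2 := h.eventually_ge_atTop X
  rw [Filter.eventually_atTop] at h2
  exact h2

open Classical in
theorem spread (b : ℕ) (hb : 2 ≤ b) (c κ : ℝ) (hc : 0 < c) (hκ : 0 < κ) : ∃ (s : ℕ) (κ' : ℝ) (H₀ : ℕ), 0 < κ' ∧
    ∀ H : ℕ, H₀ ≤ H → ∀ N : ℕ, ∀ A : Finset ℕ, (∀ a ∈ A, a ≤ H ∧ a ≤ N ∧ ∀ r : ℕ, r.Prime → r ∣ N - a → (H : ℝ) ^ c ≤ r) →
    κ * H / Real.log H ≤ A.card →
    κ' * H ≤ (((Icc 1 H).filter (fun y => b.Coprime y ∧ ∃ a ∈ A, y ≤ a ∧ PS b s (a - y))).card : ℝ) := by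
  have hb0 : (2 : ℝ) ≤ b := by exact_mod_cast hb
  obtain ⟨C5, s₀, t, hC5, ht, hsing⟩ := sing_avg b hb 1 one_pos
  obtain ⟨K1, x0, hK1, hsv⟩ := refl_sieve
  obtain ⟨C2, hC2, hVl⟩ := Vz_log_le
  obtain ⟨c1, hc1⟩ : ∃ c1 : ℝ, c1 = min (c / 2) (1 / (4 * K1)) := ⟨_, rfl⟩
  have hK1r : (1 : ℝ) ≤ K1 := by exact_mod_cast hK1
  have hc10 : 0 < c1 := by rw [hc1]; positivity
  have hc1c : c1 ≤ c / 2 := by rw [hc1]; exact min_le_left _ _
  have hc1K : c1 ≤ 1 / (4 * K1) := by rw [hc1]; exact min_le_right _ _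
  have hc1K' : c1 * K1 ≤ 1 / 4 := by
    have h1 := mul_le_mul_of_nonneg_right hc1K (by linarith : (0 : ℝ) ≤ K1)
    have h2 : 1 / (4 * (K1 : ℝ)) * K1 = 1 / 4 := by field_simp
    linarith
  have hc14 : c1 ≤ 1 / 4 := by nlinarith
  obtain ⟨β, hβ⟩ : ∃ β : ℝ, β = κ * c1 / (16 * C2) := ⟨_, rfl⟩
  have hβ0 : 0 < β := by rw [hβ]; positivity
  obtain ⟨m, hm⟩ : ∃ m : ℕ, m = 1 + s₀ + b := ⟨_, rfl⟩
  have hm0 : (1 : ℝ) ≤ m := by exact_mod_cast (by omega : 1 ≤ m)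
  obtain ⟨C6, hC6⟩ : ∃ C6 : ℝ, C6 = 2 * B0 b * (2 + 4 * C5 * Real.log b) + 1 := ⟨_, rfl⟩
  have hlogb : 0 < Real.log b := Real.log_pos (by linarith)
  have hB0 := B0_ge_one b
  have hC60 : 1 ≤ C6 := by
    rw [hC6]
    have : 0 ≤ 2 * B0 b * (2 + 4 * C5 * Real.log b) := by positivity
    linarith
  obtain ⟨κ1, hκ1⟩ : ∃ κ1 : ℝ, κ1 = κ * c1 / (4 * b * C2) := ⟨_, rfl⟩
  have hκ10 : 0 < κ1 := by rw [hκ1]; positivity
  obtain ⟨n1, hn1⟩ := ev_rpow (c1 / 2) (x0 + 4) (by positivity)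
  obtain ⟨n2, hn2⟩ := ev_rpow (1 / 4) (64 / κ + 4 * m / β + 2) (by norm_num)
  refine ⟨1 + s₀ + b, κ1 ^ 2 / C6, n1 + n2 + b ^ (2 * t + 2) + 3, by positivity, fun H hH N A hA hAc => ?_⟩
  have e1 := hn1 H (by omega)
  have e2 := hn2 H (by omega)
  have hH3 : (3 : ℝ) ≤ H := by exact_mod_cast (by omega : 3 ≤ H)
  have hH0 : (0 : ℝ) < H := by linarith
  have hL : 0 < Real.log H := Real.log_pos (by linarith)
  -- quarter powers
  obtain ⟨q, hq⟩ : ∃ q : ℝ, q = (H : ℝ) ^ (1 / 4 : ℝ) := ⟨_, rfl⟩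
  rw [← hq] at e2
  have hq4 : q ^ 4 = H := by
    rw [hq, ← Real.rpow_natCast, ← Real.rpow_mul hH0.le]
    norm_num
  have hq2 : √(H : ℝ) = q ^ 2 := by
    rw [← hq4, show q ^ 4 = (q ^ 2) ^ 2 by ring]
    exact Real.sqrt_sq (sq_nonneg q)
  have hk64 : 64 / κ ≤ q := by
    have : 0 ≤ 4 * (m : ℝ) / β := by positivity
    linarith
  have hmβ : 4 * m / β ≤ q := by
    have : 0 ≤ 64 / κ := by positivity
    linarith
  have hq1 : 2 ≤ q := by
    have : 0 ≤ 64 / κ := by positivity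
    have : 0 ≤ 4 * (m : ℝ) / β := by positivity
    linarith
  have hk64' : 64 ≤ κ * q := by
    rw [div_le_iff₀ hκ] at hk64
    linarith
  have hmβ' : 4 * m ≤ β * q := by
    rw [div_le_iff₀ hβ0] at hmβ
    linarith
  have hlogq : Real.log H ≤ 4 * q := by
    have h1 := Real.log_le_rpow_div hH0.le (by norm_num : (0 : ℝ) < 1 / 4)
    rw [← hq] at h1
    linarith
  -- the sieving level
  obtain ⟨z, hz⟩ : ∃ z : ℕ, z = ⌊(H : ℝ) ^ c1⌋₊ := ⟨_, rfl⟩
  have hzle : (z : ℝ) ≤ (H : ℝ) ^ c1 := by rw [hz]; exact Nat.floor_le (by positivity)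
  have hHc : (H : ℝ) ^ c1 = (H : ℝ) ^ (c1 / 2) * (H : ℝ) ^ (c1 / 2) := by
    rw [← Real.rpow_add hH0]
    congr 1
    ring
  have hx00 : (0 : ℝ) ≤ x0 := Nat.cast_nonneg _
  have hzge : (H : ℝ) ^ (c1 / 2) ≤ z := by
    have h1 : (H : ℝ) ^ c1 < z + 1 := by rw [hz]; exact Nat.lt_floor_add_one _
    rw [hHc] at h1
    nlinarith
  have hz4 : (x0 : ℝ) + 4 ≤ z := e1.trans hzge
  have hz4' : x0 + 4 ≤ z := by exact_mod_cast hz4
  have hz0 : (0 : ℝ) < z := by linarith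
  have hlogz : c1 / 2 * Real.log H ≤ Real.log z := by
    rw [← Real.log_rpow hH0]
    exact Real.log_le_log (by positivity) hzge
  have hlogz0 : 0 < Real.log z := lt_of_lt_of_le (by positivity) hlogz
  have hzK : z ^ K1 ≤ H := by
    have h1 : ((z : ℝ)) ^ K1 ≤ ((H : ℝ) ^ c1) ^ K1 := pow_le_pow_left₀ hz0.le hzle _
    have h2 : ((H : ℝ) ^ c1) ^ K1 = (H : ℝ) ^ (c1 * K1) := by
      rw [← Real.rpow_natCast, ← Real.rpow_mul hH0.le]
    have h3 : (H : ℝ) ^ (c1 * K1) ≤ (H : ℝ) ^ (1 : ℝ) := Real.rpow_le_rpow_of_exponent_le (by linarith) (by linarith)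
    rw [Real.rpow_one] at h3
    have h4 : (z : ℝ) ^ K1 ≤ H := h1.trans (by rw [h2]; exact h3)
    exact_mod_cast h4
  have hV0 := Vz_pos z
  have hVi0 : 0 < (Vz z)⁻¹ := inv_pos.2 hV0
  have hVz := hVl z (by omega)
  have hVi2 : (Vz z)⁻¹ * (Vz z)⁻¹ ≤ q ^ 2 := by
    have h1 := Vz_inv_le z (by omega)
    have h2 : (z : ℝ) ≤ q := hzle.trans (by rw [hq]; exact Real.rpow_le_rpow_of_exponent_le (by linarith) hc14)
    have h3 : (Vz z)⁻¹ ≤ q := h1.trans h2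
    rw [sq]
    exact mul_le_mul h3 h3 hVi0.le (by linarith)
  have hpz : ∀ a ∈ A, ∀ p ∈ pz z, ¬ p ∣ N - a := by
    intro a ha p hp hd
    have h1 := (hA a ha).2.2 p (mem_pz.1 hp).2 hd
    have h2 : (p : ℝ) ≤ z := by exact_mod_cast (mem_pz.1 hp).1
    have h3 : (H : ℝ) ^ c1 ≤ (H : ℝ) ^ (c / 2) := Real.rpow_le_rpow_of_exponent_le (by linarith) hc1c
    have h4 : (H : ℝ) ^ (c / 2) < (H : ℝ) ^ c := Real.rpow_lt_rpow_of_exponent_lt (by linarith) (by linarith)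
    linarith
  -- exponents
  obtain ⟨Y, hY⟩ : ∃ Y : ℕ, Y = ⌊β * H⌋₊ := ⟨_, rfl⟩
  have hYle : (Y : ℝ) ≤ β * H := by rw [hY]; exact Nat.floor_le (by positivity)
  obtain ⟨E, hE⟩ : ∃ E : ℕ, E = Nat.log b (Y / m) := ⟨_, rfl⟩
  have hM : √(H : ℝ) ≤ ((Y / m : ℕ) : ℝ) := by
    have h1 : β * H < Y + 1 := by rw [hY]; exact Nat.lt_floor_add_one _
    have h2 : (Y : ℝ) < m * (((Y / m : ℕ) : ℝ) + 1) := by
      have h3 := Nat.div_add_mod Y m
      have h4 := Nat.mod_lt Y (by omega : 0 < m)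
      have h5 : Y < m * (Y / m + 1) := by rw [mul_add]; omega
      exact_mod_cast h5
    rw [hq2]
    by_contra hcon
    push Not at hcon
    have h6 : (m : ℝ) * (((Y / m : ℕ) : ℝ) + 1) < m * (q ^ 2 + 1) := by
      apply mul_lt_mul_of_pos_left _ (by linarith)
      linarith
    have h7 : β * H = β * q * q ^ 3 := by rw [← hq4]; ring
    have h8 : 4 * m * q ^ 3 ≤ β * q * q ^ 3 := mul_le_mul_of_nonneg_right hmβ' (by positivity)
    have h9 : q ^ 2 + 2 ≤ 4 * q ^ 3 := by nlinarith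
    have h10 : (m : ℝ) * (q ^ 2 + 2) ≤ m * (4 * q ^ 3) := mul_le_mul_of_nonneg_left h9 (by linarith)
    linarith
  have hbE : b ^ E ≤ Y / m := by
    rw [hE]
    apply Nat.pow_log_le_self
    intro h0
    rw [h0, Nat.cast_zero] at hM
    have : 0 < √(H : ℝ) := Real.sqrt_pos.2 hH0
    linarith
  have hbE1 : Y / m < b ^ (E + 1) := by rw [hE]; exact Nat.lt_pow_succ_log_self (by omega) _
  have hHE : (H : ℝ) < (b : ℝ) ^ (2 * (E + 1)) := by
    have h1 : √(H : ℝ) < (b : ℝ) ^ (E + 1) := lt_of_le_of_lt hM (by exact_mod_cast hbE1)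
    have h2 : √(H : ℝ) ^ 2 < ((b : ℝ) ^ (E + 1)) ^ 2 := pow_lt_pow_left₀ h1 (Real.sqrt_nonneg _) (by norm_num)
    rw [Real.sq_sqrt hH0.le, ← pow_mul, mul_comm (E + 1) 2] at h2
    exact h2
  have htE : t ≤ E := by
    by_contra hcon
    push Not at hcon
    have h1 : H < b ^ (2 * (E + 1)) := by exact_mod_cast hHE
    have h2 : b ^ (2 * (E + 1)) ≤ b ^ (2 * t + 2) := Nat.pow_le_pow_right (by omega) (by omega)
    omega
  have hE1 : 1 ≤ E := ht.trans htE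
  have hE1r : (1 : ℝ) ≤ E := by exact_mod_cast hE1
  have hlogHE : Real.log H ≤ 4 * E * Real.log b := by
    have h1 : Real.log H ≤ Real.log ((b : ℝ) ^ (2 * (E + 1))) := Real.log_le_log hH0 hHE.le
    rw [Real.log_pow] at h1
    push_cast at h1
    have h2 : 2 * ((E : ℝ) + 1) * Real.log b ≤ 4 * E * Real.log b := mul_le_mul_of_nonneg_right (by linarith) hlogb.le
    linarith
  have hmE : m * b ^ E ≤ Y := by
    calc m * b ^ E ≤ m * (Y / m) := Nat.mul_le_mul_left _ hbE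
      _ ≤ Y := Nat.mul_div_le Y m
  have hbE0 : 1 ≤ b ^ E := Nat.one_le_pow _ _ (by omega)
  -- the large elements
  obtain ⟨A1, hA1⟩ : ∃ A1, A1 = A.filter (fun a => Y < a) := ⟨_, rfl⟩
  have hcardA1 : κ / 2 * (H / Real.log H) ≤ A1.card := by
    have h1 : A.card ≤ A1.card + ((Icc 1 Y).filter (fun n : ℕ => ∀ p ∈ pz z, ¬ R1 N p n)).card + 1 := by
      have h2 : A ⊆ (A1 ∪ (Icc 1 Y).filter (fun n : ℕ => ∀ p ∈ pz z, ¬ R1 N p n)) ∪ {0} := by
        intro a ha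
        rw [mem_union, mem_union, mem_singleton, hA1, mem_filter, mem_filter, mem_Icc]
        by_cases h3 : Y < a
        · left; left; exact ⟨ha, h3⟩
        · by_cases h4 : a = 0
          · right; exact h4
          · left; right
            refine ⟨⟨by omega, by omega⟩, fun p hp hR => hpz a ha p hp ?_⟩
            unfold R1 at hR
            have h5 : ((N - a : ℕ) : ℤ) = N - a := Nat.cast_sub (hA a ha).2.1
            rw [← h5] at hR
            exact_mod_cast hR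
      refine (card_le_card h2).trans ((card_union_le _ _).trans ?_)
      rw [card_singleton]
      exact Nat.add_le_add_right (card_union_le _ _) 1
    have h3 := (hsv H z (by omega) hzK N).2.1 Y
    have h4 : 2 * Y * Vz z ≤ κ / 4 * (H / Real.log H) := by
      have h5 : Vz z ≤ C2 * 2 / (c1 * Real.log H) := by
        rw [le_div_iff₀ (by positivity)]
        have h6 : Vz z * (c1 / 2 * Real.log H) ≤ Vz z * Real.log z := mul_le_mul_of_nonneg_left hlogz hV0.le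
        linarith
      have h6 : 2 * (Y : ℝ) * Vz z ≤ 2 * (β * H) * (C2 * 2 / (c1 * Real.log H)) :=
        mul_le_mul (by linarith) h5 hV0.le (by positivity)
      refine h6.trans (le_of_eq ?_)
      rw [hβ]
      field_simp
      ring
    have h7 : √(H : ℝ) + 1 ≤ κ / 8 * (H / Real.log H) := by
      rw [hq2, mul_div_assoc', le_div_iff₀ hL]
      have h8 : (q ^ 2 + 1) * Real.log H ≤ (q ^ 2 + 1) * (4 * q) := mul_le_mul_of_nonneg_left hlogq (by positivity)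
      have h9 : (q ^ 2 + 1) * (4 * q) ≤ 8 * q ^ 3 := by nlinarith
      have h10 : 8 * q ^ 3 ≤ κ / 8 * H := by
        rw [← hq4]
        have : 64 * q ^ 3 ≤ κ * q * q ^ 3 := mul_le_mul_of_nonneg_right hk64' (by positivity)
        nlinarith
      linarith
    have h8 : (A.card : ℝ) ≤ A1.card + (((Icc 1 Y).filter (fun n : ℕ => ∀ p ∈ pz z, ¬ R1 N p n)).card : ℝ) + 1 := by
      exact_mod_cast h1
    have h9 : κ * H / Real.log H = κ * (H / Real.log H) := by ring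
    rw [h9] at hAc
    have h10 : 0 ≤ κ * (H / Real.log H) := by positivity
    linarith
  obtain ⟨r, hr, hpig⟩ := pigeon b (by omega) A1
  obtain ⟨i, hi⟩ : ∃ i : ℕ, i = (r + b - 1) % b := ⟨_, rfl⟩
  have hib : i < b := by rw [hi]; exact Nat.mod_lt _ (by omega)
  obtain ⟨A2, hA2⟩ : ∃ A2, A2 = A1.filter (fun a => a % b = r) := ⟨_, rfl⟩
  rw [← hA2] at hpig
  have hA2mem : ∀ a ∈ A2, a ∈ A ∧ Y < a ∧ a % b = r := by
    intro a ha
    rw [hA2, mem_filter, hA1, mem_filter] at ha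
    exact ⟨ha.1.1, ha.1.2, ha.2⟩
  have hYb : b + (1 + s₀) * b ^ E ≤ Y := by
    refine le_trans ?_ hmE
    rw [hm, show (1 + s₀ + b) * b ^ E = (1 + s₀) * b ^ E + b * b ^ E by ring]
    have : b * 1 ≤ b * b ^ E := Nat.mul_le_mul_left _ hbE0
    omega
  obtain ⟨A3, hA3⟩ : ∃ A3, A3 = A2.image (fun a => a - i) := ⟨_, rfl⟩
  have hcardA3 : A3.card = A2.card := by
    rw [hA3]
    apply card_image_of_injOn
    intro a ha a' ha' h
    have h1 := (hA2mem a ha).2.1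
    have h2 := (hA2mem a' ha').2.1
    simp only at h
    omega
  obtain ⟨Ω, hΩ⟩ : ∃ Ω : Finset (ℕ × (Fin s₀ → ℕ × ℕ)), Ω = Ico 1 (1 + E) ×ˢ Ov (fun _ => 1) (fun _ => E) := ⟨_, rfl⟩
  have hΩ1 : ∀ o ∈ Ω, vd b o ≤ (1 + s₀) * b ^ E ∧ b ∣ vd b o ∧ PS b (1 + s₀) (vd b o) := by
    intro o ho
    rw [hΩ] at ho
    refine ⟨?_, ?_, ?_⟩
    · have := vd_le b 1 E E hb (fun _ : Fin s₀ => 1) (fun _ => E) (by omega) (fun _ => by omega) o ho
      rwa [Fintype.card_fin] at this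
    · exact dvd_vd b 1 E (by norm_num) (fun _ : Fin s₀ => 1) (fun _ => E) (fun _ => le_rfl) o ho
    · have := vd_PS b 1 E (fun _ : Fin s₀ => 1) (fun _ => E) o ho
      rwa [Fintype.card_fin] at this
  have hΩne : Ω.Nonempty := by
    rw [← card_pos, hΩ, card_product, Nat.card_Ico, card_Ov]
    apply Nat.mul_pos (by omega)
    apply prod_pos
    intro _ _
    omega
  have hsup := support_bound b H z ((N : ℤ) - i) Ω A3 (by
    intro a' ha'
    rw [hA3, mem_image] at ha'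
    obtain ⟨a, ha, rfl⟩ := ha'
    obtain ⟨h1, h2, h3⟩ := hA2mem a ha
    obtain ⟨g1, g2, g3⟩ := hA a h1
    refine ⟨fun o ho => ?_, by omega, fun p hp hR => hpz a h1 p hp ?_⟩
    · have := (hΩ1 o ho).1
      omega
    · unfold R1 at hR
      have h5 : ((N - a : ℕ) : ℤ) = (N : ℤ) - i - ((a - i : ℕ) : ℤ) := by
        rw [Nat.cast_sub g2, Nat.cast_sub (by omega)]
        ring
      rw [← h5] at hR
      exact_mod_cast hR)
  obtain ⟨S, hS⟩ : ∃ S, S = (Icc 1 H).filter (fun y => ∃ o ∈ Ω, y + vd b o ∈ A3) := ⟨_, rfl⟩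
  rw [← hS, hcardA3] at hsup
  obtain ⟨O, hO⟩ : ∃ O : ℝ, O = (Ω.card : ℝ) := ⟨_, rfl⟩
  have hO0 : 0 < O := by rw [hO]; exact_mod_cast hΩne.card_pos
  rw [← hO] at hsup
  obtain ⟨W, hW⟩ : ∃ W : ℝ, W = ∑ o ∈ Ω, ∑ o' ∈ Ω, (((Icc 1 H).filter (fun n : ℕ => ∀ p ∈ pz z, ¬ R2 ((N : ℤ) - i) ((vd b o : ℤ) - vd b o').natAbs p n)).card : ℝ) := ⟨_, rfl⟩
  rw [← hW] at hsup
  have hWle : (Vz z)⁻¹ * (Vz z)⁻¹ * W ≤ O ^ 2 * H * C6 := by
    have h1 : (Vz z)⁻¹ * (Vz z)⁻¹ * W ≤ ∑ o ∈ Ω, ∑ o' ∈ Ω, (2 * H * sg z ((vd b o : ℤ) - vd b o').natAbs + H) := by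
      rw [hW, mul_sum]
      apply sum_le_sum
      intro o _
      rw [mul_sum]
      apply sum_le_sum
      intro o' _
      refine ((hsv H z (by omega) hzK ((N : ℤ) - i)).1 _).trans ?_
      have h2 : (Vz z)⁻¹ * (Vz z)⁻¹ * √(H : ℝ) ≤ H := by
        rw [hq2]
        calc (Vz z)⁻¹ * (Vz z)⁻¹ * q ^ 2 ≤ q ^ 2 * q ^ 2 := mul_le_mul_of_nonneg_right hVi2 (by positivity)
          _ = H := by rw [← hq4]; ring
      linarith
    have h2 : ∑ o ∈ Ω, ∑ o' ∈ Ω, (2 * H * sg z ((vd b o : ℤ) - vd b o').natAbs + (H : ℝ)) =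
        2 * H * ∑ o ∈ Ω, ∑ o' ∈ Ω, sg z ((vd b o : ℤ) - vd b o').natAbs + O ^ 2 * H := by
      have e : ∀ o ∈ Ω, ∑ o' ∈ Ω, (2 * H * sg z ((vd b o : ℤ) - vd b o').natAbs + (H : ℝ)) =
          2 * H * ∑ o' ∈ Ω, sg z ((vd b o : ℤ) - vd b o').natAbs + O * H := by
        intro o _
        rw [sum_add_distrib, ← mul_sum, sum_const, nsmul_eq_mul, hO]
      rw [sum_congr rfl e, sum_add_distrib, ← mul_sum, sum_const, nsmul_eq_mul, ← hO]
      ring
    have h3 := hsing (Fin s₀) (by rw [Fintype.card_fin]) z (by omega) 1 E hE1 (fun _ => 1) (fun _ => E) (fun _ => htE)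
    rw [← hΩ, ← hO] at h3
    have h4 : C5 * Real.log z / E ≤ 4 * C5 * Real.log b := by
      rw [div_le_iff₀ (by linarith)]
      have h5 : Real.log z ≤ Real.log H := by
        apply Real.log_le_log hz0
        refine hzle.trans ?_
        calc (H : ℝ) ^ c1 ≤ (H : ℝ) ^ (1 : ℝ) := Real.rpow_le_rpow_of_exponent_le (by linarith) (by linarith)
          _ = H := Real.rpow_one _
      calc C5 * Real.log z ≤ C5 * (4 * E * Real.log b) := mul_le_mul_of_nonneg_left (h5.trans hlogHE) hC5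
        _ = _ := by ring
    have h6 : ∑ o ∈ Ω, ∑ o' ∈ Ω, sg z ((vd b o : ℤ) - vd b o').natAbs ≤ B0 b * (O ^ 2 * (2 + 4 * C5 * Real.log b)) := by
      refine h3.trans ?_
      apply mul_le_mul_of_nonneg_left _ (by linarith)
      apply mul_le_mul_of_nonneg_left _ (sq_nonneg _)
      linarith
    rw [h2] at h1
    refine h1.trans ?_
    have h7 : 2 * (H : ℝ) * ∑ o ∈ Ω, ∑ o' ∈ Ω, sg z ((vd b o : ℤ) - vd b o').natAbs ≤ 2 * H * (B0 b * (O ^ 2 * (2 + 4 * C5 * Real.log b))) :=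
      mul_le_mul_of_nonneg_left h6 (by positivity)
    calc _ ≤ 2 * (H : ℝ) * (B0 b * (O ^ 2 * (2 + 4 * C5 * Real.log b))) + O ^ 2 * H := by linarith
      _ = _ := by rw [hC6]; ring
  have hmain : ((Vz z)⁻¹ * A2.card) ^ 2 ≤ S.card * (H * C6) := by
    have h1 : O ^ 2 * ((Vz z)⁻¹ * A2.card) ^ 2 ≤ O ^ 2 * (S.card * (H * C6)) := by
      calc O ^ 2 * ((Vz z)⁻¹ * A2.card) ^ 2 = (Vz z)⁻¹ * (Vz z)⁻¹ * (O * A2.card) ^ 2 := by ring
        _ ≤ (Vz z)⁻¹ * (Vz z)⁻¹ * (S.card * W) := mul_le_mul_of_nonneg_left hsup (by positivity)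
        _ = S.card * ((Vz z)⁻¹ * (Vz z)⁻¹ * W) := by ring
        _ ≤ S.card * (O ^ 2 * H * C6) := mul_le_mul_of_nonneg_left hWle (Nat.cast_nonneg _)
        _ = _ := by ring
    exact le_of_mul_le_mul_left h1 (by positivity)
  have hlow : κ1 * H ≤ (Vz z)⁻¹ * A2.card := by
    have h1 : (A1.card : ℝ) ≤ b * A2.card := by exact_mod_cast hpig
    have h2 : κ / 2 * (H / Real.log H) / b ≤ A2.card := by
      rw [div_le_iff₀ (by linarith)]
      linarith
    have h3 : c1 / 2 * Real.log H / C2 ≤ (Vz z)⁻¹ := by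
      rw [div_le_iff₀ (by linarith), ← div_eq_inv_mul, le_div_iff₀ hV0]
      have h6 : Vz z * (c1 / 2 * Real.log H) ≤ Vz z * Real.log z := mul_le_mul_of_nonneg_left hlogz hV0.le
      linarith
    calc κ1 * H = (c1 / 2 * Real.log H / C2) * (κ / 2 * (H / Real.log H) / b) := by
          rw [hκ1]
          field_simp
          ring
      _ ≤ _ := mul_le_mul h3 h2 (by positivity) hVi0.le
  have hScard : κ1 ^ 2 / C6 * H ≤ S.card := by
    have h1 : (κ1 * H) ^ 2 ≤ S.card * (H * C6) := (pow_le_pow_left₀ (by positivity) hlow 2).trans hmain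
    rw [div_mul_eq_mul_div, div_le_iff₀ (by linarith)]
    have h2 : H * (κ1 ^ 2 * H) ≤ H * (S.card * C6) := by
      calc H * (κ1 ^ 2 * H) = (κ1 * H) ^ 2 := by ring
        _ ≤ _ := h1
        _ = _ := by ring
    exact le_of_mul_le_mul_left h2 hH0
  refine hScard.trans ?_
  have hsub : S ⊆ (Icc 1 H).filter (fun y => b.Coprime y ∧ ∃ a ∈ A, y ≤ a ∧ PS b (1 + s₀ + b) (a - y)) := by
    intro y hy
    rw [hS, mem_filter, mem_Icc] at hy
    obtain ⟨hy1, o, ho, hyo⟩ := hy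
    rw [hA3, mem_image] at hyo
    obtain ⟨a, ha, hao⟩ := hyo
    obtain ⟨h1, h2, h3⟩ := hA2mem a ha
    obtain ⟨g1, g2, g3⟩ := hΩ1 o ho
    rw [mem_filter, mem_Icc]
    refine ⟨hy1, ?_, a, h1, by omega, ?_⟩
    · -- coprime
      obtain ⟨k, hk⟩ := g2
      have h5 : y % b = 1 % b := by
        have h6 : (y + b * k) + i = a := by rw [← hk]; omega
        have h7 : ((y + b * k) + i) % b = r := by rw [h6]; exact h3
        have h8 : (y + i) % b = r := by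
          rw [← h7]
          have : y + b * k + i = (y + i) + b * k := by ring
          rw [this, Nat.add_mul_mod_self_left]
        have h9 : (i + 1) % b = r % b := by
          rw [hi, Nat.mod_add_mod]
          have : r + b - 1 + 1 = r + b := by omega
          rw [this, Nat.add_mod_right]
        have h10 : (y + i) % b = (i + 1) % b := by
          rw [h8, h9, Nat.mod_eq_of_lt hr]
        have h11 : y + i ≡ 1 + i [MOD b] := by
          unfold Nat.ModEq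
          rw [h10, add_comm]
        exact Nat.ModEq.add_right_cancel' i h11
      rw [Nat.mod_eq_of_lt (by omega : 1 < b)] at h5
      unfold Nat.Coprime
      rw [Nat.gcd_rec, h5, Nat.gcd_one_left]
    · have h5 : a - y = vd b o + i := by omega
      rw [h5]
      exact PS_add b _ _ _ _ g3 (PS_mono b i b i (PS_ones b i) hib.le)
  exact_mod_cast card_le_card hsub

end Pool.Agent.H86.DL
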