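import Pool.Agent.H86.S4
import Pool.Graph.R_seed8.H295R3.Hoheisel

set_option autoImplicit false
set_option linter.unusedSectionVars false

/-! Local Goldbach-Linnik theorem: a small prime, an integer of a set without small prime factors and powers of `b`. -/

namespace Pool.Agent.H86.DL
open Finset
open Pool.Agent.H373R2.T7
open Pool.Agent.W93.DG
open Pool.Agent.W93.HD

open Classical in
theorem local_linnik (b : ℕ) (hb : 2 ≤ b) (c κ : ℝ) (hc : 0 < c) (hκ : 0 < κ) : ∃ (η : ℝ) (K H₀ : ℕ), 0 < η ∧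
    ∀ H : ℕ, H₀ ≤ H → ∀ N : ℕ, 2 * H < N → ∀ P Q : Finset ℕ,
    (∀ p ∈ P, p.Prime ∧ p ≤ H) → (1 - η) * (Nat.primeCounting H : ℝ) ≤ P.card →
    (∀ q ∈ Q, N ≤ q + H ∧ q ≤ N ∧ ∀ r : ℕ, r.Prime → r ∣ q → (H : ℝ) ^ c ≤ r) → κ * H / Real.log H ≤ Q.card →
    ∃ p ∈ P, ∃ q ∈ Q, p < q ∧ p + q ≤ N ∧ PS b K (N - (p + q)) := by
  obtain ⟨s₂, κ', H₂, hκ', h2⟩ := spread b hb c κ hc hκ
  obtain ⟨s₁, η, H₁, hη, h1⟩ := cover b hb (κ' / 2) (by positivity)
  refine ⟨η, s₁ + (s₂ + 1), H₁ + H₂ + 1, hη, fun H hH N hN P Q hP hPc hQ hQc => ?_⟩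
  have hH0 : (1 : ℝ) ≤ H := by exact_mod_cast (by omega : 1 ≤ H)
  have g1 := h1 H (by omega) P hP hPc
  obtain ⟨A, hA⟩ : ∃ A, A = Q.image (fun q => N - q) := ⟨_, rfl⟩
  have hAc : A.card = Q.card := by
    rw [hA]
    apply card_image_of_injOn
    intro q hq q' hq' h
    have e1 := (hQ q hq).2.1
    have e2 := (hQ q' hq').2.1
    simp only at h
    omega
  have g2 := h2 H (by omega) N A (by
    intro a ha
    rw [hA, mem_image] at ha
    obtain ⟨q, hq, rfl⟩ := ha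
    obtain ⟨e1, e2, e3⟩ := hQ q hq
    refine ⟨by omega, by omega, ?_⟩
    have e4 : N - (N - q) = q := by omega
    rw [e4]
    exact e3) (by rw [hAc]; exact hQc)
  obtain ⟨Z, hZ⟩ : ∃ Z, Z = (Icc 1 H).filter (fun x => b.Coprime x ∧ ¬ ∃ p ∈ P, p ≤ x ∧ PS b s₁ (x - p)) := ⟨_, rfl⟩
  obtain ⟨S, hS⟩ : ∃ S, S = (Icc 1 H).filter (fun y => b.Coprime y ∧ ∃ a ∈ A, y ≤ a ∧ PS b s₂ (a - y)) := ⟨_, rfl⟩
  rw [← hZ] at g1
  rw [← hS] at g2
  have hlt : Z.card < S.card := by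
    have h3 : (Z.card : ℝ) < S.card := by
      have : 0 < κ' * H := by positivity
      linarith
    exact_mod_cast h3
  obtain ⟨x, hxS, hxZ⟩ : ∃ x ∈ S, x ∉ Z := by
    by_contra hcon
    push Not at hcon
    exact absurd (card_le_card hcon) (by omega)
  rw [hS, mem_filter] at hxS
  obtain ⟨hx1, hx2, a, ha, hxa, hps⟩ := hxS
  rw [hZ, mem_filter, not_and, not_and, not_not] at hxZ
  obtain ⟨p, hp, hpx, hps'⟩ := hxZ hx1 hx2
  rw [hA, mem_image] at ha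
  obtain ⟨q, hq, rfl⟩ := ha
  obtain ⟨e1, e2, e3⟩ := hQ q hq
  have hp2 := (hP p hp).1.two_le
  have hpH := (hP p hp).2
  rw [mem_Icc] at hx1
  refine ⟨p, hp, q, hq, by omega, by omega, ?_⟩
  have e4 : N - (p + q) = (x - p) + (N - q - x) := by omega
  rw [e4]
  exact PS_mono b _ _ _ (PS_add b _ _ _ _ hps' hps) (by omega)

open Classical in
/-- Hoheisel's theorem gives a small prime for every large `N` -/
theorem small_prime : ∃ δ : ℝ, 0 < δ ∧ δ < 1 ∧ ∀ b : ℕ, 2 ≤ b → ∃ K N₀ : ℕ, ∀ N : ℕ, N₀ ≤ N → ∀ H : ℕ,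
    (N : ℝ) ^ (1 - δ) ≤ H → ∃ p q : ℕ, p.Prime ∧ q.Prime ∧ p < q ∧ p ≤ H ∧ N ≤ q + H ∧ p + q ≤ N ∧ PS b K (N - (p + q)) := by
  obtain ⟨δ, η', hδ0, hδ1, hη', X₀, hX₀, hho⟩ := Pool.Agent.H295R3.D.hoheisel
  refine ⟨δ, hδ0, hδ1, fun b hb => ?_⟩
  obtain ⟨η, K, H₀, hη, hloc⟩ := local_linnik b hb (1 / 2) (η' * (1 - δ)) (by norm_num) (mul_pos hη' (by linarith))
  obtain ⟨n1, hn1⟩ := ev_rpow (1 - δ) (H₀ + 4) (by linarith)
  obtain ⟨n2, hn2⟩ := ev_rpow δ 4 hδ0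
  refine ⟨K, n1 + n2 + 2 * X₀ + 2 * H₀ + 8, fun N hN H hNH => ?_⟩
  obtain ⟨H', hH'⟩ : ∃ H', H' = min H ((N - 1) / 2) := ⟨_, rfl⟩
  have hH'H : H' ≤ H := by rw [hH']; exact min_le_left _ _
  have hH'N : 2 * H' < N := by
    have : H' ≤ (N - 1) / 2 := by rw [hH']; exact min_le_right _ _
    omega
  have hN0 : (8 : ℝ) ≤ N := by exact_mod_cast (by omega : 8 ≤ N)
  have e1 := hn1 N (by omega)
  have e2 := hn2 N (by omega)
  have hNd : (N : ℝ) ^ (1 - δ) ≤ H' := by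
    rw [hH']
    rcases le_total H ((N - 1) / 2) with h | h
    · rw [min_eq_left h]; exact hNH
    · rw [min_eq_right h]
      have h1 : (N : ℝ) ^ (1 - δ) * (N : ℝ) ^ δ = N := by
        rw [← Real.rpow_add (by linarith), sub_add_cancel, Real.rpow_one]
      have h2 : (N : ℝ) ^ (1 - δ) * 4 ≤ N := by
        calc (N : ℝ) ^ (1 - δ) * 4 ≤ (N : ℝ) ^ (1 - δ) * (N : ℝ) ^ δ := mul_le_mul_of_nonneg_left e2 (by positivity)
          _ = N := h1
      have h3 : (N : ℝ) ≤ 4 * (((N - 1) / 2 : ℕ) : ℝ) := by exact_mod_cast (by omega : N ≤ 4 * ((N - 1) / 2))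
      linarith
  have hH'0 : (H₀ : ℝ) + 4 ≤ H' := e1.trans hNd
  have hH'0' : H₀ + 4 ≤ H' := by exact_mod_cast hH'0
  obtain ⟨X, hX⟩ : ∃ X, X = N - H' := ⟨_, rfl⟩
  have hXN : (X : ℝ) ≤ N := by exact_mod_cast (by omega : X ≤ N)
  have hX4 : (4 : ℝ) ≤ X := by exact_mod_cast (by omega : 4 ≤ X)
  have hXd : (X : ℝ) ^ (1 - δ) ≤ H' := (Real.rpow_le_rpow (by linarith) hXN (by linarith)).trans hNd
  have hcount := hho X H' (by omega) hXd (by omega)
  obtain ⟨Q, hQ⟩ : ∃ Q, Q = (Ioc X (X + H')).filter Nat.Prime := ⟨_, rfl⟩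
  rw [← hQ] at hcount
  have hH'r : (4 : ℝ) ≤ H' := by
    have : (0 : ℝ) ≤ H₀ := Nat.cast_nonneg _
    linarith
  have hlogX : 0 < Real.log X := Real.log_pos (by linarith)
  have hlogH : 0 < Real.log H' := Real.log_pos (by linarith)
  obtain ⟨p, hp, q, hq, hpq, hsum, hps⟩ := hloc H' (by omega) N hH'N ((Icc 1 H').filter Nat.Prime) Q
    (fun p hp => by
      rw [mem_filter, mem_Icc] at hp
      exact ⟨hp.2, hp.1.2⟩)
    (by
      have h1 : ((Icc 1 H').filter Nat.Prime).card = Nat.primeCounting H' := by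
        rw [Nat.primeCounting, Nat.primeCounting', Nat.count_eq_card_filter_range]
        congr 1
        ext p
        rw [mem_filter, mem_filter, mem_Icc, mem_range]
        constructor
        · rintro ⟨h1, h2⟩; exact ⟨by omega, h2⟩
        · rintro ⟨h1, h2⟩; exact ⟨⟨h2.one_le, by omega⟩, h2⟩
      rw [h1]
      have h2 : (0 : ℝ) ≤ Nat.primeCounting H' := Nat.cast_nonneg _
      nlinarith)
    (fun q hq => by
      rw [hQ, mem_filter, mem_Ioc] at hq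
      refine ⟨by omega, by omega, fun r hr hrq => ?_⟩
      have h1 : r = q := (Nat.prime_dvd_prime_iff_eq hr hq.2).1 hrq
      rw [h1]
      have h2 : (H' : ℝ) ≤ q := by exact_mod_cast (by omega : H' ≤ q)
      refine le_trans ?_ h2
      calc (H' : ℝ) ^ (1 / 2 : ℝ) ≤ (H' : ℝ) ^ (1 : ℝ) := Real.rpow_le_rpow_of_exponent_le (by linarith) (by norm_num)
        _ = H' := Real.rpow_one _)
    (by
      refine le_trans ?_ hcount
      rw [div_le_div_iff₀ hlogH hlogX]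
      have h1 : (1 - δ) * Real.log X ≤ Real.log H' := by
        rw [← Real.log_rpow (by linarith)]
        exact Real.log_le_log (by positivity) hXd
      have h2 : η' * H' * ((1 - δ) * Real.log X) ≤ η' * H' * Real.log H' := mul_le_mul_of_nonneg_left h1 (by positivity)
      calc η' * (1 - δ) * H' * Real.log X = η' * H' * ((1 - δ) * Real.log X) := by ring
        _ ≤ _ := h2)
  rw [mem_filter, mem_Icc] at hp
  rw [hQ, mem_filter, mem_Ioc] at hq
  exact ⟨p, q, hp.2, hq.2, hpq, by omega, by omega, hsum, hps⟩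

open Classical in
/-- rough numbers: every `N`, every `H` -/
theorem small_prime_rough : ∃ c₁ : ℝ, 0 < c₁ ∧ ∀ b : ℕ, 2 ≤ b → ∃ K H₀ : ℕ, ∀ H : ℕ, H₀ ≤ H → ∀ N : ℕ, 2 * H < N →
    ∃ p m : ℕ, p.Prime ∧ p ≤ H ∧ N ≤ m + H ∧ (∀ r : ℕ, r.Prime → r ∣ m → (H : ℝ) ^ c₁ ≤ r) ∧ p + m ≤ N ∧ PS b K (N - (p + m)) := by
  obtain ⟨K1, x0, hK1, hsv⟩ := refl_sieve
  obtain ⟨C1, hC1, hVi⟩ := Vz_inv_log
  have hK1r : (1 : ℝ) ≤ K1 := by exact_mod_cast hK1
  obtain ⟨c1, hc1⟩ : ∃ c1 : ℝ, c1 = 1 / (4 * K1) := ⟨_, rfl⟩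
  have hc10 : 0 < c1 := by rw [hc1]; positivity
  have hc1K' : c1 * K1 = 1 / 4 := by rw [hc1]; field_simp
  have hc11 : c1 ≤ 1 := by nlinarith
  refine ⟨c1, hc10, fun b hb => ?_⟩
  obtain ⟨κ, hκ⟩ : ∃ κ : ℝ, κ = 1 / (4 * C1) := ⟨_, rfl⟩
  have hκ0 : 0 < κ := by rw [hκ]; positivity
  obtain ⟨η, K, H₀, hη, hloc⟩ := local_linnik b hb c1 κ hc10 hκ0
  obtain ⟨n1, hn1⟩ := ev_rpow c1 (x0 + 4) hc10
  obtain ⟨n2, hn2⟩ := ev_rpow (1 / 4) (16 * C1 + 1) (by norm_num)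
  refine ⟨K, H₀ + n1 + n2 + 3, fun H hH N hN => ?_⟩
  have e1 := hn1 H (by omega)
  have e2 := hn2 H (by omega)
  have hH3 : (3 : ℝ) ≤ H := by exact_mod_cast (by omega : 3 ≤ H)
  have hH0 : (0 : ℝ) < H := by linarith
  have hL : 0 < Real.log H := Real.log_pos (by linarith)
  obtain ⟨q, hq⟩ : ∃ q : ℝ, q = (H : ℝ) ^ (1 / 4 : ℝ) := ⟨_, rfl⟩
  rw [← hq] at e2
  have hq4 : q ^ 4 = H := by
    rw [hq, ← Real.rpow_natCast, ← Real.rpow_mul hH0.le]
    norm_num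
  have hq2 : √(H : ℝ) = q ^ 2 := by
    rw [← hq4, show q ^ 4 = (q ^ 2) ^ 2 by ring]
    exact Real.sqrt_sq (sq_nonneg q)
  have hlogq : Real.log H ≤ 4 * q := by
    have h1 := Real.log_le_rpow_div hH0.le (by norm_num : (0 : ℝ) < 1 / 4)
    rw [← hq] at h1
    linarith
  have hq1 : 1 ≤ q := by linarith
  obtain ⟨z, hz⟩ : ∃ z : ℕ, z = ⌊(H : ℝ) ^ c1⌋₊ := ⟨_, rfl⟩
  have hzle : (z : ℝ) ≤ (H : ℝ) ^ c1 := by rw [hz]; exact Nat.floor_le (by positivity)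
  have hzlt : (H : ℝ) ^ c1 < z + 1 := by rw [hz]; exact Nat.lt_floor_add_one _
  have hx00 : (0 : ℝ) ≤ x0 := Nat.cast_nonneg _
  have hz3 : (x0 : ℝ) + 3 < z + 1 + 0 := by linarith
  have hz4' : x0 + 3 ≤ z := by
    have : (x0 : ℝ) + 3 < z + 1 := by linarith
    have h2 : x0 + 3 < z + 1 := by exact_mod_cast this
    omega
  have hz0 : (0 : ℝ) < z := by exact_mod_cast (by omega : 0 < z)
  have hzK : z ^ K1 ≤ H := by
    have h1 : ((z : ℝ)) ^ K1 ≤ ((H : ℝ) ^ c1) ^ K1 := pow_le_pow_left₀ hz0.le hzle _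
    have h2 : ((H : ℝ) ^ c1) ^ K1 = (H : ℝ) ^ (c1 * K1) := by
      rw [← Real.rpow_natCast, ← Real.rpow_mul hH0.le]
    have h3 : (H : ℝ) ^ (c1 * K1) ≤ (H : ℝ) ^ (1 : ℝ) := Real.rpow_le_rpow_of_exponent_le (by linarith) (by rw [hc1K']; norm_num)
    rw [Real.rpow_one] at h3
    have h4 : (z : ℝ) ^ K1 ≤ H := h1.trans (by rw [h2]; exact h3)
    exact_mod_cast h4
  have hV0 := Vz_pos z
  have hVz := hVi z (by omega)
  have hlogz0 : 0 < Real.log z := Real.log_pos (by exact_mod_cast (by omega : 1 < z))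
  have hlogz : Real.log z ≤ Real.log H := by
    apply Real.log_le_log hz0
    refine hzle.trans ?_
    calc (H : ℝ) ^ c1 ≤ (H : ℝ) ^ (1 : ℝ) := Real.rpow_le_rpow_of_exponent_le (by linarith) (by linarith)
      _ = H := Real.rpow_one _
  have hVge : 1 / (C1 * Real.log H) ≤ Vz z := by
    rw [div_le_iff₀ (by positivity)]
    have h1 : 1 = Vz z * (Vz z)⁻¹ := by rw [mul_inv_cancel₀ hV0.ne']
    calc (1 : ℝ) = Vz z * (Vz z)⁻¹ := h1
      _ ≤ Vz z * (C1 * Real.log z) := mul_le_mul_of_nonneg_left hVz hV0.le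
      _ ≤ Vz z * (C1 * Real.log H) := by
          apply mul_le_mul_of_nonneg_left _ hV0.le
          exact mul_le_mul_of_nonneg_left hlogz (by linarith)
  obtain ⟨A, hA⟩ : ∃ A, A = (Icc 1 H).filter (fun n : ℕ => ∀ p ∈ pz z, ¬ R1 N p n) := ⟨_, rfl⟩
  have hAc : κ * H / Real.log H ≤ A.card := by
    have h1 := (hsv H z (by omega) hzK N).2.2 H
    rw [← hA] at h1
    refine le_trans ?_ h1
    have h2 : 1 / 2 * (H : ℝ) * (1 / (C1 * Real.log H)) ≤ 1 / 2 * H * Vz z := mul_le_mul_of_nonneg_left hVge (by positivity)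
    have h3 : √(H : ℝ) ≤ κ * H / Real.log H := by
      rw [hq2, le_div_iff₀ hL, hκ]
      have h4 : q ^ 2 * Real.log H ≤ q ^ 2 * (4 * q) := mul_le_mul_of_nonneg_left hlogq (by positivity)
      have h5 : q ^ 2 * (4 * q) ≤ 1 / (4 * C1) * H := by
        rw [← hq4, div_mul_eq_mul_div, one_mul, le_div_iff₀ (by positivity)]
        have h6 : 16 * C1 * q ^ 3 ≤ q * q ^ 3 := mul_le_mul_of_nonneg_right (by linarith) (by positivity)
        nlinarith
      linarith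
    have h4 : 1 / 2 * (H : ℝ) * (1 / (C1 * Real.log H)) = 2 * (κ * H / Real.log H) := by
      rw [hκ]
      field_simp
      ring
    linarith
  obtain ⟨Q, hQ⟩ : ∃ Q, Q = A.image (fun n => N - n) := ⟨_, rfl⟩
  have hQA : Q.card = A.card := by
    rw [hQ]
    apply card_image_of_injOn
    intro a ha a' ha' h
    rw [hA, mem_coe, mem_filter, mem_Icc] at ha ha'
    simp only at h
    omega
  obtain ⟨p, hp, m, hm, hpq, hsum, hps⟩ := hloc H (by omega) N hN ((Icc 1 H).filter Nat.Prime) Q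
    (fun p hp => by
      rw [mem_filter, mem_Icc] at hp
      exact ⟨hp.2, hp.1.2⟩)
    (by
      have h1 : ((Icc 1 H).filter Nat.Prime).card = Nat.primeCounting H := by
        rw [Nat.primeCounting, Nat.primeCounting', Nat.count_eq_card_filter_range]
        congr 1
        ext p
        rw [mem_filter, mem_filter, mem_Icc, mem_range]
        constructor
        · rintro ⟨h1, h2⟩; exact ⟨by omega, h2⟩
        · rintro ⟨h1, h2⟩; exact ⟨⟨h2.one_le, by omega⟩, h2⟩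
      rw [h1]
      have h2 : (0 : ℝ) ≤ Nat.primeCounting H := Nat.cast_nonneg _
      nlinarith)
    (fun m hm => by
      rw [hQ, mem_image] at hm
      obtain ⟨a, ha, rfl⟩ := hm
      rw [hA, mem_filter, mem_Icc] at ha
      refine ⟨by omega, by omega, fun r hr hrq => ?_⟩
      by_contra hcon
      push Not at hcon
      have h1 : (r : ℝ) < z + 1 := lt_trans hcon hzlt
      have h2 : r < z + 1 := by exact_mod_cast h1
      apply ha.2 r (mem_pz.2 ⟨by omega, hr⟩)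
      unfold R1
      have h5 : ((N - a : ℕ) : ℤ) = (N : ℤ) - a := Nat.cast_sub (by omega)
      rw [← h5]
      exact_mod_cast hrq)
    (by rw [hQA]; exact hAc)
  rw [mem_filter, mem_Icc] at hp
  rw [hQ, mem_image] at hm
  obtain ⟨a, ha, rfl⟩ := hm
  rw [hA, mem_filter, mem_Icc] at ha
  refine ⟨p, N - a, hp.2, by omega, by omega, fun r hr hrq => ?_, hsum, hps⟩
  by_contra hcon
  push Not at hcon
  have h1 : (r : ℝ) < z + 1 := lt_trans hcon hzlt
  have h2 : r < z + 1 := by exact_mod_cast h1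
  apply ha.2 r (mem_pz.2 ⟨by omega, hr⟩)
  unfold R1
  have h5 : ((N - a : ℕ) : ℤ) = (N : ℤ) - a := Nat.cast_sub (by omega)
  rw [← h5]
  exact_mod_cast hrq

end Pool.Agent.H86.DL
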