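import Pool.Agent.H86.S5

set_option autoImplicit false
set_option linter.unusedSectionVars false

/-! The local Goldbach-Linnik theorem for the linear forms `a p + a' q`. -/

namespace Pool.Agent.H86.DL
open Finset
open Pool.Agent.H373R2.T7
open Pool.Agent.W93.DG
open Pool.Agent.W93.HD

lemma PS_mul (b k n a : ℕ) (h : PS b k n) : PS b (a * k) (a * n) := by
  induction a with
  | zero => simpa using PS_zero b 0
  | succ a ih =>
    rw [Nat.add_mul, Nat.add_mul, one_mul, one_mul]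
    exact PS_add b _ _ _ _ ih h

/-- solving congruences modulo all the primes below a bound -/
lemma crt_primes (B : ℕ) (f : ℕ → ℕ) (M : ℕ) : ∃ n : ℕ, M ≤ n ∧ ∀ r < B, r.Prime → n ≡ f r [MOD r] := by
  classical
  obtain ⟨S, hS⟩ : ∃ S, S = (range B).filter Nat.Prime := ⟨_, rfl⟩
  obtain ⟨k, hk⟩ := Nat.chineseRemainderOfFinset f id S (fun i hi => by
    rw [hS, mem_filter] at hi
    exact hi.2.ne_zero) (by
    intro i hi j hj hij
    rw [hS, mem_coe, mem_filter] at hi hj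
    exact (Nat.coprime_primes hi.2 hj.2).2 hij)
  refine ⟨k + M * ∏ r ∈ S, r, ?_, fun r hr hp => ?_⟩
  · have h1 : 1 ≤ ∏ r ∈ S, r := Nat.pos_of_ne_zero (prod_ne_zero_iff.2 fun r hr => by
      rw [hS, mem_filter] at hr
      exact hr.2.ne_zero)
    nlinarith
  · have hrS : r ∈ S := by rw [hS, mem_filter, mem_range]; exact ⟨hr, hp⟩
    have h1 := hk r hrS
    have h2 : r ∣ M * ∏ r ∈ S, r := (dvd_prod_of_mem _ hrS).mul_left M
    have h3 : k + M * ∏ r ∈ S, r ≡ k + 0 [MOD r] := Nat.ModEq.add_left k ((Nat.modEq_zero_iff_dvd).2 h2)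
    exact h3.trans h1

open Classical in
theorem local_linnik_forms (a a' b : ℕ) (ha : 1 ≤ a) (ha' : 1 ≤ a') (hb : 2 ≤ b) (c κ : ℝ) (hc : 0 < c) (hκ : 0 < κ) :
    ∃ (η : ℝ) (K H₀ : ℕ), 0 < η ∧
    ∀ H : ℕ, H₀ ≤ H → ∀ N : ℕ, ∀ P Q : Finset ℕ,
    (∀ p ∈ P, p.Prime ∧ p ≤ H) → (1 - η) * (Nat.primeCounting H : ℝ) ≤ P.card →
    (∀ q ∈ Q, N ≤ a' * q + a * H ∧ a' * q ≤ N ∧ ∀ r : ℕ, r.Prime → r ∣ q → (H : ℝ) ^ c ≤ r) → κ * H / Real.log H ≤ Q.card →
    ∃ p ∈ P, ∃ q ∈ Q, a * p + a' * q ≤ N ∧ PS b K (N - (a * p + a' * q)) := by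
  have har : (1 : ℝ) ≤ a := by exact_mod_cast ha
  have har' : (1 : ℝ) ≤ a' := by exact_mod_cast ha'
  obtain ⟨s₂, κ', H₂, hκ', h2⟩ := spread b hb c (κ / (a * (a * a'))) hc (by positivity)
  obtain ⟨s₁, η, H₁, hη, h1⟩ := cover b hb (κ' / 2) (by positivity)
  obtain ⟨n1, hn1⟩ := ev_rpow c (a * a' + 1) hc
  refine ⟨η, a * s₁ + a * s₂ + a, H₁ + H₂ + n1 + 1, hη, fun H hH N P Q hP hPc hQ hQc => ?_⟩
  have hH0 : (1 : ℝ) ≤ H := by exact_mod_cast (by omega : 1 ≤ H)
  have g1 := h1 H (by omega) P hP hPc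
  have hHc := hn1 H (by omega)
  -- residue classes
  obtain ⟨i, hia, hi⟩ : ∃ i < a, Q.card ≤ a * (Q.filter (fun q => (N - a' * q) % a = i)).card := by
    by_contra hcon
    push Not at hcon
    have e1 : Q.card = ∑ r ∈ range a, (Q.filter (fun q => (N - a' * q) % a = r)).card :=
      card_eq_sum_card_fiberwise (fun q _ => by
        rw [mem_coe, mem_range]
        exact Nat.mod_lt _ (by omega))
    have e2 : ∑ r ∈ range a, a * (Q.filter (fun q => (N - a' * q) % a = r)).card < ∑ r ∈ range a, Q.card :=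
      sum_lt_sum_of_nonempty ⟨0, mem_range.2 (by omega)⟩ (fun r hr => hcon r (mem_range.1 hr))
    rw [← mul_sum, ← e1, sum_const, card_range, smul_eq_mul] at e2
    exact lt_irrefl _ e2
  obtain ⟨Q1, hQ1⟩ : ∃ Q1, Q1 = Q.filter (fun q => (N - a' * q) % a = i) := ⟨_, rfl⟩
  rw [← hQ1] at hi
  have hQ1mem : ∀ q ∈ Q1, q ∈ Q ∧ N = a' * q + a * ((N - a' * q) / a) + i := by
    intro q hq
    rw [hQ1, mem_filter] at hq
    refine ⟨hq.1, ?_⟩
    have e1 := (hQ q hq.1).2.1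
    have e2 := Nat.div_add_mod (N - a' * q) a
    rw [hq.2] at e2
    omega
  obtain ⟨A1, hA1⟩ : ∃ A1, A1 = Q1.image (fun q => (N - a' * q) / a) := ⟨_, rfl⟩
  have hA1c : A1.card = Q1.card := by
    rw [hA1]
    apply card_image_of_injOn
    intro q hq q' hq' h
    have e1 := (hQ1mem q hq).2
    have e2 := (hQ1mem q' hq').2
    simp only at h
    rw [h] at e1
    have e3 : a' * q = a' * q' := by omega
    exact Nat.eq_of_mul_eq_mul_left (by omega) e3
  obtain ⟨y₀, hy₀, hpig⟩ := pigeon (a * a') (Nat.mul_pos (by omega) (by omega)) A1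
  obtain ⟨A, hA⟩ : ∃ A, A = A1.filter (fun y => y % (a * a') = y₀) := ⟨_, rfl⟩
  rw [← hA] at hpig
  have hH2 : 2 ≤ H := by
    by_contra hcon
    have e0 : H = 1 := by omega
    rw [e0] at hHc
    rw [Nat.cast_one, Real.one_rpow] at hHc
    have : (1 : ℝ) ≤ a * a' := by nlinarith
    linarith
  have hH2r : (2 : ℝ) ≤ H := by exact_mod_cast hH2
  have hL : 0 < Real.log H := Real.log_pos (by linarith)
  have hAcard : κ / (a * (a * a')) * H / Real.log H ≤ A.card := by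
    have e1 : (Q.card : ℝ) ≤ a * Q1.card := by exact_mod_cast hi
    have e2 : (A1.card : ℝ) ≤ a * a' * A.card := by exact_mod_cast hpig
    have e3 : (Q.card : ℝ) ≤ a * (a * a') * A.card := by
      rw [hA1c] at e2
      have := mul_le_mul_of_nonneg_left e2 (by linarith : (0 : ℝ) ≤ a)
      calc (Q.card : ℝ) ≤ a * Q1.card := e1
        _ ≤ a * (a * a' * A.card) := this
        _ = _ := by ring
    have e4 : κ / (a * (a * a')) * H / Real.log H = κ * H / Real.log H / (a * (a * a')) := by field_simp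
    rw [e4, div_le_iff₀ (by positivity)]
    calc κ * H / Real.log H ≤ Q.card := hQc
      _ ≤ _ := e3
      _ = _ := by ring
  have hApos : 0 < A.card := by
    have : 0 < κ / (a * (a * a')) * H / Real.log H := by positivity
    exact_mod_cast lt_of_lt_of_le this hAcard
  have hAmem : ∀ y ∈ A, ∃ q ∈ Q, N = a' * q + a * y + i ∧ y % (a * a') = y₀ := by
    intro y hy
    rw [hA, mem_filter, hA1, mem_image] at hy
    obtain ⟨⟨q, hq, hqy⟩, hy2⟩ := hy
    obtain ⟨e1, e2⟩ := hQ1mem q hq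
    rw [hqy] at e2
    exact ⟨q, e1, e2, hy2⟩
  obtain ⟨yy, hyy⟩ := card_pos.1 hApos
  obtain ⟨qq, _, hNqq, _⟩ := hAmem yy hyy
  have hiN : i ≤ N := by omega
  -- the auxiliary integer
  obtain ⟨B, hB⟩ : ∃ B : ℕ, B = ⌈(H : ℝ) ^ c⌉₊ := ⟨_, rfl⟩
  have hinv : ∀ r : ℕ, ∃ u : ℕ, r.Prime → ¬ r ∣ a → a * u ≡ N - i [MOD r] := by
    intro r
    by_cases h : r.Prime ∧ ¬ r ∣ a
    · have hcop : Nat.Coprime a r := ((Nat.Prime.coprime_iff_not_dvd h.1).2 h.2).symm
      obtain ⟨u, _, hu⟩ := Nat.exists_mul_mod_eq_of_coprime (N - i) hcop h.1.ne_zero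
      exact ⟨u, fun _ _ => hu⟩
    · exact ⟨0, fun h1 h2 => absurd ⟨h1, h2⟩ h⟩
  choose u hu using hinv
  obtain ⟨N', hN', hcrt⟩ := crt_primes B (fun r => if r ∣ a * a' then y₀ + 1 else u r) H
  have hyH : ∀ y ∈ A, y ≤ H := by
    intro y hy
    obtain ⟨q, hq, e1, _⟩ := hAmem y hy
    have e2 := (hQ q hq).1
    have e3 : a * y ≤ a * H := by omega
    exact Nat.le_of_mul_le_mul_left e3 (by omega)
  have hrough : ∀ y ∈ A, ∀ r : ℕ, r.Prime → r ∣ N' - y → (H : ℝ) ^ c ≤ r := by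
    intro y hy r hr hrd
    by_contra hcon
    push Not at hcon
    have hrB : r < B := by
      rw [hB]
      exact Nat.lt_ceil.2 hcon
    have e1 := hcrt r hrB hr
    obtain ⟨q, hq, e2, e3⟩ := hAmem y hy
    have hyN : y ≤ N' := (hyH y hy).trans hN'
    have e4 : y ≡ N' [MOD r] := (Nat.modEq_iff_dvd' hyN).2 hrd
    have e5 := e4.trans e1
    by_cases hraa : r ∣ a * a'
    · rw [if_pos hraa] at e5
      have e6 : y ≡ y₀ [MOD r] := by
        have e7 : y ≡ y₀ [MOD (a * a')] := by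
          unfold Nat.ModEq
          rw [← e3, Nat.mod_mod]
        exact e7.of_dvd hraa
      have e8 : y₀ ≡ y₀ + 1 [MOD r] := e6.symm.trans e5
      have e9 : r ∣ 1 := by
        have := (Nat.modEq_iff_dvd' (Nat.le_succ y₀)).1 e8
        simpa using this
      exact hr.one_lt.ne' (Nat.dvd_one.1 e9)
    · rw [if_neg hraa] at e5
      have hra : ¬ r ∣ a := fun h => hraa (h.mul_right a')
      have hra' : ¬ r ∣ a' := fun h => hraa (h.mul_left a)
      have e6 := hu r hr hra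
      have e7 : a * y ≡ N - i [MOD r] := (Nat.ModEq.mul_left a e5).trans e6
      have e8 : r ∣ a' * q := by
        have e9 : a * y ≤ N - i := by omega
        have e10 := (Nat.modEq_iff_dvd' e9).1 e7
        have e11 : N - i - a * y = a' * q := by omega
        rwa [e11] at e10
      rcases (Nat.Prime.dvd_mul hr).1 e8 with h | h
      · exact hra' h
      · exact absurd ((hQ q hq).2.2 r hr h) (not_le.2 hcon)
  have g2 := h2 H (by omega) N' A (fun y hy => ⟨hyH y hy, (hyH y hy).trans hN', hrough y hy⟩) hAcard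
  obtain ⟨Z, hZ⟩ : ∃ Z, Z = (Icc 1 H).filter (fun x => b.Coprime x ∧ ¬ ∃ p ∈ P, p ≤ x ∧ PS b s₁ (x - p)) := ⟨_, rfl⟩
  obtain ⟨S, hS⟩ : ∃ S, S = (Icc 1 H).filter (fun y => b.Coprime y ∧ ∃ a ∈ A, y ≤ a ∧ PS b s₂ (a - y)) := ⟨_, rfl⟩
  rw [← hZ] at g1
  rw [← hS] at g2
  have hlt : Z.card < S.card := by
    have h3 : (Z.card : ℝ) < S.card := by
      have : 0 < κ' * H := by positivity
      linarith
    exact_mod_cast h3
  obtain ⟨x, hxS, hxZ⟩ : ∃ x ∈ S, x ∉ Z := by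
    by_contra hcon
    push Not at hcon
    exact absurd (card_le_card hcon) (by omega)
  rw [hS, mem_filter] at hxS
  obtain ⟨hx1, hx2, y, hy, hxy, hps⟩ := hxS
  rw [hZ, mem_filter, not_and, not_and, not_not] at hxZ
  obtain ⟨p, hp, hpx, hps'⟩ := hxZ hx1 hx2
  obtain ⟨q, hq, e1, _⟩ := hAmem y hy
  have e2 : a * y = a * p + a * (x - p) + a * (y - x) := by
    rw [← Nat.mul_add, ← Nat.mul_add]
    congr 1
    omega
  refine ⟨p, hp, q, hq, by omega, ?_⟩
  have e3 : N - (a * p + a' * q) = a * (x - p) + a * (y - x) + i := by omega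
  rw [e3]
  exact PS_add b _ _ _ _ (PS_add b _ _ _ _ (PS_mul b _ _ a hps') (PS_mul b _ _ a hps)) (PS_mono b i a i (PS_ones b i) hia.le)

open Classical in
/-- two primes with coefficients, the first one small -/
theorem small_prime_forms : ∃ δ : ℝ, 0 < δ ∧ δ < 1 ∧ ∀ a a' b : ℕ, 1 ≤ a → 1 ≤ a' → 2 ≤ b → ∃ K N₀ : ℕ, ∀ N : ℕ, N₀ ≤ N →
    ∀ H : ℕ, (N : ℝ) ^ (1 - δ) ≤ H →
    ∃ p q : ℕ, p.Prime ∧ q.Prime ∧ a * p ≤ H ∧ N ≤ a' * q + H ∧ a * p + a' * q ≤ N ∧ PS b K (N - (a * p + a' * q)) := by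
  obtain ⟨δ, η', hδ0, hδ1, hη', X₀, hX₀, hho⟩ := Pool.Agent.H295R3.D.hoheisel
  refine ⟨δ / 2, by linarith, by linarith, fun a a' b ha ha' hb => ?_⟩
  have har : (1 : ℝ) ≤ a := by exact_mod_cast ha
  have har' : (1 : ℝ) ≤ a' := by exact_mod_cast ha'
  obtain ⟨η, K, H₀, hη, hloc⟩ := local_linnik_forms a a' b ha ha' hb (1 / 2) (η' * (1 - δ) / (2 * a')) (by norm_num)
    (by have : 0 < 1 - δ := by linarith
        positivity)
  obtain ⟨n1, hn1⟩ := ev_rpow (1 - δ) (H₀ + 4 + 2 * a') (by linarith)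
  obtain ⟨n2, hn2⟩ := ev_rpow (δ / 2) (4 * a * a') (by linarith)
  refine ⟨K, n1 + n2 + 2 * a' * (X₀ + H₀ + 8), fun N hN H hNH => ?_⟩
  have hNa : 2 * a' * (X₀ + H₀ + 8) ≤ N := by omega
  -- the length
  obtain ⟨L, hL⟩ : ∃ L, L = min (H / a) (N / 2) := ⟨_, rfl⟩
  have hLH : a * L ≤ H := by
    have h1 : L ≤ H / a := by rw [hL]; exact min_le_left _ _
    calc a * L ≤ a * (H / a) := Nat.mul_le_mul_left _ h1
      _ ≤ H := Nat.mul_div_le H a
  have hLN : 2 * L ≤ N := by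
    have : L ≤ N / 2 := by rw [hL]; exact min_le_right _ _
    omega
  have hN16 : 16 ≤ N := by
    have : 1 * 1 * (0 + 0 + 8) ≤ a' * 1 * (X₀ + H₀ + 8) := by
      apply Nat.mul_le_mul (Nat.mul_le_mul ha' le_rfl) (by omega)
    nlinarith
  have hN0 : (16 : ℝ) ≤ N := by exact_mod_cast hN16
  have e1 := hn1 N (by omega)
  have e2 := hn2 N (by omega)
  have hNd : 2 * a' * (N : ℝ) ^ (1 - δ) ≤ L := by
    have hpos : 0 < (N : ℝ) ^ (1 - δ) := by positivity
    have hx : (N : ℝ) ^ (1 - δ) * (N : ℝ) ^ (δ / 2) = (N : ℝ) ^ (1 - δ / 2) := by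
      rw [← Real.rpow_add (by linarith)]
      congr 1
      ring
    have hbig : (N : ℝ) ^ (1 - δ) * (4 * a * a') ≤ (N : ℝ) ^ (1 - δ / 2) := by
      rw [← hx]
      exact mul_le_mul_of_nonneg_left e2 hpos.le
    have h1N : (1 : ℝ) ≤ (N : ℝ) ^ (1 - δ) := Real.one_le_rpow (by linarith) (by linarith)
    have haa : (1 : ℝ) ≤ a * a' := by nlinarith
    rw [hL]
    rcases le_total (H / a) (N / 2) with h | h
    · rw [min_eq_left h]
      have h1 : (H : ℝ) < a * (((H / a : ℕ) : ℝ) + 1) := by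
        have h3 := Nat.div_add_mod H a
        have h4 := Nat.mod_lt H (by omega : 0 < a)
        have h5 : H < a * (H / a + 1) := by rw [mul_add]; omega
        exact_mod_cast h5
      have h2 : a * (4 * a' * (N : ℝ) ^ (1 - δ)) < a * (((H / a : ℕ) : ℝ) + 1) := by
        calc a * (4 * a' * (N : ℝ) ^ (1 - δ)) = (N : ℝ) ^ (1 - δ) * (4 * a * a') := by ring
          _ ≤ H := hbig.trans hNH
          _ < _ := h1
      have h3 := lt_of_mul_lt_mul_left h2 (by linarith)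
      have h4 : (1 : ℝ) ≤ a' * (N : ℝ) ^ (1 - δ) := by nlinarith
      linarith
    · rw [min_eq_right h]
      have h3 : (N : ℝ) ≤ 2 * ((N / 2 : ℕ) : ℝ) + 1 := by exact_mod_cast (by omega : N ≤ 2 * (N / 2) + 1)
      have h4 : (N : ℝ) ^ (1 - δ / 2) * (N : ℝ) ^ (δ / 2) = N := by
        rw [← Real.rpow_add (by linarith), sub_add_cancel, Real.rpow_one]
      have h5 : (N : ℝ) ^ (1 - δ / 2) * 4 ≤ N := by
        calc (N : ℝ) ^ (1 - δ / 2) * 4 ≤ (N : ℝ) ^ (1 - δ / 2) * (N : ℝ) ^ (δ / 2) := by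
              apply mul_le_mul_of_nonneg_left _ (by positivity)
              have : (4 : ℝ) ≤ 4 * a * a' := by nlinarith
              linarith
          _ = N := h4
      have h6 : 4 * (a' * (N : ℝ) ^ (1 - δ)) ≤ N / 4 := by
        have h7 : 4 * (a' * (N : ℝ) ^ (1 - δ)) ≤ (N : ℝ) ^ (1 - δ) * (4 * a * a') := by
          have h8 : 0 ≤ a' * (N : ℝ) ^ (1 - δ) := by positivity
          nlinarith
        linarith
      linarith
  have h1N : (1 : ℝ) ≤ (N : ℝ) ^ (1 - δ) := Real.one_le_rpow (by linarith) (by linarith)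
  have hLr : 2 * (a' : ℝ) * (H₀ + 4 + 2 * a') ≤ L := by
    refine le_trans ?_ hNd
    exact mul_le_mul_of_nonneg_left e1 (by linarith)
  have hH₀0 : (0 : ℝ) ≤ H₀ := Nat.cast_nonneg _
  have hL4 : 4 * (a' : ℝ) ^ 2 ≤ L := by nlinarith
  have hLH₀ : (H₀ : ℝ) + 4 ≤ L := by nlinarith
  have hL2a : 2 * (a' : ℝ) ≤ L := by nlinarith
  have hLH₀' : H₀ ≤ L := by
    have : (H₀ : ℝ) ≤ L := by linarith
    exact_mod_cast this
  obtain ⟨Y, hY⟩ : ∃ Y, Y = L / a' := ⟨_, rfl⟩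
  have hYle : a' * Y ≤ L := by rw [hY]; exact Nat.mul_div_le L a'
  have hYlt : (L : ℝ) < a' * (Y + 1) := by
    have h3 := Nat.div_add_mod L a'
    have h4 := Nat.mod_lt L (by omega : 0 < a')
    have h5 : L < a' * (Y + 1) := by rw [hY, mul_add]; omega
    exact_mod_cast h5
  have hYL : (L : ℝ) / (2 * a') ≤ Y := by
    rw [div_le_iff₀ (by linarith)]
    have h6 : (a' : ℝ) * (Y + 1) = a' * Y + a' := by ring
    nlinarith
  have hY2 : 2 * Y ≤ N / a' := by
    rw [Nat.le_div_iff_mul_le (by omega)]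
    calc 2 * Y * a' = 2 * (a' * Y) := by ring
      _ ≤ 2 * L := Nat.mul_le_mul_left _ hYle
      _ ≤ N := hLN
  obtain ⟨X, hX⟩ : ∃ X, X = N / a' - Y := ⟨_, rfl⟩
  have hXY : X + Y = N / a' := by omega
  have hNdiv : 2 * (X₀ + H₀ + 8) ≤ N / a' := by
    rw [Nat.le_div_iff_mul_le (by omega)]
    calc 2 * (X₀ + H₀ + 8) * a' = 2 * a' * (X₀ + H₀ + 8) := by ring
      _ ≤ N := hNa
  have hXX₀ : X₀ ≤ X := by omega
  have hX8 : 8 ≤ X := by omega
  have hXN : (X : ℝ) ≤ N := by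
    have h1 : N / a' ≤ N := Nat.div_le_self N a'
    exact_mod_cast (by omega : X ≤ N)
  have hX8r : (8 : ℝ) ≤ X := by exact_mod_cast hX8
  have hLNr : (L : ℝ) ≤ N := by exact_mod_cast (by omega : L ≤ N)
  have hXd : (X : ℝ) ^ (1 - δ) ≤ Y := by
    have h1 : (X : ℝ) ^ (1 - δ) ≤ (N : ℝ) ^ (1 - δ) := Real.rpow_le_rpow (by linarith) hXN (by linarith)
    have h2 : a' * (2 * (N : ℝ) ^ (1 - δ)) < a' * (Y + 1) := by
      calc a' * (2 * (N : ℝ) ^ (1 - δ)) = 2 * a' * (N : ℝ) ^ (1 - δ) := by ring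
        _ ≤ L := hNd
        _ < _ := hYlt
    have h3 := lt_of_mul_lt_mul_left h2 (by linarith)
    linarith
  have hcount := hho X Y hXX₀ hXd (by omega)
  obtain ⟨Q, hQ⟩ : ∃ Q, Q = (Ioc X (X + Y)).filter Nat.Prime := ⟨_, rfl⟩
  rw [← hQ] at hcount
  have hL4r : (4 : ℝ) ≤ L := by linarith
  have hlogX : 0 < Real.log X := Real.log_pos (by linarith)
  have hlogL : 0 < Real.log L := Real.log_pos (by linarith)
  have hQmem : ∀ q ∈ Q, N ≤ a' * q + a * L ∧ a' * q ≤ N := by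
    intro q hq
    rw [hQ, mem_filter, mem_Ioc] at hq
    have h1 : a' * q ≤ a' * (N / a') := Nat.mul_le_mul_left _ (by omega)
    have h2 : a' * (N / a') ≤ N := Nat.mul_div_le N a'
    have h3 : a' * (N / a' + 1) ≤ a' * (q + Y) := Nat.mul_le_mul_left _ (by omega)
    have h4 := Nat.div_add_mod N a'
    have h5 := Nat.mod_lt N (by omega : 0 < a')
    have h6 : L ≤ a * L := Nat.le_mul_of_pos_left L (by omega)
    rw [mul_add, mul_add, mul_one] at h3
    exact ⟨by omega, h1.trans h2⟩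
  obtain ⟨p, hp, q, hq, hsum, hps⟩ := hloc L hLH₀' N ((Icc 1 L).filter Nat.Prime) Q
    (fun p hp => by
      rw [mem_filter, mem_Icc] at hp
      exact ⟨hp.2, hp.1.2⟩)
    (by
      have h1 : ((Icc 1 L).filter Nat.Prime).card = Nat.primeCounting L := by
        rw [Nat.primeCounting, Nat.primeCounting', Nat.count_eq_card_filter_range]
        congr 1
        ext p
        rw [mem_filter, mem_filter, mem_Icc, mem_range]
        constructor
        · rintro ⟨h1, h2⟩; exact ⟨by omega, h2⟩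
        · rintro ⟨h1, h2⟩; exact ⟨⟨h2.one_le, by omega⟩, h2⟩
      rw [h1]
      have h2 : (0 : ℝ) ≤ Nat.primeCounting L := Nat.cast_nonneg _
      nlinarith)
    (fun q hq => by
      refine ⟨(hQmem q hq).1, (hQmem q hq).2, fun r hr hrq => ?_⟩
      rw [hQ, mem_filter, mem_Ioc] at hq
      have h1 : r = q := (Nat.prime_dvd_prime_iff_eq hr hq.2).1 hrq
      rw [h1]
      have h2 : (Y : ℝ) + 1 ≤ q := by exact_mod_cast (by omega : Y + 1 ≤ q)
      refine le_trans ?_ h2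
      rw [← Real.sqrt_eq_rpow]
      have h3 : 2 * (a' : ℝ) ≤ √(L : ℝ) := by
        apply Real.le_sqrt_of_sq_le
        linarith
      have h4 : √(L : ℝ) * √(L : ℝ) = L := Real.mul_self_sqrt (by linarith)
      have h5 : 2 * (a' : ℝ) * √(L : ℝ) ≤ √(L : ℝ) * √(L : ℝ) := mul_le_mul_of_nonneg_right h3 (Real.sqrt_nonneg _)
      have h6 : a' * √(L : ℝ) < a' * (Y + 1) := by
        have : 0 ≤ a' * √(L : ℝ) := by positivity
        linarith
      exact (lt_of_mul_lt_mul_left h6 (by linarith)).le)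
    (by
      refine le_trans ?_ hcount
      rw [div_le_div_iff₀ hlogL hlogX]
      have h1 : (1 - δ) * Real.log X ≤ Real.log L := by
        rw [← Real.log_rpow (by linarith)]
        apply Real.log_le_log (by positivity)
        have h3 : (Y : ℝ) ≤ L := by
          have : Y ≤ a' * Y := Nat.le_mul_of_pos_left Y (by omega)
          exact_mod_cast this.trans hYle
        linarith
      have h2 : η' * (L / (2 * a')) * ((1 - δ) * Real.log X) ≤ η' * Y * Real.log L :=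
        mul_le_mul (mul_le_mul_of_nonneg_left hYL hη'.le) h1
          (mul_nonneg (by linarith) hlogX.le) (by positivity)
      calc η' * (1 - δ) / (2 * a') * L * Real.log X = η' * (L / (2 * a')) * ((1 - δ) * Real.log X) := by ring
        _ ≤ _ := h2)
  rw [mem_filter, mem_Icc] at hp
  have hq2 := hQmem q hq
  rw [hQ, mem_filter, mem_Ioc] at hq
  have hpL : a * p ≤ a * L := Nat.mul_le_mul_left _ hp.1.2
  exact ⟨p, q, hp.2, hq.2, by omega, by omega, hsum, hps⟩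

end Pool.Agent.H86.DL
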