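import Pool.Agent.H86.R1
import Pool.Graph.R_seed8.H373R2.T7.Fund

set_option autoImplicit false

/-! Sieve bounds for tuples of shifts on average. -/

namespace Pool.Agent.H86.PM
open Finset
open Pool.Agent.H86.PW
open Pool.Agent.H86.PG
open Pool.Agent.H373R2.T7

/-- the product of the `(1 - 1/p)⁻¹` over the primes dividing `h` -/
noncomputable def gg (y h : ℕ) : ℝ := ∏ p ∈ pz y, (if p ∣ h then (1 - 1 / (p : ℝ))⁻¹ else 1)

lemma fac_pos (p : ℕ) (hp : 2 ≤ p) : 0 < 1 - 1 / (p : ℝ) := by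
  have h1 : (2 : ℝ) ≤ p := by exact_mod_cast hp
  have h2 : 1 / (p : ℝ) ≤ 1 / 2 := one_div_le_one_div_of_le (by norm_num) h1
  linarith

lemma fac_inv_ge (p : ℕ) (hp : 2 ≤ p) : 1 ≤ (1 - 1 / (p : ℝ))⁻¹ := by
  rw [one_le_inv₀ (fac_pos p hp)]
  have : 0 ≤ 1 / (p : ℝ) := by positivity
  linarith

lemma fac_inv_le (p : ℕ) (hp : 2 ≤ p) : (1 - 1 / (p : ℝ))⁻¹ ≤ 1 + 2 / p := by
  have h1 : (2 : ℝ) ≤ p := by exact_mod_cast hp
  have h0 := fac_pos p hp
  rw [inv_le_iff_one_le_mul₀ h0]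
  have h2 : (0 : ℝ) < p := by linarith
  have h3 : (1 + 2 / (p : ℝ)) * (1 - 1 / p) = 1 + 1 / p * (1 - 2 / p) := by field_simp; ring
  rw [h3]
  have h4 : 2 / (p : ℝ) ≤ 1 := by rw [div_le_one h2]; exact h1
  have h5 : 0 ≤ 1 / (p : ℝ) * (1 - 2 / p) := mul_nonneg (by positivity) (by linarith)
  linarith

lemma one_le_prod' {ι : Type*} (s : Finset ι) (f : ι → ℝ) (h : ∀ i ∈ s, 1 ≤ f i) : 1 ≤ ∏ i ∈ s, f i := by
  calc (1 : ℝ) = ∏ i ∈ s, (1 : ℝ) := by simp
    _ ≤ _ := prod_le_prod (fun _ _ => zero_le_one) h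

lemma gg_ge_one (y h : ℕ) : 1 ≤ gg y h := by
  unfold gg
  apply one_le_prod'
  intro p hp
  split_ifs
  · exact fac_inv_ge p (mem_pz.1 hp).2.two_le
  · exact le_rfl

lemma pow_le_lin (s : ℝ) (hs : 0 ≤ s) (hs1 : s ≤ 1) (m : ℕ) : (1 + s) ^ m ≤ 1 + (2 ^ m - 1) * s := by
  induction m with
  | zero => simp
  | succ m ih =>
    have h1 : (1 : ℝ) ≤ 2 ^ m := one_le_pow₀ (by norm_num)
    have h2 : s * s ≤ s := by nlinarith
    calc (1 + s) ^ (m + 1) = (1 + s) ^ m * (1 + s) := pow_succ _ _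
      _ ≤ (1 + (2 ^ m - 1) * s) * (1 + s) := mul_le_mul_of_nonneg_right ih (by linarith)
      _ = 1 + s + (2 ^ m - 1) * s + (2 ^ m - 1) * (s * s) := by ring
      _ ≤ 1 + s + (2 ^ m - 1) * s + (2 ^ m - 1) * s := by
          have := mul_le_mul_of_nonneg_left h2 (show (0 : ℝ) ≤ 2 ^ m - 1 by linarith)
          linarith
      _ = 1 + (2 ^ (m + 1) - 1) * s := by ring

lemma gg_pow_le (y h m : ℕ) : gg y h ^ m ≤ ∏ p ∈ pz y, (1 + (if p ∣ h then (2 * 2 ^ m) / (p : ℝ) else 0)) := by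
  unfold gg
  rw [← prod_pow]
  apply prod_le_prod
  · intro p hp
    apply pow_nonneg
    split_ifs
    · exact zero_le_one.trans (fac_inv_ge p (mem_pz.1 hp).2.two_le)
    · exact zero_le_one
  · intro p hp
    have hp2 := (mem_pz.1 hp).2.two_le
    have h1 : (2 : ℝ) ≤ p := by exact_mod_cast hp2
    split_ifs
    · have h2 := fac_inv_le p hp2
      have h3 : 2 / (p : ℝ) ≤ 1 := by rw [div_le_one (by linarith)]; exact h1
      have h4 := pow_le_lin (2 / (p : ℝ)) (by positivity) h3 m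
      calc ((1 - 1 / (p : ℝ))⁻¹) ^ m ≤ (1 + 2 / p) ^ m := pow_le_pow_left₀ (zero_le_one.trans (fac_inv_ge p hp2)) h2 m
        _ ≤ 1 + (2 ^ m - 1) * (2 / p) := h4
        _ ≤ 1 + 2 ^ m * (2 / p) := by
            have : (0 : ℝ) ≤ 2 / p := by positivity
            nlinarith
        _ = 1 + (2 * 2 ^ m) / (p : ℝ) := by ring
    · rw [one_pow, add_zero]

lemma inv_sq_sum (y : ℕ) : ∑ p ∈ pz y, 1 / (p : ℝ) ^ 2 ≤ 2 := by
  have h1 : ∀ n : ℕ, 1 ≤ n → ∑ k ∈ Icc 1 n, 1 / (k : ℝ) ^ 2 ≤ 2 - 1 / (n : ℝ) := by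
    intro n hn
    induction n, hn using Nat.le_induction with
    | base => norm_num
    | succ n hn ih =>
      rw [sum_Icc_succ_top (by omega)]
      have h3 : (0 : ℝ) < (n : ℝ) := by exact_mod_cast hn
      have h2 : 1 / ((n + 1 : ℕ) : ℝ) ^ 2 ≤ 1 / (n : ℝ) - 1 / ((n : ℝ) + 1) := by
        push_cast
        rw [div_sub_div _ _ h3.ne' (by positivity), div_le_div_iff₀ (by positivity) (by positivity)]
        nlinarith
      push_cast at h2 ⊢
      linarith
  rcases Nat.eq_zero_or_pos y with hy | hy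
  · rw [hy]
    have : pz 0 = ∅ := by
      rw [eq_empty_iff_forall_notMem]
      intro p hp
      rw [mem_pz] at hp
      have := hp.2.two_le
      omega
    rw [this]
    norm_num
  · have h2 : ∑ p ∈ pz y, 1 / (p : ℝ) ^ 2 ≤ ∑ n ∈ Icc 1 y, 1 / (n : ℝ) ^ 2 :=
      sum_le_sum_of_subset_of_nonneg (filter_subset _ _) (fun _ _ _ => by positivity)
    have h3 := h1 y hy
    have h4 : 0 ≤ 1 / (y : ℝ) := by positivity
    linarith

/-- the sum over the differences in an interval -/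
lemma row_sum (y H m a : ℕ) (ha : a ∈ Icc 1 H) :
    ∑ h ∈ (Icc 1 H).filter (fun h => a ≠ h), gg y ((a : ℤ) - h).natAbs ^ m ≤ Real.exp (4 * 2 ^ m) * H := by
  classical
  obtain ⟨c, hc⟩ : ∃ c : ℝ, c = 2 * 2 ^ m := ⟨_, rfl⟩
  have hc0 : 0 ≤ c := by rw [hc]; positivity
  have h1 : ∀ n : ℕ, ∏ p ∈ pz y, (1 + (if p ∣ n then c / (p : ℝ) else 0)) =
      ∑ T ∈ (pz y).powerset, (if ∏ p ∈ T, p ∣ n then ∏ p ∈ T, (c / (p : ℝ)) else 0) := by
    intro n
    rw [prod_one_add]
    apply sum_congr rfl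
    intro T hT
    rw [mem_powerset] at hT
    have hiff : (∏ p ∈ T, p ∣ n) ↔ ∀ p ∈ T, p ∣ n := by
      constructor
      · intro h p hp
        exact (dvd_prod_of_mem _ hp).trans h
      · intro h
        apply Finset.prod_primes_dvd
        · intro p hp
          exact (mem_pz.1 (hT hp)).2.prime
        · exact h
    by_cases h : ∀ p ∈ T, p ∣ n
    · rw [if_pos (hiff.2 h)]
      apply prod_congr rfl
      intro p hp
      rw [if_pos (h p hp)]
    · rw [if_neg (fun h' => h (hiff.1 h'))]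
      push Not at h
      obtain ⟨p, hp, hpn⟩ := h
      rw [prod_eq_zero hp (by rw [if_neg hpn])]
  have h2 : ∑ h ∈ (Icc 1 H).filter (fun h => a ≠ h), gg y ((a : ℤ) - h).natAbs ^ m ≤
      ∑ h ∈ (Icc 1 H).filter (fun h => a ≠ h), ∑ T ∈ (pz y).powerset,
        (if ∏ p ∈ T, p ∣ ((a : ℤ) - h).natAbs then ∏ p ∈ T, (c / (p : ℝ)) else 0) := by
    apply sum_le_sum
    intro h _
    rw [← h1, hc]
    exact gg_pow_le y _ m
  refine h2.trans ?_
  rw [sum_comm]
  have h3 : ∀ T ∈ (pz y).powerset, ∑ h ∈ (Icc 1 H).filter (fun h => a ≠ h),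
      (if ∏ p ∈ T, p ∣ ((a : ℤ) - h).natAbs then ∏ p ∈ T, (c / (p : ℝ)) else 0) ≤ (∏ p ∈ T, (c / (p : ℝ) ^ 2)) * H := by
    intro T hT
    have hT' := mem_powerset.1 hT
    have hq : 1 ≤ ∏ p ∈ T, p := Nat.pos_of_ne_zero (prod_ne_zero_iff.2 fun p hp => (mem_pz.1 (hT' hp)).2.ne_zero)
    rw [← sum_filter, filter_filter, sum_const, nsmul_eq_mul]
    have e1 := cnt_row H (∏ p ∈ T, p) a hq ha
    have e2 : 0 ≤ ∏ p ∈ T, (c / (p : ℝ)) := prod_nonneg fun p _ => by positivity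
    refine (mul_le_mul_of_nonneg_right e1 e2).trans (le_of_eq ?_)
    have e3 : ∏ p ∈ T, (c / (p : ℝ) ^ 2) = (∏ p ∈ T, (c / (p : ℝ))) * (∏ p ∈ T, (1 / (p : ℝ))) := by
      rw [← prod_mul_distrib]
      apply prod_congr rfl
      intro p _
      ring
    rw [e3, prod_div_distrib (f := fun _ => (1 : ℝ))]
    push_cast
    rw [prod_const_one]
    ring
  refine (sum_le_sum h3).trans ?_
  rw [← sum_mul]
  apply mul_le_mul_of_nonneg_right _ (Nat.cast_nonneg _)
  rw [← prod_one_add]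
  calc ∏ p ∈ pz y, (1 + c / (p : ℝ) ^ 2) ≤ ∏ p ∈ pz y, Real.exp (c / (p : ℝ) ^ 2) := by
        apply prod_le_prod
        · intro p _; positivity
        · intro p _
          have := Real.add_one_le_exp (c / (p : ℝ) ^ 2)
          linarith
    _ = Real.exp (∑ p ∈ pz y, c / (p : ℝ) ^ 2) := (Real.exp_sum _ _).symm
    _ ≤ Real.exp (4 * 2 ^ m) := by
        apply Real.exp_le_exp.2
        have e1 : ∑ p ∈ pz y, c / (p : ℝ) ^ 2 = c * ∑ p ∈ pz y, 1 / (p : ℝ) ^ 2 := by
          rw [mul_sum]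
          apply sum_congr rfl
          intro p _
          ring
        rw [e1]
        have e2 := mul_le_mul_of_nonneg_left (inv_sq_sum y) hc0
        rw [hc] at e2 ⊢
        linarith

/-- the condition -/
def QQ {m : ℕ} (h : Fin m → ℕ) (p n : ℕ) : Prop := ∃ i, p ∣ n + h i

lemma QQ_per {m : ℕ} (h : Fin m → ℕ) (p n : ℕ) : QQ h p n ↔ QQ h p (n % p) := by
  unfold QQ
  apply exists_congr
  intro i
  rw [Nat.dvd_iff_mod_eq_zero, Nat.dvd_iff_mod_eq_zero, Nat.mod_add_mod]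

/-- the local product -/
noncomputable def Fh (y : ℕ) {m : ℕ} (h : Fin m → ℕ) : ℝ := ∏ p ∈ pz y, (1 - (nuB (QQ h) p : ℝ) / p)

lemma Ffac_nonneg {m : ℕ} (h : Fin m → ℕ) (p : ℕ) (hp : 0 < p) : 0 ≤ 1 - (nuB (QQ h) p : ℝ) / p := by
  have hp0 : (0 : ℝ) < p := by exact_mod_cast hp
  have h1 : (nuB (QQ h) p : ℝ) / p ≤ 1 := by rw [div_le_one hp0]; exact_mod_cast nuB_le (QQ h) p
  linarith

lemma Fh_nonneg (y : ℕ) {m : ℕ} (h : Fin m → ℕ) : 0 ≤ Fh y h :=
  prod_nonneg fun p hp => Ffac_nonneg h p (mem_pz.1 hp).2.pos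

open Classical in
/-- the collision factor -/
noncomputable def GG (y : ℕ) {m : ℕ} (a : ℕ) (h : Fin m → ℕ) : ℝ :=
  ∏ p ∈ pz y, (if ∃ i, p ∣ ((a : ℤ) - h i).natAbs then (1 - 1 / (p : ℝ))⁻¹ else 1)

lemma Fh_cons (y : ℕ) {m : ℕ} (a : ℕ) (h : Fin m → ℕ) : Fh y (Fin.cons a h : Fin (m + 1) → ℕ) ≤ Fh y h * (Vz y * GG y a h) := by
  classical
  unfold Fh Vz GG
  rw [← prod_mul_distrib, ← prod_mul_distrib]
  apply prod_le_prod
  · intro p hp
    exact Ffac_nonneg _ p (mem_pz.1 hp).2.pos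
  · intro p hp
    have hpp := (mem_pz.1 hp).2
    have hp0 : (0 : ℝ) < p := by exact_mod_cast hpp.pos
    have hf := fac_pos p hpp.two_le
    have hmono : nuB (QQ h) p ≤ nuB (QQ (Fin.cons a h : Fin (m + 1) → ℕ)) p := by
      unfold nuB
      apply card_le_card
      intro r hr
      rw [mem_filter] at hr ⊢
      refine ⟨hr.1, ?_⟩
      obtain ⟨i, hi⟩ := hr.2
      exact ⟨i.succ, by rw [Fin.cons_succ]; exact hi⟩
    split_ifs with hcol
    · rw [mul_inv_cancel₀ hf.ne', mul_one]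
      have : (nuB (QQ h) p : ℝ) / p ≤ (nuB (QQ (Fin.cons a h : Fin (m + 1) → ℕ)) p : ℝ) / p := by
        apply div_le_div_of_nonneg_right _ hp0.le
        exact_mod_cast hmono
      linarith
    · rw [mul_one]
      have hstrict : nuB (QQ h) p + 1 ≤ nuB (QQ (Fin.cons a h : Fin (m + 1) → ℕ)) p := by
        obtain ⟨r0, hr0⟩ : ∃ r0 : ℕ, r0 = ((-(a : ℤ)) % p).toNat := ⟨_, rfl⟩
        have hpz : (p : ℤ) ≠ 0 := by exact_mod_cast hpp.ne_zero
        have hr1 : (r0 : ℤ) = (-(a : ℤ)) % p := by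
          rw [hr0]
          exact Int.toNat_of_nonneg (Int.emod_nonneg _ hpz)
        have hr2 : r0 < p := by
          have : (r0 : ℤ) < p := by
            rw [hr1]
            exact Int.emod_lt_of_pos _ (by exact_mod_cast hpp.pos)
          exact_mod_cast this
        have hr3 : (p : ℤ) ∣ (r0 : ℤ) + a := by
          rw [hr1, Int.emod_def]
          exact ⟨-(-(a : ℤ) / p), by ring⟩
        have hsub : insert r0 ((range p).filter (fun r => QQ h p r)) ⊆ (range p).filter (fun r => QQ (Fin.cons a h : Fin (m + 1) → ℕ) p r) := by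
          intro r hr
          rw [mem_insert] at hr
          rcases hr with hr | hr
          · rw [hr, mem_filter, mem_range]
            refine ⟨hr2, 0, ?_⟩
            rw [Fin.cons_zero]
            exact_mod_cast hr3
          · rw [mem_filter] at hr ⊢
            refine ⟨hr.1, ?_⟩
            obtain ⟨i, hi⟩ := hr.2
            exact ⟨i.succ, by rw [Fin.cons_succ]; exact hi⟩
        have hnot : r0 ∉ (range p).filter (fun r => QQ h p r) := by
          intro hmem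
          rw [mem_filter] at hmem
          obtain ⟨i, hi⟩ := hmem.2
          apply hcol
          refine ⟨i, ?_⟩
          have h1 : (p : ℤ) ∣ (r0 : ℤ) + h i := by exact_mod_cast hi
          have h2 := dvd_sub hr3 h1
          have h3 : (p : ℤ) ∣ (a : ℤ) - h i := by
            have e : (r0 : ℤ) + a - (r0 + h i) = a - h i := by ring
            rwa [e] at h2
          exact Int.natCast_dvd.1 h3
        have h4 := card_le_card hsub
        rw [card_insert_of_notMem hnot] at h4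
        exact h4
      have h5 : ((nuB (QQ h) p : ℝ) + 1) / p ≤ (nuB (QQ (Fin.cons a h : Fin (m + 1) → ℕ)) p : ℝ) / p := by
        apply div_le_div_of_nonneg_right _ hp0.le
        exact_mod_cast hstrict
      have h6 : (1 - (nuB (QQ h) p : ℝ) / p) * (1 - 1 / p) = 1 - ((nuB (QQ h) p : ℝ) + 1) / p + (nuB (QQ h) p : ℝ) / p * (1 / p) := by ring
      rw [h6]
      have h7 : 0 ≤ (nuB (QQ h) p : ℝ) / p * (1 / p) := by positivity
      linarith

lemma GG_le_V (y : ℕ) {m : ℕ} (a : ℕ) (h : Fin m → ℕ) : GG y a h ≤ (Vz y)⁻¹ := by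
  classical
  unfold GG Vz
  rw [← prod_inv_distrib]
  apply prod_le_prod
  · intro p hp
    split_ifs
    · exact zero_le_one.trans (fac_inv_ge p (mem_pz.1 hp).2.two_le)
    · exact zero_le_one
  · intro p hp
    split_ifs
    · exact le_rfl
    · exact fac_inv_ge p (mem_pz.1 hp).2.two_le

lemma GG_le_prod (y : ℕ) {m : ℕ} (a : ℕ) (h : Fin m → ℕ) : GG y a h ≤ ∏ i, gg y ((a : ℤ) - h i).natAbs := by
  classical
  unfold GG gg
  rw [prod_comm]
  apply prod_le_prod
  · intro p hp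
    split_ifs
    · exact zero_le_one.trans (fac_inv_ge p (mem_pz.1 hp).2.two_le)
    · exact zero_le_one
  · intro p hp
    have hf := fac_inv_ge p (mem_pz.1 hp).2.two_le
    split_ifs with hcol
    · obtain ⟨i0, hi0⟩ := hcol
      calc (1 - 1 / (p : ℝ))⁻¹ = ∏ i, (if i = i0 then (1 - 1 / (p : ℝ))⁻¹ else 1) := by
            rw [prod_ite_eq' univ i0]
            simp
        _ ≤ _ := by
            apply prod_le_prod
            · intro i _
              split_ifs
              · exact zero_le_one.trans hf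
              · exact zero_le_one
            · intro i _
              by_cases hi : i = i0
              · rw [if_pos hi, hi, if_pos hi0]
              · rw [if_neg hi]
                split_ifs
                · exact hf
                · exact le_rfl
    · apply one_le_prod'
      intro i _
      split_ifs
      · exact hf
      · exact le_rfl

lemma prod_le_sum {m : ℕ} (f : Fin m → ℝ) (hf : ∀ i, 0 ≤ f i) : ∏ i, f i ≤ 1 + ∑ i, f i ^ m := by
  rcases Nat.eq_zero_or_pos m with hm | hm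
  · subst hm
    simp
  · have : Nonempty (Fin m) := ⟨⟨0, hm⟩⟩
    obtain ⟨i0, -, hi0⟩ := exists_max_image (univ : Finset (Fin m)) f univ_nonempty
    have h1 : ∏ i, f i ≤ f i0 ^ m := by
      calc ∏ i, f i ≤ ∏ i : Fin m, f i0 := prod_le_prod (fun i _ => hf i) (fun i hi => hi0 i hi)
        _ = f i0 ^ m := by simp
    have h2 : f i0 ^ m ≤ ∑ i, f i ^ m := single_le_sum (f := fun i => f i ^ m) (fun i _ => pow_nonneg (hf i) m) (mem_univ i0)
    linarith

/-- the sum over the new shift -/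
lemma GG_sum (y H m : ℕ) (h : Fin m → ℕ) (hh : ∀ i, h i ∈ Icc 1 H) (c₂ : ℝ) (hc : (Vz y)⁻¹ ≤ c₂ * H) :
    ∑ a ∈ Icc 1 H, GG y a h ≤ (m * c₂ + 1 + m * Real.exp (4 * 2 ^ m)) * H := by
  classical
  have hV : 0 < (Vz y)⁻¹ := inv_pos.2 (Vz_pos y)
  have h1 : ∀ a ∈ Icc 1 H, GG y a h ≤ (∑ i, if h i = a then (Vz y)⁻¹ else 0) + (1 + ∑ i, if h i ≠ a then gg y ((h i : ℤ) - a).natAbs ^ m else 0) := by
    intro a _
    have hn1 : 0 ≤ ∑ i, (if h i = a then (Vz y)⁻¹ else 0) := sum_nonneg fun i _ => by split_ifs <;> linarith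
    have hn2 : 0 ≤ ∑ i, (if h i ≠ a then gg y ((h i : ℤ) - a).natAbs ^ m else 0) := sum_nonneg fun i _ => by
      split_ifs
      · exact pow_nonneg (zero_le_one.trans (gg_ge_one _ _)) m
      · exact le_rfl
    by_cases hcol : ∃ i, h i = a
    · obtain ⟨i0, hi0⟩ := hcol
      have h2 : (Vz y)⁻¹ ≤ ∑ i, (if h i = a then (Vz y)⁻¹ else 0) := by
        have h3 := single_le_sum (f := fun i => if h i = a then (Vz y)⁻¹ else 0) (fun i _ => by split_ifs <;> linarith) (mem_univ i0)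
        simp only [hi0, if_true] at h3
        exact h3
      have h4 := GG_le_V y a h
      linarith
    · push Not at hcol
      have h2 := (GG_le_prod y a h).trans (prod_le_sum _ (fun i => zero_le_one.trans (gg_ge_one _ _)))
      have h3 : ∑ i, gg y ((a : ℤ) - h i).natAbs ^ m = ∑ i, (if h i ≠ a then gg y ((h i : ℤ) - a).natAbs ^ m else 0) := by
        apply sum_congr rfl
        intro i _
        rw [if_pos (hcol i), ← Int.natAbs_neg, neg_sub]
      linarith
  refine (sum_le_sum h1).trans ?_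
  rw [sum_add_distrib, sum_add_distrib, sum_comm, sum_comm (s := Icc 1 H) (t := univ)]
  have h2 : ∀ i ∈ (univ : Finset (Fin m)), ∑ a ∈ Icc 1 H, (if h i = a then (Vz y)⁻¹ else 0) ≤ c₂ * H := by
    intro i _
    rw [sum_ite_eq]
    rw [if_pos (hh i)]
    exact hc
  have h3 : ∀ i ∈ (univ : Finset (Fin m)), ∑ a ∈ Icc 1 H, (if h i ≠ a then gg y ((h i : ℤ) - a).natAbs ^ m else 0) ≤ Real.exp (4 * 2 ^ m) * H := by
    intro i _
    rw [← sum_filter]
    exact row_sum y H m (h i) (hh i)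
  have h4 := sum_le_sum h2
  have h5 := sum_le_sum h3
  rw [sum_const, card_univ, Fintype.card_fin, nsmul_eq_mul] at h4 h5
  have h6 : ∑ a ∈ Icc 1 H, (1 : ℝ) = H := by simp
  rw [h6]
  calc _ ≤ (m : ℝ) * (c₂ * H) + (H + m * (Real.exp (4 * 2 ^ m) * H)) := by linarith
    _ = _ := by ring

lemma sum_cons (s : Finset ℕ) (m : ℕ) (f : (Fin (m + 1) → ℕ) → ℝ) :
    ∑ h ∈ Fintype.piFinset (fun _ : Fin (m + 1) => s), f h = ∑ h ∈ Fintype.piFinset (fun _ : Fin m => s), ∑ a ∈ s, f (Fin.cons a h) := by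
  classical
  rw [← sum_product']
  symm
  apply sum_nbij' (fun x => (Fin.cons x.2 x.1 : Fin (m + 1) → ℕ)) (fun h => (Fin.tail h, h 0))
  · rintro ⟨h, a⟩ hx
    rw [mem_product, Fintype.mem_piFinset] at hx
    rw [Fintype.mem_piFinset]
    intro i
    refine Fin.cases ?_ (fun j => ?_) i
    · exact hx.2
    · exact hx.1 j
  · intro h hx
    rw [Fintype.mem_piFinset] at hx
    rw [mem_product, Fintype.mem_piFinset]
    exact ⟨fun i => hx i.succ, hx 0⟩
  · rintro ⟨h, a⟩ _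
    simp [Fin.tail_cons]
  · intro h _
    simp [Fin.cons_self_tail]
  · rintro ⟨h, a⟩ _
    rfl

/-- the average of the local product over all tuples of shifts -/
theorem Fh_sum (m : ℕ) (c₂ : ℝ) (hc₂ : 0 ≤ c₂) : ∃ C : ℝ, 1 ≤ C ∧ ∀ y H : ℕ, (Vz y)⁻¹ ≤ c₂ * H →
    ∑ h ∈ Fintype.piFinset (fun _ : Fin m => Icc 1 H), Fh y h ≤ C * (Vz y * H) ^ m := by
  induction m with
  | zero =>
    refine ⟨1, le_rfl, fun y H _ => ?_⟩
    rw [pow_zero, mul_one]
    have h1 : ∀ h ∈ Fintype.piFinset (fun _ : Fin 0 => Icc 1 H), Fh y h ≤ 1 := by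
      intro h _
      unfold Fh
      apply prod_le_one
      · intro p hp
        exact Ffac_nonneg h p (mem_pz.1 hp).2.pos
      · intro p hp
        have : 0 ≤ (nuB (QQ h) p : ℝ) / p := by positivity
        linarith
    refine (sum_le_sum h1).trans ?_
    simp
  | succ m ih =>
    obtain ⟨C, hC1, hC⟩ := ih
    obtain ⟨K, hK⟩ : ∃ K : ℝ, K = m * c₂ + 1 + m * Real.exp (4 * 2 ^ m) := ⟨_, rfl⟩
    have hK1 : 1 ≤ K := by
      rw [hK]
      have : 0 ≤ m * c₂ + m * Real.exp (4 * 2 ^ m) := by positivity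
      linarith
    refine ⟨C * K, by nlinarith, fun y H hV => ?_⟩
    rw [sum_cons]
    have hV0 := (Vz_pos y).le
    have h1 : ∀ h ∈ Fintype.piFinset (fun _ : Fin m => Icc 1 H), ∑ a ∈ Icc 1 H, Fh y (Fin.cons a h : Fin (m + 1) → ℕ) ≤ Fh y h * (Vz y * (K * H)) := by
      intro h hh
      rw [Fintype.mem_piFinset] at hh
      refine (sum_le_sum fun a _ => Fh_cons y a h).trans ?_
      rw [← mul_sum, ← mul_sum]
      apply mul_le_mul_of_nonneg_left _ (Fh_nonneg y h)
      apply mul_le_mul_of_nonneg_left _ hV0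
      rw [hK]
      exact GG_sum y H m h hh c₂ hV
    refine (sum_le_sum h1).trans ?_
    rw [← sum_mul]
    refine (mul_le_mul_of_nonneg_right (hC y H hV) (by positivity)).trans (le_of_eq ?_)
    ring

/-- two different shifts -/
theorem Fh_pair : ∃ C : ℝ, 1 ≤ C ∧ ∀ y H : ℕ,
    ∑ h ∈ Icc 1 H, ∑ a ∈ (Icc 1 H).filter (fun a => h ≠ a), Fh y ![a, h] ≤ C * (Vz y * H) ^ 2 := by
  classical
  refine ⟨Real.exp (4 * 2 ^ 1), Real.one_le_exp (by positivity), fun y H => ?_⟩
  have hV0 := (Vz_pos y).le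
  have h0 : ∀ h : Fin 0 → ℕ, Fh y h ≤ 1 := by
    intro h
    unfold Fh
    apply prod_le_one
    · intro p hp
      exact Ffac_nonneg h p (mem_pz.1 hp).2.pos
    · intro p hp
      have : 0 ≤ (nuB (QQ h) p : ℝ) / p := by positivity
      linarith
  have h1 : ∀ h : ℕ, Fh y ![h] ≤ Vz y := by
    intro h
    have e1 := Fh_cons y h (Fin.elim0 : Fin 0 → ℕ)
    have e2 : GG y h (Fin.elim0 : Fin 0 → ℕ) ≤ 1 := by
      have := GG_le_prod y h (Fin.elim0 : Fin 0 → ℕ)
      simpa using this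
    have e3 : (Fin.cons h (Fin.elim0 : Fin 0 → ℕ) : Fin 1 → ℕ) = ![h] := by
      funext i
      fin_cases i
      rfl
    rw [e3] at e1
    refine e1.trans ?_
    calc Fh y (Fin.elim0 : Fin 0 → ℕ) * (Vz y * GG y h Fin.elim0) ≤ 1 * (Vz y * 1) := by
          apply mul_le_mul (h0 _) (mul_le_mul_of_nonneg_left e2 hV0) _ zero_le_one
          apply mul_nonneg hV0
          unfold GG
          apply prod_nonneg
          intro p hp
          split_ifs
          · exact zero_le_one.trans (fac_inv_ge p (mem_pz.1 hp).2.two_le)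
          · exact zero_le_one
      _ = Vz y := by ring
  have h2 : ∀ h ∈ Icc 1 H, ∑ a ∈ (Icc 1 H).filter (fun a => h ≠ a), Fh y ![a, h] ≤ Vz y * (Vz y * (Real.exp (4 * 2 ^ 1) * H)) := by
    intro h hh
    have e1 : ∀ a ∈ (Icc 1 H).filter (fun a => h ≠ a), Fh y ![a, h] ≤ Vz y * (Vz y * gg y ((h : ℤ) - a).natAbs ^ 1) := by
      intro a _
      have e2 := Fh_cons y a ![h]
      have e3 : (Fin.cons a ![h] : Fin 2 → ℕ) = ![a, h] := rfl
      rw [e3] at e2
      have e4 : GG y a ![h] ≤ gg y ((h : ℤ) - a).natAbs ^ 1 := by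
        have e5 := GG_le_prod y a ![h]
        rw [Fin.prod_univ_one] at e5
        have e6 : ((a : ℤ) - ((![h] : Fin 1 → ℕ) 0 : ℕ)).natAbs = ((h : ℤ) - a).natAbs := by
          rw [← Int.natAbs_neg, neg_sub]
          rfl
        rw [e6] at e5
        rw [pow_one]
        exact e5
      refine e2.trans ?_
      apply mul_le_mul (h1 h) (mul_le_mul_of_nonneg_left e4 hV0) _ hV0
      apply mul_nonneg hV0
      unfold GG
      apply prod_nonneg
      intro p hp
      split_ifs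
      · exact zero_le_one.trans (fac_inv_ge p (mem_pz.1 hp).2.two_le)
      · exact zero_le_one
    refine (sum_le_sum e1).trans ?_
    rw [← mul_sum, ← mul_sum]
    apply mul_le_mul_of_nonneg_left _ hV0
    apply mul_le_mul_of_nonneg_left _ hV0
    exact row_sum y H 1 h hh
  refine (sum_le_sum h2).trans (le_of_eq ?_)
  rw [sum_const, Nat.card_Icc, Nat.add_sub_cancel, nsmul_eq_mul]
  ring

end Pool.Agent.H86.PM
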