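import Pool.Agent.H86.T1

set_option autoImplicit false

/-! Moments of the number of primes in short windows. -/

namespace Pool.Agent.H86.PM
open Finset
open Pool.Agent.H86.PW
open Pool.Agent.H86.PG
open Pool.Agent.H373R2.T7

lemma Vz_inv_log : ∃ C : ℝ, 1 ≤ C ∧ ∀ y : ℕ, 3 ≤ y → (Vz y)⁻¹ ≤ C * Real.log y := by
  obtain ⟨C, hC⟩ := Pool.Agent.Helper256.KM.mertens_inv
  refine ⟨max 1 (Real.exp (C + 4)), le_max_left _ _, fun y hy => ?_⟩
  have hy3 : (3 : ℝ) ≤ y := by exact_mod_cast hy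
  have hl : 0 < Real.log y := Real.log_pos (by linarith)
  have h1 : (Vz y)⁻¹ ≤ Real.exp (∑ p ∈ pz y, (1 / (p : ℝ) + 2 * (1 / (p : ℝ) ^ 2))) := by
    unfold Vz
    rw [← prod_inv_distrib, Real.exp_sum]
    apply prod_le_prod
    · intro p hp
      exact zero_le_one.trans (fac_inv_ge p (mem_pz.1 hp).2.two_le)
    · intro p hp
      have hp2 := (mem_pz.1 hp).2.two_le
      have h2 : (2 : ℝ) ≤ p := by exact_mod_cast hp2
      have h3 := Real.add_one_le_exp (1 / (p : ℝ) + 2 * (1 / (p : ℝ) ^ 2))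
      refine le_trans ?_ h3
      rw [inv_le_iff_one_le_mul₀ (fac_pos p hp2)]
      have hp0 : (0 : ℝ) < p := by linarith
      have h4 : (1 / (p : ℝ) + 2 * (1 / (p : ℝ) ^ 2) + 1) * (1 - 1 / (p : ℝ)) = 1 + (1 / (p : ℝ)) ^ 2 * (1 - 2 * (1 / p)) := by ring
      rw [h4]
      have h5 : 1 / (p : ℝ) ≤ 1 / 2 := one_div_le_one_div_of_le (by norm_num) h2
      have h6 : 0 ≤ (1 / (p : ℝ)) ^ 2 * (1 - 2 * (1 / p)) := mul_nonneg (sq_nonneg _) (by linarith)
      linarith
  have h2 := (abs_le.1 (hC y hy)).2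
  have h3 := inv_sq_sum y
  have h4 : ∑ p ∈ pz y, (1 / (p : ℝ) + 2 * (1 / (p : ℝ) ^ 2)) ≤ Real.log (Real.log y) + (C + 4) := by
    rw [sum_add_distrib, ← mul_sum]
    have e : ∑ p ∈ pz y, 1 / (p : ℝ) = ∑ p ∈ (Finset.Icc 1 y).filter Nat.Prime, (1 : ℝ) / p := rfl
    rw [e]
    linarith
  refine h1.trans ((Real.exp_le_exp.2 h4).trans ?_)
  rw [Real.exp_add, Real.exp_log hl, mul_comm]
  exact mul_le_mul_of_nonneg_right (le_max_right _ _) hl.le

open Classical in
/-- the number of rough numbers after `n` -/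
noncomputable def rc (z H n : ℕ) : ℝ := ∑ h ∈ Icc 1 H, if (∀ p ∈ pz z, ¬ p ∣ n + h) then (1 : ℝ) else 0

lemma rc_nonneg (z H n : ℕ) : 0 ≤ rc z H n := sum_nonneg fun _ _ => by split_ifs <;> norm_num

open Classical in
lemma rc_pow (z H n m : ℕ) : rc z H n ^ m = ∑ h ∈ Fintype.piFinset (fun _ : Fin m => Icc 1 H), if (∀ p ∈ pz z, ¬ QQ h p n) then (1 : ℝ) else 0 := by
  unfold rc
  have h1 : (∑ h ∈ Icc 1 H, if (∀ p ∈ pz z, ¬ p ∣ n + h) then (1 : ℝ) else 0) ^ m =
      ∏ _i : Fin m, ∑ h ∈ Icc 1 H, if (∀ p ∈ pz z, ¬ p ∣ n + h) then (1 : ℝ) else 0 := by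
    rw [prod_const, card_univ, Fintype.card_fin]
  rw [h1, prod_univ_sum]
  apply sum_congr rfl
  intro h _
  rw [prod_boole]
  congr 1
  apply propext
  constructor
  · rintro h2 p hp ⟨i, hi⟩
    exact h2 i (mem_univ i) p hp hi
  · intro h2 i _ p hp hi
    exact h2 p hp ⟨i, hi⟩

lemma QQ_PerB {m : ℕ} (h : Fin m → ℕ) : PerB (QQ h) m := by
  classical
  refine ⟨QQ_per h, fun p hp => ?_⟩
  unfold nuB
  have h1 : (range p).filter (fun r => QQ h p r) ⊆ (univ : Finset (Fin m)).biUnion (fun i => (range p).filter (fun r => p ∣ r + h i)) := by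
    intro r hr
    rw [mem_filter] at hr
    obtain ⟨h2, i, hi⟩ := hr
    rw [mem_biUnion]
    exact ⟨i, mem_univ i, by rw [mem_filter]; exact ⟨h2, hi⟩⟩
  refine (card_le_card h1).trans (card_biUnion_le.trans ?_)
  have h2 : ∀ i ∈ (univ : Finset (Fin m)), ((range p).filter (fun r => p ∣ r + h i)).card ≤ 1 := by
    intro i _
    rw [card_le_one]
    intro a ha a' ha'
    rw [mem_filter, mem_range] at ha ha'
    have h3 : a ≡ a' [MOD p] := by
      apply Nat.ModEq.add_right_cancel' (h i)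
      exact ((Nat.modEq_zero_iff_dvd.2 ha.2).trans (Nat.modEq_zero_iff_dvd.2 ha'.2).symm)
    exact Nat.ModEq.eq_of_lt_of_lt h3 ha.1 ha'.1
  refine (sum_le_sum h2).trans ?_
  simp

/-- moments of the number of rough numbers -/
theorem rough_mom (m : ℕ) (hm : 1 ≤ m) : ∃ K x0 : ℕ, ∀ X z : ℕ, x0 ≤ z → z ^ K ≤ X → 
    (∀ H : ℕ, ∑ n ∈ Icc 1 X, rc z H n ^ m ≤ 2 * X * (∑ h ∈ Fintype.piFinset (fun _ : Fin m => Icc 1 H), Fh z h) + (H : ℝ) ^ m * √(X : ℝ)) ∧
    (∀ h : Fin m → ℕ, (∀ Q : ℕ → Prop, (∀ n, Q n ↔ ∀ p ∈ pz z, ¬ QQ h p n) → ∀ [DecidablePred Q], (((Icc 1 X).filter (fun n => Q n)).card : ℝ) ≤ 2 * X * Fh z h + √(X : ℝ))) := by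
  classical
  obtain ⟨K, x0, hK, hf⟩ := sys_fund m hm 1 one_pos
  refine ⟨K, x0, fun X z hz hzX => ?_⟩
  have key : ∀ h : Fin m → ℕ, (((Icc 1 X).filter (fun n : ℕ => ∀ p ∈ pz z, ¬ QQ h p n)).card : ℝ) ≤ 2 * X * Fh z h + √(X : ℝ) := by
    intro h
    have h1 := (abs_le.1 (hf X z hz hzX (QQ h) (QQ_PerB h) X)).2
    have h2 : X * ∏ p ∈ pz z, (1 - (nuB (QQ h) p : ℝ) / p) = X * Fh z h := rfl
    rw [h2] at h1
    have h3 : (((Icc 1 X).filter (fun n : ℕ => ∀ p ∈ pz z, ¬ QQ h p n)).card : ℝ) ≤ X * Fh z h + (1 * (X * Fh z h) + √(X : ℝ)) := by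
      have : ∀ a b c : ℝ, a - b ≤ c → a ≤ b + c := fun a b c h => by linarith
      apply this
      convert h1 using 4
    linarith
  refine ⟨fun H => ?_, fun h Q hQ _ => ?_⟩
  · have h1 : ∑ n ∈ Icc 1 X, rc z H n ^ m = ∑ h ∈ Fintype.piFinset (fun _ : Fin m => Icc 1 H), (((Icc 1 X).filter (fun n : ℕ => ∀ p ∈ pz z, ¬ QQ h p n)).card : ℝ) := by
      simp only [rc_pow]
      rw [sum_comm]
      apply sum_congr rfl
      intro h _
      rw [← sum_filter, sum_const, nsmul_eq_mul, mul_one]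
    rw [h1]
    refine (sum_le_sum fun h _ => key h).trans ?_
    rw [sum_add_distrib, ← mul_sum, sum_const, nsmul_eq_mul, Fintype.card_piFinset]
    simp
  · have h1 : (Icc 1 X).filter (fun n => Q n) = (Icc 1 X).filter (fun n : ℕ => ∀ p ∈ pz z, ¬ QQ h p n) := by
      apply filter_congr
      intro n _
      exact hQ n
    rw [h1]
    exact key h

/-- the sieving limit -/
lemma choose_z (K : ℕ) : ∃ X₀ : ℕ, ∀ X : ℕ, X₀ ≤ X → ∃ z : ℕ, z ^ (K + 2) ≤ X ∧ Real.log X ≤ 2 * (K + 2) * Real.log z := by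
  refine ⟨2 ^ (K + 2), fun X hX => ?_⟩
  have hX0 : 0 < X := lt_of_lt_of_le (Nat.pow_pos (by norm_num)) hX
  obtain ⟨t, ht⟩ : ∃ t, t = Nat.log 2 X / (K + 2) := ⟨_, rfl⟩
  have h2 : 0 < Real.log 2 := Real.log_pos (by norm_num)
  have ht1 : 1 ≤ t := by
    rw [ht]
    apply (Nat.le_div_iff_mul_le (by omega)).2
    rw [one_mul]
    exact Nat.le_log_of_pow_le (by norm_num) hX
  refine ⟨2 ^ t, ?_, ?_⟩
  · rw [← pow_mul]
    have e1 : t * (K + 2) ≤ Nat.log 2 X := by rw [ht]; exact Nat.div_mul_le_self _ _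
    exact (Nat.pow_le_pow_right (by norm_num) e1).trans (Nat.pow_log_le_self 2 (by omega))
  · push_cast
    rw [Real.log_pow]
    have e1 : Nat.log 2 X < (t + 1) * (K + 2) := (Nat.div_lt_iff_lt_mul (by omega)).1 (by omega)
    have e2 : X < 2 ^ ((t + 1) * (K + 2)) :=
      (Nat.lt_pow_succ_log_self (by norm_num) X).trans_le (Nat.pow_le_pow_right (by norm_num) e1)
    have e3 : Real.log X ≤ ((t + 1) * (K + 2) : ℕ) * Real.log 2 := by
      rw [← Real.log_pow]
      apply Real.log_le_log (by exact_mod_cast hX0)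
      exact_mod_cast e2.le
    refine e3.trans ?_
    push_cast
    have e4 : (1 : ℝ) ≤ t := by exact_mod_cast ht1
    have e5 : ((t : ℝ) + 1) * (K + 2) ≤ 2 * (K + 2) * t := by
      have : (0 : ℝ) ≤ K := Nat.cast_nonneg K
      nlinarith
    calc ((t : ℝ) + 1) * (K + 2) * Real.log 2 ≤ 2 * (K + 2) * t * Real.log 2 := mul_le_mul_of_nonneg_right e5 h2.le
      _ = _ := by ring

/-- primes are rough -/
lemma pi_le_rc (z H y : ℕ) (hz : z ≤ y) : (Nat.primeCounting (y + H) : ℝ) - Nat.primeCounting y ≤ rc z H y := by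
  rw [pi_diff]
  unfold rc
  apply sum_le_sum
  intro h hh
  rw [mem_Icc] at hh
  by_cases hp : (y + h).Prime
  · rw [if_pos hp, if_pos]
    intro p hp' hd
    rw [mem_pz] at hp'
    have := (Nat.prime_dvd_prime_iff_eq hp'.2 hp).1 hd
    omega
  · rw [if_neg hp]
    split_ifs <;> norm_num

/-- the moments of the number of primes in a window -/
theorem cH_mom (m : ℕ) (lam : ℝ) (hlam : 0 < lam) : ∃ C : ℝ, 1 ≤ C ∧ ∃ N₀ : ℕ, ∀ N : ℕ, N₀ ≤ N → ∀ H : ℕ, lam * Real.log N ≤ H →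
    ∑ y ∈ Ioc N (3 * N), cH N H y ^ m ≤ C * N := by
  rcases Nat.eq_zero_or_pos m with hm0 | hm
  · refine ⟨2, by norm_num, 0, fun N _ H _ => ?_⟩
    rw [hm0]
    simp only [pow_zero, sum_const, Nat.card_Ioc, nsmul_eq_mul, mul_one]
    have : 3 * N - N = 2 * N := by omega
    rw [this]
    push_cast
    linarith
  obtain ⟨K, x0, hK⟩ := rough_mom m hm
  obtain ⟨X₀, hX₀⟩ := choose_z K
  obtain ⟨CV, hCV1, hCV⟩ := Pool.Agent.W93.HD.Vz_log_le
  obtain ⟨CI, hCI1, hCI⟩ := Vz_inv_log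
  obtain ⟨C, hC1, hC⟩ := Fh_sum m (2 * CI / lam) (by positivity)
  obtain ⟨n1, h1⟩ := ev_L' (2 * (K + 2) * Real.log (x0 + 3) + 2 + Real.log 3)
  obtain ⟨n2, h2⟩ := ev_log' m 1
  obtain ⟨B, hB⟩ : ∃ B : ℝ, B = 2 * (K + 2) * CV := ⟨_, rfl⟩
  have hB0 : 0 ≤ B := by rw [hB]; positivity
  refine ⟨6 * C * B ^ m + 3, by nlinarith [mul_nonneg (zero_le_one.trans hC1) (pow_nonneg hB0 m)], X₀ + n1 + n2 + 3, fun N hN H hH => ?_⟩
  have hN3 : (3 : ℝ) ≤ N := by exact_mod_cast (by omega : 3 ≤ N)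
  obtain ⟨X, hX⟩ : ∃ X, X = 3 * N := ⟨_, rfl⟩
  have hXr : (X : ℝ) = 3 * N := by rw [hX]; push_cast; ring
  obtain ⟨z, hz1, hz2⟩ := hX₀ X (by omega)
  have hlogN : 0 < Real.log N := Real.log_pos (by linarith)
  have hlogX : Real.log N ≤ Real.log X := Real.log_le_log (by linarith) (by rw [hXr]; linarith)
  have hlogX2 : Real.log X ≤ 2 * Real.log N := by
    rw [hXr, Real.log_mul (by norm_num) (by linarith)]
    have := Real.log_le_log (by norm_num) hN3
    linarith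
  have e1 := h1 N (by omega)
  have e2 := h2 X (by omega)
  have hK2 : (0 : ℝ) < 2 * (K + 2) := by positivity
  have hzx : x0 + 3 ≤ z := by
    by_contra hcon
    push Not at hcon
    have e3 : Real.log z ≤ Real.log (x0 + 3) := by
      rcases Nat.eq_zero_or_pos z with h0 | h0
      · rw [h0]
        simp only [Nat.cast_zero, Real.log_zero]
        apply Real.log_nonneg
        have : (0 : ℝ) ≤ x0 := Nat.cast_nonneg _
        linarith
      · apply Real.log_le_log (by exact_mod_cast h0)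
        exact_mod_cast hcon.le
    have e4 := mul_le_mul_of_nonneg_left e3 hK2.le
    have e5 : (0 : ℝ) ≤ Real.log 3 := Real.log_nonneg (by norm_num)
    linarith
  have hzN : z ≤ N := by
    by_contra hcon
    push Not at hcon
    have e3 : z ^ 2 ≤ z ^ (K + 2) := Nat.pow_le_pow_right (by omega) (by omega)
    have e4 : N * z < z ^ 2 := by
      rw [sq]
      exact Nat.mul_lt_mul_of_pos_right hcon (by omega)
    have e5 : N * 3 ≤ N * z := Nat.mul_le_mul_left _ (by omega)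
    omega
  have hzX : z ^ K ≤ X := (Nat.pow_le_pow_right (by omega) (by omega)).trans hz1
  have hH0 : (0 : ℝ) < H := lt_of_lt_of_le (by positivity) hH
  obtain ⟨hr, -⟩ := hK X z (by omega) hzX
  have hr := hr H
  have hV0 := Vz_pos z
  have hlz : Real.log z ≤ Real.log X := by
    apply Real.log_le_log (by exact_mod_cast (by omega : 0 < z))
    rw [hXr]
    have : (z : ℝ) ≤ N := by exact_mod_cast hzN
    linarith
  have hVinv : (Vz z)⁻¹ ≤ 2 * CI / lam * H := by
    refine (hCI z (by omega)).trans ?_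
    calc CI * Real.log z ≤ CI * (2 * Real.log N) := mul_le_mul_of_nonneg_left (hlz.trans hlogX2) (by linarith)
      _ = 2 * CI / lam * (lam * Real.log N) := by field_simp
      _ ≤ _ := mul_le_mul_of_nonneg_left hH (by positivity)
  have hVl : Vz z * Real.log N ≤ B := by
    calc Vz z * Real.log N ≤ Vz z * (2 * (K + 2) * Real.log z) := mul_le_mul_of_nonneg_left (hlogX.trans hz2) hV0.le
      _ = 2 * (K + 2) * (Vz z * Real.log z) := by ring
      _ ≤ 2 * (K + 2) * CV := mul_le_mul_of_nonneg_left (hCV z (by omega)) hK2.le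
      _ = B := hB.symm
  have hF := hC z H hVinv
  have hstep : ∀ y ∈ Ioc N (3 * N), cH N H y ^ m ≤ (Real.log N / H) ^ m * rc z H y ^ m := by
    intro y hy
    rw [mem_Ioc] at hy
    rw [← mul_pow]
    apply pow_le_pow_left₀ (cH_nonneg N H y)
    unfold cH
    have := pi_le_rc z H y (by omega)
    calc ((Nat.primeCounting (y + H) : ℝ) - Nat.primeCounting y) * Real.log N / H ≤ rc z H y * Real.log N / H := by
          apply div_le_div_of_nonneg_right _ hH0.le
          exact mul_le_mul_of_nonneg_right this hlogN.le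
      _ = _ := by ring
  refine (sum_le_sum hstep).trans ?_
  rw [← mul_sum]
  have hsub : ∑ y ∈ Ioc N (3 * N), rc z H y ^ m ≤ ∑ n ∈ Icc 1 X, rc z H n ^ m := by
    apply sum_le_sum_of_subset_of_nonneg
    · intro y hy
      rw [mem_Ioc] at hy
      rw [mem_Icc]
      omega
    · intro _ _ _
      exact pow_nonneg (rc_nonneg _ _ _) m
  have hL0 : 0 ≤ (Real.log N / H) ^ m := by positivity
  refine (mul_le_mul_of_nonneg_left (hsub.trans hr) hL0).trans ?_
  have hsX : √(X : ℝ) * √(X : ℝ) = X := Real.mul_self_sqrt (Nat.cast_nonneg _)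
  have e3 : (Real.log N / H) ^ m * ((H : ℝ) ^ m * √(X : ℝ)) ≤ X := by
    have e4 : (Real.log N / H) ^ m * ((H : ℝ) ^ m * √(X : ℝ)) = Real.log N ^ m * √(X : ℝ) := by
      rw [div_pow]
      field_simp
    rw [e4]
    calc Real.log N ^ m * √(X : ℝ) ≤ (1 * Real.log X ^ m) * √(X : ℝ) := by
          apply mul_le_mul_of_nonneg_right _ (Real.sqrt_nonneg _)
          rw [one_mul]
          exact pow_le_pow_left₀ hlogN.le hlogX m
      _ ≤ √(X : ℝ) * √(X : ℝ) := mul_le_mul_of_nonneg_right e2 (Real.sqrt_nonneg _)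
      _ = X := hsX
  have e4 : (Real.log N / H) ^ m * (2 * X * (∑ h ∈ Fintype.piFinset (fun _ : Fin m => Icc 1 H), Fh z h)) ≤ 2 * X * (C * B ^ m) := by
    calc (Real.log N / H) ^ m * (2 * X * (∑ h ∈ Fintype.piFinset (fun _ : Fin m => Icc 1 H), Fh z h)) ≤
          (Real.log N / H) ^ m * (2 * X * (C * (Vz z * H) ^ m)) := by
          apply mul_le_mul_of_nonneg_left _ hL0
          exact mul_le_mul_of_nonneg_left hF (by positivity)
      _ = 2 * X * (C * (Vz z * Real.log N) ^ m) := by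
          rw [div_pow, mul_pow, mul_pow]
          field_simp
      _ ≤ 2 * X * (C * B ^ m) := by
          apply mul_le_mul_of_nonneg_left _ (by positivity)
          apply mul_le_mul_of_nonneg_left _ (by linarith)
          exact pow_le_pow_left₀ (by positivity) hVl m
  rw [mul_add]
  rw [hXr] at e3 e4 ⊢
  linarith

/-- pairs of primes in a window, uniformly in the window -/
theorem pair_mom : ∃ C : ℝ, 1 ≤ C ∧ ∃ N₀ : ℕ, ∀ N : ℕ, N₀ ≤ N → ∀ H : ℕ,
    ∑ y ∈ Ioc N (3 * N), ((Nat.primeCounting (y + H) : ℝ) - Nat.primeCounting y) * (((Nat.primeCounting (y + H) : ℝ) - Nat.primeCounting y) - 1) ≤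
      C * N * (H / Real.log N) ^ 2 := by
  classical
  obtain ⟨K, x0, hK⟩ := rough_mom 2 (by norm_num)
  obtain ⟨X₀, hX₀⟩ := choose_z K
  obtain ⟨CV, hCV1, hCV⟩ := Pool.Agent.W93.HD.Vz_log_le
  obtain ⟨C, hC1, hC⟩ := Fh_pair
  obtain ⟨n1, h1⟩ := ev_L' (2 * (K + 2) * Real.log (x0 + 3) + 2 + Real.log 3)
  obtain ⟨n2, h2⟩ := ev_log' 2 1
  obtain ⟨B, hB⟩ : ∃ B : ℝ, B = 2 * (K + 2) * CV := ⟨_, rfl⟩
  have hB0 : 0 ≤ B := by rw [hB]; positivity
  refine ⟨6 * C * B ^ 2 + 3, by nlinarith [mul_nonneg (zero_le_one.trans hC1) (pow_nonneg hB0 2)], X₀ + n1 + n2 + 3, fun N hN H => ?_⟩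
  have hN3 : (3 : ℝ) ≤ N := by exact_mod_cast (by omega : 3 ≤ N)
  obtain ⟨X, hX⟩ : ∃ X, X = 3 * N := ⟨_, rfl⟩
  have hXr : (X : ℝ) = 3 * N := by rw [hX]; push_cast; ring
  obtain ⟨z, hz1, hz2⟩ := hX₀ X (by omega)
  have hlogN : 0 < Real.log N := Real.log_pos (by linarith)
  have hlogX : Real.log N ≤ Real.log X := Real.log_le_log (by linarith) (by rw [hXr]; linarith)
  have e1 := h1 N (by omega)
  have e2 := h2 X (by omega)
  have hK2 : (0 : ℝ) < 2 * (K + 2) := by positivity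
  have hzx : x0 + 3 ≤ z := by
    by_contra hcon
    push Not at hcon
    have e3 : Real.log z ≤ Real.log (x0 + 3) := by
      rcases Nat.eq_zero_or_pos z with h0 | h0
      · rw [h0]
        simp only [Nat.cast_zero, Real.log_zero]
        apply Real.log_nonneg
        have : (0 : ℝ) ≤ x0 := Nat.cast_nonneg _
        linarith
      · apply Real.log_le_log (by exact_mod_cast h0)
        exact_mod_cast hcon.le
    have e4 := mul_le_mul_of_nonneg_left e3 hK2.le
    have e5 : (0 : ℝ) ≤ Real.log 3 := Real.log_nonneg (by norm_num)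
    linarith
  have hzN : z ≤ N := by
    by_contra hcon
    push Not at hcon
    have e3 : z ^ 2 ≤ z ^ (K + 2) := Nat.pow_le_pow_right (by omega) (by omega)
    have e4 : N * z < z ^ 2 := by
      rw [sq]
      exact Nat.mul_lt_mul_of_pos_right hcon (by omega)
    have e5 : N * 3 ≤ N * z := Nat.mul_le_mul_left _ (by omega)
    omega
  have hzX : z ^ K ≤ X := (Nat.pow_le_pow_right (by omega) (by omega)).trans hz1
  obtain ⟨-, hr⟩ := hK X z (by omega) hzX
  have hV0 := Vz_pos z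
  have hVl : Vz z * Real.log N ≤ B := by
    calc Vz z * Real.log N ≤ Vz z * (2 * (K + 2) * Real.log z) := mul_le_mul_of_nonneg_left (hlogX.trans hz2) hV0.le
      _ = 2 * (K + 2) * (Vz z * Real.log z) := by ring
      _ ≤ 2 * (K + 2) * CV := mul_le_mul_of_nonneg_left (hCV z (by omega)) hK2.le
      _ = B := hB.symm
  have hF := hC z H
  -- the expansion
  have hexp : ∀ y ∈ Ioc N (3 * N), ((Nat.primeCounting (y + H) : ℝ) - Nat.primeCounting y) * (((Nat.primeCounting (y + H) : ℝ) - Nat.primeCounting y) - 1) ≤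
      ∑ h ∈ Icc 1 H, ∑ a ∈ (Icc 1 H).filter (fun a => h ≠ a), (if ∀ p ∈ pz z, ¬ QQ ![a, h] p y then (1 : ℝ) else 0) := by
    intro y hy
    rw [mem_Ioc] at hy
    obtain ⟨f, hf⟩ : ∃ f : ℕ → ℝ, f = fun h => if (y + h).Prime then (1 : ℝ) else 0 := ⟨_, rfl⟩
    have hπ : (Nat.primeCounting (y + H) : ℝ) - Nat.primeCounting y = ∑ h ∈ Icc 1 H, f h := by rw [pi_diff, hf]
    have hff : ∀ h, f h * f h = f h := by
      intro h
      rw [hf]
      simp only
      split_ifs <;> norm_num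
    have e3 : (∑ h ∈ Icc 1 H, f h) * ((∑ h ∈ Icc 1 H, f h) - 1) = ∑ h ∈ Icc 1 H, ∑ a ∈ (Icc 1 H).filter (fun a => h ≠ a), f h * f a := by
      have e4 : ∀ h ∈ Icc 1 H, ∑ a ∈ (Icc 1 H).filter (fun a => h ≠ a), f h * f a = f h * (∑ a ∈ Icc 1 H, f a) - f h := by
        intro h hh
        have e5 : ∑ a ∈ Icc 1 H, f h * f a = ∑ a ∈ (Icc 1 H).filter (fun a => h ≠ a), f h * f a + ∑ a ∈ (Icc 1 H).filter (fun a => ¬ h ≠ a), f h * f a :=
          (sum_filter_add_sum_filter_not _ _ _).symm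
        have e6 : (Icc 1 H).filter (fun a => ¬ h ≠ a) = {h} := by
          ext a
          rw [mem_filter, mem_singleton]
          constructor
          · rintro ⟨_, h7⟩
            push Not at h7
            exact h7.symm
          · intro h7
            rw [h7]
            exact ⟨hh, by simp⟩
        rw [e6, sum_singleton, hff, ← mul_sum] at e5
        linarith
      rw [sum_congr rfl e4, sum_sub_distrib, ← sum_mul]
      ring
    rw [hπ, e3]
    apply sum_le_sum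
    intro h hh
    apply sum_le_sum
    intro a ha
    rw [mem_filter, mem_Icc] at ha
    rw [mem_Icc] at hh
    rw [hf]
    simp only
    by_cases h1 : (y + h).Prime
    · by_cases h2 : (y + a).Prime
      · rw [if_pos h1, if_pos h2, if_pos, mul_one]
        rintro p hp ⟨i, hi⟩
        rw [mem_pz] at hp
        fin_cases i
        · have e5 : p ∣ y + a := hi
          have := (Nat.prime_dvd_prime_iff_eq hp.2 h2).1 e5
          omega
        · have e5 : p ∣ y + h := hi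
          have := (Nat.prime_dvd_prime_iff_eq hp.2 h1).1 e5
          omega
      · rw [if_neg h2, mul_zero]
        split_ifs <;> norm_num
    · rw [if_neg h1, zero_mul]
      split_ifs <;> norm_num
  refine (sum_le_sum hexp).trans ?_
  have hcnt : ∑ y ∈ Ioc N (3 * N), ∑ h ∈ Icc 1 H, ∑ a ∈ (Icc 1 H).filter (fun a => h ≠ a), (if ∀ p ∈ pz z, ¬ QQ ![a, h] p y then (1 : ℝ) else 0) ≤
      ∑ h ∈ Icc 1 H, ∑ a ∈ (Icc 1 H).filter (fun a => h ≠ a), (2 * X * Fh z ![a, h] + √(X : ℝ)) := by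
    rw [sum_comm]
    apply sum_le_sum
    intro h _
    rw [sum_comm]
    apply sum_le_sum
    intro a _
    refine le_trans ?_ (hr ![a, h] (fun n => ∀ p ∈ pz z, ¬ QQ ![a, h] p n) (fun _ => Iff.rfl))
    rw [← sum_filter, sum_const, nsmul_eq_mul, mul_one]
    apply Nat.cast_le.2
    apply card_le_card
    apply filter_subset_filter
    intro y hy
    rw [mem_Ioc] at hy
    rw [mem_Icc]
    omega
  refine hcnt.trans ?_
  have hsplit : ∑ h ∈ Icc 1 H, ∑ a ∈ (Icc 1 H).filter (fun a => h ≠ a), (2 * X * Fh z ![a, h] + √(X : ℝ)) ≤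
      2 * X * (C * (Vz z * H) ^ 2) + (H : ℝ) ^ 2 * √(X : ℝ) := by
    simp only [sum_add_distrib, ← mul_sum]
    have e3 : ∑ h ∈ Icc 1 H, ∑ a ∈ (Icc 1 H).filter (fun a => h ≠ a), √(X : ℝ) ≤ (H : ℝ) ^ 2 * √(X : ℝ) := by
      have e4 : ∀ h ∈ Icc 1 H, ∑ a ∈ (Icc 1 H).filter (fun a => h ≠ a), √(X : ℝ) ≤ H * √(X : ℝ) := by
        intro h _
        rw [sum_const, nsmul_eq_mul]
        apply mul_le_mul_of_nonneg_right _ (Real.sqrt_nonneg _)
        have := card_filter_le (Icc 1 H) (fun a => h ≠ a)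
        rw [Nat.card_Icc, Nat.add_sub_cancel] at this
        exact_mod_cast this
      refine (sum_le_sum e4).trans (le_of_eq ?_)
      rw [sum_const, Nat.card_Icc, Nat.add_sub_cancel, nsmul_eq_mul]
      ring
    have e5 := mul_le_mul_of_nonneg_left hF (show (0 : ℝ) ≤ 2 * X by positivity)
    linarith
  refine hsplit.trans ?_
  have hsX : √(X : ℝ) * √(X : ℝ) = X := Real.mul_self_sqrt (Nat.cast_nonneg _)
  have e3 : Real.log N ^ 2 * ((H : ℝ) ^ 2 * √(X : ℝ)) ≤ X * (H : ℝ) ^ 2 := by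
    calc Real.log N ^ 2 * ((H : ℝ) ^ 2 * √(X : ℝ)) = (H : ℝ) ^ 2 * (Real.log N ^ 2 * √(X : ℝ)) := by ring
      _ ≤ (H : ℝ) ^ 2 * (√(X : ℝ) * √(X : ℝ)) := by
          apply mul_le_mul_of_nonneg_left _ (sq_nonneg _)
          apply mul_le_mul_of_nonneg_right _ (Real.sqrt_nonneg _)
          refine le_trans ?_ e2
          rw [one_mul]
          exact pow_le_pow_left₀ hlogN.le hlogX 2
      _ = _ := by rw [hsX]; ring
  have e4 : Real.log N ^ 2 * (2 * X * (C * (Vz z * H) ^ 2)) ≤ 2 * X * (C * B ^ 2) * (H : ℝ) ^ 2 := by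
    calc Real.log N ^ 2 * (2 * X * (C * (Vz z * H) ^ 2)) = 2 * X * (C * (Vz z * Real.log N) ^ 2) * (H : ℝ) ^ 2 := by ring
      _ ≤ 2 * X * (C * B ^ 2) * (H : ℝ) ^ 2 := by
          apply mul_le_mul_of_nonneg_right _ (sq_nonneg _)
          apply mul_le_mul_of_nonneg_left _ (by positivity)
          apply mul_le_mul_of_nonneg_left _ (by linarith)
          exact pow_le_pow_left₀ (by positivity) hVl 2
  rw [div_pow, ← mul_div_assoc, le_div_iff₀ (by positivity)]
  rw [hXr] at e3 e4 ⊢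
  nlinarith

end Pool.Agent.H86.PM
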