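import Pool.Agent.H86.T2

set_option autoImplicit false

/-! Mixed moments of the numbers of primes in windows at few-power distances. -/

namespace Pool.Agent.H86.PM
open Finset
open Pool.Agent.H86.PW
open Pool.Agent.H86.PG
open Pool.Agent.H373R2.T7

lemma pi_avg (D : Finset ℕ) (r : ℕ) (i : Fin r) (F : (Fin r → ℕ) → ℝ) :
    ∑ d ∈ Fintype.piFinset (fun _ : Fin r => D), ∑ v ∈ D, F (Function.update d i v) =
      D.card * ∑ d ∈ Fintype.piFinset (fun _ : Fin r => D), F d := by
  classical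
  have h1 : ∑ d ∈ Fintype.piFinset (fun _ : Fin r => D), ∑ v ∈ D, F (Function.update d i v) =
      ∑ x ∈ (Fintype.piFinset (fun _ : Fin r => D)) ×ˢ D, F (Function.update x.1 i x.2) := by
    rw [sum_product]
  have h2 : ∑ x ∈ (Fintype.piFinset (fun _ : Fin r => D)) ×ˢ D, F x.1 = D.card * ∑ d ∈ Fintype.piFinset (fun _ : Fin r => D), F d := by
    rw [sum_product, mul_sum]
    apply sum_congr rfl
    intro d _
    simp
  rw [h1, ← h2]
  have hmem : ∀ x ∈ (Fintype.piFinset (fun _ : Fin r => D)) ×ˢ D, (Function.update x.1 i x.2, x.1 i) ∈ (Fintype.piFinset (fun _ : Fin r => D)) ×ˢ D := by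
    intro x hx
    rw [mem_product, Fintype.mem_piFinset] at hx
    rw [mem_product, Fintype.mem_piFinset]
    refine ⟨fun j => ?_, hx.1 i⟩
    by_cases hj : j = i
    · subst hj
      simp only [Function.update_self]
      exact hx.2
    · show Function.update x.1 i x.2 j ∈ D
      rw [Function.update_of_ne hj]
      exact hx.1 j
  apply sum_nbij' (fun x => (Function.update x.1 i x.2, x.1 i)) (fun x => (Function.update x.1 i x.2, x.1 i)) hmem hmem
  · rintro ⟨d, v⟩ _
    simp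
  · rintro ⟨d, v⟩ _
    simp
  · rintro ⟨d, v⟩ _
    rfl

/-- one coordinate -/
lemma coord_step (lam δ : ℝ) (N : ℕ) (D : Finset ℕ) (hδ : 0 ≤ δ) (hMS : MS lam δ N D) (r : ℕ) (i : Fin r) (H : ℕ)
    (hH1 : lam * Real.log N ≤ H) (hH2 : H ≤ N) (W : (Fin r → ℕ) → ℕ → ℝ) (hW : ∀ d v x, W (Function.update d i v) x = W d x) (B : ℝ) (hB0 : 0 ≤ B)
    (hB : ∀ d ∈ Fintype.piFinset (fun _ : Fin r => D), ∑ x ∈ Ioc N (2 * N), W d x ^ 2 ≤ B * N) :
    ∑ d ∈ Fintype.piFinset (fun _ : Fin r => D), |∑ x ∈ Ioc N (2 * N), W d x * (cH N H (x + d i) - 1)| ≤ √(δ * B) * N * (D.card : ℝ) ^ r := by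
  classical
  rcases D.eq_empty_or_nonempty with hD | hD
  · have : Fintype.piFinset (fun _ : Fin r => D) = ∅ := by
      rw [eq_empty_iff_forall_notMem]
      intro d hd
      rw [Fintype.mem_piFinset] at hd
      have := hd i
      rw [hD] at this
      simp at this
    rw [this, sum_empty]
    positivity
  · have hDc : (0 : ℝ) < D.card := by exact_mod_cast hD.card_pos
    have h1 := pi_avg D r i (fun d => |∑ x ∈ Ioc N (2 * N), W d x * (cH N H (x + d i) - 1)|)
    simp only [hW, Function.update_self] at h1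
    have h2 : ∀ d ∈ Fintype.piFinset (fun _ : Fin r => D), ∑ v ∈ D, |∑ x ∈ Ioc N (2 * N), W d x * (cH N H (x + v) - 1)| ≤
        D.card * (√(δ * B) * N) := by
      intro d hd
      have e1 := hMS H hH1 hH2 (W d)
      have e2 := sq_sum_le_card_mul_sum_sq (s := D) (f := fun v => |∑ x ∈ Ioc N (2 * N), W d x * (cH N H (x + v) - 1)|)
      simp only [sq_abs] at e2
      have e3 : δ * D.card * (N * ∑ x ∈ Ioc N (2 * N), W d x ^ 2) ≤ δ * D.card * (N * (B * N)) := by
        apply mul_le_mul_of_nonneg_left _ (by positivity)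
        exact mul_le_mul_of_nonneg_left (hB d hd) (by positivity)
      have e4 : (∑ v ∈ D, |∑ x ∈ Ioc N (2 * N), W d x * (cH N H (x + v) - 1)|) ^ 2 ≤ (D.card * (√(δ * B) * N)) ^ 2 := by
        refine e2.trans ((mul_le_mul_of_nonneg_left (e1.trans e3) hDc.le).trans (le_of_eq ?_))
        rw [mul_pow, mul_pow, Real.sq_sqrt (by positivity)]
        ring
      exact abs_le_of_sq_le_sq' e4 (by positivity) |>.2
    have h3 := sum_le_sum h2
    rw [h1, sum_const, Fintype.card_piFinset, nsmul_eq_mul] at h3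
    simp only [prod_const, card_univ, Fintype.card_fin] at h3
    push_cast at h3
    have h4 : (D.card : ℝ) * (∑ d ∈ Fintype.piFinset (fun _ : Fin r => D), |∑ x ∈ Ioc N (2 * N), W d x * (cH N H (x + d i) - 1)|) ≤
        D.card * (√(δ * B) * N * (D.card : ℝ) ^ r) := by
      refine h3.trans (le_of_eq ?_)
      ring
    exact le_of_mul_le_mul_left h4 hDc

/-- several coordinates -/
theorem multi (lam δ : ℝ) (N : ℕ) (D : Finset ℕ) (hδ : 0 ≤ δ) (hMS : MS lam δ N D) (r : ℕ) (H : Fin r → ℕ)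
    (hH1 : ∀ i, lam * Real.log N ≤ H i) (hH2 : ∀ i, H i ≤ N) (W : (Fin r → ℕ) → ℕ → ℝ) (B : ℝ) (hB0 : 0 ≤ B) (T : Finset (Fin r))
    (hW : ∀ i ∈ T, ∀ d v x, W (Function.update d i v) x = W d x)
    (hB : ∀ S : Finset (Fin r), S ⊆ T → ∀ d ∈ Fintype.piFinset (fun _ : Fin r => D), ∑ x ∈ Ioc N (2 * N), (W d x * ∏ i ∈ S, cH N (H i) (x + d i)) ^ 2 ≤ B * N) :
    ∑ d ∈ Fintype.piFinset (fun _ : Fin r => D), |∑ x ∈ Ioc N (2 * N), W d x * (∏ i ∈ T, cH N (H i) (x + d i) - 1)| ≤
      T.card * (√(δ * B) * N * (D.card : ℝ) ^ r) := by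
  classical
  induction T using Finset.induction_on with
  | empty => simp
  | insert i T hi ih =>
    have h1 := ih (fun j hj => hW j (mem_insert_of_mem hj)) (fun S hS => hB S (hS.trans (subset_insert _ _)))
    have h2 := coord_step lam δ N D hδ hMS r i (H i) (hH1 i) (hH2 i) (fun d x => W d x * ∏ j ∈ T, cH N (H j) (x + d j)) (by
        intro d v x
        rw [hW i (mem_insert_self _ _)]
        congr 1
        apply prod_congr rfl
        intro j hj
        have : j ≠ i := fun h => hi (h ▸ hj)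
        rw [Function.update_of_ne this]) B hB0 (hB T (subset_insert _ _))
    rw [card_insert_of_notMem hi]
    push_cast
    rw [add_mul, one_mul]
    refine le_trans ?_ (add_le_add h1 h2)
    rw [← sum_add_distrib]
    apply sum_le_sum
    intro d _
    refine le_trans (le_of_eq ?_) (abs_add_le _ _)
    congr 1
    rw [← sum_add_distrib]
    apply sum_congr rfl
    intro x _
    rw [prod_insert hi]
    ring

/-- the envelope -/
lemma envelope (r : ℕ) (lam : ℝ) (hlam : 0 < lam) : ∃ B : ℝ, 1 ≤ B ∧ ∃ N₀ : ℕ, ∀ N : ℕ, N₀ ≤ N → ∀ D : Finset ℕ, (∀ d ∈ D, d ≤ N) →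
    ∀ H : Fin r → ℕ, (∀ i, lam * Real.log N ≤ H i) → ∀ d ∈ Fintype.piFinset (fun _ : Fin r => D),
    ∑ x ∈ Ioc N (2 * N), ∏ i, (1 + cH N (H i) (x + d i)) ^ 4 ≤ B * N := by
  classical
  obtain ⟨C, hC1, N₀, hC⟩ := cH_mom (4 * r) lam hlam
  refine ⟨1 + r * (2 ^ (4 * r) * (1 + C)), by
    have : (0 : ℝ) ≤ r * (2 ^ (4 * r) * (1 + C)) := by positivity
    linarith, N₀, fun N hN D hD H hH d hd => ?_⟩
  rw [Fintype.mem_piFinset] at hd
  have hc0 : ∀ (i : Fin r) (x : ℕ), 0 ≤ cH N (H i) (x + d i) := fun i x => cH_nonneg _ _ _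
  have h1 : ∀ x ∈ Ioc N (2 * N), ∏ i, (1 + cH N (H i) (x + d i)) ^ 4 ≤ 1 + ∑ i, 2 ^ (4 * r) * (1 + cH N (H i) (x + d i) ^ (4 * r)) := by
    intro x _
    refine (prod_le_sum _ (fun i => by have := hc0 i x; positivity)).trans ?_
    have : ∀ i ∈ (univ : Finset (Fin r)), ((1 + cH N (H i) (x + d i)) ^ 4) ^ r ≤ 2 ^ (4 * r) * (1 + cH N (H i) (x + d i) ^ (4 * r)) := by
      intro i _
      have h0 := hc0 i x
      rw [← pow_mul]
      rcases le_total (cH N (H i) (x + d i)) 1 with h | h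
      · calc (1 + cH N (H i) (x + d i)) ^ (4 * r) ≤ 2 ^ (4 * r) := pow_le_pow_left₀ (by linarith) (by linarith) _
          _ ≤ _ := by
              have := pow_nonneg h0 (4 * r)
              have h2 : (0 : ℝ) ≤ 2 ^ (4 * r) := by positivity
              nlinarith
      · calc (1 + cH N (H i) (x + d i)) ^ (4 * r) ≤ (2 * cH N (H i) (x + d i)) ^ (4 * r) := pow_le_pow_left₀ (by linarith) (by linarith) _
          _ = 2 ^ (4 * r) * cH N (H i) (x + d i) ^ (4 * r) := mul_pow _ _ _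
          _ ≤ _ := by
              have h2 : (0 : ℝ) ≤ 2 ^ (4 * r) := by positivity
              nlinarith
    have := sum_le_sum this
    linarith
  refine (sum_le_sum h1).trans ?_
  rw [sum_add_distrib, sum_comm]
  have h2 : ∀ i ∈ (univ : Finset (Fin r)), ∑ x ∈ Ioc N (2 * N), 2 ^ (4 * r) * (1 + cH N (H i) (x + d i) ^ (4 * r)) ≤ 2 ^ (4 * r) * (1 + C) * N := by
    intro i _
    rw [← mul_sum, sum_add_distrib]
    have e1 : ∑ x ∈ Ioc N (2 * N), cH N (H i) (x + d i) ^ (4 * r) ≤ C * N := by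
      refine le_trans ?_ (hC N hN (H i) (hH i))
      rw [← sum_image (s := Ioc N (2 * N)) (g := fun x => x + d i) (f := fun y => cH N (H i) y ^ (4 * r)) (by intro a _ b _ h; simpa using h)]
      apply sum_le_sum_of_subset_of_nonneg
      · intro y hy
        rw [mem_image] at hy
        obtain ⟨x, hx, rfl⟩ := hy
        rw [mem_Ioc] at hx ⊢
        have := hD _ (hd i)
        omega
      · intro _ _ _
        exact pow_nonneg (cH_nonneg _ _ _) _
    have e2 : ∑ x ∈ Ioc N (2 * N), (1 : ℝ) = N := by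
      rw [sum_const, Nat.card_Ioc, nsmul_eq_mul, mul_one]
      congr 1
      omega
    rw [e2]
    have : (0 : ℝ) ≤ 2 ^ (4 * r) := by positivity
    nlinarith
  have h3 := sum_le_sum h2
  rw [sum_const, card_univ, Fintype.card_fin, nsmul_eq_mul] at h3
  have e2 : ∑ x ∈ Ioc N (2 * N), (1 : ℝ) = N := by
    rw [sum_const, Nat.card_Ioc, nsmul_eq_mul, mul_one]
    congr 1
    omega
  rw [e2]
  nlinarith

end Pool.Agent.H86.PM
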