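import Pool.Agent.H86.T3

set_option autoImplicit false

/-! The joint law of the next primes at few-power distances, on the small scale. -/

namespace Pool.Agent.H86.PM
open Finset
open Pool.Agent.H86.PW
open Pool.Agent.H86.PG
open Pool.Agent.H373R2.T7

/-- the number of primes in `(y, y + H]` -/
def an (H y : ℕ) : ℕ := Nat.primeCounting (y + H) - Nat.primeCounting y

lemma an_cast (H y : ℕ) : (an H y : ℝ) = (Nat.primeCounting (y + H) : ℝ) - Nat.primeCounting y := by
  unfold an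
  exact Nat.cast_sub (Nat.monotone_primeCounting (by omega))

lemma an_pos_iff (H y : ℕ) : 1 ≤ an H y ↔ ∃ p : ℕ, p.Prime ∧ y < p ∧ p ≤ y + H := by
  constructor
  · intro h
    by_contra hcon
    push Not at hcon
    have h0 : (an H y : ℝ) = 0 := by
      rw [an_cast, pi_diff]
      apply sum_eq_zero
      intro j hj
      rw [mem_Icc] at hj
      rw [if_neg]
      intro hp
      have := hcon _ hp (by omega)
      omega
    have : an H y = 0 := by exact_mod_cast h0
    omega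
  · rintro ⟨p, hp, h1, h2⟩
    have h3 : (1 : ℝ) ≤ an H y := by
      rw [an_cast, pi_diff]
      have h5 : p - y ∈ Icc 1 H := mem_Icc.2 ⟨by omega, by omega⟩
      have h6 := single_le_sum (f := fun h => if (y + h).Prime then (1 : ℝ) else 0) (fun i _ => by split_ifs <;> norm_num) h5
      have h7 : (if (y + (p - y)).Prime then (1 : ℝ) else 0) = 1 := by
        rw [if_pos]
        rwa [show y + (p - y) = p by omega]
      exact h7.ge.trans h6
    exact_mod_cast h3

lemma an_eq (N H y : ℕ) (hH : 0 < (H : ℝ)) (hN : 0 < Real.log N) : (an H y : ℝ) = (H / Real.log N) * cH N H y := by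
  rw [an_cast]
  unfold cH
  field_simp

lemma ind_upper {ι : Type*} [DecidableEq ι] (T : Finset ι) (a : ι → ℕ) [Decidable (∀ i ∈ T, 1 ≤ a i)] :
    (if ∀ i ∈ T, 1 ≤ a i then (1 : ℝ) else 0) ≤ ∏ i ∈ T, (a i : ℝ) := by
  split_ifs with h
  · apply one_le_prod'
    intro i hi
    exact_mod_cast h i hi
  · exact prod_nonneg fun _ _ => Nat.cast_nonneg _

lemma ind_lower {ι : Type*} [DecidableEq ι] (T : Finset ι) (a : ι → ℕ) [Decidable (∀ i ∈ T, 1 ≤ a i)] :
    ∏ i ∈ T, (a i : ℝ) - ∑ j ∈ T, (a j : ℝ) * (a j - 1) * ∏ i ∈ T.erase j, (a i : ℝ) ≤ (if ∀ i ∈ T, 1 ≤ a i then (1 : ℝ) else 0) := by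
  have h1 : ∑ j ∈ T, (a j : ℝ) * (a j - 1) * ∏ i ∈ T.erase j, (a i : ℝ) = (∑ j ∈ T, ((a j : ℝ) - 1)) * ∏ i ∈ T, (a i : ℝ) := by
    rw [sum_mul]
    apply sum_congr rfl
    intro j hj
    rw [← mul_prod_erase T (fun i => (a i : ℝ)) hj]
    ring
  rw [h1]
  split_ifs with h
  · have h2 : ∀ j ∈ T, ((a j : ℝ) - 1) = ((a j - 1 : ℕ) : ℝ) := by
      intro j hj
      rw [Nat.cast_sub (h j hj)]
      simp
    rw [sum_congr rfl h2, ← Nat.cast_sum]
    obtain ⟨s, hs⟩ : ∃ s, s = ∑ j ∈ T, (a j - 1) := ⟨_, rfl⟩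
    rw [← hs]
    have h3 : 0 ≤ ∏ i ∈ T, (a i : ℝ) := prod_nonneg fun _ _ => Nat.cast_nonneg _
    rcases Nat.eq_zero_or_pos s with h0 | h0
    · have h4 : ∀ j ∈ T, a j = 1 := by
        intro j hj
        have h5 : ∑ j ∈ T, (a j - 1) = 0 := by rw [← hs, h0]
        have h6 := (sum_eq_zero_iff.1 h5) j hj
        have := h j hj
        omega
      rw [h0, prod_congr rfl (fun i hi => by rw [h4 i hi])]
      simp
    · have h4 : (1 : ℝ) ≤ s := by exact_mod_cast h0
      nlinarith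
  · push Not at h
    obtain ⟨i, hi, h2⟩ := h
    rw [prod_eq_zero hi (show (a i : ℝ) = 0 by exact_mod_cast (by omega : a i = 0))]
    simp

/-- Markov -/
lemma markov' {ι : Type*} (s : Finset ι) (F : ι → ℝ) (η S : ℝ) (hη : 0 < η) (hF : ∀ i ∈ s, 0 ≤ F i) (hS : ∑ i ∈ s, F i ≤ S)
    [DecidablePred (fun i => η < F i)] : ((s.filter (fun i => η < F i)).card : ℝ) ≤ S / η := by
  rw [le_div_iff₀ hη]
  calc ((s.filter (fun i => η < F i)).card : ℝ) * η = ∑ i ∈ s.filter (fun i => η < F i), η := by rw [sum_const, nsmul_eq_mul]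
    _ ≤ ∑ i ∈ s.filter (fun i => η < F i), F i := by
        apply sum_le_sum
        intro i hi
        rw [mem_filter] at hi
        exact hi.2.le
    _ ≤ ∑ i ∈ s, F i := sum_le_sum_of_subset_of_nonneg (filter_subset _ _) (fun i hi _ => hF i hi)
    _ ≤ S := hS

/-- the error terms for one tuple -/
structure Good (N r : ℕ) (η : ℝ) (H : Fin r → ℕ) (A : Finset ℕ) (d : Fin r → ℕ) : Prop where
  one : ∀ T : Finset (Fin r), |∑ x ∈ A, (∏ i ∈ T, cH N (H i) (x + d i) - 1)| ≤ η * N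
  two : ∀ T : Finset (Fin r), ∀ j ∉ T, |∑ x ∈ A, ((an (H j) (x + d j) : ℝ) * (an (H j) (x + d j) - 1)) * (∏ i ∈ T, cH N (H i) (x + d i) - 1)| ≤ η * N

open Classical in
/-- almost all tuples are good -/
theorem good_most (r : ℕ) (lam : ℝ) (hlam : 0 < lam) (η ε : ℝ) (hη : 0 < η) (hε : 0 < ε) : ∃ δ₀ : ℝ, 0 < δ₀ ∧ ∃ N₀ : ℕ, ∀ N : ℕ, N₀ ≤ N →
    ∀ (δ : ℝ) (D : Finset ℕ), 0 ≤ δ → δ ≤ δ₀ → (∀ d ∈ D, d ≤ N) → MS lam δ N D → ∀ A : Finset ℕ, A ⊆ Ioc N (2 * N) → ∀ H : Fin r → ℕ,
    (∀ i, lam * Real.log N ≤ H i ∧ (H i : ℝ) ≤ Real.log N) →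
    (((Fintype.piFinset (fun _ : Fin r => D)).filter (fun d => ¬ Good N r η H A d)).card : ℝ) ≤ ε * (D.card : ℝ) ^ r := by
  obtain ⟨B, hB1, N₀, hB⟩ := envelope r lam hlam
  obtain ⟨ε', hε'⟩ : ∃ ε' : ℝ, ε' = ε / (2 ^ r * (1 + r)) := ⟨_, rfl⟩
  have hε'0 : 0 < ε' := by rw [hε']; positivity
  obtain ⟨s, hs⟩ : ∃ s : ℝ, s = η * ε' / (r + 1) := ⟨_, rfl⟩
  have hs0 : 0 < s := by rw [hs]; positivity
  obtain ⟨n1, h1⟩ := ev_L' 1
  refine ⟨s ^ 2 / B, by positivity, N₀ + n1 + 2, fun N hN δ D hδ hδ1 hD hMS A hA H hH => ?_⟩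
  have hN0 : (2 : ℝ) ≤ N := by exact_mod_cast (by omega : 2 ≤ N)
  have hlog : 1 ≤ Real.log N := h1 N (by omega)
  have hlogN : Real.log N ≤ N := by
    have := Real.log_le_sub_one_of_pos (show (0 : ℝ) < N by linarith)
    linarith
  have hH1 : ∀ i, lam * Real.log N ≤ H i := fun i => (hH i).1
  have hH2 : ∀ i, H i ≤ N := fun i => by
    have : (H i : ℝ) ≤ N := (hH i).2.trans hlogN
    exact_mod_cast this
  have hsB : √(δ * B) ≤ s := by
    rw [Real.sqrt_le_left hs0.le]
    calc δ * B ≤ s ^ 2 / B * B := mul_le_mul_of_nonneg_right hδ1 (by linarith)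
      _ = s ^ 2 := by field_simp
  have henv := hB N (by omega) D hD H hH1
  have hc0 : ∀ (i : Fin r) (y : ℕ), 0 ≤ cH N (H i) y := fun i y => cH_nonneg _ _ _
  have hDr : (0 : ℝ) ≤ (D.card : ℝ) ^ r := by positivity
  -- the general estimate
  have key : ∀ (T : Finset (Fin r)) (W : (Fin r → ℕ) → ℕ → ℝ), (∀ i ∈ T, ∀ d v x, W (Function.update d i v) x = W d x) →
      (∀ d x, 0 ≤ W d x) → (∀ S : Finset (Fin r), S ⊆ T → ∀ d x, W d x * ∏ i ∈ S, cH N (H i) (x + d i) ≤ ∏ i, (1 + cH N (H i) (x + d i)) ^ 2) →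
      (((Fintype.piFinset (fun _ : Fin r => D)).filter (fun d => η * N < |∑ x ∈ Ioc N (2 * N), W d x * (∏ i ∈ T, cH N (H i) (x + d i) - 1)|)).card : ℝ) ≤
        ε' * (D.card : ℝ) ^ r := by
    intro T W hW hW0 hWB
    have e1 := multi lam δ N D hδ hMS r H hH1 hH2 W B (by linarith) T hW (by
      intro S hS d hd
      refine (sum_le_sum fun x _ => ?_).trans (henv d hd)
      have e2 := hWB S hS d x
      have e3 : 0 ≤ W d x * ∏ i ∈ S, cH N (H i) (x + d i) := mul_nonneg (hW0 d x) (prod_nonneg fun i _ => hc0 i _)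
      calc (W d x * ∏ i ∈ S, cH N (H i) (x + d i)) ^ 2 ≤ (∏ i, (1 + cH N (H i) (x + d i)) ^ 2) ^ 2 := pow_le_pow_left₀ e3 e2 2
        _ = _ := by
          rw [← prod_pow]
          apply prod_congr rfl
          intro i _
          rw [← pow_mul])
    have e2 := markov' (Fintype.piFinset (fun _ : Fin r => D)) (fun d => |∑ x ∈ Ioc N (2 * N), W d x * (∏ i ∈ T, cH N (H i) (x + d i) - 1)|)
      (η * N) _ (by positivity) (fun _ _ => abs_nonneg _) e1
    refine e2.trans ?_
    rw [div_le_iff₀ (by positivity)]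
    have hTr : (T.card : ℝ) ≤ r := by
      have := card_le_univ T
      rw [Fintype.card_fin] at this
      exact_mod_cast this
    have e3 : (T.card : ℝ) * √(δ * B) ≤ η * ε' := by
      calc (T.card : ℝ) * √(δ * B) ≤ (r + 1) * s := mul_le_mul (by linarith) hsB (Real.sqrt_nonneg _) (by positivity)
        _ = η * ε' := by rw [hs]; field_simp
    calc (T.card : ℝ) * (√(δ * B) * N * (D.card : ℝ) ^ r) = (T.card * √(δ * B)) * (N * (D.card : ℝ) ^ r) := by ring
      _ ≤ (η * ε') * (N * (D.card : ℝ) ^ r) := mul_le_mul_of_nonneg_right e3 (by positivity)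
      _ = _ := by ring
  have hone : ∀ (f : ℕ → ℝ), ∑ x ∈ Ioc N (2 * N), (if x ∈ A then (1 : ℝ) else 0) * f x = ∑ x ∈ A, f x := by
    intro f
    simp only [ite_mul, one_mul, zero_mul]
    rw [← sum_filter]
    congr 1
    ext x
    rw [mem_filter]
    exact ⟨fun h => h.2, fun h => ⟨hA h, h⟩⟩
  have hbig : ∀ (S : Finset (Fin r)) (d : Fin r → ℕ) (x : ℕ), ∏ i ∈ S, cH N (H i) (x + d i) ≤ ∏ i ∈ S, (1 + cH N (H i) (x + d i)) := by
    intro S d x
    apply prod_le_prod (fun i _ => hc0 i _)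
    intro i _
    linarith
  have hbig2 : ∀ (S : Finset (Fin r)) (d : Fin r → ℕ) (x : ℕ), ∏ i ∈ S, (1 + cH N (H i) (x + d i)) ≤ ∏ i ∈ S, (1 + cH N (H i) (x + d i)) ^ 2 := by
    intro S d x
    apply prod_le_prod (fun i _ => by have := hc0 i (x + d i); linarith)
    intro i _
    have := hc0 i (x + d i)
    nlinarith
  have hsub : ∀ (S : Finset (Fin r)) (d : Fin r → ℕ) (x : ℕ), ∏ i ∈ S, (1 + cH N (H i) (x + d i)) ^ 2 ≤ ∏ i, (1 + cH N (H i) (x + d i)) ^ 2 := by
    intro S d x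
    rw [← prod_mul_prod_compl S]
    apply le_mul_of_one_le_right
    · exact prod_nonneg fun i _ => sq_nonneg _
    · apply one_le_prod'
      intro i _
      have := hc0 i (x + d i)
      nlinarith
  -- the first kind
  have k1 : ∀ T : Finset (Fin r), (((Fintype.piFinset (fun _ : Fin r => D)).filter (fun d => η * N < |∑ x ∈ A, (∏ i ∈ T, cH N (H i) (x + d i) - 1)|)).card : ℝ) ≤
        ε' * (D.card : ℝ) ^ r := by
    intro T
    have e1 := key T (fun _ x => if x ∈ A then (1 : ℝ) else 0) (fun _ _ _ _ _ => rfl) (fun _ x => by split_ifs <;> norm_num) (by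
      intro S _ d x
      have e2 := ((hbig S d x).trans (hbig2 S d x)).trans (hsub S d x)
      have e3 : 0 ≤ ∏ i ∈ S, cH N (H i) (x + d i) := prod_nonneg fun i _ => hc0 i _
      split_ifs
      · rw [one_mul]; exact e2
      · rw [zero_mul]; linarith)
    simp only [hone] at e1
    exact e1
  -- the second kind
  have hsmall : ∀ (j : Fin r) (y : ℕ), 0 ≤ (an (H j) y : ℝ) * (an (H j) y - 1) ∧ (an (H j) y : ℝ) * (an (H j) y - 1) ≤ cH N (H j) y ^ 2 := by
    intro j y
    have hHj : (0 : ℝ) < H j := lt_of_lt_of_le (by positivity) (hH j).1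
    have e1 := an_eq N (H j) y hHj (by linarith)
    have e2 : (an (H j) y : ℝ) ≤ cH N (H j) y := by
      rw [e1]
      have e3 : (H j : ℝ) / Real.log N ≤ 1 := by rw [div_le_one (by linarith)]; exact (hH j).2
      have := hc0 j y
      nlinarith
    have e4 : (0 : ℝ) ≤ an (H j) y := Nat.cast_nonneg _
    constructor
    · rcases Nat.eq_zero_or_pos (an (H j) y) with h0 | h0
      · rw [h0]; simp
      · have : (1 : ℝ) ≤ an (H j) y := by exact_mod_cast h0
        exact mul_nonneg e4 (by linarith)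
    · nlinarith
  have k2 : ∀ T : Finset (Fin r), ∀ j ∉ T, (((Fintype.piFinset (fun _ : Fin r => D)).filter (fun d =>
        η * N < |∑ x ∈ A, ((an (H j) (x + d j) : ℝ) * (an (H j) (x + d j) - 1)) * (∏ i ∈ T, cH N (H i) (x + d i) - 1)|)).card : ℝ) ≤
        ε' * (D.card : ℝ) ^ r := by
    intro T j hj
    have e1 := key T (fun d x => (if x ∈ A then (1 : ℝ) else 0) * ((an (H j) (x + d j) : ℝ) * (an (H j) (x + d j) - 1))) (by
        intro i hi d v x
        have : j ≠ i := fun h => hj (h ▸ hi)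
        rw [Function.update_of_ne this]) (by
        intro d x
        apply mul_nonneg
        · split_ifs <;> norm_num
        · exact (hsmall j _).1) (by
        intro S hS d x
        have hjS : j ∉ S := fun h => hj (hS h)
        have e2 := (hbig S d x).trans (hbig2 S d x)
        have e3 : 0 ≤ ∏ i ∈ S, cH N (H i) (x + d i) := prod_nonneg fun i _ => hc0 i _
        have e4 := hsmall j (x + d j)
        have e5 : (if x ∈ A then (1 : ℝ) else 0) * ((an (H j) (x + d j) : ℝ) * (an (H j) (x + d j) - 1)) ≤ (1 + cH N (H j) (x + d j)) ^ 2 := by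
          have := hc0 j (x + d j)
          split_ifs
          · nlinarith
          · nlinarith
        have e6 : (1 + cH N (H j) (x + d j)) ^ 2 * ∏ i ∈ S, (1 + cH N (H i) (x + d i)) ^ 2 = ∏ i ∈ insert j S, (1 + cH N (H i) (x + d i)) ^ 2 := by
          rw [prod_insert hjS]
        refine le_trans ?_ (hsub (insert j S) d x)
        rw [← e6]
        exact mul_le_mul e5 e2 e3 (sq_nonneg _))
    have e2 : ∀ d : Fin r → ℕ, ∑ x ∈ Ioc N (2 * N), (if x ∈ A then (1 : ℝ) else 0) * ((an (H j) (x + d j) : ℝ) * (an (H j) (x + d j) - 1)) *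
        (∏ i ∈ T, cH N (H i) (x + d i) - 1) = ∑ x ∈ A, ((an (H j) (x + d j) : ℝ) * (an (H j) (x + d j) - 1)) * (∏ i ∈ T, cH N (H i) (x + d i) - 1) := by
      intro d
      rw [← hone]
      apply sum_congr rfl
      intro x _
      ring
    simp only [e2] at e1
    exact e1
  -- the union
  have hsubset : (Fintype.piFinset (fun _ : Fin r => D)).filter (fun d => ¬ Good N r η H A d) ⊆
      ((univ : Finset (Finset (Fin r))).biUnion (fun T => (Fintype.piFinset (fun _ : Fin r => D)).filter (fun d => η * N < |∑ x ∈ A, (∏ i ∈ T, cH N (H i) (x + d i) - 1)|))) ∪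
      ((univ : Finset (Finset (Fin r))).biUnion (fun T => (univ.filter (fun j => j ∉ T)).biUnion (fun j => (Fintype.piFinset (fun _ : Fin r => D)).filter (fun d =>
        η * N < |∑ x ∈ A, ((an (H j) (x + d j) : ℝ) * (an (H j) (x + d j) - 1)) * (∏ i ∈ T, cH N (H i) (x + d i) - 1)|)))) := by
    intro d hd
    rw [mem_filter] at hd
    rw [mem_union]
    by_contra hcon
    push Not at hcon
    apply hd.2
    constructor
    · intro T
      by_contra h2
      push Not at h2
      apply hcon.1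
      rw [mem_biUnion]
      exact ⟨T, mem_univ _, by rw [mem_filter]; exact ⟨hd.1, h2⟩⟩
    · intro T j hj
      by_contra h2
      push Not at h2
      apply hcon.2
      rw [mem_biUnion]
      refine ⟨T, mem_univ _, ?_⟩
      rw [mem_biUnion]
      exact ⟨j, by rw [mem_filter]; exact ⟨mem_univ _, hj⟩, by rw [mem_filter]; exact ⟨hd.1, h2⟩⟩
  have hcard2 : ((univ : Finset (Finset (Fin r))).card : ℝ) = 2 ^ r := by
    rw [card_univ, Fintype.card_finset, Fintype.card_fin]
    push_cast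
    rfl
  refine (Nat.cast_le.2 ((card_le_card hsubset).trans (card_union_le _ _))).trans ?_
  push_cast
  have u1 : ((((univ : Finset (Finset (Fin r))).biUnion (fun T => (Fintype.piFinset (fun _ : Fin r => D)).filter (fun d => η * N < |∑ x ∈ A, (∏ i ∈ T, cH N (H i) (x + d i) - 1)|))).card : ℕ) : ℝ) ≤
      2 ^ r * (ε' * (D.card : ℝ) ^ r) := by
    refine (Nat.cast_le.2 card_biUnion_le).trans ?_
    push_cast
    refine (sum_le_sum fun T _ => k1 T).trans ?_
    rw [sum_const, nsmul_eq_mul, hcard2]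
  have u2 : ((((univ : Finset (Finset (Fin r))).biUnion (fun T => (univ.filter (fun j => j ∉ T)).biUnion (fun j => (Fintype.piFinset (fun _ : Fin r => D)).filter (fun d =>
        η * N < |∑ x ∈ A, ((an (H j) (x + d j) : ℝ) * (an (H j) (x + d j) - 1)) * (∏ i ∈ T, cH N (H i) (x + d i) - 1)|)))).card : ℕ) : ℝ) ≤
      2 ^ r * (r * (ε' * (D.card : ℝ) ^ r)) := by
    refine (Nat.cast_le.2 card_biUnion_le).trans ?_
    push_cast
    have e1 : ∀ T ∈ (univ : Finset (Finset (Fin r))), ((((univ : Finset (Fin r)).filter (fun j => j ∉ T)).biUnion (fun j => (Fintype.piFinset (fun _ : Fin r => D)).filter (fun d =>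
        η * N < |∑ x ∈ A, ((an (H j) (x + d j) : ℝ) * (an (H j) (x + d j) - 1)) * (∏ i ∈ T, cH N (H i) (x + d i) - 1)|))).card : ℝ) ≤ r * (ε' * (D.card : ℝ) ^ r) := by
      intro T _
      refine (Nat.cast_le.2 card_biUnion_le).trans ?_
      push_cast
      refine (sum_le_sum fun j hj => k2 T j (mem_filter.1 hj).2).trans ?_
      rw [sum_const, nsmul_eq_mul]
      apply mul_le_mul_of_nonneg_right _ (by positivity)
      have := card_le_univ ((univ : Finset (Fin r)).filter (fun j => j ∉ T))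
      rw [Fintype.card_fin] at this
      exact_mod_cast this
    refine (sum_le_sum e1).trans ?_
    rw [sum_const, nsmul_eq_mul, hcard2]
  refine (add_le_add u1 u2).trans (le_of_eq ?_)
  rw [hε']
  field_simp

end Pool.Agent.H86.PM
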