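import Pool.Agent.H86.T4

set_option autoImplicit false

/-! The joint law of the next primes at few-power distances, on the small scale: the law. -/

namespace Pool.Agent.H86.PM
open Finset
open Pool.Agent.H86.PW
open Pool.Agent.H86.PG
open Pool.Agent.H373R2.T7
open Classical

/-- the points with primes in the windows of `T` -/
noncomputable def nT (r : ℕ) (H : Fin r → ℕ) (A : Finset ℕ) (d : Fin r → ℕ) (T : Finset (Fin r)) : ℝ :=
  ((A.filter (fun x => ∀ i ∈ T, 1 ≤ an (H i) (x + d i))).card : ℝ)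

lemma nT_eq (r : ℕ) (H : Fin r → ℕ) (A : Finset ℕ) (d : Fin r → ℕ) (T : Finset (Fin r)) :
    nT r H A d T = ∑ x ∈ A, (if ∀ i ∈ T, 1 ≤ an (H i) (x + d i) then (1 : ℝ) else 0) := by
  unfold nT
  rw [← sum_filter, sum_const, nsmul_eq_mul, mul_one]

/-- the law for one good tuple -/
theorem nT_law (r : ℕ) (C₁ : ℝ) (hC₁ : 1 ≤ C₁) (N : ℕ) (lam Lam η : ℝ) (hlam : 0 < lam) (hlL : lam ≤ Lam) (hLam1 : Lam ≤ 1) (hη : η = lam ^ 2)
    (H : Fin r → ℕ) (hlog : 1 ≤ Real.log N) (hH : ∀ i, lam * Real.log N ≤ H i ∧ (H i : ℝ) ≤ Lam * Real.log N) (A : Finset ℕ) (hA : A ⊆ Ioc N (2 * N))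
    (d : Fin r → ℕ) (hd : ∀ i, d i ≤ N)
    (hpair : ∀ i, ∑ y ∈ Ioc N (3 * N), (an (H i) y : ℝ) * (an (H i) y - 1) ≤ C₁ * N * (H i / Real.log N) ^ 2)
    (hG : Good N r η H A d) (T : Finset (Fin r)) :
    nT r H A d T ≤ (∏ i ∈ T, (H i / Real.log N)) * (A.card + Lam * N) ∧
    (∏ i ∈ T, (H i / Real.log N)) * (A.card - (1 + r * (C₁ + 1)) * Lam * N) ≤ nT r H A d T := by
  obtain ⟨μ, hμ⟩ : ∃ μ : Fin r → ℝ, μ = fun i => (H i : ℝ) / Real.log N := ⟨_, rfl⟩
  have hL0 : 0 < Real.log N := by linarith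
  have hμ1 : ∀ i, lam ≤ μ i := fun i => by rw [hμ]; simp only; rw [le_div_iff₀ hL0]; exact (hH i).1
  have hμ2 : ∀ i, μ i ≤ Lam := fun i => by rw [hμ]; simp only; rw [div_le_iff₀ hL0]; exact (hH i).2
  have hμ0 : ∀ i, 0 < μ i := fun i => lt_of_lt_of_le hlam (hμ1 i)
  have hH0 : ∀ i, 0 < (H i : ℝ) := fun i => lt_of_lt_of_le (by positivity) (hH i).1
  have hc0 : ∀ (i : Fin r) (y : ℕ), 0 ≤ cH N (H i) y := fun i y => cH_nonneg _ _ _
  have han : ∀ i y, (an (H i) y : ℝ) = μ i * cH N (H i) y := fun i y => by rw [hμ]; exact an_eq N (H i) y (hH0 i) hL0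
  have hprod : ∀ (S : Finset (Fin r)) (x : ℕ), ∏ i ∈ S, (an (H i) (x + d i) : ℝ) = (∏ i ∈ S, μ i) * ∏ i ∈ S, cH N (H i) (x + d i) := by
    intro S x
    rw [← prod_mul_distrib]
    apply prod_congr rfl
    intro i _
    exact han i _
  have hηL : η ≤ Lam := by rw [hη]; nlinarith
  have hN0 : (0 : ℝ) ≤ N := Nat.cast_nonneg N
  have hP0 : ∀ S : Finset (Fin r), 0 ≤ ∏ i ∈ S, μ i := fun S => prod_nonneg fun i _ => (hμ0 i).le
  have hsum : ∑ x ∈ A, ∏ i ∈ T, (an (H i) (x + d i) : ℝ) = (∏ i ∈ T, μ i) * (A.card + ∑ x ∈ A, (∏ i ∈ T, cH N (H i) (x + d i) - 1)) := by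
    simp only [hprod]
    rw [← mul_sum, sum_sub_distrib, sum_const, nsmul_eq_mul, mul_one]
    ring
  have hone := abs_le.1 (hG.one T)
  have hηN : η * N ≤ Lam * N := mul_le_mul_of_nonneg_right hηL hN0
  have hgoal : (∏ i ∈ T, ((H i : ℝ) / Real.log N)) = ∏ i ∈ T, μ i := by rw [hμ]
  rw [hgoal]
  constructor
  · rw [nT_eq]
    refine (sum_le_sum fun x _ => ind_upper T (fun i => an (H i) (x + d i))).trans ?_
    rw [hsum]
    apply mul_le_mul_of_nonneg_left _ (hP0 T)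
    linarith [hone.2]
  · rw [nT_eq]
    have h1 : ∑ x ∈ A, (∏ i ∈ T, (an (H i) (x + d i) : ℝ) - ∑ j ∈ T, (an (H j) (x + d j) : ℝ) * (an (H j) (x + d j) - 1) * ∏ i ∈ T.erase j, (an (H i) (x + d i) : ℝ)) ≤
        ∑ x ∈ A, (if ∀ i ∈ T, 1 ≤ an (H i) (x + d i) then (1 : ℝ) else 0) := by
      apply sum_le_sum
      intro x _
      exact ind_lower T (fun i => an (H i) (x + d i))
    refine le_trans ?_ h1
    rw [sum_sub_distrib, hsum, sum_comm]
    have h2 : ∀ j ∈ T, ∑ x ∈ A, (an (H j) (x + d j) : ℝ) * (an (H j) (x + d j) - 1) * ∏ i ∈ T.erase j, (an (H i) (x + d i) : ℝ) ≤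
        (∏ i ∈ T, μ i) * ((C₁ + 1) * Lam * N) := by
      intro j hj
      have e1 : ∑ x ∈ A, (an (H j) (x + d j) : ℝ) * (an (H j) (x + d j) - 1) * ∏ i ∈ T.erase j, (an (H i) (x + d i) : ℝ) =
          (∏ i ∈ T.erase j, μ i) * (∑ x ∈ A, (an (H j) (x + d j) : ℝ) * (an (H j) (x + d j) - 1) +
            ∑ x ∈ A, ((an (H j) (x + d j) : ℝ) * (an (H j) (x + d j) - 1)) * (∏ i ∈ T.erase j, cH N (H i) (x + d i) - 1)) := by
        rw [← sum_add_distrib, mul_sum]
        apply sum_congr rfl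
        intro x _
        rw [hprod]
        ring
      have e2 := (abs_le.1 (hG.two (T.erase j) j (notMem_erase j T))).2
      have hnn : ∀ y, 0 ≤ (an (H j) y : ℝ) * (an (H j) y - 1) := by
        intro y
        rcases Nat.eq_zero_or_pos (an (H j) y) with h0 | h0
        · rw [h0]; simp
        · have : (1 : ℝ) ≤ an (H j) y := by exact_mod_cast h0
          exact mul_nonneg (by linarith) (by linarith)
      have e3 : ∑ x ∈ A, (an (H j) (x + d j) : ℝ) * (an (H j) (x + d j) - 1) ≤ C₁ * N * μ j ^ 2 := by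
        have hpj : ∑ y ∈ Ioc N (3 * N), (an (H j) y : ℝ) * (an (H j) y - 1) ≤ C₁ * N * μ j ^ 2 := by
          rw [hμ]
          exact hpair j
        refine le_trans ?_ hpj
        rw [← sum_image (s := A) (g := fun x => x + d j) (f := fun y => (an (H j) y : ℝ) * (an (H j) y - 1)) (by intro a _ b _ h; simpa using h)]
        apply sum_le_sum_of_subset_of_nonneg
        · intro y hy
          rw [mem_image] at hy
          obtain ⟨x, hx, rfl⟩ := hy
          have hx := hA hx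
          rw [mem_Ioc] at hx ⊢
          have := hd j
          omega
        · intro _ _ _
          exact hnn _
      rw [e1, ← mul_prod_erase T μ hj]
      have e4 : C₁ * N * μ j ^ 2 + η * N ≤ μ j * ((C₁ + 1) * Lam * N) := by
        have e5 : η ≤ μ j * Lam := by
          rw [hη]
          nlinarith [hμ1 j, hμ0 j]
        have e6 : C₁ * N * μ j ^ 2 ≤ μ j * (C₁ * Lam * N) := by
          have : μ j ^ 2 ≤ μ j * Lam := by nlinarith [hμ2 j, hμ0 j]
          calc C₁ * N * μ j ^ 2 ≤ C₁ * N * (μ j * Lam) := mul_le_mul_of_nonneg_left this (by positivity)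
            _ = _ := by ring
        have e7 : η * N ≤ μ j * Lam * N := mul_le_mul_of_nonneg_right e5 hN0
        linarith
      calc (∏ i ∈ T.erase j, μ i) * (∑ x ∈ A, (an (H j) (x + d j) : ℝ) * (an (H j) (x + d j) - 1) +
            ∑ x ∈ A, ((an (H j) (x + d j) : ℝ) * (an (H j) (x + d j) - 1)) * (∏ i ∈ T.erase j, cH N (H i) (x + d i) - 1)) ≤
          (∏ i ∈ T.erase j, μ i) * (μ j * ((C₁ + 1) * Lam * N)) := by
            apply mul_le_mul_of_nonneg_left _ (hP0 _)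
            linarith
        _ = _ := by ring
    have h3 := sum_le_sum h2
    rw [sum_const, nsmul_eq_mul] at h3
    have h4 : (T.card : ℝ) * ((∏ i ∈ T, μ i) * ((C₁ + 1) * Lam * N)) ≤ r * ((∏ i ∈ T, μ i) * ((C₁ + 1) * Lam * N)) := by
      apply mul_le_mul_of_nonneg_right
      · have := card_le_univ T
        rw [Fintype.card_fin] at this
        exact_mod_cast this
      · have := hP0 T
        have : 0 ≤ Lam := by linarith
        positivity
    have h5 : (∏ i ∈ T, μ i) * (A.card - Lam * N) ≤ (∏ i ∈ T, μ i) * (A.card + ∑ x ∈ A, (∏ i ∈ T, cH N (H i) (x + d i) - 1)) := by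
      apply mul_le_mul_of_nonneg_left _ (hP0 T)
      linarith [hone.1]
    calc (∏ i ∈ T, μ i) * (A.card - (1 + r * (C₁ + 1)) * Lam * N) =
          (∏ i ∈ T, μ i) * (A.card - Lam * N) - r * ((∏ i ∈ T, μ i) * ((C₁ + 1) * Lam * N)) := by ring
      _ ≤ _ := by linarith

/-- the law for a pattern -/
theorem pattern_law (r : ℕ) (C₁ : ℝ) (hC₁ : 1 ≤ C₁) (N : ℕ) (lam Lam η : ℝ) (hlam : 0 < lam) (hlL : lam ≤ Lam) (hLam1 : Lam ≤ 1) (hη : η = lam ^ 2)
    (H : Fin r → ℕ) (hlog : 1 ≤ Real.log N) (hH : ∀ i, lam * Real.log N ≤ H i ∧ (H i : ℝ) ≤ Lam * Real.log N) (A : Finset ℕ) (hA : A ⊆ Ioc N (2 * N))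
    (d : Fin r → ℕ) (hd : ∀ i, d i ≤ N)
    (hpair : ∀ i, ∑ y ∈ Ioc N (3 * N), (an (H i) y : ℝ) * (an (H i) y - 1) ≤ C₁ * N * (H i / Real.log N) ^ 2)
    (hG : Good N r η H A d) (I : Finset (Fin r)) :
    |((A.filter (fun x => (∀ i ∈ I, 1 ≤ an (H i) (x + d i)) ∧ ∀ i ∉ I, an (H i) (x + d i) = 0)).card : ℝ) - (∏ i ∈ I, (H i / Real.log N)) * A.card| ≤
      (1 + r * (C₁ + 3)) * Lam * (∏ i ∈ I, (H i / Real.log N)) * N := by
  have hlaw := nT_law r C₁ hC₁ N lam Lam η hlam hlL hLam1 hη H hlog hH A hA d hd hpair hG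
  have hL0 : 0 < Real.log N := by linarith
  have hP0 : 0 ≤ ∏ i ∈ I, ((H i : ℝ) / Real.log N) := prod_nonneg fun i _ => by positivity
  have hLam0 : 0 < Lam := by linarith
  obtain ⟨M, hM⟩ : ∃ M : ℝ, M = ((A.filter (fun x => (∀ i ∈ I, 1 ≤ an (H i) (x + d i)) ∧ ∀ i ∉ I, an (H i) (x + d i) = 0)).card : ℝ) := ⟨_, rfl⟩
  rw [← hM]
  have h1 : M ≤ nT r H A d I := by
    rw [hM]
    unfold nT
    apply Nat.cast_le.2
    apply card_le_card
    intro x hx
    rw [mem_filter] at hx ⊢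
    exact ⟨hx.1, hx.2.1⟩
  have h2 : nT r H A d I ≤ M + ∑ j ∈ univ.filter (fun j => j ∉ I), nT r H A d (insert j I) := by
    rw [hM]
    unfold nT
    have e1 : A.filter (fun x => ∀ i ∈ I, 1 ≤ an (H i) (x + d i)) ⊆
        (A.filter (fun x => (∀ i ∈ I, 1 ≤ an (H i) (x + d i)) ∧ ∀ i ∉ I, an (H i) (x + d i) = 0)) ∪
        (univ.filter (fun j => j ∉ I)).biUnion (fun j => A.filter (fun x => ∀ i ∈ insert j I, 1 ≤ an (H i) (x + d i))) := by
      intro x hx
      rw [mem_filter] at hx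
      rw [mem_union]
      by_cases h : ∀ i ∉ I, an (H i) (x + d i) = 0
      · left
        rw [mem_filter]
        exact ⟨hx.1, hx.2, h⟩
      · right
        push Not at h
        obtain ⟨j, hj, hj2⟩ := h
        rw [mem_biUnion]
        refine ⟨j, by rw [mem_filter]; exact ⟨mem_univ _, hj⟩, ?_⟩
        rw [mem_filter]
        refine ⟨hx.1, fun i hi => ?_⟩
        rw [mem_insert] at hi
        rcases hi with hi | hi
        · rw [hi]; omega
        · exact hx.2 i hi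
    have e2 := (card_le_card e1).trans ((card_union_le _ _).trans (Nat.add_le_add_left card_biUnion_le _))
    have e3 := (Nat.cast_le (α := ℝ)).2 e2
    push_cast at e3
    exact e3
  have hAN : (A.card : ℝ) ≤ N := by
    have := card_le_card hA
    rw [Nat.card_Ioc] at this
    have h3 : A.card ≤ N := by omega
    exact_mod_cast h3
  have hN0 : (0 : ℝ) ≤ N := Nat.cast_nonneg N
  have h3 : ∀ j ∈ univ.filter (fun j => j ∉ I), nT r H A d (insert j I) ≤ 2 * Lam * (∏ i ∈ I, ((H i : ℝ) / Real.log N)) * N := by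
    intro j hj
    rw [mem_filter] at hj
    refine (hlaw (insert j I)).1.trans ?_
    rw [prod_insert hj.2]
    have e1 : (H j : ℝ) / Real.log N ≤ Lam := by rw [div_le_iff₀ hL0]; exact (hH j).2
    have e2 : (A.card : ℝ) + Lam * N ≤ 2 * N := by nlinarith
    calc (H j : ℝ) / Real.log N * (∏ i ∈ I, ((H i : ℝ) / Real.log N)) * (A.card + Lam * N) ≤
          (Lam * (∏ i ∈ I, ((H i : ℝ) / Real.log N))) * (2 * N) := by
          apply mul_le_mul (mul_le_mul_of_nonneg_right e1 hP0) e2 (by positivity) (by positivity)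
      _ = _ := by ring
  have h4 := sum_le_sum h3
  rw [sum_const, nsmul_eq_mul] at h4
  have h5 : (((univ : Finset (Fin r)).filter (fun j => j ∉ I)).card : ℝ) * (2 * Lam * (∏ i ∈ I, ((H i : ℝ) / Real.log N)) * N) ≤
      r * (2 * Lam * (∏ i ∈ I, ((H i : ℝ) / Real.log N)) * N) := by
    apply mul_le_mul_of_nonneg_right _ (by positivity)
    have := card_le_univ ((univ : Finset (Fin r)).filter (fun j => j ∉ I))
    rw [Fintype.card_fin] at this
    exact_mod_cast this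
  have h6 := hlaw I
  obtain ⟨P, hP⟩ : ∃ P : ℝ, P = ∏ i ∈ I, ((H i : ℝ) / Real.log N) := ⟨_, rfl⟩
  rw [← hP] at h6 h5 h4 hP0 ⊢
  have hPL : 0 ≤ Lam * P * N := by positivity
  have hr0 : (0 : ℝ) ≤ r := Nat.cast_nonneg r
  rw [abs_le]
  constructor
  · have e1 : P * (A.card - (1 + r * (C₁ + 1)) * Lam * N) = P * A.card - (1 + r * (C₁ + 1)) * (Lam * P * N) := by ring
    have e2 : (1 + r * (C₁ + 3)) * Lam * P * N = (1 + r * (C₁ + 1)) * (Lam * P * N) + r * (2 * Lam * P * N) := by ring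
    rw [e2]
    rw [e1] at h6
    linarith [h6.2]
  · have e1 : P * (A.card + Lam * N) = P * A.card + Lam * P * N := by ring
    have e2 : (1 + r * (C₁ + 3)) * Lam * P * N = Lam * P * N + r * (C₁ + 3) * (Lam * P * N) := by ring
    rw [e1] at h6
    rw [e2]
    have e3 : 0 ≤ r * (C₁ + 3) * (Lam * P * N) := by positivity
    linarith [h6.1]

end Pool.Agent.H86.PM
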