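import Pool.Agent.H86.R2
import Pool.Agent.H86.T4

set_option autoImplicit false

/-! Mixed moments along arbitrary sets of primes. -/

namespace Pool.Agent.H86.PM
open Finset
open Pool.Agent.H86.PW
open Pool.Agent.H86.PG
open Pool.Agent.H373R2.T7

open Classical in
/-- almost all tuples are good for a weight -/
theorem good_weight (r : ℕ) (lam : ℝ) (hlam : 0 < lam) (η ε' : ℝ) (hη : 0 < η) (hε' : 0 < ε') : ∃ δ₀ : ℝ, 0 < δ₀ ∧ ∃ N₀ : ℕ, ∀ N : ℕ, N₀ ≤ N →
    ∀ (δ : ℝ) (D : Finset ℕ), 0 ≤ δ → δ ≤ δ₀ → (∀ d ∈ D, d ≤ N) → MS lam δ N D → ∀ h : ℕ, lam * Real.log N ≤ h → ∀ W : ℕ → ℝ,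
    (∀ x, 0 ≤ W x) → (∀ x, W x ≤ cH N h x) → ∀ H : Fin r → ℕ, (∀ i, lam * Real.log N ≤ H i ∧ H i ≤ N) →
    (((Fintype.piFinset (fun _ : Fin r => D)).filter (fun d => η * N < |∑ x ∈ Ioc N (2 * N), W x * (∏ i, cH N (H i) (x + d i) - 1)|)).card : ℝ) ≤
      ε' * (D.card : ℝ) ^ r := by
  obtain ⟨B, hB1, N₀, hB⟩ := envelope (r + 1) lam hlam
  obtain ⟨s, hs⟩ : ∃ s : ℝ, s = η * ε' / (r + 1) := ⟨_, rfl⟩
  have hs0 : 0 < s := by rw [hs]; positivity
  refine ⟨s ^ 2 / B, by positivity, N₀ + 2, fun N hN δ D hδ hδ1 hD hMS h hh W hW0 hW H hH => ?_⟩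
  have hN0 : (2 : ℝ) ≤ N := by exact_mod_cast (by omega : 2 ≤ N)
  have hsB : √(δ * B) ≤ s := by
    rw [Real.sqrt_le_left hs0.le]
    calc δ * B ≤ s ^ 2 / B * B := mul_le_mul_of_nonneg_right hδ1 (by linarith)
      _ = s ^ 2 := by field_simp
  have hc0 : ∀ (L : ℕ) (y : ℕ), 0 ≤ cH N L y := fun L y => cH_nonneg _ _ _
  have henv := hB N (by omega) (insert 0 D) (by
    intro d hd
    rw [mem_insert] at hd
    rcases hd with hd | hd
    · omega
    · exact hD d hd) (Fin.cons h H : Fin (r + 1) → ℕ) (by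
    intro i
    refine Fin.cases ?_ (fun j => ?_) i
    · rw [Fin.cons_zero]; exact hh
    · rw [Fin.cons_succ]; exact (hH j).1)
  have e1 := multi lam δ N D hδ hMS r H (fun i => (hH i).1) (fun i => (hH i).2) (fun _ x => W x) B (by linarith) univ (fun _ _ _ _ _ => rfl) (by
    intro S _ d hd
    have e2 := henv (Fin.cons 0 d : Fin (r + 1) → ℕ) (by
      rw [Fintype.mem_piFinset] at hd ⊢
      intro i
      refine Fin.cases ?_ (fun j => ?_) i
      · rw [Fin.cons_zero]; exact mem_insert_self _ _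
      · rw [Fin.cons_succ]; exact mem_insert_of_mem (hd j))
    refine (sum_le_sum fun x _ => ?_).trans e2
    rw [Fin.prod_univ_succ]
    simp only [Fin.cons_zero, Fin.cons_succ, add_zero]
    have e3 : ∏ i ∈ S, cH N (H i) (x + d i) ≤ ∏ i, (1 + cH N (H i) (x + d i)) := by
      calc ∏ i ∈ S, cH N (H i) (x + d i) ≤ ∏ i ∈ S, (1 + cH N (H i) (x + d i)) :=
            prod_le_prod (fun i _ => hc0 _ _) (fun i _ => by linarith)
        _ ≤ ∏ i, (1 + cH N (H i) (x + d i)) := by
            rw [← prod_mul_prod_compl S]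
            apply le_mul_of_one_le_right
            · exact prod_nonneg fun i _ => by have := hc0 (H i) (x + d i); linarith
            · apply one_le_prod'
              intro i _
              have := hc0 (H i) (x + d i)
              linarith
    have e4 : W x * ∏ i ∈ S, cH N (H i) (x + d i) ≤ (1 + cH N h x) * ∏ i, (1 + cH N (H i) (x + d i)) := by
      apply mul_le_mul _ e3 (prod_nonneg fun i _ => hc0 _ _) (by have := hc0 h x; linarith)
      have := hW x
      linarith
    have e5 : 0 ≤ W x * ∏ i ∈ S, cH N (H i) (x + d i) := mul_nonneg (hW0 x) (prod_nonneg fun i _ => hc0 _ _)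
    have e6 : 1 ≤ (1 + cH N h x) * ∏ i, (1 + cH N (H i) (x + d i)) := by
      have f1 : 1 ≤ 1 + cH N h x := by have := hc0 h x; linarith
      have f2 : 1 ≤ ∏ i, (1 + cH N (H i) (x + d i)) := by
        apply one_le_prod'
        intro i _
        have := hc0 (H i) (x + d i)
        linarith
      nlinarith
    calc (W x * ∏ i ∈ S, cH N (H i) (x + d i)) ^ 2 ≤ ((1 + cH N h x) * ∏ i, (1 + cH N (H i) (x + d i))) ^ 2 := pow_le_pow_left₀ e5 e4 2
      _ ≤ ((1 + cH N h x) * ∏ i, (1 + cH N (H i) (x + d i))) ^ 4 := pow_le_pow_right₀ e6 (by norm_num)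
      _ = _ := by rw [mul_pow, prod_pow])
  have e2 := markov' (Fintype.piFinset (fun _ : Fin r => D)) (fun d => |∑ x ∈ Ioc N (2 * N), W x * (∏ i, cH N (H i) (x + d i) - 1)|)
    (η * N) _ (by positivity) (fun _ _ => abs_nonneg _) e1
  refine e2.trans ?_
  rw [div_le_iff₀ (by positivity), card_univ, Fintype.card_fin]
  have e3 : (r : ℝ) * √(δ * B) ≤ η * ε' := by
    calc (r : ℝ) * √(δ * B) ≤ (r + 1) * s := mul_le_mul (by linarith) hsB (Real.sqrt_nonneg _) (by positivity)
      _ = η * ε' := by rw [hs]; field_simp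
  calc (r : ℝ) * (√(δ * B) * N * (D.card : ℝ) ^ r) = (r * √(δ * B)) * (N * (D.card : ℝ) ^ r) := by ring
    _ ≤ (η * ε') * (N * (D.card : ℝ) ^ r) := mul_le_mul_of_nonneg_right e3 (by positivity)
    _ = _ := by ring

lemma prod_sub_lower {ι : Type*} [DecidableEq ι] (T : Finset ι) (a b : ι → ℝ) (hb : ∀ i ∈ T, 0 ≤ b i) (hab : ∀ i ∈ T, b i ≤ a i) :
    ∏ i ∈ T, a i - ∑ j ∈ T, b j * ∏ i ∈ T.erase j, a i ≤ ∏ i ∈ T, (a i - b i) := by
  induction T using Finset.induction_on with
  | empty => simp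
  | insert k T hk ih =>
    have h1 := ih (fun i hi => hb i (mem_insert_of_mem hi)) (fun i hi => hab i (mem_insert_of_mem hi))
    rw [prod_insert hk, prod_insert hk, sum_insert hk, erase_insert hk]
    have h2 : ∑ j ∈ T, b j * ∏ i ∈ (insert k T).erase j, a i = a k * ∑ j ∈ T, b j * ∏ i ∈ T.erase j, a i := by
      rw [mul_sum]
      apply sum_congr rfl
      intro j hj
      have hkj : k ≠ j := fun h => hk (h ▸ hj)
      rw [erase_insert_of_ne hkj, prod_insert (fun h => hk (mem_of_mem_erase h))]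
      ring
    rw [h2]
    have hak : 0 ≤ a k := (hb k (mem_insert_self _ _)).trans (hab k (mem_insert_self _ _))
    have hbk := hb k (mem_insert_self _ _)
    have h3 : ∏ i ∈ T, (a i - b i) ≤ ∏ i ∈ T, a i := by
      apply prod_le_prod
      · intro i hi
        have := hab i (mem_insert_of_mem hi)
        linarith
      · intro i hi
        have := hb i (mem_insert_of_mem hi)
        linarith
    have h4 := mul_le_mul_of_nonneg_left h1 hak
    have h5 := mul_le_mul_of_nonneg_left h3 hbk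
    linarith

/-- the weighted count -/
noncomputable def PL (N h : ℕ) (Q : Finset ℕ) (r : ℕ) (L d : Fin r → ℕ) : ℝ := ∑ x ∈ Ioc N (2 * N), wQ N h Q x * ∏ i, nn (L i) (x + d i)

lemma PL_eq (N h : ℕ) (hN : 2 ≤ N) (hh : 1 ≤ h) (Q : Finset ℕ) (hQ : ∀ p ∈ Q, N + h < p ∧ p ≤ 2 * N) (r : ℕ) (L d : Fin r → ℕ) (hL : ∀ i, 1 ≤ L i) :
    PL N h Q r L d = (∏ i, ((L i : ℝ) / Real.log N)) *
      (Real.log N * Q.card + ∑ x ∈ Ioc N (2 * N), wQ N h Q x * (∏ i, cH N (L i) (x + d i) - 1)) := by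
  unfold PL
  rw [← sum_wQ N h hh Q hQ, ← sum_add_distrib, mul_sum]
  apply sum_congr rfl
  intro x _
  have : ∏ i, nn (L i) (x + d i) = (∏ i, ((L i : ℝ) / Real.log N)) * ∏ i, cH N (L i) (x + d i) := by
    rw [← prod_mul_distrib]
    apply prod_congr rfl
    intro i _
    exact nn_eq N (L i) (x + d i) hN (hL i)
  rw [this]
  ring

lemma PL_dc (N h : ℕ) (Q : Finset ℕ) (hQ : ∀ p ∈ Q, N + h < p ∧ p ≤ 2 * N) (r : ℕ) (L d : Fin r → ℕ) :
    PL N h Q r L d = Real.log N / h * ∑ p ∈ Q, ∑ x ∈ Ico (p - h) p, ∏ i, nn (L i) (x + d i) := by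
  unfold PL
  rw [dc N h Q hQ (fun x => ∏ i, nn (L i) (x + d i))]

lemma tuple_upper (N h : ℕ) (hN : 2 ≤ N) (hh : 1 ≤ h) (Q : Finset ℕ) (hQ : ∀ p ∈ Q, N + h < p ∧ p ≤ 2 * N) (r : ℕ) (H d : Fin r → ℕ) :
    ∑ p ∈ Q, ∏ i, nn (H i) (p + d i) ≤ 1 / Real.log N * PL N h Q r (fun i => H i + h) d := by
  have hN0 : (2 : ℝ) ≤ N := by exact_mod_cast hN
  have hlog : 0 < Real.log N := Real.log_pos (by linarith)
  have hh0 : (0 : ℝ) < h := by exact_mod_cast hh
  rw [PL_dc N h Q hQ]
  have h2 : ∑ p ∈ Q, h * ∏ i, nn (H i) (p + d i) ≤ ∑ p ∈ Q, ∑ x ∈ Ico (p - h) p, ∏ i, nn (H i + h) (x + d i) := by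
    apply sum_le_sum
    intro p hp
    have h3 := hQ p hp
    calc (h : ℝ) * ∏ i, nn (H i) (p + d i) = ∑ x ∈ Ico (p - h) p, ∏ i, nn (H i) (p + d i) := by
          rw [sum_const, Nat.card_Ico, nsmul_eq_mul]
          congr 2
          omega
      _ ≤ _ := by
          apply sum_le_sum
          intro x hx
          rw [mem_Ico] at hx
          apply prod_le_prod (fun i _ => nn_nonneg _ _)
          intro i _
          exact nn_upper (H i) h (d i) p x (by omega) hx.2
  rw [← mul_sum] at h2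
  calc ∑ p ∈ Q, ∏ i, nn (H i) (p + d i) = 1 / Real.log N * (Real.log N / h * (h * ∑ p ∈ Q, ∏ i, nn (H i) (p + d i))) := by
        field_simp
    _ ≤ _ := by
        apply mul_le_mul_of_nonneg_left _ (by positivity)
        exact mul_le_mul_of_nonneg_left h2 (by positivity)

lemma tuple_lower (N h : ℕ) (hN : 2 ≤ N) (hh : 1 ≤ h) (Q : Finset ℕ) (hQ : ∀ p ∈ Q, N + h < p ∧ p ≤ 2 * N) (r : ℕ) (H d : Fin r → ℕ) (hH : ∀ i, h ≤ H i) :
    1 / Real.log N * (PL N h Q r H d - ∑ j, PL N h Q r (Function.update H j h) d) ≤ ∑ p ∈ Q, ∏ i, nn (H i) (p + d i) := by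
  classical
  have hN0 : (2 : ℝ) ≤ N := by exact_mod_cast hN
  have hlog : 0 < Real.log N := Real.log_pos (by linarith)
  have hh0 : (0 : ℝ) < h := by exact_mod_cast hh
  have hpt : ∀ x : ℕ, ∏ i, nn (H i) (x + d i) - ∑ j, ∏ i, nn (Function.update H j h i) (x + d i) ≤ ∏ i, (nn (H i) (x + d i) - nn h (x + d i)) := by
    intro x
    have e1 := prod_sub_lower (univ : Finset (Fin r)) (fun i => nn (H i) (x + d i)) (fun i => nn h (x + d i)) (fun i _ => nn_nonneg _ _) (by
      intro i _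
      unfold nn
      have : (Nat.primeCounting (x + d i + h) : ℝ) ≤ Nat.primeCounting (x + d i + H i) := by
        exact_mod_cast Nat.monotone_primeCounting (by have := hH i; omega)
      linarith)
    refine le_trans (le_of_eq ?_) e1
    congr 1
    apply sum_congr rfl
    intro j _
    rw [← mul_prod_erase univ (fun i => nn (Function.update H j h i) (x + d i)) (mem_univ j)]
    simp only [Function.update_self]
    congr 1
    apply prod_congr rfl
    intro i hi
    rw [Function.update_of_ne (ne_of_mem_erase hi)]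
  have h1 : PL N h Q r H d - ∑ j, PL N h Q r (Function.update H j h) d =
      Real.log N / h * ∑ p ∈ Q, ∑ x ∈ Ico (p - h) p, (∏ i, nn (H i) (x + d i) - ∑ j, ∏ i, nn (Function.update H j h i) (x + d i)) := by
    simp only [PL_dc N h Q hQ, sum_sub_distrib, mul_sub]
    congr 1
    rw [← mul_sum, sum_comm]
    congr 1
    apply sum_congr rfl
    intro p _
    rw [sum_comm]
  rw [h1]
  have h2 : ∑ p ∈ Q, ∑ x ∈ Ico (p - h) p, (∏ i, nn (H i) (x + d i) - ∑ j, ∏ i, nn (Function.update H j h i) (x + d i)) ≤ ∑ p ∈ Q, h * ∏ i, nn (H i) (p + d i) := by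
    apply sum_le_sum
    intro p hp
    have h3 := hQ p hp
    calc ∑ x ∈ Ico (p - h) p, (∏ i, nn (H i) (x + d i) - ∑ j, ∏ i, nn (Function.update H j h i) (x + d i)) ≤ ∑ x ∈ Ico (p - h) p, ∏ i, nn (H i) (p + d i) := by
          apply sum_le_sum
          intro x hx
          rw [mem_Ico] at hx
          refine (hpt x).trans ?_
          apply prod_le_prod
          · intro i _
            unfold nn
            have : (Nat.primeCounting (x + d i + h) : ℝ) ≤ Nat.primeCounting (x + d i + H i) := by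
              exact_mod_cast Nat.monotone_primeCounting (by have := hH i; omega)
            linarith
          · intro i _
            exact nn_lower (H i) h (d i) p x (by omega) hx.2 (hH i)
      _ = h * ∏ i, nn (H i) (p + d i) := by
          rw [sum_const, Nat.card_Ico, nsmul_eq_mul]
          congr 2
          omega
  rw [← mul_sum] at h2
  calc 1 / Real.log N * (Real.log N / h * ∑ p ∈ Q, ∑ x ∈ Ico (p - h) p, (∏ i, nn (H i) (x + d i) - ∑ j, ∏ i, nn (Function.update H j h i) (x + d i))) ≤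
        1 / Real.log N * (Real.log N / h * (h * ∑ p ∈ Q, ∏ i, nn (H i) (p + d i))) := by
        apply mul_le_mul_of_nonneg_left _ (by positivity)
        exact mul_le_mul_of_nonneg_left h2 (by positivity)
    _ = _ := by field_simp

end Pool.Agent.H86.PM
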