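import Pool.Agent.H86.T6

set_option autoImplicit false

/-! Tuples of primes in boxes, with the first prime in an arbitrary set. -/

namespace Pool.Agent.H86.PM
open Finset
open Pool.Agent.H86.PW
open Pool.Agent.H86.PG
open Pool.Agent.H373R2.T7

lemma card_low (N h : ℕ) (Q : Finset ℕ) (hQ : Q ⊆ Ioc N (2 * N)) : ((Q.filter (fun p => ¬ N + h < p)).card : ℝ) ≤ h := by
  have h1 : Q.filter (fun p => ¬ N + h < p) ⊆ Ioc N (N + h) := by
    intro p hp
    rw [mem_filter] at hp
    have := mem_Ioc.1 (hQ hp.1)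
    rw [mem_Ioc]
    omega
  have h2 := card_le_card h1
  rw [Nat.card_Ioc] at h2
  have h3 : (Q.filter (fun p => ¬ N + h < p)).card ≤ h := by omega
  exact_mod_cast h3

/-- the trivial bound for a set of primes -/
lemma card_Q : ∃ C : ℝ, 1 ≤ C ∧ ∃ N₀ : ℕ, ∀ N : ℕ, N₀ ≤ N → ∀ Q : Finset ℕ, Q ⊆ Ioc N (2 * N) → (∀ p ∈ Q, p.Prime) → (Q.card : ℝ) ≤ C * (N / Real.log N) := by
  obtain ⟨C, hC1, n1, hC⟩ := cH_mom 1 1 one_pos
  obtain ⟨n2, h2⟩ := ev_log' 2 2
  obtain ⟨n3, h3⟩ := ev_L' 1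
  refine ⟨C + 1, by linarith, n1 + n2 + n3 + 2, fun N hN Q hQ hQp => ?_⟩
  have hN0 : (2 : ℝ) ≤ N := by exact_mod_cast (by omega : 2 ≤ N)
  have hlog : 1 ≤ Real.log N := h3 N (by omega)
  obtain ⟨h, hh⟩ : ∃ h, h = ⌈Real.log N⌉₊ := ⟨_, rfl⟩
  have hh1 : Real.log N ≤ h := by rw [hh]; exact Nat.le_ceil _
  have hh2 : (h : ℝ) ≤ 2 * Real.log N := by
    have : (h : ℝ) < Real.log N + 1 := by rw [hh]; exact Nat.ceil_lt_add_one (by linarith)
    linarith
  have hh3 : 1 ≤ h := by
    have : (1 : ℝ) ≤ h := hlog.trans hh1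
    exact_mod_cast this
  obtain ⟨Q', hQ'⟩ : ∃ Q', Q' = Q.filter (fun p => N + h < p) := ⟨_, rfl⟩
  have hQ'1 : ∀ p ∈ Q', N + h < p ∧ p ≤ 2 * N := by
    intro p hp
    rw [hQ', mem_filter] at hp
    exact ⟨hp.2, (mem_Ioc.1 (hQ hp.1)).2⟩
  have hQ'2 : ∀ p ∈ Q', p.Prime := fun p hp => by rw [hQ', mem_filter] at hp; exact hQp p hp.1
  have e1 := sum_wQ N h hh3 Q' hQ'1
  have e2 : ∑ x ∈ Ioc N (2 * N), wQ N h Q' x ≤ C * N := by
    refine (sum_le_sum fun x _ => wQ_le N h Q' hQ'2 x).trans ?_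
    refine le_trans ?_ (hC N (by omega) h (by rw [one_mul]; exact hh1))
    simp only [pow_one]
    apply sum_le_sum_of_subset_of_nonneg
    · intro x hx
      rw [mem_Ioc] at hx ⊢
      omega
    · intro _ _ _
      exact cH_nonneg _ _ _
  rw [e1] at e2
  have e3 := card_low N h Q hQ
  have e4 : (Q.card : ℝ) = Q'.card + ((Q.filter (fun p => ¬ N + h < p)).card : ℝ) := by
    rw [hQ']
    exact_mod_cast (card_filter_add_card_filter_not (s := Q) (fun p => N + h < p)).symm
  have e5 := h2 N (by omega)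
  have e6 : √(N : ℝ) ≤ N := by
    rw [Real.sqrt_le_left (by linarith)]
    nlinarith
  have e7 : (h : ℝ) * Real.log N ≤ N := by
    calc (h : ℝ) * Real.log N ≤ 2 * Real.log N * Real.log N := mul_le_mul_of_nonneg_right hh2 (by linarith)
      _ = 2 * Real.log N ^ 2 := by ring
      _ ≤ _ := e5.trans e6
  rw [e4, ← mul_div_assoc, le_div_iff₀ (by linarith)]
  nlinarith

open Classical in
/-- tuples of primes in boxes -/
theorem tuples_Q (r : ℕ) (lam ε : ℝ) (hlam : 0 < lam) (hlam1 : lam ≤ 1) (hε : 0 < ε) (hε1 : ε ≤ 1) : ∃ lam' : ℝ, 0 < lam' ∧ ∃ δ₀ : ℝ, 0 < δ₀ ∧ ∃ N₀ : ℕ, ∀ N : ℕ, N₀ ≤ N →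
    ∀ (δ : ℝ) (D : Finset ℕ), 0 ≤ δ → δ ≤ δ₀ → (∀ d ∈ D, d ≤ N) → MS lam' δ N D → ∀ Q : Finset ℕ, Q ⊆ Ioc N (2 * N) → (∀ p ∈ Q, p.Prime) →
    ∀ H : Fin r → ℕ, (∀ i, lam * Real.log N ≤ H i ∧ 2 * H i ≤ N) →
    (((Fintype.piFinset (fun _ : Fin r => D)).filter (fun d => ¬ |∑ p ∈ Q, ∏ i, nn (H i) (p + d i) - (∏ i, ((H i : ℝ) / Real.log N)) * Q.card| ≤
      ε * (∏ i, ((H i : ℝ) / Real.log N)) * (N / Real.log N))).card : ℝ) ≤ ε * (D.card : ℝ) ^ r := by
  obtain ⟨CQ, hCQ1, n0, hCQ⟩ := card_Q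
  obtain ⟨κ, hκ⟩ : ∃ κ : ℝ, κ = ε / (16 * 2 ^ r * (r + 1) * CQ) := ⟨_, rfl⟩
  have hκ0 : 0 < κ := by rw [hκ]; positivity
  have hκε : 16 * 2 ^ r * (r + 1) * CQ * κ = ε := by rw [hκ]; field_simp
  have h2r : (1 : ℝ) ≤ 2 ^ r := one_le_pow₀ (by norm_num)
  have hr0 : (0 : ℝ) ≤ r := Nat.cast_nonneg r
  have hκ2 : 2 ^ r * κ * CQ ≤ ε / 16 := by
    have : 2 ^ r * κ * CQ * (r + 1) = ε / 16 := by rw [← hκε]; ring
    have h3 : 0 ≤ 2 ^ r * κ * CQ := by positivity
    nlinarith
  have hκ3 : (r + 1) * κ * CQ ≤ ε / 16 := by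
    have : 2 ^ r * ((r + 1) * κ * CQ) = ε / 16 := by rw [← hκε]; ring
    have h3 : 0 ≤ (r + 1) * κ * CQ := by positivity
    nlinarith
  have hκ4 : κ ≤ ε / 16 := by
    have h3 : κ ≤ (r + 1) * κ * CQ := by
      have h4 : κ ≤ (r + 1) * κ := by nlinarith
      have h5 : (r + 1) * κ ≤ (r + 1) * κ * CQ := le_mul_of_one_le_right (by positivity) hCQ1
      linarith
    linarith
  have hκ1 : κ ≤ 1 := by linarith
  obtain ⟨lam', hlam'⟩ : ∃ lam' : ℝ, lam' = κ * lam / 2 := ⟨_, rfl⟩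
  have hlam'0 : 0 < lam' := by rw [hlam']; positivity
  obtain ⟨δ₀, hδ₀, n1, hgood⟩ := good_weight r lam' hlam'0 κ (ε / (r + 2)) hκ0 (by positivity)
  obtain ⟨n2, h2⟩ := ev_L' (2 / (κ * lam))
  obtain ⟨n3, h3⟩ := ev_log' (r + 2) (2 / ε)
  obtain ⟨n4, h4⟩ := ev_L' 1
  refine ⟨lam', hlam'0, δ₀, hδ₀, n0 + n1 + n2 + n3 + n4 + 2, fun N hN δ D hδ hδ1 hD hMS Q hQ hQp H hH => ?_⟩
  have hN0 : (2 : ℝ) ≤ N := by exact_mod_cast (by omega : 2 ≤ N)
  have hlog : 1 ≤ Real.log N := h4 N (by omega)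
  have hL0 : 0 < Real.log N := by linarith
  -- the smoothing
  obtain ⟨h, hh⟩ : ∃ h, h = ⌊κ * lam * Real.log N⌋₊ := ⟨_, rfl⟩
  have hbig : 2 ≤ κ * lam * Real.log N := by
    have := h2 N (by omega)
    rw [div_le_iff₀ (by positivity)] at this
    linarith
  have hhu : (h : ℝ) ≤ κ * lam * Real.log N := by rw [hh]; exact Nat.floor_le (by linarith)
  have hhl : lam' * Real.log N ≤ h := by
    have : κ * lam * Real.log N < h + 1 := by rw [hh]; exact Nat.lt_floor_add_one _
    rw [hlam']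
    linarith
  have hh1 : 1 ≤ h := by
    have : (0 : ℝ) < h := lt_of_lt_of_le (by positivity) hhl
    exact_mod_cast this
  have hh0 : (0 : ℝ) < h := by exact_mod_cast hh1
  have hhH : ∀ i, (h : ℝ) ≤ κ * H i := by
    intro i
    calc (h : ℝ) ≤ κ * (lam * Real.log N) := by linarith
      _ ≤ κ * H i := mul_le_mul_of_nonneg_left (hH i).1 hκ0.le
  have hhH' : ∀ i, h ≤ H i := by
    intro i
    have e1 := hhH i
    have e2 : κ * (H i : ℝ) ≤ 1 * H i := mul_le_mul_of_nonneg_right hκ1 (Nat.cast_nonneg _)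
    have : (h : ℝ) ≤ H i := by linarith
    exact_mod_cast this
  have hhL : (h : ℝ) ≤ Real.log N := by
    have : κ * lam ≤ 1 := by nlinarith
    nlinarith
  have hH0 : ∀ i, (0 : ℝ) < H i := fun i => lt_of_lt_of_le (by positivity) (hH i).1
  have hH1 : ∀ i, 1 ≤ H i := fun i => hh1.trans (hhH' i)
  have hlamH : ∀ i, lam' * Real.log N ≤ H i := fun i => hhl.trans (by exact_mod_cast hhH' i)
  -- the sets
  obtain ⟨Q', hQ'⟩ : ∃ Q', Q' = Q.filter (fun p => N + h < p) := ⟨_, rfl⟩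
  have hQ'1 : ∀ p ∈ Q', N + h < p ∧ p ≤ 2 * N := by
    intro p hp
    rw [hQ', mem_filter] at hp
    exact ⟨hp.2, (mem_Ioc.1 (hQ hp.1)).2⟩
  have hQ'2 : ∀ p ∈ Q', p.Prime := fun p hp => by rw [hQ', mem_filter] at hp; exact hQp p hp.1
  have hcardlow := card_low N h Q hQ
  have hcard : (Q.card : ℝ) = Q'.card + ((Q.filter (fun p => ¬ N + h < p)).card : ℝ) := by
    rw [hQ']
    exact_mod_cast (card_filter_add_card_filter_not (s := Q) (fun p => N + h < p)).symm
  obtain ⟨Z, hZ⟩ : ∃ Z : ℝ, Z = N / Real.log N := ⟨_, rfl⟩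
  have hZ0 : 0 < Z := by rw [hZ]; positivity
  have hQZ : (Q.card : ℝ) ≤ CQ * Z := by rw [hZ]; exact hCQ N (by omega) Q hQ hQp
  -- the family of window vectors
  obtain ⟨Bd, hBd⟩ : ∃ Bd : (Fin r → ℕ) → Finset (Fin r → ℕ), Bd = fun L => (Fintype.piFinset (fun _ : Fin r => D)).filter (fun d =>
    κ * N < |∑ x ∈ Ioc N (2 * N), wQ N h Q' x * (∏ i, cH N (L i) (x + d i) - 1)|) := ⟨_, rfl⟩
  have hBdc : ∀ L : Fin r → ℕ, (∀ i, lam' * Real.log N ≤ L i ∧ L i ≤ N) → ((Bd L).card : ℝ) ≤ ε / (r + 2) * (D.card : ℝ) ^ r := by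
    intro L hL
    rw [hBd]
    exact hgood N (by omega) δ D hδ hδ1 hD hMS h hhl (wQ N h Q') (fun x => wQ_nonneg N h Q' x) (fun x => wQ_le N h Q' hQ'2 x) L hL
  obtain ⟨M, hM⟩ : ∃ M : ℝ, M = ∏ i, ((H i : ℝ) / Real.log N) := ⟨_, rfl⟩
  have hM0 : 0 < M := by rw [hM]; exact prod_pos fun i _ => div_pos (hH0 i) hL0
  have hsub : (Fintype.piFinset (fun _ : Fin r => D)).filter (fun d => ¬ |∑ p ∈ Q, ∏ i, nn (H i) (p + d i) - (∏ i, ((H i : ℝ) / Real.log N)) * Q.card| ≤
      ε * (∏ i, ((H i : ℝ) / Real.log N)) * (N / Real.log N)) ⊆ Bd (fun i => H i + h) ∪ (Bd H ∪ (univ : Finset (Fin r)).biUnion (fun j => Bd (Function.update H j h))) := by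
    intro d hd
    rw [mem_filter] at hd
    obtain ⟨hd1, hd2⟩ := hd
    by_contra hcon
    rw [mem_union, mem_union, mem_biUnion] at hcon
    push Not at hcon
    obtain ⟨g1, g2, g3⟩ := hcon
    rw [hBd] at g1 g2 g3
    simp only [mem_filter, not_and, not_lt] at g1 g2 g3
    have g1 := abs_le.1 (g1 hd1)
    have g2 := abs_le.1 (g2 hd1)
    have g3 := fun j => abs_le.1 (g3 j (mem_univ j) hd1)
    apply hd2
    rw [← hM, ← hZ]
    -- the bounds for the part of Q
    have u1 := tuple_upper N h (by omega) hh1 Q' hQ'1 r H d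
    have u2 := tuple_lower N h (by omega) hh1 Q' hQ'1 r H d hhH'
    rw [PL_eq N h (by omega) hh1 Q' hQ'1 r (fun i => H i + h) d (fun i => by omega)] at u1
    rw [PL_eq N h (by omega) hh1 Q' hQ'1 r H d hH1] at u2
    have u3 : ∀ j, PL N h Q' r (Function.update H j h) d ≤ κ * M * (Real.log N * Q'.card + κ * N) := by
      intro j
      rw [PL_eq N h (by omega) hh1 Q' hQ'1 r (Function.update H j h) d (fun i => by
        by_cases hi : i = j
        · rw [hi, Function.update_self]; exact hh1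
        · rw [Function.update_of_ne hi]; exact hH1 i)]
      have e1 : ∏ i, (((Function.update H j h) i : ℝ) / Real.log N) ≤ κ * M := by
        rw [hM, ← mul_prod_erase univ (fun i => (((Function.update H j h) i : ℝ) / Real.log N)) (mem_univ j),
          ← mul_prod_erase univ (fun i => ((H i : ℝ) / Real.log N)) (mem_univ j), ← mul_assoc]
        simp only [Function.update_self]
        have e2 : ∏ i ∈ univ.erase j, (((Function.update H j h) i : ℝ) / Real.log N) = ∏ i ∈ univ.erase j, ((H i : ℝ) / Real.log N) := by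
          apply prod_congr rfl
          intro i hi
          rw [Function.update_of_ne (ne_of_mem_erase hi)]
        rw [e2]
        apply mul_le_mul_of_nonneg_right
        · rw [← mul_div_assoc]
          exact div_le_div_of_nonneg_right (hhH j) hL0.le
        · exact prod_nonneg fun i _ => (div_pos (hH0 i) hL0).le
      have e3 : 0 ≤ ∏ i, (((Function.update H j h) i : ℝ) / Real.log N) := prod_nonneg fun i _ => by positivity
      have e4 : 0 ≤ Real.log N * Q'.card + κ * N := by positivity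
      calc _ ≤ (∏ i, (((Function.update H j h) i : ℝ) / Real.log N)) * (Real.log N * Q'.card + κ * N) := by
            apply mul_le_mul_of_nonneg_left _ e3
            linarith [(g3 j).2]
        _ ≤ _ := mul_le_mul_of_nonneg_right e1 e4
    have hKZ : κ * N = Real.log N * (κ * Z) := by rw [hZ]; field_simp
    have hn' : (0 : ℝ) ≤ Q'.card := Nat.cast_nonneg _
    obtain ⟨n', hn'd⟩ : ∃ n' : ℝ, n' = Q'.card := ⟨_, rfl⟩
    obtain ⟨nq, hnq⟩ : ∃ nq : ℝ, nq = Q.card := ⟨_, rfl⟩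
    obtain ⟨nl, hnl⟩ : ∃ nl : ℝ, nl = ((Q.filter (fun p => ¬ N + h < p)).card : ℝ) := ⟨_, rfl⟩
    rw [← hn'd] at u1 u2 u3 hn' hcard
    rw [← hnl] at hcardlow hcard
    rw [← hnq] at hcard hQZ ⊢
    have hnl0 : 0 ≤ nl := by rw [hnl]; exact Nat.cast_nonneg _
    -- upper bound
    have v1 : ∑ p ∈ Q', ∏ i, nn (H i) (p + d i) ≤ 2 ^ r * κ * M * (n' + κ * Z) + M * (n' + κ * Z) := by
      refine u1.trans ?_
      have e1 : ∏ i, (((H i + h : ℕ) : ℝ) / Real.log N) ≤ (1 + 2 ^ r * κ) * M := by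
        calc ∏ i, (((H i + h : ℕ) : ℝ) / Real.log N) ≤ ∏ i, ((1 + κ) * ((H i : ℝ) / Real.log N)) := by
              apply prod_le_prod
              · intro i _; positivity
              · intro i _
                rw [← mul_div_assoc]
                apply div_le_div_of_nonneg_right _ hL0.le
                push_cast
                linarith [hhH i]
          _ = (1 + κ) ^ r * M := by rw [prod_mul_distrib, hM]; simp
          _ ≤ (1 + 2 ^ r * κ) * M := by
              apply mul_le_mul_of_nonneg_right _ hM0.le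
              have := pow_le_lin κ hκ0.le hκ1 r
              nlinarith
      have e2 : 0 ≤ ∏ i, (((H i + h : ℕ) : ℝ) / Real.log N) := prod_nonneg fun i _ => by positivity
      have e3 : 0 ≤ n' + κ * Z := by positivity
      calc 1 / Real.log N * ((∏ i, (((H i + h : ℕ) : ℝ) / Real.log N)) * (Real.log N * n' + ∑ x ∈ Ioc N (2 * N), wQ N h Q' x * (∏ i, cH N (H i + h) (x + d i) - 1))) ≤
            1 / Real.log N * ((∏ i, (((H i + h : ℕ) : ℝ) / Real.log N)) * (Real.log N * (n' + κ * Z))) := by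
            apply mul_le_mul_of_nonneg_left _ (by positivity)
            apply mul_le_mul_of_nonneg_left _ e2
            rw [mul_add, ← hKZ]
            linarith [g1.2]
        _ = (∏ i, (((H i + h : ℕ) : ℝ) / Real.log N)) * (n' + κ * Z) := by field_simp
        _ ≤ (1 + 2 ^ r * κ) * M * (n' + κ * Z) := mul_le_mul_of_nonneg_right e1 e3
        _ = _ := by ring
    -- lower bound
    have v2 : M * (n' - κ * Z) - r * (κ * M * (n' + κ * Z)) ≤ ∑ p ∈ Q', ∏ i, nn (H i) (p + d i) := by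
      refine le_trans ?_ u2
      have e1 : ∑ j, PL N h Q' r (Function.update H j h) d ≤ r * (κ * M * (Real.log N * n' + κ * N)) := by
        refine (sum_le_sum fun j _ => u3 j).trans ?_
        rw [sum_const, card_univ, Fintype.card_fin, nsmul_eq_mul]
      have e2 : M * (Real.log N * n' - κ * N) ≤ (∏ i, ((H i : ℝ) / Real.log N)) * (Real.log N * n' + ∑ x ∈ Ioc N (2 * N), wQ N h Q' x * (∏ i, cH N (H i) (x + d i) - 1)) := by
        rw [← hM]
        apply mul_le_mul_of_nonneg_left _ hM0.le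
        linarith [g2.1]
      have e3 : 1 / Real.log N * (M * (Real.log N * n' - κ * N) - r * (κ * M * (Real.log N * n' + κ * N))) = M * (n' - κ * Z) - r * (κ * M * (n' + κ * Z)) := by
        rw [hKZ]
        field_simp
      rw [← e3]
      apply mul_le_mul_of_nonneg_left _ (by positivity)
      linarith
    -- the small primes
    have v3 : ∑ p ∈ Q, ∏ i, nn (H i) (p + d i) = ∑ p ∈ Q', ∏ i, nn (H i) (p + d i) + ∑ p ∈ Q.filter (fun p => ¬ N + h < p), ∏ i, nn (H i) (p + d i) := by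
      rw [hQ']
      exact (sum_filter_add_sum_filter_not Q (fun p => N + h < p) _).symm
    have v4 : 0 ≤ ∑ p ∈ Q.filter (fun p => ¬ N + h < p), ∏ i, nn (H i) (p + d i) := sum_nonneg fun p _ => prod_nonneg fun i _ => nn_nonneg _ _
    have v5 : ∑ p ∈ Q.filter (fun p => ¬ N + h < p), ∏ i, nn (H i) (p + d i) ≤ M * (Real.log N ^ (r + 1)) := by
      have e1 : ∀ p ∈ Q.filter (fun p => ¬ N + h < p), ∏ i, nn (H i) (p + d i) ≤ M * Real.log N ^ r := by
        intro p _
        have e2 : ∏ i, nn (H i) (p + d i) ≤ ∏ i, (H i : ℝ) := by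
          apply prod_le_prod (fun i _ => nn_nonneg _ _)
          intro i _
          unfold nn
          rw [pi_diff]
          calc ∑ t ∈ Icc 1 (H i), (if (p + d i + t).Prime then (1 : ℝ) else 0) ≤ ∑ t ∈ Icc 1 (H i), (1 : ℝ) := by
                apply sum_le_sum
                intro t _
                split_ifs <;> norm_num
            _ = H i := by simp
        refine e2.trans (le_of_eq ?_)
        rw [hM, prod_div_distrib]
        simp only [prod_const, card_univ, Fintype.card_fin]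
        field_simp
      refine (sum_le_sum e1).trans ?_
      rw [sum_const, nsmul_eq_mul, ← hnl, pow_succ]
      calc nl * (M * Real.log N ^ r) ≤ Real.log N * (M * Real.log N ^ r) := mul_le_mul_of_nonneg_right (hcardlow.trans hhL) (by positivity)
        _ = _ := by ring
    have v6 : Real.log N ^ (r + 1) ≤ ε / 2 * Z := by
      have e1 := h3 N (by omega)
      have e6 : √(N : ℝ) ≤ N := by
        rw [Real.sqrt_le_left (by linarith)]
        nlinarith
      rw [hZ, ← mul_div_assoc, le_div_iff₀ hL0, ← pow_succ]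
      have e7 : 2 / ε * Real.log N ^ (r + 1 + 1) ≤ N := e1.trans e6
      have e8 : 2 / ε * Real.log N ^ (r + 1 + 1) * (ε / 2) = Real.log N ^ (r + 1 + 1) := by field_simp
      rw [← e8]
      have := mul_le_mul_of_nonneg_right e7 (show (0 : ℝ) ≤ ε / 2 by positivity)
      linarith
    have v7 : nl ≤ ε / 2 * Z := by
      refine (hcardlow.trans hhL).trans (le_trans ?_ v6)
      have := one_le_pow₀ (n := r) hlog
      rw [pow_succ]
      nlinarith
    have hn'Z : n' ≤ CQ * Z := by linarith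
    have w1 : 2 ^ r * κ * M * (n' + κ * Z) ≤ M * (ε / 8 * Z) := by
      have e1 : n' + κ * Z ≤ 2 * CQ * Z := by
        have : κ * Z ≤ CQ * Z := mul_le_mul_of_nonneg_right (hκ1.trans hCQ1) hZ0.le
        linarith
      calc 2 ^ r * κ * M * (n' + κ * Z) ≤ 2 ^ r * κ * M * (2 * CQ * Z) := mul_le_mul_of_nonneg_left e1 (by positivity)
        _ = M * (2 * (2 ^ r * κ * CQ) * Z) := by ring
        _ ≤ M * (2 * (ε / 16) * Z) := by
            apply mul_le_mul_of_nonneg_left _ hM0.le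
            apply mul_le_mul_of_nonneg_right _ hZ0.le
            linarith
        _ = _ := by ring
    have w2 : r * (κ * M * (n' + κ * Z)) ≤ M * (ε / 8 * Z) := by
      have e1 : n' + κ * Z ≤ 2 * CQ * Z := by
        have : κ * Z ≤ CQ * Z := mul_le_mul_of_nonneg_right (hκ1.trans hCQ1) hZ0.le
        linarith
      calc r * (κ * M * (n' + κ * Z)) ≤ (r + 1) * (κ * M * (2 * CQ * Z)) := by
            apply mul_le_mul (by linarith) _ (by positivity) (by positivity)
            exact mul_le_mul_of_nonneg_left e1 (by positivity)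
        _ = M * (2 * ((r + 1) * κ * CQ) * Z) := by ring
        _ ≤ M * (2 * (ε / 16) * Z) := by
            apply mul_le_mul_of_nonneg_left _ hM0.le
            apply mul_le_mul_of_nonneg_right _ hZ0.le
            linarith
        _ = _ := by ring
    have w3 : M * (κ * Z) ≤ M * (ε / 16 * Z) := by
      apply mul_le_mul_of_nonneg_left _ hM0.le
      exact mul_le_mul_of_nonneg_right hκ4 hZ0.le
    have w4 : M * Real.log N ^ (r + 1) ≤ M * (ε / 2 * Z) := mul_le_mul_of_nonneg_left v6 hM0.le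
    have w5 : M * nl ≤ M * (ε / 2 * Z) := mul_le_mul_of_nonneg_left v7 hM0.le
    have w6 : 0 ≤ M * (ε * Z) := by positivity
    have w7 : 0 ≤ M * nl := mul_nonneg hM0.le hnl0
    rw [v3, hcard, abs_le]
    constructor
    · nlinarith
    · nlinarith
  refine (Nat.cast_le.2 ((card_le_card hsub).trans ((card_union_le _ _).trans (Nat.add_le_add_left ((card_union_le _ _).trans (Nat.add_le_add_left card_biUnion_le _)) _)))).trans ?_
  push_cast
  have b1 := hBdc (fun i => H i + h) (fun i => by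
    constructor
    · push_cast
      linarith [hlamH i]
    · have := hhH' i
      have := (hH i).2
      omega)
  have b2 := hBdc H (fun i => ⟨hlamH i, by have := (hH i).2; omega⟩)
  have b3 : ∀ j ∈ (univ : Finset (Fin r)), ((Bd (Function.update H j h)).card : ℝ) ≤ ε / (r + 2) * (D.card : ℝ) ^ r := by
    intro j _
    apply hBdc
    intro i
    by_cases hi : i = j
    · rw [hi, Function.update_self]
      refine ⟨hhl, ?_⟩
      have := hhH' j
      have := (hH j).2
      omega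
    · rw [Function.update_of_ne hi]
      exact ⟨hlamH i, by have := (hH i).2; omega⟩
  have b4 := sum_le_sum b3
  rw [sum_const, card_univ, Fintype.card_fin, nsmul_eq_mul] at b4
  refine (add_le_add b1 (add_le_add b2 b4)).trans (le_of_eq ?_)
  field_simp
  ring

end Pool.Agent.H86.PM
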