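import Pool.Graph.R_pool_sql_team_seeded_b0a926ef.R461.HM.Jnt2

set_option autoImplicit false

/-! Joint moments at finitely many heights: the expansion. -/

namespace Pool.Agent.H86.PY

open Complex Filter Topology MeasureTheory Set
open scoped ENNReal
open Pool.Agent.R461.HM

noncomputable section

variable {ι : Type} [Fintype ι] [DecidableEq ι] {Ω : Type} [MeasurableSpace Ω]

/-- the joint character -/
def CH (μ : Measure Ω) (t : ι → Ω → ℝ) (θ : ι → ℝ) : ℂ := ∫ ω, exp ((∑ j, θ j * t j ω : ℝ) * I) ∂μ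

lemma many_lower {K : ℕ} {q : ι → ℕ} {α : ℕ × ℕ → ℝ} {A0 ε : ℝ} (hA0 : 0 ≤ A0) (hα0 : ∀ x, 0 ≤ α x)
    (hα1 : ∀ x ∈ SS K, α x ≤ A0) (hε : 0 ≤ ε) (μ : Measure Ω) [IsProbabilityMeasure μ] {t : ι → Ω → ℝ}
    (ht : ∀ j, Measurable (t j))
    (hsm : ∀ g : (j : ι) → Fin (q j) → ℕ × ℕ, (∀ j, g j ∈ Fintype.piFinset (fun _ : Fin (q j) => SS K)) →
      (∃ j, P1 (g j) ≠ P2 (g j)) → (∀ j i, α (g j i) ≠ 0) →
      ‖CH μ t (fun j => -(Real.log (P1 (g j)) - Real.log (P2 (g j))))‖ ≤ ε) :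
    ∏ j, Dg α (q j) K - ((K:ℝ) ^ 2) ^ (∑ j, q j) * (A0 ^ (∑ j, q j) * ε) ≤
      ‖∫ ω, ∏ j, DP α K (t j ω) ^ q j ∂μ‖ := by
  set S : Finset ((j : ι) → Fin (q j) → ℕ × ℕ) :=
    Fintype.piFinset fun j => Fintype.piFinset (fun _ : Fin (q j) => SS K) with hS
  set F : ((j : ι) → Fin (q j) → ℕ × ℕ) → ℂ := fun g =>
    ((∏ j, ∏ i, α (g j i) : ℝ) : ℂ) * CH μ t (fun j => -(Real.log (P1 (g j)) - Real.log (P2 (g j)))) with hF
  set G : ((j : ι) → Fin (q j) → ℕ × ℕ) → ℝ := fun g =>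
    ∏ j, (if P1 (g j) = P2 (g j) then ∏ i, α (g j i) else 0) with hG
  have h1 : ∫ ω, ∏ j, DP α K (t j ω) ^ q j ∂μ = ∑ g ∈ S, F g := by
    have e0 : ∀ ω, ∏ j, DP α K (t j ω) ^ q j = ∑ g ∈ S,
        ((∏ j, ∏ i, α (g j i) : ℝ) : ℂ) *
          exp ((∑ j, (-(Real.log (P1 (g j)) - Real.log (P2 (g j)))) * t j ω : ℝ) * I) := by
      intro ω
      simp only [DP_pow]
      rw [Finset.prod_univ_sum]
      refine Finset.sum_congr rfl fun g _ => ?_
      rw [Finset.prod_mul_distrib, ← Complex.exp_sum, Complex.ofReal_prod, Complex.ofReal_sum, Finset.sum_mul]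
    simp only [e0]
    rw [integral_finsetSum]
    · refine Finset.sum_congr rfl fun g _ => ?_
      rw [integral_const_mul]
      rfl
    · intro g _
      refine (integrable_const ‖((∏ j, ∏ i, α (g j i) : ℝ) : ℂ)‖).mono' ?_ (Eventually.of_forall fun ω => ?_)
      · refine Measurable.aestronglyMeasurable ?_
        refine measurable_const.mul (Complex.measurable_exp.comp ?_)
        refine (Complex.measurable_ofReal.comp ?_).mul_const _
        exact Finset.measurable_sum _ fun j _ => (ht j).const_mul _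
      · rw [norm_mul, Complex.norm_exp_ofReal_mul_I, mul_one]
  have h2 : ∑ g ∈ S, G g = ∏ j, Dg α (q j) K := by
    unfold Dg
    simp only [Finset.sum_filter]
    rw [Finset.prod_univ_sum]
  have hprod : ∀ {j : ℕ} (g : Fin j → ℕ × ℕ), g ∈ Fintype.piFinset (fun _ : Fin j => SS K) → ∏ i, α (g i) ≤ A0 ^ j := by
    intro j g hg
    refine (Finset.prod_le_prod (fun i _ => hα0 _) (fun i _ => hα1 (g i) ((Fintype.mem_piFinset.1 hg) i))).trans ?_
    rw [Finset.prod_const, Finset.card_univ, Fintype.card_fin]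
  have hpn : ∀ {j : ℕ} (g : Fin j → ℕ × ℕ), 0 ≤ ∏ i, α (g i) := fun g => Finset.prod_nonneg fun i _ => hα0 _
  have h3 : ∀ g ∈ S, ‖F g - (G g : ℂ)‖ ≤ A0 ^ (∑ j, q j) * ε := by
    intro g hg
    have hg' := Fintype.mem_piFinset.1 hg
    simp only [hF, hG]
    by_cases hd : ∀ j, P1 (g j) = P2 (g j)
    · have e1 : CH μ t (fun j => -(Real.log (P1 (g j)) - Real.log (P2 (g j)))) = 1 := by
        unfold CH
        simp [hd]
      have e2 : ∏ j, (if P1 (g j) = P2 (g j) then ∏ i, α (g j i) else 0) = ∏ j, ∏ i, α (g j i) :=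
        Finset.prod_congr rfl fun j _ => if_pos (hd j)
      rw [e1, mul_one, e2, sub_self, norm_zero]
      positivity
    · push Not at hd
      obtain ⟨j0, hj0⟩ := hd
      have e2 : ∏ j, (if P1 (g j) = P2 (g j) then ∏ i, α (g j i) else 0) = 0 :=
        Finset.prod_eq_zero (Finset.mem_univ j0) (if_neg hj0)
      have hn0 : 0 ≤ ∏ j, ∏ i, α (g j i) := Finset.prod_nonneg fun j _ => hpn _
      rw [e2, Complex.ofReal_zero, sub_zero, norm_mul, Complex.norm_real, Real.norm_of_nonneg hn0]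
      by_cases h0 : ∀ j i, α (g j i) ≠ 0
      · have h4 := hsm g hg' ⟨j0, hj0⟩ h0
        have h5 : ∏ j, ∏ i, α (g j i) ≤ A0 ^ (∑ j, q j) := by
          rw [← Finset.prod_pow_eq_pow_sum]
          exact Finset.prod_le_prod (fun j _ => hpn _) fun j _ => hprod _ (hg' j)
        gcongr
      · push Not at h0
        obtain ⟨j, i, hi⟩ := h0
        have e3 : ∏ j, ∏ i, α (g j i) = 0 :=
          Finset.prod_eq_zero (Finset.mem_univ j) (Finset.prod_eq_zero (Finset.mem_univ i) hi)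
        rw [e3, zero_mul]
        positivity
  have h4 : ‖∑ g ∈ S, (F g - (G g : ℂ))‖ ≤ ((K:ℝ) ^ 2) ^ (∑ j, q j) * (A0 ^ (∑ j, q j) * ε) := by
    refine (norm_sum_le _ _).trans ((Finset.sum_le_card_nsmul _ _ _ h3).trans (le_of_eq ?_))
    rw [nsmul_eq_mul, hS, Fintype.card_piFinset]
    simp only [Fintype.card_piFinset_const]
    rw [Finset.prod_pow_eq_pow_sum]
    unfold SS
    rw [Finset.card_product, Nat.card_Icc, Nat.add_sub_cancel]
    push_cast
    ring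
  rw [Finset.sum_sub_distrib, ← h1, ← Complex.ofReal_sum, h2] at h4
  have hDn : ∀ j : ℕ, 0 ≤ Dg α j K := fun j => Finset.sum_nonneg fun g _ => hpn g
  have h9 := norm_sub_norm_le (((∏ j, Dg α (q j) K : ℝ)) : ℂ) (∫ ω, ∏ j, DP α K (t j ω) ^ q j ∂μ)
  rw [norm_sub_rev, Complex.norm_real, Real.norm_of_nonneg (Finset.prod_nonneg fun j _ => hDn _)] at h9
  linarith

lemma case_many {q : ι → ℕ} (hq : ∀ j, 1 ≤ q j) {X x : ι → ℝ≥0∞} {e W : ℝ≥0∞} (hX : ∀ j, X j ≤ x j + e)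
    (hW : ∀ j, X j ≤ W) (hW1 : 1 ≤ W) :
    ∏ j, X j ^ q j ≤ 2 ^ (∑ j, q j) * ∏ j, x j ^ q j + 2 * e * W ^ (∑ j, q j) := by
  by_cases h : ∀ j, e ≤ x j
  · refine le_trans ?_ le_self_add
    rw [← Finset.prod_pow_eq_pow_sum, ← Finset.prod_mul_distrib]
    refine Finset.prod_le_prod' fun j _ => ?_
    rw [← mul_pow]
    gcongr
    refine (hX j).trans ?_
    rw [two_mul]
    gcongr
    exact h j
  · push Not at h
    obtain ⟨j0, hj0⟩ := h
    refine le_trans ?_ le_add_self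
    have h1 : X j0 ≤ 2 * e := (hX j0).trans (by rw [two_mul]; gcongr)
    have h2 : ∏ j, X j ^ q j = X j0 ^ q j0 * ∏ j ∈ Finset.univ.erase j0, X j ^ q j :=
      (Finset.mul_prod_erase Finset.univ (fun j => X j ^ q j) (Finset.mem_univ j0)).symm
    have h3 : ∏ j ∈ Finset.univ.erase j0, X j ^ q j ≤ W ^ (∑ j ∈ Finset.univ.erase j0, q j) := by
      rw [← Finset.prod_pow_eq_pow_sum]
      exact Finset.prod_le_prod' fun j _ => pow_le_pow_left' (hW j) _
    have h4 : X j0 ^ q j0 ≤ 2 * e * W ^ (q j0 - 1) := by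
      obtain ⟨m, hm⟩ : ∃ m, q j0 = m + 1 := ⟨q j0 - 1, by have := hq j0; omega⟩
      rw [hm, pow_succ, Nat.add_sub_cancel, mul_comm]
      exact mul_le_mul' h1 (pow_le_pow_left' (hW j0) _)
    rw [h2]
    calc X j0 ^ q j0 * ∏ j ∈ Finset.univ.erase j0, X j ^ q j ≤
          2 * e * W ^ (q j0 - 1) * W ^ (∑ j ∈ Finset.univ.erase j0, q j) := mul_le_mul' h4 h3
      _ = 2 * e * W ^ (q j0 - 1 + ∑ j ∈ Finset.univ.erase j0, q j) := by rw [mul_assoc, ← pow_add]
      _ ≤ _ := by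
          have h5 := Finset.add_sum_erase Finset.univ q (Finset.mem_univ j0)
          have h6 := hq j0
          exact mul_le_mul' le_rfl (pow_le_pow_right' hW1 (by omega))

end

end Pool.Agent.H86.PY
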