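import Pool.Agent.H86.Y1

set_option autoImplicit false

/-! Joint moments at finitely many heights: the lower bound. -/

namespace Pool.Agent.H86.PY

open Complex Filter Topology MeasureTheory Set
open scoped ENNReal
open Pool.Agent.R461.HM

noncomputable section

/-- the joint lower bound at finitely many heights -/
theorem many_main {ι : Type} [Fintype ι] [DecidableEq ι] {q : ι → ℕ} (hq : ∀ j, 1 ≤ q j) (N : ℕ) {κ : ℝ} (hκ : 0 < κ)
    (hκ1 : κ ≤ 1) :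
    ∃ c : ℝ, 0 < c ∧ ∀ D : ℝ, 1 ≤ D → ∃ T₀ : ℝ, Real.exp 1 ≤ T₀ ∧ ∀ T : ℝ, T₀ ≤ T → ∀ (Ω : Type) [MeasurableSpace Ω]
      (μ : Measure Ω) (t : ι → Ω → ℝ), IsProbabilityMeasure μ → (∀ j, Measurable (t j)) →
      (∀ᵐ ω ∂μ, ∀ j, t j ω ∈ Icc (T / D) (D * T)) →
      (∀ m n : ι → ℕ, (∀ j, 1 ≤ m j) → (∀ j, 1 ≤ n j) → (∃ j, m j ≠ n j) → (∀ j, (m j : ℝ) * n j ≤ T ^ κ) →
        ‖∫ ω, exp (I * ∑ j, (t j ω : ℂ) * Real.log (m j / n j)) ∂μ‖ ≤ T ^ (-κ)) →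
      ENNReal.ofReal (c * Real.log T ^ (∑ j, q j ^ 2)) ≤ ∫⁻ ω, ∏ j, (loc 1 N T (t j ω)) ^ q j ∂μ := by
  have hpi := Real.pi_pos
  obtain ⟨s, hs⟩ : ∃ s : ℕ, s = ∑ j, q j := ⟨_, rfl⟩
  have hqs : ∀ j, q j ≤ s := fun j => by
    rw [hs]; exact Finset.single_le_sum (f := q) (fun i _ => Nat.zero_le _) (Finset.mem_univ j)
  obtain ⟨ξ1, hξ1⟩ : ∃ ξ1 : ℝ, ξ1 = κ / (8 * (s + 1)) := ⟨_, rfl⟩
  have hs0 : (0:ℝ) ≤ s := Nat.cast_nonneg s
  have hξ : 0 < ξ1 := by rw [hξ1]; positivity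
  have hsξ : s * ξ1 ≤ κ / 8 := by
    rw [hξ1, mul_div_assoc', div_le_div_iff₀ (by positivity) (by norm_num)]
    nlinarith
  obtain ⟨B, hB, hcore⟩ := poly_core N hξ
  have hdl : ∀ j, ∃ c T₀ : ℝ, 0 < c ∧ Real.exp 1 ≤ T₀ ∧ ∀ T : ℝ, T₀ ≤ T →
      c * Real.log T ^ (q j ^ 2) ≤ ∑ n ∈ Finset.Icc 1 ⌊T ^ (ξ1 / 4)⌋₊,
        (Pool.Agent.W182.KO.dk (q j) n : ℝ) ^ 2 / n := fun j =>
    diag_lower (hq j) (show 0 < ξ1 / 4 by positivity)
  choose c1 T1 hc1 hT1 hdl1 using hdl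
  obtain ⟨TT, hTT⟩ : ∃ TT : ℝ, ∀ j, T1 j ≤ TT := by
    refine ⟨∑ j, |T1 j|, fun j => ?_⟩
    exact (le_abs_self _).trans (Finset.single_le_sum (f := fun j => |T1 j|) (fun i _ => abs_nonneg _) (Finset.mem_univ j))
  set c2 : ℝ := (2 * Real.pi) ^ s * ∏ j, c1 j with hc2
  have hc20 : 0 < c2 := by
    have : 0 < ∏ j, c1 j := Finset.prod_pos fun j _ => hc1 j
    positivity
  refine ⟨c2 / (2 * (2 * B) ^ s), by positivity, fun D hD => ?_⟩
  obtain ⟨C2, T2, hC2, hT2, hcore2⟩ := hcore D hD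
  have hlim : Tendsto (fun T : ℝ => (2 * Real.pi) ^ s * T ^ (-(3 / 4 * κ)) + 2 * C2 * (2 * Real.pi) ^ s * T ^ (-(3 / 4) : ℝ)) atTop
      (𝓝 ((2 * Real.pi) ^ s * 0 + 2 * C2 * (2 * Real.pi) ^ s * 0)) :=
    ((tendsto_rpow_neg_atTop (by positivity)).const_mul _).add ((tendsto_rpow_neg_atTop (by norm_num)).const_mul _)
  rw [mul_zero, mul_zero, add_zero] at hlim
  obtain ⟨T3, hT3⟩ := eventually_atTop.mp (hlim.eventually (gt_mem_nhds (show 0 < c2 / 2 by positivity)))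
  refine ⟨max (max (Real.exp 1) TT) (max T2 T3), (le_max_left _ _).trans (le_max_left _ _),
    fun T hT Ω _ μ t hμ ht hsup hsmall => ?_⟩
  have hTe : Real.exp 1 ≤ T := ((le_max_left _ _).trans (le_max_left _ _)).trans hT
  have hTa : ∀ j, T1 j ≤ T := fun j => (hTT j).trans (((le_max_right _ _).trans (le_max_left _ _)).trans hT)
  have hTc : T2 ≤ T := ((le_max_left _ _).trans (le_max_right _ _)).trans hT
  have hTd : T3 ≤ T := ((le_max_right _ _).trans (le_max_right _ _)).trans hT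
  have hT2' : 2 ≤ T := by have := Real.add_one_le_exp 1; linarith
  have hT0 : 0 < T := by linarith
  have hT1'' : 1 ≤ T := by linarith
  have hL : 1 ≤ Real.log T := by rwa [Real.le_log_iff_exp_le hT0]
  have hd1 := fun j => hdl1 j T (hTa j)
  have hlim' := hT3 T hTd
  obtain ⟨α, hα0, hα1, hα2, hα3, hpt⟩ := hcore2 T hTc
  obtain ⟨L, hLd⟩ : ∃ L, L = Real.log T := ⟨_, rfl⟩
  rw [← hLd] at hL hpt hα3 hα2 ⊢
  simp only [← hLd] at hd1
  have hL0 : 0 < L := by linarith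
  obtain ⟨K, hK⟩ : ∃ K, K = ⌊T ^ ξ1⌋₊ := ⟨_, rfl⟩
  rw [← hK] at hα1 hpt
  have hK1 : 1 ≤ K := by
    rw [hK]
    exact Nat.le_floor (by rw [Nat.cast_one]; exact Real.one_le_rpow hT1'' hξ.le)
  have hKle : (K:ℝ) ≤ T ^ ξ1 := by
    rw [hK]
    exact Nat.floor_le (by positivity)
  have hKpow : ((K:ℝ) ^ 2) ^ s ≤ T ^ (1 / 4 * κ) := by
    calc ((K:ℝ) ^ 2) ^ s ≤ ((T ^ ξ1) ^ 2) ^ s := by gcongr
      _ = T ^ (2 * (s * ξ1)) := by
          rw [← pow_mul, ← Real.rpow_natCast, ← Real.rpow_mul hT0.le]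
          congr 1
          push_cast
          ring
      _ ≤ T ^ (1 / 4 * κ) := Real.rpow_le_rpow_of_exponent_le hT1'' (by linarith)
  -- smallness
  have hlogP : ∀ {j : ℕ}, j ≤ s → ∀ g ∈ Fintype.piFinset (fun _ : Fin j => SS K), (∀ i, α (g i) ≠ 0) →
      ((P1 g : ℕ) : ℝ) * (P2 g : ℕ) ≤ T ^ κ := by
    intro j hj g hg h0
    obtain ⟨hp1, hp2, hlg⟩ := log_P hg
    have hp1' : (0:ℝ) < P1 g := by exact_mod_cast hp1
    have hp2' : (0:ℝ) < P2 g := by exact_mod_cast hp2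
    have hj' : (j:ℝ) ≤ s := by exact_mod_cast hj
    rw [Real.rpow_def_of_pos hT0, ← Real.log_le_iff_le_exp (by positivity), Real.log_mul hp1'.ne' hp2'.ne', hlg, ← hLd]
    refine (Finset.sum_le_sum fun i _ => hα2 (g i) (h0 i)).trans ?_
    rw [Finset.sum_const, Finset.card_univ, Fintype.card_fin, nsmul_eq_mul]
    have h1 : j * (ξ1 * L) ≤ s * (ξ1 * L) := by gcongr
    have h2 : s * (ξ1 * L) ≤ κ / 8 * L := by
      rw [← mul_assoc]; gcongr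
    nlinarith
  have hsm : ∀ g : (j : ι) → Fin (q j) → ℕ × ℕ, (∀ j, g j ∈ Fintype.piFinset (fun _ : Fin (q j) => SS K)) →
      (∃ j, P1 (g j) ≠ P2 (g j)) → (∀ j i, α (g j i) ≠ 0) →
      ‖CH μ t (fun j => -(Real.log (P1 (g j)) - Real.log (P2 (g j))))‖ ≤ T ^ (-κ) := by
    intro g hg hne h0
    have h3 := hsmall (fun j => P2 (g j)) (fun j => P1 (g j)) (fun j => (log_P (hg j)).2.1) (fun j => (log_P (hg j)).1)
      (by obtain ⟨j, hj⟩ := hne; exact ⟨j, hj.symm⟩)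
      (fun j => by
        have := hlogP (hqs j) (g j) (hg j) (h0 j)
        rw [mul_comm]; exact this)
    refine le_trans (le_of_eq ?_) h3
    unfold CH
    congr 2; funext p
    congr 1
    rw [mul_comm, Complex.ofReal_sum]
    congr 1
    refine Finset.sum_congr rfl fun j _ => ?_
    have hp1' : (0:ℝ) < P1 (g j) := by exact_mod_cast (log_P (hg j)).1
    have hp2' : (0:ℝ) < P2 (g j) := by exact_mod_cast (log_P (hg j)).2.1
    rw [Real.log_div hp2'.ne' hp1'.ne']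
    push_cast
    ring
  have hA := many_lower (q := q) (K := K) (by positivity : (0:ℝ) ≤ 2 * Real.pi) hα0 hα1
    (by positivity : (0:ℝ) ≤ T ^ (-κ)) μ ht hsm
  rw [← hs] at hA
  have hoff : ((K:ℝ) ^ 2) ^ s * ((2 * Real.pi) ^ s * T ^ (-κ)) ≤ (2 * Real.pi) ^ s * T ^ (-(3 / 4 * κ)) := by
    calc ((K:ℝ) ^ 2) ^ s * ((2 * Real.pi) ^ s * T ^ (-κ)) ≤ T ^ (1 / 4 * κ) * ((2 * Real.pi) ^ s * T ^ (-κ)) := by
          gcongr
      _ = (2 * Real.pi) ^ s * (T ^ (1 / 4 * κ) * T ^ (-κ)) := by ring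
      _ = _ := by rw [← Real.rpow_add hT0]; congr 2; ring
  have hK'K : ⌊T ^ (ξ1 / 4)⌋₊ ≤ K := by
    rw [hK]
    exact Nat.floor_mono (Real.rpow_le_rpow_of_exponent_le hT1'' (by linarith))
  have hmain1 : ∀ j, (2 * Real.pi / L) ^ q j * (c1 j * L ^ (q j ^ 2)) ≤ Dg α (q j) K := by
    intro j
    have hdg1 := tuples_lower (q := q j) (K := K) (K' := ⌊T ^ (ξ1 / 4)⌋₊) (α := α) (a0 := 2 * Real.pi / L) hα0 hK'K hα3
    refine le_trans ?_ hdg1
    have := hd1 j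
    gcongr
  have hmain : c2 * (L ^ (∑ j, q j ^ 2) / L ^ s) ≤ ∏ j, Dg α (q j) K := by
    calc c2 * (L ^ (∑ j, q j ^ 2) / L ^ s) = ∏ j, ((2 * Real.pi / L) ^ q j * (c1 j * L ^ (q j ^ 2))) := by
          rw [hc2, Finset.prod_mul_distrib, Finset.prod_mul_distrib, Finset.prod_pow_eq_pow_sum,
            Finset.prod_pow_eq_pow_sum, ← hs, div_pow]
          field_simp
      _ ≤ _ := Finset.prod_le_prod (fun j _ => by have := hc1 j; positivity) fun j _ => hmain1 j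
  have hLq : 1 ≤ L ^ (∑ j, q j ^ 2) / L ^ s := by
    rw [one_le_div (by positivity)]
    refine pow_le_pow_right₀ hL ?_
    rw [hs]
    exact Finset.sum_le_sum fun j _ => Nat.le_self_pow (by norm_num) _
  -- the upper bound
  obtain ⟨W, hW⟩ : ∃ W : ℝ, W = (K:ℝ) ^ 2 * (2 * Real.pi) := ⟨_, rfl⟩
  have hW0 : 0 ≤ W := by rw [hW]; positivity
  have hW1 : 1 ≤ W := by
    rw [hW]
    have h1 : (1:ℝ) ≤ K := by exact_mod_cast hK1
    have h2 : (1:ℝ) ≤ (K:ℝ) ^ 2 := one_le_pow₀ h1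
    have h3 : (1:ℝ) ≤ 2 * Real.pi := by linarith [Real.pi_gt_three]
    nlinarith
  have hDPW : ∀ t : ℝ, ‖DP α K t‖ₑ ≤ ENNReal.ofReal W := by
    intro t
    rw [← ofReal_norm, hW]
    exact ENNReal.ofReal_le_ofReal (DP_le hα0 hα1 t)
  set Z := ∫⁻ ω, ∏ j, (loc 1 N T (t j ω)) ^ q j ∂μ with hZ
  set a := ENNReal.ofReal (B * L⁻¹) with ha
  set e := ENNReal.ofReal (C2 / T) with he
  have hup : ENNReal.ofReal ‖∫ ω, ∏ j, DP α K (t j ω) ^ q j ∂μ‖ ≤ (2 ^ s * a ^ s) * Z +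
      2 * e * ENNReal.ofReal W ^ s := by
    rw [ofReal_norm]
    refine (enorm_integral_le_lintegral_enorm _).trans ?_
    have h2 : ∫⁻ ω, ‖∏ j, DP α K (t j ω) ^ q j‖ₑ ∂μ ≤
        ∫⁻ ω, (2 ^ s * a ^ s) * (∏ j, (loc 1 N T (t j ω)) ^ q j) + 2 * e * ENNReal.ofReal W ^ s ∂μ := by
      refine lintegral_mono_ae ?_
      filter_upwards [hsup] with ω hω
      have e1 : ‖∏ j, DP α K (t j ω) ^ q j‖ₑ = ∏ j, ‖DP α K (t j ω)‖ₑ ^ q j := by
        rw [← ofReal_norm, norm_prod, ENNReal.ofReal_prod_of_nonneg fun _ _ => norm_nonneg _]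
        refine Finset.prod_congr rfl fun j _ => ?_
        rw [norm_pow, ENNReal.ofReal_pow (norm_nonneg _), ofReal_norm]
      rw [e1]
      refine (case_many hq (fun j => hpt (t j ω) (hω j)) (fun j => hDPW (t j ω)) ?_).trans (le_of_eq ?_)
      · rw [← ENNReal.ofReal_one]; exact ENNReal.ofReal_le_ofReal hW1
      · have e3 : ∏ j, (a * loc 1 N T (t j ω)) ^ q j = a ^ s * ∏ j, loc 1 N T (t j ω) ^ q j := by
          simp only [mul_pow]
          rw [Finset.prod_mul_distrib, Finset.prod_pow_eq_pow_sum, ← hs]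
        rw [← hs, e3, ← mul_assoc (2 ^ s) (a ^ s)]
    refine h2.trans (le_of_eq ?_)
    have hfin : (2:ℝ≥0∞) ^ s * a ^ s ≠ ⊤ :=
      ENNReal.mul_ne_top (by simp) (ENNReal.pow_ne_top ENNReal.ofReal_ne_top)
    rw [lintegral_add_right _ measurable_const, lintegral_const, measure_univ, mul_one, lintegral_const_mul' _ _ hfin]
  rcases eq_or_ne Z ⊤ with htop | htop
  · rw [htop]; exact le_top
  obtain ⟨z, hz0, hz⟩ : ∃ z : ℝ, 0 ≤ z ∧ Z = ENNReal.ofReal z :=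
    ⟨Z.toReal, ENNReal.toReal_nonneg, (ENNReal.ofReal_toReal htop).symm⟩
  rw [hz] at hup ⊢
  have hBL : 0 ≤ B * L⁻¹ := by positivity
  have hCT : 0 ≤ C2 / T := by positivity
  have hup2 : ‖∫ ω, ∏ j, DP α K (t j ω) ^ q j ∂μ‖ ≤ (2 ^ s * (B * L⁻¹) ^ s) * z + 2 * (C2 / T) * W ^ s := by
    have e2 : (2:ℝ≥0∞) = ENNReal.ofReal 2 := by norm_num
    have e1 : (2 ^ s * a ^ s) * ENNReal.ofReal z + 2 * e * ENNReal.ofReal W ^ s =
        ENNReal.ofReal ((2 ^ s * (B * L⁻¹) ^ s) * z + 2 * (C2 / T) * W ^ s) := by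
      rw [ENNReal.ofReal_add (by positivity) (by positivity),
        ENNReal.ofReal_mul (by positivity), ENNReal.ofReal_mul (by positivity), ENNReal.ofReal_mul (by positivity),
        ENNReal.ofReal_mul (by positivity), ENNReal.ofReal_pow (by positivity),
        ENNReal.ofReal_pow hBL, ENNReal.ofReal_pow hW0, ← e2]
    rw [e1] at hup
    exact (ENNReal.ofReal_le_ofReal_iff (by positivity)).1 hup
  refine ENNReal.ofReal_le_ofReal ?_
  have hsA : 2 * (C2 / T) * W ^ s ≤ 2 * C2 * (2 * Real.pi) ^ s * T ^ (-(3 / 4) : ℝ) := by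
    have h4 : W ^ s ≤ T ^ (1 / 4 : ℝ) * (2 * Real.pi) ^ s := by
      rw [hW, mul_pow]
      have h5 : ((K:ℝ) ^ 2) ^ s ≤ T ^ (1 / 4 : ℝ) :=
        hKpow.trans (Real.rpow_le_rpow_of_exponent_le hT1'' (by linarith))
      gcongr
    calc 2 * (C2 / T) * W ^ s ≤ 2 * (C2 / T) * (T ^ (1 / 4 : ℝ) * (2 * Real.pi) ^ s) := by gcongr
      _ = 2 * C2 * (2 * Real.pi) ^ s * (T ^ (1 / 4 : ℝ) * T⁻¹) := by ring
      _ = _ := by
          rw [← Real.rpow_neg_one T, ← Real.rpow_add hT0]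
          congr 2; norm_num
  have h9 : c2 * (L ^ (∑ j, q j ^ 2) / L ^ s) / 2 ≤ (2 ^ s * (B * L⁻¹) ^ s) * z := by
    have h10 : c2 ≤ c2 * (L ^ (∑ j, q j ^ 2) / L ^ s) := by
      nlinarith
    linarith
  have h12 : (2 ^ s * (B * L⁻¹) ^ s) * z = (2 * B) ^ s * z / L ^ s := by
    rw [mul_pow B, inv_pow, mul_pow]; field_simp
  rw [h12] at h9
  have h13 : c2 * (L ^ (∑ j, q j ^ 2) / L ^ s) / 2 = (c2 * L ^ (∑ j, q j ^ 2) / 2) / L ^ s := by ring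
  rw [h13, div_le_div_iff_of_pos_right (by positivity)] at h9
  rw [div_mul_eq_mul_div, div_le_iff₀ (by positivity)]
  linarith

end

end Pool.Agent.H86.PY
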