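import Mathlib

set_option autoImplicit false

/-! A double large sieve for measures on the cube. -/

namespace Pool.Agent.H86.PY

open Complex MeasureTheory Set Filter

noncomputable section

lemma geo1 (M : ℕ) (φ : ℝ) : ‖∑ a ∈ Finset.range (M + 1), exp (I * (φ * a : ℝ))‖ ≤ M + 1 := by
  refine (norm_sum_le _ _).trans (le_of_eq ?_)
  have : ∀ a ∈ Finset.range (M + 1), ‖exp (I * (φ * a : ℝ))‖ = 1 := fun a _ => by
    rw [mul_comm]; exact Complex.norm_exp_ofReal_mul_I _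
  rw [Finset.sum_congr rfl this, Finset.sum_const, Finset.card_range, nsmul_eq_mul]
  push_cast
  ring

lemma geo2 (M : ℕ) {φ : ℝ} (h0 : φ ≠ 0) (h1 : |φ| ≤ Real.pi) :
    ‖∑ a ∈ Finset.range (M + 1), exp (I * (φ * a : ℝ))‖ ≤ Real.pi / |φ| := by
  have hpi := Real.pi_pos
  have hφ : 0 < |φ| := abs_pos.2 h0
  have hlow : 2 / Real.pi * |φ| ≤ ‖exp (I * (φ : ℝ)) - 1‖ := by
    rw [Complex.norm_exp_I_mul_ofReal_sub_one, Real.norm_eq_abs, abs_mul, abs_two]
    have h2 : |Real.sin (φ / 2)| = Real.sin (|φ| / 2) := by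
      rcases le_total 0 φ with h | h
      · rw [abs_of_nonneg h, abs_of_nonneg]
        exact Real.sin_nonneg_of_nonneg_of_le_pi (by linarith) (by rw [abs_of_nonneg h] at h1; linarith)
      · rw [abs_of_nonpos h] at h1 ⊢
        have e : Real.sin (φ / 2) = - Real.sin (-φ / 2) := by rw [← Real.sin_neg]; congr 1; ring
        rw [e, abs_neg, abs_of_nonneg]
        exact Real.sin_nonneg_of_nonneg_of_le_pi (by linarith) (by linarith)
    rw [h2]
    have h3 := Real.mul_le_sin (x := |φ| / 2) (by positivity) (by linarith)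
    have : 2 / Real.pi * |φ| = 2 * (2 / Real.pi * (|φ| / 2)) := by ring
    rw [this]
    gcongr
  have hne : exp (I * (φ : ℝ)) ≠ 1 := by
    intro h
    rw [h, sub_self, norm_zero] at hlow
    have : 0 < 2 / Real.pi * |φ| := by positivity
    linarith
  have e1 : ∑ a ∈ Finset.range (M + 1), exp (I * (φ * a : ℝ)) = ∑ a ∈ Finset.range (M + 1), exp (I * (φ : ℝ)) ^ a := by
    refine Finset.sum_congr rfl fun a _ => ?_
    rw [← Complex.exp_nat_mul]
    congr 1; push_cast; ring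
  rw [e1, geom_sum_eq hne, norm_div]
  have h5 : ‖exp (I * (φ : ℝ)) ^ (M + 1) - 1‖ ≤ 2 := by
    refine (norm_sub_le _ _).trans ?_
    rw [norm_pow, mul_comm I, Complex.norm_exp_ofReal_mul_I, one_pow, norm_one]
    norm_num
  have h6 : 0 < ‖exp (I * (φ : ℝ)) - 1‖ := lt_of_lt_of_le (by positivity) hlow
  rw [div_le_div_iff₀ h6 hφ]
  calc ‖exp (I * (φ : ℝ)) ^ (M + 1) - 1‖ * |φ| ≤ 2 * |φ| := by gcongr
    _ = Real.pi * (2 / Real.pi * |φ|) := by field_simp
    _ ≤ _ := by gcongr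

lemma geo3 (M : ℕ) {φ : ℝ} (h1 : |φ| ≤ Real.pi) :
    ‖∑ a ∈ Finset.range (M + 1), exp (I * (φ * a : ℝ))‖ ≤ (M + 1) * (1 + Real.pi) / (1 + M * |φ|) := by
  have hpi := Real.pi_pos
  have hM : (0:ℝ) ≤ M := Nat.cast_nonneg M
  rw [le_div_iff₀ (by positivity)]
  rcases eq_or_ne φ 0 with h0 | h0
  · have := geo1 M φ
    rw [h0] at this ⊢
    simp only [abs_zero, mul_zero, add_zero, mul_one]
    nlinarith
  have hφ : 0 < |φ| := abs_pos.2 h0
  have h2 := geo1 M φ
  have h3 := geo2 M h0 h1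
  rw [le_div_iff₀ hφ] at h3
  set G := ‖∑ a ∈ Finset.range (M + 1), exp (I * (φ * a : ℝ))‖ with hG
  have h4 : G * (M * |φ|) ≤ Real.pi * M := by nlinarith
  nlinarith

lemma harm (m : ℕ) : ∑ n ∈ Finset.Icc (-(m:ℤ)) m, 2 / (1 + |(n:ℝ)|) ≤ 4 * (1 + Real.log (m + 1)) := by
  have h1 : ∑ n ∈ Finset.Icc (-(m:ℤ)) m, 2 / (1 + |(n:ℝ)|) ≤
      ∑ n ∈ (Finset.range (m + 1)).image (fun a : ℕ => (a : ℤ)) ∪ (Finset.range (m + 1)).image (fun a : ℕ => -(a : ℤ)),
        2 / (1 + |(n:ℝ)|) := by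
    refine Finset.sum_le_sum_of_subset_of_nonneg ?_ fun _ _ _ => by positivity
    intro n hn
    rw [Finset.mem_Icc] at hn
    rw [Finset.mem_union, Finset.mem_image, Finset.mem_image]
    rcases le_total 0 n with h | h
    · left; exact ⟨n.toNat, by rw [Finset.mem_range]; omega, by omega⟩
    · right; exact ⟨(-n).toNat, by rw [Finset.mem_range]; omega, by omega⟩
  refine h1.trans ?_
  have hu : ∀ s t : Finset ℤ, ∑ n ∈ s ∪ t, 2 / (1 + |(n:ℝ)|) ≤ ∑ n ∈ s, 2 / (1 + |(n:ℝ)|) + ∑ n ∈ t, 2 / (1 + |(n:ℝ)|) := by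
    intro s t
    rw [← Finset.sum_union_inter]
    exact le_add_of_nonneg_right (Finset.sum_nonneg fun _ _ => by positivity)
  refine (hu _ _).trans ?_
  rw [Finset.sum_image (by intro a _ b _ h; simpa using h),
    Finset.sum_image (by intro a _ b _ h; simpa using h)]
  have h2 : ∀ a ∈ Finset.range (m + 1), 2 / (1 + |(((a:ℕ):ℤ):ℝ)|) = 2 * ((a:ℝ) + 1)⁻¹ := by
    intro a _
    have : (0:ℝ) ≤ a := Nat.cast_nonneg a
    push_cast
    rw [abs_of_nonneg this]
    field_simp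
    ring
  have h3 : ∀ a ∈ Finset.range (m + 1), 2 / (1 + |((-((a:ℕ):ℤ) : ℤ):ℝ)|) = 2 * ((a:ℝ) + 1)⁻¹ := by
    intro a _
    have : (0:ℝ) ≤ a := Nat.cast_nonneg a
    push_cast
    rw [abs_neg, abs_of_nonneg this]
    field_simp
    ring
  rw [Finset.sum_congr rfl h2, Finset.sum_congr rfl h3, ← Finset.mul_sum]
  have h4 := harmonic_le_one_add_log (m + 1)
  unfold harmonic at h4
  push_cast at h4
  linarith

variable {d : ℕ}

/-- the inner product -/
def dotp (x y : Fin d → ℝ) : ℝ := ∑ l, x l * y l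

lemma dotp_meas : Measurable fun p : (Fin d → ℝ) × (Fin d → ℝ) => dotp p.1 p.2 := by
  unfold dotp
  fun_prop

/-- the smooth count of close points -/
lemma close_int (ν : Measure (Fin d → ℝ)) [IsProbabilityMeasure ν] (hν : ∀ᵐ y ∂ν, ∀ l, 0 ≤ y l ∧ y l ≤ 1) {Λ T B : ℝ}
    (hΛ : Λ ≠ 0) (hT : 1 ≤ T) (hB : ∀ u : Fin d → ℝ, ν {y | ∀ l, |y l - u l| ≤ 1 / T} ≤ ENNReal.ofReal B) (hB0 : 0 ≤ B)
    {y' : Fin d → ℝ} (hy' : ∀ l, 0 ≤ y' l ∧ y' l ≤ 1) :
    ∫ y, ∏ l, (1 / (1 + |Λ| * |y l - y' l|)) ∂ν ≤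
      B * ((1 + T / |Λ|) * (4 * (1 + Real.log (T + 2)))) ^ d := by
  have hΛ0 : 0 < |Λ| := abs_pos.2 hΛ
  have hT0 : 0 < T := by linarith
  obtain ⟨m, hm⟩ : ∃ m : ℕ, m = ⌈T⌉₊ := ⟨_, rfl⟩
  have hmT : T ≤ m := by rw [hm]; exact Nat.le_ceil T
  have hmT' : (m:ℝ) ≤ T + 1 := by rw [hm]; exact (Nat.ceil_lt_add_one hT0.le).le
  set f : (Fin d → ℝ) → (Fin d → ℤ) := fun y l => ⌊T * (y l - y' l)⌋ with hf
  have hfm : Measurable f := by
    refine measurable_pi_lambda _ fun l => ?_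
    exact Int.measurable_floor.comp (by fun_prop)
  set S : Finset (Fin d → ℤ) := Fintype.piFinset fun _ => Finset.Icc (-(m:ℤ)) m with hS
  set w : (Fin d → ℤ) → ℝ := fun n => ∏ l, ((1 + T / |Λ|) * (2 / (1 + |(n l : ℝ)|))) with hw
  have hw0 : ∀ n, 0 ≤ w n := fun n => Finset.prod_nonneg fun l _ => by positivity
  have hcell : ∀ n, ν.real (f ⁻¹' {n}) ≤ B := by
    intro n
    rw [Measure.real]
    refine ENNReal.toReal_le_of_le_ofReal hB0 (le_trans (measure_mono ?_)
      (hB (fun l => y' l + (n l + 1 / 2) / T)))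
    intro y hy l
    have h1 : ⌊T * (y l - y' l)⌋ = n l := congrFun hy l
    rw [Int.floor_eq_iff] at h1
    have h2 : y l - (y' l + ((n l:ℝ) + 1 / 2) / T) = (T * (y l - y' l) - n l - 1 / 2) / T := by field_simp; ring
    rw [h2, abs_div, abs_of_pos hT0]
    gcongr
    rw [abs_le]
    constructor <;> linarith [h1.1, h1.2]
  have hpt : ∀ᵐ y ∂ν, ∏ l, (1 / (1 + |Λ| * |y l - y' l|)) ≤ ∑ n ∈ S, w n * (f ⁻¹' {n}).indicator 1 y := by
    filter_upwards [hν] with y hy
    have hmem : f y ∈ S := by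
      rw [hS, Fintype.mem_piFinset]
      intro l
      rw [Finset.mem_Icc]
      have h1 := hy l
      have h2 := hy' l
      constructor
      · refine Int.le_floor.2 ?_
        push_cast
        nlinarith
      · have h3 : T * (y l - y' l) ≤ m := by nlinarith
        have h4 := (Int.floor_le (T * (y l - y' l))).trans h3
        exact_mod_cast h4
    have h1 : w (f y) * (f ⁻¹' {f y}).indicator 1 y ≤ ∑ n ∈ S, w n * (f ⁻¹' {n}).indicator 1 y :=
      Finset.single_le_sum (f := fun n => w n * (f ⁻¹' {n}).indicator (1 : (Fin d → ℝ) → ℝ) y)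
        (fun n _ => mul_nonneg (hw0 n) (Set.indicator_nonneg (fun _ _ => zero_le_one) _)) hmem
    refine le_trans ?_ h1
    rw [Set.indicator_of_mem (by simp : y ∈ f ⁻¹' {f y}), Pi.one_apply, mul_one]
    refine Finset.prod_le_prod (fun l _ => by positivity) fun l _ => ?_
    set z := |y l - y' l| with hz
    have hz0 : 0 ≤ z := abs_nonneg _
    have h2 : |((f y l : ℤ) : ℝ)| ≤ T * z + 1 := by
      have h3 := Int.floor_le (T * (y l - y' l))
      have h4 := Int.lt_floor_add_one (T * (y l - y' l))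
      have h5 : |T * (y l - y' l)| = T * z := by rw [abs_mul, abs_of_pos hT0]
      have h6 := abs_le.1 h5.le
      rw [abs_le]
      constructor <;> simp only [hf] <;> linarith [h6.1, h6.2]
    rw [mul_div_assoc', div_le_div_iff₀ (by positivity) (by positivity)]
    have h7 : (1 + T / |Λ|) * (1 + |Λ| * z) = 1 + |Λ| * z + T / |Λ| + T * z := by field_simp; ring
    have h8 : 0 ≤ |Λ| * z := by positivity
    have h9 : 0 ≤ T / |Λ| := by positivity
    nlinarith
  have hint : ∀ n, Integrable (fun y => w n * (f ⁻¹' {n}).indicator (1 : (Fin d → ℝ) → ℝ) y) ν := by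
    intro n
    refine Integrable.const_mul ?_ _
    exact (integrable_const (1:ℝ)).indicator (hfm (measurableSet_singleton n))
  have hintL : Integrable (fun y : Fin d → ℝ => ∏ l, (1 / (1 + |Λ| * |y l - y' l|))) ν := by
    refine (integrable_const (1:ℝ)).mono' (Measurable.aestronglyMeasurable (by fun_prop)) (Eventually.of_forall fun y => ?_)
    rw [Real.norm_of_nonneg (Finset.prod_nonneg fun l _ => by positivity)]
    refine Finset.prod_le_one (fun l _ => by positivity) fun l _ => ?_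
    rw [div_le_one (by positivity)]
    have : 0 ≤ |Λ| * |y l - y' l| := by positivity
    linarith
  refine (integral_mono_ae hintL (integrable_finsetSum _ fun n _ => hint n) hpt).trans ?_
  rw [integral_finsetSum _ fun n _ => hint n]
  have h2 : ∀ n ∈ S, ∫ y, w n * (f ⁻¹' {n}).indicator (1 : (Fin d → ℝ) → ℝ) y ∂ν ≤ w n * B := by
    intro n _
    rw [integral_const_mul, integral_indicator_one (hfm (measurableSet_singleton n))]
    exact mul_le_mul_of_nonneg_left (hcell n) (hw0 n)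
  refine (Finset.sum_le_sum h2).trans ?_
  rw [← Finset.sum_mul, mul_comm]
  refine mul_le_mul_of_nonneg_left ?_ hB0
  have h3 : ∑ n ∈ S, w n = ∏ _l : Fin d, ∑ n ∈ Finset.Icc (-(m:ℤ)) m, ((1 + T / |Λ|) * (2 / (1 + |(n : ℝ)|))) := by
    rw [Finset.prod_univ_sum]
  rw [h3, Finset.prod_const, Finset.card_univ, Fintype.card_fin]
  refine pow_le_pow_left₀ (Finset.sum_nonneg fun n _ => by positivity) ?_ d
  rw [← Finset.mul_sum]
  refine mul_le_mul_of_nonneg_left ((harm m).trans ?_) (by positivity)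
  have h5 : Real.log ((m:ℝ) + 1) ≤ Real.log (T + 2) := Real.log_le_log (by positivity) (by linarith)
  linarith

end

end Pool.Agent.H86.PY
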