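import Pool.Agent.H86.Y3

set_option autoImplicit false

/-! A double large sieve for measures on the cube: the bilinear estimate. -/

namespace Pool.Agent.H86.PY

open Complex MeasureTheory Set Filter
open scoped ComplexConjugate

noncomputable section

variable {d : ℕ}

/-- the character -/
def ex (Λ : ℝ) (x y : Fin d → ℝ) : ℂ := exp (I * (Λ * dotp x y : ℝ))

lemma ex_norm (Λ : ℝ) (x y : Fin d → ℝ) : ‖ex Λ x y‖ = 1 := by
  unfold ex; rw [mul_comm]; exact Complex.norm_exp_ofReal_mul_I _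

lemma ex_meas (Λ : ℝ) : Measurable fun p : (Fin d → ℝ) × (Fin d → ℝ) => ex Λ p.1 p.2 := by
  unfold ex
  exact Complex.measurable_exp.comp ((Complex.measurable_ofReal.comp (dotp_meas.const_mul Λ)).const_mul I)

lemma ex_meas1 (Λ : ℝ) (x : Fin d → ℝ) : Measurable fun y : Fin d → ℝ => ex Λ x y :=
  (ex_meas Λ).comp (measurable_const.prodMk measurable_id)

/-- the transform -/
def FT (ν : Measure (Fin d → ℝ)) (b : (Fin d → ℝ) → ℂ) (Λ : ℝ) (x : Fin d → ℝ) : ℂ := ∫ y, b y * ex Λ x y ∂ν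

/-- the nodes -/
def node (M : ℕ) (a : Fin d → ℕ) : Fin d → ℝ := fun l => (a l : ℝ) / M

/-- the grid -/
def grid (d M : ℕ) : Finset (Fin d → ℕ) := Fintype.piFinset fun _ => Finset.range (M + 1)

lemma FT_int {ν : Measure (Fin d → ℝ)} [IsProbabilityMeasure ν] {b : (Fin d → ℝ) → ℂ} (hb : Measurable b)
    (hb1 : ∀ y, ‖b y‖ ≤ 1) (Λ : ℝ) (x : Fin d → ℝ) : Integrable (fun y => b y * ex Λ x y) ν := by
  refine (integrable_const (1:ℝ)).mono' ((hb.mul (ex_meas1 Λ x)).aestronglyMeasurable) (Eventually.of_forall fun y => ?_)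
  rw [norm_mul, ex_norm, mul_one]
  exact hb1 y

lemma FT_meas {ν : Measure (Fin d → ℝ)} [IsProbabilityMeasure ν] {b : (Fin d → ℝ) → ℂ} (hb : Measurable b) (Λ : ℝ) :
    Measurable (FT ν b Λ) := by
  have h : StronglyMeasurable fun p : (Fin d → ℝ) × (Fin d → ℝ) => b p.2 * ex Λ p.1 p.2 :=
    ((hb.comp measurable_snd).mul (ex_meas Λ)).stronglyMeasurable
  exact (h.integral_prod_right).measurable

lemma FT_le {ν : Measure (Fin d → ℝ)} [IsProbabilityMeasure ν] {b : (Fin d → ℝ) → ℂ}
    (hb1 : ∀ y, ‖b y‖ ≤ 1) (Λ : ℝ) (x : Fin d → ℝ) : ‖FT ν b Λ x‖ ≤ 1 := by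
  have h := norm_integral_le_of_norm_le_const (μ := ν) (f := fun y => b y * ex Λ x y) (C := 1)
    (Eventually.of_forall fun y => by rw [norm_mul, ex_norm, mul_one]; exact hb1 y)
  have hr : ν.real Set.univ = 1 := by simp
  rw [hr, mul_one] at h
  exact h

lemma grid_sum (Λ : ℝ) {M : ℕ} (hM : 1 ≤ M) (y y' : Fin d → ℝ) :
    ∑ a ∈ grid d M, ex Λ (node M a) y * conj (ex Λ (node M a) y') =
      ∏ l, ∑ k ∈ Finset.range (M + 1), exp (I * ((Λ * (y l - y' l) / M) * k : ℝ)) := by
  have hM0 : (M:ℝ) ≠ 0 := by have : (1:ℝ) ≤ M := by exact_mod_cast hM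
                             linarith
  rw [Finset.prod_univ_sum]
  refine Finset.sum_congr rfl fun a _ => ?_
  unfold ex
  rw [← Complex.exp_conj, map_mul, Complex.conj_I, Complex.conj_ofReal, ← Complex.exp_add, ← Complex.exp_sum]
  congr 1
  have h1 : Λ * dotp (node M a) y - Λ * dotp (node M a) y' = ∑ l, (Λ * (y l - y' l) / M) * a l := by
    unfold dotp node
    rw [← mul_sub, ← Finset.sum_sub_distrib, Finset.mul_sum]
    refine Finset.sum_congr rfl fun l _ => ?_
    field_simp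
  have h2 : I * ((Λ * dotp (node M a) y : ℝ) : ℂ) + -I * ((Λ * dotp (node M a) y' : ℝ) : ℂ) =
      I * ((Λ * dotp (node M a) y - Λ * dotp (node M a) y' : ℝ) : ℂ) := by
    rw [Complex.ofReal_sub]; ring
  rw [h2, h1, Complex.ofReal_sum, Finset.mul_sum]

lemma grid_sq (ν : Measure (Fin d → ℝ)) [IsProbabilityMeasure ν] (hν : ∀ᵐ y ∂ν, ∀ l, 0 ≤ y l ∧ y l ≤ 1) {Λ T B : ℝ}
    (hΛ : Λ ≠ 0) (hT : 1 ≤ T) (hB : ∀ u : Fin d → ℝ, ν {y | ∀ l, |y l - u l| ≤ 1 / T} ≤ ENNReal.ofReal B) (hB0 : 0 ≤ B)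
    {b : (Fin d → ℝ) → ℂ} (hb : Measurable b) (hb1 : ∀ y, ‖b y‖ ≤ 1) {M : ℕ} (hM : 1 ≤ M) (hMΛ : |Λ| / M ≤ Real.pi) :
    ∑ a ∈ grid d M, ‖FT ν b Λ (node M a)‖ ^ 2 ≤
      ((M + 1) * (1 + Real.pi)) ^ d * (B * ((1 + T / |Λ|) * (4 * (1 + Real.log (T + 2)))) ^ d) := by
  have hM0 : (0:ℝ) < M := by exact_mod_cast hM
  have hpi := Real.pi_pos
  have key : ((∑ a ∈ grid d M, ‖FT ν b Λ (node M a)‖ ^ 2 : ℝ) : ℂ) =
      ∫ y, ∫ y', b y * conj (b y') * ∑ a ∈ grid d M, ex Λ (node M a) y * conj (ex Λ (node M a) y') ∂ν ∂ν := by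
    have e1 : ∀ y, ∫ y', b y * conj (b y') * ∑ a ∈ grid d M, ex Λ (node M a) y * conj (ex Λ (node M a) y') ∂ν =
        ∑ a ∈ grid d M, (b y * ex Λ (node M a) y) * conj (FT ν b Λ (node M a)) := by
      intro y
      have e2 : ∀ y', b y * conj (b y') * ∑ a ∈ grid d M, ex Λ (node M a) y * conj (ex Λ (node M a) y') =
          ∑ a ∈ grid d M, (b y * ex Λ (node M a) y) * conj (b y' * ex Λ (node M a) y') := by
        intro y'
        rw [Finset.mul_sum]
        refine Finset.sum_congr rfl fun a _ => ?_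
        rw [map_mul]; ring
      simp only [e2]
      rw [integral_finsetSum]
      · refine Finset.sum_congr rfl fun a _ => ?_
        rw [integral_const_mul, integral_conj]
        rfl
      · intro a _
        refine Integrable.const_mul ?_ _
        have := FT_int hb hb1 Λ (node M a) (ν := ν)
        exact (Complex.conjCLE.toContinuousLinearMap.integrable_comp this)
    simp only [e1]
    rw [integral_finsetSum]
    · rw [Complex.ofReal_sum]
      refine Finset.sum_congr rfl fun a _ => ?_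
      rw [integral_mul_const]
      change _ = FT ν b Λ (node M a) * conj (FT ν b Λ (node M a))
      rw [Complex.mul_conj, Complex.normSq_eq_norm_sq]
    · intro a _
      exact (FT_int hb hb1 Λ (node M a)).mul_const _
  have hbound : ‖∫ y, ∫ y', b y * conj (b y') * ∑ a ∈ grid d M, ex Λ (node M a) y * conj (ex Λ (node M a) y') ∂ν ∂ν‖ ≤
      (((M + 1) * (1 + Real.pi)) ^ d * (B * ((1 + T / |Λ|) * (4 * (1 + Real.log (T + 2)))) ^ d)) * ν.real Set.univ := by
    refine norm_integral_le_of_norm_le_const ?_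
    filter_upwards [hν] with y hy
    refine (norm_integral_le_integral_norm _).trans ?_
    have h1 : ∫ y', ‖b y * conj (b y') * ∑ a ∈ grid d M, ex Λ (node M a) y * conj (ex Λ (node M a) y')‖ ∂ν ≤
        ∫ y', ((M + 1) * (1 + Real.pi)) ^ d * ∏ l, (1 / (1 + |Λ| * |y' l - y l|)) ∂ν := by
      refine integral_mono_of_nonneg (Eventually.of_forall fun y' => norm_nonneg _) ?_ ?_
      · refine Integrable.const_mul ?_ _
        refine (integrable_const (1:ℝ)).mono' (Measurable.aestronglyMeasurable (by fun_prop)) (Eventually.of_forall fun y' => ?_)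
        rw [Real.norm_of_nonneg (Finset.prod_nonneg fun l _ => by positivity)]
        refine Finset.prod_le_one (fun l _ => by positivity) fun l _ => ?_
        rw [div_le_one (by positivity)]
        have : 0 ≤ |Λ| * |y' l - y l| := by positivity
        linarith
      · filter_upwards [hν] with y' hy'
        rw [grid_sum Λ hM, norm_mul, norm_mul, norm_prod, RCLike.norm_conj]
        have h2 : ∀ l, ‖∑ k ∈ Finset.range (M + 1), exp (I * ((Λ * (y l - y' l) / M) * k : ℝ))‖ ≤
            (M + 1) * (1 + Real.pi) * (1 / (1 + |Λ| * |y' l - y l|)) := by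
          intro l
          have hz : |y l - y' l| ≤ 1 := by
            rw [abs_le]
            have h3 := hy l
            have h4 := hy' l
            constructor <;> linarith
          have h5 : |Λ * (y l - y' l) / M| ≤ Real.pi := by
            rw [abs_div, abs_mul, abs_of_pos hM0]
            refine le_trans ?_ hMΛ
            gcongr
            exact mul_le_of_le_one_right (abs_nonneg _) hz
          have h6 := geo3 M h5
          have h7 : (M:ℝ) * |Λ * (y l - y' l) / M| = |Λ| * |y' l - y l| := by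
            rw [abs_div, abs_mul, abs_of_pos hM0, abs_sub_comm (y l)]
            field_simp
          rw [h7] at h6
          rw [mul_one_div]
          exact h6
        have h8 : ∏ l, ‖∑ k ∈ Finset.range (M + 1), exp (I * ((Λ * (y l - y' l) / M) * k : ℝ))‖ ≤
            ∏ l, ((M + 1) * (1 + Real.pi) * (1 / (1 + |Λ| * |y' l - y l|))) :=
          Finset.prod_le_prod (fun l _ => norm_nonneg _) fun l _ => h2 l
        rw [Finset.prod_mul_distrib, Finset.prod_const, Finset.card_univ, Fintype.card_fin] at h8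
        calc ‖b y‖ * ‖b y'‖ * ∏ l, ‖∑ k ∈ Finset.range (M + 1), exp (I * ((Λ * (y l - y' l) / M) * k : ℝ))‖ ≤
              1 * 1 * _ := by
              have := hb1 y
              have := hb1 y'
              gcongr
          _ ≤ _ := by rw [one_mul, one_mul]; exact h8
    refine h1.trans ?_
    rw [integral_const_mul]
    refine mul_le_mul_of_nonneg_left ?_ (by positivity)
    exact close_int ν hν hΛ hT hB hB0 hy
  rw [← key, Complex.norm_real] at hbound
  have hr : ν.real Set.univ = 1 := by simp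
  rw [hr, mul_one] at hbound
  exact (le_abs_self _).trans hbound

/-- **The double large sieve for measures.** -/
theorem dls (μ ν : Measure (Fin d → ℝ)) [IsProbabilityMeasure μ] [IsProbabilityMeasure ν]
    (hμ : ∀ᵐ x ∂μ, ∀ l, 0 ≤ x l ∧ x l ≤ 1) (hν : ∀ᵐ y ∂ν, ∀ l, 0 ≤ y l ∧ y l ≤ 1) {Λ T A B : ℝ}
    (hΛ : Λ ≠ 0) (hT : 1 ≤ T) (hA : ∀ u : Fin d → ℝ, μ {x | ∀ l, |x l - u l| ≤ 1 / T} ≤ ENNReal.ofReal A) (hA0 : 0 ≤ A)
    (hB : ∀ u : Fin d → ℝ, ν {y | ∀ l, |y l - u l| ≤ 1 / T} ≤ ENNReal.ofReal B) (hB0 : 0 ≤ B)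
    {a b : (Fin d → ℝ) → ℂ} (ha : ∀ x, ‖a x‖ ≤ 1) (hb : Measurable b) (hb1 : ∀ y, ‖b y‖ ≤ 1)
    {M : ℕ} (hTM : T ≤ M) (hMΛ : |Λ| / M ≤ Real.pi) :
    ‖∫ x, ∫ y, a x * b y * ex Λ x y ∂ν ∂μ‖ ≤ |Λ| * d / M +
      Real.sqrt (A * (((M + 1) * (1 + Real.pi)) ^ d * (B * ((1 + T / |Λ|) * (4 * (1 + Real.log (T + 2)))) ^ d))) := by
  have hM0 : (0:ℝ) < M := by linarith
  have hM : 1 ≤ M := by exact_mod_cast hT.trans hTM
  set f : (Fin d → ℝ) → (Fin d → ℕ) := fun x l => ⌊M * x l⌋₊ with hf
  have hfm : Measurable f := by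
    refine measurable_pi_lambda _ fun l => ?_
    exact Nat.measurable_floor.comp (by fun_prop)
  have hcell : ∀ n, μ.real (f ⁻¹' {n} ∩ {x | ∀ l, 0 ≤ x l}) ≤ A := by
    intro n
    rw [Measure.real]
    refine ENNReal.toReal_le_of_le_ofReal hA0 (le_trans (measure_mono ?_)
      (hA (fun l => n l / M)))
    rintro x ⟨hx, hx0⟩ l
    have h1 : ⌊M * x l⌋₊ = n l := congrFun hx l
    have h3 := Nat.floor_le (mul_nonneg hM0.le (hx0 l))
    have h4 := Nat.lt_floor_add_one (M * x l)
    rw [h1] at h3 h4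
    have h5 : x l - n l / M = (M * x l - n l) / M := by field_simp
    rw [h5, abs_div, abs_of_pos hM0, abs_of_nonneg (by linarith)]
    calc ((M:ℝ) * x l - n l) / M ≤ 1 / M := by gcongr; linarith
      _ ≤ 1 / T := one_div_le_one_div_of_le (by linarith) hTM
  have hcell' : ∀ n, μ.real (f ⁻¹' {n}) ≤ A := by
    intro n
    have h1 : μ (f ⁻¹' {n}) = μ (f ⁻¹' {n} ∩ {x | ∀ l, 0 ≤ x l}) := by
      refine measure_congr ?_
      filter_upwards [hμ] with x hx
      have h2 : x ∈ {x : Fin d → ℝ | ∀ l, 0 ≤ x l} := fun l => (hx l).1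
      exact propext ⟨fun h => ⟨h, h2⟩, fun h => h.1⟩
    rw [Measure.real, h1]
    exact hcell n
  have hclose : ∀ x : Fin d → ℝ, (∀ l, 0 ≤ x l ∧ x l ≤ 1) →
      ‖FT ν b Λ x‖ ≤ |Λ| * d / M + ‖FT ν b Λ (node M (f x))‖ := by
    intro x hx
    have h1 : ‖FT ν b Λ x - FT ν b Λ (node M (f x))‖ ≤ (|Λ| * d / M) * ν.real Set.univ := by
      unfold FT
      rw [← integral_sub (FT_int hb hb1 Λ _) (FT_int hb hb1 Λ _)]
      refine norm_integral_le_of_norm_le_const ?_
      filter_upwards [hν] with y hy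
      rw [← mul_sub, norm_mul]
      have h2 : ‖ex Λ x y - ex Λ (node M (f x)) y‖ ≤ |Λ| * d / M := by
        have h3 : ex Λ x y - ex Λ (node M (f x)) y =
            ex Λ (node M (f x)) y * (exp (I * ((Λ * dotp x y - Λ * dotp (node M (f x)) y : ℝ))) - 1) := by
          unfold ex
          rw [mul_sub, mul_one, ← Complex.exp_add]
          congr 2
          push_cast
          ring
        rw [h3, norm_mul, ex_norm, one_mul]
        refine (Real.norm_exp_I_mul_ofReal_sub_one_le).trans ?_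
        rw [← mul_sub, norm_mul, Real.norm_eq_abs, mul_div_assoc]
        refine mul_le_mul_of_nonneg_left ?_ (abs_nonneg _)
        unfold dotp node
        rw [← Finset.sum_sub_distrib]
        refine (norm_sum_le _ _).trans ((Finset.sum_le_card_nsmul _ _ (1 / (M:ℝ)) fun l _ => ?_).trans (le_of_eq ?_))
        · rw [← sub_mul, norm_mul, Real.norm_eq_abs, Real.norm_eq_abs]
          have h6 := Nat.floor_le (mul_nonneg hM0.le (hx l).1)
          have h7 := Nat.lt_floor_add_one (M * x l)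
          have h5 : x l - (f x l : ℝ) / M = (M * x l - ⌊M * x l⌋₊) / M := by
            simp only [hf]; field_simp
          rw [h5, abs_div, abs_of_pos hM0, abs_of_nonneg (by linarith), abs_of_nonneg (hy l).1]
          calc ((M:ℝ) * x l - ⌊M * x l⌋₊) / M * y l ≤ 1 / M * 1 := by
                gcongr
                · exact (hy l).1
                · linarith
                · exact (hy l).2
            _ = 1 / M := mul_one _
        · rw [Finset.card_univ, Fintype.card_fin, nsmul_eq_mul]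
          ring
      calc ‖b y‖ * ‖ex Λ x y - ex Λ (node M (f x)) y‖ ≤ 1 * (|Λ| * d / M) := by
            have := hb1 y
            gcongr
        _ = _ := one_mul _
    have hr : ν.real Set.univ = 1 := by simp
    rw [hr, mul_one] at h1
    have h2 : ‖FT ν b Λ x‖ ≤ ‖FT ν b Λ x - FT ν b Λ (node M (f x))‖ + ‖FT ν b Λ (node M (f x))‖ := by
      have := norm_add_le (FT ν b Λ x - FT ν b Λ (node M (f x))) (FT ν b Λ (node M (f x)))
      rwa [sub_add_cancel] at this
    linarith
  have hS1 : ‖∫ x, ∫ y, a x * b y * ex Λ x y ∂ν ∂μ‖ ≤ ∫ x, ‖FT ν b Λ x‖ ∂μ := by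
    refine (norm_integral_le_integral_norm _).trans ?_
    have hi : Integrable (fun x => ‖FT ν b Λ x‖) μ :=
      (integrable_const (1:ℝ)).mono' (FT_meas hb Λ).norm.aestronglyMeasurable
        (Eventually.of_forall fun x => by rw [norm_norm]; exact FT_le hb1 Λ x)
    refine integral_mono_of_nonneg (Eventually.of_forall fun x => norm_nonneg _) hi (Eventually.of_forall fun x => ?_)
    have e1 : ∫ y, a x * b y * ex Λ x y ∂ν = a x * FT ν b Λ x := by
      unfold FT
      rw [← integral_const_mul]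
      congr 1; funext y; ring
    show ‖∫ y, a x * b y * ex Λ x y ∂ν‖ ≤ ‖FT ν b Λ x‖
    rw [e1, norm_mul]
    exact mul_le_of_le_one_left (norm_nonneg _) (ha x)
  have hS2 : ∫ x, ‖FT ν b Λ x‖ ∂μ ≤ |Λ| * d / M + ∑ n ∈ grid d M, ‖FT ν b Λ (node M n)‖ * μ.real (f ⁻¹' {n}) := by
    have hi : ∀ n, Integrable (fun x => ‖FT ν b Λ (node M n)‖ * (f ⁻¹' {n}).indicator (1 : (Fin d → ℝ) → ℝ) x) μ := fun n =>
      ((integrable_const (1:ℝ)).indicator (hfm (measurableSet_singleton n))).const_mul _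
    have h1 : ∫ x, ‖FT ν b Λ x‖ ∂μ ≤ ∫ x, (|Λ| * d / M +
        ∑ n ∈ grid d M, ‖FT ν b Λ (node M n)‖ * (f ⁻¹' {n}).indicator (1 : (Fin d → ℝ) → ℝ) x) ∂μ := by
      refine integral_mono_of_nonneg (Eventually.of_forall fun x => norm_nonneg _)
        ((integrable_const _).add (integrable_finsetSum _ fun n _ => hi n)) ?_
      filter_upwards [hμ] with x hx
      refine (hclose x hx).trans (add_le_add le_rfl ?_)
      have hmem : f x ∈ grid d M := by
        unfold grid
        rw [Fintype.mem_piFinset]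
        intro l
        rw [Finset.mem_range, Nat.lt_succ_iff]
        refine Nat.floor_le_of_le ?_
        exact mul_le_of_le_one_right hM0.le (hx l).2
      have h2 := Finset.single_le_sum
        (f := fun n => ‖FT ν b Λ (node M n)‖ * (f ⁻¹' {n}).indicator (1 : (Fin d → ℝ) → ℝ) x)
        (fun n _ => mul_nonneg (norm_nonneg _) (Set.indicator_nonneg (fun _ _ => zero_le_one) _)) hmem
      refine le_trans (le_of_eq ?_) h2
      show ‖FT ν b Λ (node M (f x))‖ = ‖FT ν b Λ (node M (f x))‖ * (f ⁻¹' {f x}).indicator (1 : (Fin d → ℝ) → ℝ) x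
      rw [Set.indicator_of_mem (Set.mem_preimage.2 (Set.mem_singleton _)), Pi.one_apply, mul_one]
    refine h1.trans (le_of_eq ?_)
    rw [integral_add (integrable_const _) (integrable_finsetSum _ fun n _ => hi n),
      integral_finsetSum _ fun n _ => hi n, integral_const, smul_eq_mul]
    have hr : μ.real Set.univ = 1 := by simp
    rw [hr, one_mul]
    refine congrArg _ (Finset.sum_congr rfl fun n _ => ?_)
    rw [integral_const_mul, integral_indicator_one (hfm (measurableSet_singleton n))]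
  have hS3 : ∑ n ∈ grid d M, ‖FT ν b Λ (node M n)‖ * μ.real (f ⁻¹' {n}) ≤
      Real.sqrt (A * (((M + 1) * (1 + Real.pi)) ^ d * (B * ((1 + T / |Λ|) * (4 * (1 + Real.log (T + 2)))) ^ d))) := by
    refine Real.le_sqrt_of_sq_le ?_
    have h1 := Finset.sum_mul_sq_le_sq_mul_sq (grid d M) (fun n => ‖FT ν b Λ (node M n)‖) (fun n => μ.real (f ⁻¹' {n}))
    have h2 : ∑ n ∈ grid d M, μ.real (f ⁻¹' {n}) ^ 2 ≤ A := by
      have h3 : ∑ n ∈ grid d M, μ.real (f ⁻¹' {n}) ≤ 1 := by
        have h4 := sum_measure_preimage_singleton (μ := μ) (grid d M) (f := f)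
          (fun n _ => hfm (measurableSet_singleton n))
        have h5 : ∑ n ∈ grid d M, μ.real (f ⁻¹' {n}) = (∑ n ∈ grid d M, μ (f ⁻¹' {n})).toReal := by
          rw [ENNReal.toReal_sum fun n _ => measure_ne_top _ _]
          rfl
        rw [h5, h4]
        exact ENNReal.toReal_le_of_le_ofReal zero_le_one (by rw [ENNReal.ofReal_one]; exact prob_le_one)
      calc ∑ n ∈ grid d M, μ.real (f ⁻¹' {n}) ^ 2 ≤ ∑ n ∈ grid d M, A * μ.real (f ⁻¹' {n}) := by
            refine Finset.sum_le_sum fun n _ => ?_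
            rw [sq]
            exact mul_le_mul_of_nonneg_right (hcell' n) measureReal_nonneg
        _ = A * ∑ n ∈ grid d M, μ.real (f ⁻¹' {n}) := by rw [Finset.mul_sum]
        _ ≤ A * 1 := by gcongr
        _ = A := mul_one _
    have h4 := grid_sq ν hν hΛ hT hB hB0 hb hb1 hM hMΛ
    refine h1.trans ?_
    rw [mul_comm]
    exact mul_le_mul h2 h4 (Finset.sum_nonneg fun _ _ => by positivity) hA0
  linarith

end

end Pool.Agent.H86.PY
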