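import Pool.Agent.H86.Y4

set_option autoImplicit false

/-! Resampling two coordinates of a product measure, and the characters of the heights. -/

namespace Pool.Agent.H86.PY

open Complex MeasureTheory Set Filter Function

noncomputable section

section resample

variable {ι : Type} [Fintype ι] [DecidableEq ι] {E : Type} [MeasurableSpace E]

lemma upd_meas (a : ι) : Measurable (fun p : (ι → E) × E => update p.1 a p.2) := by
  refine measurable_pi_lambda _ fun i => ?_
  by_cases h : i = a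
  · subst h
    simp only [update_self]
    exact measurable_snd
  · simp only [update_of_ne h]
    exact (measurable_pi_apply i).comp measurable_fst

lemma upd_map (μ : ι → Measure E) [∀ i, IsProbabilityMeasure (μ i)] (a : ι) :
    Measure.map (fun p : (ι → E) × E => update p.1 a p.2) ((Measure.pi μ).prod (μ a)) = Measure.pi μ := by
  symm
  refine Measure.pi_eq fun s hs => ?_
  rw [Measure.map_apply (upd_meas a) (MeasurableSet.univ_pi hs)]
  have e : (fun p : (ι → E) × E => update p.1 a p.2) ⁻¹' (Set.pi univ s) =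
      (Set.pi univ (update s a univ)) ×ˢ (s a) := by
    ext ⟨x, u⟩
    simp only [mem_preimage, Set.mem_pi, mem_univ, true_implies, mem_prod]
    constructor
    · intro h
      refine ⟨fun i => ?_, by simpa using h a⟩
      by_cases hi : i = a
      · subst hi; simp
      · have := h i
        simpa [update_of_ne hi] using this
    · rintro ⟨h1, h2⟩ i
      by_cases hi : i = a
      · subst hi; simpa using h2
      · have := h1 i
        simpa [update_of_ne hi] using this
  rw [e, Measure.prod_prod, Measure.pi_pi]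
  rw [← Finset.mul_prod_erase Finset.univ (fun i => μ i (update s a univ i)) (Finset.mem_univ a),
    ← Finset.mul_prod_erase Finset.univ (fun i => μ i (s i)) (Finset.mem_univ a)]
  have h1 : ∏ i ∈ Finset.univ.erase a, μ i (update s a univ i) = ∏ i ∈ Finset.univ.erase a, μ i (s i) := by
    refine Finset.prod_congr rfl fun i hi => ?_
    rw [update_of_ne (Finset.ne_of_mem_erase hi)]
  simp only [update_self, measure_univ, one_mul]
  rw [h1, mul_comm]

lemma int_upd (μ : ι → Measure E) [∀ i, IsProbabilityMeasure (μ i)] (a : ι) {f : (ι → E) → ℂ}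
    (hf : StronglyMeasurable f) (hb : ∀ x, ‖f x‖ ≤ 1) :
    ∫ x, f x ∂(Measure.pi μ) = ∫ x, ∫ u, f (update x a u) ∂(μ a) ∂(Measure.pi μ) := by
  have hm := upd_meas (E := E) a
  have hfc : StronglyMeasurable fun p : (ι → E) × E => f (update p.1 a p.2) := hf.comp_measurable hm
  conv_lhs => rw [← upd_map μ a]
  rw [integral_map hm.aemeasurable hf.aestronglyMeasurable]
  exact integral_prod _ ((integrable_const (1:ℝ)).mono' hfc.aestronglyMeasurable (Eventually.of_forall fun p => hb _))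

lemma int_upd2 (μ : ι → Measure E) [∀ i, IsProbabilityMeasure (μ i)] (a b : ι) {f : (ι → E) → ℂ}
    (hf : StronglyMeasurable f) (hb : ∀ x, ‖f x‖ ≤ 1) :
    ∫ x, f x ∂(Measure.pi μ) =
      ∫ x, ∫ u, ∫ v, f (update (update x a u) b v) ∂(μ b) ∂(μ a) ∂(Measure.pi μ) := by
  rw [int_upd μ b hf hb]
  have hm := upd_meas (E := E) b
  have hfc : StronglyMeasurable fun p : (ι → E) × E => f (update p.1 b p.2) := hf.comp_measurable hm
  refine int_upd μ a (f := fun x => ∫ v, f (update x b v) ∂(μ b)) hfc.integral_prod_right fun x => ?_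
  have h := norm_integral_le_of_norm_le_const (μ := μ b) (f := fun v => f (update x b v)) (C := 1)
    (Eventually.of_forall fun y => hb _)
  have hr : (μ b).real Set.univ = 1 := by simp
  rw [hr, mul_one] at h
  exact h

end resample

variable {k d : ℕ}

/-- unordered pairs -/
abbrev Pr (k : ℕ) := {p : Fin k × Fin k // p.1 < p.2}

/-- the height attached to a pair -/
def ht (T : ℝ) (β : Pr k → ℝ) (f g : Pr k → (Fin d → ℝ) → ℝ) (p : Pr k) (x : Fin k → Fin d → ℝ) : ℝ :=
  T * (β p * dotp (x p.1.1) (x p.1.2) + f p (x p.1.1) + g p (x p.1.2))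

lemma ht_meas {T : ℝ} {β : Pr k → ℝ} {f g : Pr k → (Fin d → ℝ) → ℝ} (hf : ∀ p, Measurable (f p))
    (hg : ∀ p, Measurable (g p)) (p : Pr k) : Measurable (ht T β f g p) := by
  unfold ht
  have h1 : Measurable fun x : Fin k → Fin d → ℝ => dotp (x p.1.1) (x p.1.2) := by
    have h2 : Measurable fun x : Fin k → Fin d → ℝ => (x p.1.1, x p.1.2) :=
      (measurable_pi_apply p.1.1).prodMk (measurable_pi_apply p.1.2)
    exact (dotp_meas (d := d)).comp h2
  exact (((h1.const_mul (β p)).add ((hf p).comp (measurable_pi_apply p.1.1))).add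
    ((hg p).comp (measurable_pi_apply p.1.2))).const_mul T

lemma ht_congr (T : ℝ) (β : Pr k → ℝ) (f g : Pr k → (Fin d → ℝ) → ℝ) (p : Pr k) {x y : Fin k → Fin d → ℝ}
    (h1 : x p.1.1 = y p.1.1) (h2 : x p.1.2 = y p.1.2) : ht T β f g p x = ht T β f g p y := by
  unfold ht; rw [h1, h2]

/-- the part of the phase depending on the first resampled vector -/
def ph1 (T : ℝ) (β : Pr k → ℝ) (f g : Pr k → (Fin d → ℝ) → ℝ) (θ : Pr k → ℝ) (p0 : Pr k) (x : Fin k → Fin d → ℝ)
    (u : Fin d → ℝ) : ℝ :=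
  T * θ p0 * f p0 u + ∑ p ∈ (Finset.univ.erase p0).filter (fun p : Pr k => p.1.1 = p0.1.1 ∨ p.1.2 = p0.1.1),
    ht T β f g p (update x p0.1.1 u) * θ p

/-- the part of the phase depending on the second resampled vector -/
def ph2 (T : ℝ) (β : Pr k → ℝ) (f g : Pr k → (Fin d → ℝ) → ℝ) (θ : Pr k → ℝ) (p0 : Pr k) (x : Fin k → Fin d → ℝ)
    (v : Fin d → ℝ) : ℝ :=
  T * θ p0 * g p0 v + ∑ p ∈ (Finset.univ.erase p0).filter (fun p : Pr k => ¬ (p.1.1 = p0.1.1 ∨ p.1.2 = p0.1.1)),
    ht T β f g p (update x p0.1.2 v) * θ p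

lemma phase_split (T : ℝ) (β : Pr k → ℝ) (f g : Pr k → (Fin d → ℝ) → ℝ) (θ : Pr k → ℝ) (p0 : Pr k)
    (x : Fin k → Fin d → ℝ) (u v : Fin d → ℝ) :
    ∑ p, ht T β f g p (update (update x p0.1.1 u) p0.1.2 v) * θ p =
      ph1 T β f g θ p0 x u + ph2 T β f g θ p0 x v + (θ p0 * T * β p0) * dotp u v := by
  have hab : p0.1.1 ≠ p0.1.2 := ne_of_lt p0.2
  rw [← Finset.add_sum_erase _ _ (Finset.mem_univ p0),
    ← Finset.sum_filter_add_sum_filter_not (Finset.univ.erase p0) (fun p : Pr k => p.1.1 = p0.1.1 ∨ p.1.2 = p0.1.1)]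
  have e0 : ht T β f g p0 (update (update x p0.1.1 u) p0.1.2 v) = T * (β p0 * dotp u v + f p0 u + g p0 v) := by
    unfold ht
    rw [update_self, update_of_ne hab, update_self]
  have e1 : ∑ p ∈ (Finset.univ.erase p0).filter (fun p : Pr k => p.1.1 = p0.1.1 ∨ p.1.2 = p0.1.1),
      ht T β f g p (update (update x p0.1.1 u) p0.1.2 v) * θ p =
      ∑ p ∈ (Finset.univ.erase p0).filter (fun p : Pr k => p.1.1 = p0.1.1 ∨ p.1.2 = p0.1.1),
      ht T β f g p (update x p0.1.1 u) * θ p := by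
    refine Finset.sum_congr rfl fun p hp => ?_
    obtain ⟨hp1, hp2⟩ := Finset.mem_filter.1 hp
    have hne : p ≠ p0 := Finset.ne_of_mem_erase hp1
    have h1 : p.1.1 ≠ p0.1.2 := by
      rcases hp2 with h | h
      · rw [h]; exact hab
      · intro h'
        have h3 := p.2
        rw [h, h'] at h3
        exact absurd h3 (not_lt.2 (le_of_lt p0.2))
    have h2 : p.1.2 ≠ p0.1.2 := by
      rcases hp2 with h | h
      · intro h'
        exact hne (Subtype.ext (Prod.ext h h'))
      · rw [h]; exact hab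
    rw [ht_congr T β f g p (update_of_ne h1 _ _) (update_of_ne h2 _ _)]
  have e2 : ∑ p ∈ (Finset.univ.erase p0).filter (fun p : Pr k => ¬ (p.1.1 = p0.1.1 ∨ p.1.2 = p0.1.1)),
      ht T β f g p (update (update x p0.1.1 u) p0.1.2 v) * θ p =
      ∑ p ∈ (Finset.univ.erase p0).filter (fun p : Pr k => ¬ (p.1.1 = p0.1.1 ∨ p.1.2 = p0.1.1)),
      ht T β f g p (update x p0.1.2 v) * θ p := by
    refine Finset.sum_congr rfl fun p hp => ?_
    obtain ⟨hp1, hp2⟩ := Finset.mem_filter.1 hp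
    push Not at hp2
    have h3 : ∀ i, i ≠ p0.1.1 → update (update x p0.1.1 u) p0.1.2 v i = update x p0.1.2 v i := by
      intro i hi
      by_cases h : i = p0.1.2
      · subst h; rw [update_self, update_self]
      · rw [update_of_ne h, update_of_ne h, update_of_ne hi]
    rw [ht_congr T β f g p (h3 _ hp2.1) (h3 _ hp2.2)]
  rw [e0, e1, e2]
  unfold ph1 ph2
  ring

lemma ph1_meas {T : ℝ} {β : Pr k → ℝ} {f g : Pr k → (Fin d → ℝ) → ℝ} (hf : ∀ p, Measurable (f p))
    (hg : ∀ p, Measurable (g p)) (θ : Pr k → ℝ) (p0 : Pr k) (x : Fin k → Fin d → ℝ) :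
    Measurable (ph1 T β f g θ p0 x) := by
  unfold ph1
  refine ((hf p0).const_mul _).add (Finset.measurable_sum _ fun p _ => ?_)
  have h1 : Measurable fun u : Fin d → ℝ => update x p0.1.1 u :=
    (upd_meas (E := Fin d → ℝ) p0.1.1).comp (measurable_const.prodMk measurable_id)
  exact ((ht_meas hf hg p).comp h1).mul_const _

lemma ph2_meas {T : ℝ} {β : Pr k → ℝ} {f g : Pr k → (Fin d → ℝ) → ℝ} (hf : ∀ p, Measurable (f p))
    (hg : ∀ p, Measurable (g p)) (θ : Pr k → ℝ) (p0 : Pr k) (x : Fin k → Fin d → ℝ) :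
    Measurable (ph2 T β f g θ p0 x) := by
  unfold ph2
  refine ((hg p0).const_mul _).add (Finset.measurable_sum _ fun p _ => ?_)
  have h1 : Measurable fun u : Fin d → ℝ => update x p0.1.2 u :=
    (upd_meas (E := Fin d → ℝ) p0.1.2).comp (measurable_const.prodMk measurable_id)
  exact ((ht_meas hf hg p).comp h1).mul_const _

/-- the character of the heights -/
theorem char_le (μ : Fin k → Measure (Fin d → ℝ)) [∀ i, IsProbabilityMeasure (μ i)]
    (hμ : ∀ i, ∀ᵐ x ∂(μ i), ∀ l, 0 ≤ x l ∧ x l ≤ 1) {T : ℝ} (hT : 1 ≤ T) {A : Fin k → ℝ} (hA0 : ∀ i, 0 ≤ A i)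
    (hA : ∀ i, ∀ u : Fin d → ℝ, μ i {x | ∀ l, |x l - u l| ≤ 1 / T} ≤ ENNReal.ofReal (A i))
    {β : Pr k → ℝ} {f g : Pr k → (Fin d → ℝ) → ℝ} (hf : ∀ p, Measurable (f p)) (hg : ∀ p, Measurable (g p))
    (θ : Pr k → ℝ) (p0 : Pr k) (hΛ : θ p0 * T * β p0 ≠ 0) {M : ℕ} (hTM : T ≤ M)
    (hMΛ : |θ p0 * T * β p0| / M ≤ Real.pi) :
    ‖∫ x, exp (I * ∑ p, (ht T β f g p x : ℂ) * θ p) ∂(Measure.pi μ)‖ ≤ |θ p0 * T * β p0| * d / M +
      Real.sqrt (A p0.1.1 * (((M + 1) * (1 + Real.pi)) ^ d *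
        (A p0.1.2 * ((1 + T / |θ p0 * T * β p0|) * (4 * (1 + Real.log (T + 2)))) ^ d))) := by
  have hcast : ∀ x, ∑ p, (ht T β f g p x : ℂ) * θ p = ((∑ p, ht T β f g p x * θ p : ℝ) : ℂ) := by
    intro x; push_cast; rfl
  simp only [hcast]
  set F : (Fin k → Fin d → ℝ) → ℂ := fun x => exp (I * ((∑ p, ht T β f g p x * θ p : ℝ) : ℂ)) with hF
  have hFm : StronglyMeasurable F := by
    refine Measurable.stronglyMeasurable ?_
    exact Complex.measurable_exp.comp ((Complex.measurable_ofReal.comp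
      (Finset.measurable_sum _ fun p _ => (ht_meas hf hg p).mul_const _)).const_mul I)
  have hF1 : ∀ x, ‖F x‖ ≤ 1 := fun x => by
    simp only [hF]; rw [mul_comm, Complex.norm_exp_ofReal_mul_I]
  rw [int_upd2 μ p0.1.1 p0.1.2 hFm hF1]
  have key : ∀ x, ‖∫ u, ∫ v, F (update (update x p0.1.1 u) p0.1.2 v) ∂(μ p0.1.2) ∂(μ p0.1.1)‖ ≤
      |θ p0 * T * β p0| * d / M + Real.sqrt (A p0.1.1 * (((M + 1) * (1 + Real.pi)) ^ d *
        (A p0.1.2 * ((1 + T / |θ p0 * T * β p0|) * (4 * (1 + Real.log (T + 2)))) ^ d))) := by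
    intro x
    have h1 := dls (μ p0.1.1) (μ p0.1.2) (hμ _) (hμ _) (Λ := θ p0 * T * β p0) hΛ hT (hA _) (hA0 _) (hA _) (hA0 _)
      (a := fun u => exp (I * (ph1 T β f g θ p0 x u : ℝ))) (b := fun v => exp (I * (ph2 T β f g θ p0 x v : ℝ)))
      (fun u => by rw [mul_comm, Complex.norm_exp_ofReal_mul_I])
      (Complex.measurable_exp.comp ((Complex.measurable_ofReal.comp (ph2_meas hf hg θ p0 x)).const_mul I))
      (fun v => by rw [mul_comm, Complex.norm_exp_ofReal_mul_I]) hTM hMΛ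
    refine le_trans (le_of_eq ?_) h1
    congr 2
    funext u
    congr 1
    funext v
    simp only [hF]
    rw [phase_split]
    unfold ex
    rw [← Complex.exp_add, ← Complex.exp_add]
    congr 1
    push_cast
    ring
  have h := norm_integral_le_of_norm_le_const (μ := Measure.pi μ)
    (f := fun x => ∫ u, ∫ v, F (update (update x p0.1.1 u) p0.1.2 v) ∂(μ p0.1.2) ∂(μ p0.1.1))
    (Eventually.of_forall key)
  have hr : (Measure.pi μ).real Set.univ = 1 := by simp
  rw [hr, mul_one] at h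
  exact h

end

end Pool.Agent.H86.PY
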