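import Pool.Agent.H86.Y2
import Pool.Agent.H86.Y5

set_option autoImplicit false

/-! Joint moments at the heights attached to pairs. -/

namespace Pool.Agent.H86.PY

open Complex MeasureTheory Set Filter Function
open Pool.Agent.R461.HM

noncomputable section

lemma log_ev {C δ : ℝ} (hC : 0 < C) (hδ : 0 < δ) : ∃ T₀ : ℝ, ∀ T : ℝ, T₀ ≤ T → C * Real.log T ≤ T ^ δ := by
  have h := (isLittleO_log_rpow_atTop hδ).bound (show 0 < 1 / C by positivity)
  obtain ⟨T1, hT1⟩ := eventually_atTop.mp h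
  refine ⟨max T1 1, fun T hT => ?_⟩
  have h1 := hT1 T ((le_max_left _ _).trans hT)
  have hT2 : 1 ≤ T := (le_max_right _ _).trans hT
  rw [Real.norm_of_nonneg (Real.log_nonneg hT2), Real.norm_of_nonneg (by positivity)] at h1
  calc C * Real.log T ≤ C * (1 / C * T ^ δ) := by gcongr
    _ = T ^ δ := by field_simp

/-- the numerical work -/
lemma numeric {d : ℕ} (hd : 1 ≤ d) {ε κ : ℝ} (hκ : 0 < κ) (hκε : κ * (4 * d + 3) ≤ ε) {D : ℝ} (hD : 1 ≤ D) :
    ∃ T₀ : ℝ, 1 ≤ T₀ ∧ ∀ T : ℝ, T₀ ≤ T → ∀ Λ A B : ℝ, T ^ (1 - κ) / D ≤ |Λ| → |Λ| ≤ D * T * Real.log T →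
      0 ≤ A → 0 ≤ B → A * B ≤ T ^ (-(d + ε)) → ∃ M : ℕ, T ≤ M ∧ |Λ| / M ≤ Real.pi ∧
      |Λ| * d / M + Real.sqrt (A * (((M + 1) * (1 + Real.pi)) ^ d *
        (B * ((1 + T / |Λ|) * (4 * (1 + Real.log (T + 2)))) ^ d))) ≤ T ^ (-κ) := by
  have hd0 : (1:ℝ) ≤ d := by exact_mod_cast hd
  have hδ : 0 < κ / d := by positivity
  obtain ⟨T1, hT1⟩ := log_ev (C := 2 * d * D) (by positivity) hκ
  obtain ⟨T2, hT2⟩ := log_ev (C := 960 * D) (by positivity) hδ
  refine ⟨max (max T1 T2) (Real.exp 2), ?_, fun T hT Λ A B h1 h2 hA hB hAB => ?_⟩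
  · refine le_trans ?_ (le_max_right _ _)
    have := Real.add_one_le_exp (2:ℝ); linarith
  have hTa := hT1 T (((le_max_left _ _).trans (le_max_left _ _)).trans hT)
  have hTb := hT2 T (((le_max_right _ _).trans (le_max_left _ _)).trans hT)
  have hTe : Real.exp 2 ≤ T := (le_max_right _ _).trans hT
  have hT3 : 3 ≤ T := by have := Real.add_one_le_exp (2:ℝ); linarith
  have hT0 : 0 < T := by linarith
  have hT1' : 1 ≤ T := by linarith
  have hL : 2 ≤ Real.log T := by rwa [Real.le_log_iff_exp_le hT0]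
  have hX : 1 ≤ T ^ (1 + 3 * κ) := Real.one_le_rpow hT1' (by positivity)
  have hTX : T ≤ T ^ (1 + 3 * κ) := by
    calc T = T ^ (1:ℝ) := (Real.rpow_one T).symm
      _ ≤ _ := Real.rpow_le_rpow_of_exponent_le hT1' (by linarith)
  have hM1 : T ^ (1 + 3 * κ) ≤ (⌈T ^ (1 + 3 * κ)⌉₊ : ℝ) := Nat.le_ceil _
  have hM2 : (⌈T ^ (1 + 3 * κ)⌉₊ : ℝ) < T ^ (1 + 3 * κ) + 1 := Nat.ceil_lt_add_one (by positivity)
  obtain ⟨M, hM⟩ : ∃ M : ℕ, M = ⌈T ^ (1 + 3 * κ)⌉₊ := ⟨_, rfl⟩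
  rw [← hM] at hM1 hM2
  have hM0 : (0:ℝ) < M := by linarith
  have hΛ0 : 0 < |Λ| := lt_of_lt_of_le (by positivity) h1
  have hT2k : T ^ (-(2 * κ)) ≤ T ^ (-κ) := Real.rpow_le_rpow_of_exponent_le hT1' (by linarith)
  have hT2k1 : T ^ (-(2 * κ)) ≤ 1 := Real.rpow_le_one_of_one_le_of_nonpos hT1' (by linarith)
  have hq : |Λ| * d / M ≤ T ^ (-κ) / 2 := by
    calc |Λ| * d / M ≤ (D * T * Real.log T) * d / T ^ (1 + 3 * κ) := by gcongr
      _ = (2 * d * D * Real.log T) * T / T ^ (1 + 3 * κ) / 2 := by ring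
      _ ≤ T ^ κ * T / T ^ (1 + 3 * κ) / 2 := by gcongr
      _ = T ^ (-(2 * κ)) / 2 := by
          congr 1
          rw [div_eq_iff (by positivity), ← Real.rpow_add hT0]
          nth_rewrite 2 [← Real.rpow_one T]
          rw [← Real.rpow_add hT0]
          congr 1; ring
      _ ≤ _ := by gcongr
  refine ⟨M, hTX.trans hM1, ?_, ?_⟩
  · have h3 : |Λ| / M ≤ |Λ| * d / M := by
      gcongr
      nlinarith
    have h4 : T ^ (-κ) ≤ 1 := Real.rpow_le_one_of_one_le_of_nonpos hT1' (by linarith)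
    have := Real.pi_gt_three
    linarith
  · have hpi := Real.pi_pos
    have hpi4 := Real.pi_lt_d2
    have hs : A * (((M + 1) * (1 + Real.pi)) ^ d *
        (B * ((1 + T / |Λ|) * (4 * (1 + Real.log (T + 2)))) ^ d)) ≤ (T ^ (-κ) / 2) ^ 2 := by
      have e1 : A * (((M + 1) * (1 + Real.pi)) ^ d *
        (B * ((1 + T / |Λ|) * (4 * (1 + Real.log (T + 2)))) ^ d)) =
          (A * B) * (((M + 1) * (1 + Real.pi)) * ((1 + T / |Λ|) * (4 * (1 + Real.log (T + 2))))) ^ d := by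
        rw [mul_pow ((M:ℝ) + 1) (1 + Real.pi), mul_pow (((M:ℝ) + 1) * (1 + Real.pi)), mul_pow ((M:ℝ) + 1)]; ring
      have e2 : ((M:ℝ) + 1) * (1 + Real.pi) ≤ 15 * T ^ (1 + 3 * κ) := by
        calc ((M:ℝ) + 1) * (1 + Real.pi) ≤ (3 * T ^ (1 + 3 * κ)) * 5 := by
              gcongr
              · linarith
              · linarith
          _ = _ := by ring
      have hTk : 1 ≤ T ^ κ := Real.one_le_rpow hT1' hκ.le
      have e3 : 1 + T / |Λ| ≤ 2 * D * T ^ κ := by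
        have h5 : T / |Λ| ≤ D * T ^ κ := by
          rw [div_le_iff₀ hΛ0]
          have hDD : D ≠ 0 := by positivity
          have h6 : T ^ κ * T ^ (1 - κ) = T := by
            rw [← Real.rpow_add hT0, show κ + (1 - κ) = 1 by ring, Real.rpow_one]
          calc T = T ^ κ * T ^ (1 - κ) := h6.symm
            _ = D * T ^ κ * (T ^ (1 - κ) / D) := by field_simp
            _ ≤ _ := by gcongr
        nlinarith
      have hlog0 : 0 ≤ Real.log (T + 2) := Real.log_nonneg (by linarith)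
      have e4 : 4 * (1 + Real.log (T + 2)) ≤ 8 * Real.log T := by
        have h6 : Real.log (T + 2) ≤ Real.log T + 1 := by
          have h7 : T + 2 ≤ T * Real.exp 1 := by
            have := Real.add_one_le_exp (1:ℝ)
            nlinarith
          calc Real.log (T + 2) ≤ Real.log (T * Real.exp 1) := Real.log_le_log (by linarith) h7
            _ = _ := by rw [Real.log_mul hT0.ne' (Real.exp_pos 1).ne', Real.log_exp]
        linarith
      have e5 : ((M:ℝ) + 1) * (1 + Real.pi) * ((1 + T / |Λ|) * (4 * (1 + Real.log (T + 2)))) ≤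
          T ^ (1 + 4 * κ) * (240 * D * Real.log T) := by
        calc ((M:ℝ) + 1) * (1 + Real.pi) * ((1 + T / |Λ|) * (4 * (1 + Real.log (T + 2)))) ≤
              (15 * T ^ (1 + 3 * κ)) * ((2 * D * T ^ κ) * (8 * Real.log T)) := by gcongr
          _ = (T ^ (1 + 3 * κ) * T ^ κ) * (240 * D * Real.log T) := by ring
          _ = _ := by rw [← Real.rpow_add hT0]; congr 2; ring
      have e6 : 4 * (240 * D * Real.log T) ^ d ≤ T ^ κ := by
        have h7 : (960 * D * Real.log T) ^ d ≤ (T ^ (κ / d)) ^ d := by gcongr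
        have h8 : (T ^ (κ / d)) ^ d = T ^ κ := by
          rw [← Real.rpow_natCast, ← Real.rpow_mul hT0.le]
          congr 1; field_simp
        have h9 : 4 * (240 * D * Real.log T) ^ d ≤ (960 * D * Real.log T) ^ d := by
          have : (960 * D * Real.log T) = 4 * (240 * D * Real.log T) := by ring
          rw [this, mul_pow 4]
          have h10 : (4:ℝ) ≤ 4 ^ d := by
            calc (4:ℝ) = 4 ^ 1 := by norm_num
              _ ≤ 4 ^ d := pow_le_pow_right₀ (by norm_num) hd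
          gcongr
        linarith
      rw [e1]
      calc (A * B) * (((M + 1) * (1 + Real.pi)) * ((1 + T / |Λ|) * (4 * (1 + Real.log (T + 2))))) ^ d ≤
            T ^ (-(d + ε)) * (T ^ (1 + 4 * κ) * (240 * D * Real.log T)) ^ d := by gcongr
        _ = T ^ (-(d + ε)) * (T ^ (1 + 4 * κ)) ^ d * (4 * (240 * D * Real.log T) ^ d) / 4 := by rw [mul_pow]; ring
        _ ≤ T ^ (-(d + ε)) * (T ^ (1 + 4 * κ)) ^ d * T ^ κ / 4 := by gcongr
        _ = T ^ (-(d + ε) + (1 + 4 * κ) * d + κ) / 4 := by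
            rw [← Real.rpow_natCast (T ^ (1 + 4 * κ)), ← Real.rpow_mul hT0.le, ← Real.rpow_add hT0,
              ← Real.rpow_add hT0]
        _ ≤ T ^ (-κ * 2) / 4 := by
            have h11 := Real.rpow_le_rpow_of_exponent_le hT1' (show -(d + ε) + (1 + 4 * κ) * d + κ ≤ -κ * 2 by nlinarith)
            linarith
        _ = (T ^ (-κ) / 2) ^ 2 := by
            rw [div_pow, ← Real.rpow_natCast (T ^ (-κ)) 2, ← Real.rpow_mul hT0.le]
            norm_num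
    have h5 := Real.sqrt_le_sqrt hs
    rw [Real.sqrt_sq (by positivity)] at h5
    linarith

/-- logarithms of ratios -/
lemma log_ratio {m n : ℕ} (hm : 1 ≤ m) (hn : 1 ≤ n) (hmn : m ≠ n) {T κ : ℝ} (hT : 1 ≤ T) (hκ1 : κ ≤ 1)
    (h : (m:ℝ) * n ≤ T ^ κ) : T ^ (-κ) ≤ |Real.log (m / n)| ∧ |Real.log (m / n)| ≤ Real.log T := by
  have hT0 : 0 < T := by linarith
  have hL : 0 ≤ Real.log T := Real.log_nonneg hT
  wlog hlt : n < m with H
  · have h1 : m < n := lt_of_le_of_ne (not_lt.1 hlt) hmn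
    have h2 := H hn hm hmn.symm hT hκ1 (by rw [mul_comm]; exact h) hT0 hL h1
    have e : Real.log ((m:ℝ) / n) = - Real.log ((n:ℝ) / m) := by rw [← Real.log_inv, inv_div]
    rw [e, abs_neg]
    exact h2
  have hm0 : (1:ℝ) ≤ m := by exact_mod_cast hm
  have hn0 : (1:ℝ) ≤ n := by exact_mod_cast hn
  have hnm : (n:ℝ) + 1 ≤ m := by exact_mod_cast hlt
  have hr : 1 ≤ (m:ℝ) / n := by rw [le_div_iff₀ (by linarith)]; linarith
  rw [abs_of_nonneg (Real.log_nonneg hr)]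
  constructor
  · have h1 : 1 - ((m:ℝ) / n)⁻¹ ≤ Real.log (m / n) := Real.one_sub_inv_le_log_of_pos (by linarith)
    have h2 : 1 / (m:ℝ) ≤ 1 - ((m:ℝ) / n)⁻¹ := by
      rw [inv_div]
      rw [div_le_iff₀ (by linarith), sub_mul, div_mul_cancel₀ _ (by linarith : (m:ℝ) ≠ 0)]
      linarith
    have h3 : T ^ (-κ) ≤ 1 / (m:ℝ) := by
      rw [Real.rpow_neg hT0.le, inv_eq_one_div]
      refine one_div_le_one_div_of_le (by linarith) ?_
      nlinarith
    linarith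
  · have h1 : (m:ℝ) / n ≤ T := by
      calc (m:ℝ) / n ≤ m := div_le_self (by linarith) hn0
        _ ≤ m * n := by nlinarith
        _ ≤ T ^ κ := h
        _ ≤ T ^ (1:ℝ) := Real.rpow_le_rpow_of_exponent_le hT hκ1
        _ = T := Real.rpow_one T
    exact Real.log_le_log (by linarith) h1

/-- **Joint moments at the heights attached to the edges of a graph.** -/
theorem joint {k d : ℕ} (hd : 1 ≤ d) (q : Pr k → ℕ) (N : ℕ) {ε : ℝ} (hε : 0 < ε) :
    ∃ c : ℝ, 0 < c ∧ ∀ D : ℝ, 1 ≤ D → ∃ T₀ : ℝ, Real.exp 1 ≤ T₀ ∧ ∀ T : ℝ, T₀ ≤ T →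
      ∀ (μ : Fin k → Measure (Fin d → ℝ)), (∀ i, IsProbabilityMeasure (μ i)) →
      (∀ i, ∀ᵐ x ∂(μ i), ∀ l, 0 ≤ x l ∧ x l ≤ 1) → ∀ A : Fin k → ℝ, (∀ i, 0 ≤ A i) →
      (∀ i, ∀ u : Fin d → ℝ, μ i {x | ∀ l, |x l - u l| ≤ 1 / T} ≤ ENNReal.ofReal (A i)) →
      (∀ p : Pr k, 1 ≤ q p → A p.1.1 * A p.1.2 ≤ T ^ (-(d + ε))) →
      ∀ (β : Pr k → ℝ) (f g : Pr k → (Fin d → ℝ) → ℝ), (∀ p, 1 ≤ q p → 1 / D ≤ |β p| ∧ |β p| ≤ D) →
      (∀ p, Measurable (f p)) → (∀ p, Measurable (g p)) →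
      (∀ᵐ x ∂(Measure.pi μ), ∀ p, 1 ≤ q p → ht T β f g p x ∈ Icc (T / D) (D * T)) →
      ENNReal.ofReal (c * Real.log T ^ (∑ p, q p ^ 2)) ≤
        ∫⁻ x, ∏ p, (loc 1 N T (ht T β f g p x)) ^ q p ∂(Measure.pi μ) := by
  classical
  obtain ⟨κ, hκd⟩ : ∃ κ : ℝ, κ = min 1 (ε / (4 * d + 3)) := ⟨_, rfl⟩
  have hκ : 0 < κ := by rw [hκd]; exact lt_min one_pos (by positivity)
  have hκ1 : κ ≤ 1 := by rw [hκd]; exact min_le_left _ _
  have hκε : κ * (4 * d + 3) ≤ ε := by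
    have : κ ≤ ε / (4 * d + 3) := by rw [hκd]; exact min_le_right _ _
    rwa [le_div_iff₀ (by positivity)] at this
  obtain ⟨c, hc, hmain⟩ := many_main (ι := {p : Pr k // 1 ≤ q p}) (q := fun p => q p.1) (fun p => p.2) N hκ hκ1
  refine ⟨c, hc, fun D hD => ?_⟩
  obtain ⟨T1, hT1e, hT1⟩ := hmain D hD
  obtain ⟨T2, hT21, hT2⟩ := numeric hd hκ hκε hD
  refine ⟨max T1 T2, hT1e.trans (le_max_left _ _), fun T hT μ hμp hμ A hA0 hA hAA β f g hβ hf hg hht => ?_⟩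
  have hTa : T1 ≤ T := (le_max_left _ _).trans hT
  have hTb : T2 ≤ T := (le_max_right _ _).trans hT
  have hT1' : 1 ≤ T := hT21.trans hTb
  have hT0 : 0 < T := by linarith
  have hq0 : ∀ p : {p : Pr k // ¬ 1 ≤ q p}, q p.1 = 0 := fun p => by have := p.2; omega
  have hsum : ∑ p, q p ^ 2 = ∑ p : {p : Pr k // 1 ≤ q p}, q p.1 ^ 2 := by
    rw [← Fintype.sum_subtype_add_sum_subtype (fun p : Pr k => 1 ≤ q p) (fun p => q p ^ 2)]
    simp [hq0]
  have hprod : ∀ x, ∏ p, (loc 1 N T (ht T β f g p x)) ^ q p =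
      ∏ p : {p : Pr k // 1 ≤ q p}, (loc 1 N T (ht T β f g p.1 x)) ^ q p.1 := by
    intro x
    rw [← Fintype.prod_subtype_mul_prod_subtype (fun p : Pr k => 1 ≤ q p) (fun p => (loc 1 N T (ht T β f g p x)) ^ q p)]
    simp [hq0]
  simp only [hprod]
  rw [hsum]
  refine hT1 T hTa (Fin k → Fin d → ℝ) (Measure.pi μ) (fun p => ht T β f g p.1) inferInstance
    (fun p => ht_meas hf hg p.1) ?_ ?_
  · filter_upwards [hht] with x hx p
    exact hx p.1 p.2
  intro m n hm hn ⟨p0, hp0⟩ hmn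
  have hlr := log_ratio (hm p0) (hn p0) hp0 hT1' hκ1 (hmn p0)
  obtain ⟨θ, hθ⟩ : ∃ θ : Pr k → ℝ, θ = fun p => if h : 1 ≤ q p then Real.log (m ⟨p, h⟩ / n ⟨p, h⟩) else 0 := ⟨_, rfl⟩
  have hθ1 : ∀ p : {p : Pr k // 1 ≤ q p}, θ p.1 = Real.log (m p / n p) := by
    intro p
    rw [hθ]
    simp only [p.2, dif_pos]
  have hθ0 : ∀ p : {p : Pr k // ¬ 1 ≤ q p}, θ p.1 = 0 := by
    intro p
    rw [hθ]
    exact dif_neg p.2
  have hβ0 := hβ p0.1 p0.2
  have hD0 : 0 < D := by linarith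
  rw [← hθ1] at hlr
  have h1 : T ^ (1 - κ) / D ≤ |θ p0.1 * T * β p0.1| := by
    rw [abs_mul, abs_mul, abs_of_pos hT0]
    calc T ^ (1 - κ) / D = T ^ (-κ) * T * (1 / D) := by
          rw [show (1 - κ) = -κ + 1 by ring, Real.rpow_add hT0, Real.rpow_one]; ring
      _ ≤ _ := by
          have h3 := hlr.1
          have h4 := hβ0.1
          gcongr
  have h2 : |θ p0.1 * T * β p0.1| ≤ D * T * Real.log T := by
    rw [abs_mul, abs_mul, abs_of_pos hT0]
    calc |θ p0.1| * T * |β p0.1| ≤ Real.log T * T * D := by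
          have h3 := hlr.2
          have h4 := hβ0.2
          have h5 : 0 ≤ Real.log T := Real.log_nonneg hT1'
          gcongr
      _ = _ := by ring
  have hΛ0 : 0 < |θ p0.1 * T * β p0.1| := lt_of_lt_of_le (by positivity) h1
  obtain ⟨M, hM1, hM2, hM3⟩ := hT2 T hTb (θ p0.1 * T * β p0.1) (A p0.1.1.1) (A p0.1.1.2) h1 h2 (hA0 _) (hA0 _)
    (hAA _ p0.2)
  refine le_trans (le_of_eq ?_) ((char_le μ hμ hT1' hA0 hA hf hg θ p0.1 (abs_pos.1 hΛ0) hM1 hM2).trans hM3)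
  congr 2
  funext x
  congr 2
  rw [← Fintype.sum_subtype_add_sum_subtype (fun p : Pr k => 1 ≤ q p) (fun p => (ht T β f g p x : ℂ) * (θ p : ℂ))]
  have e0 : ∑ p : {p : Pr k // ¬ 1 ≤ q p}, (ht T β f g p.1 x : ℂ) * (θ p.1 : ℂ) = 0 :=
    Finset.sum_eq_zero fun p _ => by rw [hθ0 p]; simp
  rw [e0, add_zero]
  exact Finset.sum_congr rfl fun p _ => by rw [hθ1 p]

end

end Pool.Agent.H86.PY
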