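import Pool.Agent.H86.Y6

set_option autoImplicit false

/-! Finite sets: the uniform measures and the discrete form of the joint moments. -/

namespace Pool.Agent.H86.PY

open Complex MeasureTheory Set Filter Function
open scoped ENNReal
open Pool.Agent.R461.HM

noncomputable section

variable {k d : ℕ}

/-- the uniform measure on a finite set -/
def unif (X : Finset (Fin d → ℝ)) : Measure (Fin d → ℝ) := ((X.card : ℝ≥0∞))⁻¹ • ∑ x ∈ X, Measure.dirac x

lemma unif_apply (X : Finset (Fin d → ℝ)) {s : Set (Fin d → ℝ)} (hs : MeasurableSet s) :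
    unif X s = ((X.card : ℝ≥0∞))⁻¹ * ∑ x ∈ X, s.indicator 1 x := by
  unfold unif
  rw [Measure.smul_apply, Measure.finsetSum_apply, smul_eq_mul]
  congr 1
  exact Finset.sum_congr rfl fun x _ => Measure.dirac_apply' x hs

lemma unif_prob {X : Finset (Fin d → ℝ)} (hX : X.Nonempty) : IsProbabilityMeasure (unif X) := by
  refine ⟨?_⟩
  rw [unif_apply X MeasurableSet.univ]
  simp only [Set.indicator_univ, Pi.one_apply, Finset.sum_const, nsmul_eq_mul, mul_one]
  refine ENNReal.inv_mul_cancel ?_ (ENNReal.natCast_ne_top _)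
  have := Finset.card_pos.2 hX
  exact_mod_cast this.ne'

lemma unif_pi (X : Fin k → Finset (Fin d → ℝ)) (hX : ∀ i, (X i).Nonempty) :
    Measure.pi (fun i => unif (X i)) =
      (∏ i, ((X i).card : ℝ≥0∞)⁻¹) • ∑ x ∈ Fintype.piFinset X, Measure.dirac x := by
  haveI : ∀ i, IsProbabilityMeasure (unif (X i)) := fun i => unif_prob (hX i)
  refine Measure.pi_eq fun s hs => ?_
  rw [Measure.smul_apply, Measure.finsetSum_apply, smul_eq_mul]
  have h1 : ∀ i, unif (X i) (s i) = ((X i).card : ℝ≥0∞)⁻¹ * ∑ x ∈ X i, (s i).indicator 1 x :=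
    fun i => unif_apply (X i) (hs i)
  simp only [h1]
  rw [Finset.prod_mul_distrib]
  congr 1
  rw [Finset.prod_univ_sum]
  refine Finset.sum_congr rfl fun x _ => ?_
  rw [Measure.dirac_apply' x (MeasurableSet.univ_pi hs)]
  by_cases h : x ∈ Set.pi univ s
  · rw [Set.indicator_of_mem h, Pi.one_apply]
    symm
    refine Finset.prod_eq_one fun i _ => ?_
    rw [Set.indicator_of_mem (h i (mem_univ i)), Pi.one_apply]
  · rw [Set.indicator_of_notMem h]
    symm
    rw [Set.mem_pi] at h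
    push Not at h
    obtain ⟨i, _, hi⟩ := h
    exact Finset.prod_eq_zero (Finset.mem_univ i) (Set.indicator_of_notMem hi _)

lemma lintegral_unif_pi (X : Fin k → Finset (Fin d → ℝ)) (hX : ∀ i, (X i).Nonempty)
    (F : (Fin k → Fin d → ℝ) → ℝ≥0∞) :
    ∫⁻ x, F x ∂(Measure.pi (fun i => unif (X i))) =
      (∏ i, ((X i).card : ℝ≥0∞)⁻¹) * ∑ x ∈ Fintype.piFinset X, F x := by
  rw [unif_pi X hX, lintegral_smul_measure, smul_eq_mul, lintegral_finset_sum_measure]
  congr 1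
  exact Finset.sum_congr rfl fun x _ => lintegral_dirac x F

lemma unif_ae (X : Finset (Fin d → ℝ)) {P : (Fin d → ℝ) → Prop} (hP : ∀ x ∈ X, P x) : ∀ᵐ x ∂(unif X), P x := by
  have hm : MeasurableSet (X : Set (Fin d → ℝ)) := X.measurableSet
  have h0 : unif X (X : Set (Fin d → ℝ))ᶜ = 0 := by
    rw [unif_apply X hm.compl]
    rw [Finset.sum_eq_zero, mul_zero]
    intro x hx
    exact Set.indicator_of_notMem (Set.notMem_compl_iff.2 (Finset.mem_coe.2 hx)) _
  rw [ae_iff]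
  refine measure_mono_null ?_ h0
  intro x hx hxX
  exact hx (hP x hxX)

lemma unif_pi_ae (X : Fin k → Finset (Fin d → ℝ)) (hX : ∀ i, (X i).Nonempty) {P : (Fin k → Fin d → ℝ) → Prop}
    (hP : ∀ x ∈ Fintype.piFinset X, P x) : ∀ᵐ x ∂(Measure.pi fun i => unif (X i)), P x := by
  have hm : MeasurableSet (Fintype.piFinset X : Set (Fin k → Fin d → ℝ)) := (Fintype.piFinset X).measurableSet
  have h0 : (Measure.pi fun i => unif (X i)) (Fintype.piFinset X : Set (Fin k → Fin d → ℝ))ᶜ = 0 := by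
    rw [unif_pi X hX, Measure.smul_apply, Measure.finsetSum_apply]
    rw [Finset.sum_eq_zero, smul_zero]
    intro x hx
    rw [Measure.dirac_apply' x hm.compl]
    exact Set.indicator_of_notMem (Set.notMem_compl_iff.2 (Finset.mem_coe.2 hx)) _
  rw [ae_iff]
  refine measure_mono_null ?_ h0
  intro x hx hxX
  exact hx (hP x hxX)

/-- **Joint moments at the heights attached to the edges of a graph: finite sets.** -/
theorem joint_finite (hd : 1 ≤ d) (q : Pr k → ℕ) (N : ℕ) {ε : ℝ} (hε : 0 < ε) :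
    ∃ c : ℝ, 0 < c ∧ ∀ D : ℝ, 1 ≤ D → ∃ T₀ : ℝ, Real.exp 1 ≤ T₀ ∧ ∀ T : ℝ, T₀ ≤ T →
      ∀ X : Fin k → Finset (Fin d → ℝ), (∀ i, ∀ x ∈ X i, ∀ l, 0 ≤ x l ∧ x l ≤ 1) →
      (∀ i, ∀ u : Fin d → ℝ, ∀ Y ⊆ X i, (∀ x ∈ Y, ∀ l, |x l - u l| ≤ 1 / T) → (Y.card : ℝ) ≤ D) →
      (∀ p : Pr k, 1 ≤ q p → T ^ (d + ε) ≤ ((X p.1.1).card : ℝ) * (X p.1.2).card) →
      ∀ (β : Pr k → ℝ) (f g : Pr k → (Fin d → ℝ) → ℝ), (∀ p, 1 ≤ q p → 1 / D ≤ |β p| ∧ |β p| ≤ D) →
      (∀ x ∈ Fintype.piFinset X, ∀ p, 1 ≤ q p → ht T β f g p x ∈ Icc (T / D) (D * T)) →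
      ENNReal.ofReal (c * Real.log T ^ (∑ p, q p ^ 2) * ∏ i, ((X i).card : ℝ)) ≤
        ∑ x ∈ Fintype.piFinset X, ∏ p, (loc 1 N T (ht T β f g p x)) ^ q p := by
  classical
  obtain ⟨c, hc, hmain⟩ := joint hd q N (half_pos hε)
  refine ⟨c, hc, fun D hD => ?_⟩
  obtain ⟨T1, hT1e, hT1⟩ := hmain D hD
  obtain ⟨T2, hT2⟩ := eventually_atTop.mp ((tendsto_rpow_atTop (half_pos hε)).eventually_ge_atTop (D ^ 2))
  refine ⟨max T1 T2, hT1e.trans (le_max_left _ _), fun T hT X hX hXD hXc β f g hβ hht => ?_⟩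
  by_cases hne : ∀ i, (X i).Nonempty
  swap
  · push Not at hne
    obtain ⟨i, hi⟩ := hne
    have : ∏ i, ((X i).card : ℝ) = 0 := Finset.prod_eq_zero (Finset.mem_univ i) (by simp [hi])
    rw [this, mul_zero, ENNReal.ofReal_zero]
    exact bot_le
  have hTa : T1 ≤ T := (le_max_left _ _).trans hT
  have hTb := hT2 T ((le_max_right _ _).trans hT)
  have hTe : Real.exp 1 ≤ T := hT1e.trans hTa
  have hT1' : 1 ≤ T := by have := Real.add_one_le_exp (1:ℝ); linarith
  have hT0 : 0 < T := by linarith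
  haveI hpr : ∀ i, IsProbabilityMeasure (unif (X i)) := fun i => unif_prob (hne i)
  have hcard : ∀ i, (0:ℝ) < (X i).card := fun i => by exact_mod_cast Finset.card_pos.2 (hne i)
  -- measurable versions
  set U : Finset (Fin d → ℝ) := Finset.univ.biUnion X with hU
  set f' : Pr k → (Fin d → ℝ) → ℝ := fun p x => ∑ a ∈ U, Set.indicator {a} (fun _ => f p a) x with hf'
  set g' : Pr k → (Fin d → ℝ) → ℝ := fun p x => ∑ a ∈ U, Set.indicator {a} (fun _ => g p a) x with hg'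
  have hmeas : ∀ (h : Pr k → (Fin d → ℝ) → ℝ) (p : Pr k), Measurable fun x : Fin d → ℝ =>
      ∑ a ∈ U, Set.indicator {a} (fun _ => h p a) x := by
    intro h p
    refine Finset.measurable_sum _ fun a _ => ?_
    exact measurable_const.indicator (measurableSet_singleton a)
  have hval : ∀ (h : Pr k → (Fin d → ℝ) → ℝ) (p : Pr k) (x : Fin d → ℝ), x ∈ U →
      ∑ a ∈ U, Set.indicator {a} (fun _ => h p a) x = h p x := by
    intro h p x hx
    rw [Finset.sum_eq_single_of_mem x hx]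
    · exact Set.indicator_of_mem (Set.mem_singleton x) _
    · intro b _ hb
      exact Set.indicator_of_notMem (fun h' => hb (Set.mem_singleton_iff.1 h').symm) _
  have hht' : ∀ x ∈ Fintype.piFinset X, ∀ p, ht T β f' g' p x = ht T β f g p x := by
    intro x hx p
    have hxU : ∀ i, x i ∈ U := fun i => Finset.mem_biUnion.2 ⟨i, Finset.mem_univ i, Fintype.mem_piFinset.1 hx i⟩
    unfold ht
    rw [hf', hg']
    simp only
    rw [hval f p _ (hxU _), hval g p _ (hxU _)]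
  have hA : ∀ i, ∀ u : Fin d → ℝ, unif (X i) {x | ∀ l, |x l - u l| ≤ 1 / T} ≤ ENNReal.ofReal (D / (X i).card) := by
    intro i u
    have hms : MeasurableSet {x : Fin d → ℝ | ∀ l, |x l - u l| ≤ 1 / T} := by
      have : {x : Fin d → ℝ | ∀ l, |x l - u l| ≤ 1 / T} = ⋂ l, {x | |x l - u l| ≤ 1 / T} := by
        ext x; simp
      rw [this]
      exact MeasurableSet.iInter fun l => measurableSet_le (by fun_prop) measurable_const
    rw [unif_apply _ hms]
    set Y := (X i).filter (fun x => ∀ l, |x l - u l| ≤ 1 / T) with hY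
    have h1 : ∑ x ∈ X i, ({x : Fin d → ℝ | ∀ l, |x l - u l| ≤ 1 / T}).indicator (1 : (Fin d → ℝ) → ℝ≥0∞) x = Y.card := by
      rw [hY, Finset.card_filter]
      push_cast
      refine Finset.sum_congr rfl fun x _ => ?_
      by_cases h : ∀ l, |x l - u l| ≤ 1 / T
      · rw [Set.indicator_of_mem (by exact h), if_pos h]; rfl
      · rw [Set.indicator_of_notMem (by exact h), if_neg h]
    rw [h1]
    have h2 : (Y.card : ℝ) ≤ D := hXD i u Y (Finset.filter_subset _ _) fun x hx => (Finset.mem_filter.1 hx).2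
    rw [ENNReal.ofReal_div_of_pos (hcard i), ENNReal.div_eq_inv_mul]
    have h3 : ENNReal.ofReal ((X i).card : ℝ) = ((X i).card : ℝ≥0∞) := ENNReal.ofReal_natCast _
    rw [h3]
    gcongr
    rw [← ENNReal.ofReal_natCast]
    exact ENNReal.ofReal_le_ofReal h2
  have hAA : ∀ p : Pr k, 1 ≤ q p → D / (X p.1.1).card * (D / (X p.1.2).card) ≤ T ^ (-(d + ε / 2)) := by
    intro p hp
    have h1 := hXc p hp
    have h2 : 0 < ((X p.1.1).card : ℝ) * (X p.1.2).card := mul_pos (hcard _) (hcard _)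
    calc D / (X p.1.1).card * (D / (X p.1.2).card) = D ^ 2 / ((X p.1.1).card * (X p.1.2).card) := by
          rw [div_mul_div_comm, sq]
      _ ≤ T ^ (ε / 2) / T ^ (d + ε) := by gcongr
      _ = T ^ (-(d + ε / 2)) := by
          rw [← Real.rpow_sub hT0]; congr 1; ring
  have hbase := hT1 T hTa (fun i => unif (X i)) hpr (fun i => unif_ae (X i) fun x hx => hX i x hx)
    (fun i => D / (X i).card) (fun i => by have := hcard i; positivity) hA hAA β f' g' hβ (hmeas f) (hmeas g)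
    (unif_pi_ae X hne fun x hx p hp => by rw [hht' x hx p]; exact hht x hx p hp)
  rw [lintegral_unif_pi X hne] at hbase
  have hsum : ∑ x ∈ Fintype.piFinset X, ∏ p, (loc 1 N T (ht T β f' g' p x)) ^ q p =
      ∑ x ∈ Fintype.piFinset X, ∏ p, (loc 1 N T (ht T β f g p x)) ^ q p :=
    Finset.sum_congr rfl fun x hx => Finset.prod_congr rfl fun p _ => by rw [hht' x hx p]
  rw [hsum] at hbase
  have hP0 : (∏ i, ((X i).card : ℝ≥0∞)) ≠ 0 := by
    rw [Finset.prod_ne_zero_iff]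
    intro i _
    exact_mod_cast (Finset.card_pos.2 (hne i)).ne'
  have hPt : (∏ i, ((X i).card : ℝ≥0∞)) ≠ ⊤ := by
    rw [← Nat.cast_prod]; exact ENNReal.natCast_ne_top _
  have hinv : (∏ i, ((X i).card : ℝ≥0∞)⁻¹) = (∏ i, ((X i).card : ℝ≥0∞))⁻¹ := by
    refine ENNReal.eq_inv_of_mul_eq_one_left ?_
    rw [← Finset.prod_mul_distrib]
    refine Finset.prod_eq_one fun i _ => ENNReal.inv_mul_cancel ?_ (ENNReal.natCast_ne_top _)
    exact_mod_cast (Finset.card_pos.2 (hne i)).ne'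
  rw [hinv] at hbase
  have hlog : 0 ≤ c * Real.log T ^ (∑ p, q p ^ 2) := by
    have := Real.log_nonneg hT1'
    positivity
  have e1 : ENNReal.ofReal (c * Real.log T ^ (∑ p, q p ^ 2) * ∏ i, ((X i).card : ℝ)) =
      (∏ i, ((X i).card : ℝ≥0∞)) * ENNReal.ofReal (c * Real.log T ^ (∑ p, q p ^ 2)) := by
    rw [ENNReal.ofReal_mul hlog, mul_comm, ENNReal.ofReal_prod_of_nonneg fun _ _ => Nat.cast_nonneg _]
    congr 1
    exact Finset.prod_congr rfl fun i _ => ENNReal.ofReal_natCast _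
  rw [e1]
  calc (∏ i, ((X i).card : ℝ≥0∞)) * ENNReal.ofReal (c * Real.log T ^ (∑ p, q p ^ 2)) ≤
        (∏ i, ((X i).card : ℝ≥0∞)) * ((∏ i, ((X i).card : ℝ≥0∞))⁻¹ *
          ∑ x ∈ Fintype.piFinset X, ∏ p, (loc 1 N T (ht T β f g p x)) ^ q p) := by gcongr
    _ = _ := by rw [← mul_assoc, ENNReal.mul_inv_cancel hP0 hPt, one_mul]

end

end Pool.Agent.H86.PY
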